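import Pool.Agent.Lib_MP_5027f4_ell.Defs

/-!
# AlgA: roots of a palindromic quartic
-/

open Complex Set Filter Topology MeasureTheory Polynomial
open scoped Real Matrix ComplexConjugate

namespace Pool.Agent.MP_5027f4_ell

/-- Two numbers with given sum and product. -/
theorem exists_sum_prod (T p : ℂ) : ∃ x y : ℂ, x + y = T ∧ x * y = p ∧ (x - y) ^ 2 = T ^ 2 - 4 * p := by
  obtain ⟨d, hd⟩ := IsAlgClosed.exists_pow_nat_eq (T ^ 2 - 4 * p) (n := 2) (by norm_num)
  refine ⟨(T + d) / 2, (T - d) / 2, by ring, ?_, ?_⟩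
  · linear_combination (-1 / 4 : ℂ) * hd
  · linear_combination hd

theorem cube_ne_of_pair {x y : ℂ} (hxy : x * y = 1) (h1 : x ≠ 1) (hs : x + y + 1 ≠ 0) :
    x * x * x ≠ 1 := by
  intro h
  have h' : (x - 1) * (x ^ 2 * (x + y + 1)) = 0 := by
    linear_combination x * h + (x - 1) * x * hxy
  rcases mul_eq_zero.1 h' with h' | h'
  · exact h1 (by linear_combination h')
  rcases mul_eq_zero.1 h' with h' | h'
  · have : x = 0 := by simpa using h'
    rw [this] at hxy; simp at hxy
  · exact hs h'

theorem sq_mul_ne_of_pairs {x x' y y' : ℂ} (hx : x * x' = 1) (hy : y * y' = 1)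
    (hne : y + y' - (x + x') ^ 2 + 2 ≠ 0) : x * x * y ≠ 1 := by
  intro h
  apply hne
  have e1 : y' = x * x := by linear_combination (- y') * h + (x * x) * hy
  have e2 : y = x' * x' := by
    linear_combination (x' * x') * h + (- y * (x * x' + 1)) * hx
  rw [e1, e2]; linear_combination (-2 : ℂ) * hx

theorem roots_generic (T p : ℂ) (h1 : T ^ 2 - 4 * p ≠ 0) (h2 : 4 - 2 * T + p ≠ 0)
    (h3 : 4 + 2 * T + p ≠ 0) (h4 : 1 + T + p ≠ 0) (h5 : Rpol T p ≠ 0) :
    ∃ a : Fin 4 → ℂ, Function.Injective a ∧
      (Polynomial.X ^ 4 - Polynomial.C T * Polynomial.X ^ 3 + Polynomial.C (p + 2) *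
        Polynomial.X ^ 2 - Polynomial.C T * Polynomial.X + 1 : Polynomial ℂ) =
        ∏ i, (Polynomial.X - Polynomial.C (a i)) ∧
      (∏ i, a i = 1) ∧ ∀ i j k, a i * a j * a k ≠ 1 := by
  obtain ⟨z, w, hT, hp, hzw⟩ := exists_sum_prod T p
  obtain ⟨a, a', ha, haa, haz⟩ := exists_sum_prod z 1
  obtain ⟨b, b', hb, hbb, hbz⟩ := exists_sum_prod w 1
  have hzw0 : z ≠ w := by
    rintro rfl
    apply h1
    rw [← hzw]; ring
  have hz2 : (z - 2) * (w - 2) ≠ 0 := by
    intro h; apply h2; rw [← hT, ← hp]; linear_combination h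
  have hz3 : (z + 2) * (w + 2) ≠ 0 := by
    intro h; apply h3; rw [← hT, ← hp]; linear_combination h
  have hz4 : (z + 1) * (w + 1) ≠ 0 := by
    intro h; apply h4; rw [← hT, ← hp]; linear_combination h
  have hz5 : (w - z ^ 2 + 2) * (z - w ^ 2 + 2) ≠ 0 := by
    intro h; apply h5; rw [← hT, ← hp]; unfold Rpol; linear_combination h
  have hz2a := left_ne_zero_of_mul hz2
  have hz2b := right_ne_zero_of_mul hz2
  have hz3a := left_ne_zero_of_mul hz3
  have hz3b := right_ne_zero_of_mul hz3
  have hz4a := left_ne_zero_of_mul hz4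
  have hz4b := right_ne_zero_of_mul hz4
  have hz5a := left_ne_zero_of_mul hz5
  have hz5b := right_ne_zero_of_mul hz5
  clear hz2 hz3 hz4 hz5 h1 h2 h3 h4 h5 hzw
  subst hT hp ha hb
  have haa' : a' * a = 1 := by rw [mul_comm]; exact haa
  have hbb' : b' * b = 1 := by rw [mul_comm]; exact hbb
  -- no root is one
  have A1 : a ≠ 1 := by
    rintro rfl; apply hz2a; linear_combination haa
  have A1' : a' ≠ 1 := by
    rintro rfl; apply hz2a; linear_combination haa
  have B1 : b ≠ 1 := by
    rintro rfl; apply hz2b; linear_combination hbb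
  have B1' : b' ≠ 1 := by
    rintro rfl; apply hz2b; linear_combination hbb
  have A3 : a * a * a ≠ 1 := cube_ne_of_pair haa A1 hz4a
  have A3' : a' * a' * a' ≠ 1 := cube_ne_of_pair haa' A1' (by rwa [add_comm a' a])
  have B3 : b * b * b ≠ 1 := cube_ne_of_pair hbb B1 hz4b
  have B3' : b' * b' * b' ≠ 1 := cube_ne_of_pair hbb' B1' (by rwa [add_comm b' b])
  have C1 : a * a * b ≠ 1 := sq_mul_ne_of_pairs haa hbb hz5a
  have C2 : a * a * b' ≠ 1 := sq_mul_ne_of_pairs haa hbb' (by rwa [add_comm b' b])
  have C3 : a' * a' * b ≠ 1 := sq_mul_ne_of_pairs haa' hbb (by rwa [add_comm a' a])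
  have C4 : a' * a' * b' ≠ 1 :=
    sq_mul_ne_of_pairs haa' hbb' (by rwa [add_comm a' a, add_comm b' b])
  have D1 : b * b * a ≠ 1 := sq_mul_ne_of_pairs hbb haa hz5b
  have D2 : b * b * a' ≠ 1 := sq_mul_ne_of_pairs hbb haa' (by rwa [add_comm a' a])
  have D3 : b' * b' * a ≠ 1 := sq_mul_ne_of_pairs hbb' haa (by rwa [add_comm b' b])
  have D4 : b' * b' * a' ≠ 1 :=
    sq_mul_ne_of_pairs hbb' haa' (by rwa [add_comm a' a, add_comm b' b])
  -- distinctness
  have E1 : a ≠ a' := by
    rintro rfl
    have : (a - 1) * (a + a + 2) = 0 := by linear_combination 2 * haa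
    rcases mul_eq_zero.1 this with h | h
    · exact A1 (by linear_combination h)
    · exact hz3a h
  have E2 : b ≠ b' := by
    rintro rfl
    have : (b - 1) * (b + b + 2) = 0 := by linear_combination 2 * hbb
    rcases mul_eq_zero.1 this with h | h
    · exact B1 (by linear_combination h)
    · exact hz3b h
  have key : ∀ x x' y y' : ℂ, x * x' = 1 → y * y' = 1 → x + x' ≠ y + y' → x ≠ y := by
    rintro x x' y y' hx hy hne rfl
    apply hne
    have : x' = y' := by
      linear_combination y' * hx - x' * hy
    rw [this]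
  have E3 : a ≠ b := key a a' b b' haa hbb hzw0
  have E4 : a ≠ b' := key a a' b' b haa hbb' (by rwa [add_comm b' b])
  have E5 : a' ≠ b := key a' a b b' haa' hbb (by rwa [add_comm a' a])
  have E6 : a' ≠ b' := key a' a b' b haa' hbb' (by rwa [add_comm a' a, add_comm b' b])
  refine ⟨![a, a', b, b'], ?_, ?_, ?_, ?_⟩
  · intro i j hij
    fin_cases i <;> fin_cases j <;> simp at hij ⊢ <;>
      first
        | exact E1 hij | exact E1 hij.symm | exact E2 hij | exact E2 hij.symm
        | exact E3 hij | exact E3 hij.symm | exact E4 hij | exact E4 hij.symm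
        | exact E5 hij | exact E5 hij.symm | exact E6 hij | exact E6 hij.symm
  · simp only [Fin.prod_univ_four]
    have e1 : (Polynomial.C a * Polynomial.C a' : Polynomial ℂ) = 1 := by
      rw [← Polynomial.C_mul, haa, Polynomial.C_1]
    have e2 : (Polynomial.C b * Polynomial.C b' : Polynomial ℂ) = 1 := by
      rw [← Polynomial.C_mul, hbb, Polynomial.C_1]
    simp only [Matrix.cons_val_zero, Matrix.cons_val_one, Matrix.cons_val, Polynomial.C_add,
      Polynomial.C_mul]
    have e3 : (Polynomial.C (2 : ℂ) : Polynomial ℂ) = 2 := rfl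
    rw [e3]
    linear_combination (-(Polynomial.X ^ 2) + (Polynomial.C b + Polynomial.C b') * Polynomial.X
      - Polynomial.C b * Polynomial.C b') * e1 + (-(Polynomial.X ^ 2) +
      (Polynomial.C a + Polynomial.C a') * Polynomial.X - 1) * e2
  · simp only [Fin.prod_univ_four, Matrix.cons_val_zero, Matrix.cons_val_one, Matrix.cons_val]
    linear_combination b * b' * haa + hbb
  · intro i j k h
    have h' : ∀ x y t : ℂ, x * y * t = 1 → x * t * y = 1 := fun x y t h => by
      linear_combination h
    fin_cases i <;> fin_cases j <;> fin_cases k <;>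
      simp only [Fin.zero_eta, Fin.mk_one, Fin.reduceFinMk, Matrix.cons_val_zero,
        Matrix.cons_val_one, Matrix.cons_val] at h <;>
      first
        | exact A3 h | exact A3' h | exact B3 h | exact B3' h
        | exact C1 (by linear_combination h) | exact C2 (by linear_combination h)
        | exact C3 (by linear_combination h) | exact C4 (by linear_combination h)
        | exact D1 (by linear_combination h) | exact D2 (by linear_combination h)
        | exact D3 (by linear_combination h) | exact D4 (by linear_combination h)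
        | exact A1 (by linear_combination h - a * haa)
        | exact A1 (by linear_combination h - a * hbb)
        | exact A1' (by linear_combination h - a' * haa)
        | exact A1' (by linear_combination h - a' * hbb)
        | exact B1 (by linear_combination h - b * haa)
        | exact B1 (by linear_combination h - b * hbb)
        | exact B1' (by linear_combination h - b' * haa)
        | exact B1' (by linear_combination h - b' * hbb)

end Pool.Agent.MP_5027f4_ell
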