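import Pool.Agent.Lib_MP_5027f4_ell.Defs

/-!
# AlgB: a matrix with four distinct eigenvalues is diagonalisable
-/

open Complex Set Filter Topology MeasureTheory Polynomial
open scoped Real Matrix ComplexConjugate

namespace Pool.Agent.MP_5027f4_ell

theorem exists_diag (M : Mat) (a : Fin 4 → ℂ) (ha : Function.Injective a)
    (h : M.charpoly = ∏ i, (Polynomial.X - Polynomial.C (a i))) : ∃ P Q, IsDiag M a P Q := by
  have hroot : ∀ i, M.charpoly.IsRoot (a i) := by
    intro i
    rw [h, Polynomial.IsRoot.def, Polynomial.eval_prod]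
    exact Finset.prod_eq_zero (Finset.mem_univ i) (by simp)
  have hev : ∀ i, ∃ v : Fin 4 → ℂ, v ≠ 0 ∧ M *ᵥ v = a i • v := by
    intro i
    have h1 : (Matrix.scalar (Fin 4) (a i) - M).det = 0 := by
      have := hroot i
      rw [Polynomial.IsRoot.def, Matrix.eval_charpoly] at this
      exact this
    obtain ⟨v, hv, hv2⟩ := Matrix.exists_mulVec_eq_zero_iff.2 h1
    refine ⟨v, hv, ?_⟩
    rw [Matrix.sub_mulVec, sub_eq_zero] at hv2
    rw [← hv2]
    ext j
    simp [Matrix.mulVec, Matrix.scalar, dotProduct, Matrix.diagonal_apply]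
  choose v hv0 hv using hev
  have hli : LinearIndependent ℂ v := by
    have := Module.End.eigenvectors_linearIndependent' (Matrix.toLin' M) a ha v ?_
    · exact this
    · intro i
      rw [Module.End.hasEigenvector_iff]
      refine ⟨?_, hv0 i⟩
      rw [Module.End.mem_eigenspace_iff, Matrix.toLin'_apply]
      exact hv i
  let P : Mat := Matrix.of fun i j => v j i
  have hcol : P.col = v := by
    ext j i; rfl
  have hU : IsUnit P := by
    rw [← Matrix.linearIndependent_cols_iff_isUnit, hcol]
    exact hli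
  have hdet : IsUnit P.det := (Matrix.isUnit_iff_isUnit_det P).1 hU
  refine ⟨P, P⁻¹, Matrix.mul_nonsing_inv P hdet, Matrix.nonsing_inv_mul P hdet, ?_⟩
  ext i j
  rw [Matrix.mul_diagonal]
  have := congrFun (hv j) i
  rw [Pi.smul_apply, smul_eq_mul] at this
  rw [mul_comm]
  exact this

end Pool.Agent.MP_5027f4_ell
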