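import Pool.Agent.Lib_MP_5027f4_ell.Defs

/-!
# AlgC: conjugation structure of the eigenbasis of a real matrix
-/

open Complex Set Filter Topology MeasureTheory Polynomial
open scoped Real Matrix ComplexConjugate

namespace Pool.Agent.MP_5027f4_ell

set_option maxRecDepth 100000 in
theorem invol_fixed : ∀ σ : Fin 4 → Fin 4, (∀ i, σ (σ i) = i) → ∀ i, σ i = i →
    ∃ j, j ≠ i ∧ σ j = j := by decide

set_option maxRecDepth 100000 in
theorem invol_order : ∀ σ : Fin 4 → Fin 4, (∀ i, σ (σ i) = i) → (∀ i, σ i ≠ i) →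
    ∃ k, Function.Injective ![0, σ 0, k, σ k] := by decide

/-- the index involution exchanging `0, 1` and `2, 3` -/
def swp : Fin 4 → Fin 4 := ![1, 0, 3, 2]

theorem swp_inj : ∀ i j, swp i = swp j ↔ i = j := by decide

theorem exists_realStr (M : Mat) (hM : IsRealMat M) (a : Fin 4 → ℂ) (P Q : Mat)
    (hD : IsDiag M a P Q) (ha : Function.Injective a) (h1 : ∀ i, ‖a i‖ = 1)
    (h3 : ∀ i j k, a i * a j * a k ≠ 1) :
    ∃ (a' : Fin 4 → ℂ) (P' Q' : Mat), IsDiag M a' P' Q' ∧ RealStr a' P' Q' ∧
      Function.Injective a' ∧ (∀ i, ‖a' i‖ = 1) ∧ ∀ i j k, a' i * a' j * a' k ≠ 1 := by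
  have hQM : Q * M = Matrix.diagonal a * Q := by
    calc Q * M = Q * M * (P * Q) := by rw [hD.PQ, Matrix.mul_one]
      _ = Q * (M * P) * Q := by simp only [Matrix.mul_assoc]
      _ = Matrix.diagonal a * Q := by
        rw [hD.MP, ← Matrix.mul_assoc Q P, hD.QP, Matrix.one_mul]
  have hMv : ∀ i, (M *ᵥ fun k => P k i) = a i • fun k => P k i := by
    intro i
    ext k
    have := congrFun (congrFun hD.MP k) i
    rw [Matrix.mul_diagonal] at this
    rw [Pi.smul_apply, smul_eq_mul, mul_comm]; exact this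
  have hMvb : ∀ i, (M *ᵥ fun k => conj (P k i)) = conj (a i) • fun k => conj (P k i) := by
    intro i
    ext k
    have := congrArg (starRingEnd ℂ) (congrFun (hMv i) k)
    rw [Pi.smul_apply, smul_eq_mul, map_mul] at this
    simp only [Pi.smul_apply, smul_eq_mul]
    rw [← this]
    simp only [Matrix.mulVec, dotProduct, map_sum, map_mul, hM k _]
  have hP0 : ∀ i, ∃ k, P k i ≠ 0 := by
    intro i
    by_contra hcon
    push Not at hcon
    have h1 : (Q * P) i i = 1 := by rw [hD.QP, Matrix.one_apply_eq]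
    have h2 : (Q * P) i i = 0 := by
      rw [Matrix.mul_apply]
      exact Finset.sum_eq_zero fun k _ => by rw [hcon k, mul_zero]
    rw [h1] at h2
    exact one_ne_zero h2
  have hsig : ∀ i, ∃ j, a j = conj (a i) := by
    intro i
    have hne : ∃ j, (Q *ᵥ fun k => conj (P k i)) j ≠ 0 := by
      by_contra hcon
      push Not at hcon
      obtain ⟨k, hk⟩ := hP0 i
      apply hk
      have : (fun k => conj (P k i)) = P *ᵥ (Q *ᵥ fun k => conj (P k i)) := by
        rw [Matrix.mulVec_mulVec, hD.PQ, Matrix.one_mulVec]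
      have h0 : (Q *ᵥ fun k => conj (P k i)) = 0 := funext hcon
      rw [h0, Matrix.mulVec_zero] at this
      have := congrFun this k
      simpa using this
    obtain ⟨j, hj⟩ := hne
    refine ⟨j, ?_⟩
    have h1 : Q *ᵥ (M *ᵥ fun k => conj (P k i)) =
        Matrix.diagonal a *ᵥ (Q *ᵥ fun k => conj (P k i)) := by
      rw [Matrix.mulVec_mulVec, hQM, Matrix.mulVec_mulVec]
    rw [hMvb, Matrix.mulVec_smul] at h1
    have h2 := congrFun h1 j
    rw [Matrix.mulVec_diagonal] at h2
    simp only [Pi.smul_apply, smul_eq_mul] at h2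
    exact (mul_right_cancel₀ hj h2).symm
  choose σ hσ using hsig
  have hinv : ∀ i, σ (σ i) = i := by
    intro i
    apply ha
    rw [hσ, hσ, Complex.conj_conj]
  have hreal : ∀ i, σ i = i → a i = -1 := by
    intro i hi
    have h2 : a i = conj (a i) := by rw [← hσ, hi]
    have h4 : a i * a i = 1 := by
      have : a i * conj (a i) = 1 := by
        rw [Complex.mul_conj, Complex.normSq_eq_norm_sq, h1 i]; norm_num
      rwa [← h2] at this
    rcases mul_self_eq_one_iff.1 h4 with h | h
    · exfalso; apply h3 i i i; rw [h]; norm_num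
    · exact h
  have hfree : ∀ i, σ i ≠ i := by
    intro i hi
    obtain ⟨j, hj, hj2⟩ := invol_fixed σ hinv i hi
    exact hj (ha (by rw [hreal i hi, hreal j hj2]))
  obtain ⟨k0, hk0⟩ := invol_order σ hinv hfree
  set τ : Fin 4 → Fin 4 := ![0, σ 0, k0, σ k0] with hτ
  set a' : Fin 4 → ℂ := a ∘ τ with ha'def
  let P' : Mat := Matrix.of fun i j => ![P i 0, conj (P i 0), P i k0, conj (P i k0)] j
  have ha' : Function.Injective a' := ha.comp hk0
  have hcolev : ∀ j, (M *ᵥ fun k => P' k j) = a' j • fun k => P' k j := by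
    intro j
    fin_cases j
    · exact hMv 0
    · change (M *ᵥ fun k => conj (P k 0)) = a (σ 0) • fun k => conj (P k 0)
      rw [hσ]; exact hMvb 0
    · exact hMv k0
    · change (M *ᵥ fun k => conj (P k k0)) = a (σ k0) • fun k => conj (P k k0)
      rw [hσ]; exact hMvb k0
  have hcol0 : ∀ j, (fun k => P' k j) ≠ 0 := by
    intro j
    fin_cases j
    · obtain ⟨k, hk⟩ := hP0 0
      intro h; exact hk (congrFun h k)
    · obtain ⟨k, hk⟩ := hP0 0
      intro h; apply hk
      have := congrFun h k
      change conj (P k 0) = 0 at this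
      simpa using this
    · obtain ⟨k, hk⟩ := hP0 k0
      intro h; exact hk (congrFun h k)
    · obtain ⟨k, hk⟩ := hP0 k0
      intro h; apply hk
      have := congrFun h k
      change conj (P k k0) = 0 at this
      simpa using this
  have hli : LinearIndependent ℂ (fun j k => P' k j) := by
    refine Module.End.eigenvectors_linearIndependent' (Matrix.toLin' M) a' ha' _ ?_
    intro i
    rw [Module.End.hasEigenvector_iff]
    refine ⟨?_, hcol0 i⟩
    rw [Module.End.mem_eigenspace_iff, Matrix.toLin'_apply]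
    exact hcolev i
  have hU : IsUnit P' := by
    rw [← Matrix.linearIndependent_cols_iff_isUnit]
    exact hli
  have hdet : IsUnit P'.det := (Matrix.isUnit_iff_isUnit_det P').1 hU
  have hPQ : P' * P'⁻¹ = 1 := Matrix.mul_nonsing_inv P' hdet
  have hQP : P'⁻¹ * P' = 1 := Matrix.nonsing_inv_mul P' hdet
  set Q' : Mat := P'⁻¹ with hQ'
  have hPsw : ∀ i j, conj (P' i j) = P' i (swp j) := by
    intro i j
    fin_cases j
    · rfl
    · change conj (conj (P i 0)) = P i 0
      exact Complex.conj_conj _
    · rfl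
    · change conj (conj (P i k0)) = P i k0
      exact Complex.conj_conj _
  have hQsw : ∀ i j, conj (Q' (swp i) j) = Q' i j := by
    let R : Mat := Matrix.of fun i j => conj (Q' (swp i) j)
    have hR : R * P' = 1 := by
      ext i j
      rw [Matrix.mul_apply]
      have e1 : ∀ k, R i k * P' k j = conj (Q' (swp i) k * P' k (swp j)) := by
        intro k
        rw [map_mul, ← hPsw, Complex.conj_conj]; rfl
      rw [Finset.sum_congr rfl fun k _ => e1 k, ← map_sum]
      have e2 : ∑ k, Q' (swp i) k * P' k (swp j) = (Q' * P') (swp i) (swp j) := by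
        rw [Matrix.mul_apply]
      rw [e2, hQP, Matrix.one_apply, Matrix.one_apply]
      simp only [swp_inj]
      split_ifs <;> simp
    have hRQ : R = Q' := by
      calc R = R * (P' * Q') := by rw [hPQ, Matrix.mul_one]
        _ = Q' := by rw [← Matrix.mul_assoc, hR, Matrix.one_mul]
    intro i j
    exact congrFun (congrFun hRQ i) j
  refine ⟨a', P', Q', ⟨hPQ, hQP, ?_⟩, ⟨?_, ?_, ?_, ?_, ?_, ?_⟩, ha', fun i => h1 _,
    fun i j k => h3 _ _ _⟩
  · ext i j
    rw [Matrix.mul_diagonal]
    have := congrFun (hcolev j) i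
    rw [Pi.smul_apply, smul_eq_mul] at this
    rw [mul_comm]
    exact this
  · exact hσ 0
  · exact hσ k0
  · intro i; rfl
  · intro i; rfl
  · intro i; exact (hQsw 1 i).symm
  · intro i; exact (hQsw 3 i).symm

end Pool.Agent.MP_5027f4_ell
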