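import Pool.Agent.Lib_MP_5027f4_ell.Defs

/-!
# The interaction picture: explicit change of variables at `e = i / h`
-/

open Complex Set Filter Topology MeasureTheory
open scoped Real Matrix ComplexConjugate

namespace Pool.Agent.MP_5027f4_ell

/-- Entrywise derivative of a product of matrix functions. -/
lemma ib_mul {F G : ℝ → Mat} {F' G' : Mat} {θ : ℝ}
    (hF : ∀ i j, HasDerivAt (fun t => F t i j) (F' i j) θ)
    (hG : ∀ i j, HasDerivAt (fun t => G t i j) (G' i j) θ) (i j : Fin 4) :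
    HasDerivAt (fun t => (F t * G t) i j) ((F' * G θ + F θ * G') i j) θ := by
  have h := HasDerivAt.fun_sum (u := Finset.univ) fun k _ => (hF i k).mul (hG k j)
  have e1 : (fun t => (F t * G t) i j) = fun t => ∑ k, F t i k * G t k j := by
    funext t
    rw [Matrix.mul_apply]
  have e2 : (F' * G θ + F θ * G') i j = ∑ k, (F' i k * G θ k j + F θ i k * G' k j) := by
    rw [Matrix.add_apply, Matrix.mul_apply, Matrix.mul_apply, Finset.sum_add_distrib]
  rw [e1, e2]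
  exact h

/-- The inverse of the change of variables, in terms of `a = cos θ sin θ`, `b = cos² θ`. -/
def ibTi (a b : ℂ) : Mat :=
  !![1, 0, a, b; 0, 1, -b, a; 0, 0, 2 * b - 1, -(2 * a); 0, 0, 2 * a, 2 * b - 1]

/-- The change of variables. -/
def ibT (a b : ℂ) : Mat :=
  !![1, 0, a, -b; 0, 1, b, a; 0, 0, 2 * b - 1, 2 * a; 0, 0, -(2 * a), 2 * b - 1]

/-- The derivative of `ibTi`. -/
def ibTi' (a b : ℂ) : Mat :=
  !![0, 0, 2 * b - 1, -(2 * a); 0, 0, 2 * a, 2 * b - 1; 0, 0, -(4 * a), -(2 * (2 * b - 1));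
    0, 0, 2 * (2 * b - 1), -(4 * a)]

/-- `cos θ sin θ` -/
noncomputable def iba (θ : ℝ) : ℂ := ((Real.cos θ * Real.sin θ : ℝ) : ℂ)

/-- `cos² θ` -/
noncomputable def ibb (θ : ℝ) : ℂ := ((Real.cos θ ^ 2 : ℝ) : ℂ)

lemma iba_ibb (θ : ℝ) : iba θ ^ 2 + ibb θ ^ 2 = ibb θ := by
  unfold iba ibb
  have h := Real.sin_sq_add_cos_sq θ
  have : (Real.cos θ * Real.sin θ) ^ 2 + (Real.cos θ ^ 2) ^ 2 = Real.cos θ ^ 2 := by
    linear_combination Real.cos θ ^ 2 * h
  exact_mod_cast this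

lemma ibT_mul (a b : ℂ) (h : a ^ 2 + b ^ 2 = b) : ibT a b * ibTi a b = 1 := by
  ext i j
  fin_cases i <;> fin_cases j <;>
    simp [ibT, ibTi, Matrix.mul_apply, Fin.sum_univ_four, Matrix.one_apply] <;>
    first
    | ring1
    | linear_combination 2 * h
    | linear_combination (-2) * h
    | linear_combination 4 * h

lemma ibTi_mul (a b : ℂ) (h : a ^ 2 + b ^ 2 = b) : ibTi a b * ibT a b = 1 := by
  ext i j
  fin_cases i <;> fin_cases j <;>
    simp [ibT, ibTi, Matrix.mul_apply, Fin.sum_univ_four, Matrix.one_apply] <;>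
    first
    | ring1
    | linear_combination 2 * h
    | linear_combination (-2) * h
    | linear_combination 4 * h

lemma iba_deriv (θ : ℝ) : HasDerivAt iba (2 * ibb θ - 1) θ := by
  have h := (((Real.hasDerivAt_cos θ).mul (Real.hasDerivAt_sin θ))).ofReal_comp
  have e : (((-Real.sin θ * Real.sin θ + Real.cos θ * Real.cos θ : ℝ)) : ℂ) = 2 * ibb θ - 1 := by
    unfold ibb
    have h1 := Real.sin_sq_add_cos_sq θ
    have : -Real.sin θ * Real.sin θ + Real.cos θ * Real.cos θ = 2 * Real.cos θ ^ 2 - 1 := by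
      linear_combination (-1) * h1
    rw [this]
    push_cast
    ring
  rw [← e]
  exact h

lemma ibb_deriv (θ : ℝ) : HasDerivAt ibb (-(2 * iba θ)) θ := by
  have h := (((Real.hasDerivAt_cos θ).pow 2)).ofReal_comp
  have e : (((2 : ℕ) * Real.cos θ ^ (2 - 1) * -Real.sin θ : ℝ) : ℂ) = -(2 * iba θ) := by
    unfold iba
    push_cast
    ring
  rw [← e]
  exact h

lemma ibTi_deriv (θ : ℝ) (i j : Fin 4) :
    HasDerivAt (fun t => ibTi (iba t) (ibb t) i j) (ibTi' (iba θ) (ibb θ) i j) θ := by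
  have ha := iba_deriv θ
  have hb := ibb_deriv θ
  have h2a : HasDerivAt (fun t => 2 * iba t) (2 * (2 * ibb θ - 1)) θ := ha.const_mul 2
  have h2b : HasDerivAt (fun t => 2 * ibb t - 1) (-(4 * iba θ)) θ := by
    have := (hb.const_mul 2).sub_const 1
    have e : (2 : ℂ) * -(2 * iba θ) = -(4 * iba θ) := by ring
    rw [e] at this
    exact this
  have hc : ∀ c : ℂ, HasDerivAt (fun _ : ℝ => c) 0 θ := fun c => hasDerivAt_const θ c
  have hbn : HasDerivAt (fun t => -ibb t) (2 * iba θ) θ := by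
    have := hb.neg
    rwa [neg_neg] at this
  fin_cases i <;> fin_cases j
  · exact hc 1
  · exact hc 0
  · exact ha
  · exact hb
  · exact hc 0
  · exact hc 1
  · exact hbn
  · exact ha
  · exact hc 0
  · exact hc 0
  · exact h2b
  · exact h2a.neg
  · exact hc 0
  · exact hc 0
  · exact h2a
  · exact h2b

lemma ib_ode (s h θ : ℝ) :
    ibTi' (iba θ) (ibb θ) + ibTi (iba θ) (ibb θ) * Bs s (I / (h : ℂ)) θ =
      Ah s h θ * ibTi (iba θ) (ibb θ) := by
  have hab := iba_ibb θ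
  have hc2 : ((Real.cos (2 * θ) : ℝ) : ℂ) = 2 * ibb θ - 1 := by
    unfold ibb
    rw [Real.cos_two_mul]
    push_cast
    ring
  have hs2 : ((Real.sin (2 * θ) : ℝ) : ℂ) = 2 * iba θ := by
    unfold iba
    rw [Real.sin_two_mul]
    push_cast
    ring
  have hA : Ar s θ =
      !![iba θ * (3 / 2 * (1 + s) : ℝ), ibb θ * (3 / 2 * (1 - s) : ℝ),
          iba θ ^ 2 * (3 / 2 * (1 + s) : ℝ) + ibb θ ^ 2 * (3 / 2 * (1 - s) : ℝ),
          iba θ * ibb θ * ((3 / 2 * (1 - s) : ℝ) - (3 / 2 * (1 + s) : ℝ));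
        -ibb θ * (3 / 2 * (1 + s) : ℝ), iba θ * (3 / 2 * (1 - s) : ℝ),
          iba θ * ibb θ * ((3 / 2 * (1 - s) : ℝ) - (3 / 2 * (1 + s) : ℝ)),
          ibb θ ^ 2 * (3 / 2 * (1 + s) : ℝ) + iba θ ^ 2 * (3 / 2 * (1 - s) : ℝ);
        (2 * ibb θ - 1) * (3 / 2 * (1 + s) : ℝ), -(2 * iba θ) * (3 / 2 * (1 - s) : ℝ),
          (2 * ibb θ - 1) * (3 / 2 * (1 + s) : ℝ) * iba θ -
            (2 * iba θ) * (3 / 2 * (1 - s) : ℝ) * ibb θ,
          -(2 * ibb θ - 1) * (3 / 2 * (1 + s) : ℝ) * ibb θ -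
            (2 * iba θ) * (3 / 2 * (1 - s) : ℝ) * iba θ;
        (2 * iba θ) * (3 / 2 * (1 + s) : ℝ), (2 * ibb θ - 1) * (3 / 2 * (1 - s) : ℝ),
          (2 * iba θ) * (3 / 2 * (1 + s) : ℝ) * iba θ +
            (2 * ibb θ - 1) * (3 / 2 * (1 - s) : ℝ) * ibb θ,
          -(2 * iba θ) * (3 / 2 * (1 + s) : ℝ) * ibb θ +
            (2 * ibb θ - 1) * (3 / 2 * (1 - s) : ℝ) * iba θ] := by
    rw [← hc2, ← hs2]
    ext i j
    fin_cases i <;> fin_cases j <;> simp [Ar, iba, ibb]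
  have hT := ibT_mul (iba θ) (ibb θ) hab
  have hBs : Bs s (I / (h : ℂ)) θ = !![0, 0, 1, 0; 0, 0, 0, 1;
      ((3 / 2 * (1 + s) : ℝ) : ℂ) * rho (I / (h : ℂ)) θ, 0, 0, 2;
      0, ((3 / 2 * (1 - s) : ℝ) : ℂ) * rho (I / (h : ℂ)) θ, -2, 0] := rfl
  unfold Ah
  rw [hA, hBs]
  generalize rho (I / (h : ℂ)) θ = r
  generalize ((3 / 2 * (1 + s) : ℝ) : ℂ) = K₁
  generalize ((3 / 2 * (1 - s) : ℝ) : ℂ) = K₂
  generalize iba θ = a at *
  generalize ibb θ = b at *
  have e1 : ibTi' a b + ibTi a b * !![0, 0, 1, 0; 0, 0, 0, 1; K₁ * r, 0, 0, 2; 0, K₂ * r, -2, 0] =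
      ibTi a b * !![0, 0, 0, 0; 0, 0, 0, 0; K₁ * r, 0, 0, 0; 0, K₂ * r, 0, 0] := by
    ext i j
    fin_cases i <;> fin_cases j <;>
      simp [ibTi, ibTi', Matrix.mul_apply, Fin.sum_univ_four] <;> ring
  have e2 : (r • !![a * K₁, b * K₂, a ^ 2 * K₁ + b ^ 2 * K₂, a * b * (K₂ - K₁);
        -b * K₁, a * K₂, a * b * (K₂ - K₁), b ^ 2 * K₁ + a ^ 2 * K₂;
        (2 * b - 1) * K₁, -(2 * a) * K₂, (2 * b - 1) * K₁ * a - (2 * a) * K₂ * b,
          -(2 * b - 1) * K₁ * b - (2 * a) * K₂ * a;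
        (2 * a) * K₁, (2 * b - 1) * K₂, (2 * a) * K₁ * a + (2 * b - 1) * K₂ * b,
          -(2 * a) * K₁ * b + (2 * b - 1) * K₂ * a] : Mat) =
      ibTi a b * !![0, 0, 0, 0; 0, 0, 0, 0; K₁ * r, 0, 0, 0; 0, K₂ * r, 0, 0] * ibT a b := by
    ext i j
    fin_cases i <;> fin_cases j <;>
      simp [ibTi, ibT, Matrix.mul_apply, Fin.sum_univ_four] <;> ring
  rw [e1, e2, Matrix.mul_assoc _ (ibT a b), hT, Matrix.mul_one]

theorem interaction (s : ℝ) {h : ℝ} (hh : 0 < h) (X : ℝ → Mat) (hX : IsFund (Bs s (I / (h : ℂ))) X) :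
    ∃ Ξ, IsFund (Ah s h) Ξ ∧ X (2 * π) = T0 * Ξ (2 * π) * T0' := by
  have hT00 : T0' * T0 = 1 := by
    ext i j
    fin_cases i <;> fin_cases j <;> simp [T0, T0', Matrix.mul_apply, Fin.sum_univ_four]
  have hT01 : T0 * T0' = 1 := by
    ext i j
    fin_cases i <;> fin_cases j <;> simp [T0, T0', Matrix.mul_apply, Fin.sum_univ_four]
  refine ⟨fun t => ibTi (iba t) (ibb t) * X t * T0, ⟨?_, ?_⟩, ?_⟩
  · have h1 : ibTi (iba 0) (ibb 0) = T0' := by
      simp [iba, ibb, ibTi, T0']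
      norm_num
    simp only [h1, hX.1, Matrix.mul_one, hT00]
  · intro θ i j
    have h1 := ib_mul (F := fun t => ibTi (iba t) (ibb t)) (G := X)
      (F' := ibTi' (iba θ) (ibb θ)) (G' := Bs s (I / (h : ℂ)) θ * X θ) (θ := θ)
      (fun i j => ibTi_deriv θ i j) (fun i j => hX.2 θ i j)
    have h2 := ib_mul (F := fun t => ibTi (iba t) (ibb t) * X t) (G := fun _ => T0)
      (G' := 0) (θ := θ) h1 (fun i j => hasDerivAt_const θ (T0 i j)) i j
    have e : (ibTi' (iba θ) (ibb θ) * X θ + ibTi (iba θ) (ibb θ) * (Bs s (I / (h : ℂ)) θ * X θ)) *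
        T0 + ibTi (iba θ) (ibb θ) * X θ * 0 =
        Ah s h θ * (ibTi (iba θ) (ibb θ) * X θ * T0) := by
      rw [Matrix.mul_zero, add_zero, ← Matrix.mul_assoc (ibTi (iba θ) (ibb θ)), ← Matrix.add_mul,
        ib_ode s h θ]
      simp only [Matrix.mul_assoc]
    rw [← e]
    exact h2
  · have h1 : ibT (iba (2 * π)) (ibb (2 * π)) = T0 := by
      simp [iba, ibb, ibT, T0]
      norm_num
    have h2 := ibT_mul _ _ (iba_ibb (2 * π))
    rw [h1] at h2
    simp only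
    calc X (2 * π) = (T0 * ibTi (iba (2 * π)) (ibb (2 * π))) * X (2 * π) * (T0 * T0') := by
          rw [h2, hT01, Matrix.one_mul, Matrix.mul_one]
      _ = _ := by simp only [Matrix.mul_assoc]

end Pool.Agent.MP_5027f4_ell
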