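import Pool.Agent.Lib_MP_5027f4_ell.Defs

/-!
# AsyC: elementary estimates for `rho` at `e = i / h`
-/

open Complex Set Filter Topology MeasureTheory
open scoped Real Matrix ComplexConjugate

namespace Pool.Agent.MP_5027f4_ell

theorem rho_I_div {h : ℝ} (hh : 0 < h) (θ : ℝ) :
    rho (I / (h : ℂ)) θ = (h : ℂ) / ((h : ℂ) + I * (Real.cos θ : ℂ)) := by
  have h0 : (h : ℂ) ≠ 0 := by exact_mod_cast hh.ne'
  have h1 : (h : ℂ) + I * (Real.cos θ : ℂ) ≠ 0 := by
    intro hc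
    have := congrArg Complex.re hc
    simp at this
    exact hh.ne' this
  unfold rho
  rw [eq_div_iff h1, ← eq_div_iff_mul_eq]
  · rw [inv_eq_one_div, div_eq_div_iff]
    · field_simp
    · intro hc
      apply h1
      have : (h : ℂ) * (1 + I / (h : ℂ) * (Real.cos θ : ℂ)) = 0 := by rw [hc, mul_zero]
      rw [← this]
      field_simp
    · exact h1
  · exact h1

theorem norm_h_add (h θ : ℝ) :
    ‖(h : ℂ) + I * (Real.cos θ : ℂ)‖ = Real.sqrt (h ^ 2 + Real.cos θ ^ 2) := by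
  rw [mul_comm I, Complex.norm_add_mul_I]

theorem norm_rho_eq {h : ℝ} (hh : 0 < h) (θ : ℝ) :
    ‖rho (I / (h : ℂ)) θ‖ = h / Real.sqrt (h ^ 2 + Real.cos θ ^ 2) := by
  rw [rho_I_div hh, norm_div, norm_h_add, Complex.norm_real, Real.norm_of_nonneg hh.le]

theorem norm_rho_le {h : ℝ} (hh : 0 < h) (θ : ℝ) : ‖rho (I / (h : ℂ)) θ‖ ≤ 1 := by
  rw [norm_rho_eq hh]
  have h1 : h ≤ Real.sqrt (h ^ 2 + Real.cos θ ^ 2) := by
    apply Real.le_sqrt_of_sq_le
    nlinarith [sq_nonneg (Real.cos θ)]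
  exact (div_le_one (lt_of_lt_of_le hh h1)).2 h1

theorem norm_cos_mul_rho {h : ℝ} (hh : 0 < h) (θ : ℝ) :
    ‖(Real.cos θ : ℂ) * rho (I / (h : ℂ)) θ‖ ≤ h := by
  rw [norm_mul, norm_rho_eq hh, Complex.norm_real, Real.norm_eq_abs]
  have h1 : |Real.cos θ| ≤ Real.sqrt (h ^ 2 + Real.cos θ ^ 2) := by
    apply Real.le_sqrt_of_sq_le
    rw [sq_abs]
    nlinarith [sq_nonneg h]
  have h2 : 0 < Real.sqrt (h ^ 2 + Real.cos θ ^ 2) := Real.sqrt_pos.2 (by positivity)
  rw [← mul_div_assoc, div_le_iff₀ h2, mul_comm]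
  exact mul_le_mul_of_nonneg_left h1 hh.le

/-- pointwise bound used for the integral. -/
private theorem asyC_pt {h t : ℝ} (hh : 0 < h) (ht : 0 < t) (ht2 : t ≤ π / 2) :
    h / Real.sqrt (h ^ 2 + Real.sin t ^ 2) ≤
      h ^ (3 / 4 : ℝ) * ((2 / π) ^ (-(3 / 4) : ℝ) * t ^ (-(3 / 4) : ℝ)) := by
  have hπ := Real.pi_pos
  have hc : 0 < 2 / π * t := by positivity
  have hs : 2 / π * t ≤ Real.sin t := Real.mul_le_sin ht.le ht2
  set c : ℝ := 2 / π * t with hcdef
  -- lower bound for the square root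
  have h1 : h ^ (1 / 4 : ℝ) * c ^ (3 / 4 : ℝ) ≤ Real.sqrt (h ^ 2 + Real.sin t ^ 2) := by
    apply Real.le_sqrt_of_sq_le
    have e1 : (h ^ (1 / 4 : ℝ) * c ^ (3 / 4 : ℝ)) ^ 2 = (h ^ 2) ^ (1 / 4 : ℝ) * (c ^ 2) ^ (3 / 4 : ℝ) := by
      rw [mul_pow, ← Real.rpow_natCast (h ^ (1 / 4 : ℝ)), ← Real.rpow_natCast (c ^ (3 / 4 : ℝ)),
        ← Real.rpow_natCast h, ← Real.rpow_natCast c, ← Real.rpow_mul hh.le, ← Real.rpow_mul hc.le,
        ← Real.rpow_mul hh.le, ← Real.rpow_mul hc.le]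
      norm_num
    rw [e1]
    have e2 := Real.geom_mean_le_arith_mean2_weighted (show (0 : ℝ) ≤ 1 / 4 by norm_num)
      (show (0 : ℝ) ≤ 3 / 4 by norm_num) (sq_nonneg h) (sq_nonneg c) (by norm_num)
    have e3 : c ^ 2 ≤ Real.sin t ^ 2 := by
      apply pow_le_pow_left₀ hc.le hs
    nlinarith [sq_nonneg h, sq_nonneg c]
  have h2 : 0 < h ^ (1 / 4 : ℝ) * c ^ (3 / 4 : ℝ) := by positivity
  calc h / Real.sqrt (h ^ 2 + Real.sin t ^ 2) ≤ h / (h ^ (1 / 4 : ℝ) * c ^ (3 / 4 : ℝ)) :=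
        div_le_div_of_nonneg_left hh.le h2 h1
    _ = h ^ (3 / 4 : ℝ) * ((2 / π) ^ (-(3 / 4) : ℝ) * t ^ (-(3 / 4) : ℝ)) := by
        rw [← Real.mul_rpow (by positivity) ht.le, ← hcdef, Real.rpow_neg hc.le, ← div_eq_mul_inv,
          ← div_div]
        congr 1
        rw [div_eq_iff (by positivity), ← Real.rpow_add hh]
        norm_num

theorem int_norm_rho : ∃ C > 0, ∀ h : ℝ, 0 < h → h ≤ 1 →
    ∫ θ in (0 : ℝ)..(2 * π), ‖rho (I / (h : ℂ)) θ‖ ≤ C * h ^ (3 / 4 : ℝ) := by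
  have hπ := Real.pi_pos
  refine ⟨4 * ((2 / π) ^ (-(3 / 4) : ℝ) * ∫ t in (0 : ℝ)..(π / 2), t ^ (-(3 / 4) : ℝ)), ?_, ?_⟩
  · rw [integral_rpow (Or.inl (by norm_num))]
    have : (0 : ℝ) < (π / 2) ^ (-(3 / 4) + 1 : ℝ) := by positivity
    have e0 : (0 : ℝ) ^ (-(3 / 4) + 1 : ℝ) = 0 := Real.zero_rpow (by norm_num)
    rw [e0]
    have h3 : (0 : ℝ) < (-(3 / 4) + 1 : ℝ) := by norm_num
    have : 0 < ((π / 2) ^ (-(3 / 4) + 1 : ℝ) - 0) / (-(3 / 4) + 1 : ℝ) := by
      rw [sub_zero]; positivity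
    positivity
  · intro h hh _
    have hg0 : ∀ x : ℝ, 0 < h ^ 2 + x ^ 2 := fun x => by positivity
    have hcont : Continuous fun θ : ℝ => h / Real.sqrt (h ^ 2 + Real.cos θ ^ 2) := by
      apply Continuous.div continuous_const (by fun_prop)
      intro θ
      exact (Real.sqrt_pos.2 (hg0 _)).ne'
    have hcont2 : Continuous fun θ : ℝ => h / Real.sqrt (h ^ 2 + Real.sin θ ^ 2) := by
      apply Continuous.div continuous_const (by fun_prop)
      intro θ
      exact (Real.sqrt_pos.2 (hg0 _)).ne'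
    set f : ℝ → ℝ := fun θ => h / Real.sqrt (h ^ 2 + Real.cos θ ^ 2) with hf
    set g : ℝ → ℝ := fun θ => h / Real.sqrt (h ^ 2 + Real.sin θ ^ 2) with hg
    have e1 : ∫ θ in (0 : ℝ)..(2 * π), ‖rho (I / (h : ℂ)) θ‖ = ∫ θ in (0 : ℝ)..(2 * π), f θ := by
      simp only [norm_rho_eq hh]; rfl
    have i1 : ∫ θ in (0 : ℝ)..(π / 2), f θ = ∫ θ in (0 : ℝ)..(π / 2), g θ := by
      have := intervalIntegral.integral_comp_sub_left (a := 0) (b := π / 2) f (π / 2)
      simp only [sub_self, sub_zero] at this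
      rw [← this]
      apply intervalIntegral.integral_congr
      intro x _
      simp only [hf, hg, Real.cos_pi_div_two_sub]
    have i2 : ∫ θ in (π / 2)..π, f θ = ∫ θ in (0 : ℝ)..(π / 2), g θ := by
      have := intervalIntegral.integral_comp_add_right (a := 0) (b := π / 2) f (π / 2)
      rw [zero_add, show π / 2 + π / 2 = π by ring] at this
      rw [← this]
      apply intervalIntegral.integral_congr
      intro x _
      simp only [hf, hg, Real.cos_add_pi_div_two, neg_sq]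
    have i3 : ∫ θ in (0 : ℝ)..π, f θ = 2 * ∫ θ in (0 : ℝ)..(π / 2), g θ := by
      rw [← intervalIntegral.integral_add_adjacent_intervals
        (hcont.intervalIntegrable 0 (π / 2)) (hcont.intervalIntegrable (π / 2) π)]
      rw [i1, i2]; ring
    have i4 : ∫ θ in π..(2 * π), f θ = ∫ θ in (0 : ℝ)..π, f θ := by
      have := intervalIntegral.integral_comp_add_right (a := 0) (b := π) f π
      rw [zero_add, show π + π = 2 * π by ring] at this
      rw [← this]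
      apply intervalIntegral.integral_congr
      intro x _
      simp only [hf, Real.cos_add_pi, neg_sq]
    have i5 : ∫ θ in (0 : ℝ)..(2 * π), f θ = 4 * ∫ θ in (0 : ℝ)..(π / 2), g θ := by
      rw [← intervalIntegral.integral_add_adjacent_intervals
        (hcont.intervalIntegrable 0 π) (hcont.intervalIntegrable π (2 * π))]
      rw [i4, i3]; ring
    rw [e1, i5]
    have hint : IntervalIntegrable (fun t : ℝ => t ^ (-(3 / 4) : ℝ)) volume 0 (π / 2) :=
      intervalIntegral.intervalIntegrable_rpow' (by norm_num)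
    have hle : ∫ θ in (0 : ℝ)..(π / 2), g θ ≤
        ∫ t in (0 : ℝ)..(π / 2), h ^ (3 / 4 : ℝ) * ((2 / π) ^ (-(3 / 4) : ℝ) * t ^ (-(3 / 4) : ℝ)) := by
      apply intervalIntegral.integral_mono_on_of_le_Ioo (by positivity)
        (hcont2.intervalIntegrable _ _) ((hint.const_mul _).const_mul _)
      intro x hx
      exact asyC_pt hh hx.1 hx.2.le
    rw [intervalIntegral.integral_const_mul, intervalIntegral.integral_const_mul] at hle
    calc 4 * ∫ θ in (0 : ℝ)..(π / 2), g θ ≤ 4 * (h ^ (3 / 4 : ℝ) * ((2 / π) ^ (-(3 / 4) : ℝ) *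
          ∫ t in (0 : ℝ)..(π / 2), t ^ (-(3 / 4) : ℝ))) := by linarith
      _ = _ := by ring

end Pool.Agent.MP_5027f4_ell
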