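import Pool.Agent.Lib_MP_5027f4_ell.AsyC

/-!
# Elliptic Lagrange orbits: first order terms of the monodromy at `e = i / h`
-/

open Complex Set Filter Topology MeasureTheory
open scoped Real Matrix ComplexConjugate

namespace Pool.Agent.MP_5027f4_ell

theorem asyd_den_ne (h θ : ℝ) :
    (1 : ℂ) + I / (h : ℂ) * (Real.cos θ : ℂ) ≠ 0 := by
  intro h0
  have h1 := congrArg Complex.re h0
  have h2 : I / (h : ℂ) * (Real.cos θ : ℂ) = ((Real.cos θ / h : ℝ) : ℂ) * I := by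
    push_cast
    ring
  rw [h2] at h1
  simp at h1

theorem asyd_cont (h : ℝ) : Continuous fun θ => rho (I / (h : ℂ)) θ := by
  unfold rho
  apply Continuous.inv₀
  · exact continuous_const.add (continuous_const.mul
      (Complex.continuous_ofReal.comp Real.continuous_cos))
  · exact fun θ => asyd_den_ne h θ

/-- `cos θ * ρ = - i h (1 - ρ)` -/
theorem asyd_cos_rho {h : ℝ} (hh : 0 < h) (θ : ℝ) :
    (Real.cos θ : ℂ) * rho (I / (h : ℂ)) θ = -(I * h) * (1 - rho (I / (h : ℂ)) θ) := by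
  have h0 : (h : ℂ) ≠ 0 := by exact_mod_cast hh.ne'
  have h1 := asyd_den_ne h θ
  have h2 : rho (I / (h : ℂ)) θ * (1 + I / (h : ℂ) * (Real.cos θ : ℂ)) = 1 := by
    unfold rho
    exact inv_mul_cancel₀ h1
  have h3 : (1 : ℂ) - rho (I / (h : ℂ)) θ =
      I / (h : ℂ) * (Real.cos θ : ℂ) * rho (I / (h : ℂ)) θ := by
    linear_combination -h2
  rw [h3]
  have h4 : -(I * (h : ℂ)) * (I / (h : ℂ) * (Real.cos θ : ℂ) * rho (I / (h : ℂ)) θ) =
      -(I * I) * ((h : ℂ) / h) * ((Real.cos θ : ℂ) * rho (I / (h : ℂ)) θ) := by ring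
  rw [h4, div_self h0, Complex.I_mul_I]
  ring

/-- antiperiodic functions have mean zero -/
theorem asyd_anti {E : Type*} [NormedAddCommGroup E] [NormedSpace ℝ E] (f : ℝ → E)
    (hf : Continuous f) (ha : ∀ θ, f (θ + π) = -f θ) : ∫ θ in (0 : ℝ)..(2 * π), f θ = 0 := by
  have h1 : ∫ θ in (0 : ℝ)..(2 * π), f θ =
      (∫ θ in (0 : ℝ)..π, f θ) + ∫ θ in π..(2 * π), f θ :=
    (intervalIntegral.integral_add_adjacent_intervals (hf.intervalIntegrable _ _)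
      (hf.intervalIntegrable _ _)).symm
  have h2 : ∫ θ in π..(2 * π), f θ = ∫ θ in (0 : ℝ)..π, f (θ + π) := by
    rw [intervalIntegral.integral_comp_add_right]
    congr 1 <;> ring
  rw [h1, h2]
  simp only [ha, intervalIntegral.integral_neg]
  exact add_neg_cancel _

/-- bound for the integral of `ρ g` -/
theorem asyd_bound (g : ℝ → ℝ) (hg : Continuous g) : ∃ C > 0, ∀ h : ℝ, 0 < h → h ≤ 1 →
    ‖∫ θ in (0 : ℝ)..(2 * π), rho (I / (h : ℂ)) θ * (g θ : ℂ)‖ ≤ C * h ^ (3 / 4 : ℝ) := by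
  obtain ⟨C, hC, H⟩ := int_norm_rho
  have hπ : (0 : ℝ) ≤ 2 * π := by positivity
  obtain ⟨G', hG'⟩ := (isCompact_Icc (a := (0 : ℝ)) (b := 2 * π)).exists_bound_of_continuousOn
    hg.continuousOn
  obtain ⟨G, hG0, hG⟩ : ∃ G > 0, ∀ θ ∈ Icc (0 : ℝ) (2 * π), |g θ| ≤ G :=
    ⟨|G'| + 1, by positivity, fun θ hθ => (hG' θ hθ).trans ((le_abs_self _).trans (by linarith))⟩
  refine ⟨C * G, mul_pos hC hG0, fun h hh h1 => ?_⟩
  calc ‖∫ θ in (0 : ℝ)..(2 * π), rho (I / (h : ℂ)) θ * (g θ : ℂ)‖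
      ≤ ∫ θ in (0 : ℝ)..(2 * π), ‖rho (I / (h : ℂ)) θ * (g θ : ℂ)‖ :=
        intervalIntegral.norm_integral_le_integral_norm hπ
    _ ≤ ∫ θ in (0 : ℝ)..(2 * π), G * ‖rho (I / (h : ℂ)) θ‖ := by
        apply intervalIntegral.integral_mono_on hπ
        · exact (((asyd_cont h).mul (Complex.continuous_ofReal.comp hg)).norm).intervalIntegrable _ _
        · exact (continuous_const.mul (asyd_cont h).norm).intervalIntegrable _ _
        · intro θ hθ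
          rw [norm_mul, mul_comm, Complex.norm_real, Real.norm_eq_abs]
          exact mul_le_mul_of_nonneg_right (hG θ hθ) (norm_nonneg _)
    _ = G * ∫ θ in (0 : ℝ)..(2 * π), ‖rho (I / (h : ℂ)) θ‖ := by
        rw [intervalIntegral.integral_const_mul]
    _ ≤ G * (C * h ^ (3 / 4 : ℝ)) := mul_le_mul_of_nonneg_left (H h hh h1) hG0.le
    _ = C * G * h ^ (3 / 4 : ℝ) := by ring

theorem asyd_ii (h : ℝ) (g : ℝ → ℝ) (hg : Continuous g) (a b : ℝ) :
    IntervalIntegrable (fun θ => rho (I / (h : ℂ)) θ * (g θ : ℂ)) volume a b :=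
  ((asyd_cont h).mul (Complex.continuous_ofReal.comp hg)).intervalIntegrable _ _

theorem asyd_gi (g : ℝ → ℝ) (hg : Continuous g) (a b : ℝ) :
    IntervalIntegrable (fun θ => (g θ : ℂ)) volume a b :=
  (Complex.continuous_ofReal.comp hg).intervalIntegrable _ _

/-- one factor `cos` -/
theorem asyd_one {h : ℝ} (hh : 0 < h) (g : ℝ → ℝ) (hg : Continuous g) :
    ∫ θ in (0 : ℝ)..(2 * π), rho (I / (h : ℂ)) θ * ((Real.cos θ * g θ : ℝ) : ℂ) =
      -(I * h) * ((∫ θ in (0 : ℝ)..(2 * π), (g θ : ℂ)) -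
        ∫ θ in (0 : ℝ)..(2 * π), rho (I / (h : ℂ)) θ * (g θ : ℂ)) := by
  rw [← intervalIntegral.integral_sub (asyd_gi g hg _ _) (asyd_ii h g hg _ _),
    ← intervalIntegral.integral_const_mul]
  apply intervalIntegral.integral_congr
  intro θ _
  simp only
  have h1 := asyd_cos_rho hh θ
  push_cast at h1 ⊢
  linear_combination (g θ : ℂ) * h1

/-- two factors `cos` -/
theorem asyd_two {h : ℝ} (hh : 0 < h) (g : ℝ → ℝ) (hg : Continuous g)
    (hm : ∫ θ in (0 : ℝ)..(2 * π), ((Real.cos θ * g θ : ℝ) : ℂ) = 0) :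
    ∫ θ in (0 : ℝ)..(2 * π), rho (I / (h : ℂ)) θ * ((Real.cos θ ^ 2 * g θ : ℝ) : ℂ) =
      (h : ℂ) ^ 2 * ((∫ θ in (0 : ℝ)..(2 * π), (g θ : ℂ)) -
        ∫ θ in (0 : ℝ)..(2 * π), rho (I / (h : ℂ)) θ * (g θ : ℂ)) := by
  have h1 := asyd_one hh (fun θ => Real.cos θ * g θ) (Real.continuous_cos.mul hg)
  have h2 : ∀ θ : ℝ, Real.cos θ * (Real.cos θ * g θ) = Real.cos θ ^ 2 * g θ := fun θ => by ring
  simp only [h2] at h1
  rw [h1, hm, asyd_one hh g hg, zero_sub]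
  have h3 : -(I * (h : ℂ)) * -(-(I * (h : ℂ)) * ((∫ θ in (0 : ℝ)..(2 * π), (g θ : ℂ)) -
      ∫ θ in (0 : ℝ)..(2 * π), rho (I / (h : ℂ)) θ * (g θ : ℂ))) =
      -(I * I) * (h : ℂ) ^ 2 * ((∫ θ in (0 : ℝ)..(2 * π), (g θ : ℂ)) -
      ∫ θ in (0 : ℝ)..(2 * π), rho (I / (h : ℂ)) θ * (g θ : ℂ)) := by ring
  rw [h3, Complex.I_mul_I]
  ring

/-- the integral of `ρ g` tends to zero -/
theorem asyd_tendsto (g : ℝ → ℝ) (hg : Continuous g) :
    Tendsto (fun h : ℝ => ∫ θ in (0 : ℝ)..(2 * π), rho (I / (h : ℂ)) θ * (g θ : ℂ)) (𝓝[>] 0)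
      (𝓝 0) := by
  obtain ⟨C, hC, H⟩ := asyd_bound g hg
  rw [tendsto_zero_iff_norm_tendsto_zero]
  have h1 : Tendsto (fun h : ℝ => C * h ^ (3 / 4 : ℝ)) (𝓝[>] 0) (𝓝 0) := by
    have h2 : Tendsto (fun h : ℝ => C * h ^ (3 / 4 : ℝ)) (𝓝 0)
        (𝓝 (C * (0 : ℝ) ^ (3 / 4 : ℝ))) :=
      ((Real.continuousAt_rpow_const 0 (3 / 4 : ℝ) (Or.inr (by norm_num))).tendsto).const_mul _
    rw [Real.zero_rpow (by norm_num), mul_zero] at h2
    exact h2.mono_left nhdsWithin_le_nhds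
  refine squeeze_zero' (Eventually.of_forall fun _ => norm_nonneg _) ?_ h1
  have h3 : Ioc (0 : ℝ) 1 ∈ 𝓝[>] (0 : ℝ) := Ioc_mem_nhdsGT one_pos
  filter_upwards [h3] with h hh
  exact H h hh.1 hh.2

theorem asyd_limit_two (g : ℝ → ℝ) (hg : Continuous g)
    (hm : ∫ θ in (0 : ℝ)..(2 * π), ((Real.cos θ * g θ : ℝ) : ℂ) = 0) :
    Tendsto (fun h : ℝ => (∫ θ in (0 : ℝ)..(2 * π), rho (I / (h : ℂ)) θ *
      ((Real.cos θ ^ 2 * g θ : ℝ) : ℂ)) / (h : ℂ) ^ 2) (𝓝[>] 0)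
      (𝓝 (∫ θ in (0 : ℝ)..(2 * π), (g θ : ℂ))) := by
  have h1 := (asyd_tendsto g hg).const_sub (∫ θ in (0 : ℝ)..(2 * π), (g θ : ℂ))
  rw [sub_zero] at h1
  refine h1.congr' ?_
  filter_upwards [self_mem_nhdsWithin] with h hh
  have hh' : (0 : ℝ) < h := hh
  have h0 : (h : ℂ) ≠ 0 := by exact_mod_cast hh'.ne'
  rw [asyd_two hh' g hg hm, mul_div_cancel_left₀ _ (pow_ne_zero 2 h0)]

/-- an exact integral -/
theorem asyd_exact {r : ℝ} (hr : 0 < r) :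
    ∫ θ in (0 : ℝ)..(2 * π), r / (Real.cos θ ^ 2 + r ^ 2 * Real.sin θ ^ 2) = 2 * π := by
  have hD : ∀ θ : ℝ, 0 < Real.cos θ ^ 2 + r * Real.sin θ ^ 2 := by
    intro θ
    have h1 := Real.sin_sq_add_cos_sq θ
    by_cases hs : Real.sin θ = 0
    · rw [hs] at h1 ⊢
      nlinarith
    · have : 0 < Real.sin θ ^ 2 := by positivity
      nlinarith [sq_nonneg (Real.cos θ), mul_pos hr this]
  have hE : ∀ θ : ℝ, 0 < Real.cos θ ^ 2 + r ^ 2 * Real.sin θ ^ 2 := by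
    intro θ
    have h1 := Real.sin_sq_add_cos_sq θ
    by_cases hs : Real.sin θ = 0
    · rw [hs] at h1 ⊢
      nlinarith
    · have : 0 < Real.sin θ ^ 2 := by positivity
      nlinarith [sq_nonneg (Real.cos θ), mul_pos (pow_pos hr 2) this]
  have key : ∀ θ : ℝ, HasDerivAt (fun θ : ℝ => θ - Real.arctan ((1 - r) *
      (Real.sin θ * Real.cos θ) / (Real.cos θ ^ 2 + r * Real.sin θ ^ 2)))
      (r / (Real.cos θ ^ 2 + r ^ 2 * Real.sin θ ^ 2)) θ := by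
    intro θ
    have h1 := Real.sin_sq_add_cos_sq θ
    have hs := Real.hasDerivAt_sin θ
    have hc := Real.hasDerivAt_cos θ
    have hN : HasDerivAt (fun θ : ℝ => (1 - r) * (Real.sin θ * Real.cos θ))
        ((1 - r) * (Real.cos θ * Real.cos θ + Real.sin θ * -Real.sin θ)) θ :=
      (hs.mul hc).const_mul (1 - r)
    have hDd : HasDerivAt (fun θ : ℝ => Real.cos θ ^ 2 + r * Real.sin θ ^ 2)
        (2 * Real.cos θ * -Real.sin θ + r * (2 * Real.sin θ * Real.cos θ)) θ := by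
      have h3 := (hc.pow 2).add ((hs.pow 2).const_mul r)
      refine h3.congr_deriv ?_
      push_cast
      ring
    have hu : HasDerivAt (fun θ : ℝ => Real.arctan ((1 - r) * (Real.sin θ * Real.cos θ) /
        (Real.cos θ ^ 2 + r * Real.sin θ ^ 2)))
        (1 / (1 + ((1 - r) * (Real.sin θ * Real.cos θ) /
          (Real.cos θ ^ 2 + r * Real.sin θ ^ 2)) ^ 2) *
          (((1 - r) * (Real.cos θ * Real.cos θ + Real.sin θ * -Real.sin θ) *
            (Real.cos θ ^ 2 + r * Real.sin θ ^ 2) - (1 - r) * (Real.sin θ * Real.cos θ) *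
            (2 * Real.cos θ * -Real.sin θ + r * (2 * Real.sin θ * Real.cos θ))) /
            (Real.cos θ ^ 2 + r * Real.sin θ ^ 2) ^ 2)) θ :=
      (hN.div hDd (hD θ).ne').arctan
    have h2 : HasDerivAt (fun θ : ℝ => θ - Real.arctan ((1 - r) * (Real.sin θ * Real.cos θ) /
        (Real.cos θ ^ 2 + r * Real.sin θ ^ 2))) _ θ := (hasDerivAt_id θ).sub hu
    refine h2.congr_deriv ?_
    set c := Real.cos θ with hcdef
    set s := Real.sin θ with hsdef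
    have hDp := hD θ
    have hEp := hE θ
    rw [← hcdef, ← hsdef] at hDp hEp
    have h3 : 1 + ((1 - r) * (s * c) / (c ^ 2 + r * s ^ 2)) ^ 2 =
        (c ^ 2 + r ^ 2 * s ^ 2) / (c ^ 2 + r * s ^ 2) ^ 2 := by
      rw [eq_div_iff (pow_ne_zero 2 hDp.ne'), add_mul, div_pow,
        div_mul_cancel₀ _ (pow_ne_zero 2 hDp.ne')]
      have hc2 : c ^ 2 = 1 - s ^ 2 := by linarith
      have : c ^ 4 = (1 - s ^ 2) ^ 2 := by rw [← hc2]; ring
      ring_nf
      rw [this, hc2]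
      ring
    rw [h3]
    rw [eq_div_iff hEp.ne']
    have h4 : c ^ 2 + r * s ^ 2 ≠ 0 := hDp.ne'
    have h5 : c ^ 2 + r ^ 2 * s ^ 2 ≠ 0 := hEp.ne'
    field_simp
    have hc2 : c ^ 2 = 1 - s ^ 2 := by linarith
    have hc4 : c ^ 4 = (1 - s ^ 2) ^ 2 := by rw [← hc2]; ring
    have hc6 : c ^ 6 = (1 - s ^ 2) ^ 3 := by rw [← hc2]; ring
    ring_nf
    rw [hc4, hc2]
    ring
  have hcont : Continuous fun θ : ℝ => r / (Real.cos θ ^ 2 + r ^ 2 * Real.sin θ ^ 2) := by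
    apply Continuous.div continuous_const
    · fun_prop
    · exact fun θ => (hE θ).ne'
  rw [intervalIntegral.integral_eq_sub_of_hasDerivAt (fun θ _ => key θ)
    (hcont.intervalIntegrable _ _)]
  simp

theorem asyd_rho_eq {h : ℝ} (hh : 0 < h) (θ : ℝ) : rho (I / (h : ℂ)) θ =
    ((h ^ 2 / (h ^ 2 + Real.cos θ ^ 2) : ℝ) : ℂ) -
      ((h * Real.cos θ / (h ^ 2 + Real.cos θ ^ 2) : ℝ) : ℂ) * I := by
  have h0 : (h : ℂ) ≠ 0 := by exact_mod_cast hh.ne'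
  have hd : (h ^ 2 + Real.cos θ ^ 2 : ℝ) ≠ 0 := by positivity
  have hd' : ((h : ℂ) ^ 2 + (Real.cos θ : ℂ) ^ 2) ≠ 0 := by exact_mod_cast hd
  unfold rho
  apply inv_eq_of_mul_eq_one_right
  push_cast
  push_cast at hd'
  field_simp
  ring_nf
  rw [Complex.I_sq]
  ring

theorem asyd_int_rho {h : ℝ} (hh : 0 < h) :
    ∫ θ in (0 : ℝ)..(2 * π), rho (I / (h : ℂ)) θ =
      ((h * (2 * π / Real.sqrt (1 + h ^ 2)) : ℝ) : ℂ) := by
  have hd : ∀ θ : ℝ, (h ^ 2 + Real.cos θ ^ 2 : ℝ) ≠ 0 := fun θ => by positivity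
  have hc1 : Continuous fun θ : ℝ => h ^ 2 / (h ^ 2 + Real.cos θ ^ 2) :=
    continuous_const.div (by fun_prop) hd
  have hc2 : Continuous fun θ : ℝ => h * Real.cos θ / (h ^ 2 + Real.cos θ ^ 2) :=
    Continuous.div (by fun_prop) (by fun_prop) hd
  have hc2' : Continuous fun θ : ℝ =>
      ((h * Real.cos θ / (h ^ 2 + Real.cos θ ^ 2) : ℝ) : ℂ) * I :=
    (Complex.continuous_ofReal.comp hc2).mul continuous_const
  have hs : ∫ θ in (0 : ℝ)..(2 * π), rho (I / (h : ℂ)) θ =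
      (∫ θ in (0 : ℝ)..(2 * π), ((h ^ 2 / (h ^ 2 + Real.cos θ ^ 2) : ℝ) : ℂ)) -
      ∫ θ in (0 : ℝ)..(2 * π), ((h * Real.cos θ / (h ^ 2 + Real.cos θ ^ 2) : ℝ) : ℂ) * I := by
    rw [← intervalIntegral.integral_sub (asyd_gi _ hc1 _ _) (hc2'.intervalIntegrable _ _)]
    apply intervalIntegral.integral_congr
    intro θ _
    exact asyd_rho_eq hh θ
  have h2 : ∫ θ in (0 : ℝ)..(2 * π),
      ((h * Real.cos θ / (h ^ 2 + Real.cos θ ^ 2) : ℝ) : ℂ) * I = 0 := by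
    apply asyd_anti _ hc2'
    intro θ
    rw [Real.cos_add_pi]
    push_cast
    ring
  have h3 : ∫ θ in (0 : ℝ)..(2 * π), ((h ^ 2 / (h ^ 2 + Real.cos θ ^ 2) : ℝ) : ℂ) =
      ((∫ θ in (0 : ℝ)..(2 * π), h ^ 2 / (h ^ 2 + Real.cos θ ^ 2) : ℝ) : ℂ) :=
    intervalIntegral.integral_ofReal
  rw [hs, h2, sub_zero, h3]
  congr 1
  set w := Real.sqrt (1 + h ^ 2) with hw
  have hw0 : 0 < w := Real.sqrt_pos.mpr (by positivity)
  have hw2 : w ^ 2 = 1 + h ^ 2 := Real.sq_sqrt (by positivity)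
  have hr : 0 < h / w := div_pos hh hw0
  have h4 : ∀ θ : ℝ, h ^ 2 / (h ^ 2 + Real.cos θ ^ 2) =
      h / w * (h / w / (Real.cos θ ^ 2 + (h / w) ^ 2 * Real.sin θ ^ 2)) := by
    intro θ
    have h5 : Real.cos θ ^ 2 + (h / w) ^ 2 * Real.sin θ ^ 2 = (h ^ 2 + Real.cos θ ^ 2) / w ^ 2 := by
      rw [eq_div_iff (pow_ne_zero 2 hw0.ne'), add_mul, div_pow]
      have h6 : h ^ 2 / w ^ 2 * Real.sin θ ^ 2 * w ^ 2 = h ^ 2 * Real.sin θ ^ 2 := by
        field_simp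
      rw [h6, hw2]
      have h7 := Real.sin_sq_add_cos_sq θ
      linear_combination h ^ 2 * h7
    rw [h5]
    have h8 := hd θ
    field_simp
  simp only [h4]
  rw [intervalIntegral.integral_const_mul, asyd_exact hr]
  ring

theorem asyd_rho_lim : Tendsto (fun h : ℝ => (∫ θ in (0 : ℝ)..(2 * π), rho (I / (h : ℂ)) θ) /
    (h : ℂ)) (𝓝[>] 0) (𝓝 (2 * π)) := by
  have h1 : Tendsto (fun h : ℝ => ((2 * π / Real.sqrt (1 + h ^ 2) : ℝ) : ℂ)) (𝓝[>] 0)
      (𝓝 (2 * π)) := by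
    have h2 : Continuous fun h : ℝ => 2 * π / Real.sqrt (1 + h ^ 2) := by
      apply Continuous.div continuous_const
      · fun_prop
      · intro h
        have : 0 < Real.sqrt (1 + h ^ 2) := Real.sqrt_pos.mpr (by positivity)
        exact this.ne'
    have h3 := ((Complex.continuous_ofReal.comp h2).tendsto 0).mono_left
      (nhdsWithin_le_nhds (s := Ioi (0 : ℝ)))
    simpa [Function.comp_def] using h3
  refine h1.congr' ?_
  filter_upwards [self_mem_nhdsWithin] with h hh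
  have hh' : (0 : ℝ) < h := hh
  have h0 : (h : ℂ) ≠ 0 := by exact_mod_cast hh'.ne'
  rw [asyd_int_rho hh', Complex.ofReal_mul, mul_div_cancel_left₀ _ h0]

/-- the entries `cos 2θ` -/
theorem asyd_cos_two : Tendsto (fun h : ℝ => (∫ θ in (0 : ℝ)..(2 * π), rho (I / (h : ℂ)) θ *
    ((Real.cos (2 * θ) : ℝ) : ℂ)) / (h : ℂ)) (𝓝[>] 0) (𝓝 (-(2 * π))) := by
  have hm : ∫ θ in (0 : ℝ)..(2 * π), ((Real.cos θ * (fun _ : ℝ => (1 : ℝ)) θ : ℝ) : ℂ) = 0 := by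
    apply asyd_anti
    · fun_prop
    · intro θ
      simp only [Real.cos_add_pi]
      push_cast
      ring
  have h1 := (asyd_limit_two (fun _ => 1) continuous_const hm)
  have h2 : Tendsto (fun h : ℝ => 2 * (h : ℂ) * ((∫ θ in (0 : ℝ)..(2 * π),
      rho (I / (h : ℂ)) θ * ((Real.cos θ ^ 2 * (fun _ : ℝ => (1 : ℝ)) θ : ℝ) : ℂ)) /
      (h : ℂ) ^ 2) - (∫ θ in (0 : ℝ)..(2 * π), rho (I / (h : ℂ)) θ) / (h : ℂ)) (𝓝[>] 0)
      (𝓝 (-(2 * π) : ℂ)) := by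
    have h3 : Tendsto (fun h : ℝ => 2 * (h : ℂ)) (𝓝[>] 0) (𝓝 0) := by
      have : Continuous fun h : ℝ => 2 * (h : ℂ) := by fun_prop
      have h4 := (this.tendsto 0).mono_left (nhdsWithin_le_nhds (s := Ioi (0 : ℝ)))
      simpa using h4
    have h5 := (h3.mul h1).sub asyd_rho_lim
    rw [zero_mul, zero_sub] at h5
    exact h5
  refine h2.congr' ?_
  filter_upwards [self_mem_nhdsWithin] with h hh
  have hh' : (0 : ℝ) < h := hh
  have h0 : (h : ℂ) ≠ 0 := by exact_mod_cast hh'.ne'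
  have h6 : ∫ θ in (0 : ℝ)..(2 * π), rho (I / (h : ℂ)) θ * ((Real.cos (2 * θ) : ℝ) : ℂ) =
      2 * (∫ θ in (0 : ℝ)..(2 * π), rho (I / (h : ℂ)) θ *
        ((Real.cos θ ^ 2 * (fun _ : ℝ => (1 : ℝ)) θ : ℝ) : ℂ)) -
      ∫ θ in (0 : ℝ)..(2 * π), rho (I / (h : ℂ)) θ := by
    rw [← intervalIntegral.integral_const_mul, ← intervalIntegral.integral_sub]
    · apply intervalIntegral.integral_congr
      intro θ _
      simp only [Real.cos_two_mul]
      push_cast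
      ring
    · exact (continuous_const.mul ((asyd_cont h).mul
        (Complex.continuous_ofReal.comp (by fun_prop)))).intervalIntegrable _ _
    · exact (asyd_cont h).intervalIntegrable _ _
  rw [h6]
  field_simp

/-- the entries `sin 2θ` -/
theorem asyd_sin_two (h : ℝ) : ∫ θ in (0 : ℝ)..(2 * π), rho (I / (h : ℂ)) θ *
    ((Real.sin (2 * θ) : ℝ) : ℂ) = 0 := by
  have h1 : ∫ θ in (0 : ℝ)..(2 * π), rho (I / (h : ℂ)) (2 * π - θ) *
      ((Real.sin (2 * (2 * π - θ)) : ℝ) : ℂ) = ∫ θ in (0 : ℝ)..(2 * π), rho (I / (h : ℂ)) θ *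
      ((Real.sin (2 * θ) : ℝ) : ℂ) := by
    rw [intervalIntegral.integral_comp_sub_left (fun θ => rho (I / (h : ℂ)) θ *
      ((Real.sin (2 * θ) : ℝ) : ℂ))]
    congr 1 <;> ring
  have h2 : ∀ θ : ℝ, rho (I / (h : ℂ)) (2 * π - θ) *
      ((Real.sin (2 * (2 * π - θ)) : ℝ) : ℂ) = -(rho (I / (h : ℂ)) θ *
      ((Real.sin (2 * θ) : ℝ) : ℂ)) := by
    intro θ
    have h3 : rho (I / (h : ℂ)) (2 * π - θ) = rho (I / (h : ℂ)) θ := by
      unfold rho
      rw [Real.cos_two_pi_sub]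
    have h4 : Real.sin (2 * (2 * π - θ)) = -Real.sin (2 * θ) := by
      rw [Real.sin_two_mul, Real.sin_two_mul, Real.sin_two_pi_sub, Real.cos_two_pi_sub]
      ring
    rw [h3, h4]
    push_cast
    ring
  simp only [h2, intervalIntegral.integral_neg] at h1
  have h5 : (2 : ℂ) * ∫ θ in (0 : ℝ)..(2 * π), rho (I / (h : ℂ)) θ *
      ((Real.sin (2 * θ) : ℝ) : ℂ) = 0 := by linear_combination -h1
  simpa using h5

theorem asyd_entry (s h θ : ℝ) (i j : Fin 4) :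
    Ah s h θ i j = rho (I / (h : ℂ)) θ * Ar s θ i j := rfl

theorem asyd_int_sq (k l : ℝ) : ∫ θ in (0 : ℝ)..(2 * π),
    ((k * Real.sin θ ^ 2 + l * Real.cos θ ^ 2 : ℝ) : ℂ) = ((k + l) * π : ℝ) := by
  have h1 : ∫ θ in (0 : ℝ)..(2 * π), ((k * Real.sin θ ^ 2 + l * Real.cos θ ^ 2 : ℝ) : ℂ) =
      ((∫ θ in (0 : ℝ)..(2 * π), (k * Real.sin θ ^ 2 + l * Real.cos θ ^ 2) : ℝ) : ℂ) :=
    intervalIntegral.integral_ofReal
  rw [h1]
  congr 1
  rw [intervalIntegral.integral_add, intervalIntegral.integral_const_mul,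
    intervalIntegral.integral_const_mul, integral_sin_sq, integral_cos_sq]
  · simp
    ring
  · exact (Continuous.intervalIntegrable (by fun_prop) _ _)
  · exact (Continuous.intervalIntegrable (by fun_prop) _ _)

theorem asyd_int_sc (k : ℝ) : ∫ θ in (0 : ℝ)..(2 * π),
    ((k * (Real.sin θ * Real.cos θ) : ℝ) : ℂ) = 0 := by
  have h1 : ∫ θ in (0 : ℝ)..(2 * π), ((k * (Real.sin θ * Real.cos θ) : ℝ) : ℂ) =
      ((∫ θ in (0 : ℝ)..(2 * π), k * (Real.sin θ * Real.cos θ) : ℝ) : ℂ) :=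
    intervalIntegral.integral_ofReal
  rw [h1, intervalIntegral.integral_const_mul, integral_sin_mul_cos₁]
  simp

/-- limit of a `wv` entry -/
theorem asyd_wv (g : ℝ → ℝ) (hg : Continuous g) (ha : ∀ θ, g (θ + π) = g θ) (v : ℂ)
    (hv : ∫ θ in (0 : ℝ)..(2 * π), (g θ : ℂ) = v) (f : ℝ → ℂ)
    (hf : ∀ θ, f θ = ((Real.cos θ ^ 2 * g θ : ℝ) : ℂ)) :
    Tendsto (fun h : ℝ => (∫ θ in (0 : ℝ)..(2 * π), rho (I / (h : ℂ)) θ * f θ) /
      (h : ℂ) ^ 2) (𝓝[>] 0) (𝓝 v) := by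
  simp only [hf]
  rw [← hv]
  apply asyd_limit_two g hg
  apply asyd_anti
  · exact Complex.continuous_ofReal.comp (Real.continuous_cos.mul hg)
  · intro θ
    rw [Real.cos_add_pi, ha]
    push_cast
    ring

theorem first_wv (s : ℝ) (i j : Fin 2) :
    Tendsto (fun h : ℝ => (∫ θ in (0 : ℝ)..(2 * π), Ah s h θ (Fin.castAdd 2 i) (Fin.natAdd 2 j)) /
      (h : ℂ) ^ 2) (𝓝[>] 0) (𝓝 (if i = j then 3 * π else 0)) := by
  simp only [asyd_entry]
  fin_cases i <;> fin_cases j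
  · refine asyd_wv (fun θ => (3 / 2 * (1 + s)) * Real.sin θ ^ 2 +
      (3 / 2 * (1 - s)) * Real.cos θ ^ 2) (by fun_prop) (fun θ => by
        simp only [Real.sin_add_pi, Real.cos_add_pi]; ring) _ ?_ _ ?_
    · rw [asyd_int_sq]
      simp
      ring
    · intro θ
      simp [Ar]
      ring
  · refine asyd_wv (fun θ => (3 / 2 * (1 - s) - 3 / 2 * (1 + s)) * (Real.sin θ * Real.cos θ))
      (by fun_prop) (fun θ => by
        simp only [Real.sin_add_pi, Real.cos_add_pi]; ring) _ ?_ _ ?_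
    · rw [asyd_int_sc]
      simp
    · intro θ
      simp [Ar]
      ring
  · refine asyd_wv (fun θ => (3 / 2 * (1 - s) - 3 / 2 * (1 + s)) * (Real.sin θ * Real.cos θ))
      (by fun_prop) (fun θ => by
        simp only [Real.sin_add_pi, Real.cos_add_pi]; ring) _ ?_ _ ?_
    · rw [asyd_int_sc]
      simp
    · intro θ
      simp [Ar]
      ring
  · refine asyd_wv (fun θ => (3 / 2 * (1 - s)) * Real.sin θ ^ 2 +
      (3 / 2 * (1 + s)) * Real.cos θ ^ 2) (by fun_prop) (fun θ => by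
        simp only [Real.sin_add_pi, Real.cos_add_pi]; ring) _ ?_ _ ?_
    · rw [asyd_int_sq]
      simp
      ring
    · intro θ
      simp [Ar]
      ring

/-- limit of a diagonal `vw` entry -/
theorem asyd_vw (k : ℝ) (f : ℝ → ℂ) (hf : ∀ θ, f θ = ((k * Real.cos (2 * θ) : ℝ) : ℂ)) :
    Tendsto (fun h : ℝ => (∫ θ in (0 : ℝ)..(2 * π), rho (I / (h : ℂ)) θ * f θ) /
      (h : ℂ)) (𝓝[>] 0) (𝓝 (-2 * π * k)) := by
  have h1 := asyd_cos_two.const_mul (k : ℂ)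
  have h2 : (k : ℂ) * -(2 * π) = -2 * π * k := by ring
  rw [h2] at h1
  refine h1.congr ?_
  intro h
  rw [mul_div_assoc', ← intervalIntegral.integral_const_mul]
  congr 1
  apply intervalIntegral.integral_congr
  intro θ _
  simp only [hf]
  push_cast
  ring

theorem asyd_vw0 (k : ℝ) (f : ℝ → ℂ) (hf : ∀ θ, f θ = ((k * Real.sin (2 * θ) : ℝ) : ℂ)) :
    Tendsto (fun h : ℝ => (∫ θ in (0 : ℝ)..(2 * π), rho (I / (h : ℂ)) θ * f θ) /
      (h : ℂ)) (𝓝[>] 0) (𝓝 0) := by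
  have h1 : (fun h : ℝ => (∫ θ in (0 : ℝ)..(2 * π), rho (I / (h : ℂ)) θ * f θ) /
      (h : ℂ)) = fun _ => 0 := by
    funext h
    have h2 : ∫ θ in (0 : ℝ)..(2 * π), rho (I / (h : ℂ)) θ * f θ =
        k * ∫ θ in (0 : ℝ)..(2 * π), rho (I / (h : ℂ)) θ * ((Real.sin (2 * θ) : ℝ) : ℂ) := by
      rw [← intervalIntegral.integral_const_mul]
      apply intervalIntegral.integral_congr
      intro θ _
      simp only [hf]
      push_cast
      ring
    rw [h2, asyd_sin_two, mul_zero, zero_div]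
  rw [h1]
  exact tendsto_const_nhds

theorem first_vw (s : ℝ) (i j : Fin 2) :
    Tendsto (fun h : ℝ => (∫ θ in (0 : ℝ)..(2 * π), Ah s h θ (Fin.natAdd 2 i) (Fin.castAdd 2 j)) /
      (h : ℂ)) (𝓝[>] 0) (𝓝 (if i = j then
        (if i = 0 then -2 * π * (3 / 2 * (1 + s) : ℝ) else -2 * π * (3 / 2 * (1 - s) : ℝ))
        else 0)) := by
  simp only [asyd_entry]
  fin_cases i <;> fin_cases j
  · refine asyd_vw (3 / 2 * (1 + s)) _ fun θ => ?_
    simp [Ar]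
    ring
  · refine asyd_vw0 (-(3 / 2 * (1 - s))) _ fun θ => ?_
    simp [Ar]
    ring
  · refine asyd_vw0 (3 / 2 * (1 + s)) _ fun θ => ?_
    simp [Ar]
    ring
  · refine asyd_vw (3 / 2 * (1 - s)) _ fun θ => ?_
    simp [Ar]
    ring

/-- bound of a diagonal entry -/
theorem asyd_dg (g : ℝ → ℝ) (hg : Continuous g) (ha : ∀ θ, g (θ + π) = -g θ) (f : ℝ → ℂ)
    (hf : ∀ θ, f θ = ((Real.cos θ * g θ : ℝ) : ℂ)) : ∃ C > 0, ∀ h : ℝ, 0 < h → h ≤ 1 →
    ‖∫ θ in (0 : ℝ)..(2 * π), rho (I / (h : ℂ)) θ * f θ‖ ≤ C * h ^ (7 / 4 : ℝ) := by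
  obtain ⟨C, hC, H⟩ := asyd_bound g hg
  refine ⟨C, hC, fun h hh h1 => ?_⟩
  simp only [hf]
  have hz : ∫ θ in (0 : ℝ)..(2 * π), (g θ : ℂ) = 0 := by
    apply asyd_anti
    · exact Complex.continuous_ofReal.comp hg
    · intro θ
      rw [ha]
      push_cast
      ring
  rw [asyd_one hh g hg, hz, zero_sub, norm_mul, norm_neg, norm_neg, norm_mul, Complex.norm_I,
    one_mul, Complex.norm_real, Real.norm_eq_abs, abs_of_pos hh]
  have h2 : h ^ (7 / 4 : ℝ) = h * h ^ (3 / 4 : ℝ) := by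
    rw [← Real.rpow_one_add' hh.le (by norm_num)]
    norm_num
  rw [h2]
  calc h * ‖∫ θ in (0 : ℝ)..(2 * π), rho (I / (h : ℂ)) θ * (g θ : ℂ)‖
      ≤ h * (C * h ^ (3 / 4 : ℝ)) := mul_le_mul_of_nonneg_left (H h hh h1) hh.le
    _ = _ := by ring

theorem first_diag (s : ℝ) : ∃ C > 0, ∀ h : ℝ, 0 < h → h ≤ 1 → ∀ i j : Fin 2,
    ‖∫ θ in (0 : ℝ)..(2 * π), Ah s h θ (Fin.castAdd 2 i) (Fin.castAdd 2 j)‖ ≤
      C * h ^ (7 / 4 : ℝ) ∧
    ‖∫ θ in (0 : ℝ)..(2 * π), Ah s h θ (Fin.natAdd 2 i) (Fin.natAdd 2 j)‖ ≤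
      C * h ^ (7 / 4 : ℝ) := by
  simp only [asyd_entry]
  have hv : ∀ i j : Fin 2, ∃ C > 0, ∀ h : ℝ, 0 < h → h ≤ 1 →
      ‖∫ θ in (0 : ℝ)..(2 * π), rho (I / (h : ℂ)) θ *
        Ar s θ (Fin.castAdd 2 i) (Fin.castAdd 2 j)‖ ≤ C * h ^ (7 / 4 : ℝ) := by
    intro i j
    fin_cases i <;> fin_cases j
    · refine asyd_dg (fun θ => Real.sin θ * (3 / 2 * (1 + s))) (by fun_prop)
        (fun θ => by simp only [Real.sin_add_pi]; ring) _ fun θ => ?_
      simp [Ar]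
      ring
    · refine asyd_dg (fun θ => Real.cos θ * (3 / 2 * (1 - s))) (by fun_prop)
        (fun θ => by simp only [Real.cos_add_pi]; ring) _ fun θ => ?_
      simp [Ar]
      ring
    · refine asyd_dg (fun θ => -(Real.cos θ * (3 / 2 * (1 + s)))) (by fun_prop)
        (fun θ => by simp only [Real.cos_add_pi]; ring) _ fun θ => ?_
      simp [Ar]
      ring
    · refine asyd_dg (fun θ => Real.sin θ * (3 / 2 * (1 - s))) (by fun_prop)
        (fun θ => by simp only [Real.sin_add_pi]; ring) _ fun θ => ?_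
      simp [Ar]
      ring
  have hp2 : ∀ θ : ℝ, Real.cos (2 * (θ + π)) = Real.cos (2 * θ) := fun θ => by
    rw [mul_add, Real.cos_add_two_pi]
  have hs2 : ∀ θ : ℝ, Real.sin (2 * (θ + π)) = Real.sin (2 * θ) := fun θ => by
    rw [mul_add, Real.sin_add_two_pi]
  have hw : ∀ i j : Fin 2, ∃ C > 0, ∀ h : ℝ, 0 < h → h ≤ 1 →
      ‖∫ θ in (0 : ℝ)..(2 * π), rho (I / (h : ℂ)) θ *
        Ar s θ (Fin.natAdd 2 i) (Fin.natAdd 2 j)‖ ≤ C * h ^ (7 / 4 : ℝ) := by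
    intro i j
    fin_cases i <;> fin_cases j
    · refine asyd_dg (fun θ => Real.cos (2 * θ) * (3 / 2 * (1 + s)) * Real.sin θ -
        Real.sin (2 * θ) * (3 / 2 * (1 - s)) * Real.cos θ) (by fun_prop)
        (fun θ => by simp only [Real.sin_add_pi, Real.cos_add_pi, hp2, hs2]; ring) _ fun θ => ?_
      simp [Ar]
      ring
    · refine asyd_dg (fun θ => -(Real.cos (2 * θ) * (3 / 2 * (1 + s)) * Real.cos θ) -
        Real.sin (2 * θ) * (3 / 2 * (1 - s)) * Real.sin θ) (by fun_prop)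
        (fun θ => by simp only [Real.sin_add_pi, Real.cos_add_pi, hp2, hs2]; ring) _ fun θ => ?_
      simp [Ar]
      ring
    · refine asyd_dg (fun θ => Real.sin (2 * θ) * (3 / 2 * (1 + s)) * Real.sin θ +
        Real.cos (2 * θ) * (3 / 2 * (1 - s)) * Real.cos θ) (by fun_prop)
        (fun θ => by simp only [Real.sin_add_pi, Real.cos_add_pi, hp2, hs2]; ring) _ fun θ => ?_
      simp [Ar]
      ring
    · refine asyd_dg (fun θ => -(Real.sin (2 * θ) * (3 / 2 * (1 + s)) * Real.cos θ) +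
        Real.cos (2 * θ) * (3 / 2 * (1 - s)) * Real.sin θ) (by fun_prop)
        (fun θ => by simp only [Real.sin_add_pi, Real.cos_add_pi, hp2, hs2]; ring) _ fun θ => ?_
      simp [Ar]
      ring
  choose Cv hCv Hv using hv
  choose Cw hCw Hw using hw
  have hle : ∀ i j : Fin 2, Cv i j ≤ ∑ i, ∑ j, (Cv i j + Cw i j) ∧
      Cw i j ≤ ∑ i, ∑ j, (Cv i j + Cw i j) := by
    intro i j
    have h1 : Cv i j + Cw i j ≤ ∑ j, (Cv i j + Cw i j) :=
      Finset.single_le_sum (f := fun j => Cv i j + Cw i j)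
        (fun j _ => (add_pos (hCv i j) (hCw i j)).le) (Finset.mem_univ j)
    have h2 : ∑ j, (Cv i j + Cw i j) ≤ ∑ i, ∑ j, (Cv i j + Cw i j) :=
      Finset.single_le_sum (f := fun i => ∑ j, (Cv i j + Cw i j))
        (fun i _ => Finset.sum_nonneg fun j _ => (add_pos (hCv i j) (hCw i j)).le)
        (Finset.mem_univ i)
    have h3 := hCv i j
    have h4 := hCw i j
    constructor <;> linarith
  refine ⟨∑ i, ∑ j, (Cv i j + Cw i j), (hCv 0 0).trans_le (hle 0 0).1, ?_⟩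
  intro h hh h1 i j
  have h5 : 0 ≤ h ^ (7 / 4 : ℝ) := Real.rpow_nonneg hh.le _
  exact ⟨(Hv i j h hh h1).trans (mul_le_mul_of_nonneg_right (hle i j).1 h5),
    (Hw i j h hh h1).trans (mul_le_mul_of_nonneg_right (hle i j).2 h5)⟩

end Pool.Agent.MP_5027f4_ell
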