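import Pool.Agent.Lib_MP_5027f4_ell.AsyC

/-!
# AsyE: second order terms
-/

open Complex Set Filter Topology MeasureTheory
open scoped Real Matrix ComplexConjugate

namespace Pool.Agent.MP_5027f4_ell

/-- `cos θ / (h + i cos θ)` -/
noncomputable def phE (h θ : ℝ) : ℂ := (Real.cos θ : ℂ) / ((h : ℂ) + I * (Real.cos θ : ℂ))

/-- The entries of `Ar` divided by `cos θ` (except in the lower left block). -/
noncomputable def gE (s θ : ℝ) : Matrix (Fin 4) (Fin 4) ℝ :=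
  let k₁ : ℝ := 3 / 2 * (1 + s)
  let k₂ : ℝ := 3 / 2 * (1 - s)
  let c : ℝ := Real.cos θ
  let σ : ℝ := Real.sin θ
  !![σ * k₁, c * k₂, c * (σ ^ 2 * k₁ + c ^ 2 * k₂), c ^ 2 * σ * (k₂ - k₁);
    -c * k₁, σ * k₂, c ^ 2 * σ * (k₂ - k₁), c * (c ^ 2 * k₁ + σ ^ 2 * k₂);
    0, 0, (2 * c ^ 2 - 1) * k₁ * σ - 2 * σ * c * k₂ * c, -(2 * c ^ 2 - 1) * k₁ * c - 2 * σ * c * k₂ * σ;
    0, 0, 2 * σ * c * k₁ * σ + (2 * c ^ 2 - 1) * k₂ * c, -2 * σ * c * k₁ * c + (2 * c ^ 2 - 1) * k₂ * σ]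

/-- Antiderivatives of the columns 2, 3 of `gE`. -/
noncomputable def GE (s θ : ℝ) : Matrix (Fin 4) (Fin 4) ℝ :=
  let k₁ : ℝ := 3 / 2 * (1 + s)
  let k₂ : ℝ := 3 / 2 * (1 - s)
  let c : ℝ := Real.cos θ
  let σ : ℝ := Real.sin θ
  !![0, 0, (2 / 3 * k₂ + 1 / 3 * k₁) * σ + (1 / 3 * k₂ - 1 / 3 * k₁) * (c ^ 2 * σ),
      (1 / 3 * k₂ - 1 / 3 * k₁) - (1 / 3 * k₂ - 1 / 3 * k₁) * c ^ 3;
    0, 0, (1 / 3 * k₂ - 1 / 3 * k₁) - (1 / 3 * k₂ - 1 / 3 * k₁) * c ^ 3,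
      (1 / 3 * k₂ + 2 / 3 * k₁) * σ + (1 / 3 * k₁ - 1 / 3 * k₂) * (c ^ 2 * σ);
    0, 0, -(2 / 3 * k₂ + 1 / 3 * k₁) + k₁ * c + (2 / 3 * k₂ - 2 / 3 * k₁) * c ^ 3,
      -(2 / 3 * k₂ + 1 / 3 * k₁) * σ + (2 / 3 * k₂ - 2 / 3 * k₁) * (c ^ 2 * σ);
    0, 0, (1 / 3 * k₂ + 2 / 3 * k₁) * σ + (2 / 3 * k₂ - 2 / 3 * k₁) * (c ^ 2 * σ),
      -(1 / 3 * k₂ + 2 / 3 * k₁) + k₂ * c + (2 / 3 * k₁ - 2 / 3 * k₂) * c ^ 3]

theorem cos_mul_rho {h : ℝ} (hh : 0 < h) (θ : ℝ) :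
    (Real.cos θ : ℂ) * rho (I / (h : ℂ)) θ = (h : ℂ) * phE h θ := by
  rw [rho_I_div hh, phE]; ring

theorem Ar_w (s θ : ℝ) (i : Fin 2) (k : Fin 4) :
    Ar s θ (Fin.castAdd 2 i) k = (Real.cos θ : ℂ) * (gE s θ (Fin.castAdd 2 i) k : ℂ) := by
  fin_cases i <;> fin_cases k <;> simp [Ar, gE] <;> ring

theorem Ar_v (s θ : ℝ) (k : Fin 4) (j : Fin 2) :
    Ar s θ k (Fin.natAdd 2 j) = (Real.cos θ : ℂ) * (gE s θ k (Fin.natAdd 2 j) : ℂ) := by
  fin_cases k <;> fin_cases j <;>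
    simp [Ar, gE, Complex.cos_two_mul, Complex.sin_two_mul] <;> ring

theorem Ah_w {h : ℝ} (hh : 0 < h) (s θ : ℝ) (i : Fin 2) (k : Fin 4) :
    Ah s h θ (Fin.castAdd 2 i) k = (h : ℂ) * (phE h θ * (gE s θ (Fin.castAdd 2 i) k : ℂ)) := by
  rw [Ah, Matrix.smul_apply, Ar_w, smul_eq_mul, ← mul_assoc, mul_comm (rho _ _), cos_mul_rho hh,
    mul_assoc]

theorem Ah_v {h : ℝ} (hh : 0 < h) (s θ : ℝ) (k : Fin 4) (j : Fin 2) :
    Ah s h θ k (Fin.natAdd 2 j) = (h : ℂ) * (phE h θ * (gE s θ k (Fin.natAdd 2 j) : ℂ)) := by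
  rw [Ah, Matrix.smul_apply, Ar_v, smul_eq_mul, ← mul_assoc, mul_comm (rho _ _), cos_mul_rho hh,
    mul_assoc]

theorem phE_ne {h : ℝ} (hh : 0 < h) (θ : ℝ) : (h : ℂ) + I * (Real.cos θ : ℂ) ≠ 0 := by
  intro hc
  have := congrArg Complex.re hc
  simp at this
  exact hh.ne' this

theorem norm_phE_le (h θ : ℝ) : ‖phE h θ‖ ≤ 1 := by
  rw [phE, norm_div, norm_h_add, Complex.norm_real, Real.norm_eq_abs]
  have h1 : |Real.cos θ| ≤ Real.sqrt (h ^ 2 + Real.cos θ ^ 2) := by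
    apply Real.le_sqrt_of_sq_le
    rw [sq_abs]
    nlinarith [sq_nonneg h]
  exact div_le_one_of_le₀ h1 (Real.sqrt_nonneg _)

theorem continuous_phE {h : ℝ} (hh : 0 < h) : Continuous (phE h) := by
  unfold phE
  apply Continuous.div (by fun_prop) (by fun_prop)
  exact phE_ne hh

theorem tendsto_phE {θ : ℝ} (hθ : Real.cos θ ≠ 0) :
    Tendsto (fun h : ℝ => phE h θ) (𝓝[>] 0) (𝓝 (-I)) := by
  have h1 : ContinuousAt (fun h : ℝ => phE h θ) 0 := by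
    unfold phE
    apply ContinuousAt.div (by fun_prop) (by fun_prop)
    simp [hθ, I_ne_zero]
    exact_mod_cast hθ
  have h2 : phE 0 θ = -I := by
    have hc : (Real.cos θ : ℂ) ≠ 0 := by exact_mod_cast hθ
    rw [phE, Complex.ofReal_zero, zero_add, div_eq_iff (mul_ne_zero I_ne_zero hc), ← mul_assoc,
      neg_mul, I_mul_I, neg_neg, one_mul]
  have := h1.tendsto
  rw [h2] at this
  exact this.mono_left nhdsWithin_le_nhds

theorem continuous_gE (s : ℝ) (i k : Fin 4) : Continuous fun θ => gE s θ i k := by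
  fin_cases i <;> fin_cases k <;> simp [gE] <;> fun_prop

theorem continuous_Ar (s : ℝ) (i k : Fin 4) : Continuous fun θ => Ar s θ i k := by
  fin_cases i <;> fin_cases k <;> simp [Ar] <;> fun_prop

theorem hasDerivAt_GE (s θ : ℝ) (k : Fin 4) (j : Fin 2) :
    HasDerivAt (fun t => GE s t k (Fin.natAdd 2 j)) (gE s θ k (Fin.natAdd 2 j)) θ := by
  have hs := Real.hasDerivAt_sin θ
  have hc := Real.hasDerivAt_cos θ
  have h2 := (hc.pow 2).mul hs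
  have h3 := hc.pow 3
  have e : Real.sin θ ^ 2 = 1 - Real.cos θ ^ 2 := by rw [Real.sin_sq]
  set k₁ : ℝ := 3 / 2 * (1 + s) with hk1
  set k₂ : ℝ := 3 / 2 * (1 - s) with hk2
  fin_cases k <;> fin_cases j
  · have := (hs.const_mul (2 / 3 * k₂ + 1 / 3 * k₁)).add (h2.const_mul (1 / 3 * k₂ - 1 / 3 * k₁))
    refine HasDerivAt.congr_deriv (f := fun t => (2 / 3 * k₂ + 1 / 3 * k₁) * Real.sin t + (1 / 3 * k₂ - 1 / 3 * k₁) * (Real.cos t ^ 2 * Real.sin t)) this ?_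
    simp [gE, ← hk1, ← hk2]
    linear_combination ((s / 2 - 3 / 2) * Real.cos θ) * e
  · have := (hasDerivAt_const θ (1 / 3 * k₂ - 1 / 3 * k₁)).sub
      (h3.const_mul (1 / 3 * k₂ - 1 / 3 * k₁))
    refine HasDerivAt.congr_deriv (f := fun t => (1 / 3 * k₂ - 1 / 3 * k₁) - (1 / 3 * k₂ - 1 / 3 * k₁) * Real.cos t ^ 3) this ?_
    simp [gE, ← hk1, ← hk2]
    linear_combination (0 : ℝ) * e
  · have := (hasDerivAt_const θ (1 / 3 * k₂ - 1 / 3 * k₁)).sub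
      (h3.const_mul (1 / 3 * k₂ - 1 / 3 * k₁))
    refine HasDerivAt.congr_deriv (f := fun t => (1 / 3 * k₂ - 1 / 3 * k₁) - (1 / 3 * k₂ - 1 / 3 * k₁) * Real.cos t ^ 3) this ?_
    simp [gE, ← hk1, ← hk2]
    linear_combination (0 : ℝ) * e
  · have := (hs.const_mul (1 / 3 * k₂ + 2 / 3 * k₁)).add (h2.const_mul (1 / 3 * k₁ - 1 / 3 * k₂))
    refine HasDerivAt.congr_deriv (f := fun t => (1 / 3 * k₂ + 2 / 3 * k₁) * Real.sin t + (1 / 3 * k₁ - 1 / 3 * k₂) * (Real.cos t ^ 2 * Real.sin t)) this ?_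
    simp [gE, ← hk1, ← hk2]
    linear_combination ((-s / 2 - 3 / 2) * Real.cos θ) * e
  · have := ((hasDerivAt_const θ (-(2 / 3 * k₂ + 1 / 3 * k₁))).add (hc.const_mul k₁)).add
      (h3.const_mul (2 / 3 * k₂ - 2 / 3 * k₁))
    refine HasDerivAt.congr_deriv (f := fun t => -(2 / 3 * k₂ + 1 / 3 * k₁) + k₁ * Real.cos t + (2 / 3 * k₂ - 2 / 3 * k₁) * Real.cos t ^ 3) this ?_
    simp [gE, ← hk1, ← hk2]
    linear_combination (0 : ℝ) * e
  · have := (hs.const_mul (-(2 / 3 * k₂ + 1 / 3 * k₁))).add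
      (h2.const_mul (2 / 3 * k₂ - 2 / 3 * k₁))
    refine HasDerivAt.congr_deriv (f := fun t => -(2 / 3 * k₂ + 1 / 3 * k₁) * Real.sin t + (2 / 3 * k₂ - 2 / 3 * k₁) * (Real.cos t ^ 2 * Real.sin t)) this ?_
    simp [gE, ← hk1, ← hk2]
    linear_combination ((s + 3) * Real.cos θ) * e
  · have := (hs.const_mul (1 / 3 * k₂ + 2 / 3 * k₁)).add
      (h2.const_mul (2 / 3 * k₂ - 2 / 3 * k₁))
    refine HasDerivAt.congr_deriv (f := fun t => (1 / 3 * k₂ + 2 / 3 * k₁) * Real.sin t + (2 / 3 * k₂ - 2 / 3 * k₁) * (Real.cos t ^ 2 * Real.sin t)) this ?_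
    simp [gE, ← hk1, ← hk2]
    linear_combination ((s - 3) * Real.cos θ) * e
  · have := ((hasDerivAt_const θ (-(1 / 3 * k₂ + 2 / 3 * k₁))).add (hc.const_mul k₂)).add
      (h3.const_mul (2 / 3 * k₁ - 2 / 3 * k₂))
    refine HasDerivAt.congr_deriv (f := fun t => -(1 / 3 * k₂ + 2 / 3 * k₁) + k₂ * Real.cos t + (2 / 3 * k₁ - 2 / 3 * k₂) * Real.cos t ^ 3) this ?_
    simp [gE, ← hk1, ← hk2]
    linear_combination (0 : ℝ) * e

theorem GE_zero (s : ℝ) (k : Fin 4) (j : Fin 2) : GE s 0 k (Fin.natAdd 2 j) = 0 := by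
  fin_cases k <;> fin_cases j <;> simp [GE] <;> ring

theorem continuous_GE (s : ℝ) (i k : Fin 4) : Continuous fun θ => GE s θ i k := by
  fin_cases i <;> fin_cases k <;> simp [GE] <;> fun_prop

theorem outer_int (s : ℝ) (i j : Fin 2) :
    ∫ θ in (0 : ℝ)..(2 * π), ∑ k, gE s θ (Fin.castAdd 2 i) k * GE s θ k (Fin.natAdd 2 j) =
      if i = j then 9 / 2 * π - 3 / 2 * π * s ^ 2 else 0 := by
  set k₁ : ℝ := 3 / 2 * (1 + s) with hk1
  set k₂ : ℝ := 3 / 2 * (1 - s) with hk2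
  fin_cases i <;> fin_cases j
  · show ∫ θ in (0 : ℝ)..(2 * π), ∑ k, gE s θ (Fin.castAdd 2 (0 : Fin 2)) k * GE s θ k (Fin.natAdd 2 (0 : Fin 2)) = _
    have key : ∀ θ, HasDerivAt (fun t => (-1 / 9 * k₂ ^ 2 - 7 / 9 * k₁ * k₂ - 1 / 9 * k₁ ^ 2) * Real.sin t + (1 / 6 * k₂ ^ 2 - 1 / 6 * k₁ ^ 2) * (Real.cos t * Real.sin t) +
        (-2 / 9 * k₂ ^ 2 + 1 / 9 * k₁ * k₂ + 1 / 9 * k₁ ^ 2) * (Real.cos t ^ 2 * Real.sin t) + (1 / 6 * k₂ ^ 2 + 2 / 3 * k₁ * k₂ + 1 / 6 * k₁ ^ 2) * t) (∑ k, gE s θ (Fin.castAdd 2 (0 : Fin 2)) k * GE s θ k (Fin.natAdd 2 (0 : Fin 2))) θ := by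
      intro θ
      have hs := Real.hasDerivAt_sin θ
      have hc := Real.hasDerivAt_cos θ
      have e : Real.sin θ ^ 2 = 1 - Real.cos θ ^ 2 := by rw [Real.sin_sq]
      have := (((hs.const_mul (-1 / 9 * k₂ ^ 2 - 7 / 9 * k₁ * k₂ - 1 / 9 * k₁ ^ 2)).add ((hc.mul hs).const_mul (1 / 6 * k₂ ^ 2 - 1 / 6 * k₁ ^ 2))).add
        (((hc.pow 2).mul hs).const_mul (-2 / 9 * k₂ ^ 2 + 1 / 9 * k₁ * k₂ + 1 / 9 * k₁ ^ 2))).add ((hasDerivAt_id θ).const_mul (1 / 6 * k₂ ^ 2 + 2 / 3 * k₁ * k₂ + 1 / 6 * k₁ ^ 2))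
      refine HasDerivAt.congr_deriv this ?_
      rw [Fin.sum_univ_four]
      simp [gE, GE, ← hk1, ← hk2]
      linear_combination ((-1 / 6) * k₂ ^ 2 + (-2 / 3) * k₁ * k₂ + (-1 / 6) * k₁ ^ 2 + (4 / 9) * k₂ ^ 2 * Real.cos θ + (4 / 9) * k₁ * k₂ * Real.cos θ + (1 / 9) * k₁ ^ 2 * Real.cos θ + (-1 / 3) * k₂ ^ 2 * Real.cos θ ^ 2 + (-2 / 3) * k₁ * k₂ * Real.cos θ ^ 2 + (-2 / 3) * k₂ ^ 2 * Real.cos θ ^ 4 + (2 / 3) * k₁ * k₂ * Real.cos θ ^ 4) * e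
    have hint : Continuous fun θ => ∑ k, gE s θ (Fin.castAdd 2 (0 : Fin 2)) k * GE s θ k (Fin.natAdd 2 (0 : Fin 2)) :=
      continuous_finsetSum _ fun k _ => (continuous_gE s _ _).mul (continuous_GE s _ _)
    rw [intervalIntegral.integral_eq_sub_of_hasDerivAt (fun θ _ => key θ)
      (hint.intervalIntegrable _ _)]
    simp [hk1, hk2]
    ring
  · show ∫ θ in (0 : ℝ)..(2 * π), ∑ k, gE s θ (Fin.castAdd 2 (0 : Fin 2)) k * GE s θ k (Fin.natAdd 2 (1 : Fin 2)) = _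
    have key : ∀ θ, HasDerivAt (fun t => (-1 / 3 * k₁ * k₂ + 1 / 3 * k₁ ^ 2) * Real.cos t + (-1 / 6 * k₂ ^ 2 + 1 / 6 * k₁ ^ 2) * Real.cos t ^ 2 +
        (1 / 9 * k₂ ^ 2 + 1 / 9 * k₁ * k₂ - 2 / 9 * k₁ ^ 2) * Real.cos t ^ 3) (∑ k, gE s θ (Fin.castAdd 2 (0 : Fin 2)) k * GE s θ k (Fin.natAdd 2 (1 : Fin 2))) θ := by
      intro θ
      have hs := Real.hasDerivAt_sin θ
      have hc := Real.hasDerivAt_cos θ
      have e : Real.sin θ ^ 2 = 1 - Real.cos θ ^ 2 := by rw [Real.sin_sq]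
      have := ((hc.const_mul (-1 / 3 * k₁ * k₂ + 1 / 3 * k₁ ^ 2)).add ((hc.pow 2).const_mul (-1 / 6 * k₂ ^ 2 + 1 / 6 * k₁ ^ 2))).add
        ((hc.pow 3).const_mul (1 / 9 * k₂ ^ 2 + 1 / 9 * k₁ * k₂ - 2 / 9 * k₁ ^ 2))
      refine HasDerivAt.congr_deriv this ?_
      rw [Fin.sum_univ_four]
      simp [gE, GE, ← hk1, ← hk2]
      linear_combination ((2 / 3) * k₁ * k₂ * Real.cos θ * Real.sin θ + (1 / 3) * k₁ ^ 2 * Real.cos θ * Real.sin θ + (-2 / 3) * k₁ * k₂ * Real.cos θ ^ 3 * Real.sin θ + (2 / 3) * k₁ ^ 2 * Real.cos θ ^ 3 * Real.sin θ) * e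
    have hint : Continuous fun θ => ∑ k, gE s θ (Fin.castAdd 2 (0 : Fin 2)) k * GE s θ k (Fin.natAdd 2 (1 : Fin 2)) :=
      continuous_finsetSum _ fun k _ => (continuous_gE s _ _).mul (continuous_GE s _ _)
    rw [intervalIntegral.integral_eq_sub_of_hasDerivAt (fun θ _ => key θ)
      (hint.intervalIntegrable _ _)]
    simp
  · show ∫ θ in (0 : ℝ)..(2 * π), ∑ k, gE s θ (Fin.castAdd 2 (1 : Fin 2)) k * GE s θ k (Fin.natAdd 2 (0 : Fin 2)) = _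
    have key : ∀ θ, HasDerivAt (fun t => (-1 / 3 * k₂ ^ 2 + 1 / 3 * k₁ * k₂) * Real.cos t + (-1 / 6 * k₂ ^ 2 + 1 / 6 * k₁ ^ 2) * Real.cos t ^ 2 +
        (2 / 9 * k₂ ^ 2 - 1 / 9 * k₁ * k₂ - 1 / 9 * k₁ ^ 2) * Real.cos t ^ 3) (∑ k, gE s θ (Fin.castAdd 2 (1 : Fin 2)) k * GE s θ k (Fin.natAdd 2 (0 : Fin 2))) θ := by
      intro θ
      have hs := Real.hasDerivAt_sin θ
      have hc := Real.hasDerivAt_cos θ
      have e : Real.sin θ ^ 2 = 1 - Real.cos θ ^ 2 := by rw [Real.sin_sq]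
      have := ((hc.const_mul (-1 / 3 * k₂ ^ 2 + 1 / 3 * k₁ * k₂)).add ((hc.pow 2).const_mul (-1 / 6 * k₂ ^ 2 + 1 / 6 * k₁ ^ 2))).add
        ((hc.pow 3).const_mul (2 / 9 * k₂ ^ 2 - 1 / 9 * k₁ * k₂ - 1 / 9 * k₁ ^ 2))
      refine HasDerivAt.congr_deriv this ?_
      rw [Fin.sum_univ_four]
      simp [gE, GE, ← hk1, ← hk2]
      linear_combination ((-1 / 3) * k₂ ^ 2 * Real.cos θ * Real.sin θ + (-2 / 3) * k₁ * k₂ * Real.cos θ * Real.sin θ + (-2 / 3) * k₂ ^ 2 * Real.cos θ ^ 3 * Real.sin θ + (2 / 3) * k₁ * k₂ * Real.cos θ ^ 3 * Real.sin θ) * e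
    have hint : Continuous fun θ => ∑ k, gE s θ (Fin.castAdd 2 (1 : Fin 2)) k * GE s θ k (Fin.natAdd 2 (0 : Fin 2)) :=
      continuous_finsetSum _ fun k _ => (continuous_gE s _ _).mul (continuous_GE s _ _)
    rw [intervalIntegral.integral_eq_sub_of_hasDerivAt (fun θ _ => key θ)
      (hint.intervalIntegrable _ _)]
    simp
  · show ∫ θ in (0 : ℝ)..(2 * π), ∑ k, gE s θ (Fin.castAdd 2 (1 : Fin 2)) k * GE s θ k (Fin.natAdd 2 (1 : Fin 2)) = _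
    have key : ∀ θ, HasDerivAt (fun t => (-1 / 9 * k₂ ^ 2 - 7 / 9 * k₁ * k₂ - 1 / 9 * k₁ ^ 2) * Real.sin t + (-1 / 6 * k₂ ^ 2 + 1 / 6 * k₁ ^ 2) * (Real.cos t * Real.sin t) +
        (1 / 9 * k₂ ^ 2 + 1 / 9 * k₁ * k₂ - 2 / 9 * k₁ ^ 2) * (Real.cos t ^ 2 * Real.sin t) + (1 / 6 * k₂ ^ 2 + 2 / 3 * k₁ * k₂ + 1 / 6 * k₁ ^ 2) * t) (∑ k, gE s θ (Fin.castAdd 2 (1 : Fin 2)) k * GE s θ k (Fin.natAdd 2 (1 : Fin 2))) θ := by
      intro θ
      have hs := Real.hasDerivAt_sin θ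
      have hc := Real.hasDerivAt_cos θ
      have e : Real.sin θ ^ 2 = 1 - Real.cos θ ^ 2 := by rw [Real.sin_sq]
      have := (((hs.const_mul (-1 / 9 * k₂ ^ 2 - 7 / 9 * k₁ * k₂ - 1 / 9 * k₁ ^ 2)).add ((hc.mul hs).const_mul (-1 / 6 * k₂ ^ 2 + 1 / 6 * k₁ ^ 2))).add
        (((hc.pow 2).mul hs).const_mul (1 / 9 * k₂ ^ 2 + 1 / 9 * k₁ * k₂ - 2 / 9 * k₁ ^ 2))).add ((hasDerivAt_id θ).const_mul (1 / 6 * k₂ ^ 2 + 2 / 3 * k₁ * k₂ + 1 / 6 * k₁ ^ 2))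
      refine HasDerivAt.congr_deriv this ?_
      rw [Fin.sum_univ_four]
      simp [gE, GE, ← hk1, ← hk2]
      linear_combination ((-1 / 6) * k₂ ^ 2 + (-2 / 3) * k₁ * k₂ + (-1 / 6) * k₁ ^ 2 + (1 / 9) * k₂ ^ 2 * Real.cos θ + (4 / 9) * k₁ * k₂ * Real.cos θ + (4 / 9) * k₁ ^ 2 * Real.cos θ + (-2 / 3) * k₁ * k₂ * Real.cos θ ^ 2 + (-1 / 3) * k₁ ^ 2 * Real.cos θ ^ 2 + (2 / 3) * k₁ * k₂ * Real.cos θ ^ 4 + (-2 / 3) * k₁ ^ 2 * Real.cos θ ^ 4) * e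
    have hint : Continuous fun θ => ∑ k, gE s θ (Fin.castAdd 2 (1 : Fin 2)) k * GE s θ k (Fin.natAdd 2 (1 : Fin 2)) :=
      continuous_finsetSum _ fun k _ => (continuous_gE s _ _).mul (continuous_GE s _ _)
    rw [intervalIntegral.integral_eq_sub_of_hasDerivAt (fun θ _ => key θ)
      (hint.intervalIntegrable _ _)]
    simp [hk1, hk2]
    ring

theorem exists_bd (s : ℝ) : ∃ K > 0, ∀ θ ∈ Icc (0 : ℝ) (2 * π), ∀ i k : Fin 4,
    ‖(gE s θ i k : ℂ)‖ ≤ K ∧ ‖Ar s θ i k‖ ≤ K := by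
  have hc : Continuous fun θ => ∑ i : Fin 4, ∑ k : Fin 4, (‖(gE s θ i k : ℂ)‖ + ‖Ar s θ i k‖) := by
    refine continuous_finsetSum _ fun i _ => continuous_finsetSum _ fun k _ => ?_
    exact ((Complex.continuous_ofReal.comp (continuous_gE s i k)).norm).add (continuous_Ar s i k).norm
  obtain ⟨K, hK⟩ := isCompact_Icc.exists_bound_of_continuousOn (s := Icc (0 : ℝ) (2 * π))
    hc.continuousOn
  refine ⟨max K 1, lt_of_lt_of_le one_pos (le_max_right _ _), fun θ hθ i k => ?_⟩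
  have h1 := hK θ hθ
  rw [Real.norm_of_nonneg (by positivity)] at h1
  have h2 : ‖(gE s θ i k : ℂ)‖ + ‖Ar s θ i k‖ ≤
      ∑ i : Fin 4, ∑ k : Fin 4, (‖(gE s θ i k : ℂ)‖ + ‖Ar s θ i k‖) := by
    calc ‖(gE s θ i k : ℂ)‖ + ‖Ar s θ i k‖ ≤ ∑ k : Fin 4, (‖(gE s θ i k : ℂ)‖ + ‖Ar s θ i k‖) :=
          Finset.single_le_sum (f := fun k => ‖(gE s θ i k : ℂ)‖ + ‖Ar s θ i k‖)
            (fun k _ => by positivity) (Finset.mem_univ k)
      _ ≤ _ := Finset.single_le_sum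
            (f := fun i => ∑ k : Fin 4, (‖(gE s θ i k : ℂ)‖ + ‖Ar s θ i k‖))
            (fun i _ => by positivity) (Finset.mem_univ i)
  have h3 := norm_nonneg (gE s θ i k : ℂ)
  have h4 := norm_nonneg (Ar s θ i k)
  have h5 := le_max_left K 1
  constructor <;> linarith

theorem ae_cos_ne : ∀ᵐ θ : ℝ, Real.cos θ ≠ 0 := by
  have hcount : Set.Countable {θ : ℝ | Real.cos θ = 0} := by
    have : {θ : ℝ | Real.cos θ = 0} ⊆ Set.range fun k : ℤ => (2 * (k : ℝ) + 1) * π / 2 := by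
      intro θ hθ
      obtain ⟨k, hk⟩ := Real.cos_eq_zero_iff.1 hθ
      exact ⟨k, hk.symm⟩
    exact (Set.countable_range _).mono this
  have := hcount.ae_notMem volume
  filter_upwards [this] with θ hθ
  exact hθ

/-- The inner integral. -/
noncomputable def inE (s h : ℝ) (k : Fin 4) (j : Fin 2) (θ : ℝ) : ℂ :=
  ∫ t in (0 : ℝ)..θ, phE h t * (gE s t k (Fin.natAdd 2 j) : ℂ)

theorem inE_limit (s : ℝ) (k : Fin 4) (j : Fin 2) {θ : ℝ} (hθ : θ ∈ Icc (0 : ℝ) (2 * π)) :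
    Tendsto (fun h : ℝ => inE s h k j θ) (𝓝[>] 0) (𝓝 (-I * (GE s θ k (Fin.natAdd 2 j) : ℂ))) := by
  obtain ⟨K, hK, hb⟩ := exists_bd s
  have hval : ∫ t in (0 : ℝ)..θ, -I * (gE s t k (Fin.natAdd 2 j) : ℂ) =
      -I * (GE s θ k (Fin.natAdd 2 j) : ℂ) := by
    rw [intervalIntegral.integral_const_mul, intervalIntegral.integral_ofReal,
      intervalIntegral.integral_eq_sub_of_hasDerivAt (fun t _ => hasDerivAt_GE s t k j)
        ((continuous_gE s _ _).intervalIntegrable _ _), GE_zero, sub_zero]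
  rw [← hval]
  unfold inE
  apply intervalIntegral.tendsto_integral_filter_of_dominated_convergence (fun _ => K)
  · filter_upwards [self_mem_nhdsWithin] with h hh
    exact ((continuous_phE hh).mul
      (Complex.continuous_ofReal.comp (continuous_gE s _ _))).aestronglyMeasurable
  · filter_upwards [self_mem_nhdsWithin] with h hh
    refine Filter.Eventually.of_forall fun t ht => ?_
    rw [uIoc_of_le hθ.1] at ht
    have ht' : t ∈ Icc (0 : ℝ) (2 * π) := ⟨ht.1.le, ht.2.trans hθ.2⟩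
    rw [norm_mul]
    calc ‖phE h t‖ * ‖(gE s t k (Fin.natAdd 2 j) : ℂ)‖ ≤ 1 * K :=
          mul_le_mul (norm_phE_le h t) (hb t ht' _ _).1 (norm_nonneg _) zero_le_one
      _ = K := one_mul K
  · exact intervalIntegrable_const
  · filter_upwards [ae_cos_ne] with t ht _
    exact (tendsto_phE ht).mul_const _

theorem norm_inE_le {s K : ℝ} (hK : 0 < K) (hb : ∀ θ ∈ Icc (0 : ℝ) (2 * π), ∀ i k : Fin 4,
    ‖(gE s θ i k : ℂ)‖ ≤ K ∧ ‖Ar s θ i k‖ ≤ K) (h : ℝ) (k : Fin 4) (j : Fin 2) {θ : ℝ}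
    (hθ : θ ∈ Icc (0 : ℝ) (2 * π)) : ‖inE s h k j θ‖ ≤ K * (2 * π) := by
  unfold inE
  have := intervalIntegral.norm_integral_le_of_norm_le_const (a := 0) (b := θ) (C := K)
    (f := fun t => phE h t * (gE s t k (Fin.natAdd 2 j) : ℂ)) (by
      intro t ht
      rw [uIoc_of_le hθ.1] at ht
      have ht' : t ∈ Icc (0 : ℝ) (2 * π) := ⟨ht.1.le, ht.2.trans hθ.2⟩
      rw [norm_mul]
      calc ‖phE h t‖ * ‖(gE s t k (Fin.natAdd 2 j) : ℂ)‖ ≤ 1 * K :=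
            mul_le_mul (norm_phE_le h t) (hb t ht' _ _).1 (norm_nonneg _) zero_le_one
        _ = K := one_mul K)
  refine this.trans ?_
  rw [sub_zero, abs_of_nonneg hθ.1]
  exact mul_le_mul_of_nonneg_left hθ.2 hK.le

theorem continuous_inE {h : ℝ} (hh : 0 < h) (s : ℝ) (k : Fin 4) (j : Fin 2) :
    Continuous (inE s h k j) := by
  unfold inE
  exact intervalIntegral.continuous_primitive
    (fun a b => (((continuous_phE hh).mul
      (Complex.continuous_ofReal.comp (continuous_gE s _ _))).intervalIntegrable a b)) 0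

theorem second_wv (s : ℝ) (i j : Fin 2) :
    Tendsto (fun h : ℝ => S2 s h (Fin.castAdd 2 i) (Fin.natAdd 2 j) / (h : ℂ) ^ 2) (𝓝[>] 0)
      (𝓝 (if i = j then ((-(9 / 2) * π + 3 / 2 * π * s ^ 2 : ℝ) : ℂ) else 0)) := by
  obtain ⟨K, hK, hb⟩ := exists_bd s
  have hπ := Real.pi_pos
  have hval : ∫ θ in (0 : ℝ)..(2 * π), ∑ k, -I * (gE s θ (Fin.castAdd 2 i) k : ℂ) *
      (-I * (GE s θ k (Fin.natAdd 2 j) : ℂ)) =
      if i = j then ((-(9 / 2) * π + 3 / 2 * π * s ^ 2 : ℝ) : ℂ) else 0 := by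
    have e1 : ∀ θ : ℝ, ∑ k, -I * (gE s θ (Fin.castAdd 2 i) k : ℂ) *
        (-I * (GE s θ k (Fin.natAdd 2 j) : ℂ)) =
        ((-∑ k, gE s θ (Fin.castAdd 2 i) k * GE s θ k (Fin.natAdd 2 j) : ℝ) : ℂ) := by
      intro θ
      push_cast
      rw [← Finset.sum_neg_distrib]
      refine Finset.sum_congr rfl fun k _ => ?_
      linear_combination (gE s θ (Fin.castAdd 2 i) k : ℂ) * (GE s θ k (Fin.natAdd 2 j) : ℂ) *
        I_mul_I
    simp only [e1]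
    rw [intervalIntegral.integral_ofReal, intervalIntegral.integral_neg, outer_int]
    split_ifs
    · push_cast; ring
    · simp
  rw [← hval]
  have hcong : (fun h : ℝ => S2 s h (Fin.castAdd 2 i) (Fin.natAdd 2 j) / (h : ℂ) ^ 2) =ᶠ[𝓝[>] 0]
      fun h : ℝ => ∫ θ in (0 : ℝ)..(2 * π), ∑ k, phE h θ * (gE s θ (Fin.castAdd 2 i) k : ℂ) *
        inE s h k j θ := by
    filter_upwards [self_mem_nhdsWithin] with h hh
    have hh' : (0 : ℝ) < h := hh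
    have h0 : (h : ℂ) ≠ 0 := by exact_mod_cast hh'.ne'
    rw [S2, div_eq_iff (pow_ne_zero 2 h0), ← intervalIntegral.integral_mul_const]
    refine intervalIntegral.integral_congr fun θ _ => ?_
    simp only [Finset.sum_mul]
    refine Finset.sum_congr rfl fun k _ => ?_
    rw [Ah_w hh']
    simp only [Ah_v hh']
    rw [intervalIntegral.integral_const_mul, inE]
    ring
  refine Tendsto.congr' hcong.symm ?_
  apply intervalIntegral.tendsto_integral_filter_of_dominated_convergence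
    (fun _ => 4 * (K * (K * (2 * π))))
  · filter_upwards [self_mem_nhdsWithin] with h hh
    refine Continuous.aestronglyMeasurable ?_
    exact continuous_finsetSum _ fun k _ => ((continuous_phE hh).mul
      (Complex.continuous_ofReal.comp (continuous_gE s _ _))).mul (continuous_inE hh s k j)
  · filter_upwards [self_mem_nhdsWithin] with h hh
    refine Filter.Eventually.of_forall fun t ht => ?_
    rw [uIoc_of_le (by positivity)] at ht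
    have ht' : t ∈ Icc (0 : ℝ) (2 * π) := ⟨ht.1.le, ht.2⟩
    have hk : ∀ k : Fin 4, ‖phE h t * (gE s t (Fin.castAdd 2 i) k : ℂ) * inE s h k j t‖ ≤
        K * (K * (2 * π)) := by
      intro k
      rw [norm_mul, norm_mul]
      have h1 := norm_phE_le h t
      have h2 := (hb t ht' (Fin.castAdd 2 i) k).1
      have h3 := norm_inE_le hK hb h k j ht'
      have h4 : ‖phE h t‖ * ‖(gE s t (Fin.castAdd 2 i) k : ℂ)‖ ≤ 1 * K :=
        mul_le_mul h1 h2 (norm_nonneg _) zero_le_one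
      rw [one_mul] at h4
      exact mul_le_mul h4 h3 (norm_nonneg _) hK.le
    calc ‖∑ k, phE h t * (gE s t (Fin.castAdd 2 i) k : ℂ) * inE s h k j t‖
        ≤ ∑ k, ‖phE h t * (gE s t (Fin.castAdd 2 i) k : ℂ) * inE s h k j t‖ := norm_sum_le _ _
      _ ≤ ∑ _k : Fin 4, K * (K * (2 * π)) := Finset.sum_le_sum fun k _ => hk k
      _ = 4 * (K * (K * (2 * π))) := by simp
  · exact intervalIntegrable_const
  · filter_upwards [ae_cos_ne] with t ht hmem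
    rw [uIoc_of_le (by positivity)] at hmem
    have ht' : t ∈ Icc (0 : ℝ) (2 * π) := ⟨hmem.1.le, hmem.2⟩
    exact tendsto_finsetSum _ fun k _ => ((tendsto_phE ht).mul_const _).mul
      (inE_limit s k j ht')

theorem norm_Ah_w {h : ℝ} (hh : 0 < h) {s K : ℝ} (hb : ∀ θ ∈ Icc (0 : ℝ) (2 * π), ∀ i k : Fin 4,
    ‖(gE s θ i k : ℂ)‖ ≤ K ∧ ‖Ar s θ i k‖ ≤ K) {θ : ℝ} (hθ : θ ∈ Icc (0 : ℝ) (2 * π))
    (i : Fin 2) (k : Fin 4) : ‖Ah s h θ (Fin.castAdd 2 i) k‖ ≤ h * K := by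
  rw [Ah_w hh, norm_mul, norm_mul, Complex.norm_real, Real.norm_of_nonneg hh.le]
  refine mul_le_mul_of_nonneg_left ?_ hh.le
  calc _ ≤ 1 * K := mul_le_mul (norm_phE_le h θ) (hb θ hθ _ _).1 (norm_nonneg _) zero_le_one
    _ = K := one_mul K

theorem norm_Ah_v {h : ℝ} (hh : 0 < h) {s K : ℝ} (hb : ∀ θ ∈ Icc (0 : ℝ) (2 * π), ∀ i k : Fin 4,
    ‖(gE s θ i k : ℂ)‖ ≤ K ∧ ‖Ar s θ i k‖ ≤ K) {θ : ℝ} (hθ : θ ∈ Icc (0 : ℝ) (2 * π))
    (k : Fin 4) (j : Fin 2) : ‖Ah s h θ k (Fin.natAdd 2 j)‖ ≤ h * K := by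
  rw [Ah_v hh, norm_mul, norm_mul, Complex.norm_real, Real.norm_of_nonneg hh.le]
  refine mul_le_mul_of_nonneg_left ?_ hh.le
  calc _ ≤ 1 * K := mul_le_mul (norm_phE_le h θ) (hb θ hθ _ _).1 (norm_nonneg _) zero_le_one
    _ = K := one_mul K

theorem norm_Ah_all {h : ℝ} {s K : ℝ} (hb : ∀ θ ∈ Icc (0 : ℝ) (2 * π),
    ∀ i k : Fin 4, ‖(gE s θ i k : ℂ)‖ ≤ K ∧ ‖Ar s θ i k‖ ≤ K) {θ : ℝ}
    (hθ : θ ∈ Icc (0 : ℝ) (2 * π)) (i k : Fin 4) :
    ‖Ah s h θ i k‖ ≤ K * ‖rho (I / (h : ℂ)) θ‖ := by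
  rw [Ah, Matrix.smul_apply, smul_eq_mul, norm_mul, mul_comm]
  exact mul_le_mul_of_nonneg_right (hb θ hθ i k).2 (norm_nonneg _)

theorem continuous_rhoI {h : ℝ} (hh : 0 < h) : Continuous fun θ => rho (I / (h : ℂ)) θ := by
  have : (fun θ => rho (I / (h : ℂ)) θ) = fun θ => (h : ℂ) / ((h : ℂ) + I * (Real.cos θ : ℂ)) := by
    funext θ; exact rho_I_div hh θ
  rw [this]
  exact Continuous.div (by fun_prop) (by fun_prop) (phE_ne hh)

theorem continuous_Ah {h : ℝ} (hh : 0 < h) (s : ℝ) (i k : Fin 4) :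
    Continuous fun θ => Ah s h θ i k := by
  have : (fun θ => Ah s h θ i k) = fun θ => rho (I / (h : ℂ)) θ * Ar s θ i k := by
    funext θ; rw [Ah, Matrix.smul_apply, smul_eq_mul]
  rw [this]
  exact (continuous_rhoI hh).mul (continuous_Ar s i k)

/-- inner integrals with a factor `cos`. -/
theorem norm_int_v {h : ℝ} (hh : 0 < h) {s K : ℝ} (hK : 0 < K)
    (hb : ∀ θ ∈ Icc (0 : ℝ) (2 * π), ∀ i k : Fin 4,
    ‖(gE s θ i k : ℂ)‖ ≤ K ∧ ‖Ar s θ i k‖ ≤ K) {θ : ℝ} (hθ : θ ∈ Icc (0 : ℝ) (2 * π))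
    {f : ℝ → ℂ} (hf : ∀ t ∈ Icc (0 : ℝ) (2 * π), ‖f t‖ ≤ h * K) :
    ‖∫ t in (0 : ℝ)..θ, f t‖ ≤ h * K * (2 * π) := by
  have := intervalIntegral.norm_integral_le_of_norm_le_const (a := 0) (b := θ) (C := h * K)
    (f := f) (by
      intro t ht
      rw [uIoc_of_le hθ.1] at ht
      exact hf t ⟨ht.1.le, ht.2.trans hθ.2⟩)
  refine this.trans ?_
  rw [sub_zero, abs_of_nonneg hθ.1]
  exact mul_le_mul_of_nonneg_left hθ.2 (by positivity)

theorem norm_int_all {h : ℝ} (hh : 0 < h) {s K : ℝ} (hK : 0 < K)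
    (hb : ∀ θ ∈ Icc (0 : ℝ) (2 * π), ∀ i k : Fin 4,
    ‖(gE s θ i k : ℂ)‖ ≤ K ∧ ‖Ar s θ i k‖ ≤ K) {θ : ℝ} (hθ : θ ∈ Icc (0 : ℝ) (2 * π))
    (i k : Fin 4) : ‖∫ t in (0 : ℝ)..θ, Ah s h t i k‖ ≤
      K * ∫ t in (0 : ℝ)..(2 * π), ‖rho (I / (h : ℂ)) t‖ := by
  have hπ := Real.pi_pos
  have hc : Continuous fun t => K * ‖rho (I / (h : ℂ)) t‖ :=
    continuous_const.mul (continuous_rhoI hh).norm
  have h1 : ‖∫ t in (0 : ℝ)..θ, Ah s h t i k‖ ≤ ∫ t in (0 : ℝ)..θ, K * ‖rho (I / (h : ℂ)) t‖ := by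
    refine intervalIntegral.norm_integral_le_of_norm_le hθ.1 ?_ (hc.intervalIntegrable _ _)
    refine Filter.Eventually.of_forall fun t ht => ?_
    exact norm_Ah_all hb ⟨ht.1.le, ht.2.trans hθ.2⟩ i k
  refine h1.trans ?_
  rw [← intervalIntegral.integral_const_mul]
  refine intervalIntegral.integral_mono_interval le_rfl hθ.1 hθ.2 ?_ (hc.intervalIntegrable _ _)
  exact Filter.Eventually.of_forall fun t => by positivity

theorem norm_S2_le {h : ℝ} (hh : 0 < h) (s : ℝ) (i j : Fin 4) (b : Fin 4 → ℝ → ℝ)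
    (hbc : ∀ k, Continuous (b k))
    (hbd : ∀ θ ∈ Icc (0 : ℝ) (2 * π), ∀ k,
      ‖Ah s h θ i k * ∫ t in (0 : ℝ)..θ, Ah s h t k j‖ ≤ b k θ) :
    ‖S2 s h i j‖ ≤ ∑ k, ∫ θ in (0 : ℝ)..(2 * π), b k θ := by
  have hπ := Real.pi_pos
  rw [S2]
  have h1 : ‖∫ θ in (0 : ℝ)..(2 * π), ∑ k, Ah s h θ i k * ∫ t in (0 : ℝ)..θ, Ah s h t k j‖ ≤
      ∫ θ in (0 : ℝ)..(2 * π), ∑ k, b k θ := by
    refine intervalIntegral.norm_integral_le_of_norm_le (by positivity) ?_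
      ((continuous_finsetSum _ fun k _ => hbc k).intervalIntegrable _ _)
    refine Filter.Eventually.of_forall fun t ht => ?_
    have ht' : t ∈ Icc (0 : ℝ) (2 * π) := ⟨ht.1.le, ht.2⟩
    exact (norm_sum_le _ _).trans (Finset.sum_le_sum fun k _ => hbd t ht' k)
  refine h1.trans (le_of_eq ?_)
  rw [intervalIntegral.integral_finsetSum]
  exact fun k _ => (hbc k).intervalIntegrable _ _

theorem second_other (s : ℝ) : ∃ C > 0, ∀ h : ℝ, 0 < h → h ≤ 1 → ∀ i j : Fin 2,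
    ‖S2 s h (Fin.castAdd 2 i) (Fin.castAdd 2 j)‖ ≤ C * h ^ (7 / 4 : ℝ) ∧
    ‖S2 s h (Fin.natAdd 2 i) (Fin.natAdd 2 j)‖ ≤ C * h ^ (7 / 4 : ℝ) ∧
    ‖S2 s h (Fin.natAdd 2 i) (Fin.castAdd 2 j)‖ ≤ C * h ^ (3 / 2 : ℝ) := by
  obtain ⟨K, hK, hb⟩ := exists_bd s
  obtain ⟨C, hC, hCr⟩ := int_norm_rho
  have hπ := Real.pi_pos
  refine ⟨4 * (K * K * (2 * π) * (C + 2 * π)), by positivity, ?_⟩
  intro h hh hh1 i j
  set R : ℝ := ∫ t in (0 : ℝ)..(2 * π), ‖rho (I / (h : ℂ)) t‖ with hR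
  have hR0 : 0 ≤ R := intervalIntegral.integral_nonneg (by positivity) fun t _ => norm_nonneg _
  have hRC : R ≤ C * h ^ (3 / 4 : ℝ) := hCr h hh hh1
  have p1 : h ^ (7 / 4 : ℝ) = h * h ^ (3 / 4 : ℝ) := by
    rw [show (7 / 4 : ℝ) = 1 + 3 / 4 by norm_num, Real.rpow_add hh, Real.rpow_one]
  have p2 : h ≤ h ^ (3 / 4 : ℝ) := by
    calc h = h ^ (1 : ℝ) := (Real.rpow_one h).symm
      _ ≤ h ^ (3 / 4 : ℝ) := Real.rpow_le_rpow_of_exponent_ge hh hh1 (by norm_num)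
  have p3 : h ^ (7 / 4 : ℝ) ≤ h ^ (3 / 2 : ℝ) :=
    Real.rpow_le_rpow_of_exponent_ge hh hh1 (by norm_num)
  have p4 : 0 < h ^ (3 / 4 : ℝ) := Real.rpow_pos_of_pos hh _
  -- the two elementary bounds
  have b1 : h * K * (2 * π) * (h * K) * (2 * π) ≤ K * K * (2 * π) * (C + 2 * π) * h ^ (7 / 4 : ℝ) := by
    rw [p1]
    have : h * K * (2 * π) * (h * K) * (2 * π) = K * K * (2 * π) * (2 * π) * (h * h) := by ring
    rw [this]
    have h1 : h * h ≤ h * h ^ (3 / 4 : ℝ) := mul_le_mul_of_nonneg_left p2 hh.le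
    calc K * K * (2 * π) * (2 * π) * (h * h) ≤ K * K * (2 * π) * (2 * π) * (h * h ^ (3 / 4 : ℝ)) :=
          mul_le_mul_of_nonneg_left h1 (by positivity)
      _ ≤ K * K * (2 * π) * (C + 2 * π) * (h * h ^ (3 / 4 : ℝ)) := by
          apply mul_le_mul_of_nonneg_right _ (by positivity)
          apply mul_le_mul_of_nonneg_left _ (by positivity)
          linarith
  have b2 : h * K * (K * R) * (2 * π) ≤ K * K * (2 * π) * (C + 2 * π) * h ^ (7 / 4 : ℝ) := by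
    rw [p1]
    have : h * K * (K * R) * (2 * π) = K * K * (2 * π) * (h * R) := by ring
    rw [this]
    have h1 : h * R ≤ C * (h * h ^ (3 / 4 : ℝ)) := by
      calc h * R ≤ h * (C * h ^ (3 / 4 : ℝ)) := mul_le_mul_of_nonneg_left hRC hh.le
        _ = _ := by ring
    calc K * K * (2 * π) * (h * R) ≤ K * K * (2 * π) * (C * (h * h ^ (3 / 4 : ℝ))) :=
          mul_le_mul_of_nonneg_left h1 (by positivity)
      _ ≤ K * K * (2 * π) * (C + 2 * π) * (h * h ^ (3 / 4 : ℝ)) := by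
          rw [← mul_assoc]
          apply mul_le_mul_of_nonneg_right _ (by positivity)
          apply mul_le_mul_of_nonneg_left _ (by positivity)
          linarith
  have c1 : ∫ _θ in (0 : ℝ)..(2 * π), h * K * (2 * π) * (h * K) = h * K * (2 * π) * (h * K) * (2 * π) := by
    rw [intervalIntegral.integral_const, sub_zero, smul_eq_mul]; ring
  have c2 : ∫ _θ in (0 : ℝ)..(2 * π), h * K * (K * R) = h * K * (K * R) * (2 * π) := by
    rw [intervalIntegral.integral_const, sub_zero, smul_eq_mul]; ring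
  have c3 : ∫ θ in (0 : ℝ)..(2 * π), K * ‖rho (I / (h : ℂ)) θ‖ * (h * K * (2 * π)) =
      h * K * (K * R) * (2 * π) := by
    rw [intervalIntegral.integral_mul_const, intervalIntegral.integral_const_mul, ← hR]; ring
  have hcr : Continuous fun θ => K * ‖rho (I / (h : ℂ)) θ‖ * (h * K * (2 * π)) :=
    (continuous_const.mul (continuous_rhoI hh).norm).mul continuous_const
  set B : ℝ := K * K * (2 * π) * (C + 2 * π) * h ^ (7 / 4 : ℝ) with hB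
  have hsplit : ∀ k : Fin 4, (∃ m : Fin 2, k = Fin.castAdd 2 m) ∨ ∃ m : Fin 2, k = Fin.natAdd 2 m := by
    intro k
    fin_cases k
    · exact Or.inl ⟨0, rfl⟩
    · exact Or.inl ⟨1, rfl⟩
    · exact Or.inr ⟨0, rfl⟩
    · exact Or.inr ⟨1, rfl⟩
  have fin : ∀ x : Fin 4 → ℝ, (∀ k, x k ≤ B) → ∑ k, x k ≤ 4 * (K * K * (2 * π) * (C + 2 * π)) *
      h ^ (7 / 4 : ℝ) := by
    intro x hx
    calc ∑ k, x k ≤ ∑ _k : Fin 4, B := Finset.sum_le_sum fun k _ => hx k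
      _ = _ := by simp [hB]; ring
  have hww : ∀ θ ∈ Icc (0 : ℝ) (2 * π), ∀ k : Fin 4,
      ‖Ah s h θ (Fin.castAdd 2 i) k * ∫ t in (0 : ℝ)..θ, Ah s h t k (Fin.castAdd 2 j)‖ ≤
        (if k.val < 2 then h * K * (2 * π) * (h * K) else h * K * (K * R)) := by
    intro θ hθ k
    rw [norm_mul]
    rcases hsplit k with ⟨m, rfl⟩ | ⟨m, rfl⟩
    · have : (Fin.castAdd 2 m).val < 2 := m.2
      rw [if_pos this]
      have h1 := norm_Ah_w hh hb hθ i (Fin.castAdd 2 m)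
      have h2 := norm_int_v hh hK hb hθ (f := fun t => Ah s h t (Fin.castAdd 2 m) (Fin.castAdd 2 j))
        (fun t ht => norm_Ah_w hh hb ht m _)
      calc _ ≤ h * K * (h * K * (2 * π)) := mul_le_mul h1 h2 (norm_nonneg _) (by positivity)
        _ = _ := by ring
    · have : ¬ (Fin.natAdd 2 m).val < 2 := by simp only [Fin.val_natAdd]; omega
      rw [if_neg this]
      have h1 := norm_Ah_w hh hb hθ i (Fin.natAdd 2 m)
      have h2 := norm_int_all hh hK hb hθ (Fin.natAdd 2 m) (Fin.castAdd 2 j)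
      exact mul_le_mul h1 h2 (norm_nonneg _) (by positivity)
  have hvv : ∀ θ ∈ Icc (0 : ℝ) (2 * π), ∀ k : Fin 4,
      ‖Ah s h θ (Fin.natAdd 2 i) k * ∫ t in (0 : ℝ)..θ, Ah s h t k (Fin.natAdd 2 j)‖ ≤
        K * ‖rho (I / (h : ℂ)) θ‖ * (h * K * (2 * π)) := by
    intro θ hθ k
    rw [norm_mul]
    have h1 := norm_Ah_all (h := h) hb hθ (Fin.natAdd 2 i) k
    have h2 := norm_int_v hh hK hb hθ (f := fun t => Ah s h t k (Fin.natAdd 2 j))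
      (fun t ht => norm_Ah_v hh hb ht k j)
    exact mul_le_mul h1 h2 (norm_nonneg _) (by positivity)
  have hvw : ∀ θ ∈ Icc (0 : ℝ) (2 * π), ∀ k : Fin 4,
      ‖Ah s h θ (Fin.natAdd 2 i) k * ∫ t in (0 : ℝ)..θ, Ah s h t k (Fin.castAdd 2 j)‖ ≤
        (if k.val < 2 then K * ‖rho (I / (h : ℂ)) θ‖ * (h * K * (2 * π)) else h * K * (K * R)) := by
    intro θ hθ k
    rw [norm_mul]
    rcases hsplit k with ⟨m, rfl⟩ | ⟨m, rfl⟩
    · have : (Fin.castAdd 2 m).val < 2 := m.2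
      rw [if_pos this]
      have h1 := norm_Ah_all (h := h) hb hθ (Fin.natAdd 2 i) (Fin.castAdd 2 m)
      have h2 := norm_int_v hh hK hb hθ (f := fun t => Ah s h t (Fin.castAdd 2 m) (Fin.castAdd 2 j))
        (fun t ht => norm_Ah_w hh hb ht m _)
      exact mul_le_mul h1 h2 (norm_nonneg _) (by positivity)
    · have : ¬ (Fin.natAdd 2 m).val < 2 := by simp only [Fin.val_natAdd]; omega
      rw [if_neg this]
      have h1 := norm_Ah_v hh hb hθ (Fin.natAdd 2 i) m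
      have h2 := norm_int_all hh hK hb hθ (Fin.natAdd 2 m) (Fin.castAdd 2 j)
      exact mul_le_mul h1 h2 (norm_nonneg _) (by positivity)
  refine ⟨?_, ?_, ?_⟩
  · refine (norm_S2_le hh s _ _ (fun k _ => if k.val < 2 then h * K * (2 * π) * (h * K)
      else h * K * (K * R)) (fun k => continuous_const) hww).trans (fin _ fun k => ?_)
    by_cases hk : k.val < 2
    · simp only [hk, if_true]; rw [c1]; exact b1
    · simp only [hk, if_false]; rw [c2]; exact b2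
  · refine (norm_S2_le hh s _ _ (fun _ θ => K * ‖rho (I / (h : ℂ)) θ‖ * (h * K * (2 * π)))
      (fun k => hcr) hvv).trans (fin _ fun k => ?_)
    rw [c3]; exact b2
  · have h3 : ‖S2 s h (Fin.natAdd 2 i) (Fin.castAdd 2 j)‖ ≤
        4 * (K * K * (2 * π) * (C + 2 * π)) * h ^ (7 / 4 : ℝ) := by
      refine (norm_S2_le hh s _ _ (fun k θ => if k.val < 2 then
        K * ‖rho (I / (h : ℂ)) θ‖ * (h * K * (2 * π)) else h * K * (K * R)) (fun k => ?_)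
        hvw).trans (fin _ fun k => ?_)
      · by_cases hk : k.val < 2
        · simp only [hk, if_true]; exact hcr
        · simp only [hk, if_false]; exact continuous_const
      · by_cases hk : k.val < 2
        · simp only [hk, if_true]; rw [c3]; exact b2
        · simp only [hk, if_false]; rw [c2]; exact b2
    exact h3.trans (mul_le_mul_of_nonneg_left p3 (by positivity))

end Pool.Agent.MP_5027f4_ell
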