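import Pool.Agent.Lib_MP_5027f4_ell.Defs

/-!
# Asymptotics of determinant and trace of a matrix with blocks of different sizes
-/

open Complex Set Filter Topology MeasureTheory
open scoped Real Matrix ComplexConjugate

namespace Pool.Agent.MP_5027f4_ell

/-- left scaling -/
noncomputable def scL (h : ℝ) : Fin 4 → ℂ :=
  ![((h ^ (-3 / 2 : ℝ) : ℝ) : ℂ), ((h ^ (-3 / 2 : ℝ) : ℝ) : ℂ), ((h ^ (-1 : ℝ) : ℝ) : ℂ),
    ((h ^ (-1 : ℝ) : ℝ) : ℂ)]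

/-- right scaling -/
noncomputable def scR (h : ℝ) : Fin 4 → ℂ :=
  ![1, 1, ((h ^ (-1 / 2 : ℝ) : ℝ) : ℂ), ((h ^ (-1 / 2 : ℝ) : ℝ) : ℂ)]

/-- the scaled matrix -/
noncomputable def scE (D : ℝ → Mat) (h : ℝ) : Mat :=
  Matrix.diagonal (scL h) * D h * Matrix.diagonal (scR h)

theorem scE_apply (D : ℝ → Mat) (h : ℝ) (i j : Fin 4) :
    scE D h i j = scL h i * D h i j * scR h j := by
  simp [scE, Matrix.mul_diagonal, Matrix.diagonal_mul]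

/-- the limit of the scaled matrix -/
def scE0 (α : ℂ) (β : Fin 2 → ℂ) : Mat :=
  !![0, 0, α, 0; 0, 0, 0, α; β 0, 0, 0, 0; 0, β 1, 0, 0]

theorem scR_mul_scL (h : ℝ) (hh : 0 < h) (i : Fin 4) :
    scR h i * scL h i = ((h ^ (-3 / 2 : ℝ) : ℝ) : ℂ) := by
  have key : h ^ (-1 / 2 : ℝ) * h ^ (-1 : ℝ) = h ^ (-3 / 2 : ℝ) := by
    rw [← Real.rpow_add hh]; norm_num
  fin_cases i
  · simp [scR, scL]
  · simp [scR, scL]
  · show ((h ^ (-1 / 2 : ℝ) : ℝ) : ℂ) * ((h ^ (-1 : ℝ) : ℝ) : ℂ) = _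
    rw [← ofReal_mul, key]
  · show ((h ^ (-1 / 2 : ℝ) : ℝ) : ℂ) * ((h ^ (-1 : ℝ) : ℝ) : ℂ) = _
    rw [← ofReal_mul, key]

theorem det_scE (D : ℝ → Mat) (h : ℝ) (hh : 0 < h) :
    (scE D h).det = (D h).det / (h : ℂ) ^ 6 := by
  rw [scE, Matrix.det_mul, Matrix.det_mul, Matrix.det_diagonal, Matrix.det_diagonal]
  have e1 : (∏ i, scL h i) * ∏ i, scR h i = ((h ^ (-6 : ℝ) : ℝ) : ℂ) := by
    rw [← Finset.prod_mul_distrib]
    have : ∀ i, scL h i * scR h i = ((h ^ (-3 / 2 : ℝ) : ℝ) : ℂ) := fun i => by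
      rw [mul_comm]; exact scR_mul_scL h hh i
    rw [Finset.prod_congr rfl (fun i _ => this i)]
    rw [Finset.prod_const, Finset.card_univ, Fintype.card_fin, ← ofReal_pow]
    congr 1
    rw [← Real.rpow_natCast, ← Real.rpow_mul hh.le]
    norm_num
  have e2 : ((h ^ (-6 : ℝ) : ℝ) : ℂ) = ((h : ℂ) ^ 6)⁻¹ := by
    rw [Real.rpow_neg hh.le, ofReal_inv]
    congr 1
    rw [← ofReal_pow]
    congr 1
    rw [← Real.rpow_natCast]
    norm_num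
  calc (∏ i, scL h i) * (D h).det * ∏ i, scR h i
      = (D h).det * ((∏ i, scL h i) * ∏ i, scR h i) := by ring
    _ = (D h).det / (h : ℂ) ^ 6 := by rw [e1, e2, div_eq_mul_inv]

theorem trace_scE (D : ℝ → Mat) (h : ℝ) (hh : 0 < h) :
    (scE D h * scE D h).trace = (D h * D h).trace / (h : ℂ) ^ 3 := by
  have e2 : ((h ^ (-3 / 2 : ℝ) : ℝ) : ℂ) * ((h ^ (-3 / 2 : ℝ) : ℝ) : ℂ) = ((h : ℂ) ^ 3)⁻¹ := by
    rw [← ofReal_mul, ← Real.rpow_add hh]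
    rw [← ofReal_pow, ← ofReal_inv]
    congr 1
    rw [← Real.rpow_natCast, ← Real.rpow_neg hh.le]
    norm_num
  rw [Matrix.trace, Matrix.trace, div_eq_mul_inv, ← e2, Finset.sum_mul]
  refine Finset.sum_congr rfl fun i _ => ?_
  rw [Matrix.diag_apply, Matrix.diag_apply, Matrix.mul_apply, Matrix.mul_apply, Finset.sum_mul]
  refine Finset.sum_congr rfl fun j _ => ?_
  rw [scE_apply, scE_apply]
  calc scL h i * D h i j * scR h j * (scL h j * D h j i * scR h i)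
      = D h i j * D h j i * ((scR h i * scL h i) * (scR h j * scL h j)) := by ring
    _ = _ := by rw [scR_mul_scL h hh, scR_mul_scL h hh]

theorem tendsto_rpow_quarter :
    Tendsto (fun h : ℝ => h ^ (1 / 4 : ℝ)) (𝓝[>] 0) (𝓝 0) := by
  have h1 : ContinuousAt (fun h : ℝ => h ^ (1 / 4 : ℝ)) 0 :=
    Real.continuousAt_rpow_const 0 (1 / 4) (Or.inr (by norm_num))
  have h2 := h1.tendsto
  simp only [Real.zero_rpow (show (1 / 4 : ℝ) ≠ 0 by norm_num)] at h2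
  exact h2.mono_left nhdsWithin_le_nhds

theorem tendsto_small {F : ℝ → ℂ} {C : ℝ} (hF : ∀ h : ℝ, 0 < h → h ≤ 1 → ‖F h‖ ≤ C * h ^ (1 / 4 : ℝ)) :
    Tendsto F (𝓝[>] 0) (𝓝 0) := by
  have h1 : Tendsto (fun h : ℝ => C * h ^ (1 / 4 : ℝ)) (𝓝[>] 0) (𝓝 0) := by
    have := tendsto_rpow_quarter.const_mul C
    simpa using this
  refine squeeze_zero_norm' ?_ h1
  have : ∀ᶠ h : ℝ in 𝓝[>] 0, h ∈ Ioc (0 : ℝ) 1 := Ioc_mem_nhdsGT one_pos
  filter_upwards [this] with h hh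
  exact hF h hh.1 hh.2

variable {D : ℝ → Mat} {α : ℂ} {β : Fin 2 → ℂ} {C : ℝ}

theorem tendsto_scE
    (h1 : ∀ h : ℝ, 0 < h → h ≤ 1 → ∀ i j : Fin 2,
      ‖D h (Fin.castAdd 2 i) (Fin.castAdd 2 j)‖ ≤ C * h ^ (7 / 4 : ℝ) ∧
      ‖D h (Fin.natAdd 2 i) (Fin.natAdd 2 j)‖ ≤ C * h ^ (7 / 4 : ℝ))
    (h2 : ∀ i j : Fin 2, Tendsto (fun h : ℝ => D h (Fin.castAdd 2 i) (Fin.natAdd 2 j) /
      (h : ℂ) ^ 2) (𝓝[>] 0) (𝓝 (if i = j then α else 0)))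
    (h3 : ∀ i j : Fin 2, Tendsto (fun h : ℝ => D h (Fin.natAdd 2 i) (Fin.castAdd 2 j) /
      (h : ℂ)) (𝓝[>] 0) (𝓝 (if i = j then β i else 0))) (i j : Fin 4) :
    Tendsto (fun h => scE D h i j) (𝓝[>] 0) (𝓝 (scE0 α β i j)) := by
  have pos : ∀ᶠ h : ℝ in 𝓝[>] 0, 0 < h := self_mem_nhdsWithin
  -- block estimates
  have cc : ∀ i j : Fin 2, Tendsto (fun h => ((h ^ (-3 / 2 : ℝ) : ℝ) : ℂ) *
      D h (Fin.castAdd 2 i) (Fin.castAdd 2 j)) (𝓝[>] 0) (𝓝 0) := by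
    intro i j
    refine tendsto_small (C := C) fun h hh hh1 => ?_
    rw [norm_mul, norm_real, Real.norm_of_nonneg (Real.rpow_nonneg hh.le _)]
    calc h ^ (-3 / 2 : ℝ) * ‖D h (Fin.castAdd 2 i) (Fin.castAdd 2 j)‖
        ≤ h ^ (-3 / 2 : ℝ) * (C * h ^ (7 / 4 : ℝ)) :=
          mul_le_mul_of_nonneg_left (h1 h hh hh1 i j).1 (Real.rpow_nonneg hh.le _)
      _ = C * (h ^ (-3 / 2 : ℝ) * h ^ (7 / 4 : ℝ)) := by ring
      _ = C * h ^ (1 / 4 : ℝ) := by rw [← Real.rpow_add hh]; norm_num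
  have nn : ∀ i j : Fin 2, Tendsto (fun h => ((h ^ (-3 / 2 : ℝ) : ℝ) : ℂ) *
      D h (Fin.natAdd 2 i) (Fin.natAdd 2 j)) (𝓝[>] 0) (𝓝 0) := by
    intro i j
    refine tendsto_small (C := C) fun h hh hh1 => ?_
    rw [norm_mul, norm_real, Real.norm_of_nonneg (Real.rpow_nonneg hh.le _)]
    calc h ^ (-3 / 2 : ℝ) * ‖D h (Fin.natAdd 2 i) (Fin.natAdd 2 j)‖
        ≤ h ^ (-3 / 2 : ℝ) * (C * h ^ (7 / 4 : ℝ)) :=
          mul_le_mul_of_nonneg_left (h1 h hh hh1 i j).2 (Real.rpow_nonneg hh.le _)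
      _ = C * (h ^ (-3 / 2 : ℝ) * h ^ (7 / 4 : ℝ)) := by ring
      _ = C * h ^ (1 / 4 : ℝ) := by rw [← Real.rpow_add hh]; norm_num
  have e_cc : ∀ i j : Fin 2, (fun h => scE D h (Fin.castAdd 2 i) (Fin.castAdd 2 j)) =
      fun h => ((h ^ (-3 / 2 : ℝ) : ℝ) : ℂ) * D h (Fin.castAdd 2 i) (Fin.castAdd 2 j) := by
    intro i j
    funext h
    rw [scE_apply]
    have a1 : scL h (Fin.castAdd 2 i) = ((h ^ (-3 / 2 : ℝ) : ℝ) : ℂ) := by
      fin_cases i <;> rfl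
    have a2 : scR h (Fin.castAdd 2 j) = 1 := by
      fin_cases j <;> rfl
    rw [a1, a2, mul_one]
  have e_nn : ∀ i j : Fin 2, (fun h => scE D h (Fin.natAdd 2 i) (Fin.natAdd 2 j)) =ᶠ[𝓝[>] 0]
      fun h => ((h ^ (-3 / 2 : ℝ) : ℝ) : ℂ) * D h (Fin.natAdd 2 i) (Fin.natAdd 2 j) := by
    intro i j
    filter_upwards [pos] with h hh
    rw [scE_apply]
    have a1 : scL h (Fin.natAdd 2 i) = ((h ^ (-1 : ℝ) : ℝ) : ℂ) := by
      fin_cases i <;> rfl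
    have a2 : scR h (Fin.natAdd 2 j) = ((h ^ (-1 / 2 : ℝ) : ℝ) : ℂ) := by
      fin_cases j <;> rfl
    rw [a1, a2]
    have key : ((h ^ (-1 : ℝ) : ℝ) : ℂ) * ((h ^ (-1 / 2 : ℝ) : ℝ) : ℂ) =
        ((h ^ (-3 / 2 : ℝ) : ℝ) : ℂ) := by
      rw [← ofReal_mul, ← Real.rpow_add hh]; norm_num
    rw [← key]; ring
  have e_cn : ∀ i j : Fin 2, (fun h => scE D h (Fin.castAdd 2 i) (Fin.natAdd 2 j)) =ᶠ[𝓝[>] 0]
      fun h : ℝ => D h (Fin.castAdd 2 i) (Fin.natAdd 2 j) / (h : ℂ) ^ 2 := by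
    intro i j
    filter_upwards [pos] with h hh
    rw [scE_apply]
    have a1 : scL h (Fin.castAdd 2 i) = ((h ^ (-3 / 2 : ℝ) : ℝ) : ℂ) := by
      fin_cases i <;> rfl
    have a2 : scR h (Fin.natAdd 2 j) = ((h ^ (-1 / 2 : ℝ) : ℝ) : ℂ) := by
      fin_cases j <;> rfl
    rw [a1, a2]
    have key : ((h ^ (-3 / 2 : ℝ) : ℝ) : ℂ) * ((h ^ (-1 / 2 : ℝ) : ℝ) : ℂ) = ((h : ℂ) ^ 2)⁻¹ := by
      rw [← ofReal_mul, ← Real.rpow_add hh, ← ofReal_pow, ← ofReal_inv]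
      congr 1
      rw [← Real.rpow_natCast, ← Real.rpow_neg hh.le]
      norm_num
    calc ((h ^ (-3 / 2 : ℝ) : ℝ) : ℂ) * D h (Fin.castAdd 2 i) (Fin.natAdd 2 j) *
          ((h ^ (-1 / 2 : ℝ) : ℝ) : ℂ)
        = D h (Fin.castAdd 2 i) (Fin.natAdd 2 j) * (((h ^ (-3 / 2 : ℝ) : ℝ) : ℂ) *
          ((h ^ (-1 / 2 : ℝ) : ℝ) : ℂ)) := by ring
      _ = D h (Fin.castAdd 2 i) (Fin.natAdd 2 j) / (h : ℂ) ^ 2 := by rw [key, div_eq_mul_inv]
  have e_nc : ∀ i j : Fin 2, (fun h => scE D h (Fin.natAdd 2 i) (Fin.castAdd 2 j)) =ᶠ[𝓝[>] 0]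
      fun h : ℝ => D h (Fin.natAdd 2 i) (Fin.castAdd 2 j) / (h : ℂ) := by
    intro i j
    filter_upwards [pos] with h hh
    rw [scE_apply]
    have a1 : scL h (Fin.natAdd 2 i) = ((h ^ (-1 : ℝ) : ℝ) : ℂ) := by
      fin_cases i <;> rfl
    have a2 : scR h (Fin.castAdd 2 j) = 1 := by
      fin_cases j <;> rfl
    rw [a1, a2, mul_one, Real.rpow_neg_one, ofReal_inv, div_eq_mul_inv, mul_comm]
  have t_cc : ∀ i j : Fin 2, Tendsto (fun h => scE D h (Fin.castAdd 2 i) (Fin.castAdd 2 j))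
      (𝓝[>] 0) (𝓝 0) := fun i j => by rw [e_cc]; exact cc i j
  have t_nn : ∀ i j : Fin 2, Tendsto (fun h => scE D h (Fin.natAdd 2 i) (Fin.natAdd 2 j))
      (𝓝[>] 0) (𝓝 0) := fun i j => (nn i j).congr' (e_nn i j).symm
  have t_cn : ∀ i j : Fin 2, Tendsto (fun h => scE D h (Fin.castAdd 2 i) (Fin.natAdd 2 j))
      (𝓝[>] 0) (𝓝 (if i = j then α else 0)) := fun i j => (h2 i j).congr' (e_cn i j).symm
  have t_nc : ∀ i j : Fin 2, Tendsto (fun h => scE D h (Fin.natAdd 2 i) (Fin.castAdd 2 j))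
      (𝓝[>] 0) (𝓝 (if i = j then β i else 0)) := fun i j => (h3 i j).congr' (e_nc i j).symm
  fin_cases i <;> fin_cases j
  · exact t_cc 0 0
  · exact t_cc 0 1
  · exact t_cn 0 0
  · exact t_cn 0 1
  · exact t_cc 1 0
  · exact t_cc 1 1
  · exact t_cn 1 0
  · exact t_cn 1 1
  · exact t_nc 0 0
  · exact t_nc 0 1
  · exact t_nn 0 0
  · exact t_nn 0 1
  · exact t_nc 1 0
  · exact t_nc 1 1
  · exact t_nn 1 0
  · exact t_nn 1 1

theorem det_scE0 (α : ℂ) (β : Fin 2 → ℂ) : (scE0 α β).det = α ^ 2 * β 0 * β 1 := by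
  simp [scE0, Matrix.det_succ_row_zero, Fin.sum_univ_succ, Fin.succAbove]
  ring

theorem trace_scE0 (α : ℂ) (β : Fin 2 → ℂ) :
    (scE0 α β * scE0 α β).trace = 2 * α * (β 0 + β 1) := by
  simp [scE0, Matrix.trace, Fin.sum_univ_succ]
  ring

theorem block_asym
    (h1 : ∀ h : ℝ, 0 < h → h ≤ 1 → ∀ i j : Fin 2,
      ‖D h (Fin.castAdd 2 i) (Fin.castAdd 2 j)‖ ≤ C * h ^ (7 / 4 : ℝ) ∧
      ‖D h (Fin.natAdd 2 i) (Fin.natAdd 2 j)‖ ≤ C * h ^ (7 / 4 : ℝ))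
    (h2 : ∀ i j : Fin 2, Tendsto (fun h : ℝ => D h (Fin.castAdd 2 i) (Fin.natAdd 2 j) /
      (h : ℂ) ^ 2) (𝓝[>] 0) (𝓝 (if i = j then α else 0)))
    (h3 : ∀ i j : Fin 2, Tendsto (fun h : ℝ => D h (Fin.natAdd 2 i) (Fin.castAdd 2 j) /
      (h : ℂ)) (𝓝[>] 0) (𝓝 (if i = j then β i else 0))) :
    Tendsto (fun h : ℝ => (D h).det / (h : ℂ) ^ 6) (𝓝[>] 0) (𝓝 (α ^ 2 * β 0 * β 1)) ∧
    Tendsto (fun h : ℝ => (D h * D h).trace / (h : ℂ) ^ 3) (𝓝[>] 0)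
      (𝓝 (2 * α * (β 0 + β 1))) ∧
    Tendsto (fun h : ℝ => (D h).trace) (𝓝[>] 0) (𝓝 0) := by
  have pos : ∀ᶠ h : ℝ in 𝓝[>] 0, 0 < h := self_mem_nhdsWithin
  have hE := tendsto_scE h1 h2 h3
  have hE' : Tendsto (fun h => scE D h) (𝓝[>] 0) (𝓝 (scE0 α β)) :=
    tendsto_pi_nhds.2 fun i => tendsto_pi_nhds.2 fun j => hE i j
  refine ⟨?_, ?_, ?_⟩
  · rw [← det_scE0]
    have hc : Continuous fun M : Mat => M.det := Continuous.matrix_det continuous_id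
    have := (hc.tendsto (scE0 α β)).comp hE'
    refine this.congr' ?_
    filter_upwards [pos] with h hh
    exact det_scE D h hh
  · rw [← trace_scE0]
    have hc : Continuous fun M : Mat => (M * M).trace :=
      Continuous.matrix_trace (continuous_id.mul continuous_id)
    have := (hc.tendsto (scE0 α β)).comp hE'
    refine this.congr' ?_
    filter_upwards [pos] with h hh
    exact trace_scE D h hh
  · have hb : ∀ h : ℝ, 0 < h → h ≤ 1 → ‖(D h).trace‖ ≤ (4 * C) * h ^ (1 / 4 : ℝ) := by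
      intro h hh hh1
      have p1 : h ^ (7 / 4 : ℝ) ≤ h ^ (1 / 4 : ℝ) :=
        Real.rpow_le_rpow_of_exponent_ge hh hh1 (by norm_num)
      have hC : 0 ≤ C := by
        have := (norm_nonneg _).trans (h1 h hh hh1 0 0).1
        by_contra hneg
        push Not at hneg
        have h7 : 0 < h ^ (7 / 4 : ℝ) := Real.rpow_pos_of_pos hh _
        nlinarith
      have b0 := (h1 h hh hh1 0 0).1
      have b1 := (h1 h hh hh1 1 1).1
      have b2 := (h1 h hh hh1 0 0).2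
      have b3 := (h1 h hh hh1 1 1).2
      have e : (D h).trace = D h (Fin.castAdd 2 0) (Fin.castAdd 2 0) +
          D h (Fin.castAdd 2 1) (Fin.castAdd 2 1) + D h (Fin.natAdd 2 (0 : Fin 2))
          (Fin.natAdd 2 (0 : Fin 2)) +
          D h (Fin.natAdd 2 (1 : Fin 2)) (Fin.natAdd 2 (1 : Fin 2)) := by
        rw [Matrix.trace, Fin.sum_univ_four]; rfl
      rw [e]
      refine (norm_add_le _ _).trans ?_
      have c1 := norm_add_le (D h (Fin.castAdd 2 0) (Fin.castAdd 2 0) +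
          D h (Fin.castAdd 2 1) (Fin.castAdd 2 1)) (D h (Fin.natAdd 2 (0 : Fin 2))
          (Fin.natAdd 2 (0 : Fin 2)))
      have c2 := norm_add_le (D h (Fin.castAdd 2 0) (Fin.castAdd 2 0))
          (D h (Fin.castAdd 2 1) (Fin.castAdd 2 1))
      have p2 := mul_le_mul_of_nonneg_left p1 hC
      linarith
    exact tendsto_small hb

end Pool.Agent.MP_5027f4_ell
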