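import Pool.Agent.Lib_MP_5027f4_ell.Defs

open Complex Set Filter Topology MeasureTheory
open scoped Real Matrix ComplexConjugate

namespace Pool.Agent.MP_5027f4_ell

/-- Derivative of a determinant (Jacobi), in terms of row replacements. -/
theorem hasDerivAt_det {X : ℝ → Mat} {X' : Mat} {θ : ℝ}
    (h : ∀ i j, HasDerivAt (fun t => X t i j) (X' i j) θ) :
    HasDerivAt (fun t => (X t).det) (∑ i, ((X θ).updateRow i (X' i)).det) θ := by
  have h1 : (fun t => (X t).det) = fun t => ∑ σ : Equiv.Perm (Fin 4),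
      ((Equiv.Perm.sign σ : ℤ) : ℂ) * ∏ i, X t i (σ i) := by
    funext t
    rw [← Matrix.det_transpose, Matrix.det_apply']
    rfl
  rw [h1]
  have h2 : HasDerivAt (fun t => ∑ σ : Equiv.Perm (Fin 4),
      ((Equiv.Perm.sign σ : ℤ) : ℂ) * ∏ i, X t i (σ i))
      (∑ σ : Equiv.Perm (Fin 4), ((Equiv.Perm.sign σ : ℤ) : ℂ) *
        ∑ i, (∏ j ∈ Finset.univ.erase i, X θ j (σ j)) • X' i (σ i)) θ := by
    apply HasDerivAt.fun_sum
    intro σ _
    apply HasDerivAt.const_mul
    exact HasDerivAt.fun_finsetProd fun i _ => h i (σ i)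
  convert h2 using 1
  simp_rw [Finset.mul_sum]
  rw [Finset.sum_comm]
  refine Finset.sum_congr rfl fun i _ => ?_
  rw [← Matrix.det_transpose, Matrix.det_apply']
  refine Finset.sum_congr rfl fun σ _ => ?_
  congr 1
  rw [← Finset.mul_prod_erase Finset.univ _ (Finset.mem_univ i), smul_eq_mul, mul_comm]
  congr 1
  · refine Finset.prod_congr rfl fun j hj => ?_
    rw [Matrix.transpose_apply, Matrix.updateRow_ne (Finset.ne_of_mem_erase hj)]
  · rw [Matrix.transpose_apply, Matrix.updateRow_self]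

/-- A function with zero derivative is constant. -/
theorem const_of_hasDerivAt_zero_c {f : ℝ → ℂ} (h : ∀ θ, HasDerivAt f 0 θ) (θ : ℝ) : f θ = f 0 :=
  is_const_of_deriv_eq_zero (fun t => (h t).differentiableAt) (fun t => (h t).deriv) θ 0

theorem det_fund {A X : ℝ → Mat} (hX : IsFund A X) (htr : ∀ θ, (A θ).trace = 0) (θ : ℝ) :
    (X θ).det = 1 := by
  have key : ∀ t, HasDerivAt (fun t => (X t).det) 0 t := by
    intro t
    have h1 := hasDerivAt_det (X := X) (X' := A t * X t) (fun i j => hX.2 t i j)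
    convert h1 using 1
    have h2 : ∀ i, ((X t).updateRow i ((A t * X t) i)).det = A t i i * (X t).det := by
      intro i
      have h3 : (A t * X t) i = ∑ k, (A t i k) • (X t) k := by
        funext j
        rw [Matrix.mul_apply, Finset.sum_apply]
        rfl
      rw [h3, Matrix.det_updateRow_sum, smul_eq_mul]
    rw [Finset.sum_congr rfl fun i _ => h2 i, ← Finset.sum_mul]
    have h4 : ∑ i, A t i i = 0 := htr t
    rw [h4, zero_mul]
  rw [const_of_hasDerivAt_zero_c key θ, hX.1, Matrix.det_one]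

/-- Product rule for matrices, entrywise. -/
theorem hasDerivAt_matrix_mul {F G : ℝ → Mat} {F' G' : Mat} {θ : ℝ}
    (hF : ∀ i j, HasDerivAt (fun t => F t i j) (F' i j) θ)
    (hG : ∀ i j, HasDerivAt (fun t => G t i j) (G' i j) θ) (i j : Fin 4) :
    HasDerivAt (fun t => (F t * G t) i j) ((F' * G θ + F θ * G') i j) θ := by
  have h1 : (fun t => (F t * G t) i j) = fun t => ∑ k, F t i k * G t k j := by
    funext t
    rw [Matrix.mul_apply]
  rw [h1, Matrix.add_apply, Matrix.mul_apply, Matrix.mul_apply, ← Finset.sum_add_distrib]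
  exact HasDerivAt.fun_sum fun k _ => (hF i k).mul (hG k j)

theorem Bs_symp (s : ℝ) (e : ℂ) (θ : ℝ) : (Bs s e θ)ᵀ * Wm + Wm * Bs s e θ = 0 := by
  ext i j
  fin_cases i <;> fin_cases j <;>
    simp [Bs, Wm, Matrix.mul_apply, Fin.sum_univ_four]

theorem symp_fund {s : ℝ} {e : ℂ} {X : ℝ → Mat} (hX : IsFund (Bs s e) X) (θ : ℝ) :
    (X θ)ᵀ * Wm * X θ = Wm := by
  ext i j
  have key : ∀ t, HasDerivAt (fun t => ((X t)ᵀ * Wm * X t) i j) 0 t := by
    intro t
    have h1 : ∀ a b, HasDerivAt (fun t => ((X t)ᵀ * Wm) a b)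
        (((Bs s e t * X t)ᵀ * Wm) a b) t := by
      intro a b
      have h2 := hasDerivAt_matrix_mul (F := fun t => (X t)ᵀ) (G := fun _ => Wm)
        (F' := (Bs s e t * X t)ᵀ) (G' := 0) (θ := t)
        (fun a b => hX.2 t b a) (fun a b => hasDerivAt_const t _) a b
      rw [mul_zero, add_zero] at h2
      exact h2
    have h3 := hasDerivAt_matrix_mul (F := fun t => (X t)ᵀ * Wm) (G := X)
      (F' := (Bs s e t * X t)ᵀ * Wm) (G' := Bs s e t * X t) h1 (fun a b => hX.2 t a b) i j
    convert h3 using 1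
    have h4 : (Bs s e t * X t)ᵀ * Wm * X t + (X t)ᵀ * Wm * (Bs s e t * X t)
        = (X t)ᵀ * ((Bs s e t)ᵀ * Wm + Wm * Bs s e t) * X t := by
      rw [Matrix.transpose_mul]
      simp only [Matrix.mul_add, Matrix.add_mul, Matrix.mul_assoc]
    rw [h4, Bs_symp]
    simp
  have h5 := const_of_hasDerivAt_zero_c key θ
  rw [h5, hX.1]
  simp

end Pool.Agent.MP_5027f4_ell
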