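import Pool.Agent.Lib_MP_5027f4_ell.Defs

/-!
# Four by four symplectic matrices: the characteristic polynomial is palindromic
-/

open Complex Set Filter Topology MeasureTheory Polynomial
open scoped Real Matrix ComplexConjugate

namespace Pool.Agent.MP_5027f4_ell

/-- The inverse of `Wm`. -/
def Wi : Mat := !![0, 0, -1, 0; 0, 0, 0, -1; 1, 0, 0, -2; 0, 1, 2, 0]

theorem Wi_mul_Wm : Wi * Wm = 1 := by
  ext i j
  fin_cases i <;> fin_cases j <;>
    simp [Wi, Wm, Matrix.mul_apply, Fin.sum_univ_four]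

theorem Wm_mul_Wi : Wm * Wi = 1 := mul_eq_one_comm.mp Wi_mul_Wm

theorem charpolyRev_eq_of_symp (M : Mat) (h : Mᵀ * Wm * M = Wm) (hdet : M.det = 1) :
    M.charpolyRev = M.charpoly := by
  have h1 : (Wi * Mᵀ * Wm) * M = 1 := by
    calc (Wi * Mᵀ * Wm) * M = Wi * (Mᵀ * Wm * M) := by simp only [Matrix.mul_assoc]
      _ = 1 := by rw [h, Wi_mul_Wm]
  have hu : IsUnit M := by
    rw [Matrix.isUnit_iff_isUnit_det, hdet]
    exact isUnit_one
  have h2 : M⁻¹ = Wi * Mᵀ * Wm := Matrix.inv_eq_left_inv h1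
  have h3 := Matrix.charpoly_inv M hu
  have h4 : (Wi * Mᵀ * Wm).charpoly = M.charpoly := by
    obtain ⟨U, hU, hU'⟩ : ∃ U : (Matrix (Fin 4) (Fin 4) ℂ)ˣ, (U : Matrix (Fin 4) (Fin 4) ℂ) = Wi ∧
        ((U⁻¹ : (Matrix (Fin 4) (Fin 4) ℂ)ˣ) : Matrix (Fin 4) (Fin 4) ℂ) = Wm :=
      ⟨⟨Wi, Wm, Wi_mul_Wm, Wm_mul_Wi⟩, rfl, rfl⟩
    rw [← hU, ← hU', Matrix.coe_units_inv, Matrix.charpoly_units_conj, Matrix.charpoly_transpose]
  rw [h2, h4, hdet, Ring.inverse_one, Fintype.card_fin, map_one, mul_one] at h3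
  rw [h3]
  ring

theorem charpoly_of_symp (M : Mat) (h : Mᵀ * Wm * M = Wm) (hdet : M.det = 1) :
    M.charpoly = Polynomial.X ^ 4 - Polynomial.C M.trace * Polynomial.X ^ 3 +
      Polynomial.C ((M - 1).det + 2 * M.trace - 2) * Polynomial.X ^ 2 -
      Polynomial.C M.trace * Polynomial.X + 1 := by
  have hd : M.charpoly.natDegree = 4 := by
    rw [Matrix.charpoly_natDegree_eq_dim]
    rfl
  have c4 : M.charpoly.coeff 4 = 1 := by
    have := M.charpoly_monic
    rw [Polynomial.Monic, Polynomial.leadingCoeff, hd] at this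
    exact this
  have c3 : M.charpoly.coeff 3 = -M.trace := by
    have := Matrix.trace_eq_neg_charpoly_coeff M
    rw [this]
    simp
  have c0 : M.charpoly.coeff 0 = 1 := by
    have := Matrix.det_eq_sign_charpoly_coeff M
    rw [hdet] at this
    simp only [Fintype.card_fin] at this
    norm_num at this
    exact this.symm
  have c1 : M.charpoly.coeff 1 = -M.trace := by
    rw [← charpolyRev_eq_of_symp M h hdet]
    exact Matrix.coeff_charpolyRev_eq_neg_trace M
  have hsum := M.charpoly.as_sum_range_C_mul_X_pow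
  rw [hd] at hsum
  simp only [Finset.sum_range_succ, Finset.sum_range_zero, c4, c3, c0, c1] at hsum
  have hev : M.charpoly.eval 1 = (M - 1).det := by
    rw [Matrix.eval_charpoly]
    have : Matrix.scalar (Fin 4) (1 : ℂ) - M = -(M - 1) := by
      rw [map_one, neg_sub]
    rw [this, Matrix.det_neg, Fintype.card_fin]
    ring
  have c2 : M.charpoly.coeff 2 = (M - 1).det + 2 * M.trace - 2 := by
    rw [← hev]
    conv_rhs => rw [hsum]
    simp only [Polynomial.eval_add, Polynomial.eval_mul, Polynomial.eval_C, Polynomial.eval_pow,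
      Polynomial.eval_X, Polynomial.eval_zero]
    ring
  rw [c2] at hsum
  rw [hsum]
  simp only [map_neg, map_one]
  ring

theorem det_add_det (M : Mat) :
    (M + 1).det + (M - 1).det = 2 + M.trace ^ 2 - (M * M).trace + 2 * M.det := by
  simp only [Matrix.det_succ_row_zero, Fin.sum_univ_succ, Matrix.trace, Matrix.mul_apply,
    Matrix.submatrix_apply, Matrix.add_apply, Matrix.sub_apply, Matrix.one_apply,
    Matrix.diag_apply, Matrix.det_fin_zero]
  simp [Fin.succAbove, Fin.lt_def, Fin.ext_iff]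
  ring

theorem trace_sq_of_symp (M : Mat) (h : Mᵀ * Wm * M = Wm) (hdet : M.det = 1) :
    ((M - 1) * (M - 1)).trace =
      2 * (M.trace - 4) + (M.trace - 4) ^ 2 - 2 * (M - 1).det := by
  have h1 := charpoly_of_symp M h hdet
  have h2 : M.charpoly.eval (-1) = (M + 1).det := by
    rw [Matrix.eval_charpoly]
    have : Matrix.scalar (Fin 4) (-1 : ℂ) - M = -(M + 1) := by
      rw [map_neg, map_one]
      abel
    rw [this, Matrix.det_neg, Fintype.card_fin]
    ring
  rw [h1] at h2
  simp only [Polynomial.eval_add, Polynomial.eval_sub, Polynomial.eval_mul, Polynomial.eval_C,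
    Polynomial.eval_pow, Polynomial.eval_X, Polynomial.eval_one] at h2
  have h3 := det_add_det M
  rw [hdet] at h3
  have h4 : ((M - 1) * (M - 1)).trace = (M * M).trace - 2 * M.trace + 4 := by
    have : (M - 1) * (M - 1) = M * M - M - M + 1 := by noncomm_ring
    rw [this]
    simp only [Matrix.trace_add, Matrix.trace_sub, Matrix.trace_one, Fintype.card_fin]
    push_cast
    ring
  rw [h4]
  linear_combination h2 + h3

end Pool.Agent.MP_5027f4_ell
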