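import Pool.Agent.Lib_MP_5027f4_ell.AsyA
import Pool.Agent.Lib_MP_5027f4_ell.AsyB
import Pool.Agent.Lib_MP_5027f4_ell.AsyC
import Pool.Agent.Lib_MP_5027f4_ell.AsyD
import Pool.Agent.Lib_MP_5027f4_ell.AsyE
import Pool.Agent.Lib_MP_5027f4_ell.OdeC
import Pool.Agent.Lib_MP_5027f4_ell.OdeD
import Pool.Agent.Lib_MP_5027f4_ell.AsyFa

/-!
# Asymptotics of the trace and the determinant of the monodromy at `e = i / h`
-/

open Complex Set Filter Topology MeasureTheory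
open scoped Real Matrix ComplexConjugate

namespace Pool.Agent.MP_5027f4_ell

theorem asyF_rho_continuous {h : ℝ} (hh : 0 < h) : Continuous fun θ => rho (I / (h : ℂ)) θ := by
  unfold rho
  refine Continuous.inv₀ (by fun_prop) fun θ h0 => ?_
  have h1 := congrArg Complex.re h0
  have hh' : (h : ℂ) ≠ 0 := by exact_mod_cast hh.ne'
  have : (I / (h : ℂ) * (Real.cos θ : ℂ)).re = 0 := by
    have : I / (h : ℂ) * (Real.cos θ : ℂ) = ((Real.cos θ / h : ℝ) : ℂ) * I := by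
      push_cast; ring
    rw [this, re_ofReal_mul]; simp
  rw [add_re, this] at h1
  simp at h1

theorem asyF_Ar_continuous (s : ℝ) (i j : Fin 4) : Continuous fun θ => Ar s θ i j := by
  unfold Ar
  fin_cases i <;> fin_cases j <;>
    · simp only [Matrix.of_apply, Matrix.cons_val', Matrix.cons_val_zero, Matrix.cons_val_one,
        Matrix.cons_val, Fin.zero_eta, Fin.mk_one, Fin.isValue, Fin.reduceFinMk]
      fun_prop

theorem asyF_Ah_continuous (s : ℝ) {h : ℝ} (hh : 0 < h) (i j : Fin 4) :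
    Continuous fun θ => Ah s h θ i j := by
  have : (fun θ => Ah s h θ i j) = fun θ => rho (I / (h : ℂ)) θ * Ar s θ i j := by
    funext θ; simp [Ah]
  rw [this]
  exact (asyF_rho_continuous hh).mul (asyF_Ar_continuous s i j)

theorem asyF_Ar_bound (s : ℝ) :
    ∃ C > 0, ∀ θ ∈ Icc (0 : ℝ) (2 * π), ∑ k, ∑ l, ‖Ar s θ k l‖ ≤ C := by
  have hc : Continuous fun θ => ∑ k, ∑ l, ‖Ar s θ k l‖ :=
    continuous_finsetSum _ fun k _ => continuous_finsetSum _ fun l _ =>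
      (asyF_Ar_continuous s k l).norm
  obtain ⟨C, hC⟩ := (isCompact_Icc (a := (0 : ℝ)) (b := 2 * π)).exists_bound_of_continuousOn
    hc.continuousOn
  refine ⟨max C 1, by positivity, fun θ hθ => ?_⟩
  exact ((le_abs_self _).trans (hC θ hθ)).trans (le_max_left _ _)

/-- The integral of the norm of the coefficient matrix is small. -/
theorem asyF_K_bound (s : ℝ) : ∃ C > 0, ∀ h : ℝ, 0 < h → h ≤ 1 →
    ∫ θ in (0 : ℝ)..(2 * π), ∑ k, ∑ l, ‖Ah s h θ k l‖ ≤ C * h ^ (3 / 4 : ℝ) := by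
  obtain ⟨C1, hC1, hA⟩ := asyF_Ar_bound s
  obtain ⟨C2, hC2, hr⟩ := int_norm_rho
  refine ⟨C1 * C2, by positivity, fun h hh hh1 => ?_⟩
  have hpi : (0 : ℝ) ≤ 2 * π := by positivity
  have hcont : Continuous fun θ => ∑ k, ∑ l, ‖Ah s h θ k l‖ :=
    continuous_finsetSum _ fun k _ => continuous_finsetSum _ fun l _ =>
      (asyF_Ah_continuous s hh k l).norm
  have hcont2 : Continuous fun θ => C1 * ‖rho (I / (h : ℂ)) θ‖ :=
    continuous_const.mul (asyF_rho_continuous hh).norm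
  calc ∫ θ in (0 : ℝ)..(2 * π), ∑ k, ∑ l, ‖Ah s h θ k l‖
      ≤ ∫ θ in (0 : ℝ)..(2 * π), C1 * ‖rho (I / (h : ℂ)) θ‖ := by
        refine intervalIntegral.integral_mono_on hpi (hcont.intervalIntegrable _ _)
          (hcont2.intervalIntegrable _ _) fun θ hθ => ?_
        have : ∑ k, ∑ l, ‖Ah s h θ k l‖ =
            ‖rho (I / (h : ℂ)) θ‖ * ∑ k, ∑ l, ‖Ar s θ k l‖ := by
          rw [Finset.mul_sum]
          refine Finset.sum_congr rfl fun k _ => ?_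
          rw [Finset.mul_sum]
          refine Finset.sum_congr rfl fun l _ => ?_
          rw [← norm_mul]; simp [Ah]
        rw [this, mul_comm C1]
        exact mul_le_mul_of_nonneg_left (hA θ hθ) (norm_nonneg _)
    _ = C1 * ∫ θ in (0 : ℝ)..(2 * π), ‖rho (I / (h : ℂ)) θ‖ := by
        rw [intervalIntegral.integral_const_mul]
    _ ≤ C1 * (C2 * h ^ (3 / 4 : ℝ)) := mul_le_mul_of_nonneg_left (hr h hh hh1) hC1.le
    _ = C1 * C2 * h ^ (3 / 4 : ℝ) := by ring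

/-- The remainder of the second order expansion. -/
theorem asyF_remainder (s : ℝ) : ∃ C > 0, ∀ h : ℝ, 0 < h → h ≤ 1 → ∀ Ξ : ℝ → Mat,
    IsFund (Ah s h) Ξ → ∀ i j,
    ‖(Ξ (2 * π) - 1) i j - (∫ θ in (0 : ℝ)..(2 * π), Ah s h θ i j) - S2 s h i j‖ ≤
      C * h ^ (9 / 4 : ℝ) := by
  obtain ⟨C, hC, hK⟩ := asyF_K_bound s
  refine ⟨C ^ 3 * Real.exp C, by positivity, fun h hh hh1 Ξ hΞ i j => ?_⟩
  have hd := dyson_bound (Ah s h) Ξ (fun i j => asyF_Ah_continuous s hh i j) hΞ i j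
  rw [Matrix.sub_apply, S2]
  refine hd.trans ?_
  set K := ∫ θ in (0 : ℝ)..(2 * π), ∑ k, ∑ l, ‖Ah s h θ k l‖ with hKdef
  have hK0 : 0 ≤ K := by
    refine intervalIntegral.integral_nonneg (by positivity) fun θ _ => ?_
    exact Finset.sum_nonneg fun k _ => Finset.sum_nonneg fun l _ => norm_nonneg _
  have hp0 : (0 : ℝ) ≤ h ^ (3 / 4 : ℝ) := Real.rpow_nonneg hh.le _
  have hp1 : h ^ (3 / 4 : ℝ) ≤ 1 := Real.rpow_le_one hh.le hh1 (by norm_num)
  have hKC : K ≤ C := (hK h hh hh1).trans (by nlinarith)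
  have h3 : K ^ 3 ≤ C ^ 3 * h ^ (9 / 4 : ℝ) := by
    have e : (h ^ (3 / 4 : ℝ)) ^ 3 = h ^ (9 / 4 : ℝ) := by
      rw [← Real.rpow_natCast, ← Real.rpow_mul hh.le]; norm_num
    rw [← e, ← mul_pow]
    exact pow_le_pow_left₀ hK0 (hK h hh hh1) 3
  calc K ^ 3 * Real.exp K ≤ (C ^ 3 * h ^ (9 / 4 : ℝ)) * Real.exp C :=
        mul_le_mul h3 (Real.exp_le_exp.2 hKC) (Real.exp_pos _).le (by positivity)
    _ = C ^ 3 * Real.exp C * h ^ (9 / 4 : ℝ) := by ring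

theorem asyF_T : T0' * T0 = 1 := by
  ext i j
  fin_cases i <;> fin_cases j <;> simp [T0, T0', Matrix.mul_apply, Fin.sum_univ_succ]

theorem asyF_T' : T0 * T0' = 1 := mul_eq_one_comm.1 asyF_T

theorem asyF_div_small {F : ℝ → ℂ} {C : ℝ} {p : ℝ} (n : ℕ) (hp : n + 1 / 4 ≤ p)
    (hC : 0 ≤ C)
    (hF : ∀ h : ℝ, 0 < h → h ≤ 1 → ‖F h‖ ≤ C * h ^ p) :
    Tendsto (fun h : ℝ => F h / (h : ℂ) ^ n) (𝓝[>] 0) (𝓝 0) := by
  refine tendsto_small (C := C) fun h hh hh1 => ?_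
  rw [norm_div, norm_pow, norm_real, Real.norm_of_nonneg hh.le]
  have hn : (0 : ℝ) < h ^ n := pow_pos hh n
  rw [div_le_iff₀ hn]
  refine (hF h hh hh1).trans ?_
  have e : C * h ^ (1 / 4 : ℝ) * h ^ n = C * h ^ (n + 1 / 4 : ℝ) := by
    rw [Real.rpow_add hh, Real.rpow_natCast]; ring
  rw [e]
  exact mul_le_mul_of_nonneg_left (Real.rpow_le_rpow_of_exponent_ge hh hh1 hp) hC

theorem asym (s : ℝ) (X : ℝ → ℝ → Mat)
    (hX : ∀ h : ℝ, 0 < h → IsFund (Bs s (I / (h : ℂ))) (X h)) :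
    Tendsto (fun h : ℝ => ((X h (2 * π)).trace - 4) / (h : ℂ) ^ 3) (𝓝[>] 0)
      (𝓝 ((9 * π ^ 2 * (1 - s ^ 2) : ℝ) : ℂ)) ∧
    Tendsto (fun h : ℝ => (X h (2 * π) - 1).det / (h : ℂ) ^ 6) (𝓝[>] 0)
      (𝓝 ((81 / 4 * π ^ 4 * (1 - s ^ 2) ^ 3 : ℝ) : ℂ)) := by
  have pos : ∀ᶠ h : ℝ in 𝓝[>] 0, 0 < h := self_mem_nhdsWithin
  have hint : ∀ h : ℝ, ∃ Ξ, 0 < h → IsFund (Ah s h) Ξ ∧ X h (2 * π) = T0 * Ξ (2 * π) * T0' := by
    intro h
    by_cases hh : 0 < h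
    · obtain ⟨Ξ, hΞ⟩ := interaction s hh (X h) (hX h hh)
      exact ⟨Ξ, fun _ => hΞ⟩
    · exact ⟨fun _ => 1, fun h' => absurd h' hh⟩
  choose Ξ hΞ using hint
  obtain ⟨C0, hC0, hrem⟩ := asyF_remainder s
  set D : ℝ → Mat := fun h => Ξ h (2 * π) - 1 with hD
  -- the splitting
  set R : ℝ → Fin 4 → Fin 4 → ℂ := fun h i j =>
    D h i j - (∫ θ in (0 : ℝ)..(2 * π), Ah s h θ i j) - S2 s h i j with hR
  have hsplit : ∀ h i j, D h i j =
      (∫ θ in (0 : ℝ)..(2 * π), Ah s h θ i j) + S2 s h i j + R h i j := by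
    intro h i j; rw [hR]; ring
  have hRb : ∀ h : ℝ, 0 < h → h ≤ 1 → ∀ i j, ‖R h i j‖ ≤ C0 * h ^ (9 / 4 : ℝ) := by
    intro h hh hh1 i j
    exact hrem h hh hh1 (Ξ h) (hΞ h hh).1 i j
  obtain ⟨C1, hC1, hf⟩ := first_diag s
  obtain ⟨C2, hC2, hs2⟩ := second_other s
  have hle : ∀ h : ℝ, 0 < h → h ≤ 1 → h ^ (9 / 4 : ℝ) ≤ h ^ (7 / 4 : ℝ) := fun h hh hh1 =>
    Real.rpow_le_rpow_of_exponent_ge hh hh1 (by norm_num)
  have h1 : ∀ h : ℝ, 0 < h → h ≤ 1 → ∀ i j : Fin 2,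
      ‖D h (Fin.castAdd 2 i) (Fin.castAdd 2 j)‖ ≤ (C1 + C2 + C0) * h ^ (7 / 4 : ℝ) ∧
      ‖D h (Fin.natAdd 2 i) (Fin.natAdd 2 j)‖ ≤ (C1 + C2 + C0) * h ^ (7 / 4 : ℝ) := by
    intro h hh hh1 i j
    have q := mul_le_mul_of_nonneg_left (hle h hh hh1) hC0.le
    constructor
    · rw [hsplit]
      refine (norm_add₃_le).trans ?_
      have a1 := (hf h hh hh1 i j).1
      have a2 := (hs2 h hh hh1 i j).1
      have a3 := hRb h hh hh1 (Fin.castAdd 2 i) (Fin.castAdd 2 j)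
      have e : (C1 + C2 + C0) * h ^ (7 / 4 : ℝ) =
        C1 * h ^ (7 / 4 : ℝ) + C2 * h ^ (7 / 4 : ℝ) + C0 * h ^ (7 / 4 : ℝ) := by ring
      rw [e]
      linarith
    · rw [hsplit]
      refine (norm_add₃_le).trans ?_
      have a1 := (hf h hh hh1 i j).2
      have a2 := (hs2 h hh hh1 i j).2.1
      have a3 := hRb h hh hh1 (Fin.natAdd 2 i) (Fin.natAdd 2 j)
      have e : (C1 + C2 + C0) * h ^ (7 / 4 : ℝ) =
        C1 * h ^ (7 / 4 : ℝ) + C2 * h ^ (7 / 4 : ℝ) + C0 * h ^ (7 / 4 : ℝ) := by ring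
      rw [e]
      linarith
  set α : ℂ := 3 * π + ((-(9 / 2) * π + 3 / 2 * π * s ^ 2 : ℝ) : ℂ) with hα
  set β : Fin 2 → ℂ := fun i => if i = 0 then -2 * π * (3 / 2 * (1 + s) : ℝ) else
    -2 * π * (3 / 2 * (1 - s) : ℝ) with hβ
  have h2 : ∀ i j : Fin 2, Tendsto (fun h : ℝ => D h (Fin.castAdd 2 i) (Fin.natAdd 2 j) /
      (h : ℂ) ^ 2) (𝓝[>] 0) (𝓝 (if i = j then α else 0)) := by
    intro i j
    have t1 := first_wv s i j
    have t2 := second_wv s i j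
    have t3 : Tendsto (fun h : ℝ => R h (Fin.castAdd 2 i) (Fin.natAdd 2 j) / (h : ℂ) ^ 2)
        (𝓝[>] 0) (𝓝 0) :=
      asyF_div_small (C := C0) (p := 9 / 4) 2 (by norm_num) hC0.le fun h hh hh1 =>
        hRb h hh hh1 _ _
    have t := (t1.add t2).add t3
    have e : ((if i = j then 3 * (π : ℂ) else 0) +
        (if i = j then ((-(9 / 2) * π + 3 / 2 * π * s ^ 2 : ℝ) : ℂ) else 0)) + 0 =
        if i = j then α else 0 := by
      split_ifs <;> simp [hα]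
    rw [e] at t
    refine t.congr fun h => ?_
    rw [hsplit h (Fin.castAdd 2 i) (Fin.natAdd 2 j)]; ring
  have h3 : ∀ i j : Fin 2, Tendsto (fun h : ℝ => D h (Fin.natAdd 2 i) (Fin.castAdd 2 j) /
      (h : ℂ)) (𝓝[>] 0) (𝓝 (if i = j then β i else 0)) := by
    intro i j
    have t1 := first_vw s i j
    have t2 : Tendsto (fun h : ℝ => S2 s h (Fin.natAdd 2 i) (Fin.castAdd 2 j) / (h : ℂ) ^ 1)
        (𝓝[>] 0) (𝓝 0) :=
      asyF_div_small (C := C2) (p := 3 / 2) 1 (by norm_num) hC2.le fun h hh hh1 =>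
        (hs2 h hh hh1 i j).2.2
    have t3 : Tendsto (fun h : ℝ => R h (Fin.natAdd 2 i) (Fin.castAdd 2 j) / (h : ℂ) ^ 1)
        (𝓝[>] 0) (𝓝 0) :=
      asyF_div_small (C := C0) (p := 9 / 4) 1 (by norm_num) hC0.le fun h hh hh1 =>
        hRb h hh hh1 _ _
    have t := (t1.add t2).add t3
    rw [add_zero, add_zero] at t
    have e : (if i = j then (if i = 0 then -2 * (π : ℂ) * (3 / 2 * (1 + s) : ℝ) else
        -2 * (π : ℂ) * (3 / 2 * (1 - s) : ℝ)) else 0) = if i = j then β i else 0 := by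
      simp only [hβ]
    rw [e] at t
    refine t.congr fun h => ?_
    rw [hsplit h (Fin.natAdd 2 i) (Fin.castAdd 2 j), pow_one]; ring
  obtain ⟨ht1, ht2, ht3⟩ := block_asym h1 h2 h3
  have hMD : ∀ h : ℝ, 0 < h → X h (2 * π) - 1 = T0 * D h * T0' := by
    intro h hh
    rw [(hΞ h hh).2, hD]
    simp only
    rw [Matrix.mul_sub, Matrix.sub_mul, Matrix.mul_one, asyF_T']
  have hdet : ∀ h : ℝ, 0 < h → (X h (2 * π) - 1).det = (D h).det := by
    intro h hh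
    rw [hMD h hh, Matrix.det_mul, Matrix.det_mul]
    have := congrArg Matrix.det asyF_T'
    rw [Matrix.det_mul, Matrix.det_one] at this
    calc T0.det * (D h).det * T0'.det = (T0.det * T0'.det) * (D h).det := by ring
      _ = (D h).det := by rw [this, one_mul]
  have htr1 : ∀ h : ℝ, 0 < h → (X h (2 * π)).trace - 4 = (D h).trace := by
    intro h hh
    have e1 : (X h (2 * π) - 1).trace = (X h (2 * π)).trace - 4 := by
      rw [Matrix.trace_sub, Matrix.trace_one]; simp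
    rw [← e1, hMD h hh, Matrix.trace_mul_comm, ← Matrix.mul_assoc, asyF_T, Matrix.one_mul]
  have htr2 : ∀ h : ℝ, 0 < h → ((X h (2 * π) - 1) * (X h (2 * π) - 1)).trace =
      (D h * D h).trace := by
    intro h hh
    rw [hMD h hh]
    have : T0 * D h * T0' * (T0 * D h * T0') = T0 * (D h * D h) * T0' := by
      calc T0 * D h * T0' * (T0 * D h * T0') = T0 * D h * (T0' * T0) * D h * T0' := by
            simp only [Matrix.mul_assoc]
        _ = T0 * (D h * D h) * T0' := by rw [asyF_T]; simp only [Matrix.mul_assoc, Matrix.one_mul]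
    rw [this, Matrix.trace_mul_comm, ← Matrix.mul_assoc, asyF_T, Matrix.one_mul]
  have hαv : α = ((-(3 / 2) * π * (1 - s ^ 2) : ℝ) : ℂ) := by
    rw [hα]; push_cast; ring
  have hβ0 : β 0 = ((-3 * π * (1 + s) : ℝ) : ℂ) := by
    simp only [hβ, if_true]; push_cast; ring
  have hβ1 : β 1 = ((-3 * π * (1 - s) : ℝ) : ℂ) := by
    simp only [hβ, one_ne_zero, if_false]; push_cast; ring
  have hdetlim : Tendsto (fun h : ℝ => (X h (2 * π) - 1).det / (h : ℂ) ^ 6) (𝓝[>] 0)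
      (𝓝 ((81 / 4 * π ^ 4 * (1 - s ^ 2) ^ 3 : ℝ) : ℂ)) := by
    have e : α ^ 2 * β 0 * β 1 = ((81 / 4 * π ^ 4 * (1 - s ^ 2) ^ 3 : ℝ) : ℂ) := by
      rw [hαv, hβ0, hβ1]; push_cast; ring
    rw [← e]
    refine ht1.congr' ?_
    filter_upwards [pos] with h hh
    rw [hdet h hh]
  refine ⟨?_, hdetlim⟩
  -- the trace
  have hS0 : Tendsto (fun h : ℝ => (X h (2 * π)).trace - 4) (𝓝[>] 0) (𝓝 0) := by
    refine ht3.congr' ?_
    filter_upwards [pos] with h hh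
    rw [htr1 h hh]
  have hcub : Tendsto (fun h : ℝ => (h : ℂ) ^ 3) (𝓝[>] 0) (𝓝 0) := by
    have : Tendsto (fun h : ℝ => (h : ℂ) ^ 3) (𝓝 0) (𝓝 (((0 : ℝ) : ℂ) ^ 3)) :=
      ((Complex.continuous_ofReal.pow 3).tendsto 0)
    simp only [ofReal_zero, ne_eq, OfNat.ofNat_ne_zero, not_false_eq_true, zero_pow] at this
    exact this.mono_left nhdsWithin_le_nhds
  have hdet3 : Tendsto (fun h : ℝ => (X h (2 * π) - 1).det / (h : ℂ) ^ 3) (𝓝[>] 0) (𝓝 0) := by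
    have t := hdetlim.mul hcub
    rw [mul_zero] at t
    refine t.congr' ?_
    filter_upwards [pos] with h hh
    have : (h : ℂ) ≠ 0 := by exact_mod_cast hh.ne'
    field_simp
  have htr3 : Tendsto (fun h : ℝ => ((X h (2 * π) - 1) * (X h (2 * π) - 1)).trace / (h : ℂ) ^ 3)
      (𝓝[>] 0) (𝓝 ((18 * π ^ 2 * (1 - s ^ 2) : ℝ) : ℂ)) := by
    have e : 2 * α * (β 0 + β 1) = ((18 * π ^ 2 * (1 - s ^ 2) : ℝ) : ℂ) := by
      rw [hαv, hβ0, hβ1]; push_cast; ring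
    rw [← e]
    refine ht2.congr' ?_
    filter_upwards [pos] with h hh
    rw [htr2 h hh]
  have hkey : ∀ h : ℝ, 0 < h →
      ((X h (2 * π) - 1) * (X h (2 * π) - 1)).trace + 2 * (X h (2 * π) - 1).det =
      ((X h (2 * π)).trace - 4) * (2 + ((X h (2 * π)).trace - 4)) := by
    intro h hh
    have hd : (X h (2 * π)).det = 1 :=
      det_fund (hX h hh) (fun θ => by simp [Bs, Matrix.trace, Fin.sum_univ_succ]) (2 * π)
    rw [trace_sq_of_symp (X h (2 * π)) (symp_fund (hX h hh) (2 * π)) hd]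
    ring
  have hden : Tendsto (fun h : ℝ => 2 + ((X h (2 * π)).trace - 4)) (𝓝[>] 0) (𝓝 (2 + 0)) :=
    tendsto_const_nhds.add hS0
  have hnum := htr3.add (hdet3.const_mul 2)
  have hq := hnum.div hden (by norm_num)
  have e : (((18 * π ^ 2 * (1 - s ^ 2) : ℝ) : ℂ) + 2 * 0) / (2 + 0) =
      ((9 * π ^ 2 * (1 - s ^ 2) : ℝ) : ℂ) := by
    push_cast; ring
  rw [e] at hq
  refine hq.congr' ?_
  have hne : ∀ᶠ h : ℝ in 𝓝[>] 0, 2 + ((X h (2 * π)).trace - 4) ≠ 0 :=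
    hden.eventually_ne (by norm_num)
  filter_upwards [pos, hne] with h hh hn
  have h0 : (h : ℂ) ≠ 0 := by exact_mod_cast hh.ne'
  have hk := hkey h hh
  simp only [Pi.div_apply]
  rw [div_eq_div_iff hn (pow_ne_zero 3 h0)]
  have e2 : ((X h (2 * π) - 1) * (X h (2 * π) - 1)).trace / (h : ℂ) ^ 3 +
      2 * ((X h (2 * π) - 1).det / (h : ℂ) ^ 3) =
      (((X h (2 * π) - 1) * (X h (2 * π) - 1)).trace + 2 * (X h (2 * π) - 1).det) /
        (h : ℂ) ^ 3 := by ring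
  rw [e2, hk]
  field_simp

end Pool.Agent.MP_5027f4_ell
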