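import Pool.Agent.Lib_MP_5027f4_ell.Defs

/-!
# Piece GenB: the special mass ratio `s = 3 / 5` at eccentricity zero
-/

open Complex Set Filter Topology MeasureTheory
open scoped Real Matrix ComplexConjugate

namespace Pool.Agent.MP_5027f4_ell

namespace GenB

/-- A left eigenvector of the constant coefficient matrix. -/
noncomputable def lv (l : ℂ) : Fin 4 → ℂ :=
  ![24 / 5 * l, 3 / 5 * (12 / 5 - l ^ 2), 2 * l ^ 2, l * (12 / 5 - l ^ 2)]

theorem lv_mul (l : ℂ) (hl : l ^ 4 + l ^ 2 + 36 / 25 = 0) (θ : ℝ) (j : Fin 4) :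
    ∑ i, lv l i * Bs (3 / 5) 0 θ i j = l * lv l j := by
  have h1 : rho 0 θ = 1 := by simp [rho]
  fin_cases j
  · simp [lv, Bs, h1, Fin.sum_univ_four]
    ring
  · simp [lv, Bs, h1, Fin.sum_univ_four]
    ring
  · simp [lv, Bs, h1, Fin.sum_univ_four]
    ring
  · simp [lv, Bs, h1, Fin.sum_univ_four]
    linear_combination hl

theorem lv_fund {X : ℝ → Mat} (hX : IsFund (Bs (3 / 5) 0) X) (l : ℂ)
    (hl : l ^ 4 + l ^ 2 + 36 / 25 = 0) (θ : ℝ) (j : Fin 4) :
    ∑ i, lv l i * X θ i j = exp (l * θ) * lv l j := by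
  have hd : ∀ t : ℝ, HasDerivAt (fun t : ℝ => ∑ i, lv l i * X t i j)
      (l * ∑ i, lv l i * X t i j) t := by
    intro t
    have h1 : HasDerivAt (fun t : ℝ => ∑ i, lv l i * X t i j)
        (∑ i, lv l i * ((Bs (3 / 5) 0 t * X t) i j)) t := by
      apply HasDerivAt.fun_sum
      intro i _
      exact (hX.2 t i j).const_mul (lv l i)
    convert h1 using 1
    calc l * ∑ i, lv l i * X t i j = ∑ k, (l * lv l k) * X t k j := by
          rw [Finset.mul_sum]
          exact Finset.sum_congr rfl fun k _ => by ring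
      _ = ∑ k, (∑ i, lv l i * Bs (3 / 5) 0 t i k) * X t k j := by
          exact Finset.sum_congr rfl fun k _ => by rw [lv_mul l hl t k]
      _ = ∑ k, ∑ i, lv l i * Bs (3 / 5) 0 t i k * X t k j := by
          exact Finset.sum_congr rfl fun k _ => by rw [Finset.sum_mul]
      _ = ∑ i, ∑ k, lv l i * Bs (3 / 5) 0 t i k * X t k j := Finset.sum_comm
      _ = ∑ i, lv l i * ((Bs (3 / 5) 0 t * X t) i j) := by
          refine Finset.sum_congr rfl fun i _ => ?_
          rw [Matrix.mul_apply, Finset.mul_sum]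
          exact Finset.sum_congr rfl fun k _ => by ring
  have he : ∀ t : ℝ, HasDerivAt (fun t : ℝ => exp (-(l * t))) (-l * exp (-(l * t))) t := by
    intro t
    have h1 : HasDerivAt (fun t : ℝ => -(l * (t : ℂ))) (-(l * 1)) t :=
      ((hasDerivAt_id t).ofReal_comp.const_mul l).neg
    have h2 := h1.cexp
    convert h2 using 1
    ring
  have hg : ∀ t : ℝ, HasDerivAt (fun t : ℝ => exp (-(l * t)) * ∑ i, lv l i * X t i j) 0 t := by
    intro t
    have h1 := (he t).mul (hd t)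
    have h2 : -l * exp (-(l * t)) * (∑ i, lv l i * X t i j) +
        exp (-(l * t)) * (l * ∑ i, lv l i * X t i j) = 0 := by ring
    rw [h2] at h1
    exact h1
  have hc := is_const_of_deriv_eq_zero (f := fun t : ℝ => exp (-(l * t)) * ∑ i, lv l i * X t i j)
    (fun t => (hg t).differentiableAt) (fun t => (hg t).deriv) θ 0
  have h0 : ∑ i, lv l i * X 0 i j = lv l j := by
    rw [hX.1]
    simp [Matrix.one_apply]
  simp only [h0] at hc
  simp only [ofReal_zero, mul_zero, neg_zero, Complex.exp_zero, one_mul] at hc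
  rw [← hc, ← mul_assoc, ← Complex.exp_add]
  simp

/-- The matrix of the left eigenvectors. -/
noncomputable def pm (l k : ℂ) : Mat := Matrix.of ![lv l, lv (-l), lv k, lv (-k)]

theorem det_pm (l k : ℂ) : (pm l k).det = 6912 / 125 * (l * k) * (l ^ 2 - k ^ 2) ^ 2 := by
  rw [pm, Matrix.det_succ_row_zero]
  simp [Fin.sum_univ_succ, Matrix.det_fin_three, lv, Fin.succAbove, Matrix.submatrix]
  ring

theorem trace_det {X : ℝ → Mat} (hX : IsFund (Bs (3 / 5) 0) X) {l k : ℂ}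
    (hl : l ^ 4 + l ^ 2 + 36 / 25 = 0) (hk : k ^ 4 + k ^ 2 + 36 / 25 = 0) (hlk : l ^ 2 ≠ k ^ 2)
    (hl0 : l ≠ 0) (hk0 : k ≠ 0) (θ : ℝ) :
    (X θ).trace = exp (l * θ) + exp (-l * θ) + exp (k * θ) + exp (-k * θ) ∧
      (X θ - 1).det = (exp (l * θ) - 1) * (exp (-l * θ) - 1) * (exp (k * θ) - 1) *
        (exp (-k * θ) - 1) := by
  have hl' : (-l) ^ 4 + (-l) ^ 2 + 36 / 25 = 0 := by linear_combination hl
  have hk' : (-k) ^ 4 + (-k) ^ 2 + 36 / 25 = 0 := by linear_combination hk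
  have hdet : (pm l k).det ≠ 0 := by
    rw [det_pm]
    exact mul_ne_zero (mul_ne_zero (by norm_num) (mul_ne_zero hl0 hk0))
      (pow_ne_zero 2 (sub_ne_zero.2 hlk))
  have hu : IsUnit (pm l k).det := isUnit_iff_ne_zero.2 hdet
  set d : Fin 4 → ℂ := ![exp (l * θ), exp (-l * θ), exp (k * θ), exp (-k * θ)] with hd
  have hPX : pm l k * X θ = Matrix.diagonal d * pm l k := by
    ext i j
    rw [Matrix.mul_apply, Matrix.diagonal_mul]
    fin_cases i
    · exact lv_fund hX l hl θ j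
    · exact lv_fund hX (-l) hl' θ j
    · exact lv_fund hX k hk θ j
    · exact lv_fund hX (-k) hk' θ j
  have hXe : X θ = (pm l k)⁻¹ * Matrix.diagonal d * pm l k := by
    rw [Matrix.mul_assoc, ← hPX, ← Matrix.mul_assoc, Matrix.nonsing_inv_mul _ hu, Matrix.one_mul]
  constructor
  · rw [hXe, Matrix.trace_mul_comm, ← Matrix.mul_assoc, Matrix.mul_nonsing_inv _ hu,
      Matrix.one_mul, Matrix.trace_diagonal, hd]
    simp [Fin.sum_univ_four]
  · have h1 : X θ - 1 = (pm l k)⁻¹ * (Matrix.diagonal d - 1) * pm l k := by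
      rw [Matrix.mul_sub, Matrix.sub_mul, ← hXe, Matrix.mul_one, Matrix.nonsing_inv_mul _ hu]
    rw [h1, Matrix.det_mul, Matrix.det_mul, mul_comm, ← mul_assoc, ← Matrix.det_mul,
      Matrix.mul_nonsing_inv _ hu, Matrix.det_one, one_mul]
    have h2 : (Matrix.diagonal d - 1 : Mat) = Matrix.diagonal fun i => d i - 1 := by
      rw [← Matrix.diagonal_one, Matrix.diagonal_sub]
    rw [h2, Matrix.det_diagonal, hd]
    simp [Fin.prod_univ_four]

end GenB

/-- The special mass ratio. -/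
theorem special (X : ℝ → Mat) (hX : IsFund (Bs (3 / 5) 0) X) :
    Rpol (X (2 * π)).trace ((X (2 * π) - 1).det - 4 + 2 * (X (2 * π)).trace) ≠ 0 := by
  set x : ℝ := Real.sqrt (7 / 20) with hx
  set y : ℝ := Real.sqrt (17 / 20) with hy
  have hx2 : x ^ 2 = 7 / 20 := Real.sq_sqrt (by norm_num)
  have hy2 : y ^ 2 = 17 / 20 := Real.sq_sqrt (by norm_num)
  have hx0 : 0 < x := Real.sqrt_pos.2 (by norm_num)
  have hy0 : 0 < y := Real.sqrt_pos.2 (by norm_num)
  have hx2c : (x : ℂ) ^ 2 = 7 / 20 := by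
    have := congrArg (fun r : ℝ => (r : ℂ)) hx2
    simpa using this
  have hy2c : (y : ℂ) ^ 2 = 17 / 20 := by
    have := congrArg (fun r : ℝ => (r : ℂ)) hy2
    simpa using this
  set l : ℂ := x + y * I with hl
  set k : ℂ := x - y * I with hk
  have hI : I ^ 2 = -1 := I_sq
  have hl2 : l ^ 2 = -1 / 2 + 2 * x * y * I := by
    rw [hl]
    linear_combination hx2c + y ^ 2 * hI - hy2c
  have hk2 : k ^ 2 = -1 / 2 - 2 * x * y * I := by
    rw [hk]
    linear_combination hx2c + y ^ 2 * hI - hy2c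
  have hxy : (x : ℂ) ^ 2 * y ^ 2 = 119 / 400 := by rw [hx2c, hy2c]; norm_num
  have hl4 : l ^ 4 + l ^ 2 + 36 / 25 = 0 := by
    have : l ^ 4 = (l ^ 2) ^ 2 := by ring
    rw [this, hl2]
    linear_combination 4 * (x : ℂ) ^ 2 * y ^ 2 * hI - 4 * hxy
  have hk4 : k ^ 4 + k ^ 2 + 36 / 25 = 0 := by
    have : k ^ 4 = (k ^ 2) ^ 2 := by ring
    rw [this, hk2]
    linear_combination 4 * (x : ℂ) ^ 2 * y ^ 2 * hI - 4 * hxy
  have hxc : (x : ℂ) ≠ 0 := by exact_mod_cast hx0.ne'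
  have hyc : (y : ℂ) ≠ 0 := by exact_mod_cast hy0.ne'
  have hlk : l ^ 2 ≠ k ^ 2 := by
    intro h
    rw [hl2, hk2] at h
    have h1 : 4 * ((x : ℂ) * y * I) = 0 := by linear_combination h
    have h2 : (x : ℂ) * y * I ≠ 0 := mul_ne_zero (mul_ne_zero hxc hyc) I_ne_zero
    exact h2 (by simpa using h1)
  have hl0 : l ≠ 0 := by
    rintro h
    rw [h] at hl4
    norm_num at hl4
  have hk0 : k ≠ 0 := by
    rintro h
    rw [h] at hk4
    norm_num at hk4
  obtain ⟨ht, hd⟩ := GenB.trace_det hX hl4 hk4 hlk hl0 hk0 (2 * π)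
  set a : ℂ := exp (l * ((2 * π : ℝ) : ℂ)) with ha
  set b : ℂ := exp (k * ((2 * π : ℝ) : ℂ)) with hb
  have ha0 : a ≠ 0 := exp_ne_zero _
  have hb0 : b ≠ 0 := exp_ne_zero _
  have ha' : exp (-l * ((2 * π : ℝ) : ℂ)) = a⁻¹ := by rw [ha, ← exp_neg, neg_mul]
  have hb' : exp (-k * ((2 * π : ℝ) : ℂ)) = b⁻¹ := by rw [hb, ← exp_neg, neg_mul]
  rw [ha', hb'] at ht hd
  set r : ℝ := Real.exp (x * (2 * π)) with hr
  have hr1 : 1 < r := by
    rw [hr]
    apply Real.one_lt_exp_iff.2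
    positivity
  have hna : ‖a‖ = r := by
    rw [ha, Complex.norm_exp, hr]
    congr 1
    simp [hl]
  have hnb : ‖b‖ = r := by
    rw [hb, Complex.norm_exp, hr]
    congr 1
    simp [hk]
  have key1 : ∀ u v : ℂ, u ≠ 0 → v ≠ 0 → ‖u‖ = r → ‖v‖ = r →
      (v + v⁻¹) - (u + u⁻¹) ^ 2 + 2 ≠ 0 := by
    intro u v hu hv hnu hnv h
    have h1 : (v - u ^ 2) * (u ^ 2 * v - 1) = 0 := by
      have h2 : ((v + v⁻¹) - (u + u⁻¹) ^ 2 + 2) * (u ^ 2 * v) =
          (v - u ^ 2) * (u ^ 2 * v - 1) := by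
        field_simp
        ring
      rw [← h2, h, zero_mul]
    rcases mul_eq_zero.1 h1 with h2 | h2
    · have h3 := congrArg norm (sub_eq_zero.1 h2)
      rw [norm_pow, hnu, hnv] at h3
      nlinarith
    · have h3 := congrArg norm (sub_eq_zero.1 h2)
      rw [norm_mul, norm_pow, hnu, hnv, norm_one] at h3
      nlinarith [mul_pos (by linarith : (0:ℝ) < r) (by linarith : (0:ℝ) < r)]
  have hR : Rpol (X (2 * π)).trace ((X (2 * π) - 1).det - 4 + 2 * (X (2 * π)).trace) =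
      ((b + b⁻¹) - (a + a⁻¹) ^ 2 + 2) * ((a + a⁻¹) - (b + b⁻¹) ^ 2 + 2) := by
    rw [hd, ht, Rpol]
    field_simp
    ring
  rw [hR]
  exact mul_ne_zero (key1 a b ha0 hb0 hna hnb) (key1 b a hb0 ha0 hnb hna)

end Pool.Agent.MP_5027f4_ell
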