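import Pool.Agent.Lib_MP_5027f4_ell.Defs

/-!
Piece OdeE: elementary facts on `Om` and `Bs`.
-/

open Complex Set Filter Topology MeasureTheory
open scoped Real Matrix ComplexConjugate

namespace Pool.Agent.MP_5027f4_ell

theorem mem_Om_iff {e : ℂ} : e ∈ Om ↔ ¬ (e.im = 0 ∧ 1 ≤ |e.re|) := by
  constructor
  · rintro h ⟨h1, h2⟩
    have hne : e.re ≠ 0 := by
      intro h0
      rw [h0, abs_zero] at h2
      linarith
    have habs : |(-1 / e.re)| ≤ 1 := by
      rw [abs_div, abs_neg, abs_one, div_le_one (abs_pos.mpr hne)]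
      exact h2
    obtain ⟨l, u⟩ := abs_le.mp habs
    apply h (Real.arccos (-1 / e.re))
    rw [Real.cos_arccos l u]
    apply Complex.ext
    · simp only [Complex.add_re, Complex.one_re, Complex.mul_re, Complex.ofReal_re,
        Complex.ofReal_im, mul_zero, sub_zero, Complex.zero_re]
      field_simp
      ring
    · simp [h1]
  · intro h θ h0
    apply h
    have hre := congrArg Complex.re h0
    have him := congrArg Complex.im h0
    simp only [Complex.add_re, Complex.one_re, Complex.mul_re, Complex.ofReal_re,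
        Complex.ofReal_im, mul_zero, sub_zero, Complex.zero_re] at hre
    simp only [Complex.add_im, Complex.one_im, Complex.mul_im, Complex.ofReal_re,
        Complex.ofReal_im, mul_zero, zero_add, Complex.zero_im] at him
    have hc : Real.cos θ ≠ 0 := by
      intro hc
      rw [hc, mul_zero] at hre
      linarith
    constructor
    · exact (mul_eq_zero.mp him).resolve_right hc
    · have h1 : |e.re| * |Real.cos θ| = 1 := by
        rw [← abs_mul]
        have : e.re * Real.cos θ = -1 := by linarith
        rw [this]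
        simp
      have h2 := Real.abs_cos_le_one θ
      nlinarith [abs_nonneg e.re, abs_nonneg (Real.cos θ)]

theorem isOpen_Om : IsOpen Om := by
  have : Om = {e : ℂ | e.im = 0 ∧ 1 ≤ |e.re|}ᶜ := by
    ext e
    exact mem_Om_iff
  rw [this, isOpen_compl_iff]
  exact (isClosed_eq Complex.continuous_im continuous_const).inter
    (isClosed_le continuous_const Complex.continuous_re.abs)

theorem isPreconnected_Om : IsPreconnected Om := by
  have h0 : (0 : ℂ) ∈ Om := by
    rw [mem_Om_iff]
    rintro ⟨-, h⟩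
    simp only [Complex.zero_re, abs_zero] at h
    linarith
  have hstar : StarConvex ℝ (0 : ℂ) Om := by
    intro y hy a b ha hb hab
    rw [mem_Om_iff] at hy ⊢
    rintro ⟨h1, h2⟩
    apply hy
    simp only [smul_zero, zero_add, Complex.real_smul, Complex.mul_im, Complex.mul_re,
      Complex.ofReal_re, Complex.ofReal_im, zero_mul, add_zero, sub_zero] at h1 h2
    have hb1 : b ≤ 1 := by linarith
    have hb0 : b ≠ 0 := by
      intro hb0
      rw [hb0, zero_mul, abs_zero] at h2
      linarith
    refine ⟨(mul_eq_zero.mp h1).resolve_left hb0, ?_⟩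
    rw [abs_mul, abs_of_nonneg hb] at h2
    nlinarith [abs_nonneg y.re]
  exact (hstar.isPathConnected h0).isConnected.isPreconnected

theorem ofReal_mem_Om {e : ℝ} (h0 : -1 < e) (h1 : e < 1) : (e : ℂ) ∈ Om := by
  rw [mem_Om_iff]
  rintro ⟨-, h⟩
  rw [Complex.ofReal_re] at h
  have : |e| < 1 := abs_lt.mpr ⟨h0, h1⟩
  linarith

theorem I_div_mem_Om {h : ℝ} (h0 : 0 < h) : I / (h : ℂ) ∈ Om := by
  rw [mem_Om_iff]
  rintro ⟨h1, -⟩
  rw [Complex.div_ofReal_im, Complex.I_im] at h1
  exact (one_div_pos.mpr h0).ne' h1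

theorem continuous_rho {e : ℂ} (he : e ∈ Om) : Continuous fun θ => rho e θ := by
  unfold rho
  apply Continuous.inv₀
  · fun_prop
  · exact he

theorem continuous_Bs (s : ℝ) {e : ℂ} (he : e ∈ Om) (i j : Fin 4) :
    Continuous fun θ => Bs s e θ i j := by
  have h := continuous_rho he
  fin_cases i <;> fin_cases j <;> simp [Bs] <;> fun_prop

theorem rho_periodic (e : ℂ) (θ : ℝ) : rho e (θ + 2 * π) = rho e θ := by
  simp only [rho, Real.cos_add_two_pi]

theorem Bs_periodic (s : ℝ) (e : ℂ) (θ : ℝ) : Bs s e (θ + 2 * π) = Bs s e θ := by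
  simp only [Bs, rho_periodic]

theorem conj_rho (e : ℝ) (θ : ℝ) : conj (rho e θ) = rho e θ := by
  simp only [rho, map_inv₀, map_add, map_one, map_mul, Complex.conj_ofReal]

theorem Bs_real (s e : ℝ) (θ : ℝ) : IsRealMat (Bs s e θ) := by
  have h := conj_rho e θ
  intro i j
  fin_cases i <;> fin_cases j <;>
    simp only [Bs, Matrix.of_apply, Matrix.cons_val', Matrix.cons_val_zero, Matrix.cons_val_one,
      Matrix.cons_val, Fin.zero_eta, Fin.mk_one, Fin.reduceFinMk, Fin.isValue, map_zero, map_one,
      map_mul, map_neg, Complex.conj_ofReal, h, map_ofNat]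

theorem Bs_trace (s : ℝ) (e : ℂ) (θ : ℝ) : (Bs s e θ).trace = 0 := by
  simp [Matrix.trace, Fin.sum_univ_four, Bs]

end Pool.Agent.MP_5027f4_ell
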