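import Pool.Agent.Lib_MP_5027f4_ell.Defs

/-!
# Derivative of the monodromy matrix with respect to the eccentricity
-/

open Complex Set Filter Topology MeasureTheory Polynomial
open scoped Real Matrix ComplexConjugate

namespace Pool.Agent.MP_5027f4_ell

namespace OdeFAux

theorem prod_deriv {A A' X Y : ℝ → Mat} (hX : IsFund A' X) (hY : IsCofund A Y) (θ : ℝ)
    (k l : Fin 4) :
    HasDerivAt (fun t => (Y t * X t) k l) ((Y θ * (A' θ - A θ) * X θ) k l) θ := by
  have h : HasDerivAt (fun t => ∑ m, Y t k m * X t m l)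
      (∑ m, (-((Y θ * A θ) k m) * X θ m l + Y θ k m * ((A' θ * X θ) m l))) θ := by
    refine HasDerivAt.fun_sum fun m _ => ?_
    exact (hY.2 θ k m).mul (hX.2 θ m l)
  have e1 : (fun t => (Y t * X t) k l) = fun t => ∑ m, Y t k m * X t m l := by
    funext t; rw [Matrix.mul_apply]
  have e2 : (Y θ * (A' θ - A θ) * X θ) k l =
      ∑ m, (-((Y θ * A θ) k m) * X θ m l + Y θ k m * ((A' θ * X θ) m l)) := by
    rw [Finset.sum_add_distrib]
    have : Y θ * (A' θ - A θ) * X θ = -(Y θ * A θ * X θ) + Y θ * (A' θ * X θ) := by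
      noncomm_ring
    rw [this, Matrix.add_apply, Matrix.neg_apply, Matrix.mul_apply, Matrix.mul_apply]
    simp only [neg_mul, Finset.sum_neg_distrib]
  rw [e1, e2]
  exact h

theorem cofund_mul {A X Y : ℝ → Mat} (hX : IsFund A X) (hY : IsCofund A Y) (θ : ℝ) :
    Y θ * X θ = 1 := by
  ext k l
  have h : ∀ t, HasDerivAt (fun t => (Y t * X t) k l) 0 t := fun t => by
    have := prod_deriv hX hY t k l
    simpa using this
  have h2 := is_const_of_deriv_eq_zero (fun t => (h t).differentiableAt) (fun t => (h t).deriv) θ 0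
  rw [h2, hX.1, hY.1, one_mul]

theorem fund_mul {A X Y : ℝ → Mat} (hX : IsFund A X) (hY : IsCofund A Y) (θ : ℝ) :
    X θ * Y θ = 1 := mul_eq_one_comm.mp (cofund_mul hX hY θ)

theorem cont_fund {A X : ℝ → Mat} (hX : IsFund A X) (i j : Fin 4) :
    Continuous fun t => X t i j :=
  continuous_iff_continuousAt.2 fun t => (hX.2 t i j).continuousAt

theorem cont_cofund {A X : ℝ → Mat} (hX : IsCofund A X) (i j : Fin 4) :
    Continuous fun t => X t i j :=
  continuous_iff_continuousAt.2 fun t => (hX.2 t i j).continuousAt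

theorem cont_mul {A B : ℝ → Mat} (hA : ∀ i j, Continuous fun t => A t i j)
    (hB : ∀ i j, Continuous fun t => B t i j) (i j : Fin 4) :
    Continuous fun t => (A t * B t) i j := by
  simp only [Matrix.mul_apply]
  exact continuous_finsetSum _ fun m _ => (hA i m).mul (hB m j)

/-- variation of constants -/
theorem sub_eq {A A' X X' Y : ℝ → Mat} (hA : ∀ i j, Continuous fun t => A t i j)
    (hA' : ∀ i j, Continuous fun t => A' t i j)
    (hX : IsFund A X) (hX' : IsFund A' X') (hY : IsCofund A Y) (θ : ℝ) :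
    X' θ - X θ = X θ * Matrix.of fun k l =>
      ∫ t in (0 : ℝ)..θ, (Y t * (A' t - A t) * X' t) k l := by
  have h1 : (Matrix.of fun k l => ∫ t in (0 : ℝ)..θ, (Y t * (A' t - A t) * X' t) k l : Mat) =
      Y θ * X' θ - 1 := by
    ext k l
    rw [Matrix.of_apply]
    rw [intervalIntegral.integral_eq_sub_of_hasDerivAt (f := fun t => (Y t * X' t) k l)
      (fun t _ => prod_deriv hX' hY t k l)]
    · rw [hX'.1, hY.1, one_mul, Matrix.sub_apply]
    · apply Continuous.intervalIntegrable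
      apply cont_mul
      · apply cont_mul (cont_cofund hY)
        intro i j
        simp only [Matrix.sub_apply]
        exact (hA' i j).sub (hA i j)
      · exact cont_fund hX'
  rw [h1, mul_sub, mul_one, ← mul_assoc, fund_mul hX hY, one_mul]

/-- Gronwall bound for the entries of a fundamental matrix. -/
theorem fund_bound {A X : ℝ → Mat} (hX : IsFund A X) {K : ℝ} (hK0 : 0 ≤ K)
    (hK : ∀ θ i j, ‖A θ i j‖ ≤ K) {θ : ℝ} (h0 : 0 ≤ θ) (h1 : θ ≤ 2 * π) (i j : Fin 4) :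
    ‖X θ i j‖ ≤ Real.exp (4 * K * (2 * π)) := by
  let f : ℝ → Fin 4 → ℂ := fun t i => X t i j
  have hf : ∀ t, HasDerivAt f (fun i => (A t * X t) i j) t := fun t =>
    hasDerivAt_pi.2 fun i => hX.2 t i j
  have hg := norm_le_gronwallBound_of_norm_deriv_right_le (f := f)
    (f' := fun t => fun i => (A t * X t) i j) (δ := 1) (K := 4 * K) (ε := 0) (a := 0) (b := 2 * π)
    (fun t _ => (hf t).continuousAt.continuousWithinAt)
    (fun t _ => (hf t).hasDerivWithinAt) ?_ ?_ θ ⟨h0, h1⟩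
  · have h3 : ‖X θ i j‖ ≤ ‖f θ‖ := norm_le_pi_norm (f θ) i
    refine h3.trans (hg.trans ?_)
    rw [gronwallBound_ε0]
    rw [one_mul, sub_zero]
    exact Real.exp_le_exp.2 (mul_le_mul_of_nonneg_left h1 (by positivity))
  · show ‖f 0‖ ≤ 1
    rw [pi_norm_le_iff_of_nonneg zero_le_one]
    intro i
    show ‖X 0 i j‖ ≤ 1
    rw [hX.1, Matrix.one_apply]
    split_ifs <;> simp
  · intro t _
    rw [add_zero, pi_norm_le_iff_of_nonneg (by positivity)]
    intro i
    show ‖(A t * X t) i j‖ ≤ _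
    rw [Matrix.mul_apply]
    refine (norm_sum_le _ _).trans ?_
    have : ∀ m ∈ (Finset.univ : Finset (Fin 4)), ‖A t i m * X t m j‖ ≤ K * ‖f t‖ := fun m _ => by
      rw [norm_mul]
      exact mul_le_mul (hK t i m) (norm_le_pi_norm (f t) m) (norm_nonneg _) hK0
    refine (Finset.sum_le_sum this).trans ?_
    rw [Finset.sum_const, Finset.card_univ, Fintype.card_fin, nsmul_eq_mul]
    push_cast
    linarith

/-- The difference quotient of `Bs`. -/
noncomputable def Qs (s : ℝ) (e e' : ℂ) (θ : ℝ) : Mat :=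
  !![0, 0, 0, 0;
     0, 0, 0, 0;
     -((3 / 2 * (1 + s) : ℝ) * (Real.cos θ : ℂ) * (rho e' θ * rho e θ)), 0, 0, 0;
     0, -((3 / 2 * (1 - s) : ℝ) * (Real.cos θ : ℂ) * (rho e' θ * rho e θ)), 0, 0]

theorem rho_sub {e e' : ℂ} (he : e ∈ Om) (he' : e' ∈ Om) (θ : ℝ) :
    rho e' θ - rho e θ = (e' - e) * (-((Real.cos θ : ℂ) * (rho e' θ * rho e θ))) := by
  have h1 := he θ
  have h2 := he' θ
  unfold rho
  rw [inv_sub_inv h2 h1, div_eq_mul_inv, mul_inv]
  ring

theorem Bs_sub (s : ℝ) {e e' : ℂ} (he : e ∈ Om) (he' : e' ∈ Om) (θ : ℝ) :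
    Bs s e' θ - Bs s e θ = (e' - e) • Qs s e e' θ := by
  have h := rho_sub he he' θ
  ext i j
  rw [Matrix.sub_apply, Matrix.smul_apply, smul_eq_mul]
  fin_cases i <;> fin_cases j <;> simp [Bs, Qs] <;> rw [← mul_sub, h] <;> push_cast <;> ring

theorem Qs_self (s : ℝ) (e : ℂ) (θ : ℝ) : Qs s e e θ = dBs s e θ := by
  unfold Qs dBs
  simp only [pow_two]

/-- a neighbourhood of `e` with uniform bounds -/
theorem exists_nhd {e : ℂ} (he : e ∈ Om) : ∃ c > 0, ∃ R > 0, ∀ e', ‖e' - e‖ < c →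
    e' ∈ Om ∧ ∀ θ, ‖rho e' θ‖ ≤ R := by
  have hc : IsCompact (Icc (-1 : ℝ) 1) := isCompact_Icc
  have hcont : ContinuousOn (fun x : ℝ => ‖1 + e * (x : ℂ)‖) (Icc (-1 : ℝ) 1) := by
    fun_prop
  obtain ⟨x0, hx0, hmin⟩ := hc.exists_isMinOn ⟨0, by norm_num, by norm_num⟩ hcont
  have hpos : 0 < ‖1 + e * (x0 : ℂ)‖ := by
    rw [norm_pos_iff]
    have := he (Real.arccos x0)
    rwa [Real.cos_arccos hx0.1 hx0.2] at this
  set c := ‖1 + e * (x0 : ℂ)‖ with hcdef
  have key : ∀ e', ‖e' - e‖ < c / 2 → ∀ θ : ℝ, c / 2 ≤ ‖1 + e' * (Real.cos θ : ℂ)‖ := by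
    intro e' h θ
    have h1 : c ≤ ‖1 + e * (Real.cos θ : ℂ)‖ := hmin ⟨Real.neg_one_le_cos θ, Real.cos_le_one θ⟩
    have h2 : ‖(e' - e) * (Real.cos θ : ℂ)‖ ≤ c / 2 := by
      rw [norm_mul, Complex.norm_real, Real.norm_eq_abs]
      have := Real.abs_cos_le_one θ
      nlinarith [norm_nonneg (e' - e), abs_nonneg (Real.cos θ)]
    have h3 : 1 + e * (Real.cos θ : ℂ) =
      (1 + e' * (Real.cos θ : ℂ)) - (e' - e) * (Real.cos θ : ℂ) := by ring
    have h4 := norm_sub_le (1 + e' * (Real.cos θ : ℂ)) ((e' - e) * (Real.cos θ : ℂ))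
    rw [← h3] at h4
    linarith
  refine ⟨c / 2, by positivity, 2 / c, by positivity, fun e' h => ⟨fun θ h0 => ?_, fun θ => ?_⟩⟩
  · have := key e' h θ
    rw [h0, norm_zero] at this
    linarith
  · have := key e' h θ
    unfold rho
    rw [norm_inv]
    calc _ ≤ (c / 2)⁻¹ := inv_anti₀ (by positivity) this
      _ = 2 / c := by rw [inv_div]

theorem continuous_rho {e : ℂ} (he : e ∈ Om) : Continuous fun θ => rho e θ := by
  unfold rho
  exact Continuous.inv₀ (by fun_prop) he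

theorem continuous_Bs' (s : ℝ) {e : ℂ} (he : e ∈ Om) (i j : Fin 4) :
    Continuous fun θ => Bs s e θ i j := by
  have := continuous_rho he
  fin_cases i <;> fin_cases j <;> simp [Bs] <;> fun_prop

theorem continuous_Qs (s : ℝ) {e e' : ℂ} (he : e ∈ Om) (he' : e' ∈ Om) (i j : Fin 4) :
    Continuous fun θ => Qs s e e' θ i j := by
  have := continuous_rho he
  have := continuous_rho he'
  fin_cases i <;> fin_cases j <;> simp [Qs] <;> fun_prop

theorem Bs_bound (s : ℝ) {e : ℂ} {R : ℝ} (hR : 0 < R) (h : ∀ θ, ‖rho e θ‖ ≤ R) (θ : ℝ)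
    (i j : Fin 4) : ‖Bs s e θ i j‖ ≤ 2 + (3 / 2 * (1 + |s|)) * R := by
  have h0 := h θ
  have hs : |1 + s| ≤ 1 + |s| := by
    have := abs_add_le 1 s
    simpa using this
  have hs' : |1 - s| ≤ 1 + |s| := by
    have := abs_sub 1 s
    simpa using this
  have a1 : ‖(((3 / 2 * (1 + s) : ℝ)) : ℂ) * rho e θ‖ ≤ (3 / 2 * (1 + |s|)) * R := by
    rw [norm_mul, Complex.norm_real, Real.norm_eq_abs, abs_mul, abs_of_pos (by norm_num : (0:ℝ) < 3/2)]
    gcongr
  have a2 : ‖(((3 / 2 * (1 - s) : ℝ)) : ℂ) * rho e θ‖ ≤ (3 / 2 * (1 + |s|)) * R := by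
    rw [norm_mul, Complex.norm_real, Real.norm_eq_abs, abs_mul, abs_of_pos (by norm_num : (0:ℝ) < 3/2)]
    gcongr
  have a3 : 0 ≤ (3 / 2 * (1 + |s|)) * R := by positivity
  have a4 : (0:ℝ) ≤ 2 + (3 / 2 * (1 + |s|)) * R := by positivity
  fin_cases i <;> fin_cases j <;>
    simp only [Bs, Fin.zero_eta, Fin.mk_one, Fin.reduceFinMk, Matrix.of_apply, Matrix.cons_val',
      Matrix.cons_val_zero, Matrix.cons_val_one, Matrix.cons_val, norm_zero, norm_one, norm_neg,
      Complex.norm_ofNat] <;> first | exact a4 | linarith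

theorem Qs_bound (s : ℝ) {e e' : ℂ} {R : ℝ} (hR : 0 < R) (h : ∀ θ, ‖rho e θ‖ ≤ R)
    (h' : ∀ θ, ‖rho e' θ‖ ≤ R) (θ : ℝ) (i j : Fin 4) :
    ‖Qs s e e' θ i j‖ ≤ (3 / 2 * (1 + |s|)) * (R * R) := by
  have h0 := h θ
  have h0' := h' θ
  have hs : |1 + s| ≤ 1 + |s| := by
    have := abs_add_le 1 s
    simpa using this
  have hs' : |1 - s| ≤ 1 + |s| := by
    have := abs_sub 1 s
    simpa using this
  have hcos : ‖(Real.cos θ : ℂ)‖ ≤ 1 := by
    rw [Complex.norm_real]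
    exact Real.abs_cos_le_one θ
  have a1 : ‖(((3 / 2 * (1 + s) : ℝ)) : ℂ) * (Real.cos θ : ℂ) * (rho e' θ * rho e θ)‖ ≤
      (3 / 2 * (1 + |s|)) * (R * R) := by
    rw [norm_mul, norm_mul, Complex.norm_real, Real.norm_eq_abs, abs_mul,
      abs_of_pos (by norm_num : (0:ℝ) < 3/2), norm_mul]
    calc _ ≤ (3 / 2 * (1 + |s|)) * 1 * (R * R) := by gcongr
      _ = _ := by ring
  have a2 : ‖(((3 / 2 * (1 - s) : ℝ)) : ℂ) * (Real.cos θ : ℂ) * (rho e' θ * rho e θ)‖ ≤
      (3 / 2 * (1 + |s|)) * (R * R) := by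
    rw [norm_mul, norm_mul, Complex.norm_real, Real.norm_eq_abs, abs_mul,
      abs_of_pos (by norm_num : (0:ℝ) < 3/2), norm_mul]
    calc _ ≤ (3 / 2 * (1 + |s|)) * 1 * (R * R) := by gcongr
      _ = _ := by ring
  have a3 : 0 ≤ (3 / 2 * (1 + |s|)) * (R * R) := by positivity
  fin_cases i <;> fin_cases j <;>
    simp only [Qs, Fin.zero_eta, Fin.mk_one, Fin.reduceFinMk, Matrix.of_apply, Matrix.cons_val',
      Matrix.cons_val_zero, Matrix.cons_val_one, Matrix.cons_val, norm_zero, norm_neg] <;>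
    first | exact a3 | exact a1 | exact a2

theorem tendsto_rho {e : ℂ} (he : e ∈ Om) (θ : ℝ) :
    Tendsto (fun e' => rho e' θ) (𝓝 e) (𝓝 (rho e θ)) := by
  unfold rho
  exact Tendsto.inv₀ (Continuous.tendsto (by fun_prop) e) (he θ)

theorem tendsto_Qs (s : ℝ) {e : ℂ} (he : e ∈ Om) (θ : ℝ) (i j : Fin 4) :
    Tendsto (fun e' => Qs s e e' θ i j) (𝓝 e) (𝓝 (dBs s e θ i j)) := by
  rw [← Qs_self]
  have h := tendsto_rho he θ
  fin_cases i <;> fin_cases j <;>
    simp only [Qs, Fin.zero_eta, Fin.mk_one, Fin.reduceFinMk, Matrix.of_apply, Matrix.cons_val',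
      Matrix.cons_val_zero, Matrix.cons_val_one, Matrix.cons_val] <;>
    first
      | exact tendsto_const_nhds
      | exact ((h.mul_const _).const_mul _).neg

theorem tendsto_mul {α : Type*} {l : Filter α} {A B : α → Mat} {A0 B0 : Mat}
    (hA : ∀ i j, Tendsto (fun a => A a i j) l (𝓝 (A0 i j)))
    (hB : ∀ i j, Tendsto (fun a => B a i j) l (𝓝 (B0 i j))) (i j : Fin 4) :
    Tendsto (fun a => (A a * B a) i j) l (𝓝 ((A0 * B0) i j)) := by
  simp only [Matrix.mul_apply]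
  exact tendsto_finsetSum _ fun m _ => (hA i m).mul (hB m j)

theorem mul_bound {A B : Mat} {a b : ℝ} (ha : 0 ≤ a)
    (hA : ∀ i j, ‖A i j‖ ≤ a) (hB : ∀ i j, ‖B i j‖ ≤ b) (i j : Fin 4) :
    ‖(A * B) i j‖ ≤ 4 * (a * b) := by
  rw [Matrix.mul_apply]
  refine (norm_sum_le _ _).trans ?_
  have : ∀ m ∈ (Finset.univ : Finset (Fin 4)), ‖A i m * B m j‖ ≤ a * b := fun m _ => by
    rw [norm_mul]
    exact mul_le_mul (hA i m) (hB m j) (norm_nonneg _) ha
  refine (Finset.sum_le_sum this).trans ?_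
  rw [Finset.sum_const, Finset.card_univ, Fintype.card_fin, nsmul_eq_mul]
  push_cast
  linarith

theorem cofund_bound {A Y : ℝ → Mat} (hY : IsCofund A Y) :
    ∃ C > 0, ∀ θ ∈ Icc 0 (2 * π), ∀ i j, ‖Y θ i j‖ ≤ C := by
  have h : ∀ i j, ∃ C, ∀ θ ∈ Icc 0 (2 * π), ‖Y θ i j‖ ≤ C := fun i j =>
    (isCompact_Icc (a := (0:ℝ)) (b := 2 * π)).exists_bound_of_continuousOn
      (cont_cofund hY i j).continuousOn
  choose C hC using h
  refine ⟨1 + ∑ i, ∑ j, |C i j|, ?_, fun θ hθ i j => ?_⟩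
  · have : 0 ≤ ∑ i, ∑ j, |C i j| :=
      Finset.sum_nonneg fun i _ => Finset.sum_nonneg fun j _ => abs_nonneg _
    linarith
  · refine (hC i j θ hθ).trans ((le_abs_self _).trans ?_)
    have h1 : |C i j| ≤ ∑ j, |C i j| :=
      Finset.single_le_sum (f := fun j => |C i j|) (fun _ _ => abs_nonneg _) (Finset.mem_univ j)
    have h2 : ∑ j, |C i j| ≤ ∑ i, ∑ j, |C i j| :=
      Finset.single_le_sum (f := fun i => ∑ j, |C i j|)
        (fun _ _ => Finset.sum_nonneg fun _ _ => abs_nonneg _) (Finset.mem_univ i)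
    linarith

end OdeFAux

open OdeFAux

theorem hasDerivAt_monodromy (s : ℝ) (X Y : ℂ → ℝ → Mat) (hX : ∀ e ∈ Om, IsFund (Bs s e) (X e))
    (hY : ∀ e ∈ Om, IsCofund (Bs s e) (Y e)) {e : ℂ} (he : e ∈ Om) (i j : Fin 4) :
    HasDerivAt (fun e' => X e' (2 * π) i j)
      ((X e (2 * π) * Matrix.of fun k l =>
        ∫ θ in (0 : ℝ)..(2 * π), (Y e θ * dBs s e θ * X e θ) k l) i j) e := by
  obtain ⟨c, hc, R, hR, hnhd⟩ := exists_nhd he
  obtain ⟨CY, hCY, hYb⟩ := cofund_bound (hY e he)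
  have hπ : (0 : ℝ) ≤ 2 * π := by positivity
  have hRe : ∀ θ, ‖rho e θ‖ ≤ R := (hnhd e (by simpa using hc)).2
  set K : ℝ := 2 + (3 / 2 * (1 + |s|)) * R with hK
  have hK0 : 0 ≤ K := by positivity
  set CX : ℝ := Real.exp (4 * K * (2 * π)) with hCX
  have hCX0 : 0 < CX := Real.exp_pos _
  have hball : ∀ᶠ e' in 𝓝 e, ‖e' - e‖ < c := by
    have : Metric.ball e c ∈ 𝓝 e := Metric.ball_mem_nhds e hc
    filter_upwards [this] with e' h
    rwa [Metric.mem_ball, dist_eq_norm] at h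
  have hXb : ∀ e', ‖e' - e‖ < c → ∀ θ ∈ Icc 0 (2 * π), ∀ i j, ‖X e' θ i j‖ ≤ CX :=
    fun e' h θ hθ i j => fund_bound (hX e' (hnhd e' h).1) hK0
      (fun θ i j => Bs_bound s hR (hnhd e' h).2 θ i j) hθ.1 hθ.2 i j
  set KQ : ℝ := (3 / 2 * (1 + |s|)) * (R * R) with hKQ
  have hKQ0 : 0 ≤ KQ := by positivity
  set CI : ℝ := 4 * (4 * (CY * KQ) * CX) with hCI
  have hbound : ∀ e', ‖e' - e‖ < c → ∀ θ ∈ Icc 0 (2 * π), ∀ k l,
      ‖(Y e θ * Qs s e e' θ * X e' θ) k l‖ ≤ CI := fun e' h θ hθ k l =>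
    mul_bound (by positivity) (mul_bound hCY.le (hYb θ hθ)
      (Qs_bound s hR hRe (hnhd e' h).2 θ)) (hXb e' h θ hθ) k l
  have hcontI : ∀ e', ‖e' - e‖ < c → ∀ k l,
      Continuous fun θ => (Y e θ * Qs s e e' θ * X e' θ) k l := fun e' h k l =>
    cont_mul (cont_mul (cont_cofund (hY e he)) (continuous_Qs s he (hnhd e' h).1))
      (cont_fund (hX e' (hnhd e' h).1)) k l
  -- variation of constants
  have hvar : ∀ e', ‖e' - e‖ < c → ∀ θ, X e' θ - X e θ = (e' - e) • (X e θ * Matrix.of fun k l =>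
      ∫ t in (0 : ℝ)..θ, (Y e t * Qs s e e' t * X e' t) k l) := by
    intro e' h θ
    rw [sub_eq (continuous_Bs' s he) (continuous_Bs' s (hnhd e' h).1) (hX e he)
      (hX e' (hnhd e' h).1) (hY e he) θ, ← Matrix.mul_smul]
    congr 1
    ext k l
    rw [Matrix.of_apply, Matrix.smul_apply, Matrix.of_apply, smul_eq_mul,
      ← intervalIntegral.integral_const_mul]
    refine intervalIntegral.integral_congr fun t _ => ?_
    show (Y e t * (Bs s e' t - Bs s e t) * X e' t) k l = _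
    rw [Bs_sub s he (hnhd e' h).1, Matrix.mul_smul, Matrix.smul_mul, Matrix.smul_apply,
      smul_eq_mul]
  -- pointwise convergence
  have hconv : ∀ θ ∈ Icc 0 (2 * π), ∀ k l,
      Tendsto (fun e' => X e' θ k l) (𝓝 e) (𝓝 (X e θ k l)) := by
    intro θ hθ k l
    rw [tendsto_iff_norm_sub_tendsto_zero]
    have hb : ∀ m, ‖X e θ k m‖ ≤ CX := fun m => hXb e (by simpa using hc) θ hθ k m
    refine squeeze_zero' (g := fun e' => ‖e' - e‖ * (4 * (CX * (CI * (2 * π))))) ?_ ?_ ?_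
    · exact Eventually.of_forall fun _ => norm_nonneg _
    · filter_upwards [hball] with e' h
      have h1 := congrFun (congrFun (hvar e' h θ) k) l
      rw [Matrix.sub_apply] at h1
      rw [h1, Matrix.smul_apply, smul_eq_mul, norm_mul]
      refine mul_le_mul_of_nonneg_left ?_ (norm_nonneg _)
      refine mul_bound (A := X e θ) hCX0.le (hXb e (by simpa using hc) θ hθ) (fun k l => ?_) k l
      rw [Matrix.of_apply]
      refine (intervalIntegral.norm_integral_le_of_norm_le_const (C := CI) fun t ht => ?_).trans ?_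
      · rw [uIoc_of_le hθ.1] at ht
        exact hbound e' h t ⟨ht.1.le, ht.2.trans hθ.2⟩ k l
      · rw [sub_zero, abs_of_nonneg hθ.1]
        have hCI0 : 0 ≤ CI := by positivity
        exact mul_le_mul_of_nonneg_left hθ.2 hCI0
    · have : Tendsto (fun e' : ℂ => ‖e' - e‖) (𝓝 e) (𝓝 0) := by
        have := (continuous_id.sub continuous_const : Continuous fun e' : ℂ => e' - e).norm.tendsto e
        simpa using this
      simpa using this.mul_const (4 * (CX * (CI * (2 * π))))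
  -- conclusion
  have hmain : ∀ k l, Tendsto (fun e' => ∫ θ in (0 : ℝ)..(2 * π),
      (Y e θ * Qs s e e' θ * X e' θ) k l) (𝓝 e)
      (𝓝 (∫ θ in (0 : ℝ)..(2 * π), (Y e θ * dBs s e θ * X e θ) k l)) := by
    intro k l
    refine intervalIntegral.tendsto_integral_filter_of_dominated_convergence (fun _ => CI)
      ?_ ?_ ?_ ?_
    · filter_upwards [hball] with e' h
      exact (hcontI e' h k l).aestronglyMeasurable
    · filter_upwards [hball] with e' h
      refine Eventually.of_forall fun θ hθ => ?_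
      rw [uIoc_of_le hπ] at hθ
      exact hbound e' h θ ⟨hθ.1.le, hθ.2⟩ k l
    · exact intervalIntegrable_const
    · refine Eventually.of_forall fun θ hθ => ?_
      rw [uIoc_of_le hπ] at hθ
      have h1 : ∀ i j, Tendsto (fun e' => (Y e θ * Qs s e e' θ) i j) (𝓝 e)
          (𝓝 ((Y e θ * dBs s e θ) i j)) :=
        tendsto_mul (A := fun _ => Y e θ) (B := fun e' => Qs s e e' θ) (A0 := Y e θ)
          (B0 := dBs s e θ) (fun i j => tendsto_const_nhds) (tendsto_Qs s he θ)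
      exact tendsto_mul (A := fun e' => Y e θ * Qs s e e' θ) (B := fun e' => X e' θ)
        (A0 := Y e θ * dBs s e θ) (B0 := X e θ) h1 (hconv θ ⟨hθ.1.le, hθ.2⟩) k l
  rw [hasDerivAt_iff_tendsto_slope]
  have hfin : Tendsto (fun e' => (X e (2 * π) * Matrix.of fun k l =>
      ∫ t in (0 : ℝ)..(2 * π), (Y e t * Qs s e e' t * X e' t) k l) i j) (𝓝[≠] e)
      (𝓝 ((X e (2 * π) * Matrix.of fun k l =>
        ∫ θ in (0 : ℝ)..(2 * π), (Y e θ * dBs s e θ * X e θ) k l) i j)) := by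
    refine Tendsto.mono_left ?_ nhdsWithin_le_nhds
    have hB : ∀ k l, Tendsto (fun e' => (Matrix.of fun k l => ∫ t in (0 : ℝ)..(2 * π),
        (Y e t * Qs s e e' t * X e' t) k l : Mat) k l) (𝓝 e)
        (𝓝 ((Matrix.of fun k l =>
        ∫ θ in (0 : ℝ)..(2 * π), (Y e θ * dBs s e θ * X e θ) k l : Mat) k l)) := hmain
    exact tendsto_mul (A := fun _ => X e (2 * π)) (A0 := X e (2 * π))
      (B := fun e' => Matrix.of fun k l => ∫ t in (0 : ℝ)..(2 * π),
        (Y e t * Qs s e e' t * X e' t) k l)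
      (B0 := Matrix.of fun k l =>
        ∫ θ in (0 : ℝ)..(2 * π), (Y e θ * dBs s e θ * X e θ) k l)
      (fun i j => tendsto_const_nhds) hB i j
  refine hfin.congr' ?_
  filter_upwards [hball.filter_mono nhdsWithin_le_nhds, self_mem_nhdsWithin] with e' h hne
  have h1 := congrFun (congrFun (hvar e' h (2 * π)) i) j
  rw [Matrix.sub_apply, Matrix.smul_apply, smul_eq_mul] at h1
  rw [slope_def_field, h1, mul_comm (e' - e), mul_div_assoc, div_self, mul_one]
  exact sub_ne_zero.2 hne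

end Pool.Agent.MP_5027f4_ell
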