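import Pool.Agent.Lib_MP_5027f4_ell.OdeB
import Pool.Agent.Lib_MP_5027f4_ell.OdeC
import Pool.Agent.Lib_MP_5027f4_ell.OdeD
import Pool.Agent.Lib_MP_5027f4_ell.OdeE
import Pool.Agent.Lib_MP_5027f4_ell.OdeF
import Pool.Agent.Lib_MP_5027f4_ell.AsyF
import Pool.Agent.Lib_MP_5027f4_ell.AlgA
import Pool.Agent.Lib_MP_5027f4_ell.AlgB
import Pool.Agent.Lib_MP_5027f4_ell.AlgC
import Pool.Agent.Lib_MP_5027f4_ell.GenB

open Complex Set Filter Topology MeasureTheory Polynomial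
open scoped Real Matrix ComplexConjugate

namespace Pool.Agent.MP_5027f4_ell.GenCc

theorem finite_zeros (G : ℂ → ℂ) (hG : DifferentiableOn ℂ G Om) (h : ∃ e ∈ Om, G e ≠ 0)
    (δ : ℝ) (hδ : 0 < δ) : ({e : ℝ | G e = 0} ∩ Icc 0 (1 - δ)).Finite := by
  by_contra hinf
  have hinf' : ({e : ℝ | G e = 0} ∩ Icc 0 (1 - δ)).Infinite := hinf
  obtain ⟨x, hx, hacc⟩ := hinf'.exists_accPt_of_subset_isCompact isCompact_Icc inter_subset_right
  have hxOm : (x : ℂ) ∈ Om := ofReal_mem_Om (by linarith [hx.1]) (by linarith [hx.2])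
  have han : AnalyticOnNhd ℂ G Om := hG.analyticOnNhd isOpen_Om
  have hfreq : ∃ᶠ z in 𝓝[≠] (x : ℂ), G z = 0 := by
    rw [accPt_iff_frequently] at hacc
    rw [frequently_nhdsWithin_iff]
    have h1 : Tendsto (fun y : ℝ => (y : ℂ)) (𝓝 x) (𝓝 (x : ℂ)) :=
      continuous_ofReal.tendsto x
    refine h1.frequently (hacc.mono ?_)
    intro y hy
    refine ⟨hy.2.1, ?_⟩
    intro hyx
    exact hy.1 (ofReal_injective hyx)
  have hzero := han.eqOn_zero_of_preconnected_of_frequently_eq_zero isPreconnected_Om hxOm hfreq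
  obtain ⟨e, he, hne⟩ := h
  exact hne (hzero he)

section
variable {s : ℝ} {X Y : ℂ → ℝ → Mat}

/-- trace of the monodromy -/
noncomputable def Tr (X : ℂ → ℝ → Mat) (e : ℂ) : ℂ := (X e (2 * π)).trace

/-- `det (M - 1)` -/
noncomputable def Dt (X : ℂ → ℝ → Mat) (e : ℂ) : ℂ := (X e (2 * π) - 1).det

/-- the derivative matrix -/
noncomputable def DD (s : ℝ) (X Y : ℂ → ℝ → Mat) (e : ℂ) : Mat :=
  X e (2 * π) * Matrix.of fun k l =>
    ∫ θ in (0 : ℝ)..(2 * π), (Y e θ * dBs s e θ * X e θ) k l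

theorem hasDerivAt_Tr (hX : ∀ e ∈ Om, IsFund (Bs s e) (X e))
    (hY : ∀ e ∈ Om, IsCofund (Bs s e) (Y e)) {e : ℂ} (he : e ∈ Om) :
    HasDerivAt (Tr X) (DD s X Y e).trace e := by
  unfold Tr Matrix.trace
  apply HasDerivAt.fun_sum
  intro i _
  exact hasDerivAt_monodromy s X Y hX hY he i i

theorem diffOn_entry (hX : ∀ e ∈ Om, IsFund (Bs s e) (X e))
    (hY : ∀ e ∈ Om, IsCofund (Bs s e) (Y e)) (i j : Fin 4) :
    DifferentiableOn ℂ (fun e => X e (2 * π) i j) Om := fun e he =>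
  (hasDerivAt_monodromy s X Y hX hY he i j).differentiableAt.differentiableWithinAt

theorem diffOn_Tr (hX : ∀ e ∈ Om, IsFund (Bs s e) (X e))
    (hY : ∀ e ∈ Om, IsCofund (Bs s e) (Y e)) : DifferentiableOn ℂ (Tr X) Om := fun e he =>
  (hasDerivAt_Tr hX hY he).differentiableAt.differentiableWithinAt

theorem diffOn_Dt (hX : ∀ e ∈ Om, IsFund (Bs s e) (X e))
    (hY : ∀ e ∈ Om, IsCofund (Bs s e) (Y e)) : DifferentiableOn ℂ (Dt X) Om := by
  unfold Dt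
  simp only [Matrix.det_apply]
  apply DifferentiableOn.fun_sum
  intro σ _
  apply DifferentiableOn.const_smul
  apply DifferentiableOn.fun_finsetProd
  intro i _
  simp only [Matrix.sub_apply]
  exact (diffOn_entry hX hY _ _).sub_const _

theorem asym' (hX : ∀ e ∈ Om, IsFund (Bs s e) (X e)) :
    Tendsto (fun h : ℝ => (Tr X (I / (h : ℂ)) - 4) / (h : ℂ) ^ 3) (𝓝[>] 0)
      (𝓝 ((9 * π ^ 2 * (1 - s ^ 2) : ℝ) : ℂ)) ∧
    Tendsto (fun h : ℝ => Dt X (I / (h : ℂ)) / (h : ℂ) ^ 6) (𝓝[>] 0)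
      (𝓝 ((81 / 4 * π ^ 4 * (1 - s ^ 2) ^ 3 : ℝ) : ℂ)) :=
  asym s (fun h => X (I / (h : ℂ))) fun _ hh => hX _ (I_div_mem_Om hh)

theorem tendsto_pow (k : ℕ) (hk : k ≠ 0) :
    Tendsto (fun h : ℝ => (h : ℂ) ^ k) (𝓝[>] 0) (𝓝 0) := by
  have h1 : Continuous fun h : ℝ => (h : ℂ) ^ k := by fun_prop
  have h2 := (h1.tendsto 0).mono_left (nhdsWithin_le_nhds (s := Ioi (0 : ℝ)))
  simpa [hk] using h2

theorem div_mul_tendsto {F : ℝ → ℂ} {c : ℂ} (k : ℕ) (hk : k ≠ 0)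
    (h : Tendsto (fun h : ℝ => F h / (h : ℂ) ^ k) (𝓝[>] 0) (𝓝 c)) :
    Tendsto F (𝓝[>] 0) (𝓝 0) := by
  have h1 := h.mul (tendsto_pow k hk)
  rw [mul_zero] at h1
  refine h1.congr' ?_
  filter_upwards [self_mem_nhdsWithin] with x hx
  have hx' : (x : ℂ) ≠ 0 := by exact_mod_cast (ne_of_gt hx)
  field_simp

theorem exists_ne (G : ℂ → ℂ) (k : ℕ) (c : ℂ) (hc : c ≠ 0)
    (h : Tendsto (fun h : ℝ => G (I / (h : ℂ)) / (h : ℂ) ^ k) (𝓝[>] 0) (𝓝 c)) :
    ∃ e ∈ Om, G e ≠ 0 := by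
  by_contra hcon
  push Not at hcon
  apply hc
  refine tendsto_nhds_unique h (tendsto_const_nhds.congr' ?_)
  filter_upwards [self_mem_nhdsWithin] with x hx
  rw [hcon _ (I_div_mem_Om hx), zero_div]

theorem one_sub_sq_pos {s : ℝ} (hs0 : 0 < s) (hs1 : s < 1) : 0 < 1 - s ^ 2 := by nlinarith

theorem ne_G1 (hs0 : 0 < s) (hs1 : s < 1) (hX : ∀ e ∈ Om, IsFund (Bs s e) (X e)) :
    ∃ e ∈ Om, (fun e => Tr X e ^ 2 - 4 * (Dt X e - 4 + 2 * Tr X e)) e ≠ 0 := by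
  obtain ⟨h1, h2⟩ := asym' hX
  have hs := one_sub_sq_pos hs0 hs1
  refine exists_ne _ 6 ((81 * π ^ 4 * (1 - s ^ 2) ^ 2 * s ^ 2 : ℝ) : ℂ) ?_ ?_
  · have : 0 < 81 * π ^ 4 * (1 - s ^ 2) ^ 2 * s ^ 2 := by positivity
    exact_mod_cast this.ne'
  · have h3 := (h1.pow 2).sub (h2.const_mul 4)
    convert h3 using 1
    · funext h
      rcases eq_or_ne (h : ℂ) 0 with h0 | h0
      · simp [h0]
      · field_simp
        ring
    · congr 1
      push_cast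
      ring

theorem ne_G2 (hs0 : 0 < s) (hs1 : s < 1) (hX : ∀ e ∈ Om, IsFund (Bs s e) (X e)) :
    ∃ e ∈ Om, Dt X e ≠ 0 := by
  obtain ⟨h1, h2⟩ := asym' hX
  have hs := one_sub_sq_pos hs0 hs1
  refine exists_ne _ 6 _ ?_ h2
  have : 0 < 81 / 4 * π ^ 4 * (1 - s ^ 2) ^ 3 := by positivity
  exact_mod_cast this.ne'

theorem Tr_tendsto (hX : ∀ e ∈ Om, IsFund (Bs s e) (X e)) :
    Tendsto (fun h : ℝ => Tr X (I / (h : ℂ))) (𝓝[>] 0) (𝓝 4) := by
  have h1 := (div_mul_tendsto 3 (by norm_num) (asym' hX).1).add_const (4 : ℂ)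
  simpa using h1

theorem Dt_tendsto (hX : ∀ e ∈ Om, IsFund (Bs s e) (X e)) :
    Tendsto (fun h : ℝ => Dt X (I / (h : ℂ))) (𝓝[>] 0) (𝓝 0) :=
  div_mul_tendsto 6 (by norm_num) (asym' hX).2

theorem ne_G3 (hX : ∀ e ∈ Om, IsFund (Bs s e) (X e)) :
    ∃ e ∈ Om, (fun e => 4 + 2 * Tr X e + (Dt X e - 4 + 2 * Tr X e)) e ≠ 0 := by
  refine exists_ne _ 0 16 (by norm_num) ?_
  have h1 := ((Tr_tendsto hX).const_mul 4).add (Dt_tendsto hX)
  convert h1 using 1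
  · funext h
    simp
    ring
  · norm_num

theorem ne_G4 (hX : ∀ e ∈ Om, IsFund (Bs s e) (X e)) :
    ∃ e ∈ Om, (fun e => 1 + Tr X e + (Dt X e - 4 + 2 * Tr X e)) e ≠ 0 := by
  refine exists_ne _ 0 9 (by norm_num) ?_
  have h1 := (((Tr_tendsto hX).const_mul 3).add (Dt_tendsto hX)).sub_const 3
  convert h1 using 1
  · funext h
    simp
    ring
  · norm_num

theorem ne_G5 (hs0 : 0 < s) (hs1 : s < 1) (hX : ∀ e ∈ Om, IsFund (Bs s e) (X e)) :
    ∃ e ∈ Om, (fun e => Rpol (Tr X e) (Dt X e - 4 + 2 * Tr X e)) e ≠ 0 := by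
  by_cases hs35 : s = 3 / 5
  · subst hs35
    have h0 : (0 : ℂ) ∈ Om := by
      have := ofReal_mem_Om (e := 0) (by norm_num) (by norm_num)
      simpa using this
    exact ⟨0, h0, special (X 0) (hX 0 h0)⟩
  obtain ⟨h1, h2⟩ := asym' hX
  have hs := one_sub_sq_pos hs0 hs1
  refine exists_ne _ 6 ((81 * π ^ 4 * (1 - s ^ 2) ^ 2 * (25 / 4 * (1 - s ^ 2) - 4) : ℝ) : ℂ) ?_ ?_
  · have hne : 25 / 4 * (1 - s ^ 2) - 4 ≠ 0 := by
      intro h
      have h5 : (s - 3 / 5) * (s + 3 / 5) = 0 := by nlinarith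
      rcases mul_eq_zero.mp h5 with h6 | h6
      · exact hs35 (by linarith)
      · linarith
    have : 81 * π ^ 4 * (1 - s ^ 2) ^ 2 * (25 / 4 * (1 - s ^ 2) - 4) ≠ 0 := by
      refine mul_ne_zero ?_ hne
      positivity
    exact_mod_cast this
  · have hT := (div_mul_tendsto 3 (by norm_num) h1)
    have hD := Dt_tendsto hX
    have h3 := ((((h2.const_mul 25).sub ((h1.pow 2).const_mul 4)).sub ((h1.pow 2).mul hT)).add
      ((h2.mul hT).const_mul 7)).add (h2.mul hD)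
    convert h3 using 1
    · funext h
      rcases eq_or_ne (h : ℂ) 0 with h0 | h0
      · simp [h0]
      · unfold Rpol
        field_simp
        ring
    · congr 1
      push_cast
      ring

theorem ne_G6 (hs0 : 0 < s) (hs1 : s < 1) (hX : ∀ e ∈ Om, IsFund (Bs s e) (X e))
    (hY : ∀ e ∈ Om, IsCofund (Bs s e) (Y e)) : ∃ e ∈ Om, deriv (Tr X) e ≠ 0 := by
  by_contra hcon
  push Not at hcon
  have hconst : ∀ h : ℝ, 0 < h → Tr X (I / (h : ℂ)) = Tr X (I / ((1 : ℝ) : ℂ)) := fun h hh =>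
    isOpen_Om.is_const_of_deriv_eq_zero isPreconnected_Om (diffOn_Tr hX hY)
      (fun e he => hcon e he) (I_div_mem_Om hh) (I_div_mem_Om one_pos)
  have h4 : Tr X (I / ((1 : ℝ) : ℂ)) = 4 := by
    refine tendsto_nhds_unique (tendsto_const_nhds.congr' ?_) (Tr_tendsto hX)
    filter_upwards [self_mem_nhdsWithin] with x hx
    exact (hconst x hx).symm
  have h1 := (asym' hX).1
  have h5 : ((9 * π ^ 2 * (1 - s ^ 2) : ℝ) : ℂ) = 0 := by
    refine tendsto_nhds_unique h1 (tendsto_const_nhds.congr' ?_)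
    filter_upwards [self_mem_nhdsWithin] with x hx
    rw [hconst x hx, h4]
    simp
  have hs := one_sub_sq_pos hs0 hs1
  have : 0 < 9 * π ^ 2 * (1 - s ^ 2) := by positivity
  exact this.ne' (by exact_mod_cast h5)

end

end Pool.Agent.MP_5027f4_ell.GenCc

namespace Pool.Agent.MP_5027f4_ell

open GenCc

/-- There is a locally finite set of eccentricities outside which the monodromy has the generic
properties. -/
theorem generic (s : ℝ) (hs0 : 0 < s) (hs1 : s < 1) (X Y : ℂ → ℝ → Mat)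
    (hX : ∀ e ∈ Om, IsFund (Bs s e) (X e)) (hY : ∀ e ∈ Om, IsCofund (Bs s e) (Y e)) :
    ∃ D : Set ℝ, (∀ δ > 0, (D ∩ Icc 0 (1 - δ)).Finite) ∧ ∀ e : ℝ, 0 < e → e < 1 → e ∉ D →
      (∃ (a : Fin 4 → ℂ) (P Q : Mat), IsDiag (X e (2 * π)) a P Q ∧ ∃ i, 1 < ‖a i‖) ∨
      ∃ (a : Fin 4 → ℂ) (P Q : Mat), IsDiag (X e (2 * π)) a P Q ∧ RealStr a P Q ∧
        Function.Injective a ∧ (∀ i, ‖a i‖ = 1) ∧ (∀ i j k, a i * a j * a k ≠ 1) ∧
        (X e (2 * π) * Matrix.of fun k l =>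
          ∫ θ in (0 : ℝ)..(2 * π), (Y e θ * dBs s e θ * X e θ) k l).trace ≠ 0 := by
  have dT := diffOn_Tr hX hY
  have dD := diffOn_Dt hX hY
  refine ⟨{e : ℝ | (fun e => Tr X e ^ 2 - 4 * (Dt X e - 4 + 2 * Tr X e)) (e : ℂ) = 0} ∪
    {e : ℝ | Dt X e = 0} ∪
    {e : ℝ | (fun e => 4 + 2 * Tr X e + (Dt X e - 4 + 2 * Tr X e)) (e : ℂ) = 0} ∪
    {e : ℝ | (fun e => 1 + Tr X e + (Dt X e - 4 + 2 * Tr X e)) (e : ℂ) = 0} ∪
    {e : ℝ | (fun e => Rpol (Tr X e) (Dt X e - 4 + 2 * Tr X e)) (e : ℂ) = 0} ∪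
    {e : ℝ | deriv (Tr X) e = 0}, ?_, ?_⟩
  · intro δ hδ
    simp only [union_inter_distrib_right]
    refine (((((finite_zeros _ ?_ (ne_G1 hs0 hs1 hX) δ hδ).union
      (finite_zeros _ dD (ne_G2 hs0 hs1 hX) δ hδ)).union
      (finite_zeros _ ?_ (ne_G3 hX) δ hδ)).union
      (finite_zeros _ ?_ (ne_G4 hX) δ hδ)).union
      (finite_zeros _ ?_ (ne_G5 hs0 hs1 hX) δ hδ)).union
      (finite_zeros _ (dT.deriv isOpen_Om) (ne_G6 hs0 hs1 hX hY) δ hδ)
    · fun_prop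
    · fun_prop
    · fun_prop
    · unfold Rpol
      fun_prop
  · intro e he0 he1 hD
    simp only [mem_union, mem_setOf_eq, not_or] at hD
    obtain ⟨⟨⟨⟨⟨g1, g2⟩, g3⟩, g4⟩, g5⟩, g6⟩ := hD
    have heOm : (e : ℂ) ∈ Om := ofReal_mem_Om (by linarith) he1
    have hXe := hX e heOm
    have hYe := hY e heOm
    set M := X e (2 * π) with hM
    have hdet : M.det = 1 := det_fund hXe (Bs_trace s e) _
    have hsym := symp_fund hXe (2 * π)
    have hchar := charpoly_of_symp M hsym hdet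
    have hTr : Tr X e = M.trace := rfl
    have hDt : Dt X e = (M - 1).det := rfl
    rw [hTr, hDt] at g1 g3 g4 g5
    rw [hDt] at g2
    obtain ⟨a, hinj, hpoly, hprod, htrip⟩ := roots_generic M.trace ((M - 1).det - 4 + 2 * M.trace)
      g1 (by intro h; apply g2; rw [← h]; ring) g3 g4 g5
    have hchar2 : M.charpoly = ∏ i, (Polynomial.X - Polynomial.C (a i)) := by
      rw [hchar, ← hpoly]
      congr 4
      ring
    obtain ⟨P, Q, hdiag⟩ := exists_diag M a hinj hchar2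
    by_cases hone : ∀ i, ‖a i‖ = 1
    · right
      obtain ⟨a', P', Q', h1, h2, h3, h4, h5⟩ := exists_realStr M
        (fund_real hXe hYe (Bs_real s e) (2 * π)).1 a P Q hdiag hinj hone htrip
      refine ⟨a', P', Q', h1, h2, h3, h4, h5, ?_⟩
      have h6 := (hasDerivAt_Tr hX hY heOm).deriv
      rw [h6] at g6
      exact g6
    · left
      refine ⟨a, P, Q, hdiag, ?_⟩
      by_contra hle
      push Not at hle hone
      obtain ⟨i, hi⟩ := hone
      have hlt : ‖a i‖ < 1 := lt_of_le_of_ne (hle i) hi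
      have hn : ∏ i, ‖a i‖ = 1 := by
        rw [← norm_prod, hprod, norm_one]
      have : ∏ i, ‖a i‖ < 1 := by
        have h7 : ∀ i, 0 < ‖a i‖ := by
          intro j
          rcases (norm_nonneg (a j)).lt_or_eq with h8 | h8
          · exact h8
          · exfalso
            have : ∏ i, ‖a i‖ = 0 := Finset.prod_eq_zero (Finset.mem_univ j) h8.symm
            rw [hn] at this
            exact one_ne_zero this
        calc ∏ i, ‖a i‖ < ∏ _i : Fin 4, (1 : ℝ) :=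
              Finset.prod_lt_prod (fun j _ => h7 j) (fun j _ => hle j) ⟨i, Finset.mem_univ i, hlt⟩
          _ = 1 := by simp
      linarith

end Pool.Agent.MP_5027f4_ell
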