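import Pool.Agent.Lib_MP_5027f4_ell.Defs

open Complex Set Filter Topology MeasureTheory
open scoped Real Matrix ComplexConjugate Interval

namespace Pool.Agent.MP_5027f4_ell

section series

variable {E : Type*} [NormedAddCommGroup E] [NormedSpace ℝ E] [CompleteSpace E]

/-- The Picard iterates of a linear equation. -/
noncomputable def pic (L : ℝ → E →L[ℝ] E) (y0 : E) : ℕ → ℝ → E
  | 0 => fun _ => y0
  | k + 1 => fun t => ∫ s in (0 : ℝ)..t, L s (pic L y0 k s)

theorem pic_cont {L : ℝ → E →L[ℝ] E} (hL : Continuous L) (y0 : E) :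
    ∀ k, Continuous (pic L y0 k) := by
  intro k
  induction k with
  | zero => exact continuous_const
  | succ k ih =>
    have h : Continuous fun s => L s (pic L y0 k s) := hL.clm_apply ih
    rw [continuous_iff_continuousAt]
    intro t
    exact (h.integral_hasStrictDerivAt 0 t).hasDerivAt.continuousAt

theorem pic_deriv {L : ℝ → E →L[ℝ] E} (hL : Continuous L) (y0 : E) (k : ℕ) (t : ℝ) :
    HasDerivAt (pic L y0 (k + 1)) (L t (pic L y0 k t)) t := by
  have h : Continuous fun s => L s (pic L y0 k s) := hL.clm_apply (pic_cont hL y0 k)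
  exact (h.integral_hasStrictDerivAt 0 t).hasDerivAt

theorem pic_bound {L : ℝ → E →L[ℝ] E} (hL : Continuous L) (y0 : E) {N C : ℝ}
    (hC : ∀ s ∈ Icc (-N) N, ‖L s‖ ≤ C) (hC0 : 0 ≤ C) (k : ℕ) :
    ∀ t ∈ Icc (-N) N, ‖pic L y0 k t‖ ≤ ‖y0‖ * (C ^ k * |t| ^ k / k.factorial) := by
  induction k with
  | zero => intro t _; simp [pic]
  | succ k ih =>
    intro t ht
    have hcont : Continuous fun s => L s (pic L y0 k s) := hL.clm_apply (pic_cont hL y0 k)
    have h1 : ‖pic L y0 (k + 1) t‖ ≤ ∫ s in Ι (0 : ℝ) t, ‖L s (pic L y0 k s)‖ :=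
      intervalIntegral.norm_integral_le_integral_norm_uIoc
    have hmem : ∀ s ∈ Ι (0 : ℝ) t, s ∈ Icc (-N) N := by
      intro s hs
      rw [uIoc, mem_Ioc] at hs
      rw [mem_Icc] at ht ⊢
      rcases le_total 0 t with h | h
      · rw [min_eq_left h, max_eq_right h] at hs
        constructor <;> linarith
      · rw [min_eq_right h, max_eq_left h] at hs
        constructor <;> linarith
    have h2 : ∫ s in Ι (0 : ℝ) t, ‖L s (pic L y0 k s)‖ ≤
        ∫ s in Ι (0 : ℝ) t, (‖y0‖ * C ^ (k + 1) / k.factorial) * |s - 0| ^ k := by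
      apply setIntegral_mono_on
      · exact (hcont.norm.integrableOn_uIoc)
      · exact (Continuous.integrableOn_uIoc (by fun_prop))
      · exact measurableSet_uIoc
      · intro s hs
        have h3 := ih s (hmem s hs)
        calc ‖L s (pic L y0 k s)‖ ≤ ‖L s‖ * ‖pic L y0 k s‖ := (L s).le_opNorm _
          _ ≤ C * (‖y0‖ * (C ^ k * |s| ^ k / k.factorial)) := by
            gcongr
            exact hC s (hmem s hs)
          _ = (‖y0‖ * C ^ (k + 1) / k.factorial) * |s - 0| ^ k := by
            rw [sub_zero]
            ring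
    refine le_trans h1 (le_trans h2 (le_of_eq ?_))
    rw [integral_const_mul, integral_pow_abs_sub_uIoc, sub_zero, Nat.factorial_succ]
    have hk : ((k : ℝ) + 1) ≠ 0 := by positivity
    have hf : (k.factorial : ℝ) ≠ 0 := by positivity
    push_cast
    field_simp

/-- Global existence for linear equations with continuous coefficients. -/
theorem exists_linear_ode {L : ℝ → E →L[ℝ] E} (hL : Continuous L) (y0 : E) :
    ∃ y : ℝ → E, y 0 = y0 ∧ ∀ t, HasDerivAt y (L t (y t)) t := by
  refine ⟨fun t => ∑' k, pic L y0 k t, ?_, fun t => ?_⟩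
  · show ∑' k, pic L y0 k 0 = y0
    rw [tsum_eq_single 0]
    · rfl
    · intro k hk
      obtain ⟨j, rfl⟩ := Nat.exists_eq_succ_of_ne_zero hk
      show ∫ s in (0 : ℝ)..0, L s (pic L y0 j s) = 0
      simp
  · -- bounds on a compact interval
    set N : ℝ := |t| + 1 with hN
    have hN0 : 0 < N := by positivity
    obtain ⟨C, hC⟩ := isCompact_Icc.exists_bound_of_continuousOn
      (s := Icc (-N) N) (hL.norm.continuousOn)
    have hC' : ∀ s ∈ Icc (-N) N, ‖L s‖ ≤ max C 0 := fun s hs =>
      le_trans (by simpa using hC s hs) (le_max_left _ _)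
    set D := max C 0 with hD
    have hD0 : 0 ≤ D := le_max_right _ _
    have hb := pic_bound hL y0 hC' hD0
    have hsumm : Summable fun k : ℕ => ‖y0‖ * ((D * N) ^ k / k.factorial) :=
      (Real.summable_pow_div_factorial (D * N)).mul_left _
    have hb2 : ∀ k, ∀ s ∈ Ioo (-N) N, ‖pic L y0 k s‖ ≤ ‖y0‖ * ((D * N) ^ k / k.factorial) := by
      intro k s hs
      refine le_trans (hb k s (Ioo_subset_Icc_self hs)) ?_
      rw [← mul_pow]
      have : |s| ≤ N := abs_le.2 ⟨hs.1.le, hs.2.le⟩
      gcongr
    set g' : ℕ → ℝ → E := fun k s => match k with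
      | 0 => 0
      | j + 1 => L s (pic L y0 j s) with hg'
    set u : ℕ → ℝ := fun k => match k with
      | 0 => 0
      | j + 1 => D * (‖y0‖ * ((D * N) ^ j / j.factorial)) with hu
    have hsu : Summable u := by
      rw [← summable_nat_add_iff 1]
      exact hsumm.mul_left D
    have hder : HasDerivAt (fun z => ∑' k, pic L y0 k z) (∑' k, g' k t) t := by
      apply hasDerivAt_tsum_of_isPreconnected (g' := g') hsu isOpen_Ioo isPreconnected_Ioo
        (y₀ := t) (t := Ioo (-N) N)
      · intro k s _
        rcases k with _ | k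
        · exact hasDerivAt_const s y0
        · exact pic_deriv hL y0 k s
      · intro k s hs
        rcases k with _ | k
        · simp [hg', hu]
        · simp only [hg', hu]
          calc ‖L s (pic L y0 k s)‖ ≤ ‖L s‖ * ‖pic L y0 k s‖ := (L s).le_opNorm _
            _ ≤ D * (‖y0‖ * ((D * N) ^ k / k.factorial)) := by
              gcongr
              · exact hC' s (Ioo_subset_Icc_self hs)
              · exact hb2 k s hs
      · constructor
        · have := neg_abs_le t
          linarith
        · have := le_abs_self t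
          linarith
      · apply Summable.of_norm_bounded hsumm
        intro k
        apply hb2
        constructor
        · have := neg_abs_le t
          linarith
        · have := le_abs_self t
          linarith
      · constructor
        · have := neg_abs_le t
          linarith
        · have := le_abs_self t
          linarith
    have htmem : t ∈ Ioo (-N) N := by
      constructor
      · have := neg_abs_le t
        linarith
      · have := le_abs_self t
        linarith
    have hs1 : Summable fun k => pic L y0 k t :=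
      Summable.of_norm_bounded hsumm fun k => hb2 k t htmem
    have hs2 : Summable fun k => L t (pic L y0 k t) := hs1.mapL (L t)
    have heq : ∑' k, g' k t = L t (∑' k, pic L y0 k t) := by
      have h1 : Summable fun k => g' k t := by
        rw [← summable_nat_add_iff 1]
        exact hs2
      rw [h1.tsum_eq_zero_add, (L t).map_tsum hs1]
      simp only [hg', zero_add]
    rw [← heq]
    exact hder

end series

/-- The columns equation. -/
theorem exists_fund (A : ℝ → Mat) (hA : ∀ i j, Continuous fun θ => A θ i j) :
    ∃ X, IsFund A X := by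
  classical
  let Φ : Mat →ₗ[ℝ] ((Fin 4 → ℂ) →L[ℝ] (Fin 4 → ℂ)) :=
    { toFun := fun M => LinearMap.toContinuousLinearMap
        { toFun := fun v => M *ᵥ v
          map_add' := fun v w => Matrix.mulVec_add M v w
          map_smul' := fun c v => by
            simp only [RingHom.id_apply]
            exact Matrix.mulVec_smul M c v }
      map_add' := fun M M' => by
        ext v i
        simp [Matrix.add_mulVec]
      map_smul' := fun c M => by
        ext v i
        simp [Matrix.smul_mulVec] }
  have hΦ : Continuous Φ := LinearMap.continuous_of_finiteDimensional Φ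
  have hAc : Continuous A := continuous_matrix hA
  have hL : Continuous fun θ => Φ (A θ) := hΦ.comp hAc
  choose y hy0 hy using fun j : Fin 4 => exists_linear_ode hL (Pi.single j (1 : ℂ))
  refine ⟨fun θ => Matrix.of fun i j => y j θ i, ?_, ?_⟩
  · ext i j
    simp only [Matrix.of_apply, hy0]
    rw [Matrix.one_apply, Pi.single_apply]
  · intro θ i j
    have h1 := hy j θ
    rw [hasDerivAt_pi] at h1
    have h2 := h1 i
    exact h2

theorem exists_cofund (A : ℝ → Mat) (hA : ∀ i j, Continuous fun θ => A θ i j) :
    ∃ Y, IsCofund A Y := by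
  obtain ⟨X, hX0, hX⟩ := exists_fund (fun θ => -(A θ)ᵀ) (fun i j => (hA j i).neg)
  refine ⟨fun θ => (X θ)ᵀ, ?_, fun θ i j => ?_⟩
  · simp [hX0]
  · have h1 := hX θ j i
    have h2 : (-(A θ)ᵀ * X θ) j i = -(((X θ)ᵀ * A θ) i j) := by
      rw [Matrix.neg_mul, Matrix.neg_apply]
      congr 1
      rw [Matrix.mul_apply, Matrix.mul_apply]
      refine Finset.sum_congr rfl fun k _ => ?_
      rw [Matrix.transpose_apply, Matrix.transpose_apply, mul_comm]
    rw [← h2]
    exact h1

end Pool.Agent.MP_5027f4_ell
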