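import Pool.Agent.Lib_MP_5027f4_ell.Defs

/-!
# Coordinates along the triangle and the second mode
-/

open Complex Set Filter Topology MeasureTheory Polynomial
open scoped Real Matrix ComplexConjugate

namespace Pool.Agent.MP_5027f4_ell

open Pool.Agent.MP_5027f4_mp

theorem Mt_pos {m : Fin 3 → ℝ} (hm : ∀ a, 0 < m a) : 0 < Mt m := by
  have h0 := hm 0
  have h1 := hm 1
  have h2 := hm 2
  unfold Mt
  linarith

theorem sg_pos {m : Fin 3 → ℝ} (hm : ∀ a, 0 < m a) : 0 < sg m := by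
  have h0 := hm 0
  have h1 := hm 1
  have h2 := hm 2
  unfold sg
  positivity

theorem Nn_pos {m : Fin 3 → ℝ} (hm : ∀ a, 0 < m a) : 0 < Nn m :=
  div_pos (sg_pos hm) (Mt_pos hm)

theorem Tri.dc {m : Fin 3 → ℝ} {ω : ℂ} {S : Shape} {d : Fin 3 → ℂ} (h : Tri m ω S d) :
    ∑ a, (m a : ℂ) * (conj (d a) * cc m ω a) = 0 := by
  have h1 := congrArg (starRingEnd ℂ) h.cd
  rw [map_sum, map_zero] at h1
  rw [← h1]
  refine Finset.sum_congr rfl fun a _ => ?_
  rw [map_mul, map_mul, conj_ofReal, conj_conj]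
  ring

theorem coords_eq {m : Fin 3 → ℝ} (hm : ∀ a, 0 < m a) {ω : ℂ} {S : Shape} {d : Fin 3 → ℂ}
    (h : Tri m ω S d) (q : Fin 3 → ℂ) (hq : ∑ a, m a • q a = 0) (a : Fin 3) :
    q a = cc m ω a * coord m (cc m ω) q + d a * coord m d q := by
  have hM : (Mt m : ℂ) ≠ 0 := ofReal_ne_zero.mpr (Mt_pos hm).ne'
  have hN : (Nn m : ℂ) ≠ 0 := ofReal_ne_zero.mpr (Nn_pos hm).ne'
  set c := cc m ω with hc
  have hsc := h.sum_c
  have hsd := h.sum_d
  have hnc := h.nc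
  have hnd := h.nd
  have hcd := h.cd
  have hdc := h.dc
  have hsc' := congrArg (starRingEnd ℂ) hsc
  have hsd' := congrArg (starRingEnd ℂ) hsd
  rw [← hc] at hsc hnc hcd hdc hsc'
  simp only [Fin.sum_univ_three, map_add, map_mul, conj_ofReal, map_zero] at hsc hsd hnc hnd hcd hdc hsc' hsd'
  have hMt : (m 0 : ℂ) + m 1 + m 2 = Mt m := by
    unfold Mt
    push_cast
    ring
  let E : Matrix (Fin 3) (Fin 3) ℂ := !![1, c 0, d 0; 1, c 1, d 1; 1, c 2, d 2]
  let U : Matrix (Fin 3) (Fin 3) ℂ :=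
    !![(m 0 : ℂ) / Mt m, (m 1 : ℂ) / Mt m, (m 2 : ℂ) / Mt m;
      (m 0 : ℂ) * conj (c 0) / Nn m, (m 1 : ℂ) * conj (c 1) / Nn m, (m 2 : ℂ) * conj (c 2) / Nn m;
      (m 0 : ℂ) * conj (d 0) / Nn m, (m 1 : ℂ) * conj (d 1) / Nn m, (m 2 : ℂ) * conj (d 2) / Nn m]
  have hUE : U * E = 1 := by
    ext i j
    fin_cases i <;> fin_cases j <;>
      simp only [U, E, Matrix.mul_apply, Fin.sum_univ_three, Matrix.of_apply, Matrix.cons_val',
        Matrix.cons_val_zero, Matrix.cons_val_one, Matrix.cons_val, Matrix.one_apply,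
        Fin.mk_zero, Fin.mk_one, Fin.reduceFinMk, Fin.isValue, if_true, reduceIte, Fin.reduceEq,
        mul_one, zero_ne_one, one_ne_zero]
    · rw [← add_div, ← add_div, hMt, div_self hM]
    · field_simp
      linear_combination hsc
    · field_simp
      linear_combination hsd
    · field_simp
      linear_combination hsc'
    · field_simp
      linear_combination hnc
    · field_simp
      linear_combination hcd
    · field_simp
      linear_combination hsd'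
    · field_simp
      linear_combination hdc
    · field_simp
      linear_combination hnd
  have hEU : E * U = 1 := mul_eq_one_comm.mp hUE
  have hvec : q = E *ᵥ (U *ᵥ q) := by
    rw [Matrix.mulVec_mulVec, hEU, Matrix.one_mulVec]
  have hq' : (m 0 : ℂ) * q 0 + m 1 * q 1 + m 2 * q 2 = 0 := by
    rw [Fin.sum_univ_three] at hq
    simpa only [real_smul] using hq
  have hU0 : (U *ᵥ q) 0 = 0 := by
    simp only [U, Matrix.mulVec, dotProduct, Fin.sum_univ_three, Matrix.of_apply, Matrix.cons_val',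
        Matrix.cons_val_zero, Matrix.cons_val_one, Matrix.cons_val]
    field_simp
    linear_combination hq'
  have hU1 : (U *ᵥ q) 1 = coord m c q := by
    simp only [U, Matrix.mulVec, dotProduct, Fin.sum_univ_three, Matrix.of_apply, Matrix.cons_val',
        Matrix.cons_val_zero, Matrix.cons_val_one, Matrix.cons_val, coord]
    field_simp
  have hU2 : (U *ᵥ q) 2 = coord m d q := by
    simp only [U, Matrix.mulVec, dotProduct, Fin.sum_univ_three, Matrix.of_apply, Matrix.cons_val',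
        Matrix.cons_val_zero, Matrix.cons_val_one, Matrix.cons_val, coord]
    field_simp
  have h1 : q a = E a 0 * (U *ᵥ q) 0 + E a 1 * (U *ᵥ q) 1 + E a 2 * (U *ᵥ q) 2 := by
    conv_lhs => rw [hvec]
    rw [Matrix.mulVec, dotProduct, Fin.sum_univ_three]
  rw [h1, hU0, hU1, hU2, mul_zero, zero_add]
  fin_cases a <;> rfl

theorem coords_of {m : Fin 3 → ℝ} (hm : ∀ a, 0 < m a) {ω : ℂ} {S : Shape} {d : Fin 3 → ℂ}
    (h : Tri m ω S d) (z w : ℂ) :
    coord m (cc m ω) (fun a => cc m ω a * z + d a * w) = z ∧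
    coord m d (fun a => cc m ω a * z + d a * w) = w ∧
    ∑ a, m a • (cc m ω a * z + d a * w) = 0 := by
  have hN : (Nn m : ℂ) ≠ 0 := ofReal_ne_zero.mpr (Nn_pos hm).ne'
  refine ⟨?_, ?_, ?_⟩
  · rw [coord, div_eq_iff hN]
    calc ∑ a, (m a : ℂ) * (conj (cc m ω a) * (cc m ω a * z + d a * w))
        = (∑ a, (m a : ℂ) * (conj (cc m ω a) * cc m ω a)) * z +
          (∑ a, (m a : ℂ) * (conj (cc m ω a) * d a)) * w := by
          rw [Finset.sum_mul, Finset.sum_mul, ← Finset.sum_add_distrib]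
          exact Finset.sum_congr rfl fun a _ => by ring
      _ = z * Nn m := by rw [h.nc, h.cd]; ring
  · rw [coord, div_eq_iff hN]
    calc ∑ a, (m a : ℂ) * (conj (d a) * (cc m ω a * z + d a * w))
        = (∑ a, (m a : ℂ) * (conj (d a) * cc m ω a)) * z +
          (∑ a, (m a : ℂ) * (conj (d a) * d a)) * w := by
          rw [Finset.sum_mul, Finset.sum_mul, ← Finset.sum_add_distrib]
          exact Finset.sum_congr rfl fun a _ => by ring
      _ = w * Nn m := by rw [h.dc, h.nd]; ring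
  · calc ∑ a, m a • (cc m ω a * z + d a * w)
        = (∑ a, (m a : ℂ) * cc m ω a) * z + (∑ a, (m a : ℂ) * d a) * w := by
          rw [Finset.sum_mul, Finset.sum_mul, ← Finset.sum_add_distrib]
          exact Finset.sum_congr rfl fun a _ => by rw [real_smul]; ring
      _ = 0 := by rw [h.sum_c, h.sum_d]; ring

theorem norm_omega {ω : ℂ} (hω : ω ^ 2 + ω + 1 = 0) : ‖ω‖ = 1 := by
  have h3 : ω ^ 3 = 1 := by linear_combination (ω - 1) * hω
  have : ‖ω‖ ^ 3 = 1 := by rw [← norm_pow, h3, norm_one]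
  exact (pow_eq_one_iff_of_nonneg (norm_nonneg _) (by norm_num)).mp this

theorem cc_diff (m : Fin 3 → ℝ) {ω : ℂ} (hω : ω ^ 2 + ω + 1 = 0) :
    cc m ω 0 - cc m ω 1 = 1 ∧ cc m ω 1 - cc m ω 2 = ω ∧ cc m ω 2 - cc m ω 0 = ω ^ 2 := by
  refine ⟨?_, ?_, ?_⟩
  · simp [cc]
  · simp [cc]
  · simp only [cc, Matrix.cons_val_zero, Matrix.cons_val]
    linear_combination -hω

theorem pair_acc (m : Fin 3 → ℝ) (c q : Fin 3 → ℂ) :
    ∑ a, (m a : ℂ) * (conj (c a) * acc m q a) =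
      -((m 0 * m 1 : ℝ) * (conj (c 0 - c 1) * ((q 0 - q 1) / ((‖q 0 - q 1‖ ^ 3 : ℝ) : ℂ))) +
        (m 1 * m 2 : ℝ) * (conj (c 1 - c 2) * ((q 1 - q 2) / ((‖q 1 - q 2‖ ^ 3 : ℝ) : ℂ))) +
        (m 2 * m 0 : ℝ) * (conj (c 2 - c 0) * ((q 2 - q 0) / ((‖q 2 - q 0‖ ^ 3 : ℝ) : ℂ)))) := by
  have h : ∀ a, acc m q a = ∑ b, (m b / ‖q b - q a‖ ^ 3) • (q b - q a) := by
    intro a
    rw [acc, ← Finset.add_sum_erase _ _ (Finset.mem_univ a)]
    simp
  simp only [h, Fin.sum_univ_three, sub_self, smul_zero, add_zero, zero_add]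
  have e01 : ‖q 1 - q 0‖ = ‖q 0 - q 1‖ := norm_sub_rev _ _
  have e02 : ‖q 0 - q 2‖ = ‖q 2 - q 0‖ := norm_sub_rev _ _
  have e12 : ‖q 2 - q 1‖ = ‖q 1 - q 2‖ := norm_sub_rev _ _
  rw [e01, e02, e12]
  simp only [Complex.real_smul, map_sub]
  push_cast
  ring

theorem hf_pair {z w c δ x : ℂ} (hz : z ≠ 0) (hc : ‖c‖ = 1) (hx : x = c * z + δ * c * w) :
    conj c * (x / ((‖x‖ ^ 3 : ℝ) : ℂ)) = z / ((‖z‖ ^ 3 : ℝ) : ℂ) * hf (δ * (w / z)) := by
  have h1 : x = c * (z * (1 + δ * (w / z))) := by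
    rw [hx]
    field_simp
  have h2 : ‖x‖ = ‖z‖ * ‖1 + δ * (w / z)‖ := by
    rw [h1, norm_mul, norm_mul, hc, one_mul]
  have h3 : conj c * c = 1 := by
    rw [← normSq_eq_conj_mul_self, normSq_eq_norm_sq, hc]
    simp
  rw [h2, hf, h1]
  push_cast
  rw [mul_pow]
  have : conj c * (c * (z * (1 + δ * (w / z))) / ((‖z‖ : ℂ) ^ 3 * (‖1 + δ * (w / z)‖ : ℂ) ^ 3)) =
      (conj c * c) * (z / (‖z‖ : ℂ) ^ 3 * ((1 + δ * (w / z)) / (‖1 + δ * (w / z)‖ : ℂ) ^ 3)) := by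
    rw [mul_div_mul_comm]
    ring
  rw [this, h3, one_mul]

theorem coord_acc {m : Fin 3 → ℝ} (hm : ∀ a, 0 < m a) {ω : ℂ} (hω : ω ^ 2 + ω + 1 = 0)
    {S : Shape} {d : Fin 3 → ℂ} (h : Tri m ω S d) (z w : ℂ) (hz : z ≠ 0) :
    coord m (cc m ω) (acc m (fun a => cc m ω a * z + d a * w)) =
      z / ((‖z‖ ^ 3 : ℝ) : ℂ) * F1 S (w / z) ∧
    coord m d (acc m (fun a => cc m ω a * z + d a * w)) =
      z / ((‖z‖ ^ 3 : ℝ) : ℂ) * F2 S (w / z) := by
  have hN : (Nn m : ℂ) ≠ 0 := ofReal_ne_zero.mpr (Nn_pos hm).ne'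
  have hN' : Nn m ≠ 0 := (Nn_pos hm).ne'
  obtain ⟨hc0, hc1, hc2⟩ := cc_diff m hω
  have hω1 := norm_omega hω
  set c := cc m ω with hc
  have hd0 := h.d0
  have hd1 := h.d1
  have hd2 := h.d2
  rw [← hc] at hd0 hd1 hd2
  set q : Fin 3 → ℂ := fun a => c a * z + d a * w with hq
  have q0 : q 0 - q 1 = (c 0 - c 1) * z + S.δ 0 * (c 0 - c 1) * w := by
    rw [← hd0, hq]
    ring
  have q1 : q 1 - q 2 = (c 1 - c 2) * z + S.δ 1 * (c 1 - c 2) * w := by
    rw [← hd1, hq]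
    ring
  have q2 : q 2 - q 0 = (c 2 - c 0) * z + S.δ 2 * (c 2 - c 0) * w := by
    rw [← hd2, hq]
    ring
  have n0 : ‖c 0 - c 1‖ = 1 := by rw [hc0, norm_one]
  have n1 : ‖c 1 - c 2‖ = 1 := by rw [hc1, hω1]
  have n2 : ‖c 2 - c 0‖ = 1 := by rw [hc2, norm_pow, hω1, one_pow]
  have k0 := hf_pair hz n0 q0
  have k1 := hf_pair hz n1 q1
  have k2 := hf_pair hz n2 q2
  constructor
  · rw [coord, pair_acc, k0, k1, k2, F1, Fin.sum_univ_three, h.p0, h.p1, h.p2, div_eq_iff hN]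
    push_cast
    field_simp
  · rw [coord, pair_acc, hd0, hd1, hd2, map_mul, map_mul, map_mul, mul_assoc, mul_assoc, mul_assoc,
      k0, k1, k2, F2, Fin.sum_univ_three, h.p0, h.p1, h.p2, div_eq_iff hN]
    push_cast
    field_simp

end Pool.Agent.MP_5027f4_ell
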