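import Pool.Agent.Lib_MP_5027f4_ell.Defs

/-!
# An equilateral solution is homographic
-/

open Complex Set Filter Topology MeasureTheory
open scoped Real Matrix ComplexConjugate

namespace Pool.Agent.MP_5027f4_ell

open Pool.Agent.MP_5027f4_mp

/-- Two unit vectors whose sum is a unit vector. -/
theorem tbE_root {s : ℂ} (h1 : ‖s‖ = 1) (h2 : ‖1 + s‖ = 1) : s ^ 2 + s + 1 = 0 := by
  have e1 : s * conj s = 1 := by
    rw [Complex.mul_conj, Complex.normSq_eq_norm_sq, h1]; norm_num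
  have e2 : (1 + s) * conj (1 + s) = 1 := by
    rw [Complex.mul_conj, Complex.normSq_eq_norm_sq, h2]; norm_num
  rw [map_add, map_one] at e2
  have e3 : s + 1 + conj s = 0 := by linear_combination e2 - e1
  calc s ^ 2 + s + 1 = s ^ 2 + s + s * conj s := by rw [e1]
    _ = s * (s + 1 + conj s) := by ring
    _ = 0 := by rw [e3, mul_zero]

theorem tbE_norm {ω : ℂ} (hω : ω ^ 2 + ω + 1 = 0) : ‖ω‖ = 1 := by
  have h3 : ω ^ 3 = 1 := by linear_combination (ω - 1) * hω
  have h4 : ‖ω‖ ^ 3 = 1 := by rw [← norm_pow, h3, norm_one]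
  exact (pow_eq_one_iff_of_nonneg (norm_nonneg _) (by norm_num)).1 h4

/-- Coordinates of the triangle. -/
theorem tbE_coord {m : Fin 3 → ℝ} (hm : ∀ a, 0 < m a) {ω : ℂ} (hω : ω ^ 2 + ω + 1 = 0)
    {q : Fin 3 → ℂ} (hq : ∑ a, m a • q a = 0) (h12 : q 1 - q 2 = ω * (q 0 - q 1)) (a : Fin 3) :
    q a = cc m ω a * (q 0 - q 1) := by
  have hM : (Mt m : ℂ) ≠ 0 := by
    have : (0 : ℝ) < Mt m := by
      unfold Mt; have := hm 0; have := hm 1; have := hm 2; positivity
    exact_mod_cast this.ne'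
  simp only [Fin.sum_univ_three, Complex.real_smul] at hq
  have h0 : q 0 = ((m 1 : ℂ) - m 2 * ω ^ 2) / (Mt m : ℂ) * (q 0 - q 1) := by
    rw [div_mul_eq_mul_div, eq_div_iff hM]
    unfold Mt
    push_cast
    linear_combination hq + (m 2 : ℂ) * h12 + (m 2 : ℂ) * (q 0 - q 1) * hω
  fin_cases a
  · exact h0
  · show q 1 = (((m 1 : ℂ) - m 2 * ω ^ 2) / (Mt m : ℂ) - 1) * (q 0 - q 1)
    linear_combination h0
  · show q 2 = (((m 1 : ℂ) - m 2 * ω ^ 2) / (Mt m : ℂ) - 1 - ω) * (q 0 - q 1)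
    linear_combination h0 - h12

theorem tbE_acc {m : Fin 3 → ℝ} {q : Fin 3 → ℂ} (hq : ∑ a, m a • q a = 0) {r : ℝ}
    (hr : ∀ a b, a ≠ b → ‖q b - q a‖ = r) (a : Fin 3) :
    acc m q a = -(Mt m : ℂ) * q a / ((r ^ 3 : ℝ) : ℂ) := by
  simp only [Fin.sum_univ_three, Complex.real_smul] at hq
  have h : acc m q a = ∑ b, (m b / r ^ 3) • (q b - q a) := by
    rw [acc, ← Finset.add_sum_erase _ _ (Finset.mem_univ a), sub_self, smul_zero, zero_add]
    refine Finset.sum_congr rfl fun b hb => ?_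
    rw [hr a b (Finset.mem_erase.1 hb).1.symm]
  rw [h]
  simp only [Fin.sum_univ_three, Complex.real_smul]
  unfold Mt
  push_cast
  rw [div_eq_mul_inv, div_eq_mul_inv, div_eq_mul_inv, div_eq_mul_inv]
  linear_combination ((r : ℂ) ^ 3)⁻¹ * hq

theorem equilateral_rep (m : Fin 3 → ℝ) (hm : ∀ a, 0 < m a)
    (x : ℝ → (Fin 3 → ℂ) × (Fin 3 → ℂ)) (hx : IsSolution m univ x)
    (heq : ∀ t, ‖(x t).1 0 - (x t).1 1‖ = ‖(x t).1 1 - (x t).1 2‖ ∧
      ‖(x t).1 1 - (x t).1 2‖ = ‖(x t).1 2 - (x t).1 0‖) :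
    ∃ ω : ℂ, ω ^ 2 + ω + 1 = 0 ∧ ∃ z z1 : ℝ → ℂ, ∀ t, z t ≠ 0 ∧ HasDerivAt z (z1 t) t ∧
      HasDerivAt z1 (-(Mt m : ℂ) * z t / ((‖z t‖ ^ 3 : ℝ) : ℂ)) t ∧
      ∀ a, (x t).1 a = cc m ω a * z t ∧ (x t).2 a = cc m ω a * z1 t := by
  have hd : ∀ t, HasDerivAt x ((x t).2, acc m (x t).1) t := fun t => by
    have := (hx t (mem_univ t)).2
    rwa [hasDerivWithinAt_univ] at this
  have hq : ∀ t a, HasDerivAt (fun t => (x t).1 a) ((x t).2 a) t := fun t a => by
    have h1 := (hasDerivAt_pi.1 (hd t).fst) a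
    exact h1
  have hv : ∀ t a, HasDerivAt (fun t => (x t).2 a) (acc m (x t).1 a) t := fun t a => by
    have h1 := (hasDerivAt_pi.1 (hd t).snd) a
    exact h1
  have hne : ∀ t, (x t).1 0 - (x t).1 1 ≠ 0 := fun t =>
    sub_ne_zero.2 ((hx t (mem_univ t)).1.1 0 1 (by decide))
  have hne' : ∀ t, 0 < ‖(x t).1 0 - (x t).1 1‖ := fun t => norm_pos_iff.2 (hne t)
  set s : ℝ → ℂ := fun t => ((x t).1 1 - (x t).1 2) / ((x t).1 0 - (x t).1 1) with hs
  have hs1 : ∀ t, s t ^ 2 + s t + 1 = 0 := by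
    intro t
    apply tbE_root
    · simp only [hs]
      rw [norm_div, ← (heq t).1, div_self (hne' t).ne']
    · have : 1 + s t = -(((x t).1 2 - (x t).1 0) / ((x t).1 0 - (x t).1 1)) := by
        simp only [hs]
        have := hne t
        field_simp
        ring
      rw [this, norm_neg, norm_div, ← (heq t).2, ← (heq t).1, div_self (hne' t).ne']
  have hsd : ∀ t, HasDerivAt s 0 t := by
    intro t
    have h1 : ∃ s', HasDerivAt s s' t :=
      ⟨_, ((hq t 1).sub (hq t 2)).div ((hq t 0).sub (hq t 1)) (hne t)⟩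
    obtain ⟨s', hs'⟩ := h1
    have h2 : HasDerivAt (fun t => s t ^ 2 + s t + 1) (2 * s t * s' + s') t := by
      have := ((hs'.pow 2).add hs').add_const 1
      refine this.congr_deriv ?_
      simp
    have h3 : (fun t => s t ^ 2 + s t + 1) = fun _ => (0 : ℂ) := funext hs1
    rw [h3] at h2
    have h4 := h2.unique (hasDerivAt_const t (0 : ℂ))
    have h5 : (2 * s t + 1) * s' = 0 := by linear_combination h4
    have h6 : 2 * s t + 1 ≠ 0 := by
      intro h0
      have h7 := hs1 t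
      have h8 : s t = -1 / 2 := by linear_combination h0 / 2
      rw [h8] at h7
      norm_num at h7
    have h7 : s' = 0 := (mul_eq_zero.1 h5).resolve_left h6
    rw [h7] at hs'
    exact hs'
  have hconst : ∀ t, s t = s 0 := fun t =>
    is_const_of_deriv_eq_zero (fun t => (hsd t).differentiableAt) (fun t => (hsd t).deriv) t 0
  refine ⟨s 0, hs1 0, fun t => (x t).1 0 - (x t).1 1, fun t => (x t).2 0 - (x t).2 1, ?_⟩
  have hω := hs1 0
  have h12 : ∀ t, (x t).1 1 - (x t).1 2 = s 0 * ((x t).1 0 - (x t).1 1) := fun t => by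
    rw [← hconst t]
    simp only [hs]
    have := hne t
    field_simp
  have h12v : ∀ t, (x t).2 1 - (x t).2 2 = s 0 * ((x t).2 0 - (x t).2 1) := fun t => by
    have h1 : HasDerivAt (fun t => (x t).1 1 - (x t).1 2) ((x t).2 1 - (x t).2 2) t :=
      (hq t 1).sub (hq t 2)
    have h2 : HasDerivAt (fun t => s 0 * ((x t).1 0 - (x t).1 1))
        (s 0 * ((x t).2 0 - (x t).2 1)) t := ((hq t 0).sub (hq t 1)).const_mul _
    have h3 : (fun t => (x t).1 1 - (x t).1 2) = fun t => s 0 * ((x t).1 0 - (x t).1 1) :=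
      funext h12
    rw [h3] at h1
    exact h1.unique h2
  intro t
  refine ⟨hne t, (hq t 0).sub (hq t 1), ?_, fun a => ?_⟩
  · have hr : ∀ a b, a ≠ b → ‖(x t).1 b - (x t).1 a‖ = ‖(x t).1 0 - (x t).1 1‖ := by
      have e1 := (heq t).1
      have e2 := (heq t).2
      have n1 : ‖(x t).1 1 - (x t).1 0‖ = ‖(x t).1 0 - (x t).1 1‖ := norm_sub_rev _ _
      have n2 : ‖(x t).1 2 - (x t).1 1‖ = ‖(x t).1 1 - (x t).1 2‖ := norm_sub_rev _ _
      have n3 : ‖(x t).1 0 - (x t).1 2‖ = ‖(x t).1 2 - (x t).1 0‖ := norm_sub_rev _ _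
      intro a b hab
      fin_cases a <;> fin_cases b
      · exact absurd rfl hab
      · exact n1
      · exact e2.symm.trans e1.symm
      · rfl
      · exact absurd rfl hab
      · exact n2.trans e1.symm
      · exact n3.trans (e2.symm.trans e1.symm)
      · exact e1.symm
      · exact absurd rfl hab
    have h1 := (hv t 0).sub (hv t 1)
    refine h1.congr_deriv ?_
    rw [tbE_acc (hx t (mem_univ t)).1.2.1 hr, tbE_acc (hx t (mem_univ t)).1.2.1 hr]
    ring
  · exact ⟨tbE_coord hm hω (hx t (mem_univ t)).1.2.1 (h12 t) a,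
      tbE_coord hm hω (hx t (mem_univ t)).1.2.2 (h12v t) a⟩

end Pool.Agent.MP_5027f4_ell
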