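import Pool.Agent.Lib_MP_5027f4_ell.Defs

set_option autoImplicit false

open Complex Set Filter Topology MeasureTheory Polynomial
open scoped Real Matrix ComplexConjugate

namespace Pool.Agent.MP_5027f4_ell

/-- a function with vanishing derivative is constant -/
lemma const_of_hasDerivAt_zero {f : ℝ → ℂ} (h : ∀ t, HasDerivAt f 0 t) (x y : ℝ) : f x = f y :=
  is_const_of_deriv_eq_zero (fun t => (h t).differentiableAt) (fun t => (h t).deriv) x y

/-- product rule for matrices -/
lemma hasDerivAt_mat_mul {F G : ℝ → Mat} {F' G' : Mat} {θ : ℝ}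
    (hF : ∀ i j, HasDerivAt (fun t => F t i j) (F' i j) θ)
    (hG : ∀ i j, HasDerivAt (fun t => G t i j) (G' i j) θ) (i j : Fin 4) :
    HasDerivAt (fun t => (F t * G t) i j) ((F' * G θ + F θ * G') i j) θ := by
  have h : HasDerivAt (fun t => ∑ k, F t i k * G t k j)
      (∑ k, (F' i k * G θ k j + F θ i k * G' k j)) θ :=
    HasDerivAt.fun_sum fun k _ => (hF i k).mul (hG k j)
  simp only [Matrix.mul_apply, Matrix.add_apply]
  rw [← Finset.sum_add_distrib]
  exact h

/-- product rule, matrix times vector -/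
lemma hasDerivAt_mulVec {F : ℝ → Mat} {z : ℝ → Fin 4 → ℂ} {F' : Mat} {z' : Fin 4 → ℂ} {θ : ℝ}
    (hF : ∀ i j, HasDerivAt (fun t => F t i j) (F' i j) θ)
    (hz : ∀ i, HasDerivAt (fun t => z t i) (z' i) θ) (i : Fin 4) :
    HasDerivAt (fun t => (F t *ᵥ z t) i) ((F' *ᵥ z θ + F θ *ᵥ z') i) θ := by
  have h : HasDerivAt (fun t => ∑ k, F t i k * z t k)
      (∑ k, (F' i k * z θ k + F θ i k * z' k)) θ :=
    HasDerivAt.fun_sum fun k _ => (hF i k).mul (hz k)
  simp only [Matrix.mulVec, dotProduct, Pi.add_apply]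
  rw [← Finset.sum_add_distrib]
  exact h

/-- product rule, row vector times matrix -/
lemma hasDerivAt_vecMul {F : ℝ → Mat} {z : ℝ → Fin 4 → ℂ} {F' : Mat} {z' : Fin 4 → ℂ} {θ : ℝ}
    (hF : ∀ i j, HasDerivAt (fun t => F t i j) (F' i j) θ)
    (hz : ∀ i, HasDerivAt (fun t => z t i) (z' i) θ) (j : Fin 4) :
    HasDerivAt (fun t => (z t ᵥ* F t) j) ((z' ᵥ* F θ + z θ ᵥ* F') j) θ := by
  have h : HasDerivAt (fun t => ∑ k, z t k * F t k j)
      (∑ k, (z' k * F θ k j + z θ k * F' k j)) θ :=
    HasDerivAt.fun_sum fun k _ => (hz k).mul (hF k j)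
  simp only [Matrix.vecMul, dotProduct, Pi.add_apply]
  rw [← Finset.sum_add_distrib]
  exact h

theorem cofund_mul_fund {A X Y : ℝ → Mat} (hX : IsFund A X) (hY : IsCofund A Y) (θ : ℝ) :
    Y θ * X θ = 1 := by
  ext i j
  have h : ∀ t, HasDerivAt (fun t => (Y t * X t) i j) 0 t := by
    intro t
    have h1 := hasDerivAt_mat_mul (F := Y) (G := X) (F' := -(Y t * A t)) (G' := A t * X t)
      (fun i j => by
        have := hY.2 t i j
        simpa only [Matrix.neg_apply] using this) (fun i j => hX.2 t i j) i j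
    have h2 : -(Y t * A t) * X t + Y t * (A t * X t) = 0 := by
      rw [Matrix.neg_mul, Matrix.mul_assoc]
      simp
    rw [h2, Matrix.zero_apply] at h1
    exact h1
  have h0 := const_of_hasDerivAt_zero h θ 0
  rw [h0, hX.1, hY.1, Matrix.mul_one]

theorem fund_mul_cofund {A X Y : ℝ → Mat} (hX : IsFund A X) (hY : IsCofund A Y) (θ : ℝ) :
    X θ * Y θ = 1 := by
  have h := cofund_mul_fund hX hY θ
  exact mul_eq_one_comm.mp h

/-- Uniqueness: a vector solution is `X θ` times its initial value. -/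
theorem sol_eq {A X Y : ℝ → Mat} (hX : IsFund A X) (hY : IsCofund A Y) (z : ℝ → Fin 4 → ℂ)
    (hz : ∀ θ i, HasDerivAt (fun t => z t i) ((A θ *ᵥ z θ) i) θ) (θ : ℝ) :
    z θ = X θ *ᵥ z 0 := by
  have h : ∀ i, ∀ t, HasDerivAt (fun t => (Y t *ᵥ z t) i) 0 t := by
    intro i t
    have h1 := hasDerivAt_mulVec (F := Y) (z := z) (F' := -(Y t * A t)) (z' := A t *ᵥ z t)
      (fun i j => by
        have := hY.2 t i j
        simpa only [Matrix.neg_apply] using this) (fun i => hz t i) i
    have h2 : -(Y t * A t) *ᵥ z t + Y t *ᵥ (A t *ᵥ z t) = 0 := by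
      rw [Matrix.neg_mulVec, Matrix.mulVec_mulVec]
      simp
    rw [h2, Pi.zero_apply] at h1
    exact h1
  have h0 : Y θ *ᵥ z θ = z 0 := by
    ext i
    have := const_of_hasDerivAt_zero (h i) θ 0
    rw [this, hY.1, Matrix.one_mulVec]
  rw [← h0, Matrix.mulVec_mulVec, fund_mul_cofund hX hY, Matrix.one_mulVec]

/-- Uniqueness for row solutions of the adjoint equation. -/
theorem cosol_eq {A X Y : ℝ → Mat} (hX : IsFund A X) (hY : IsCofund A Y) (z : ℝ → Fin 4 → ℂ)
    (hz : ∀ θ i, HasDerivAt (fun t => z t i) (-((z θ ᵥ* A θ) i)) θ) (θ : ℝ) :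
    z θ = z 0 ᵥ* Y θ := by
  have h : ∀ i, ∀ t, HasDerivAt (fun t => (z t ᵥ* X t) i) 0 t := by
    intro i t
    have h1 := hasDerivAt_vecMul (F := X) (z := z) (F' := A t * X t) (z' := -(z t ᵥ* A t))
      (fun i j => hX.2 t i j) (fun i => by
        have := hz t i
        simpa only [Pi.neg_apply] using this) i
    have h2 : -(z t ᵥ* A t) ᵥ* X t + z t ᵥ* (A t * X t) = 0 := by
      rw [Matrix.neg_vecMul, Matrix.vecMul_vecMul]
      simp
    rw [h2, Pi.zero_apply] at h1
    exact h1
  have h0 : z θ ᵥ* X θ = z 0 := by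
    ext i
    have := const_of_hasDerivAt_zero (h i) θ 0
    rw [this, hX.1, Matrix.vecMul_one]
  rw [← h0, Matrix.vecMul_vecMul, fund_mul_cofund hX hY, Matrix.vecMul_one]

theorem fund_add {A X Y : ℝ → Mat} (hX : IsFund A X) (hY : IsCofund A Y)
    (hper : ∀ θ, A (θ + 2 * π) = A θ) (θ : ℝ) :
    X (θ + 2 * π) = X θ * X (2 * π) ∧ Y (θ + 2 * π) = Y (2 * π) * Y θ := by
  constructor
  · ext i j
    have h := sol_eq hX hY (fun t => fun k => X (t + 2 * π) k j) (fun t k => by
      have h1 := (hX.2 (t + 2 * π) k j).comp_add_const t (2 * π)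
      rw [hper] at h1
      exact h1) θ
    have h' := congrFun h i
    simp only [zero_add] at h'
    rw [h']
    rfl
  · ext i j
    have h := cosol_eq hX hY (fun t => fun k => Y (t + 2 * π) i k) (fun t k => by
      have h1 := (hY.2 (t + 2 * π) i k).comp_add_const t (2 * π)
      rw [hper] at h1
      exact h1) θ
    have h' := congrFun h j
    simp only [zero_add] at h'
    rw [h']
    rfl

lemma hasDerivAt_conj {f : ℝ → ℂ} {f' : ℂ} {t : ℝ} (h : HasDerivAt f f' t) :
    HasDerivAt (fun t => conj (f t)) (conj f') t := by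
  have := (Complex.conjCLE.toContinuousLinearMap.hasFDerivAt (x := f t)).comp_hasDerivAt t h
  exact this

theorem fund_real {A X Y : ℝ → Mat} (hX : IsFund A X) (hY : IsCofund A Y)
    (hr : ∀ θ, IsRealMat (A θ)) (θ : ℝ) : IsRealMat (X θ) ∧ IsRealMat (Y θ) := by
  constructor
  · intro i j
    have h := sol_eq hX hY (fun t => fun k => conj (X t k j)) (fun t k => by
      have h1 := hasDerivAt_conj (hX.2 t k j)
      have h2 : conj ((A t * X t) k j) = (A t *ᵥ fun k => conj (X t k j)) k := by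
        simp only [Matrix.mul_apply, Matrix.mulVec, dotProduct, map_sum, map_mul]
        refine Finset.sum_congr rfl fun l _ => ?_
        rw [hr t k l]
      rw [h2] at h1
      exact h1) θ
    have h' := congrFun h i
    rw [h']
    have h0 : (fun k => conj (X 0 k j)) = fun k => (1 : Mat) k j := by
      ext k
      rw [hX.1, Matrix.one_apply]
      split <;> simp
    rw [h0]
    have h3 : (X θ *ᵥ fun k => (1 : Mat) k j) i = (X θ * 1) i j := rfl
    rw [h3, Matrix.mul_one]
  · intro i j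
    have h := cosol_eq hX hY (fun t => fun k => conj (Y t i k)) (fun t k => by
      have h1 := hasDerivAt_conj (hY.2 t i k)
      have h2 : conj (-((Y t * A t) i k)) = -((fun k => conj (Y t i k)) ᵥ* A t) k := by
        simp only [Matrix.mul_apply, Matrix.vecMul, dotProduct, map_sum, map_mul, map_neg]
        congr 1
        refine Finset.sum_congr rfl fun l _ => ?_
        rw [hr t l k]
      rw [h2] at h1
      exact h1) θ
    have h' := congrFun h j
    rw [h']
    have h0 : (fun k => conj (Y 0 i k)) = fun k => (1 : Mat) i k := by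
      ext k
      rw [hY.1, Matrix.one_apply]
      split <;> simp
    rw [h0]
    have h3 : ((fun k => (1 : Mat) i k) ᵥ* Y θ) j = (1 * Y θ) i j := rfl
    rw [h3, Matrix.one_mul]

end Pool.Agent.MP_5027f4_ell
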