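import Pool.Agent.Lib_MP_5027f4_ell.Defs

/-!
# The eccentricity vector and the reduced equations
-/

open Complex Set Filter Topology MeasureTheory Polynomial
open scoped Real Matrix ComplexConjugate

namespace Pool.Agent.MP_5027f4_ell

open Pool.Agent.MP_5027f4_mp

theorem epsf_re (M : ℝ) (hM : 0 < M) (z z1 : ℂ) (hz : z ≠ 0) :
    (epsf M z z1).re = (Gz z z1 * z1.im - M * (z.re / ‖z‖)) / M ∧
    (epsf M z z1).im = (-(Gz z z1 * z1.re) - M * (z.im / ‖z‖)) / M := by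
  have hM' : (M : ℂ) ≠ 0 := ofReal_ne_zero.mpr hM.ne'
  have hr : ‖z‖ ≠ 0 := norm_ne_zero_iff.mpr hz
  have h : epsf M z z1 = (((Gz z z1 * z1.im - M * (z.re / ‖z‖)) / M : ℝ) : ℂ) +
      (((-(Gz z z1 * z1.re) - M * (z.im / ‖z‖)) / M : ℝ) : ℂ) * I := by
    have h1 : z = (z.re : ℂ) + (z.im : ℂ) * I := (re_add_im z).symm
    have h2 : z1 = (z1.re : ℂ) + (z1.im : ℂ) * I := (re_add_im z1).symm
    have hI : I * I = -1 := I_mul_I
    rw [epsf]
    conv_lhs => rw [show (-I * (Gz z z1 : ℂ) * z1 - M * (z / (‖z‖ : ℂ))) =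
      (-I * (Gz z z1 : ℂ) * ((z1.re : ℂ) + (z1.im : ℂ) * I) -
        M * (((z.re : ℂ) + (z.im : ℂ) * I) / (‖z‖ : ℂ))) by rw [← h1, ← h2]]
    push_cast
    field_simp
    linear_combination (-((Gz z z1 : ℂ) * z1.im)) * hI
  rw [h]
  constructor <;> simp

theorem Gz_eq (z z1 : ℂ) : Gz z z1 = z.re * z1.im - z.im * z1.re := by
  simp [Gz, mul_im]
  ring

theorem norm_sq_eq' (z : ℂ) : ‖z‖ ^ 2 = z.re ^ 2 + z.im ^ 2 := by
  rw [← normSq_eq_norm_sq, normSq_apply]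
  ring

theorem conj_mul_re (x z : ℂ) (r : ℝ) :
    (conj x * (z / (r : ℂ))).re = (x.re * z.re + x.im * z.im) / r := by
  rw [← mul_div_assoc, div_ofReal_re, mul_re, conj_re, conj_im]
  ring

theorem epsf_identity (M : ℝ) (hM : 0 < M) (z z1 : ℂ) (hz : z ≠ 0) :
    M * ‖z‖ * (1 + (conj (epsf M z z1) * (z / (‖z‖ : ℂ))).re) = Gz z z1 ^ 2 ∧
    ‖epsf M z z1‖ ^ 2 = 1 + 2 * Gz z z1 ^ 2 * (‖z1‖ ^ 2 / 2 - M / ‖z‖) / M ^ 2 := by
  obtain ⟨h1, h2⟩ := epsf_re M hM z z1 hz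
  have hr : 0 < ‖z‖ := norm_pos_iff.mpr hz
  have hr2 := norm_sq_eq' z
  have hr1 := norm_sq_eq' z1
  have hG := Gz_eq z z1
  constructor
  · rw [conj_mul_re, h1, h2]
    field_simp
    linear_combination (-(‖z‖ * Gz z z1)) * hG + M * hr2
  · rw [norm_sq_eq' (epsf M z z1), h1, h2]
    field_simp
    rw [hr1]
    linear_combination (-M ^ 2) * hr2 + (2 * M * ‖z‖ * Gz z z1) * hG

theorem hasDerivWithinAt_conj' {f : ℝ → ℂ} {f' : ℂ} {D : Set ℝ} {t : ℝ}
    (h : HasDerivWithinAt f f' D t) : HasDerivWithinAt (fun t => conj (f t)) (conj f') D t := by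
  have h1 := (conjCLE : ℂ →L[ℝ] ℂ).hasFDerivAt.comp_hasDerivWithinAt t h
  simpa [Function.comp_def] using h1

theorem hasDerivWithinAt_im' {f : ℝ → ℂ} {f' : ℂ} {D : Set ℝ} {t : ℝ}
    (h : HasDerivWithinAt f f' D t) : HasDerivWithinAt (fun t => (f t).im) f'.im D t := by
  have h1 := imCLM.hasFDerivAt.comp_hasDerivWithinAt t h
  simpa [Function.comp_def] using h1

theorem hasDerivWithinAt_re' {f : ℝ → ℂ} {f' : ℂ} {D : Set ℝ} {t : ℝ}
    (h : HasDerivWithinAt f f' D t) : HasDerivWithinAt (fun t => (f t).re) f'.re D t := by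
  have h1 := reCLM.hasFDerivAt.comp_hasDerivWithinAt t h
  simpa [Function.comp_def] using h1

theorem hasDerivWithinAt_norm' {f : ℝ → ℂ} {f' : ℂ} {D : Set ℝ} {t : ℝ}
    (h : HasDerivWithinAt f f' D t) (h0 : f t ≠ 0) :
    HasDerivWithinAt (fun t => ‖f t‖) ((conj (f t) * f').re / ‖f t‖) D t := by
  have h1 : HasDerivWithinAt (fun t => (f t).re ^ 2 + (f t).im ^ 2)
      (2 * (f t).re ^ 1 * f'.re + 2 * (f t).im ^ 1 * f'.im) D t := by
    exact_mod_cast ((hasDerivWithinAt_re' h).pow 2).add ((hasDerivWithinAt_im' h).pow 2)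
  have h2 : (f t).re ^ 2 + (f t).im ^ 2 ≠ 0 := by
    rw [← norm_sq_eq']
    exact pow_ne_zero _ (norm_ne_zero_iff.mpr h0)
  have h3 := h1.sqrt h2
  have h4 : ∀ s, ‖f s‖ = Real.sqrt ((f s).re ^ 2 + (f s).im ^ 2) := by
    intro s
    rw [← norm_sq_eq', Real.sqrt_sq (norm_nonneg _)]
  simp only [h4]
  convert h3 using 1
  rw [← h4 t]
  simp only [mul_re, conj_re, conj_im]
  have h5 : ‖f t‖ ≠ 0 := norm_ne_zero_iff.mpr h0
  field_simp
  ring

theorem red_deriv (S : Shape) (hM : 0 < S.M) (z z1 w w1 : ℝ → ℂ) (D : Set ℝ) (t : ℝ)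
    (hz : HasDerivWithinAt z (z1 t) D t)
    (hz1 : HasDerivWithinAt z1 (z t / ((‖z t‖ ^ 3 : ℝ) : ℂ) * F1 S (w t / z t)) D t)
    (hw : HasDerivWithinAt w (w1 t) D t)
    (hw1 : HasDerivWithinAt w1 (z t / ((‖z t‖ ^ 3 : ℝ) : ℂ) * F2 S (w t / z t)) D t)
    (h0 : z t ≠ 0) (hG : 0 < Gz (z t) (z1 t)) :
    HasDerivWithinAt (fun t => z t / (‖z t‖ : ℂ))
      ((kapf (z t) (z1 t) : ℂ) * (I * (z t / (‖z t‖ : ℂ)))) D t ∧
    HasDerivWithinAt (fun t => epsf S.M (z t) (z1 t))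
      ((kapf (z t) (z1 t) : ℂ) * (((phi S (w t / z t)).im : ℂ) *
        (epsf S.M (z t) (z1 t) + z t / (‖z t‖ : ℂ)) /
        ((1 + (conj (epsf S.M (z t) (z1 t)) * (z t / (‖z t‖ : ℂ))).re : ℝ) : ℂ) -
          I * (z t / (‖z t‖ : ℂ)) * phi S (w t / z t))) D t ∧
    HasDerivWithinAt (fun t => w t / z t)
      ((kapf (z t) (z1 t) : ℂ) * vf (z t) (z1 t) (w t) (w1 t)) D t ∧
    HasDerivWithinAt (fun t => vf (z t) (z1 t) (w t) (w1 t))
      ((kapf (z t) (z1 t) : ℂ) * (-2 * I * vf (z t) (z1 t) (w t) (w1 t) +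
        (chi S (w t / z t) - ((phi S (w t / z t)).im : ℂ) * vf (z t) (z1 t) (w t) (w1 t)) /
        ((1 + (conj (epsf S.M (z t) (z1 t)) * (z t / (‖z t‖ : ℂ))).re : ℝ) : ℂ))) D t := by
  have hr : 0 < ‖z t‖ := norm_pos_iff.mpr h0
  have hrC : (‖z t‖ : ℂ) ≠ 0 := ofReal_ne_zero.mpr hr.ne'
  have hMC : (S.M : ℂ) ≠ 0 := ofReal_ne_zero.mpr hM.ne'
  have hGC : (Gz (z t) (z1 t) : ℂ) ≠ 0 := ofReal_ne_zero.mpr hG.ne'
  have hid := (epsf_identity S.M hM (z t) (z1 t) h0).1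
  -- the denominator
  have hden : (1 + (conj (epsf S.M (z t) (z1 t)) * (z t / (‖z t‖ : ℂ))).re : ℝ) =
      Gz (z t) (z1 t) ^ 2 / (S.M * ‖z t‖) := by
    rw [eq_div_iff (by positivity), ← hid]
    ring
  -- derivative of the norm
  have dr : HasDerivWithinAt (fun t => (‖z t‖ : ℂ)) (((conj (z t) * z1 t).re / ‖z t‖ : ℝ) : ℂ) D t :=
    (hasDerivWithinAt_norm' hz h0).ofReal_comp
  -- key identity: conj z * z1 = Re + i G
  have hRG : conj (z t) * z1 t = ((conj (z t) * z1 t).re : ℂ) + (Gz (z t) (z1 t) : ℂ) * I := by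
    rw [Gz]
    exact (re_add_im _).symm
  have hzz : conj (z t) * z t = (‖z t‖ : ℂ) ^ 2 := by
    rw [← normSq_eq_conj_mul_self, normSq_eq_norm_sq]
    push_cast
    rfl
  set R : ℝ := (conj (z t) * z1 t).re with hR
  set G : ℝ := Gz (z t) (z1 t) with hGdef
  set r : ℝ := ‖z t‖ with hrdef
  have hz1' : z1 t = ((R : ℂ) + (G : ℂ) * I) * z t / (r : ℂ) ^ 2 := by
    rw [eq_div_iff (pow_ne_zero 2 hrC), ← hzz, ← hRG]
    ring
  -- derivative of G
  have dG : HasDerivWithinAt (fun t => Gz (z t) (z1 t)) (S.M * (phi S (w t / z t)).im / r) D t := by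
    refine HasDerivWithinAt.congr_deriv (f := fun t => Gz (z t) (z1 t))
      (hasDerivWithinAt_im' ((hasDerivWithinAt_conj' hz).mul hz1)) (Eq.symm ?_)
    have e1 : conj (z t) * (z t / ((r ^ 3 : ℝ) : ℂ) * F1 S (w t / z t)) =
        ((1 / r : ℝ) : ℂ) * F1 S (w t / z t) := by
      push_cast
      rw [← mul_assoc, ← mul_div_assoc, hzz]
      field_simp
    rw [e1, add_im, im_ofReal_mul, ← normSq_eq_conj_mul_self, ofReal_im, zero_add]
    have e2 : S.M * (phi S (w t / z t)).im = (F1 S (w t / z t)).im := by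
      rw [phi, div_ofReal_im, add_im, ofReal_im, add_zero]
      field_simp
    rw [e2]
    ring
  have dGC : HasDerivWithinAt (fun t => (Gz (z t) (z1 t) : ℂ))
      ((S.M * (phi S (w t / z t)).im / r : ℝ) : ℂ) D t := dG.ofReal_comp
  have hkap : kapf (z t) (z1 t) = G / r ^ 2 := rfl
  have hI : I * I = -1 := I_mul_I
  -- (1)
  have d1 : HasDerivWithinAt (fun t => z t / (‖z t‖ : ℂ))
      ((kapf (z t) (z1 t) : ℂ) * (I * (z t / (r : ℂ)))) D t := by
    refine HasDerivWithinAt.congr_deriv (f := fun t => z t / (‖z t‖ : ℂ)) (hz.div dr hrC) (Eq.symm ?_)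
    rw [hkap]
    simp only [← hrdef]
    conv_rhs => rw [hz1']
    push_cast
    field_simp
    ring
  have hF1 : F1 S (w t / z t) = S.M * phi S (w t / z t) - S.M := by
    rw [phi]
    field_simp
    ring
  have hF2 : F2 S (w t / z t) = S.M * chi S (w t / z t) + w t / z t * F1 S (w t / z t) := by
    rw [chi]
    field_simp
    ring
  refine ⟨d1, ?_, ?_, ?_⟩
  · refine HasDerivWithinAt.congr_deriv (f := fun t => epsf S.M (z t) (z1 t))
      ((((dGC.const_mul (-I)).mul hz1).sub (d1.const_mul (S.M : ℂ))).div_const (S.M : ℂ))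
      (Eq.symm ?_)
    rw [hden, hkap, hF1, epsf]
    simp only [← hrdef, ← hGdef]
    push_cast
    field_simp
    ring
  · refine HasDerivWithinAt.congr_deriv (f := fun t => w t / z t) (hw.div hz h0) (Eq.symm ?_)
    rw [vf, hkap]
    push_cast
    field_simp
  · have dk : HasDerivWithinAt (fun t => (kapf (z t) (z1 t) : ℂ))
        (((S.M * (phi S (w t / z t)).im / r : ℝ) : ℂ) / (r : ℂ) ^ 2 -
          2 * (G : ℂ) * ((R / r : ℝ) : ℂ) / (r : ℂ) ^ 3) D t := by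
      have h2 : (fun t => (kapf (z t) (z1 t) : ℂ)) = fun t =>
          (Gz (z t) (z1 t) : ℂ) / (‖z t‖ : ℂ) ^ 2 := by
        funext s
        rw [kapf]
        push_cast
        rfl
      rw [h2]
      refine HasDerivWithinAt.congr_deriv (f := fun t => (Gz (z t) (z1 t) : ℂ) / (‖z t‖ : ℂ) ^ 2)
        (dGC.div (dr.pow 2) (pow_ne_zero 2 hrC)) (Eq.symm ?_)
      simp only [← hrdef, ← hGdef]
      push_cast
      field_simp
    have hk0 : (kapf (z t) (z1 t) : ℂ) ≠ 0 := by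
      rw [hkap]
      push_cast
      exact div_ne_zero hGC (pow_ne_zero 2 hrC)
    refine HasDerivWithinAt.congr_deriv (f := fun t => vf (z t) (z1 t) (w t) (w1 t))
      ((((hw1.mul hz).sub (hw.mul hz1)).div (hz.pow 2) (pow_ne_zero 2 h0)).div dk hk0)
      (Eq.symm ?_)
    rw [hden, hF2, hF1, vf]
    simp only [hkap, Pi.mul_apply, Pi.sub_apply, Pi.pow_apply, Pi.div_apply]
    rw [hz1']
    push_cast
    field_simp
    ring

end Pool.Agent.MP_5027f4_ell
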