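import Pool.Agent.Lib_MP_5027f4_ell.Defs

/-!
# TbA: the second mode of the Lagrange triangle
-/

open Complex Set Filter Topology MeasureTheory
open scoped Real Matrix ComplexConjugate

namespace Pool.Agent.MP_5027f4_ell

theorem tbA_conj {ω : ℂ} (hω : ω ^ 2 + ω + 1 = 0) : conj ω = -1 - ω := by
  have h1 : (conj ω) ^ 2 + conj ω + 1 = 0 := by
    have := congrArg conj hω
    simpa using this
  have h2 : (ω - conj ω) * (ω + conj ω + 1) = 0 := by linear_combination hω - h1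
  rcases mul_eq_zero.1 h2 with h | h
  · exfalso
    have h3 : ((ω.re : ℝ) : ℂ) = ω := Complex.conj_eq_iff_re.1 (sub_eq_zero.1 h).symm
    rw [← h3] at hω
    have h4 : ω.re ^ 2 + ω.re + 1 = 0 := by exact_mod_cast hω
    nlinarith [sq_nonneg (ω.re + 1 / 2)]
  · linear_combination h

/-- The rotation making `k ^ 2 L` nonnegative. -/
theorem tbA_k (L : ℂ) (r : ℝ) :
    ∃ k : ℂ, conj k * k = ((r ^ 2 : ℝ) : ℂ) ∧ k ^ 2 * L = ((r ^ 2 * ‖L‖ : ℝ) : ℂ) := by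
  refine ⟨r * exp (-(arg L / 2 : ℝ) * I), ?_, ?_⟩
  · rw [Complex.conj_mul', norm_mul, norm_real]
    have h1 : ‖exp (-((arg L / 2 : ℝ) : ℂ) * I)‖ = 1 := by
      rw [← ofReal_neg, Complex.norm_exp_ofReal_mul_I]
    rw [h1, mul_one, ← ofReal_pow, Real.norm_eq_abs, sq_abs]
  · have h1 : L = ‖L‖ * exp (arg L * I) := (Complex.norm_mul_exp_arg_mul_I L).symm
    have h2 : (exp (-((arg L / 2 : ℝ) : ℂ) * I)) ^ 2 * exp (arg L * I) = 1 := by
      rw [← Complex.exp_nat_mul, ← Complex.exp_add]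
      rw [show ((2 : ℕ) : ℂ) * (-((arg L / 2 : ℝ) : ℂ) * I) + (arg L : ℂ) * I = 0 by
        push_cast
        ring]
      exact Complex.exp_zero
    calc (r * exp (-((arg L / 2 : ℝ) : ℂ) * I)) ^ 2 * L
        = (r * exp (-((arg L / 2 : ℝ) : ℂ) * I)) ^ 2 * (‖L‖ * exp (arg L * I)) := by
          rw [← h1]
      _ = r ^ 2 * ‖L‖ * ((exp (-((arg L / 2 : ℝ) : ℂ) * I)) ^ 2 * exp (arg L * I)) := by ring
      _ = ((r ^ 2 * ‖L‖ : ℝ) : ℂ) := by
          rw [h2]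
          push_cast
          ring

theorem tbA_normsq (δ : ℂ) : ((‖δ‖ ^ 2 : ℝ) : ℂ) = conj δ * δ := by
  rw [Complex.conj_mul']
  push_cast
  ring

theorem tbA_n1 {ω : ℂ} (hω : ω ^ 2 + ω + 1 = 0) (a b : ℝ) :
    conj ((a : ℂ) * ω ^ 2 - b * ω) * (a * ω ^ 2 - b * ω) = a ^ 2 + b ^ 2 + a * b := by
  simp only [map_sub, map_mul, map_pow, Complex.conj_ofReal, tbA_conj hω]
  linear_combination ((a : ℂ) ^ 2 * (ω ^ 2 + ω - 1) - b ^ 2 - a * b) * hω

theorem tbA_n2 {ω : ℂ} (hω : ω ^ 2 + ω + 1 = 0) (a b : ℝ) :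
    conj ((a : ℂ) - b * ω ^ 2) * (a - b * ω ^ 2) = a ^ 2 + b ^ 2 + a * b := by
  simp only [map_sub, map_mul, map_pow, Complex.conj_ofReal, tbA_conj hω]
  linear_combination ((b : ℂ) ^ 2 * (ω ^ 2 + ω - 1) - 2 * a * b) * hω

theorem tbA_n3 {ω : ℂ} (hω : ω ^ 2 + ω + 1 = 0) (a b : ℝ) :
    conj ((a : ℂ) * ω - b) * (a * ω - b) = a ^ 2 + b ^ 2 + a * b := by
  simp only [map_sub, map_mul, Complex.conj_ofReal, tbA_conj hω]
  linear_combination (-(a : ℂ) ^ 2) * hω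

theorem exists_shape (m : Fin 3 → ℝ) (hm : ∀ a, 0 < m a) (ω : ℂ) (hω : ω ^ 2 + ω + 1 = 0) :
    ∃ (S : Shape) (d : Fin 3 → ℂ), Tri m ω S d := by
  have hωc := tbA_conj hω
  have h0 := hm 0
  have h1 := hm 1
  have h2 := hm 2
  generalize hx : m 0 = x at *
  generalize hy : m 1 = y at *
  generalize hz : m 2 = z at *
  have hM : Mt m = x + y + z := by rw [← hx, ← hy, ← hz]; rfl
  have hsg : sg m = x * y + y * z + z * x := by rw [← hx, ← hy, ← hz]; rfl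
  have hMpos : 0 < Mt m := by rw [hM]; positivity
  have hsgpos : 0 < sg m := by rw [hsg]; positivity
  have hN : Nn m = sg m / Mt m := rfl
  have hNpos : 0 < Nn m := by rw [hN]; positivity
  obtain ⟨L, hL⟩ : ∃ L : ℂ, L = x * ω ^ 2 + y * ω + z := ⟨_, rfl⟩
  -- norm of L
  have hLn : ‖L‖ ^ 2 = Mt m ^ 2 - 3 * sg m := by
    have h4 : ((‖L‖ ^ 2 : ℝ) : ℂ) = ((Mt m ^ 2 - 3 * sg m : ℝ) : ℂ) := by
      rw [tbA_normsq, hM, hsg, hL]
      simp only [map_add, map_mul, map_pow, Complex.conj_ofReal, hωc]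
      push_cast
      linear_combination ((x : ℂ) ^ 2 * (ω ^ 2 + ω) - (x : ℂ) ^ 2 + x * y + 2 * x * z
        - (y : ℂ) ^ 2) * hω
    exact_mod_cast h4
  have hsm : ‖L‖ = Mt m * sm m := by
    have h5 : 1 - 3 * sg m / Mt m ^ 2 = (‖L‖ / Mt m) ^ 2 := by
      rw [div_pow, hLn]
      field_simp
    have h6 : sm m = ‖L‖ / Mt m := by
      unfold sm
      rw [h5]
      exact Real.sqrt_sq (by positivity)
    rw [h6]
    field_simp
  have hs1 : sm m < 1 := by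
    unfold sm
    rw [Real.sqrt_lt' one_pos]
    have : 0 < 3 * sg m / Mt m ^ 2 := by positivity
    linarith
  obtain ⟨P, hP⟩ : ∃ P : ℝ, P = x * y * z := ⟨_, rfl⟩
  have hPpos : 0 < P := by rw [hP]; positivity
  obtain ⟨r, hr⟩ : ∃ r : ℝ, r ^ 2 * (P * Mt m) = 1 := by
    refine ⟨(Real.sqrt (P * Mt m))⁻¹, ?_⟩
    rw [inv_pow, Real.sq_sqrt (by positivity), inv_mul_cancel₀ (by positivity)]
  obtain ⟨k, hk1, hk2⟩ := tbA_k L r
  have hMc : (Mt m : ℂ) ≠ 0 := by exact_mod_cast hMpos.ne'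
  have hsgc : (sg m : ℂ) ≠ 0 := by exact_mod_cast hsgpos.ne'
  have hNc : (Nn m : ℂ) ≠ 0 := by exact_mod_cast hNpos.ne'
  have hrc : (r : ℂ) ^ 2 * (P * Mt m) = 1 := by exact_mod_cast hr
  have hMc' : (Mt m : ℂ) = x + y + z := by rw [hM]; push_cast; ring
  have hsgc' : (sg m : ℂ) = x * y + y * z + z * x := by rw [hsg]; push_cast; ring
  have hPc : (P : ℂ) = x * y * z := by rw [hP]; push_cast; ring
  have hNc' : (Nn m : ℂ) * Mt m = sg m := by
    rw [hN]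
    push_cast
    field_simp
  have hkk : conj k * k * (P * Mt m) = 1 := by
    rw [hk1]
    push_cast
    exact hrc
  -- coordinates of the triangle
  obtain ⟨c, hc⟩ : ∃ c : ℂ, c = ((y : ℂ) - z * ω ^ 2) / (Mt m : ℂ) := ⟨_, rfl⟩
  have hcM : (Mt m : ℂ) * c = y - z * ω ^ 2 := by rw [hc]; field_simp
  have hcc0 : cc m ω 0 = c := by simp [cc, hy, hz, hc]
  have hcc1 : cc m ω 1 = c - 1 := by simp [cc, hy, hz, hc]
  have hcc2 : cc m ω 2 = c - 1 - ω := by simp [cc, hy, hz, hc]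
  have hcbar : (Mt m : ℂ) * conj c = y - z * (-1 - ω) ^ 2 := by
    have := congrArg conj hcM
    simpa [hωc] using this
  have hω1 : ω ^ 3 = 1 := by linear_combination (ω - 1) * hω
  refine ⟨⟨![x * y / Nn m, y * z / Nn m, z * x / Nn m],
    ![k * z * (y * ω ^ 2 - x * ω), k * x * (z - y * ω ^ 2), k * y * (x * ω - z)], Mt m, sm m⟩,
    ![k * (y * z) * ω ^ 2, k * (z * x) * ω, k * (x * y)], ?_⟩
  refine ⟨⟨hMpos, ?_, Real.sqrt_nonneg _, hs1, ?_, ?_, ?_, ?_⟩, rfl, rfl, ?_, ?_, ?_, ?_, ?_,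
    ?_, ?_, ?_, ?_, ?_, ?_⟩
  · intro i
    fin_cases i
    · show 0 < x * y / Nn m
      positivity
    · show 0 < y * z / Nn m
      positivity
    · show 0 < z * x / Nn m
      positivity
  · rw [Fin.sum_univ_three]
    show x * y / Nn m + y * z / Nn m + z * x / Nn m = Mt m
    rw [hN, hsg] at *
    field_simp
  · rw [Fin.sum_univ_three]
    show ((x * y / Nn m : ℝ) : ℂ) * (k * z * (y * ω ^ 2 - x * ω))
      + ((y * z / Nn m : ℝ) : ℂ) * (k * x * (z - y * ω ^ 2))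
      + ((z * x / Nn m : ℝ) : ℂ) * (k * y * (x * ω - z)) = 0
    push_cast
    field_simp
    ring
  · have e0 : ((‖k * z * (y * ω ^ 2 - x * ω)‖ ^ 2 : ℝ) : ℂ)
        = conj k * k * z ^ 2 * (y ^ 2 + x ^ 2 + y * x) := by
      rw [tbA_normsq, map_mul, map_mul, conj_ofReal]
      linear_combination (conj k * k * (z : ℂ) ^ 2) * tbA_n1 hω y x
    have e1 : ((‖k * x * (z - y * ω ^ 2)‖ ^ 2 : ℝ) : ℂ)
        = conj k * k * x ^ 2 * (z ^ 2 + y ^ 2 + z * y) := by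
      rw [tbA_normsq, map_mul, map_mul, conj_ofReal]
      linear_combination (conj k * k * (x : ℂ) ^ 2) * tbA_n2 hω z y
    have e2 : ((‖k * y * (x * ω - z)‖ ^ 2 : ℝ) : ℂ)
        = conj k * k * y ^ 2 * (x ^ 2 + z ^ 2 + x * z) := by
      rw [tbA_normsq, map_mul, map_mul, conj_ofReal]
      linear_combination (conj k * k * (y : ℂ) ^ 2) * tbA_n3 hω x z
    rw [Fin.sum_univ_three]
    show x * y / Nn m * ‖k * z * (y * ω ^ 2 - x * ω)‖ ^ 2
      + y * z / Nn m * ‖k * x * (z - y * ω ^ 2)‖ ^ 2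
      + z * x / Nn m * ‖k * y * (x * ω - z)‖ ^ 2 = Mt m
    have e3 : (((x * y / Nn m * ‖k * z * (y * ω ^ 2 - x * ω)‖ ^ 2
      + y * z / Nn m * ‖k * x * (z - y * ω ^ 2)‖ ^ 2
      + z * x / Nn m * ‖k * y * (x * ω - z)‖ ^ 2 : ℝ)) : ℂ) * Nn m = Mt m * Nn m := by
      rw [ofReal_add, ofReal_add, ofReal_mul, ofReal_mul (y * z / Nn m),
        ofReal_mul (z * x / Nn m), e0, e1, e2, mul_comm (Mt m : ℂ) (Nn m : ℂ), hNc']
      have e4 : (((x * y / Nn m : ℝ) : ℂ) * (conj k * k * z ^ 2 * (y ^ 2 + x ^ 2 + y * x))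
          + ((y * z / Nn m : ℝ) : ℂ) * (conj k * k * x ^ 2 * (z ^ 2 + y ^ 2 + z * y))
          + ((z * x / Nn m : ℝ) : ℂ) * (conj k * k * y ^ 2 * (x ^ 2 + z ^ 2 + x * z))) * Nn m
          = conj k * k * (P * Mt m) * sg m := by
        rw [hPc, hMc', hsgc']
        push_cast
        field_simp
        ring
      rw [e4, hkk, one_mul]
    exact_mod_cast mul_right_cancel₀ hNc e3
  · rw [Fin.sum_univ_three]
    show ((x * y / Nn m : ℝ) : ℂ) * (k * z * (y * ω ^ 2 - x * ω)) ^ 2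
      + ((y * z / Nn m : ℝ) : ℂ) * (k * x * (z - y * ω ^ 2)) ^ 2
      + ((z * x / Nn m : ℝ) : ℂ) * (k * y * (x * ω - z)) ^ 2 = ((Mt m : ℝ) : ℂ) * ((sm m : ℝ) : ℂ)
    have e3 : (((x * y / Nn m : ℝ) : ℂ) * (k * z * (y * ω ^ 2 - x * ω)) ^ 2
      + ((y * z / Nn m : ℝ) : ℂ) * (k * x * (z - y * ω ^ 2)) ^ 2
      + ((z * x / Nn m : ℝ) : ℂ) * (k * y * (x * ω - z)) ^ 2) * Nn m
      = k ^ 2 * L * (P * sg m) := by
      rw [hPc, hsgc', hL]
      push_cast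
      field_simp
      linear_combination k ^ 2 * (ω ^ 2 * x ^ 2 * y ^ 3 * z + ω ^ 2 * x * y ^ 3 * z ^ 2
        - ω * x ^ 2 * y ^ 3 * z - 2 * ω * x ^ 2 * y ^ 2 * z ^ 2 - ω * x * y ^ 3 * z ^ 2
        - (x : ℂ) ^ 2 * y ^ 2 * z ^ 2) * hω
    apply mul_right_cancel₀ hNc
    rw [e3, hk2, hsm]
    have e5 : ((r ^ 2 * (Mt m * sm m) : ℝ) : ℂ) * (P * sg m)
        = ((r : ℂ) ^ 2 * (P * Mt m)) * (sm m * sg m) := by
      push_cast
      ring
    rw [e5, hrc, ← hNc']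
    ring
  · rw [Fin.sum_univ_three, hcc0, hcc1, hcc2, hx, hy, hz]
    linear_combination hcM - c * hMc' - (z : ℂ) * hω + 0 * hω
  · rw [Fin.sum_univ_three, hx, hy, hz]
    show (x : ℂ) * (k * (y * z) * ω ^ 2) + (y : ℂ) * (k * (z * x) * ω)
      + (z : ℂ) * (k * (x * y)) = 0
    linear_combination (x * y * z * k) * hω
  · rw [Fin.sum_univ_three, hcc0, hcc1, hcc2, hx, hy, hz]
    simp only [map_sub, map_one, hωc]
    have e6 : (Mt m : ℂ) ^ 2 * (x * (conj c * c) + y * ((conj c - 1) * (c - 1))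
        + z * ((conj c - 1 - (-1 - ω)) * (c - 1 - ω)))
        = x * (Mt m * conj c) * (Mt m * c)
          + y * (Mt m * conj c - Mt m) * (Mt m * c - Mt m)
          + z * (Mt m * conj c + ω * Mt m) * (Mt m * c - Mt m - ω * Mt m) := by ring
    have e7 : (Mt m : ℂ) ^ 2 * (x * (conj c * c) + y * ((conj c - 1) * (c - 1))
        + z * ((conj c - 1 - (-1 - ω)) * (c - 1 - ω))) = (Mt m : ℂ) ^ 2 * Nn m := by
      rw [e6, hcM, hcbar, show (Mt m : ℂ) ^ 2 * Nn m = Mt m * sg m by rw [← hNc']; ring,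
        hMc', hsgc']
      linear_combination (ω ^ 2 * x * z ^ 2 + ω ^ 2 * y * z ^ 2 + ω ^ 2 * z ^ 3 + ω * x * z ^ 2
        + ω * y * z ^ 2 + ω * z ^ 3 - (x : ℂ) ^ 2 * z - 2 * x * y * z - (y : ℂ) ^ 2 * z
        + (z : ℂ) ^ 3) * hω
    exact mul_left_cancel₀ (pow_ne_zero 2 hMc) e7
  · rw [Fin.sum_univ_three, hx, hy, hz]
    show (x : ℂ) * (conj (k * (y * z) * ω ^ 2) * (k * (y * z) * ω ^ 2))
      + (y : ℂ) * (conj (k * (z * x) * ω) * (k * (z * x) * ω))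
      + (z : ℂ) * (conj (k * (x * y)) * (k * (x * y))) = (Nn m : ℂ)
    simp only [map_mul, map_pow, conj_ofReal, hωc]
    have e8 : (x : ℂ) * (conj k * (y * z) * (-1 - ω) ^ 2 * (k * (y * z) * ω ^ 2))
      + (y : ℂ) * (conj k * (z * x) * (-1 - ω) * (k * (z * x) * ω))
      + (z : ℂ) * (conj k * (x * y) * (k * (x * y))) = conj k * k * (P * sg m) := by
      rw [hPc, hsgc']
      linear_combination (ω ^ 2 * x * y ^ 2 * z ^ 2 * conj k * k
        + ω * x * y ^ 2 * z ^ 2 * conj k * k - (x : ℂ) ^ 2 * y * z ^ 2 * conj k * k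
        - (x : ℂ) * y ^ 2 * z ^ 2 * conj k * k) * hω
    rw [e8, ← hNc']
    linear_combination (Nn m : ℂ) * hkk
  · rw [Fin.sum_univ_three, hcc0, hcc1, hcc2, hx, hy, hz]
    show (x : ℂ) * (conj c * (k * (y * z) * ω ^ 2))
      + (y : ℂ) * (conj (c - 1) * (k * (z * x) * ω))
      + (z : ℂ) * (conj (c - 1 - ω) * (k * (x * y))) = 0
    simp only [map_sub, map_one, hωc]
    linear_combination (x * y * z * conj c * k) * hω
  · rw [hx, hy]; rfl
  · rw [hy, hz]; rfl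
  · rw [hz, hx]; rfl
  · show k * (y * z) * ω ^ 2 - k * (z * x) * ω
      = k * z * (y * ω ^ 2 - x * ω) * (cc m ω 0 - cc m ω 1)
    rw [hcc0, hcc1]
    ring
  · show k * (z * x) * ω - k * (x * y) = k * x * (z - y * ω ^ 2) * (cc m ω 1 - cc m ω 2)
    rw [hcc1, hcc2]
    linear_combination (k * x * y) * hω1
  · show k * (x * y) - k * (y * z) * ω ^ 2 = k * y * (x * ω - z) * (cc m ω 2 - cc m ω 0)
    rw [hcc2, hcc0]
    linear_combination (x * y * k - y * z * k) * hω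

end Pool.Agent.MP_5027f4_ell
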