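import Pool.Agent.Lib_MP_5027f4_ell.Defs

/-!
# AlgD: a real vector in the unstable eigenspace
-/

open Complex Set Filter Topology MeasureTheory Polynomial
open scoped Real Matrix ComplexConjugate

namespace Pool.Agent.MP_5027f4_ell

theorem exists_real_unstable (M : Mat) (hM : IsRealMat M) (a : Fin 4 → ℂ) (P Q : Mat)
    (hD : IsDiag M a P Q) (h : ∃ i, 1 < ‖a i‖) :
    ∃ y : Fin 4 → ℝ, (∀ j, ‖a j‖ ≤ 1 → (Q *ᵥ fun i => (y i : ℂ)) j = 0) ∧
      ∃ j, (Q *ᵥ fun i => (y i : ℂ)) j ≠ 0 := by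
  obtain ⟨i0, hi0⟩ := h
  have hQM : Q * M = Matrix.diagonal a * Q := by
    calc Q * M = Q * M * (P * Q) := by rw [hD.PQ, Matrix.mul_one]
      _ = Q * (M * P) * Q := by simp only [Matrix.mul_assoc]
      _ = Matrix.diagonal a * Q := by
        rw [hD.MP, ← Matrix.mul_assoc Q P, hD.QP, Matrix.one_mul]
  set v : Fin 4 → ℂ := fun k => P k i0 with hvdef
  set vb : Fin 4 → ℂ := fun k => conj (P k i0) with hvbdef
  have hMv : ∀ k, (M *ᵥ v) k = a i0 * v k := by
    intro k
    have := congrFun (congrFun hD.MP k) i0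
    rw [Matrix.mul_diagonal] at this
    rw [mul_comm]; exact this
  have hMvb : M *ᵥ vb = conj (a i0) • vb := by
    ext k
    have := congrArg (starRingEnd ℂ) (hMv k)
    rw [map_mul] at this
    simp only [Pi.smul_apply, smul_eq_mul]
    rw [← this]
    simp only [Matrix.mulVec, dotProduct, map_sum, map_mul, hM k _]
    rfl
  have hQv : ∀ j, j ≠ i0 → (Q *ᵥ v) j = 0 := by
    intro j hj
    have : (Q *ᵥ v) j = (Q * P) j i0 := rfl
    rw [this, hD.QP, Matrix.one_apply_ne hj]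
  have hQvb : ∀ j, (a j - conj (a i0)) * (Q *ᵥ vb) j = 0 := by
    intro j
    have h1 : Q *ᵥ (M *ᵥ vb) = Matrix.diagonal a *ᵥ (Q *ᵥ vb) := by
      rw [Matrix.mulVec_mulVec, hQM, Matrix.mulVec_mulVec]
    rw [hMvb, Matrix.mulVec_smul] at h1
    have h2 := congrFun h1 j
    rw [Matrix.mulVec_diagonal] at h2
    simp only [Pi.smul_apply, smul_eq_mul] at h2
    rw [sub_mul, h2, sub_self]
  have hz : ∀ j, ‖a j‖ ≤ 1 → (Q *ᵥ v) j = 0 ∧ (Q *ᵥ vb) j = 0 := by
    intro j hj
    refine ⟨hQv j ?_, ?_⟩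
    · rintro rfl; linarith
    · rcases mul_eq_zero.1 (hQvb j) with h | h
      · exfalso
        have : ‖a j‖ = ‖a i0‖ := by
          rw [sub_eq_zero.1 h, Complex.norm_conj]
        linarith
      · exact h
  have hre : (fun k => (((P k i0).re : ℝ) : ℂ)) = (1 / 2 : ℂ) • (v + vb) := by
    ext k
    simp only [hvdef, hvbdef, Pi.smul_apply, Pi.add_apply, smul_eq_mul, Complex.re_eq_add_conj]
    ring
  have him : (fun k => (((P k i0).im : ℝ) : ℂ)) = (1 / (2 * I) : ℂ) • (v - vb) := by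
    ext k
    simp only [hvdef, hvbdef, Pi.smul_apply, Pi.sub_apply, smul_eq_mul, Complex.im_eq_sub_conj]
    ring
  have hne : ∀ y : Fin 4 → ℂ, (∃ k, y k ≠ 0) → ∃ j, (Q *ᵥ y) j ≠ 0 := by
    rintro y ⟨k, hk⟩
    by_contra hcon
    push Not at hcon
    apply hk
    have : y = P *ᵥ (Q *ᵥ y) := by
      rw [Matrix.mulVec_mulVec, hD.PQ, Matrix.one_mulVec]
    rw [this]
    have h0 : Q *ᵥ y = 0 := funext hcon
    rw [h0, Matrix.mulVec_zero]; rfl
  by_cases hc : ∃ k, (P k i0).re ≠ 0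
  · refine ⟨fun k => (P k i0).re, ?_, ?_⟩
    · intro j hj
      rw [hre, Matrix.mulVec_smul, Matrix.mulVec_add, Pi.smul_apply, Pi.add_apply,
        (hz j hj).1, (hz j hj).2]
      simp
    · apply hne
      obtain ⟨k, hk⟩ := hc
      exact ⟨k, by exact_mod_cast hk⟩
  · push Not at hc
    have hc2 : ∃ k, (P k i0).im ≠ 0 := by
      by_contra hcon
      push Not at hcon
      have h1 : (Q * P) i0 i0 = 1 := by rw [hD.QP, Matrix.one_apply_eq]
      have h2 : (Q * P) i0 i0 = 0 := by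
        rw [Matrix.mul_apply]
        apply Finset.sum_eq_zero
        intro k _
        have : P k i0 = 0 := Complex.ext (hc k) (hcon k)
        rw [this, mul_zero]
      rw [h1] at h2
      exact one_ne_zero h2
    refine ⟨fun k => (P k i0).im, ?_, ?_⟩
    · intro j hj
      rw [him, Matrix.mulVec_smul, Matrix.mulVec_sub, Pi.smul_apply, Pi.sub_apply,
        (hz j hj).1, (hz j hj).2]
      simp
    · apply hne
      obtain ⟨k, hk⟩ := hc2
      exact ⟨k, by exact_mod_cast hk⟩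

end Pool.Agent.MP_5027f4_ell
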