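import Pool.Agent.Lib_MP_5027f4_ell.Defs

/-!
# Second order Dyson expansion of a fundamental matrix
-/

open Complex Set Filter Topology MeasureTheory
open scoped Real Matrix ComplexConjugate

namespace Pool.Agent.MP_5027f4_ell

/-- The integral operator of the linear equation `v' = A v`. -/
noncomputable def dyJ (A : ℝ → Mat) (v : ℝ → Fin 4 → ℂ) (t : ℝ) (i : Fin 4) : ℂ :=
  ∫ θ in (0 : ℝ)..t, ∑ k, A θ i k * v θ k

/-- The entry sum norm of the coefficient matrix. -/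
noncomputable def dyA (A : ℝ → Mat) (θ : ℝ) : ℝ := ∑ k, ∑ l, ‖A θ k l‖

lemma dyA_cont {A : ℝ → Mat} (hA : ∀ i j, Continuous fun θ => A θ i j) : Continuous (dyA A) := by
  unfold dyA
  exact continuous_finsetSum _ fun k _ => continuous_finsetSum _ fun l _ => (hA k l).norm

lemma dyA_nonneg (A : ℝ → Mat) (θ : ℝ) : 0 ≤ dyA A θ := by
  unfold dyA
  positivity

lemma dyAv_cont {A : ℝ → Mat} (hA : ∀ i j, Continuous fun θ => A θ i j) {v : ℝ → Fin 4 → ℂ}
    (hv : ∀ k, Continuous fun θ => v θ k) (i : Fin 4) :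
    Continuous fun θ => ∑ k, A θ i k * v θ k :=
  continuous_finsetSum _ fun k _ => (hA i k).mul (hv k)

lemma dyAv_le (A : ℝ → Mat) (v : Fin 4 → ℂ) {B : ℝ} (hB : ∀ k, ‖v k‖ ≤ B) (θ : ℝ) (i : Fin 4) :
    ‖∑ k, A θ i k * v k‖ ≤ dyA A θ * B := by
  have hB0 : 0 ≤ B := (norm_nonneg _).trans (hB 0)
  calc ‖∑ k, A θ i k * v k‖ ≤ ∑ k, ‖A θ i k * v k‖ := norm_sum_le _ _
    _ ≤ ∑ k, ‖A θ i k‖ * B := by
        refine Finset.sum_le_sum fun k _ => ?_
        rw [norm_mul]
        exact mul_le_mul_of_nonneg_left (hB k) (norm_nonneg _)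
    _ = (∑ k, ‖A θ i k‖) * B := by rw [Finset.sum_mul]
    _ ≤ dyA A θ * B := by
        refine mul_le_mul_of_nonneg_right ?_ hB0
        exact Finset.single_le_sum (f := fun k => ∑ l, ‖A θ k l‖)
          (fun k _ => Finset.sum_nonneg fun l _ => norm_nonneg _) (Finset.mem_univ i)

lemma dyJ_cont {A : ℝ → Mat} (hA : ∀ i j, Continuous fun θ => A θ i j) {v : ℝ → Fin 4 → ℂ}
    (hv : ∀ k, Continuous fun θ => v θ k) (i : Fin 4) :
    Continuous fun θ => dyJ A v θ i :=
  intervalIntegral.continuous_primitive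
    (fun a b => (dyAv_cont hA hv i).intervalIntegrable a b) 0

lemma dyJ_bound {A : ℝ → Mat} (hA : ∀ i j, Continuous fun θ => A θ i j) {v : ℝ → Fin 4 → ℂ}
    (hv : ∀ k, Continuous fun θ => v θ k) {T B : ℝ} (hB0 : 0 ≤ B)
    (hB : ∀ t ∈ Icc 0 T, ∀ k, ‖v t k‖ ≤ B) :
    ∀ t ∈ Icc 0 T, ∀ i, ‖dyJ A v t i‖ ≤ (∫ θ in (0 : ℝ)..T, dyA A θ) * B := by
  intro t ht i
  have hi1 : ∀ a b : ℝ, IntervalIntegrable (fun θ => dyA A θ) volume a b := fun a b =>
    (dyA_cont hA).intervalIntegrable a b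
  calc ‖dyJ A v t i‖ ≤ ∫ θ in (0 : ℝ)..t, ‖∑ k, A θ i k * v θ k‖ :=
        intervalIntegral.norm_integral_le_integral_norm ht.1
    _ ≤ ∫ θ in (0 : ℝ)..t, dyA A θ * B := by
        refine intervalIntegral.integral_mono_on ht.1
          ((dyAv_cont hA hv i).norm.intervalIntegrable _ _)
          (((dyA_cont hA).mul continuous_const).intervalIntegrable _ _) fun θ hθ => ?_
        exact dyAv_le A (v θ) (hB θ ⟨hθ.1, hθ.2.trans ht.2⟩) θ i
    _ = (∫ θ in (0 : ℝ)..t, dyA A θ) * B := by rw [intervalIntegral.integral_mul_const]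
    _ ≤ (∫ θ in (0 : ℝ)..T, dyA A θ) * B := by
        refine mul_le_mul_of_nonneg_right ?_ hB0
        refine intervalIntegral.integral_mono_interval le_rfl ht.1 ht.2 ?_ (hi1 0 T)
        exact Filter.Eventually.of_forall fun θ => dyA_nonneg A θ

/-- Gronwall bound for the columns of the fundamental matrix. -/
lemma dy_gronwall {A X : ℝ → Mat} (hA : ∀ i j, Continuous fun θ => A θ i j) (hX : IsFund A X)
    (j : Fin 4) {T : ℝ} : ∀ t ∈ Icc 0 T, ∀ k, ‖X t k j‖ ≤ Real.exp (∫ θ in (0 : ℝ)..T, dyA A θ) := by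
  have hXc : ∀ k, Continuous fun θ => X θ k j := fun k =>
    continuous_iff_continuousAt.mpr fun θ => (hX.2 θ k j).continuousAt
  -- the sup norm of the column
  set n : ℝ → ℝ := fun t => ‖fun k => X t k j‖ with hn
  have hnc : Continuous n := (continuous_pi fun k => hXc k).norm
  set u : ℝ → ℝ := fun t => 1 + ∫ θ in (0 : ℝ)..t, dyA A θ * n θ with hu
  have hac : Continuous fun θ => dyA A θ * n θ := (dyA_cont hA).mul hnc
  have hud : ∀ t, HasDerivAt u (dyA A t * n t) t := by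
    intro t
    exact (intervalIntegral.integral_hasDerivAt_right (hac.intervalIntegrable _ _)
      hac.aestronglyMeasurable.stronglyMeasurableAtFilter hac.continuousAt).const_add 1
  have hKd : ∀ t, HasDerivAt (fun t => ∫ θ in (0 : ℝ)..t, dyA A θ) (dyA A t) t := by
    intro t
    exact intervalIntegral.integral_hasDerivAt_right ((dyA_cont hA).intervalIntegrable _ _)
      (dyA_cont hA).aestronglyMeasurable.stronglyMeasurableAtFilter (dyA_cont hA).continuousAt
  have hnu : ∀ t, 0 ≤ t → n t ≤ u t := by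
    intro t ht
    have hu0 : 0 ≤ u t := by
      have : 0 ≤ ∫ θ in (0 : ℝ)..t, dyA A θ * n θ :=
        intervalIntegral.integral_nonneg ht fun θ _ => mul_nonneg (dyA_nonneg A θ) (norm_nonneg _)
      simp only [hu]
      linarith
    refine (pi_norm_le_iff_of_nonneg hu0).mpr fun k => ?_
    have hd : ∀ θ ∈ uIcc 0 t, HasDerivAt (fun s => X s k j) (∑ l, A θ k l * X θ l j) θ := by
      intro θ _
      have := hX.2 θ k j
      rwa [Matrix.mul_apply] at this
    have hi := intervalIntegral.integral_eq_sub_of_hasDerivAt hd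
      ((dyAv_cont hA (v := fun θ l => X θ l j) hXc k).intervalIntegrable _ _)
    have h0 : X 0 k j = (1 : Mat) k j := by rw [hX.1]
    have h1 : ‖(1 : Mat) k j‖ ≤ 1 := by
      rw [Matrix.one_apply]
      split <;> simp
    have h2 : X t k j = (1 : Mat) k j + ∫ θ in (0 : ℝ)..t, ∑ l, A θ k l * X θ l j := by
      rw [hi, h0]
      ring
    rw [h2]
    refine (norm_add_le _ _).trans (add_le_add h1 ?_)
    refine (intervalIntegral.norm_integral_le_integral_norm ht).trans ?_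
    refine intervalIntegral.integral_mono_on ht
      ((dyAv_cont hA (v := fun θ l => X θ l j) hXc k).norm.intervalIntegrable _ _)
      (hac.intervalIntegrable _ _) fun θ _ => ?_
    exact dyAv_le A (fun l => X θ l j) (fun l => norm_le_pi_norm (fun l => X θ l j) l) θ k
  have hanti : AntitoneOn (fun t => u t * Real.exp (-∫ θ in (0 : ℝ)..t, dyA A θ)) (Ici 0) := by
    have hD : ∀ t, HasDerivAt (fun t => u t * Real.exp (-∫ θ in (0 : ℝ)..t, dyA A θ))
        (dyA A t * n t * Real.exp (-∫ θ in (0 : ℝ)..t, dyA A θ) +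
          u t * (Real.exp (-∫ θ in (0 : ℝ)..t, dyA A θ) * -dyA A t)) t := fun t =>
      (hud t).mul (hKd t).neg.exp
    refine antitoneOn_of_deriv_nonpos (convex_Ici 0)
      (fun t _ => (hD t).continuousAt.continuousWithinAt)
      (fun t _ => (hD t).differentiableAt.differentiableWithinAt) fun t ht => ?_
    rw [interior_Ici] at ht
    rw [(hD t).deriv]
    have h1 := hnu t (le_of_lt ht)
    have h2 := dyA_nonneg A t
    have h3 := Real.exp_pos (-∫ θ in (0 : ℝ)..t, dyA A θ)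
    have h4 : dyA A t * n t * Real.exp (-∫ θ in (0 : ℝ)..t, dyA A θ) +
          u t * (Real.exp (-∫ θ in (0 : ℝ)..t, dyA A θ) * -dyA A t) =
        -(dyA A t * Real.exp (-∫ θ in (0 : ℝ)..t, dyA A θ) * (u t - n t)) := by ring
    rw [h4]
    have : 0 ≤ dyA A t * Real.exp (-∫ θ in (0 : ℝ)..t, dyA A θ) * (u t - n t) :=
      mul_nonneg (mul_nonneg h2 h3.le) (by linarith)
    linarith
  intro t ht k
  have h1 := hanti (show (0 : ℝ) ∈ Ici 0 from le_refl (0 : ℝ)) (show t ∈ Ici 0 from ht.1) ht.1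
  simp only [hu, intervalIntegral.integral_same, neg_zero, Real.exp_zero, add_zero, mul_one] at h1
  have h2 : u t ≤ Real.exp (∫ θ in (0 : ℝ)..t, dyA A θ) := by
    have h3 := Real.exp_pos (∫ θ in (0 : ℝ)..t, dyA A θ)
    have h4 : u t * Real.exp (-∫ θ in (0 : ℝ)..t, dyA A θ) ≤ 1 := h1
    rw [Real.exp_neg, ← div_eq_mul_inv, div_le_one h3] at h4
    exact h4
  have h5 : (∫ θ in (0 : ℝ)..t, dyA A θ) ≤ ∫ θ in (0 : ℝ)..T, dyA A θ := by
    refine intervalIntegral.integral_mono_interval le_rfl ht.1 ht.2 ?_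
      ((dyA_cont hA).intervalIntegrable _ _)
    exact Filter.Eventually.of_forall fun θ => dyA_nonneg A θ
  calc ‖X t k j‖ ≤ n t := norm_le_pi_norm (fun k => X t k j) k
    _ ≤ u t := hnu t ht.1
    _ ≤ Real.exp (∫ θ in (0 : ℝ)..t, dyA A θ) := h2
    _ ≤ _ := Real.exp_le_exp.mpr h5

lemma dyJ_add {A : ℝ → Mat} (hA : ∀ i j, Continuous fun θ => A θ i j) {v w : ℝ → Fin 4 → ℂ}
    (hv : ∀ k, Continuous fun θ => v θ k) (hw : ∀ k, Continuous fun θ => w θ k)
    (t : ℝ) (i : Fin 4) :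
    dyJ A (fun θ k => v θ k + w θ k) t i = dyJ A v t i + dyJ A w t i := by
  unfold dyJ
  rw [← intervalIntegral.integral_add ((dyAv_cont hA hv i).intervalIntegrable _ _)
    ((dyAv_cont hA hw i).intervalIntegrable _ _)]
  congr 1
  funext θ
  rw [← Finset.sum_add_distrib]
  exact Finset.sum_congr rfl fun k _ => mul_add _ _ _

theorem dyson_bound (A X : ℝ → Mat) (hA : ∀ i j, Continuous fun θ => A θ i j) (hX : IsFund A X)
    (i j : Fin 4) :
    ‖X (2 * π) i j - (1 : Mat) i j - (∫ θ in (0 : ℝ)..(2 * π), A θ i j) -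
      ∫ θ in (0 : ℝ)..(2 * π), ∑ k, A θ i k * ∫ t in (0 : ℝ)..θ, A t k j‖ ≤
      (∫ θ in (0 : ℝ)..(2 * π), ∑ k, ∑ l, ‖A θ k l‖) ^ 3 *
        Real.exp (∫ θ in (0 : ℝ)..(2 * π), ∑ k, ∑ l, ‖A θ k l‖) := by
  have hXc : ∀ k, Continuous fun θ => X θ k j := fun k =>
    continuous_iff_continuousAt.mpr fun θ => (hX.2 θ k j).continuousAt
  set x : ℝ → Fin 4 → ℂ := fun t k => X t k j with hx
  set o : ℝ → Fin 4 → ℂ := fun _ k => (1 : Mat) k j with ho
  have hxc : ∀ k, Continuous fun θ => x θ k := hXc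
  have hoc : ∀ k, Continuous fun θ => o θ k := fun k => continuous_const
  have hJx : ∀ k, Continuous fun θ => dyJ A x θ k := dyJ_cont hA hxc
  have hJJx : ∀ k, Continuous fun θ => dyJ A (dyJ A x) θ k := dyJ_cont hA hJx
  have hJo : ∀ k, Continuous fun θ => dyJ A o θ k := dyJ_cont hA hoc
  -- the integral equation
  have e1 : ∀ t k, x t k = o t k + dyJ A x t k := by
    intro t k
    have hd : ∀ θ ∈ uIcc 0 t, HasDerivAt (fun s => X s k j) (∑ l, A θ k l * X θ l j) θ := by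
      intro θ _
      have := hX.2 θ k j
      rwa [Matrix.mul_apply] at this
    have hi := intervalIntegral.integral_eq_sub_of_hasDerivAt hd
      ((dyAv_cont hA (v := fun θ l => X θ l j) hXc k).intervalIntegrable _ _)
    have h0 : X 0 k j = (1 : Mat) k j := by rw [hX.1]
    have hi' : dyJ A x t k = X t k j - X 0 k j := hi
    rw [hi', h0]
    simp only [hx, ho]
    ring
  have e1' : x = fun t k => o t k + dyJ A x t k := by
    funext t k
    exact e1 t k
  have e2 : ∀ t k, dyJ A x t k = dyJ A o t k + dyJ A (dyJ A x) t k := by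
    intro t k
    conv_lhs => rw [e1']
    exact dyJ_add hA hoc hJx t k
  have e2' : dyJ A x = fun t k => dyJ A o t k + dyJ A (dyJ A x) t k := by
    funext t k
    exact e2 t k
  have e3 : ∀ t k, dyJ A (dyJ A x) t k = dyJ A (dyJ A o) t k + dyJ A (dyJ A (dyJ A x)) t k := by
    intro t k
    conv_lhs => rw [e2']
    exact dyJ_add hA hJo hJJx t k
  have e4 : ∀ t k, dyJ A o t k = ∫ θ in (0 : ℝ)..t, A θ k j := by
    intro t k
    unfold dyJ
    congr 1
    funext θ
    simp [ho, Matrix.one_apply]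
  have hkey : X (2 * π) i j - (1 : Mat) i j - (∫ θ in (0 : ℝ)..(2 * π), A θ i j) -
      (∫ θ in (0 : ℝ)..(2 * π), ∑ k, A θ i k * ∫ t in (0 : ℝ)..θ, A t k j) =
      dyJ A (dyJ A (dyJ A x)) (2 * π) i := by
    have h1 : X (2 * π) i j = (1 : Mat) i j + dyJ A x (2 * π) i := e1 (2 * π) i
    have h2 : dyJ A (dyJ A o) (2 * π) i =
        ∫ θ in (0 : ℝ)..(2 * π), ∑ k, A θ i k * ∫ t in (0 : ℝ)..θ, A t k j := by
      show (∫ θ in (0 : ℝ)..(2 * π), ∑ k, A θ i k * dyJ A o θ k) = _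
      simp only [e4]
    rw [h1, e2 (2 * π) i, e3 (2 * π) i, e4 (2 * π) i, h2]
    ring
  rw [hkey]
  have hT : (0 : ℝ) ≤ 2 * π := by positivity
  have b0 := dy_gronwall hA hX j (T := 2 * π)
  have hK0 : 0 ≤ ∫ θ in (0 : ℝ)..(2 * π), dyA A θ :=
    intervalIntegral.integral_nonneg hT fun θ _ => dyA_nonneg A θ
  have b1 := dyJ_bound hA hxc (Real.exp_pos _).le b0
  have b2 := dyJ_bound hA hJx (by positivity) b1
  have b3 := dyJ_bound hA hJJx (by positivity) b2 (2 * π) ⟨hT, le_rfl⟩ i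
  refine b3.trans (le_of_eq ?_)
  show (∫ θ in (0 : ℝ)..(2 * π), dyA A θ) * ((∫ θ in (0 : ℝ)..(2 * π), dyA A θ) *
    ((∫ θ in (0 : ℝ)..(2 * π), dyA A θ) * Real.exp (∫ θ in (0 : ℝ)..(2 * π), dyA A θ))) =
    (∫ θ in (0 : ℝ)..(2 * π), dyA A θ) ^ 3 * Real.exp (∫ θ in (0 : ℝ)..(2 * π), dyA A θ)
  ring

end Pool.Agent.MP_5027f4_ell
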