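import Pool.Agent.Lib_MP_5027f4_mp.Basic

/-!
# Elliptic Lagrange orbits: definitions

Normal (non-homographic) linear dynamics along an elliptic Lagrange solution of eccentricity `e`
in the true anomaly `θ`:  `x'' - 2 y' = k₁ x / (1 + e cos θ)`, `y'' + 2 x' = k₂ y / (1 + e cos θ)`,
with `k₁ = 3 (1 + s) / 2`, `k₂ = 3 (1 - s) / 2`.
-/

open Complex Set Filter Topology MeasureTheory
open scoped Real Matrix ComplexConjugate

namespace Pool.Agent.MP_5027f4_ell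

/-- Four by four complex matrices. -/
abbrev Mat := Matrix (Fin 4) (Fin 4) ℂ

/-- `1 / (1 + e cos θ)` -/
noncomputable def rho (e : ℂ) (θ : ℝ) : ℂ := (1 + e * (Real.cos θ : ℂ))⁻¹

/-- The complex eccentricities for which the equation has no singularity (the plane cut along
the real rays `|e| ≥ 1`). -/
def Om : Set ℂ := {e | ∀ θ : ℝ, 1 + e * (Real.cos θ : ℂ) ≠ 0}

/-- The coefficient matrix of the normal linear system (unknowns `x, y, x', y'`). -/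
noncomputable def Bs (s : ℝ) (e : ℂ) (θ : ℝ) : Mat :=
  !![0, 0, 1, 0;
     0, 0, 0, 1;
     (3 / 2 * (1 + s) : ℝ) * rho e θ, 0, 0, 2;
     0, (3 / 2 * (1 - s) : ℝ) * rho e θ, -2, 0]

/-- The derivative of `Bs` with respect to `e`. -/
noncomputable def dBs (s : ℝ) (e : ℂ) (θ : ℝ) : Mat :=
  !![0, 0, 0, 0;
     0, 0, 0, 0;
     -((3 / 2 * (1 + s) : ℝ) * (Real.cos θ : ℂ) * rho e θ ^ 2), 0, 0, 0;
     0, -((3 / 2 * (1 - s) : ℝ) * (Real.cos θ : ℂ) * rho e θ ^ 2), 0, 0]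

/-- `X` is the fundamental matrix of `Y' = A Y` with `X 0 = 1` (entrywise derivatives). -/
def IsFund (A X : ℝ → Mat) : Prop :=
  X 0 = 1 ∧ ∀ θ i j, HasDerivAt (fun t => X t i j) ((A θ * X θ) i j) θ

/-- `Y` is the fundamental matrix of the adjoint equation `Y' = - Y A`, `Y 0 = 1` (it is the
inverse of the fundamental matrix of `A`). -/
def IsCofund (A Y : ℝ → Mat) : Prop :=
  Y 0 = 1 ∧ ∀ θ i j, HasDerivAt (fun t => Y t i j) (-((Y θ * A θ) i j)) θ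

/-- `M = P diag(a) P⁻¹` with `Q = P⁻¹`. -/
structure IsDiag (M : Mat) (a : Fin 4 → ℂ) (P Q : Mat) : Prop where
  PQ : P * Q = 1
  QP : Q * P = 1
  MP : M * P = P * Matrix.diagonal a

/-- The eigenbasis is compatible with complex conjugation: the indices `0, 1` and `2, 3` are
exchanged. -/
structure RealStr (a : Fin 4 → ℂ) (P Q : Mat) : Prop where
  a1 : a 1 = conj (a 0)
  a3 : a 3 = conj (a 2)
  P1 : ∀ i, P i 1 = conj (P i 0)
  P3 : ∀ i, P i 3 = conj (P i 2)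
  Q1 : ∀ i, Q 1 i = conj (Q 0 i)
  Q3 : ∀ i, Q 3 i = conj (Q 2 i)

/-- A matrix with real entries. -/
def IsRealMat (M : Mat) : Prop := ∀ i j, conj (M i j) = M i j

/-- The invariant bilinear form `W(y, Y) = yᵀ Wm Y` of the normal linear system. -/
def Wm : Mat := !![0, -2, 1, 0; 2, 0, 0, 1; -1, 0, 0, 0; 0, -1, 0, 0]

/-- The polynomial detecting third order resonances. -/
def Rpol (T p : ℂ) : ℂ :=
  p ^ 2 + 5 * p + 4 + 2 * T - T ^ 3 + 3 * T * p - 2 * T ^ 2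

/-- Coefficients of the quadratic form giving the precession rate of the pericentre. -/
noncomputable def qs (s e : ℝ) (θ : ℝ) : Mat :=
  !![((3 / 4 * (1 + 3 * s) * Real.cos θ / e : ℝ) : ℂ),
      ((3 / 2 * s * Real.sin θ * (2 + e * Real.cos θ) / (1 + e * Real.cos θ) / e : ℝ) : ℂ), 0, 0;
     ((3 / 2 * s * Real.sin θ * (2 + e * Real.cos θ) / (1 + e * Real.cos θ) / e : ℝ) : ℂ),
      ((3 / 4 * (1 - 3 * s) * Real.cos θ / e : ℝ) : ℂ), 0, 0;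
     0, 0, 0, 0;
     0, 0, 0, 0]

/-- The coefficient of `η_j η_k` in the precession rate, integrated over one period. -/
noncomputable def rr (q : ℝ → Mat) (X : ℝ → Mat) (P : Mat) (j k : Fin 4) : ℂ :=
  ∫ θ in (0 : ℝ)..(2 * π), ∑ i, ∑ l, q θ i l * ((X θ * P) i j * (X θ * P) l k)

/-- The coefficient matrix in the interaction picture, `ρ` factored out. -/
noncomputable def Ar (s : ℝ) (θ : ℝ) : Mat :=
  let k₁ : ℝ := 3 / 2 * (1 + s)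
  let k₂ : ℝ := 3 / 2 * (1 - s)
  let a : ℝ := Real.cos θ * Real.sin θ
  let b : ℝ := Real.cos θ ^ 2
  let c₂ : ℝ := Real.cos (2 * θ)
  let s₂ : ℝ := Real.sin (2 * θ)
  !![((a * k₁ : ℝ) : ℂ), ((b * k₂ : ℝ) : ℂ),
      ((a ^ 2 * k₁ + b ^ 2 * k₂ : ℝ) : ℂ), ((a * b * (k₂ - k₁) : ℝ) : ℂ);
    ((-b * k₁ : ℝ) : ℂ), ((a * k₂ : ℝ) : ℂ),
      ((a * b * (k₂ - k₁) : ℝ) : ℂ), ((b ^ 2 * k₁ + a ^ 2 * k₂ : ℝ) : ℂ);
    ((c₂ * k₁ : ℝ) : ℂ), ((-s₂ * k₂ : ℝ) : ℂ),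
      ((c₂ * k₁ * a - s₂ * k₂ * b : ℝ) : ℂ), ((-c₂ * k₁ * b - s₂ * k₂ * a : ℝ) : ℂ);
    ((s₂ * k₁ : ℝ) : ℂ), ((c₂ * k₂ : ℝ) : ℂ),
      ((s₂ * k₁ * a + c₂ * k₂ * b : ℝ) : ℂ), ((-s₂ * k₁ * b + c₂ * k₂ * a : ℝ) : ℂ)]

/-- The coefficient matrix in the interaction picture at `e = i / h`. -/
noncomputable def Ah (s h : ℝ) (θ : ℝ) : Mat := rho (I / (h : ℂ)) θ • Ar s θ

/-- Second order iterated integral of `Ah`. -/
noncomputable def S2 (s h : ℝ) (i j : Fin 4) : ℂ :=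
  ∫ θ in (0 : ℝ)..(2 * π), ∑ k, Ah s h θ i k * ∫ t in (0 : ℝ)..θ, Ah s h t k j

/-- `T(0)` -/
def T0 : Mat := !![1, 0, 0, -1; 0, 1, 1, 0; 0, 0, 1, 0; 0, 0, 0, 1]

/-- inverse of `T(0)` -/
def T0' : Mat := !![1, 0, 0, 1; 0, 1, -1, 0; 0, 0, 1, 0; 0, 0, 0, 1]

/-- The force function `(1 + ζ) / |1 + ζ|³`. -/
noncomputable def hf (ζ : ℂ) : ℂ := (1 + ζ) / ((‖1 + ζ‖ ^ 3 : ℝ) : ℂ)

/-- Shape data of an equilateral central configuration: for the three pairs of bodies the weights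
`p` and the ratios `δ` (second mode over side). -/
structure Shape where
  /-- weights of the three pairs -/
  p : Fin 3 → ℝ
  /-- ratios -/
  δ : Fin 3 → ℂ
  /-- total mass -/
  M : ℝ
  /-- mass parameter -/
  s : ℝ

/-- The relations satisfied by the shape data. -/
structure Shape.Good (S : Shape) : Prop where
  Mpos : 0 < S.M
  ppos : ∀ k, 0 < S.p k
  s0 : 0 ≤ S.s
  s1 : S.s < 1
  sum_p : ∑ k, S.p k = S.M
  sum_pδ : ∑ k, (S.p k : ℂ) * S.δ k = 0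
  sum_pn : ∑ k, S.p k * ‖S.δ k‖ ^ 2 = S.M
  sum_pδ2 : ∑ k, (S.p k : ℂ) * S.δ k ^ 2 = S.M * S.s

/-- First component of the reduced force. -/
noncomputable def F1 (S : Shape) (u : ℂ) : ℂ := -∑ k, (S.p k : ℂ) * hf (S.δ k * u)

/-- Second component of the reduced force. -/
noncomputable def F2 (S : Shape) (u : ℂ) : ℂ := -∑ k, (S.p k : ℂ) * conj (S.δ k) * hf (S.δ k * u)

/-- The reduced potential. -/
noncomputable def Vf (S : Shape) (u : ℂ) : ℝ := ∑ k, S.p k / ‖1 + S.δ k * u‖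

/-- `(F₁ + M) / M` -/
noncomputable def phi (S : Shape) (u : ℂ) : ℂ := (F1 S u + S.M) / S.M

/-- `(F₂ - u F₁) / M` -/
noncomputable def chi (S : Shape) (u : ℂ) : ℂ := (F2 S u - u * F1 S u) / S.M

/-- Precession rate (per unit of longitude) in terms of the eccentricity `r`, the true anomaly
`f` and the shape `u`. -/
noncomputable def Gam (S : Shape) (r f : ℝ) (u : ℂ) : ℝ :=
  (phi S u).im * Real.sin f / (r * (1 + r * Real.cos f)) -
    (phi S u * exp (f * I)).re / r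

/-- Acceleration of the shape variable (per unit of longitude). -/
noncomputable def Ac (S : Shape) (r f : ℝ) (u v : ℂ) : ℂ :=
  -2 * I * v + (chi S u - (phi S u).im * v) / ((1 + r * Real.cos f : ℝ) : ℂ)

/-- The real vector `(Re u, Im u, Re v, Im v)`. -/
noncomputable def vec (u v : ℂ) : Fin 4 → ℂ :=
  ![(u.re : ℂ), (u.im : ℂ), (v.re : ℂ), (v.im : ℂ)]

/-! ### State functions of the two complex modes `z` (homographic) and `w` (normal) -/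

/-- Angular momentum of one mode. -/
noncomputable def Gz (z z1 : ℂ) : ℝ := (conj z * z1).im

/-- The eccentricity vector (pointing to the pericentre) of the homographic mode. -/
noncomputable def epsf (M : ℝ) (z z1 : ℂ) : ℂ := (-I * (Gz z z1 : ℂ) * z1 - M * (z / (‖z‖ : ℂ))) / M

/-- Angular velocity of the homographic mode. -/
noncomputable def kapf (z z1 : ℂ) : ℝ := Gz z z1 / ‖z‖ ^ 2

/-- Derivative of the shape variable `w / z` with respect to the longitude. -/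
noncomputable def vf (z z1 w w1 : ℂ) : ℂ := (w1 * z - w * z1) / z ^ 2 / (kapf z z1 : ℂ)

/-- The first integral `1 + 2 G² E / M²`. -/
noncomputable def Einv (S : Shape) (z z1 w w1 : ℂ) : ℝ :=
  1 + 2 * (Gz z z1 + Gz w w1) ^ 2 * ((‖z1‖ ^ 2 + ‖w1‖ ^ 2) / 2 - Vf S (w / z) / ‖z‖) / S.M ^ 2

/-- A trajectory of the reduced system on `[0, T]`: eccentricity vector `ε`, unit vector `ζ`,
shape `u`, its derivative `v` with respect to the longitude, angular velocity `κ`. -/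
structure RedTraj (S : Shape) (T : ℝ) (ε ζ u v : ℝ → ℂ) (κ : ℝ → ℝ) : Prop where
  cont : ContinuousOn κ (Icc 0 T)
  norm : ∀ t ∈ Icc 0 T, ‖ζ t‖ = 1
  den : ∀ t ∈ Icc 0 T, 0 < 1 + (conj (ε t) * ζ t).re
  dζ : ∀ t ∈ Icc 0 T, HasDerivWithinAt ζ ((κ t : ℂ) * (I * ζ t)) (Icc 0 T) t
  dε : ∀ t ∈ Icc 0 T, HasDerivWithinAt ε ((κ t : ℂ) * (((phi S (u t)).im : ℂ) * (ε t + ζ t) /
    ((1 + (conj (ε t) * ζ t).re : ℝ) : ℂ) - I * ζ t * phi S (u t))) (Icc 0 T) t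
  du : ∀ t ∈ Icc 0 T, HasDerivWithinAt u ((κ t : ℂ) * v t) (Icc 0 T) t
  dv : ∀ t ∈ Icc 0 T, HasDerivWithinAt v ((κ t : ℂ) * (-2 * I * v t +
    (chi S (u t) - ((phi S (u t)).im : ℂ) * v t) / ((1 + (conj (ε t) * ζ t).re : ℝ) : ℂ)))
    (Icc 0 T) t

/-- Instability of the elliptic Lagrange orbit of eccentricity `e0` in the reduced system. -/
def Unst (S : Shape) (e0 C1 : ℝ) : Prop :=
  ∃ y : ℝ → ℂ × ℂ, ∃ ρ > 0, ∃ a0 > 0, ∀ (c κ0 ϑ0 : ℝ) (ε0 : ℂ), 0 < c → c < a0 → 0 < κ0 →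
    ‖ε0‖ = e0 → ∃ T > 0, ∀ (τ : ℝ) (ε ζ u v : ℝ → ℂ) (κ : ℝ → ℝ), 0 < τ →
      RedTraj S T ε ζ u v κ → ζ 0 = exp (ϑ0 * I) → ε 0 = τ * ε0 →
      u 0 = c * (y (ϑ0 - arg ε0)).1 → v 0 = c * (y (ϑ0 - arg ε0)).2 →
      (∀ t ∈ Icc 0 T, κ0 ≤ κ t ∧ ‖u t‖ ≤ ρ ∧ ‖v t‖ ≤ ρ ∧ ‖ε t / ε0 - 1‖ ≤ ρ ∧
        |‖ε t‖ ^ 2 - e0 ^ 2| ≤ C1 * (‖u t‖ ^ 2 + ‖v t‖ ^ 2)) → False

/-! ### The equilateral triangle -/

/-- total mass -/
def Mt (m : Fin 3 → ℝ) : ℝ := m 0 + m 1 + m 2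

/-- second symmetric function of the masses -/
def sg (m : Fin 3 → ℝ) : ℝ := m 0 * m 1 + m 1 * m 2 + m 2 * m 0

/-- The mass parameter: `s² = 1 - 3 (m₀m₁ + m₁m₂ + m₂m₀) / (m₀ + m₁ + m₂)²`. -/
noncomputable def sm (m : Fin 3 → ℝ) : ℝ := Real.sqrt (1 - 3 * sg m / Mt m ^ 2)

/-- moment of inertia of the unit triangle -/
noncomputable def Nn (m : Fin 3 → ℝ) : ℝ := sg m / Mt m

/-- The unit equilateral triangle with sides `1, ω, ω²` and center of mass `0`. -/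
noncomputable def cc (m : Fin 3 → ℝ) (ω : ℂ) : Fin 3 → ℂ :=
  ![((m 1 : ℂ) - m 2 * ω ^ 2) / (Mt m : ℂ), ((m 1 : ℂ) - m 2 * ω ^ 2) / (Mt m : ℂ) - 1,
    ((m 1 : ℂ) - m 2 * ω ^ 2) / (Mt m : ℂ) - 1 - ω]

/-- The second mode `d` and the shape data attached to the equilateral triangle. -/
structure Tri (m : Fin 3 → ℝ) (ω : ℂ) (S : Shape) (d : Fin 3 → ℂ) : Prop where
  good : S.Good
  hM : S.M = Mt m
  hs : S.s = sm m
  sum_c : ∑ a, (m a : ℂ) * cc m ω a = 0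
  sum_d : ∑ a, (m a : ℂ) * d a = 0
  nc : ∑ a, (m a : ℂ) * (conj (cc m ω a) * cc m ω a) = Nn m
  nd : ∑ a, (m a : ℂ) * (conj (d a) * d a) = Nn m
  cd : ∑ a, (m a : ℂ) * (conj (cc m ω a) * d a) = 0
  p0 : S.p 0 = m 0 * m 1 / Nn m
  p1 : S.p 1 = m 1 * m 2 / Nn m
  p2 : S.p 2 = m 2 * m 0 / Nn m
  d0 : d 0 - d 1 = S.δ 0 * (cc m ω 0 - cc m ω 1)
  d1 : d 1 - d 2 = S.δ 1 * (cc m ω 1 - cc m ω 2)
  d2 : d 2 - d 0 = S.δ 2 * (cc m ω 2 - cc m ω 0)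

/-- Coordinate of `q` along the vector `c` (for the mass inner product). -/
noncomputable def coord (m : Fin 3 → ℝ) (c q : Fin 3 → ℂ) : ℂ :=
  (∑ a, (m a : ℂ) * (conj (c a) * q a)) / (Nn m : ℂ)

/-- The neighbourhood of an elliptic Lagrange orbit used in the proof. -/
def Ub (m : Fin 3 → ℝ) (ω : ℂ) (d : Fin 3 → ℂ) (ε0 : ℂ) (G0 ρ : ℝ) :
    Set ((Fin 3 → ℂ) × (Fin 3 → ℂ)) :=
  {p | coord m (cc m ω) p.1 ≠ 0 ∧
    G0 / 2 < Gz (coord m (cc m ω) p.1) (coord m (cc m ω) p.2) ∧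
    Gz (coord m (cc m ω) p.1) (coord m (cc m ω) p.2) < 2 * G0 ∧
    ‖coord m d p.1 / coord m (cc m ω) p.1‖ < ρ ∧
    ‖vf (coord m (cc m ω) p.1) (coord m (cc m ω) p.2) (coord m d p.1) (coord m d p.2)‖ < ρ ∧
    ‖epsf (Mt m) (coord m (cc m ω) p.1) (coord m (cc m ω) p.2) / ε0 - 1‖ < ρ}

end Pool.Agent.MP_5027f4_ell
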