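import Pool.Agent.Lib_MP_5027f4_ell.Defs

/-!
# Elliptic Lagrange orbits: Taylor expansion of the force function
-/

open Complex Set Filter Topology MeasureTheory
open scoped Real Matrix ComplexConjugate

namespace Pool.Agent.MP_5027f4_ell

theorem hf_expansion : ∃ C > 0, ∀ ζ : ℂ, ‖ζ‖ ≤ 1 / 2 →
    ‖hf ζ - (1 + ζ - 3 * ζ.re + (-3 * ζ * ζ.re - 3 / 2 * ‖ζ‖ ^ 2 + 15 / 2 * ζ.re ^ 2))‖ ≤
      C * ‖ζ‖ ^ 3 := by
  refine ⟨1000, by norm_num, fun ζ hζ => ?_⟩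
  set r : ℝ := ‖ζ‖ with hr
  set a : ℝ := ζ.re with ha
  set R : ℝ := ‖1 + ζ‖ with hR
  have hr0 : 0 ≤ r := norm_nonneg _
  have har : |a| ≤ r := Complex.abs_re_le_norm ζ
  have hR1 : R ≤ 1 + r := by
    have := norm_add_le (1 : ℂ) ζ
    rwa [norm_one] at this
  have hR2 : 1 - r ≤ R := by
    have := norm_sub_norm_le (1 : ℂ) (-ζ)
    rw [norm_one, norm_neg, sub_neg_eq_add] at this
    exact this
  have hRpos : 0 < R := by linarith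
  have hRsq : R ^ 2 = 1 + 2 * a + r ^ 2 := by
    rw [hR, hr, ha, ← Complex.normSq_eq_norm_sq, ← Complex.normSq_eq_norm_sq,
      Complex.normSq_apply, Complex.normSq_apply]
    simp
    ring
  set Q : ℝ := 1 - 3 / 2 * (R ^ 2 - 1) + 15 / 8 * (R ^ 2 - 1) ^ 2 with hQ
  -- the scalar estimate
  have hscal : |(R ^ 3)⁻¹ - Q| ≤ 400 * r ^ 3 := by
    have hR3 : 0 < R ^ 3 := by positivity
    have e1 : (R ^ 3)⁻¹ - Q = (1 - R) ^ 3 * (8 + 24 * R + 48 * R ^ 2 + 45 * R ^ 3 + 15 * R ^ 4) /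
        (8 * R ^ 3) := by
      rw [hQ]
      field_simp
      ring
    rw [e1, abs_div, abs_mul, abs_of_pos (by positivity : 0 < 8 * R ^ 3),
      abs_of_pos (by positivity : 0 < 8 + 24 * R + 48 * R ^ 2 + 45 * R ^ 3 + 15 * R ^ 4),
      div_le_iff₀ (by positivity), abs_pow]
    have e2 : |1 - R| ≤ r := by
      rw [abs_le]; constructor <;> linarith
    have e3 : |1 - R| ^ 3 ≤ r ^ 3 := pow_le_pow_left₀ (abs_nonneg _) e2 3
    have hRu : R ≤ 3 / 2 := by linarith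
    have hRl : 1 / 2 ≤ R := by linarith
    have e4 : R ^ 2 ≤ 9 / 4 := by nlinarith
    have e5 : R ^ 3 ≤ 27 / 8 := by nlinarith [mul_nonneg hRpos.le (sub_nonneg.2 hRu)]
    have e6 : R ^ 4 ≤ 81 / 16 := by nlinarith [sq_nonneg (R ^ 2)]
    have e7 : 1 / 8 ≤ R ^ 3 := by
      have := pow_le_pow_left₀ (by norm_num : (0 : ℝ) ≤ 1 / 2) hRl 3
      norm_num at this ⊢
      exact this
    have hr3 : 0 ≤ r ^ 3 := by positivity
    calc |1 - R| ^ 3 * (8 + 24 * R + 48 * R ^ 2 + 45 * R ^ 3 + 15 * R ^ 4)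
        ≤ r ^ 3 * 400 := mul_le_mul e3 (by nlinarith) (by positivity) hr3
      _ ≤ 400 * r ^ 3 * (8 * R ^ 3) := by nlinarith
  -- decomposition
  have hdec : hf ζ - (1 + ζ - 3 * ζ.re + (-3 * ζ * ζ.re - 3 / 2 * ‖ζ‖ ^ 2 + 15 / 2 * ζ.re ^ 2)) =
      (1 + ζ) * (((R ^ 3)⁻¹ - Q : ℝ) : ℂ) +
        ((((15 / 2 * a * r ^ 2 + 15 / 8 * r ^ 4 : ℝ) : ℂ)) +
        ζ * (((-(3 / 2) * r ^ 2 + 15 / 2 * a ^ 2 + 15 / 2 * a * r ^ 2 + 15 / 8 * r ^ 4 : ℝ) : ℂ))) := by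
    have e1 : Q = 1 - 3 * a - 3 / 2 * r ^ 2 + 15 / 2 * a ^ 2 + 15 / 2 * a * r ^ 2 +
        15 / 8 * r ^ 4 := by
      rw [hQ, hRsq]
      ring
    rw [e1, hf, ← hR, ← ha, ← hr]
    push_cast
    rw [div_eq_mul_inv]
    ring
  rw [hdec]
  have n1 : ‖(1 + ζ) * (((R ^ 3)⁻¹ - Q : ℝ) : ℂ)‖ ≤ 3 / 2 * (400 * r ^ 3) := by
    rw [norm_mul, Complex.norm_real, Real.norm_eq_abs]
    exact mul_le_mul (by linarith) hscal (abs_nonneg _) (by norm_num)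
  have ha2 : a ^ 2 ≤ r ^ 2 := by
    rw [← sq_abs a]
    exact pow_le_pow_left₀ (abs_nonneg _) har 2
  have n2 : ‖(((15 / 2 * a * r ^ 2 + 15 / 8 * r ^ 4 : ℝ) : ℂ))‖ ≤ 10 * r ^ 3 := by
    rw [Complex.norm_real, Real.norm_eq_abs]
    have h1 := (abs_le.1 har).1
    have h2 := (abs_le.1 har).2
    have h3 : r ^ 4 ≤ r ^ 3 * (1 / 2) := by
      have : r ^ 4 = r ^ 3 * r := by ring
      rw [this]
      exact mul_le_mul_of_nonneg_left hζ (by positivity)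
    have h4 : a * r ^ 2 ≤ r ^ 3 := by
      have : r ^ 3 = r * r ^ 2 := by ring
      rw [this]
      exact mul_le_mul_of_nonneg_right h2 (by positivity)
    have h5 : -(r ^ 3) ≤ a * r ^ 2 := by
      have : -(r ^ 3) = (-r) * r ^ 2 := by ring
      rw [this]
      exact mul_le_mul_of_nonneg_right h1 (by positivity)
    have h6 : 0 ≤ r ^ 4 := by positivity
    have h7 : 0 ≤ r ^ 3 := by positivity
    rw [abs_le]
    constructor <;> nlinarith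
  have n3 : ‖ζ * (((-(3 / 2) * r ^ 2 + 15 / 2 * a ^ 2 + 15 / 2 * a * r ^ 2 +
      15 / 8 * r ^ 4 : ℝ) : ℂ))‖ ≤ r * (20 * r ^ 2) := by
    rw [norm_mul, Complex.norm_real, Real.norm_eq_abs, ← hr]
    apply mul_le_mul_of_nonneg_left _ hr0
    have h1 := (abs_le.1 har).1
    have h2 := (abs_le.1 har).2
    have h3 : r ^ 4 ≤ r ^ 2 * (1 / 4) := by
      have h9 : r ^ 2 ≤ 1 / 4 := by nlinarith
      have : r ^ 4 = r ^ 2 * r ^ 2 := by ring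
      rw [this]
      exact mul_le_mul_of_nonneg_left h9 (by positivity)
    have h4 : a * r ^ 2 ≤ r ^ 2 * (1 / 2) := by nlinarith [sq_nonneg r]
    have h5 : -(r ^ 2 * (1 / 2)) ≤ a * r ^ 2 := by nlinarith [sq_nonneg r]
    have h6 : 0 ≤ r ^ 4 := by positivity
    have h7 : 0 ≤ a ^ 2 := by positivity
    have h8 : 0 ≤ r ^ 2 := by positivity
    rw [abs_le]
    constructor <;> nlinarith
  have n4 := norm_add_le ((1 + ζ) * (((R ^ 3)⁻¹ - Q : ℝ) : ℂ))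
    ((((15 / 2 * a * r ^ 2 + 15 / 8 * r ^ 4 : ℝ) : ℂ)) +
        ζ * (((-(3 / 2) * r ^ 2 + 15 / 2 * a ^ 2 + 15 / 2 * a * r ^ 2 + 15 / 8 * r ^ 4 : ℝ) : ℂ)))
  have n5 := norm_add_le ((((15 / 2 * a * r ^ 2 + 15 / 8 * r ^ 4 : ℝ) : ℂ)))
        (ζ * (((-(3 / 2) * r ^ 2 + 15 / 2 * a ^ 2 + 15 / 2 * a * r ^ 2 + 15 / 8 * r ^ 4 : ℝ) : ℂ)))
  have h7 : 0 ≤ r ^ 3 := by positivity
  have h8 : r * (20 * r ^ 2) = 20 * r ^ 3 := by ring
  linarith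

end Pool.Agent.MP_5027f4_ell
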