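import Pool.Agent.Lib_MP_5027f4_ell.ExpA

/-!
# Elliptic Lagrange orbits: expansions of the reduced force
-/

open Complex Set Filter Topology MeasureTheory
open scoped Real Matrix ComplexConjugate

namespace Pool.Agent.MP_5027f4_ell

/-- The second order Taylor polynomial of `hf` in terms of `x` and `conj x`. -/
noncomputable def hq (x : ℂ) : ℂ :=
  1 - 1 / 2 * x - 3 / 2 * conj x + 3 / 8 * x ^ 2 + 3 / 4 * (x * conj x) + 15 / 8 * conj x ^ 2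

theorem hq_eq (x : ℂ) :
    1 + x - 3 * x.re + (-3 * x * x.re - 3 / 2 * ‖x‖ ^ 2 + 15 / 2 * x.re ^ 2) = hq x := by
  have h1 : ((x.re : ℝ) : ℂ) = (x + conj x) / 2 := Complex.re_eq_add_conj x
  have h2 : ((‖x‖ : ℝ) : ℂ) ^ 2 = x * conj x := by
    rw [Complex.mul_conj, Complex.normSq_eq_norm_sq]
    push_cast
    ring
  rw [h1, h2, hq]
  ring

theorem hf_hq_sum (S : Shape) (c : Fin 3 → ℂ) : ∃ C > 0, ∃ ρ > 0, ∀ u : ℂ,
    ‖u‖ ≤ ρ → ‖∑ k, c k * hf (S.δ k * u) - ∑ k, c k * hq (S.δ k * u)‖ ≤ C * ‖u‖ ^ 3 := by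
  obtain ⟨C, hC, h⟩ := hf_expansion
  set D : ℝ := ∑ k, ‖S.δ k‖ with hD
  have hD0 : 0 ≤ D := Finset.sum_nonneg fun k _ => norm_nonneg _
  have hDk : ∀ k, ‖S.δ k‖ ≤ D := fun k =>
    Finset.single_le_sum (f := fun k => ‖S.δ k‖) (fun j _ => norm_nonneg _) (Finset.mem_univ k)
  have hc0 : 0 ≤ ∑ k, ‖c k‖ * (C * D ^ 3) :=
    Finset.sum_nonneg fun k _ => by positivity
  refine ⟨∑ k, ‖c k‖ * (C * D ^ 3) + 1, by linarith, 1 / (2 * (D + 1)), by positivity,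
    fun u hu => ?_⟩
  rw [← Finset.sum_sub_distrib]
  have hk : ∀ k ∈ Finset.univ, ‖c k * hf (S.δ k * u) - c k * hq (S.δ k * u)‖ ≤
      (‖c k‖ * (C * D ^ 3)) * ‖u‖ ^ 3 := by
    intro k _
    have h1 : ‖S.δ k * u‖ ≤ D * ‖u‖ := by
      rw [norm_mul]
      exact mul_le_mul_of_nonneg_right (hDk k) (norm_nonneg _)
    have h2 : ‖S.δ k * u‖ ≤ 1 / 2 := by
      refine h1.trans ?_
      have h3 : D * ‖u‖ ≤ D * (1 / (2 * (D + 1))) := mul_le_mul_of_nonneg_left hu hD0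
      refine h3.trans ?_
      rw [mul_one_div, div_le_div_iff₀ (by positivity) (by norm_num)]
      linarith
    have h3 := h (S.δ k * u) h2
    rw [hq_eq] at h3
    rw [← mul_sub, norm_mul, mul_assoc]
    apply mul_le_mul_of_nonneg_left _ (norm_nonneg _)
    refine h3.trans ?_
    rw [mul_assoc]
    apply mul_le_mul_of_nonneg_left _ hC.le
    rw [← mul_pow]
    exact pow_le_pow_left₀ (norm_nonneg _) h1 3
  calc ‖∑ k, (c k * hf (S.δ k * u) - c k * hq (S.δ k * u))‖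
      ≤ ∑ k, ‖c k * hf (S.δ k * u) - c k * hq (S.δ k * u)‖ := norm_sum_le _ _
    _ ≤ ∑ k, (‖c k‖ * (C * D ^ 3)) * ‖u‖ ^ 3 := Finset.sum_le_sum hk
    _ = (∑ k, ‖c k‖ * (C * D ^ 3)) * ‖u‖ ^ 3 := by rw [Finset.sum_mul]
    _ ≤ _ := by
      apply mul_le_mul_of_nonneg_right _ (by positivity)
      linarith

theorem Shape.Good.pn {S : Shape} (hS : S.Good) :
    ∑ k, (S.p k : ℂ) * (S.δ k * conj (S.δ k)) = S.M := by
  have h := hS.sum_pn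
  have h' : ((∑ k, S.p k * ‖S.δ k‖ ^ 2 : ℝ) : ℂ) = (S.M : ℂ) := by rw [h]
  rw [← h']
  push_cast
  apply Finset.sum_congr rfl
  intro k _
  rw [Complex.mul_conj, Complex.normSq_eq_norm_sq]
  push_cast
  ring

theorem Shape.Good.conj_sum_pδ {S : Shape} (hS : S.Good) :
    ∑ k, (S.p k : ℂ) * conj (S.δ k) = 0 := by
  have h := congrArg conj hS.sum_pδ
  rw [map_sum, map_zero] at h
  simpa using h

theorem Shape.Good.conj_sum_pδ2 {S : Shape} (hS : S.Good) :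
    ∑ k, (S.p k : ℂ) * conj (S.δ k) ^ 2 = S.M * S.s := by
  have h := congrArg conj hS.sum_pδ2
  rw [map_sum] at h
  simpa using h

/-- The value of the quadratic part. -/
theorem sum_p_hq (S : Shape) (hS : S.Good) (u : ℂ) :
    ∑ k, (S.p k : ℂ) * hq (S.δ k * u) =
      S.M * (1 + 3 / 8 * S.s * u ^ 2 + 3 / 4 * (u * conj u) + 15 / 8 * S.s * conj u ^ 2) := by
  have h1 : ∑ k, (S.p k : ℂ) = S.M := by
    rw [← hS.sum_p]; push_cast; rfl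
  have h2 := hS.sum_pδ
  have h3 := hS.conj_sum_pδ
  have h4 := hS.pn
  have h5 := hS.sum_pδ2
  have h6 := hS.conj_sum_pδ2
  simp only [Fin.sum_univ_three] at h1 h2 h3 h4 h5 h6 ⊢
  simp only [hq, map_mul]
  linear_combination h1 - 1 / 2 * u * h2 - 3 / 2 * conj u * h3 + 3 / 8 * u ^ 2 * h5 +
    3 / 4 * (u * conj u) * h4 + 15 / 8 * conj u ^ 2 * h6

theorem phi_expansion (S : Shape) (hS : S.Good) : ∃ C > 0, ∃ ρ > 0, ∀ u : ℂ, ‖u‖ ≤ ρ →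
    ‖phi S u - (-(3 / 4) * ‖u‖ ^ 2 - 3 / 2 * S.s * conj u ^ 2 -
      3 / 4 * S.s * ((u ^ 2).re : ℂ))‖ ≤ C * ‖u‖ ^ 3 := by
  obtain ⟨C, hC, ρ, hρ, h⟩ := hf_hq_sum S (fun k => (S.p k : ℂ))
  have hM := hS.Mpos
  have hMC : (S.M : ℂ) ≠ 0 := by exact_mod_cast hM.ne'
  refine ⟨C / S.M, by positivity, ρ, hρ, fun u hu => ?_⟩
  have h1 := h u hu
  rw [sum_p_hq S hS u] at h1
  have e1 : phi S u - (-(3 / 4) * ‖u‖ ^ 2 - 3 / 2 * S.s * conj u ^ 2 -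
      3 / 4 * S.s * ((u ^ 2).re : ℂ)) = -((∑ k, (S.p k : ℂ) * hf (S.δ k * u) -
      S.M * (1 + 3 / 8 * S.s * u ^ 2 + 3 / 4 * (u * conj u) + 15 / 8 * S.s * conj u ^ 2)) /
        S.M) := by
    have h2 : (((u ^ 2).re : ℝ) : ℂ) = (u ^ 2 + conj u ^ 2) / 2 := by
      rw [Complex.re_eq_add_conj, map_pow]
    have h3 : ((‖u‖ : ℝ) : ℂ) ^ 2 = u * conj u := by
      rw [Complex.mul_conj, Complex.normSq_eq_norm_sq]
      push_cast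
      ring
    rw [h2, h3, phi, F1]
    generalize ∑ k, (S.p k : ℂ) * hf (S.δ k * u) = X
    field_simp
    ring
  rw [e1, norm_neg, norm_div, Complex.norm_real, Real.norm_eq_abs, abs_of_pos hM]
  have h4 : C / S.M * ‖u‖ ^ 3 = C * ‖u‖ ^ 3 / S.M := by ring
  rw [h4]
  exact div_le_div_of_nonneg_right h1 hM.le

theorem phi_quad_bound (S : Shape) (hS : S.Good) : ∃ C > 0, ∃ ρ > 0, ∀ u : ℂ, ‖u‖ ≤ ρ →
    ‖phi S u‖ ≤ C * ‖u‖ ^ 2 := by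
  obtain ⟨C, hC, ρ, hρ, h⟩ := phi_expansion S hS
  refine ⟨C * ρ + 3, by positivity, ρ, hρ, fun u hu => ?_⟩
  have h1 := h u hu
  have hs0 := hS.s0
  have hs1 := hS.s1
  have e1 : ‖(-(3 / 4) * (‖u‖ : ℂ) ^ 2 - 3 / 2 * S.s * conj u ^ 2 -
      3 / 4 * S.s * ((u ^ 2).re : ℂ))‖ ≤ 3 * ‖u‖ ^ 2 := by
    have a1 : ‖(-(3 / 4) * (‖u‖ : ℂ) ^ 2)‖ = 3 / 4 * ‖u‖ ^ 2 := by
      rw [norm_mul, norm_pow, Complex.norm_real, norm_norm, norm_neg]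
      norm_num
    have a2 : ‖(3 / 2 * (S.s : ℂ) * conj u ^ 2)‖ ≤ 3 / 2 * ‖u‖ ^ 2 := by
      rw [norm_mul, norm_mul, norm_pow, Complex.norm_conj, Complex.norm_real, Real.norm_eq_abs,
        abs_of_nonneg hs0]
      have : ‖(3 / 2 : ℂ)‖ = 3 / 2 := by norm_num
      rw [this]
      apply mul_le_mul_of_nonneg_right _ (by positivity)
      linarith
    have a3 : ‖(3 / 4 * (S.s : ℂ) * ((u ^ 2).re : ℂ))‖ ≤ 3 / 4 * ‖u‖ ^ 2 := by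
      rw [norm_mul, norm_mul, Complex.norm_real, Complex.norm_real, Real.norm_eq_abs,
        Real.norm_eq_abs, abs_of_nonneg hs0]
      have : ‖(3 / 4 : ℂ)‖ = 3 / 4 := by norm_num
      rw [this]
      have h2 : |(u ^ 2).re| ≤ ‖u‖ ^ 2 := by
        rw [← norm_pow]
        exact Complex.abs_re_le_norm _
      exact mul_le_mul (by linarith) h2 (abs_nonneg _) (by norm_num)
    have n1 := norm_sub_le (-(3 / 4) * (‖u‖ : ℂ) ^ 2 - 3 / 2 * S.s * conj u ^ 2)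
      (3 / 4 * S.s * ((u ^ 2).re : ℂ))
    have n2 := norm_sub_le (-(3 / 4) * (‖u‖ : ℂ) ^ 2) (3 / 2 * S.s * conj u ^ 2)
    linarith
  have e2 : ‖phi S u‖ ≤ ‖phi S u - (-(3 / 4) * (‖u‖ : ℂ) ^ 2 - 3 / 2 * S.s * conj u ^ 2 -
      3 / 4 * S.s * ((u ^ 2).re : ℂ))‖ + ‖(-(3 / 4) * (‖u‖ : ℂ) ^ 2 - 3 / 2 * S.s * conj u ^ 2 -
      3 / 4 * S.s * ((u ^ 2).re : ℂ))‖ := by
    have := norm_add_le (phi S u - (-(3 / 4) * (‖u‖ : ℂ) ^ 2 - 3 / 2 * S.s * conj u ^ 2 -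
      3 / 4 * S.s * ((u ^ 2).re : ℂ))) (-(3 / 4) * (‖u‖ : ℂ) ^ 2 - 3 / 2 * S.s * conj u ^ 2 -
      3 / 4 * S.s * ((u ^ 2).re : ℂ))
    rwa [sub_add_cancel] at this
  have e3 : C * ‖u‖ ^ 3 ≤ C * ρ * ‖u‖ ^ 2 := by
    have : C * ‖u‖ ^ 3 = C * ‖u‖ * ‖u‖ ^ 2 := by ring
    rw [this]
    apply mul_le_mul_of_nonneg_right _ (by positivity)
    exact mul_le_mul_of_nonneg_left hu hC.le
  linarith

theorem chi_expansion (S : Shape) (hS : S.Good) : ∃ α β γ : ℂ, ∃ C > 0, ∃ ρ > 0, ∀ u : ℂ,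
    ‖u‖ ≤ ρ → ‖chi S u - (3 / 2 * u + 3 / 2 * S.s * conj u +
      (α * u ^ 2 + β * (u * conj u) + γ * conj u ^ 2))‖ ≤ C * ‖u‖ ^ 3 := by
  obtain ⟨C1, hC1, ρ1, hρ1, h1⟩ := hf_hq_sum S (fun k => (S.p k : ℂ) * conj (S.δ k))
  obtain ⟨C2, hC2, ρ2, hρ2, h2⟩ := phi_quad_bound S hS
  have hM := hS.Mpos
  have hMC : (S.M : ℂ) ≠ 0 := by exact_mod_cast hM.ne'
  refine ⟨-(3 / 8 * ∑ k, (S.p k : ℂ) * conj (S.δ k) * S.δ k ^ 2) / S.M,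
    -(3 / 4 * ∑ k, (S.p k : ℂ) * conj (S.δ k) * (S.δ k * conj (S.δ k))) / S.M,
    -(15 / 8 * ∑ k, (S.p k : ℂ) * conj (S.δ k) * conj (S.δ k) ^ 2) / S.M,
    C1 / S.M + C2, by positivity, min ρ1 ρ2, lt_min hρ1 hρ2, fun u hu => ?_⟩
  have hu1 := h1 u (hu.trans (min_le_left _ _))
  have hu2 := h2 u (hu.trans (min_le_right _ _))
  have key : chi S u - (3 / 2 * u + 3 / 2 * S.s * conj u +
      (-(3 / 8 * ∑ k, (S.p k : ℂ) * conj (S.δ k) * S.δ k ^ 2) / S.M * u ^ 2 +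
      -(3 / 4 * ∑ k, (S.p k : ℂ) * conj (S.δ k) * (S.δ k * conj (S.δ k))) / S.M *
        (u * conj u) +
      -(15 / 8 * ∑ k, (S.p k : ℂ) * conj (S.δ k) * conj (S.δ k) ^ 2) / S.M * conj u ^ 2)) =
      -((∑ k, (S.p k : ℂ) * conj (S.δ k) * hf (S.δ k * u) -
        ∑ k, (S.p k : ℂ) * conj (S.δ k) * hq (S.δ k * u)) / S.M) - u * phi S u := by
    have e1 : ∑ k, (S.p k : ℂ) * conj (S.δ k) * hq (S.δ k * u) =
        S.M * (-(1 / 2) * u - 3 / 2 * S.s * conj u) +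
        (3 / 8 * ∑ k, (S.p k : ℂ) * conj (S.δ k) * S.δ k ^ 2) * u ^ 2 +
        (3 / 4 * ∑ k, (S.p k : ℂ) * conj (S.δ k) * (S.δ k * conj (S.δ k))) * (u * conj u) +
        (15 / 8 * ∑ k, (S.p k : ℂ) * conj (S.δ k) * conj (S.δ k) ^ 2) * conj u ^ 2 := by
      have h3 := hS.conj_sum_pδ
      have h4 := hS.pn
      have h6 := hS.conj_sum_pδ2
      simp only [Fin.sum_univ_three] at h3 h4 h6 ⊢
      simp only [hq, map_mul]
      linear_combination h3 - 1 / 2 * u * h4 - 3 / 2 * conj u * h6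
    rw [e1, chi, phi, F2]
    generalize ∑ k, (S.p k : ℂ) * conj (S.δ k) * hf (S.δ k * u) = X
    generalize ∑ k, (S.p k : ℂ) * conj (S.δ k) * S.δ k ^ 2 = A
    generalize ∑ k, (S.p k : ℂ) * conj (S.δ k) * (S.δ k * conj (S.δ k)) = B
    generalize ∑ k, (S.p k : ℂ) * conj (S.δ k) * conj (S.δ k) ^ 2 = D
    field_simp
    ring
  rw [key]
  have n1 := norm_sub_le (-((∑ k, (S.p k : ℂ) * conj (S.δ k) * hf (S.δ k * u) -
        ∑ k, (S.p k : ℂ) * conj (S.δ k) * hq (S.δ k * u)) / S.M)) (u * phi S u)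
  refine n1.trans ?_
  rw [norm_neg, norm_div, Complex.norm_real, Real.norm_eq_abs, abs_of_pos hM, norm_mul]
  have e1 : ‖∑ k, (S.p k : ℂ) * conj (S.δ k) * hf (S.δ k * u) -
        ∑ k, (S.p k : ℂ) * conj (S.δ k) * hq (S.δ k * u)‖ / S.M ≤ C1 / S.M * ‖u‖ ^ 3 := by
    rw [div_mul_eq_mul_div]
    exact div_le_div_of_nonneg_right hu1 hM.le
  have e2 : ‖u‖ * ‖phi S u‖ ≤ C2 * ‖u‖ ^ 3 := by
    have := mul_le_mul_of_nonneg_left hu2 (norm_nonneg u)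
    calc ‖u‖ * ‖phi S u‖ ≤ ‖u‖ * (C2 * ‖u‖ ^ 2) := this
      _ = C2 * ‖u‖ ^ 3 := by ring
  calc _ ≤ C1 / S.M * ‖u‖ ^ 3 + C2 * ‖u‖ ^ 3 := add_le_add e1 e2
    _ = (C1 / S.M + C2) * ‖u‖ ^ 3 := by ring

end Pool.Agent.MP_5027f4_ell
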