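import Pool.Agent.Lib_MP_5027f4_ell.Defs
import Pool.Agent.Lib_MP_5027f4_ell.ExpB

/-!
# Piece ExpC: expansion of the reduced vector field
-/

open Complex Set Filter Topology MeasureTheory Asymptotics
open scoped Real Matrix ComplexConjugate

namespace Pool.Agent.MP_5027f4_ell

namespace ExpC

/-- size of the state -/
noncomputable def NN (p : ℝ × ℝ × ℂ × ℂ) : ℝ := ‖vec p.2.2.1 p.2.2.2‖

/-- the constraint on the eccentricity -/
def PS (e0 C1 : ℝ) : Set (ℝ × ℝ × ℂ × ℂ) :=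
  {p | 0 < p.1 ∧ |p.1 ^ 2 - e0 ^ 2| ≤ C1 * (‖p.2.2.1‖ ^ 2 + ‖p.2.2.2‖ ^ 2)}

/-- the filter `u, v → 0` -/
noncomputable def PF (e0 C1 : ℝ) : Filter (ℝ × ℝ × ℂ × ℂ) :=
  comap NN (𝓝 0) ⊓ 𝓟 (PS e0 C1)

theorem NN_nonneg (p : ℝ × ℝ × ℂ × ℂ) : 0 ≤ NN p := norm_nonneg _

theorem ure_le (p : ℝ × ℝ × ℂ × ℂ) : |p.2.2.1.re| ≤ NN p := by
  have := norm_le_pi_norm (vec p.2.2.1 p.2.2.2) 0
  simpa [vec, NN] using this

theorem uim_le (p : ℝ × ℝ × ℂ × ℂ) : |p.2.2.1.im| ≤ NN p := by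
  have := norm_le_pi_norm (vec p.2.2.1 p.2.2.2) 1
  simpa [vec, NN] using this

theorem vre_le (p : ℝ × ℝ × ℂ × ℂ) : |p.2.2.2.re| ≤ NN p := by
  have := norm_le_pi_norm (vec p.2.2.1 p.2.2.2) 2
  simpa [vec, NN] using this

theorem vim_le (p : ℝ × ℝ × ℂ × ℂ) : |p.2.2.2.im| ≤ NN p := by
  have := norm_le_pi_norm (vec p.2.2.1 p.2.2.2) 3
  simpa [vec, NN] using this

theorem u_le (p : ℝ × ℝ × ℂ × ℂ) : ‖p.2.2.1‖ ≤ 2 * NN p := by
  have h1 := Complex.norm_le_abs_re_add_abs_im p.2.2.1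
  have h2 := ure_le p
  have h3 := uim_le p
  linarith

theorem v_le (p : ℝ × ℝ × ℂ × ℂ) : ‖p.2.2.2‖ ≤ 2 * NN p := by
  have h1 := Complex.norm_le_abs_re_add_abs_im p.2.2.2
  have h2 := vre_le p
  have h3 := vim_le p
  linarith

theorem NN_le {ρ : ℝ} {p : ℝ × ℝ × ℂ × ℂ} (hu : ‖p.2.2.1‖ ≤ ρ) (hv : ‖p.2.2.2‖ ≤ ρ) :
    NN p ≤ ρ := by
  have h0 : 0 ≤ ρ := (norm_nonneg _).trans hu
  rw [NN, pi_norm_le_iff_of_nonneg h0]
  intro i
  fin_cases i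
  · simpa [vec] using (Complex.abs_re_le_norm _).trans hu
  · simpa [vec] using (Complex.abs_im_le_norm _).trans hu
  · simpa [vec] using (Complex.abs_re_le_norm _).trans hv
  · simpa [vec] using (Complex.abs_im_le_norm _).trans hv

variable {e0 C1 : ℝ}

theorem tendsto_NN : Tendsto NN (PF e0 C1) (𝓝 0) :=
  tendsto_comap.mono_left inf_le_left

theorem eventually_PS : ∀ᶠ p in PF e0 C1, p ∈ PS e0 C1 :=
  Filter.Eventually.filter_mono inf_le_right (mem_principal_self _)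

theorem eventually_lt {δ : ℝ} (hδ : 0 < δ) : ∀ᶠ p in PF e0 C1, NN p < δ :=
  tendsto_NN.eventually_lt_const hδ

/-- transfer from the filter to explicit constants -/
theorem exists_of_eventually {P : ℝ × ℝ × ℂ × ℂ → Prop} (h : ∀ᶠ p in PF e0 C1, P p) :
    ∃ ρ > 0, ∀ (r f : ℝ) (u v : ℂ), 0 < r → ‖u‖ ≤ ρ → ‖v‖ ≤ ρ →
      |r ^ 2 - e0 ^ 2| ≤ C1 * (‖u‖ ^ 2 + ‖v‖ ^ 2) → P (r, f, u, v) := by
  rw [PF, eventually_inf_principal, eventually_comap, Metric.eventually_nhds_iff] at h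
  obtain ⟨ρ, hρ, h⟩ := h
  refine ⟨ρ / 2, by positivity, fun r f u v hr hu hv h2 => ?_⟩
  refine h (y := NN (r, f, u, v)) ?_ (r, f, u, v) rfl ⟨hr, h2⟩
  have h3 := NN_le (p := (r, f, u, v)) hu hv
  rw [Real.dist_eq, sub_zero, abs_of_nonneg (NN_nonneg _)]
  linarith

/-- `f = O(N ^ k)` -/
def BO (e0 C1 : ℝ) (k : ℕ) (f : ℝ × ℝ × ℂ × ℂ → ℝ) : Prop :=
  f =O[PF e0 C1] fun p => NN p ^ k

theorem BO.mul {i j : ℕ} {f g : ℝ × ℝ × ℂ × ℂ → ℝ} (hf : BO e0 C1 i f) (hg : BO e0 C1 j g) :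
    BO e0 C1 (i + j) fun p => f p * g p := by
  have := IsBigO.mul hf hg
  simpa only [BO, ← pow_add] using this

theorem BO.add {i : ℕ} {f g : ℝ × ℝ × ℂ × ℂ → ℝ} (hf : BO e0 C1 i f) (hg : BO e0 C1 i g) :
    BO e0 C1 i fun p => f p + g p := IsBigO.add hf hg

theorem BO.sub {i : ℕ} {f g : ℝ × ℝ × ℂ × ℂ → ℝ} (hf : BO e0 C1 i f) (hg : BO e0 C1 i g) :
    BO e0 C1 i fun p => f p - g p := IsBigO.sub hf hg

theorem BO.congr' {i : ℕ} {f g : ℝ × ℝ × ℂ × ℂ → ℝ} (hf : BO e0 C1 i f)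
    (h : ∀ᶠ p in PF e0 C1, f p = g p) : BO e0 C1 i g :=
  IsBigO.congr' hf h EventuallyEq.rfl

theorem BO.congr {i : ℕ} {f g : ℝ × ℝ × ℂ × ℂ → ℝ} (hf : BO e0 C1 i f)
    (h : ∀ p, f p = g p) : BO e0 C1 i g := hf.congr' (Eventually.of_forall h)

theorem BO.mono {i j : ℕ} {f : ℝ × ℝ × ℂ × ℂ → ℝ} (hf : BO e0 C1 i f) (h : j ≤ i) :
    BO e0 C1 j f := by
  refine IsBigO.trans hf ?_
  refine IsBigO.of_bound 1 ?_
  filter_upwards [eventually_lt (e0 := e0) (C1 := C1) one_pos] with p hp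
  have h0 := NN_nonneg p
  rw [Real.norm_of_nonneg (by positivity), Real.norm_of_nonneg (by positivity), one_mul]
  exact pow_le_pow_of_le_one h0 hp.le h

theorem BO.of_le {i : ℕ} {f : ℝ × ℝ × ℂ × ℂ → ℝ} (C : ℝ)
    (h : ∀ᶠ p in PF e0 C1, |f p| ≤ C * NN p ^ i) : BO e0 C1 i f := by
  refine IsBigO.of_bound C ?_
  filter_upwards [h] with p hp
  rw [Real.norm_eq_abs, Real.norm_of_nonneg (pow_nonneg (NN_nonneg p) _)]
  exact hp

theorem BO.bdd {f : ℝ × ℝ × ℂ × ℂ → ℝ} (C : ℝ) (h : ∀ᶠ p in PF e0 C1, |f p| ≤ C) :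
    BO e0 C1 0 f := BO.of_le C (by simpa using h)

theorem BO.const (c : ℝ) : BO e0 C1 0 fun _ => c :=
  BO.bdd |c| (Eventually.of_forall fun _ => le_rfl)

theorem BO.const_mul {i : ℕ} {f : ℝ × ℝ × ℂ × ℂ → ℝ} (c : ℝ) (hf : BO e0 C1 i f) :
    BO e0 C1 i fun p => c * f p := by
  have := (BO.const (e0 := e0) (C1 := C1) c).mul hf
  simpa using this

theorem BO.tendsto {i : ℕ} {f : ℝ × ℝ × ℂ × ℂ → ℝ} (hi : i ≠ 0) (hf : BO e0 C1 i f) :
    Tendsto f (PF e0 C1) (𝓝 0) := by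
  refine IsBigO.trans_tendsto hf ?_
  have := (tendsto_NN (e0 := e0) (C1 := C1)).pow i
  simpa [hi] using this

theorem BO.bound {i : ℕ} {f : ℝ × ℝ × ℂ × ℂ → ℝ} (hf : BO e0 C1 i f) :
    ∃ C > 0, ∀ᶠ p in PF e0 C1, |f p| ≤ C * NN p ^ i := by
  obtain ⟨C, hC, h⟩ := IsBigO.exists_pos hf
  refine ⟨C, hC, ?_⟩
  filter_upwards [h.bound] with p hp
  rwa [Real.norm_eq_abs, Real.norm_of_nonneg (pow_nonneg (NN_nonneg p) _)] at hp

theorem bo_ure : BO e0 C1 1 fun p => p.2.2.1.re :=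
  BO.of_le 1 (Eventually.of_forall fun p => by simpa using ure_le p)

theorem bo_uim : BO e0 C1 1 fun p => p.2.2.1.im :=
  BO.of_le 1 (Eventually.of_forall fun p => by simpa using uim_le p)

theorem bo_vre : BO e0 C1 1 fun p => p.2.2.2.re :=
  BO.of_le 1 (Eventually.of_forall fun p => by simpa using vre_le p)

theorem bo_vim : BO e0 C1 1 fun p => p.2.2.2.im :=
  BO.of_le 1 (Eventually.of_forall fun p => by simpa using vim_le p)

theorem bo_cos : BO e0 C1 0 fun p => Real.cos p.2.1 :=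
  BO.bdd 1 (Eventually.of_forall fun _ => Real.abs_cos_le_one _)

theorem bo_sin : BO e0 C1 0 fun p => Real.sin p.2.1 :=
  BO.bdd 1 (Eventually.of_forall fun _ => Real.abs_sin_le_one _)

theorem bo_r (he0 : 0 < e0) (hC1 : 0 < C1) : BO e0 C1 2 fun p => p.1 - e0 := by
  refine BO.of_le (8 * C1 / e0) ?_
  filter_upwards [eventually_PS] with p hp
  obtain ⟨h1, h2⟩ := hp
  have h3 : |p.1 - e0| * e0 ≤ |p.1 ^ 2 - e0 ^ 2| := by
    have h4 : p.1 ^ 2 - e0 ^ 2 = (p.1 - e0) * (p.1 + e0) := by ring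
    rw [h4, abs_mul, abs_of_pos (by linarith : 0 < p.1 + e0)]
    exact mul_le_mul_of_nonneg_left (by linarith) (abs_nonneg _)
  have h5 : ‖p.2.2.1‖ ^ 2 ≤ 4 * NN p ^ 2 := by
    have := pow_le_pow_left₀ (norm_nonneg _) (u_le p) 2
    linarith
  have h6 : ‖p.2.2.2‖ ^ 2 ≤ 4 * NN p ^ 2 := by
    have := pow_le_pow_left₀ (norm_nonneg _) (v_le p) 2
    linarith
  have h7 : |p.1 - e0| * e0 ≤ 8 * C1 * NN p ^ 2 := by nlinarith
  rw [div_mul_eq_mul_div, le_div_iff₀ he0]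
  exact h7

theorem eventually_r (he0 : 0 < e0) (he1 : e0 < 1) (hC1 : 0 < C1) :
    ∀ᶠ p in PF e0 C1, e0 / 2 < p.1 ∧ p.1 < (1 + e0) / 2 := by
  have h := (bo_r he0 hC1).tendsto two_ne_zero
  have h2 : Tendsto (fun p : ℝ × ℝ × ℂ × ℂ => p.1) (PF e0 C1) (𝓝 e0) := by
    simpa using h.add_const e0
  exact (h2.eventually_const_lt (by linarith)).and (h2.eventually_lt_const (by linarith))

theorem den_pos {r : ℝ} (h0 : 0 ≤ r) (f : ℝ) : 1 - r ≤ 1 + r * Real.cos f := by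
  nlinarith [Real.neg_one_le_cos f]

theorem bo_R (he0 : 0 < e0) (he1 : e0 < 1) (hC1 : 0 < C1) : BO e0 C1 0 fun p => p.1⁻¹ := by
  refine BO.bdd (2 / e0) ?_
  filter_upwards [eventually_r he0 he1 hC1] with p hp
  rw [abs_of_pos (inv_pos.2 (by linarith)), show (2 / e0) = (e0 / 2)⁻¹ by rw [inv_div]]
  exact inv_anti₀ (by linarith) hp.1.le

theorem bo_D (he0 : 0 < e0) (he1 : e0 < 1) (hC1 : 0 < C1) :
    BO e0 C1 0 fun p => (1 + p.1 * Real.cos p.2.1)⁻¹ := by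
  refine BO.bdd ((1 - e0) / 2)⁻¹ ?_
  filter_upwards [eventually_r he0 he1 hC1] with p hp
  have h1 := den_pos (r := p.1) (by linarith) p.2.1
  rw [abs_of_pos (inv_pos.2 (by linarith))]
  exact inv_anti₀ (by linarith) (by linarith)

theorem bo_D0 (he0 : 0 < e0) (he1 : e0 < 1) :
    BO e0 C1 0 fun p => (1 + e0 * Real.cos p.2.1)⁻¹ := by
  refine BO.bdd (1 - e0)⁻¹ (Eventually.of_forall fun p => ?_)
  have h1 := den_pos (r := e0) he0.le p.2.1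
  rw [abs_of_pos (inv_pos.2 (by linarith))]
  exact inv_anti₀ (by linarith) (by linarith)

theorem bo_Rd (he0 : 0 < e0) (he1 : e0 < 1) (hC1 : 0 < C1) :
    BO e0 C1 2 fun p => p.1⁻¹ - e0⁻¹ := by
  have h := ((bo_r he0 hC1).mul (bo_R he0 he1 hC1)).const_mul (-e0⁻¹)
  refine h.congr' ?_
  filter_upwards [eventually_r he0 he1 hC1] with p hp
  have h1 : p.1 ≠ 0 := by linarith [hp.1]
  field_simp
  ring

theorem bo_Dd (he0 : 0 < e0) (he1 : e0 < 1) (hC1 : 0 < C1) :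
    BO e0 C1 2 fun p => (1 + p.1 * Real.cos p.2.1)⁻¹ - (1 + e0 * Real.cos p.2.1)⁻¹ := by
  have h := ((((bo_r he0 hC1).mul (bo_D he0 he1 hC1)).mul (bo_D0 he0 he1)).mul bo_cos).const_mul (-1)
  refine h.congr' ?_
  filter_upwards [eventually_r he0 he1 hC1] with p hp
  have h1 : 1 + p.1 * Real.cos p.2.1 ≠ 0 := by
    have := den_pos (r := p.1) (by linarith) p.2.1
    linarith
  have h2 : 1 + e0 * Real.cos p.2.1 ≠ 0 := by
    have := den_pos (r := e0) he0.le p.2.1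
    linarith
  field_simp
  ring

/-- real part of the quadratic part of `phi` -/
noncomputable def A2 (s : ℝ) (p : ℝ × ℝ × ℂ × ℂ) : ℝ :=
  -(3 / 4) * (p.2.2.1.re ^ 2 + p.2.2.1.im ^ 2) - 9 / 4 * s * (p.2.2.1.re ^ 2 - p.2.2.1.im ^ 2)

/-- imaginary part of the quadratic part of `phi` -/
noncomputable def B2 (s : ℝ) (p : ℝ × ℝ × ℂ × ℂ) : ℝ := 3 * s * (p.2.2.1.re * p.2.2.1.im)

theorem bo_A2 (s : ℝ) : BO e0 C1 2 (A2 s) := by
  have h1 : BO e0 C1 2 fun p => p.2.2.1.re * p.2.2.1.re := bo_ure.mul bo_ure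
  have h2 : BO e0 C1 2 fun p => p.2.2.1.im * p.2.2.1.im := bo_uim.mul bo_uim
  refine (((h1.add h2).const_mul (-(3 / 4))).sub ((h1.sub h2).const_mul (9 / 4 * s))).congr ?_
  intro p
  simp only [A2]
  ring

theorem bo_B2 (s : ℝ) : BO e0 C1 2 (B2 s) := by
  have h1 : BO e0 C1 2 fun p => p.2.2.1.re * p.2.2.1.im := bo_ure.mul bo_uim
  exact h1.const_mul (3 * s)

/-- bounds with respect to `u` give bounds with respect to the state -/
theorem bo_of_u {h : ℂ → ℝ} (k : ℕ) (H : ∃ C > 0, ∃ ρ > 0, ∀ u : ℂ, ‖u‖ ≤ ρ → |h u| ≤ C * ‖u‖ ^ k) :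
    BO e0 C1 k fun p => h p.2.2.1 := by
  obtain ⟨C, hC, ρ, hρ, H⟩ := H
  refine BO.of_le (C * 2 ^ k) ?_
  filter_upwards [eventually_lt (e0 := e0) (C1 := C1) (half_pos hρ)] with p hp
  have h1 := u_le p
  refine (H _ (by linarith)).trans ?_
  rw [mul_assoc, ← mul_pow]
  exact mul_le_mul_of_nonneg_left (pow_le_pow_left₀ (norm_nonneg _) h1 _) hC.le

theorem quad_phi (s : ℝ) (u : ℂ) :
    (-(3 / 4) * ((‖u‖ : ℝ) : ℂ) ^ 2 - 3 / 2 * s * conj u ^ 2 - 3 / 4 * s * ((u ^ 2).re : ℂ)) =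
      ⟨-(3 / 4) * (u.re ^ 2 + u.im ^ 2) - 9 / 4 * s * (u.re ^ 2 - u.im ^ 2),
        3 * s * (u.re * u.im)⟩ := by
  have h1 : ((‖u‖ : ℝ) : ℂ) ^ 2 = ((u.re ^ 2 + u.im ^ 2 : ℝ) : ℂ) := by
    rw [← ofReal_pow, Complex.sq_norm, normSq_apply]
    congr 1
    ring
  rw [h1]
  apply Complex.ext
  · simp [pow_two]
    ring
  · simp [pow_two]
    ring

theorem bo_phi_re (S : Shape) (hS : S.Good) :
    BO e0 C1 3 fun p => (phi S p.2.2.1).re - A2 S.s p := by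
  refine bo_of_u (h := fun u => (phi S u).re - (-(3 / 4) * (u.re ^ 2 + u.im ^ 2) -
    9 / 4 * S.s * (u.re ^ 2 - u.im ^ 2))) 3 ?_
  obtain ⟨C, hC, ρ, hρ, H⟩ := phi_expansion S hS
  refine ⟨C, hC, ρ, hρ, fun u hu => ?_⟩
  have h1 := H u hu
  rw [quad_phi] at h1
  exact (Complex.abs_re_le_norm _).trans h1

theorem bo_phi_im (S : Shape) (hS : S.Good) :
    BO e0 C1 3 fun p => (phi S p.2.2.1).im - B2 S.s p := by
  refine bo_of_u (h := fun u => (phi S u).im - 3 * S.s * (u.re * u.im)) 3 ?_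
  obtain ⟨C, hC, ρ, hρ, H⟩ := phi_expansion S hS
  refine ⟨C, hC, ρ, hρ, fun u hu => ?_⟩
  have h1 := H u hu
  rw [quad_phi] at h1
  exact (Complex.abs_im_le_norm _).trans h1

/-- the quadratic part of the precession rate -/
noncomputable def q2 (s e0 : ℝ) (p : ℝ × ℝ × ℂ × ℂ) : ℝ :=
  B2 s p * Real.sin p.2.1 * (e0⁻¹ * (1 + e0 * Real.cos p.2.1)⁻¹) -
    (A2 s p * Real.cos p.2.1 - B2 s p * Real.sin p.2.1) * e0⁻¹

theorem bo_q2 (s : ℝ) (he0 : 0 < e0) (he1 : e0 < 1) : BO e0 C1 2 (q2 s e0) := by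
  have h1 := ((bo_B2 (e0 := e0) (C1 := C1) s).mul bo_sin).mul ((BO.const e0⁻¹).mul (bo_D0 he0 he1))
  have h2 := (((bo_A2 (e0 := e0) (C1 := C1) s).mul bo_cos).sub ((bo_B2 s).mul bo_sin)).mul
    (BO.const e0⁻¹)
  exact h1.sub h2

theorem Gam_eq (S : Shape) (r f : ℝ) (u : ℂ) :
    Gam S r f u = (phi S u).im * Real.sin f * (r⁻¹ * (1 + r * Real.cos f)⁻¹) -
      ((phi S u).re * Real.cos f - (phi S u).im * Real.sin f) * r⁻¹ := by
  have h1 : (exp (f * I)).re = Real.cos f := exp_ofReal_mul_I_re f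
  have h2 : (exp (f * I)).im = Real.sin f := exp_ofReal_mul_I_im f
  rw [Gam, mul_re, h1, h2, div_eq_mul_inv, mul_inv, div_eq_mul_inv]

theorem bo_Gam_sub (S : Shape) (hS : S.Good) (he0 : 0 < e0) (he1 : e0 < 1) (hC1 : 0 < C1) :
    BO e0 C1 3 fun p => Gam S p.1 p.2.1 p.2.2.1 - q2 S.s e0 p := by
  have ha := bo_phi_re (e0 := e0) (C1 := C1) S hS
  have hb := bo_phi_im (e0 := e0) (C1 := C1) S hS
  have hR := bo_R he0 he1 hC1
  have hD := bo_D he0 he1 hC1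
  have hRd := bo_Rd he0 he1 hC1
  have hDd := bo_Dd he0 he1 hC1
  have hB := bo_B2 (e0 := e0) (C1 := C1) S.s
  have hA := bo_A2 (e0 := e0) (C1 := C1) S.s
  have t1 := (hb.mul bo_sin).mul (hR.mul hD)
  have t2 := (hB.mul bo_sin).mul ((hRd.mul hD).add (hDd.const_mul e0⁻¹))
  have t3 := ((ha.mul bo_cos).sub (hb.mul bo_sin)).mul hR
  have t4 := ((hA.mul bo_cos).sub (hB.mul bo_sin)).mul hRd
  have t2' := t2.mono (show 3 ≤ 2 + 0 + 2 by norm_num)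
  have t4' := t4.mono (show 3 ≤ 2 + 0 + 2 by norm_num)
  refine (((t1.add t2').sub t3).sub t4').congr ?_
  intro p
  rw [Gam_eq, q2]
  ring

theorem bo_Gam (S : Shape) (hS : S.Good) (he0 : 0 < e0) (he1 : e0 < 1) (hC1 : 0 < C1) :
    BO e0 C1 2 fun p => Gam S p.1 p.2.1 p.2.2.1 := by
  refine (((bo_Gam_sub S hS he0 he1 hC1).mono (by norm_num : 2 ≤ 3)).add
    (bo_q2 S.s he0 he1)).congr ?_
  intro p
  ring

theorem eventually_Gam (S : Shape) (hS : S.Good) (he0 : 0 < e0) (he1 : e0 < 1) (hC1 : 0 < C1) :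
    ∀ᶠ p in PF e0 C1, |Gam S p.1 p.2.1 p.2.2.1| ≤ 1 / 2 := by
  have h := ((bo_Gam S hS he0 he1 hC1).tendsto two_ne_zero).abs
  rw [abs_zero] at h
  filter_upwards [h.eventually_lt_const (by norm_num : (0 : ℝ) < 1 / 2)] with p hp
  exact hp.le

theorem bo_inv (S : Shape) (hS : S.Good) (he0 : 0 < e0) (he1 : e0 < 1) (hC1 : 0 < C1) :
    BO e0 C1 0 fun p => (1 - Gam S p.1 p.2.1 p.2.2.1)⁻¹ := by
  refine BO.bdd 2 ?_
  filter_upwards [eventually_Gam S hS he0 he1 hC1] with p hp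
  have h1 := abs_le.1 hp
  rw [abs_of_pos (inv_pos.2 (by linarith)), show (2 : ℝ) = (1 / 2)⁻¹ by norm_num]
  exact inv_anti₀ (by norm_num) (by linarith)

/-- dividing by `1 - Gam` does not matter -/
theorem bo_div (S : Shape) (hS : S.Good) (he0 : 0 < e0) (he1 : e0 < 1) (hC1 : 0 < C1)
    {w : ℝ × ℝ × ℂ × ℂ → ℝ} (hw : BO e0 C1 1 w) :
    BO e0 C1 3 fun p => w p / (1 - Gam S p.1 p.2.1 p.2.2.1) - w p := by
  refine ((hw.mul (bo_Gam S hS he0 he1 hC1)).mul (bo_inv S hS he0 he1 hC1)).congr' ?_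
  filter_upwards [eventually_Gam S hS he0 he1 hC1] with p hp
  have h1 := abs_le.1 hp
  have h2 : 1 - Gam S p.1 p.2.1 p.2.2.1 ≠ 0 := by linarith
  field_simp
  ring

theorem bo_main_g (S : Shape) (hS : S.Good) (he0 : 0 < e0) (he1 : e0 < 1) (hC1 : 0 < C1) :
    BO e0 C1 3 fun p => Gam S p.1 p.2.1 p.2.2.1 / (1 - Gam S p.1 p.2.1 p.2.2.1) - q2 S.s e0 p := by
  have h1 := bo_div S hS he0 he1 hC1 ((bo_Gam S hS he0 he1 hC1).mono one_le_two)
  refine (h1.add (bo_Gam_sub S hS he0 he1 hC1)).congr ?_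
  intro p
  ring

/-- quadratic form with complex values of the shape -/
noncomputable def Q2 (α β γ : ℂ) (p : ℝ × ℝ × ℂ × ℂ) : ℂ :=
  α * p.2.2.1 ^ 2 + β * (p.2.2.1 * conj p.2.2.1) + γ * conj p.2.2.1 ^ 2

/-- coefficient of `x ^ 2` -/
def qa (α β γ : ℂ) : ℂ := α + β + γ

/-- coefficient of `y ^ 2` -/
def qb (α β γ : ℂ) : ℂ := β - α - γ

/-- coefficient of `x * y` -/
def qc (α γ : ℂ) : ℂ := 2 * I * (α - γ)

theorem quad_eq (α β γ x y : ℂ) :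
    α * (x + y * I) ^ 2 + β * ((x + y * I) * (x - y * I)) + γ * (x - y * I) ^ 2 =
      qa α β γ * (x * x) + qb α β γ * (y * y) + qc α γ * (x * y) := by
  rw [qa, qb, qc]
  linear_combination (α * y ^ 2 - β * y ^ 2 + γ * y ^ 2) * I_sq

theorem Q2_eq (α β γ : ℂ) (p : ℝ × ℝ × ℂ × ℂ) :
    Q2 α β γ p = qa α β γ * ((p.2.2.1.re * p.2.2.1.re : ℝ) : ℂ) +
      qb α β γ * ((p.2.2.1.im * p.2.2.1.im : ℝ) : ℂ) +
      qc α γ * ((p.2.2.1.re * p.2.2.1.im : ℝ) : ℂ) := by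
  have h : (p.2.2.1.re : ℂ) + (p.2.2.1.im : ℂ) * I = p.2.2.1 := re_add_im _
  have hc : (p.2.2.1.re : ℂ) - (p.2.2.1.im : ℂ) * I = conj p.2.2.1 := by
    apply Complex.ext <;> simp
  have := quad_eq α β γ p.2.2.1.re p.2.2.1.im
  rw [h, hc] at this
  rw [Q2, this]
  push_cast
  ring

theorem Q2_re (α β γ : ℂ) (p : ℝ × ℝ × ℂ × ℂ) :
    (Q2 α β γ p).re = (qa α β γ).re * (p.2.2.1.re * p.2.2.1.re) +
      (qb α β γ).re * (p.2.2.1.im * p.2.2.1.im) +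
      (qc α γ).re * (p.2.2.1.re * p.2.2.1.im) := by
  rw [Q2_eq, add_re, add_re, re_mul_ofReal, re_mul_ofReal, re_mul_ofReal]

theorem Q2_im (α β γ : ℂ) (p : ℝ × ℝ × ℂ × ℂ) :
    (Q2 α β γ p).im = (qa α β γ).im * (p.2.2.1.re * p.2.2.1.re) +
      (qb α β γ).im * (p.2.2.1.im * p.2.2.1.im) +
      (qc α γ).im * (p.2.2.1.re * p.2.2.1.im) := by
  rw [Q2_eq, add_im, add_im, im_mul_ofReal, im_mul_ofReal, im_mul_ofReal]

theorem bo_Q2_re (α β γ : ℂ) : BO e0 C1 2 fun p => (Q2 α β γ p).re := by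
  have h1 : BO e0 C1 2 fun p => p.2.2.1.re * p.2.2.1.re := bo_ure.mul bo_ure
  have h2 : BO e0 C1 2 fun p => p.2.2.1.im * p.2.2.1.im := bo_uim.mul bo_uim
  have h3 : BO e0 C1 2 fun p => p.2.2.1.re * p.2.2.1.im := bo_ure.mul bo_uim
  exact (((h1.const_mul (qa α β γ).re).add (h2.const_mul (qb α β γ).re)).add
    (h3.const_mul (qc α γ).re)).congr fun p => (Q2_re α β γ p).symm

theorem bo_Q2_im (α β γ : ℂ) : BO e0 C1 2 fun p => (Q2 α β γ p).im := by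
  have h1 : BO e0 C1 2 fun p => p.2.2.1.re * p.2.2.1.re := bo_ure.mul bo_ure
  have h2 : BO e0 C1 2 fun p => p.2.2.1.im * p.2.2.1.im := bo_uim.mul bo_uim
  have h3 : BO e0 C1 2 fun p => p.2.2.1.re * p.2.2.1.im := bo_ure.mul bo_uim
  exact (((h1.const_mul (qa α β γ).im).add (h2.const_mul (qb α β γ).im)).add
    (h3.const_mul (qc α γ).im)).congr fun p => (Q2_im α β γ p).symm

/-- generic component of the acceleration: `W = d + (c - b v) D` -/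
theorem bo_comp (S : Shape) (hS : S.Good) (he0 : 0 < e0) (he1 : e0 < 1) (hC1 : 0 < C1)
    {d c v l Q : ℝ × ℝ × ℂ × ℂ → ℝ} (hd : BO e0 C1 1 d) (hv : BO e0 C1 1 v)
    (hl : BO e0 C1 1 l) (hQ : BO e0 C1 2 Q) (hc : BO e0 C1 3 fun p => c p - (l p + Q p)) :
    BO e0 C1 3 fun p => (d p + (c p - (phi S p.2.2.1).im * v p) *
        (1 + p.1 * Real.cos p.2.1)⁻¹) / (1 - Gam S p.1 p.2.1 p.2.2.1) -
      (d p + (l p + Q p) * (1 + e0 * Real.cos p.2.1)⁻¹) := by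
  have hb : BO e0 C1 2 fun p => (phi S p.2.2.1).im := by
    refine (((bo_phi_im S hS).mono (by norm_num : 2 ≤ 3)).add (bo_B2 S.s)).congr ?_
    intro p; ring
  have hD := bo_D he0 he1 hC1
  have hDd := bo_Dd he0 he1 hC1
  have hlQ : BO e0 C1 1 fun p => l p + Q p := hl.add (hQ.mono one_le_two)
  have hc1 : BO e0 C1 1 c := by
    refine ((hc.mono (by norm_num : 1 ≤ 3)).add hlQ).congr ?_
    intro p; ring
  have hbv : BO e0 C1 3 fun p => (phi S p.2.2.1).im * v p := hb.mul hv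
  have hW : BO e0 C1 1 fun p => d p + (c p - (phi S p.2.2.1).im * v p) *
      (1 + p.1 * Real.cos p.2.1)⁻¹ :=
    hd.add ((hc1.sub (hbv.mono (by norm_num : 1 ≤ 3))).mul hD)
  have t1 := bo_div S hS he0 he1 hC1 hW
  have t2 : BO e0 C1 3 fun p => (c p - (l p + Q p)) * (1 + p.1 * Real.cos p.2.1)⁻¹ := hc.mul hD
  have t3 : BO e0 C1 3 fun p => (phi S p.2.2.1).im * v p * (1 + p.1 * Real.cos p.2.1)⁻¹ :=
    hbv.mul hD
  have t4 : BO e0 C1 3 fun p => (l p + Q p) *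
    ((1 + p.1 * Real.cos p.2.1)⁻¹ - (1 + e0 * Real.cos p.2.1)⁻¹) := hlQ.mul hDd
  refine (((t1.add t2).sub t3).add t4).congr ?_
  intro p
  ring

theorem bo_chi (S : Shape) {α β γ : ℂ} (H : ∃ C > 0, ∃ ρ > 0, ∀ u : ℂ,
    ‖u‖ ≤ ρ → ‖chi S u - (3 / 2 * u + 3 / 2 * S.s * conj u +
      (α * u ^ 2 + β * (u * conj u) + γ * conj u ^ 2))‖ ≤ C * ‖u‖ ^ 3) :
    (BO e0 C1 3 fun p => (chi S p.2.2.1).re -
      (3 / 2 * (1 + S.s) * p.2.2.1.re + (Q2 α β γ p).re)) ∧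
    (BO e0 C1 3 fun p => (chi S p.2.2.1).im -
      (3 / 2 * (1 - S.s) * p.2.2.1.im + (Q2 α β γ p).im)) := by
  obtain ⟨C, hC, ρ, hρ, H⟩ := H
  constructor
  · refine bo_of_u (h := fun u => (chi S u).re - (3 / 2 * (1 + S.s) * u.re +
      (α * u ^ 2 + β * (u * conj u) + γ * conj u ^ 2).re)) 3 ⟨C, hC, ρ, hρ, fun u hu => ?_⟩
    refine le_trans (le_of_eq ?_) ((Complex.abs_re_le_norm _).trans (H u hu))
    congr 1
    rw [sub_re, add_re, add_re]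
    congr 2
    simp
    ring
  · refine bo_of_u (h := fun u => (chi S u).im - (3 / 2 * (1 - S.s) * u.im +
      (α * u ^ 2 + β * (u * conj u) + γ * conj u ^ 2).im)) 3 ⟨C, hC, ρ, hρ, fun u hu => ?_⟩
    refine le_trans (le_of_eq ?_) ((Complex.abs_im_le_norm _).trans (H u hu))
    congr 1
    rw [sub_im, add_im, add_im]
    congr 2
    simp
    ring

/-- coefficients of the quadratic terms (without the factor `rho`) -/
def nr (a b c : ℂ) : Fin 4 → Matrix (Fin 4) (Fin 4) ℝ :=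
  ![0, 0,
    !![a.re, c.re, 0, 0; 0, b.re, 0, 0; 0, 0, 0, 0; 0, 0, 0, 0],
    !![a.im, c.im, 0, 0; 0, b.im, 0, 0; 0, 0, 0, 0; 0, 0, 0, 0]]

theorem comp0 (S : Shape) (a b c : ℂ) (e0 r f : ℝ) (u v : ℂ) :
    vec v (Ac S r f u v) 0 / ((1 - Gam S r f u : ℝ) : ℂ) -
      ((Bs S.s e0 f *ᵥ vec u v) 0 + ∑ i, ∑ k,
        ((nr a b c 0 i k * (1 + e0 * Real.cos f)⁻¹ : ℝ) : ℂ) * (vec u v i * vec u v k)) =
      ((v.re / (1 - Gam S r f u) - v.re : ℝ) : ℂ) := by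
  simp [nr, vec, Bs, Matrix.mulVec, dotProduct, Fin.sum_univ_four]

theorem comp1 (S : Shape) (a b c : ℂ) (e0 r f : ℝ) (u v : ℂ) :
    vec v (Ac S r f u v) 1 / ((1 - Gam S r f u : ℝ) : ℂ) -
      ((Bs S.s e0 f *ᵥ vec u v) 1 + ∑ i, ∑ k,
        ((nr a b c 1 i k * (1 + e0 * Real.cos f)⁻¹ : ℝ) : ℂ) * (vec u v i * vec u v k)) =
      ((v.im / (1 - Gam S r f u) - v.im : ℝ) : ℂ) := by
  simp [nr, vec, Bs, Matrix.mulVec, dotProduct, Fin.sum_univ_four]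

theorem Ac_re (S : Shape) (r f : ℝ) (u v : ℂ) :
    (Ac S r f u v).re = 2 * v.im + ((chi S u).re - (phi S u).im * v.re) *
      (1 + r * Real.cos f)⁻¹ := by
  rw [Ac, add_re, div_eq_mul_inv, ← ofReal_inv, re_mul_ofReal, sub_re, re_ofReal_mul]
  simp

theorem Ac_im (S : Shape) (r f : ℝ) (u v : ℂ) :
    (Ac S r f u v).im = -2 * v.re + ((chi S u).im - (phi S u).im * v.im) *
      (1 + r * Real.cos f)⁻¹ := by
  rw [Ac, add_im, div_eq_mul_inv, ← ofReal_inv, im_mul_ofReal, sub_im, im_ofReal_mul]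
  simp

theorem rho_real (e f : ℝ) : rho (e : ℂ) f = (((1 + e * Real.cos f)⁻¹ : ℝ) : ℂ) := by
  rw [rho]
  push_cast
  rfl

theorem comp2 (S : Shape) (α β γ : ℂ) (e0 r f : ℝ) (u v : ℂ) :
    vec v (Ac S r f u v) 2 / ((1 - Gam S r f u : ℝ) : ℂ) -
      ((Bs S.s e0 f *ᵥ vec u v) 2 + ∑ i, ∑ k,
        ((nr (qa α β γ) (qb α β γ) (qc α γ) 2 i k * (1 + e0 * Real.cos f)⁻¹ : ℝ) : ℂ) *
          (vec u v i * vec u v k)) =
      (((2 * v.im + ((chi S u).re - (phi S u).im * v.re) * (1 + r * Real.cos f)⁻¹) /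
        (1 - Gam S r f u) - (2 * v.im + (3 / 2 * (1 + S.s) * u.re +
          (Q2 α β γ (r, f, u, v)).re) * (1 + e0 * Real.cos f)⁻¹) : ℝ) : ℂ) := by
  rw [Q2_re]
  have h2 : vec v (Ac S r f u v) 2 = ((Ac S r f u v).re : ℂ) := rfl
  rw [h2, Ac_re]
  simp only [nr, vec, Bs, Matrix.mulVec, dotProduct, Fin.sum_univ_four, rho_real]
  simp
  ring

theorem comp3 (S : Shape) (α β γ : ℂ) (e0 r f : ℝ) (u v : ℂ) :
    vec v (Ac S r f u v) 3 / ((1 - Gam S r f u : ℝ) : ℂ) -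
      ((Bs S.s e0 f *ᵥ vec u v) 3 + ∑ i, ∑ k,
        ((nr (qa α β γ) (qb α β γ) (qc α γ) 3 i k * (1 + e0 * Real.cos f)⁻¹ : ℝ) : ℂ) *
          (vec u v i * vec u v k)) =
      (((-2 * v.re + ((chi S u).im - (phi S u).im * v.im) * (1 + r * Real.cos f)⁻¹) /
        (1 - Gam S r f u) - (-2 * v.re + (3 / 2 * (1 - S.s) * u.im +
          (Q2 α β γ (r, f, u, v)).im) * (1 + e0 * Real.cos f)⁻¹) : ℝ) : ℂ) := by
  rw [Q2_im]
  have h2 : vec v (Ac S r f u v) 3 = ((Ac S r f u v).im : ℂ) := rfl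
  rw [h2, Ac_im]
  simp only [nr, vec, Bs, Matrix.mulVec, dotProduct, Fin.sum_univ_four, rho_real]
  simp
  ring

theorem q_eq (S : Shape) (he0 : 0 < e0) (he1 : e0 < 1) (r f : ℝ) (u v : ℂ) :
    (∑ i, ∑ k, qs S.s e0 f i k * (vec u v i * vec u v k)).re = q2 S.s e0 (r, f, u, v) := by
  have h2 : 1 + e0 * Real.cos f ≠ 0 := by
    have := den_pos (r := e0) he0.le f
    linarith
  have h : (∑ i, ∑ k, qs S.s e0 f i k * (vec u v i * vec u v k)) =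
      ((q2 S.s e0 (r, f, u, v) : ℝ) : ℂ) := by
    have h3 : q2 S.s e0 (r, f, u, v) =
        3 / 4 * (1 + 3 * S.s) * Real.cos f / e0 * (u.re * u.re) +
        3 / 2 * S.s * Real.sin f * (2 + e0 * Real.cos f) / (1 + e0 * Real.cos f) / e0 *
          (u.re * u.im) +
        3 / 2 * S.s * Real.sin f * (2 + e0 * Real.cos f) / (1 + e0 * Real.cos f) / e0 *
          (u.im * u.re) +
        3 / 4 * (1 - 3 * S.s) * Real.cos f / e0 * (u.im * u.im) := by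
      simp only [q2, A2, B2]
      field_simp
      ring
    rw [h3]
    simp only [vec, qs, Fin.sum_univ_four]
    simp
    ring
  rw [h, ofReal_re]

end ExpC

open ExpC in
/-- Expansion of the reduced vector field. -/
theorem field_expansion (S : Shape) (hS : S.Good) (e0 C1 : ℝ) (he0 : 0 < e0) (he1 : e0 < 1)
    (hC1 : 0 < C1) :
    ∃ n : Fin 4 → Fin 4 → Fin 4 → ℝ → ℂ, (∀ l i k, Continuous (n l i k)) ∧
      (∀ l i k θ, n l i k (θ + 2 * π) = n l i k θ) ∧ ∃ C > 0, ∃ ρ > 0,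
      ∀ (r f : ℝ) (u v : ℂ), 0 < r → ‖u‖ ≤ ρ → ‖v‖ ≤ ρ →
        |r ^ 2 - e0 ^ 2| ≤ C1 * (‖u‖ ^ 2 + ‖v‖ ^ 2) →
        |Gam S r f u| ≤ 1 / 2 ∧
        |Gam S r f u / (1 - Gam S r f u) -
          (∑ i, ∑ k, qs S.s e0 f i k * (vec u v i * vec u v k)).re| ≤ C * ‖vec u v‖ ^ 3 ∧
        ∀ l, ‖vec v (Ac S r f u v) l / ((1 - Gam S r f u : ℝ) : ℂ) -
          ((Bs S.s e0 f *ᵥ vec u v) l +
            ∑ i, ∑ k, n l i k f * (vec u v i * vec u v k))‖ ≤ C * ‖vec u v‖ ^ 3 := by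
  obtain ⟨α, β, γ, H⟩ := chi_expansion S hS
  obtain ⟨hcr, hci⟩ := bo_chi (e0 := e0) (C1 := C1) S H
  have hl2 : BO e0 C1 1 fun p => 3 / 2 * (1 + S.s) * p.2.2.1.re := bo_ure.const_mul _
  have hl3 : BO e0 C1 1 fun p => 3 / 2 * (1 - S.s) * p.2.2.1.im := bo_uim.const_mul _
  have G1 := eventually_Gam S hS he0 he1 hC1
  obtain ⟨Cg, hCg, Hg⟩ := (bo_main_g S hS he0 he1 hC1).bound
  obtain ⟨K0, hK0, H0⟩ := (bo_div S hS he0 he1 hC1 bo_vre).bound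
  obtain ⟨K1, hK1, H1⟩ := (bo_div S hS he0 he1 hC1 bo_vim).bound
  obtain ⟨K2, hK2, H2⟩ := (bo_comp S hS he0 he1 hC1 (bo_vim.const_mul 2) bo_vre hl2
    (bo_Q2_re α β γ) hcr).bound
  obtain ⟨K3, hK3, H3⟩ := (bo_comp S hS he0 he1 hC1 (bo_vre.const_mul (-2)) bo_vim hl3
    (bo_Q2_im α β γ) hci).bound
  obtain ⟨ρ, hρ, HH⟩ := exists_of_eventually
    (((((G1.and Hg).and H0).and H1).and H2).and H3)
  refine ⟨fun l i k f => ((nr (qa α β γ) (qb α β γ) (qc α γ) l i k *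
    (1 + e0 * Real.cos f)⁻¹ : ℝ) : ℂ), ?_, ?_, Cg + K0 + K1 + K2 + K3, by positivity, ρ, hρ, ?_⟩
  · intro l i k
    refine continuous_ofReal.comp (continuous_const.mul (Continuous.inv₀ (by fun_prop) ?_))
    intro f
    have := den_pos (r := e0) he0.le f
    linarith
  · intro l i k θ
    simp only [Real.cos_add_two_pi]
  · intro r f u v hr hu hv h2
    obtain ⟨⟨⟨⟨⟨g1, g2⟩, g3⟩, g4⟩, g5⟩, g6⟩ := HH r f u v hr hu hv h2
    have hN : 0 ≤ ‖vec u v‖ ^ 3 := by positivity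
    have hNN : NN (r, f, u, v) = ‖vec u v‖ := rfl
    rw [hNN] at g2 g3 g4 g5 g6
    refine ⟨g1, ?_, ?_⟩
    · rw [q_eq S he0 he1 r f u v]
      refine g2.trans (mul_le_mul_of_nonneg_right ?_ hN)
      linarith
    · intro l
      fin_cases l
      · refine (le_of_eq (congrArg norm (comp0 S _ _ _ e0 r f u v))).trans ?_
        rw [norm_real]
        refine g3.trans (mul_le_mul_of_nonneg_right ?_ hN)
        linarith
      · refine (le_of_eq (congrArg norm (comp1 S _ _ _ e0 r f u v))).trans ?_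
        rw [norm_real]
        refine g4.trans (mul_le_mul_of_nonneg_right ?_ hN)
        linarith
      · refine (le_of_eq (congrArg norm (comp2 S α β γ e0 r f u v))).trans ?_
        rw [norm_real]
        refine g5.trans (mul_le_mul_of_nonneg_right ?_ hN)
        linarith
      · refine (le_of_eq (congrArg norm (comp3 S α β γ e0 r f u v))).trans ?_
        rw [norm_real]
        refine g6.trans (mul_le_mul_of_nonneg_right ?_ hN)
        linarith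

end Pool.Agent.MP_5027f4_ell
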