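import Pool.Agent.Lib_MP_5027f4_ell.Defs

/-!
# Equal masses: the Hill equation and a multiplier greater than one
-/

open Complex Set Filter Topology MeasureTheory Polynomial
open scoped Real Matrix ComplexConjugate

namespace Pool.Agent.MP_5027f4_ell

namespace GenA

/-- real potential -/
noncomputable def pot (e θ : ℝ) : ℝ := 3 / 2 * (1 + e * Real.cos θ)⁻¹ - 1

lemma D_pos {e : ℝ} (he0 : 0 ≤ e) (he1 : e < 1) (θ : ℝ) : 0 < 1 + e * Real.cos θ := by
  have h1 := Real.neg_one_le_cos θ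
  nlinarith

lemma const_of_deriv_zero (f : ℝ → ℂ) (h : ∀ t, HasDerivAt f 0 t) (t : ℝ) : f t = f 0 :=
  is_const_of_deriv_eq_zero (fun t => (h t).differentiableAt) (fun t => (h t).deriv) t 0

lemma const_of_deriv_zero_real (f : ℝ → ℝ) (h : ∀ t, HasDerivAt f 0 t) (t : ℝ) : f t = f 0 :=
  is_const_of_deriv_eq_zero (fun t => (h t).differentiableAt) (fun t => (h t).deriv) t 0

/-- `h'' = pot h` as a first order system, complex values -/
def SolC (e : ℝ) (h g : ℝ → ℂ) : Prop :=
  ∀ t, HasDerivAt h (g t) t ∧ HasDerivAt g ((pot e t : ℂ) * h t) t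

/-- the same with real values -/
def SolR (e : ℝ) (h g : ℝ → ℝ) : Prop :=
  ∀ t, HasDerivAt h (g t) t ∧ HasDerivAt g (pot e t * h t) t

lemma hasDerivAt_re {f : ℝ → ℂ} {f' : ℂ} {t : ℝ} (h : HasDerivAt f f' t) :
    HasDerivAt (fun t => (f t).re) f'.re t :=
  (Complex.reCLM.hasFDerivAt (x := f t)).comp_hasDerivAt t h

lemma SolC.re {e : ℝ} {h g : ℝ → ℂ} (H : SolC e h g) :
    SolR e (fun t => (h t).re) (fun t => (g t).re) := by
  intro t
  refine ⟨?_, ?_⟩
  · exact hasDerivAt_re (H t).1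
  · have := hasDerivAt_re (H t).2
    simpa using this

lemma SolR.toC {e : ℝ} {h g : ℝ → ℝ} (H : SolR e h g) :
    SolC e (fun t => (h t : ℂ)) (fun t => (g t : ℂ)) := by
  intro t
  refine ⟨(H t).1.ofReal_comp, ?_⟩
  have := (H t).2.ofReal_comp
  push_cast at this
  exact this

lemma wronskian {e : ℝ} {h g k l : ℝ → ℂ} (H : SolC e h g) (K : SolC e k l) (t : ℝ) :
    h t * l t - g t * k t = h 0 * l 0 - g 0 * k 0 := by
  refine const_of_deriv_zero (fun t => h t * l t - g t * k t) (fun t => ?_) t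
  have h1 := ((H t).1.mul (K t).2).sub ((H t).2.mul (K t).1)
  refine h1.congr_deriv ?_
  ring

lemma solC_eq {e : ℝ} {h1 g1 h2 g2 h g : ℝ → ℂ} (H1 : SolC e h1 g1) (H2 : SolC e h2 g2)
    (a1 : h1 0 = 1) (b1 : g1 0 = 0) (a2 : h2 0 = 0) (b2 : g2 0 = 1) (H : SolC e h g) (t : ℝ) :
    h t = h 0 * h1 t + g 0 * h2 t ∧ g t = h 0 * g1 t + g 0 * g2 t := by
  have w := wronskian H1 H2 t
  have w1 := wronskian H H1 t
  have w2 := wronskian H H2 t
  rw [a1, b1] at w1
  rw [a2, b2] at w2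
  rw [a1, b1, a2, b2] at w
  constructor
  · linear_combination (-h t) * w + h1 t * w2 - h2 t * w1
  · linear_combination (-g t) * w + g1 t * w2 - g2 t * w1

/-- transformation of the four dimensional system -/
lemma transform {e : ℝ} {X : ℝ → Mat} (hX : IsFund (Bs 0 e) X) (ι : ℂ) (hι : ι * ι = -1)
    (j : Fin 4) :
    SolC e (fun t => exp (ι * t) * (X t 0 j + ι * X t 1 j))
      (fun t => exp (ι * t) * (X t 2 j + ι * X t 3 j) +
        ι * (exp (ι * t) * (X t 0 j + ι * X t 1 j))) := by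
  intro t
  have hE : HasDerivAt (fun t : ℝ => exp (ι * t)) (ι * exp (ι * t)) t := by
    have h1 : HasDerivAt (fun t : ℝ => ι * (t : ℂ)) ι t := by
      have := (Complex.ofRealCLM.hasDerivAt (x := t)).const_mul ι
      simpa using this
    have := h1.cexp
    rw [mul_comm] at this
    exact this
  have e0 := hX.2 t 0 j
  have e1 := hX.2 t 1 j
  have e2 := hX.2 t 2 j
  have e3 := hX.2 t 3 j
  simp only [Bs, Matrix.mul_apply, Fin.sum_univ_four, Matrix.of_apply, Matrix.cons_val', Matrix.cons_val_zero,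
    Matrix.cons_val_one, Matrix.cons_val] at e0 e1 e2 e3
  have hpot : (pot e t : ℂ) = 3 / 2 * rho e t - 1 := by
    unfold pot rho
    push_cast
    rfl
  have hh := hE.mul (e0.add (e1.const_mul ι))
  have hg := (hE.mul (e2.add (e3.const_mul ι))).add (hh.const_mul ι)
  refine ⟨hh.congr_deriv ?_, hg.congr_deriv ?_⟩
  · simp only [Pi.add_apply]
    ring
  · rw [hpot]
    simp only [Pi.add_apply]
    push_cast
    linear_combination (exp (ι * t) * (2 * X t 3 j + X t 0 j + ι * X t 1 j)) * hι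

/-- a product increasing argument -/
lemma mono_of_deriv_nonneg (f f' : ℝ → ℝ) (h : ∀ t, HasDerivAt f (f' t) t) (h0 : ∀ t, 0 ≤ t → 0 ≤ f' t)
    {a b : ℝ} (ha : 0 ≤ a) (hab : a ≤ b) : f a ≤ f b := by
  have hm : MonotoneOn f (Ici 0) := by
    apply monotoneOn_of_deriv_nonneg (convex_Ici 0)
    · exact fun t _ => (h t).continuousAt.continuousWithinAt
    · exact fun t _ => (h t).differentiableAt.differentiableWithinAt
    · intro t ht
      rw [interior_Ici] at ht
      rw [(h t).deriv]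
      exact h0 t (le_of_lt ht)
  exact hm ha (ha.trans hab) hab

lemma lt_of_deriv_pos (f f' : ℝ → ℝ) (h : ∀ t, HasDerivAt f (f' t) t) (h0 : ∀ t, 0 < t → 0 < f' t)
    {b : ℝ} (hb : 0 < b) : f 0 < f b := by
  have hm : StrictMonoOn f (Ici 0) := by
    apply strictMonoOn_of_deriv_pos (convex_Ici 0)
    · exact fun t _ => (h t).continuousAt.continuousWithinAt
    · intro t ht
      rw [interior_Ici] at ht
      rw [(h t).deriv]
      exact h0 t ht
  exact hm (mem_Ici.mpr le_rfl) (mem_Ici.mpr hb.le) hb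

/-- positive on `[0, ∞)` from a positive initial value and nowhere vanishing -/
lemma pos_of_ne (f : ℝ → ℝ) (hc : Continuous f) (h0 : 0 < f 0) (hn : ∀ t, 0 ≤ t → f t ≠ 0) (t : ℝ)
    (ht : 0 ≤ t) : 0 < f t := by
  by_contra hlt
  push Not at hlt
  have := intermediate_value_Icc' ht (hc.continuousOn (s := Icc 0 t))
  obtain ⟨c, hc1, hc2⟩ := this ⟨hlt, h0.le⟩
  exact hn c hc1.1 hc2

/-- the growth lemma: `k' = m / D²`, `m' = D k / 2` with nonnegative nonzero initial values -/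
lemma growth (D k m : ℝ → ℝ) (hD : ∀ t, 0 < D t)
    (hk : ∀ t, HasDerivAt k (m t / D t ^ 2) t) (hm : ∀ t, HasDerivAt m (D t * k t / 2) t)
    (hk0 : 0 ≤ k 0) (hm0 : 0 ≤ m 0) (h0 : 0 < k 0 ∨ 0 < m 0) {b : ℝ} (hb : 0 < b) :
    k 0 < k b ∧ m 0 < m b := by
  have hprod : ∀ t, 0 ≤ t → 0 ≤ k t * m t := by
    intro t ht
    have h1 : ∀ t, HasDerivAt (fun t => k t * m t) (m t / D t ^ 2 * m t + k t * (D t * k t / 2)) t :=
      fun t => (hk t).mul (hm t)
    have h2 := mono_of_deriv_nonneg _ _ h1 (fun t _ => by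
      have := hD t
      have e1 : m t / D t ^ 2 * m t = m t ^ 2 / D t ^ 2 := by ring
      have e2 : k t * (D t * k t / 2) = D t * k t ^ 2 / 2 := by ring
      rw [e1, e2]
      positivity) le_rfl ht
    exact (mul_nonneg hk0 hm0).trans h2
  have hkc : Continuous k := continuous_iff_continuousAt.mpr fun t => (hk t).continuousAt
  have hmc : Continuous m := continuous_iff_continuousAt.mpr fun t => (hm t).continuousAt
  have main : ∀ t, 0 < t → 0 < k t ∧ 0 < m t := by
    rcases h0 with h0 | h0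
    · have hkn : ∀ t, 0 ≤ t → k t ≠ 0 := by
        intro t ht hz
        have h1 : ∀ t, HasDerivAt (fun t => k t * k t) (m t / D t ^ 2 * k t + k t * (m t / D t ^ 2)) t :=
          fun t => (hk t).mul (hk t)
        have h2 := mono_of_deriv_nonneg _ _ h1 (fun t ht => by
          have := hD t
          have e1 : m t / D t ^ 2 * k t + k t * (m t / D t ^ 2) = 2 * (k t * m t) / D t ^ 2 := by ring
          rw [e1]
          have := hprod t ht
          positivity) le_rfl ht
        simp only [hz] at h2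
        nlinarith
      have hkp := pos_of_ne k hkc h0 hkn
      intro t ht
      refine ⟨hkp t ht.le, hm0.trans_lt ?_⟩
      exact lt_of_deriv_pos m _ hm (fun t ht => by
        have := hD t
        have := hkp t ht.le
        positivity) ht
    · have hmn : ∀ t, 0 ≤ t → m t ≠ 0 := by
        intro t ht hz
        have h1 : ∀ t, HasDerivAt (fun t => m t * m t) (D t * k t / 2 * m t + m t * (D t * k t / 2)) t :=
          fun t => (hm t).mul (hm t)
        have h2 := mono_of_deriv_nonneg _ _ h1 (fun t ht => by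
          have := hD t
          have e1 : D t * k t / 2 * m t + m t * (D t * k t / 2) = D t * (k t * m t) := by ring
          rw [e1]
          have := hprod t ht
          positivity) le_rfl ht
        simp only [hz] at h2
        nlinarith
      have hmp := pos_of_ne m hmc h0 hmn
      intro t ht
      refine ⟨hk0.trans_lt ?_, hmp t ht.le⟩
      exact lt_of_deriv_pos k _ hk (fun t ht => by
        have := hD t
        have := hmp t ht.le
        positivity) ht
  refine ⟨lt_of_deriv_pos k _ hk (fun t ht => ?_) hb, lt_of_deriv_pos m _ hm (fun t ht => ?_) hb⟩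
  · have := hD t
    have := (main t ht).2
    positivity
  · have := hD t
    have := (main t ht).1
    positivity

/-- the values after one period of a solution of the Hill equation are positive -/
lemma hill_pos {e : ℝ} (he0 : 0 ≤ e) (he1 : e < 1) {h g : ℝ → ℝ} (H : SolR e h g)
    (h0 : 0 ≤ h 0) (g0 : 0 ≤ g 0) (hne : 0 < h 0 ∨ 0 < g 0) :
    h 0 < h (2 * π) ∧ g 0 < g (2 * π) := by
  have hD := D_pos he0 he1
  have hDd : ∀ t, HasDerivAt (fun t => 1 + e * Real.cos t) (-(e * Real.sin t)) t := by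
    intro t
    have := ((Real.hasDerivAt_cos t).const_mul e).const_add 1
    refine this.congr_deriv ?_
    ring
  have hk : ∀ t, HasDerivAt (fun t => h t / (1 + e * Real.cos t))
      (((1 + e * Real.cos t) * g t + e * Real.sin t * h t) / (1 + e * Real.cos t) ^ 2) t := by
    intro t
    have := (H t).1.div (hDd t) (hD t).ne'
    refine this.congr_deriv ?_
    ring
  have hm : ∀ t, HasDerivAt (fun t => (1 + e * Real.cos t) * g t + e * Real.sin t * h t)
      ((1 + e * Real.cos t) * (h t / (1 + e * Real.cos t)) / 2) t := by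
    intro t
    have := ((hDd t).mul (H t).2).add
      (((Real.hasDerivAt_sin t).const_mul e).mul (H t).1)
    refine this.congr_deriv ?_
    have hne := (hD t).ne'
    unfold pot
    field_simp
    ring
  have hp : (0 : ℝ) < 2 * π := by positivity
  have h1e : (0 : ℝ) < 1 + e := by linarith
  have := growth (fun t => 1 + e * Real.cos t) _ _ hD hk hm ?_ ?_ ?_ hp
  · simp only [Real.cos_zero, Real.sin_zero, Real.cos_two_pi, Real.sin_two_pi, mul_one, mul_zero,
      zero_mul, add_zero] at this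
    refine ⟨?_, ?_⟩
    · exact (div_lt_div_iff_of_pos_right h1e).mp this.1
    · exact lt_of_mul_lt_mul_left this.2 h1e.le
  · simp only [Real.cos_zero, mul_one]
    positivity
  · simp only [Real.cos_zero, Real.sin_zero, mul_one, mul_zero, zero_mul, add_zero]
    positivity
  · simp only [Real.cos_zero, Real.sin_zero, mul_one, mul_zero, zero_mul, add_zero]
    rcases hne with h | h
    · left; positivity
    · right; positivity

/-- the shape of the monodromy matrix -/
lemma monodromy_eq {e : ℝ} {X : ℝ → Mat} (hX : IsFund (Bs 0 e) X) {h1 g1 h2 g2 : ℝ → ℂ}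
    (H1 : SolC e h1 g1) (H2 : SolC e h2 g2)
    (a1 : h1 0 = 1) (b1 : g1 0 = 0) (a2 : h2 0 = 0) (b2 : g2 0 = 1) :
    X (2 * π) = !![h1 (2 * π), -h2 (2 * π), h2 (2 * π), 0;
      h2 (2 * π), h1 (2 * π), 0, h2 (2 * π);
      h2 (2 * π) + g1 (2 * π), h1 (2 * π) - g2 (2 * π), g2 (2 * π), h2 (2 * π);
      g2 (2 * π) - h1 (2 * π), h2 (2 * π) + g1 (2 * π), -h2 (2 * π), g2 (2 * π)] := by
  have key : ∀ ι : ℂ, ι * ι = -1 → exp (ι * ((2 * π : ℝ) : ℂ)) = 1 → ∀ j,
      X (2 * π) 0 j + ι * X (2 * π) 1 j =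
        ((1 : Mat) 0 j + ι * (1 : Mat) 1 j) * h1 (2 * π) +
        (((1 : Mat) 2 j + ι * (1 : Mat) 3 j) + ι * ((1 : Mat) 0 j + ι * (1 : Mat) 1 j)) *
          h2 (2 * π) ∧
      (X (2 * π) 2 j + ι * X (2 * π) 3 j) + ι * (X (2 * π) 0 j + ι * X (2 * π) 1 j) =
        ((1 : Mat) 0 j + ι * (1 : Mat) 1 j) * g1 (2 * π) +
        (((1 : Mat) 2 j + ι * (1 : Mat) 3 j) + ι * ((1 : Mat) 0 j + ι * (1 : Mat) 1 j)) *
          g2 (2 * π) := by
    intro ι hι hexp j
    have := solC_eq H1 H2 a1 b1 a2 b2 (transform hX ι hι j) (2 * π)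
    simp only [hexp, one_mul, hX.1, Complex.ofReal_zero, mul_zero, Complex.exp_zero] at this
    exact this
  have k1 := key I I_mul_I (by
    rw [Complex.exp_eq_one_iff]
    exact ⟨1, by push_cast; ring⟩)
  have k2 := key (-I) (by linear_combination I_mul_I) (by
    rw [Complex.exp_eq_one_iff]
    exact ⟨-1, by push_cast; ring⟩)
  have hI : I * I = -1 := I_mul_I
  have hI0 : I ≠ 0 := I_ne_zero
  have r0 : ∀ j, X (2 * π) 0 j = (1 : Mat) 0 j * h1 (2 * π) +
      ((1 : Mat) 2 j - (1 : Mat) 1 j) * h2 (2 * π) := by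
    intro j
    linear_combination (1 / 2) * (k1 j).1 + (1 / 2) * (k2 j).1 +
      ((1 : Mat) 1 j * h2 (2 * π)) * hI
  have r1 : ∀ j, X (2 * π) 1 j = (1 : Mat) 1 j * h1 (2 * π) +
      ((1 : Mat) 3 j + (1 : Mat) 0 j) * h2 (2 * π) := by
    intro j
    have : I * (X (2 * π) 1 j) = I * ((1 : Mat) 1 j * h1 (2 * π) +
      ((1 : Mat) 3 j + (1 : Mat) 0 j) * h2 (2 * π)) := by
      linear_combination (1 / 2) * (k1 j).1 - (1 / 2) * (k2 j).1
    exact mul_left_cancel₀ hI0 this
  have r2 : ∀ j, X (2 * π) 2 j = X (2 * π) 1 j + (1 : Mat) 0 j * g1 (2 * π) +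
      ((1 : Mat) 2 j - (1 : Mat) 1 j) * g2 (2 * π) := by
    intro j
    linear_combination (1 / 2) * (k1 j).2 + (1 / 2) * (k2 j).2 +
      ((1 : Mat) 1 j * g2 (2 * π) - X (2 * π) 1 j) * hI
  have r3 : ∀ j, X (2 * π) 3 j = -X (2 * π) 0 j + (1 : Mat) 1 j * g1 (2 * π) +
      ((1 : Mat) 3 j + (1 : Mat) 0 j) * g2 (2 * π) := by
    intro j
    have : I * (X (2 * π) 3 j) = I * (-X (2 * π) 0 j + (1 : Mat) 1 j * g1 (2 * π) +
      ((1 : Mat) 3 j + (1 : Mat) 0 j) * g2 (2 * π)) := by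
      linear_combination (1 / 2) * (k1 j).2 - (1 / 2) * (k2 j).2
    exact mul_left_cancel₀ hI0 this
  ext i j
  fin_cases i <;> fin_cases j <;>
    simp [r0, r1, r2, r3] <;> ring

/-- Existence of the two real solutions. -/
lemma exists_sol {e : ℝ} {X : ℝ → Mat} (hX : IsFund (Bs 0 e) X) :
    ∃ h1 g1 h2 g2 : ℝ → ℝ, SolR e h1 g1 ∧ SolR e h2 g2 ∧ h1 0 = 1 ∧ g1 0 = 0 ∧ h2 0 = 0 ∧
      g2 0 = 1 := by
  have t0 := (transform hX I I_mul_I 0).re
  have t2 := (transform hX I I_mul_I 2).re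
  refine ⟨_, _, _, _, t0, t2, ?_, ?_, ?_, ?_⟩ <;> simp [hX.1]

lemma wronskian_real {e : ℝ} {h g k l : ℝ → ℝ} (H : SolR e h g) (K : SolR e k l) (t : ℝ) :
    h t * l t - g t * k t = h 0 * l 0 - g 0 * k 0 := by
  refine const_of_deriv_zero_real (fun t => h t * l t - g t * k t) (fun t => ?_) t
  have h1 := ((H t).1.mul (K t).2).sub ((H t).2.mul (K t).1)
  refine h1.congr_deriv ?_
  ring

/-- The matrix statement: diagonalisation. -/
lemma diag_of_form (A B C E ν ν' : ℂ) (hdet : A * E - B * C = 1) (hs : ν + ν' = A + E)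
    (hp : ν * ν' = 1) (hne : ν ≠ ν') (hB : B ≠ 0) :
    ∃ (P Q : Mat), IsDiag !![A, -B, B, 0; B, A, 0, B; B + C, A - E, E, B; E - A, B + C, -B, E]
      ![ν, ν, ν', ν'] P Q := by
  have hδ : ν' - ν ≠ 0 := sub_ne_zero.mpr hne.symm
  refine ⟨!![B, 0, B, 0; 0, B, 0, B; ν - A, B, ν' - A, B; -B, ν - A, -B, ν' - A],
    !![(ν' - A) / (B * (ν' - ν)), 1 / (ν' - ν), -1 / (ν' - ν), 0;
       -1 / (ν' - ν), (ν' - A) / (B * (ν' - ν)), 0, -1 / (ν' - ν);
       -(ν - A) / (B * (ν' - ν)), -1 / (ν' - ν), 1 / (ν' - ν), 0;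
       1 / (ν' - ν), -(ν - A) / (B * (ν' - ν)), 0, 1 / (ν' - ν)], ?_⟩
  have hPQ : (!![B, 0, B, 0; 0, B, 0, B; ν - A, B, ν' - A, B; -B, ν - A, -B, ν' - A] : Mat) *
    !![(ν' - A) / (B * (ν' - ν)), 1 / (ν' - ν), -1 / (ν' - ν), 0;
       -1 / (ν' - ν), (ν' - A) / (B * (ν' - ν)), 0, -1 / (ν' - ν);
       -(ν - A) / (B * (ν' - ν)), -1 / (ν' - ν), 1 / (ν' - ν), 0;
       1 / (ν' - ν), -(ν - A) / (B * (ν' - ν)), 0, 1 / (ν' - ν)] = 1 := by
    ext i j
    fin_cases i <;> fin_cases j <;> simp [Matrix.mul_apply, Fin.sum_univ_four] <;>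
      field_simp <;> ring
  refine ⟨hPQ, mul_eq_one_comm.mp hPQ, ?_⟩
  have e1 : E = ν + ν' - A := by linear_combination -hs
  have e2 : B * C = A * (ν + ν' - A) - ν * ν' := by
    rw [hp, ← e1]
    linear_combination -hdet
  subst e1
  ext i j
  fin_cases i <;> fin_cases j <;> simp [Matrix.mul_apply, Fin.sum_univ_four, Matrix.diagonal] <;>
    first
      | ring1
      | linear_combination e2

end GenA

theorem hill (e : ℝ) (he0 : 0 ≤ e) (he1 : e < 1) (X : ℝ → Mat) (hX : IsFund (Bs 0 e) X) :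
    ∃ (a : Fin 4 → ℂ) (P Q : Mat), IsDiag (X (2 * π)) a P Q ∧ ∃ i, 1 < ‖a i‖ := by
  obtain ⟨h1, g1, h2, g2, H1, H2, a1, b1, a2, b2⟩ := GenA.exists_sol hX
  have hm := GenA.monodromy_eq hX H1.toC H2.toC (by simp [a1]) (by simp [b1]) (by simp [a2])
    (by simp [b2])
  have p1 := GenA.hill_pos he0 he1 H1 (by simp [a1]) (by simp [b1]) (by simp [a1])
  have p2 := GenA.hill_pos he0 he1 H2 (by simp [a2]) (by simp [b2]) (by simp [b2])
  have w := GenA.wronskian_real H1 H2 (2 * π)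
  rw [a1, b1, a2, b2] at w
  rw [a1, b1] at p1
  rw [a2, b2] at p2
  set A := h1 (2 * π) with hA
  set B := h2 (2 * π) with hB
  set C := g1 (2 * π) with hC
  set E := g2 (2 * π) with hE
  have hτ : 2 < A + E := by linarith [p1.1, p2.2]
  set ν := (A + E + Real.sqrt ((A + E) ^ 2 - 4)) / 2 with hν
  have hsq : Real.sqrt ((A + E) ^ 2 - 4) ^ 2 = (A + E) ^ 2 - 4 := Real.sq_sqrt (by nlinarith)
  have hspos : 0 < Real.sqrt ((A + E) ^ 2 - 4) := Real.sqrt_pos.mpr (by nlinarith)
  have hν1 : 1 < ν := by rw [hν]; linarith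
  have hdet : (A : ℂ) * E - B * C = 1 := by
    have : A * E - B * C = 1 := by linarith
    exact_mod_cast this
  have hprod : (ν : ℂ) * ((A + E - ν : ℝ) : ℂ) = 1 := by
    have : ν * (A + E - ν) = 1 := by
      rw [hν]
      linarith [hsq, sq_nonneg (A + E)]
    exact_mod_cast this
  obtain ⟨P, Q, hPQ⟩ := GenA.diag_of_form (A : ℂ) B C E ν ((A + E - ν : ℝ) : ℂ) hdet
    (by push_cast; ring) hprod (by
      intro h
      have h' : ν = A + E - ν := by exact_mod_cast h
      rw [hν] at h'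
      linarith) (by
      have : B ≠ 0 := by linarith [p2.1]
      exact_mod_cast this)
  refine ⟨![(ν : ℂ), ν, ((A + E - ν : ℝ) : ℂ), ((A + E - ν : ℝ) : ℂ)], P, Q, ?_, 0, ?_⟩
  · rw [hm]
    exact hPQ
  · simp only [Matrix.cons_val_zero]
    rw [Complex.norm_real, Real.norm_eq_abs, abs_of_pos (by linarith)]
    exact hν1

end Pool.Agent.MP_5027f4_ell
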