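import Pool.Agent.Lib_MP_5027f4_ell.Defs

set_option autoImplicit false

open Complex Set Filter Topology MeasureTheory Polynomial
open scoped Real Matrix ComplexConjugate

namespace Pool.Agent.MP_5027f4_ell

/-- the primitive: `S, C` are sine and cosine, `r` is `rho` -/
noncomputable def phiLA (s e S C r z0 z1 z2 z3 w0 w1 w2 w3 : ℂ) : ℂ :=
  -(S * (2 + e * C)) * (1 / 2) * (-z1 * w2 + z0 * w3 - w1 * z2 + w0 * z3)
    - S * (2 + e * C) * (z0 * w0 + z1 * w1)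
    + (C + e / 2 * (2 * C ^ 2 - 1)) * (1 / 2) * (z0 * w2 + w0 * z2 + z1 * w3 + w1 * z3)
    + (1 / 2) * (S + 2 * e * (S * C)) * (z0 * w0 + z1 * w1)
    - S * (1 + e / 2 * C) * (z2 * w2 + z3 * w3)
    + S * (1 + e / 2 * C) * r * (3 / 2 * (1 + s) * (z0 * w0) + 3 / 2 * (1 - s) * (z1 * w1))

/-- derivative of the primitive -/
lemma hasDerivAt_phiLA (s e : ℂ) (S C r z0 z1 z2 z3 w0 w1 w2 w3 : ℝ → ℂ) (t : ℝ)
    (hS : HasDerivAt S (C t) t) (hC : HasDerivAt C (-S t) t)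
    (hr : HasDerivAt r (e * S t * r t ^ 2) t)
    (h0 : HasDerivAt z0 (z2 t) t) (h1 : HasDerivAt z1 (z3 t) t)
    (h2 : HasDerivAt z2 (3 / 2 * (1 + s) * r t * z0 t + 2 * z3 t) t)
    (h3 : HasDerivAt z3 (3 / 2 * (1 - s) * r t * z1 t - 2 * z2 t) t)
    (g0 : HasDerivAt w0 (w2 t) t) (g1 : HasDerivAt w1 (w3 t) t)
    (g2 : HasDerivAt w2 (3 / 2 * (1 + s) * r t * w0 t + 2 * w3 t) t)
    (g3 : HasDerivAt w3 (3 / 2 * (1 - s) * r t * w1 t - 2 * w2 t) t)
    (hSC : S t ^ 2 + C t ^ 2 = 1) (hrC : r t * (1 + e * C t) = 1) :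
    HasDerivAt (fun t => phiLA s e (S t) (C t) (r t) (z0 t) (z1 t) (z2 t) (z3 t)
        (w0 t) (w1 t) (w2 t) (w3 t))
      (3 / 4 * (1 + 3 * s) * C t * (z0 t * w0 t) + 3 / 4 * (1 - 3 * s) * C t * (z1 t * w1 t)
        + 3 / 2 * s * S t * (2 + e * C t) * r t * (z0 t * w1 t + z1 t * w0 t)
        + (1 - e ^ 2) / 2 * (C t * r t ^ 2 * (3 / 2 * (1 + s) * (z0 t * w0 t)
          + 3 / 2 * (1 - s) * (z1 t * w1 t)))) t := by
  unfold phiLA
  have hA := hS.fun_mul ((hC.const_mul e).const_add 2)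
  have hJ := ((((h1.fun_neg).fun_mul g2).fun_add (h0.fun_mul g3)).fun_sub (g1.fun_mul h2)).fun_add
    (g0.fun_mul h3)
  have hN := (h0.fun_mul g0).fun_add (h1.fun_mul g1)
  have hB := hC.fun_add (((hC.fun_pow 2).const_mul 2).sub_const 1 |>.const_mul (e / 2))
  have hU := (((h0.fun_mul g2).fun_add (g0.fun_mul h2)).fun_add (h1.fun_mul g3)).fun_add
    (g1.fun_mul h3)
  have hE := (hS.fun_add ((hS.fun_mul hC).const_mul (2 * e))).const_mul (1 / 2)
  have hF := hS.fun_mul ((hC.const_mul (e / 2)).const_add 1)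
  have hV := (h2.fun_mul g2).fun_add (h3.fun_mul g3)
  have hK := ((h0.fun_mul g0).const_mul (3 / 2 * (1 + s))).fun_add
    ((h1.fun_mul g1).const_mul (3 / 2 * (1 - s)))
  have hT := (((((hA.fun_neg.mul_const (1 / 2)).fun_mul hJ).fun_sub (hA.fun_mul hN)).fun_add
    ((hB.mul_const (1 / 2)).fun_mul hU)).fun_add (hE.fun_mul hN)).fun_sub (hF.fun_mul hV) |>.fun_add
    ((hF.fun_mul hr).fun_mul hK)
  refine hT.congr_deriv ?_
  linear_combination (e * ((1 / 2) * (-z1 t * w2 t + z0 t * w3 t - w1 t * z2 t + w0 t * z3 t))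
    + (e / 2) * (z2 t * w2 t + z3 t * w3 t)
    + (3 / 2 * (1 + s) * (z0 t * w0 t) + 3 / 2 * (1 - s) * (z1 t * w1 t)) *
      (-(e / 2) * r t + (1 + e / 2 * C t) * e * r t ^ 2)) * hSC
    + (3 / 2 * (1 + s) * (z0 t * w0 t) + 3 / 2 * (1 - s) * (z1 t * w1 t)) *
      ((e - C t / 2 - e * C t ^ 2 / 2) * r t + 3 / 2 * C t) * hrC

lemma hasDerivAt_conj' {f : ℝ → ℂ} {f' : ℂ} {t : ℝ} (h : HasDerivAt f f' t) :
    HasDerivAt (fun t => conj (f t)) (conj f') t := by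
  have := (Complex.conjCLE.toContinuousLinearMap.hasFDerivAt (x := f t)).comp_hasDerivAt t h
  exact this

lemma one_add_ne {e : ℝ} (he0 : 0 < e) (he1 : e < 1) (t : ℝ) :
    (1 : ℂ) + (e : ℂ) * ((Real.cos t : ℝ) : ℂ) ≠ 0 := by
  have h : 0 < 1 + e * Real.cos t := by
    have := Real.neg_one_le_cos t
    nlinarith
  have h' : ((1 + e * Real.cos t : ℝ) : ℂ) ≠ 0 := by exact_mod_cast h.ne'
  intro h0
  apply h'
  push_cast
  push_cast at h0
  exact h0

lemma qs_sum (s e t : ℝ) (v : Fin 4 → Fin 4 → ℂ) :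
    ∑ i, ∑ k, qs s e t i k * v i k =
      ((3 / 4 * (1 + 3 * s) * Real.cos t / e : ℝ) : ℂ) * v 0 0 +
      ((3 / 2 * s * Real.sin t * (2 + e * Real.cos t) / (1 + e * Real.cos t) / e : ℝ) : ℂ) * v 0 1 +
      (((3 / 2 * s * Real.sin t * (2 + e * Real.cos t) / (1 + e * Real.cos t) / e : ℝ) : ℂ) * v 1 0 +
      ((3 / 4 * (1 - 3 * s) * Real.cos t / e : ℝ) : ℂ) * v 1 1) := by
  unfold qs
  generalize (3 / 4 * (1 + 3 * s) * Real.cos t / e : ℝ) = a
  generalize (3 / 2 * s * Real.sin t * (2 + e * Real.cos t) / (1 + e * Real.cos t) / e : ℝ) = b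
  generalize (3 / 4 * (1 - 3 * s) * Real.cos t / e : ℝ) = c
  simp [Fin.sum_univ_four]

lemma qs_alg (s e S C r a b c d : ℂ) (he : e ≠ 0) (hr : r * (1 + e * C) = 1)
    (hne : 1 + e * C ≠ 0) :
    e * (3 / 4 * (1 + 3 * s) * C / e * a + 3 / 2 * s * S * (2 + e * C) / (1 + e * C) / e * b +
      (3 / 2 * s * S * (2 + e * C) / (1 + e * C) / e * c + 3 / 4 * (1 - 3 * s) * C / e * d)) =
      3 / 4 * (1 + 3 * s) * C * a + 3 / 4 * (1 - 3 * s) * C * d +
        3 / 2 * s * S * (2 + e * C) * r * (b + c) := by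
  have hr' : r = 1 / (1 + e * C) := by
    rw [eq_div_iff hne]
    exact hr
  rw [hr']
  field_simp
  ring

theorem link_int (s e : ℝ) (he0 : 0 < e) (he1 : e < 1) (y : ℝ → Fin 4 → ℂ)
    (hy : ∀ θ i, HasDerivAt (fun t => y t i) ((Bs s e θ *ᵥ y θ) i) θ) (l : ℂ) (hl : ‖l‖ = 1)
    (hper : y (2 * π) = l • y 0) :
    ∫ θ in (0 : ℝ)..(2 * π), ∑ i, ∑ k, qs s e θ i k * (y θ i * conj (y θ k)) =
      -((1 - e ^ 2) / (2 * e) : ℝ) * ∫ θ in (0 : ℝ)..(2 * π), (Real.cos θ : ℂ) * rho e θ ^ 2 *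
        ((3 / 2 * (1 + s) : ℝ) * (y θ 0 * conj (y θ 0)) +
          (3 / 2 * (1 - s) : ℝ) * (y θ 1 * conj (y θ 1))) := by
  have heC : (e : ℂ) ≠ 0 := by exact_mod_cast he0.ne'
  have hS : ∀ t : ℝ, HasDerivAt (fun t : ℝ => ((Real.sin t : ℝ) : ℂ)) ((Real.cos t : ℝ) : ℂ) t :=
    fun t => (Real.hasDerivAt_sin t).ofReal_comp
  have hC : ∀ t : ℝ, HasDerivAt (fun t : ℝ => ((Real.cos t : ℝ) : ℂ))
      (-((Real.sin t : ℝ) : ℂ)) t := by
    intro t
    have := (Real.hasDerivAt_cos t).ofReal_comp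
    rw [Complex.ofReal_neg] at this
    exact this
  have hr : ∀ t : ℝ, HasDerivAt (fun t : ℝ => rho e t)
      ((e : ℂ) * ((Real.sin t : ℝ) : ℂ) * rho e t ^ 2) t := by
    intro t
    have h1 := (((hC t).const_mul (e : ℂ)).const_add 1).fun_inv (one_add_ne he0 he1 t)
    refine h1.congr_deriv ?_
    unfold rho
    rw [div_eq_mul_inv, inv_pow]
    ring
  have h0 : ∀ t, HasDerivAt (fun t => y t 0) (y t 2) t := by
    intro t
    refine (hy t 0).congr_deriv ?_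
    simp [Bs, Matrix.mulVec, dotProduct, Fin.sum_univ_four]
  have h1 : ∀ t, HasDerivAt (fun t => y t 1) (y t 3) t := by
    intro t
    refine (hy t 1).congr_deriv ?_
    simp [Bs, Matrix.mulVec, dotProduct, Fin.sum_univ_four]
  have h2 : ∀ t, HasDerivAt (fun t => y t 2)
      (3 / 2 * (1 + (s : ℂ)) * rho e t * y t 0 + 2 * y t 3) t := by
    intro t
    refine (hy t 2).congr_deriv ?_
    simp [Bs, Matrix.mulVec, dotProduct, Fin.sum_univ_four]
  have h3 : ∀ t, HasDerivAt (fun t => y t 3)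
      (3 / 2 * (1 - (s : ℂ)) * rho e t * y t 1 - 2 * y t 2) t := by
    intro t
    refine (hy t 3).congr_deriv ?_
    simp [Bs, Matrix.mulVec, dotProduct, Fin.sum_univ_four]
    ring
  have hrc : ∀ t, conj (rho (e : ℂ) t) = rho (e : ℂ) t := by
    intro t
    unfold rho
    rw [map_inv₀, map_add, map_mul, map_one, Complex.conj_ofReal, Complex.conj_ofReal]
  have g0 : ∀ t, HasDerivAt (fun t => conj (y t 0)) (conj (y t 2)) t :=
    fun t => hasDerivAt_conj' (h0 t)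
  have g1 : ∀ t, HasDerivAt (fun t => conj (y t 1)) (conj (y t 3)) t :=
    fun t => hasDerivAt_conj' (h1 t)
  have g2 : ∀ t, HasDerivAt (fun t => conj (y t 2))
      (3 / 2 * (1 + (s : ℂ)) * rho e t * conj (y t 0) + 2 * conj (y t 3)) t := by
    intro t
    refine (hasDerivAt_conj' (h2 t)).congr_deriv ?_
    simp only [map_add, map_mul, map_div₀, map_ofNat, map_one, hrc, Complex.conj_ofReal]
  have g3 : ∀ t, HasDerivAt (fun t => conj (y t 3))
      (3 / 2 * (1 - (s : ℂ)) * rho e t * conj (y t 1) - 2 * conj (y t 2)) t := by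
    intro t
    refine (hasDerivAt_conj' (h3 t)).congr_deriv ?_
    simp only [map_sub, map_mul, map_div₀, map_ofNat, map_one, hrc, Complex.conj_ofReal]
  have hSC : ∀ t : ℝ, ((Real.sin t : ℝ) : ℂ) ^ 2 + ((Real.cos t : ℝ) : ℂ) ^ 2 = 1 := by
    intro t
    exact_mod_cast Real.sin_sq_add_cos_sq t
  have hrC : ∀ t : ℝ, rho e t * (1 + (e : ℂ) * ((Real.cos t : ℝ) : ℂ)) = 1 := by
    intro t
    exact inv_mul_cancel₀ (one_add_ne he0 he1 t)
  have hΦ := fun t => hasDerivAt_phiLA (s : ℂ) (e : ℂ) (fun t : ℝ => ((Real.sin t : ℝ) : ℂ))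
    (fun t : ℝ => ((Real.cos t : ℝ) : ℂ)) (fun t : ℝ => rho e t) (fun t => y t 0)
    (fun t => y t 1) (fun t => y t 2) (fun t => y t 3) (fun t => conj (y t 0))
    (fun t => conj (y t 1)) (fun t => conj (y t 2)) (fun t => conj (y t 3)) t
    (hS t) (hC t) (hr t) (h0 t) (h1 t) (h2 t) (h3 t) (g0 t) (g1 t) (g2 t) (g3 t) (hSC t) (hrC t)
  have hQ : ∀ t : ℝ, (e : ℂ) * ∑ i, ∑ k, qs s e t i k * (y t i * conj (y t k)) =
      3 / 4 * (1 + 3 * (s : ℂ)) * ((Real.cos t : ℝ) : ℂ) * (y t 0 * conj (y t 0))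
        + 3 / 4 * (1 - 3 * (s : ℂ)) * ((Real.cos t : ℝ) : ℂ) * (y t 1 * conj (y t 1))
        + 3 / 2 * (s : ℂ) * ((Real.sin t : ℝ) : ℂ) * (2 + (e : ℂ) * ((Real.cos t : ℝ) : ℂ)) *
          rho e t * (y t 0 * conj (y t 1) + y t 1 * conj (y t 0)) := by
    intro t
    rw [qs_sum]
    have := qs_alg (s : ℂ) (e : ℂ) ((Real.sin t : ℝ) : ℂ) ((Real.cos t : ℝ) : ℂ) (rho e t)
      (y t 0 * conj (y t 0)) (y t 0 * conj (y t 1)) (y t 1 * conj (y t 0)) (y t 1 * conj (y t 1))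
      heC (hrC t) (one_add_ne he0 he1 t)
    push_cast
    push_cast at this
    exact this
  have cS : Continuous fun t : ℝ => ((Real.sin t : ℝ) : ℂ) :=
    Complex.continuous_ofReal.comp Real.continuous_sin
  have cC : Continuous fun t : ℝ => ((Real.cos t : ℝ) : ℂ) :=
    Complex.continuous_ofReal.comp Real.continuous_cos
  have cr : Continuous fun t : ℝ => rho e t :=
    continuous_iff_continuousAt.mpr fun t => (hr t).continuousAt
  have cy : ∀ i, Continuous fun t => y t i := fun i =>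
    continuous_iff_continuousAt.mpr fun t => (hy t i).continuousAt
  have cyc : ∀ i, Continuous fun t => conj (y t i) := fun i => Complex.continuous_conj.comp (cy i)
  have cR : Continuous fun θ : ℝ => (Real.cos θ : ℂ) * rho e θ ^ 2 *
        ((3 / 2 * (1 + s) : ℝ) * (y θ 0 * conj (y θ 0)) +
          (3 / 2 * (1 - s) : ℝ) * (y θ 1 * conj (y θ 1))) := by
    exact (cC.mul (cr.pow 2)).mul ((continuous_const.mul ((cy 0).mul (cyc 0))).add
      (continuous_const.mul ((cy 1).mul (cyc 1))))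
  have cQ : Continuous fun θ : ℝ => (e : ℂ) * ∑ i, ∑ k, qs s e θ i k * (y θ i * conj (y θ k)) := by
    have h : (fun θ : ℝ => (e : ℂ) * ∑ i, ∑ k, qs s e θ i k * (y θ i * conj (y θ k))) = _ :=
      funext hQ
    rw [h]
    have h1 : Continuous fun t : ℝ => (2 + (e : ℂ) * ((Real.cos t : ℝ) : ℂ)) :=
      continuous_const.add (continuous_const.mul cC)
    exact (((continuous_const.mul cC).mul ((cy 0).mul (cyc 0))).add
      ((continuous_const.mul cC).mul ((cy 1).mul (cyc 1)))).add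
      ((((continuous_const.mul cS).mul h1).mul cr).mul
        (((cy 0).mul (cyc 1)).add ((cy 1).mul (cyc 0))))
  have cR' : Continuous fun θ : ℝ => (1 - (e : ℂ) ^ 2) / 2 * ((Real.cos θ : ℂ) * rho e θ ^ 2 *
        ((3 / 2 * (1 + s) : ℝ) * (y θ 0 * conj (y θ 0)) +
          (3 / 2 * (1 - s) : ℝ) * (y θ 1 * conj (y θ 1)))) := continuous_const.mul cR
  -- the integral of the derivative of the primitive
  have hint := intervalIntegral.integral_eq_sub_of_hasDerivAt (a := 0) (b := 2 * π)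
    (f := fun t => phiLA s e ((Real.sin t : ℝ) : ℂ) ((Real.cos t : ℝ) : ℂ) (rho e t) (y t 0)
      (y t 1) (y t 2) (y t 3) (conj (y t 0)) (conj (y t 1)) (conj (y t 2)) (conj (y t 3)))
    (f' := fun θ : ℝ => (e : ℂ) * ∑ i, ∑ k, qs s e θ i k * (y θ i * conj (y θ k)) +
      (1 - (e : ℂ) ^ 2) / 2 * ((Real.cos θ : ℂ) * rho e θ ^ 2 *
        ((3 / 2 * (1 + s) : ℝ) * (y θ 0 * conj (y θ 0)) +
          (3 / 2 * (1 - s) : ℝ) * (y θ 1 * conj (y θ 1)))))
    (fun t _ => by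
      refine (hΦ t).congr_deriv ?_
      rw [hQ t]
      push_cast
      ring) ((cQ.add cR').intervalIntegrable _ _)
  have hend : phiLA s e ((Real.sin (2 * π) : ℝ) : ℂ) ((Real.cos (2 * π) : ℝ) : ℂ) (rho e (2 * π))
      (y (2 * π) 0) (y (2 * π) 1) (y (2 * π) 2) (y (2 * π) 3) (conj (y (2 * π) 0))
      (conj (y (2 * π) 1)) (conj (y (2 * π) 2)) (conj (y (2 * π) 3)) =
      phiLA s e ((Real.sin 0 : ℝ) : ℂ) ((Real.cos 0 : ℝ) : ℂ) (rho e 0)
      (y 0 0) (y 0 1) (y 0 2) (y 0 3) (conj (y 0 0))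
      (conj (y 0 1)) (conj (y 0 2)) (conj (y 0 3)) := by
    have hll : l * conj l = 1 := by
      rw [Complex.mul_conj, Complex.normSq_eq_norm_sq, hl]
      norm_num
    have hrho : rho e (2 * π) = rho e 0 := by
      unfold rho
      rw [Real.cos_two_pi, Real.cos_zero]
    rw [hrho, Real.sin_two_pi, Real.cos_two_pi, Real.sin_zero, Real.cos_zero]
    have hyi : ∀ i, y (2 * π) i = l * y 0 i := by
      intro i
      rw [hper]
      rfl
    simp only [hyi, map_mul]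
    unfold phiLA
    linear_combination (-((0 : ℝ) * (2 + (e : ℂ) * (1 : ℝ))) * (1 / 2) * (-y 0 1 * conj (y 0 2)
      + y 0 0 * conj (y 0 3) - conj (y 0 1) * y 0 2 + conj (y 0 0) * y 0 3)
    - (0 : ℝ) * (2 + (e : ℂ) * (1 : ℝ)) * (y 0 0 * conj (y 0 0) + y 0 1 * conj (y 0 1))
    + ((1 : ℝ) + (e : ℂ) / 2 * (2 * (1 : ℝ) ^ 2 - 1)) * (1 / 2) * (y 0 0 * conj (y 0 2)
      + conj (y 0 0) * y 0 2 + y 0 1 * conj (y 0 3) + conj (y 0 1) * y 0 3)
    + (1 / 2) * ((0 : ℝ) + 2 * (e : ℂ) * ((0 : ℝ) * (1 : ℝ))) * (y 0 0 * conj (y 0 0)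
      + y 0 1 * conj (y 0 1))
    - (0 : ℝ) * (1 + (e : ℂ) / 2 * (1 : ℝ)) * (y 0 2 * conj (y 0 2) + y 0 3 * conj (y 0 3))
    + (0 : ℝ) * (1 + (e : ℂ) / 2 * (1 : ℝ)) * rho e 0 * (3 / 2 * (1 + (s : ℂ)) *
      (y 0 0 * conj (y 0 0)) + 3 / 2 * (1 - (s : ℂ)) * (y 0 1 * conj (y 0 1)))) * hll
  rw [hend, sub_self, intervalIntegral.integral_add (cQ.intervalIntegrable _ _)
    (cR'.intervalIntegrable _ _), intervalIntegral.integral_const_mul,
    intervalIntegral.integral_const_mul] at hint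
  have hfin : ∀ I1 I2 : ℂ, (e : ℂ) * I1 + (1 - (e : ℂ) ^ 2) / 2 * I2 = 0 →
      I1 = -((1 - e ^ 2) / (2 * e) : ℝ) * I2 := by
    intro I1 I2 h
    push_cast
    field_simp
    linear_combination 2 * h
  exact hfin _ _ hint

end Pool.Agent.MP_5027f4_ell
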