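import Pool.Agent.Lib_MP_5027f4_ell.Defs
import Pool.Agent.Lib_MP_5027f4_ell.OdeB
import Pool.Agent.Lib_MP_5027f4_ell.LinkA

set_option autoImplicit false

open Complex Set Filter Topology MeasureTheory Polynomial
open scoped Real Matrix ComplexConjugate

namespace Pool.Agent.MP_5027f4_ell

lemma linkB_real (s e : ℝ) (θ : ℝ) : IsRealMat (Bs s e θ) := by
  have hrc : conj (rho (e : ℂ) θ) = rho (e : ℂ) θ := by
    unfold rho
    rw [map_inv₀, map_add, map_mul, map_one, Complex.conj_ofReal, Complex.conj_ofReal]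
  intro i j
  fin_cases i <;> fin_cases j <;> simp [Bs, hrc, map_ofNat]

/-- a column of `X P` -/
lemma linkB_col {A X : ℝ → Mat} (hX : IsFund A X) (P : Mat) (j : Fin 4) (θ : ℝ) (i : Fin 4) :
    HasDerivAt (fun t => (X t * P) i j) ((A θ *ᵥ fun k => (X θ * P) k j) i) θ := by
  have h : HasDerivAt (fun t => ∑ k, X t i k * P k j) (∑ k, (A θ * X θ) i k * P k j) θ :=
    HasDerivAt.fun_sum fun k _ => (hX.2 θ i k).mul_const (P k j)
  have h1 : ∑ k, (A θ * X θ) i k * P k j = (A θ *ᵥ fun k => (X θ * P) k j) i := by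
    have : ∑ k, (A θ * X θ) i k * P k j = ((A θ * X θ) * P) i j := rfl
    rw [this, Matrix.mul_assoc]
    rfl
  rw [h1] at h
  exact h

/-- the row attached to a column `v` (it is `vᵀ Wm`) -/
def rowW (v : Fin 4 → ℂ) : Fin 4 → ℂ := ![2 * v 1 - v 2, -2 * v 0 - v 3, v 0, v 1]

lemma rowW_sol {s : ℝ} {e : ℂ} {v : ℝ → Fin 4 → ℂ}
    (hv : ∀ θ i, HasDerivAt (fun t => v t i) ((Bs s e θ *ᵥ v θ) i) θ) (θ : ℝ) (i : Fin 4) :
    HasDerivAt (fun t => rowW (v t) i) (-((rowW (v θ) ᵥ* Bs s e θ) i)) θ := by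
  have h0 : HasDerivAt (fun t => v t 0) (v θ 2) θ := by
    refine (hv θ 0).congr_deriv ?_
    simp [Bs, Matrix.mulVec, dotProduct, Fin.sum_univ_four]
  have h1 : HasDerivAt (fun t => v t 1) (v θ 3) θ := by
    refine (hv θ 1).congr_deriv ?_
    simp [Bs, Matrix.mulVec, dotProduct, Fin.sum_univ_four]
  have h2 : HasDerivAt (fun t => v t 2)
      (3 / 2 * (1 + (s : ℂ)) * rho e θ * v θ 0 + 2 * v θ 3) θ := by
    refine (hv θ 2).congr_deriv ?_
    simp [Bs, Matrix.mulVec, dotProduct, Fin.sum_univ_four]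
  have h3 : HasDerivAt (fun t => v t 3)
      (3 / 2 * (1 - (s : ℂ)) * rho e θ * v θ 1 - 2 * v θ 2) θ := by
    refine (hv θ 3).congr_deriv ?_
    simp [Bs, Matrix.mulVec, dotProduct, Fin.sum_univ_four]
    ring
  fin_cases i
  · have h : HasDerivAt (fun t => 2 * v t 1 - v t 2) (-((rowW (v θ) ᵥ* Bs s e θ) 0)) θ := by
      refine ((h1.const_mul 2).fun_sub h2).congr_deriv ?_
      simp [Bs, rowW, Matrix.vecMul, dotProduct, Fin.sum_univ_four]
      ring
    exact h
  · have h : HasDerivAt (fun t => -2 * v t 0 - v t 3) (-((rowW (v θ) ᵥ* Bs s e θ) 1)) θ := by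
      refine ((h0.const_mul (-2)).fun_sub h3).congr_deriv ?_
      simp [Bs, rowW, Matrix.vecMul, dotProduct, Fin.sum_univ_four]
      ring
    exact h
  · have h : HasDerivAt (fun t => v t 0) (-((rowW (v θ) ᵥ* Bs s e θ) 2)) θ := by
      refine h0.congr_deriv ?_
      simp [Bs, rowW, Matrix.vecMul, dotProduct, Fin.sum_univ_four]
      ring
    exact h
  · have h : HasDerivAt (fun t => v t 1) (-((rowW (v θ) ᵥ* Bs s e θ) 3)) θ := by
      refine h1.congr_deriv ?_
      simp [Bs, rowW, Matrix.vecMul, dotProduct, Fin.sum_univ_four]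
      ring
    exact h

/-- the rows of `Q Y` are proportional to `conj (X P)ᵀ Wm` -/
lemma linkB_row (s e : ℝ) (X Y : ℝ → Mat)
    (hX : IsFund (Bs s e) X) (hY : IsCofund (Bs s e) Y) (a : Fin 4 → ℂ) (P Q : Mat)
    (hD : IsDiag (X (2 * π)) a P Q) (ha : Function.Injective a)
    (h1 : ∀ i, ‖a i‖ = 1) (j : Fin 4) :
    ∃ c : ℂ, ∀ θ, (Q * Y θ) j 2 = c * conj ((X θ * P) 0 j) ∧
      (Q * Y θ) j 3 = c * conj ((X θ * P) 1 j) := by
  set v : ℝ → Fin 4 → ℂ := fun θ i => conj ((X θ * P) i j) with hvdef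
  have hv : ∀ θ i, HasDerivAt (fun t => v t i) ((Bs s e θ *ᵥ v θ) i) θ := by
    intro θ i
    have h := hasDerivAt_conj (linkB_col hX P j θ i)
    have h2 : conj ((Bs s e θ *ᵥ fun k => (X θ * P) k j) i) = (Bs s e θ *ᵥ v θ) i := by
      simp only [Matrix.mulVec, dotProduct, map_sum, map_mul, hvdef]
      refine Finset.sum_congr rfl fun l _ => ?_
      rw [linkB_real s e θ i l]
    rw [h2] at h
    exact h
  have hrow := cosol_eq hX hY (fun θ => rowW (v θ)) (fun θ i => rowW_sol hv θ i)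
  have hMP : X (2 * π) * P = P * Matrix.diagonal a := hD.MP
  have hv2 : ∀ i, v (2 * π) i = conj (a j) * v 0 i := by
    intro i
    simp only [hvdef]
    rw [hMP, hX.1, Matrix.one_mul, Matrix.mul_diagonal, map_mul, mul_comm]
  have hr2 : rowW (v (2 * π)) = conj (a j) • rowW (v 0) := by
    ext i
    fin_cases i <;> simp [rowW, hv2] <;> ring
  have haa : a j * conj (a j) = 1 := by
    rw [Complex.mul_conj, Complex.normSq_eq_norm_sq, h1]
    norm_num
  have hrM : rowW (v 0) ᵥ* X (2 * π) = a j • rowW (v 0) := by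
    have h3 := hrow (2 * π)
    have h4 : rowW (v (2 * π)) ᵥ* X (2 * π) = rowW (v 0) := by
      have h5 : rowW (v (2 * π)) = rowW (v 0) ᵥ* Y (2 * π) := h3
      rw [h5, Matrix.vecMul_vecMul, cofund_mul_fund hX hY, Matrix.vecMul_one]
    rw [hr2, Matrix.smul_vecMul] at h4
    rw [← h4, smul_smul, haa, one_smul, h4]
  set t : Fin 4 → ℂ := rowW (v 0) ᵥ* P with ht
  have htk : ∀ k, k ≠ j → t k = 0 := by
    intro k hk
    have h5 : (rowW (v 0) ᵥ* X (2 * π)) ᵥ* P = t ᵥ* Matrix.diagonal a := by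
      rw [Matrix.vecMul_vecMul, hMP, ← Matrix.vecMul_vecMul]
    rw [hrM, Matrix.smul_vecMul] at h5
    have h6 := congrFun h5 k
    rw [Matrix.vecMul_diagonal] at h6
    have h7 : a j * t k = t k * a k := h6
    have h8 : t k * (a k - a j) = 0 := by linear_combination -h7
    rcases mul_eq_zero.mp h8 with h9 | h9
    · exact h9
    · exact absurd (ha (sub_eq_zero.mp h9)) hk
  have hrQ : ∀ i, rowW (v 0) i = t j * Q j i := by
    intro i
    have h5 : t ᵥ* Q = rowW (v 0) := by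
      rw [ht, Matrix.vecMul_vecMul, hD.PQ, Matrix.vecMul_one]
    rw [← h5]
    simp only [Matrix.vecMul, dotProduct]
    rw [Finset.sum_eq_single j]
    · intro k _ hk
      rw [htk k hk, zero_mul]
    · intro h
      exact absurd (Finset.mem_univ j) h
  have htj : t j ≠ 0 := by
    intro h0
    have hz : ∀ i, rowW (v 0) i = 0 := by
      intro i
      rw [hrQ i, h0, zero_mul]
    have z2 : v 0 0 = 0 := hz 2
    have z3 : v 0 1 = 0 := hz 3
    have z0 : 2 * v 0 1 - v 0 2 = 0 := hz 0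
    have z1 : -2 * v 0 0 - v 0 3 = 0 := hz 1
    have z02 : v 0 2 = 0 := by linear_combination 2 * z3 - z0
    have z03 : v 0 3 = 0 := by linear_combination -2 * z2 - z1
    have hv0 : ∀ i, v 0 i = 0 := by
      intro i
      fin_cases i
      · exact z2
      · exact z3
      · exact z02
      · exact z03
    have hP : ∀ i, P i j = 0 := by
      intro i
      have h5 := hv0 i
      simp only [hvdef] at h5
      rw [hX.1, Matrix.one_mul] at h5
      exact (map_eq_zero _).mp h5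
    have h6 : (Q * P) j j = 1 := by
      rw [hD.QP, Matrix.one_apply_eq]
    rw [Matrix.mul_apply] at h6
    simp [hP] at h6
  refine ⟨(t j)⁻¹, fun θ => ?_⟩
  have hY : ∀ k, (Q * Y θ) j k = (t j)⁻¹ * rowW (v θ) k := by
    intro k
    have h5 : rowW (v θ) = rowW (v 0) ᵥ* Y θ := hrow θ
    rw [h5, Matrix.mul_apply]
    simp only [Matrix.vecMul, dotProduct]
    rw [Finset.mul_sum]
    refine Finset.sum_congr rfl fun i _ => ?_
    rw [hrQ i]
    field_simp
  exact ⟨hY 2, hY 3⟩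

lemma linkB_qsymm (s e t : ℝ) (x y : Fin 4 → ℂ) :
    ∑ i, ∑ k, qs s e t i k * (x i * y k) = ∑ i, ∑ k, qs s e t i k * (y i * x k) := by
  have h1 := qs_sum s e t (fun i k => x i * y k)
  have h2 := qs_sum s e t (fun i k => y i * x k)
  rw [h1, h2]
  ring

/-- the integral attached to the index `j` vanishes -/
lemma linkB_zero (s e : ℝ) (he0 : 0 < e) (he1 : e < 1) (X Y : ℝ → Mat)
    (hX : IsFund (Bs s e) X) (hY : IsCofund (Bs s e) Y) (a : Fin 4 → ℂ) (P Q : Mat)
    (hD : IsDiag (X (2 * π)) a P Q) (hR : RealStr a P Q)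
    (h1 : ∀ i, ‖a i‖ = 1) (h0 : rr (qs s e) X P 0 1 = 0) (h2 : rr (qs s e) X P 2 3 = 0)
    (j : Fin 4) :
    ∫ θ in (0 : ℝ)..(2 * π), (Real.cos θ : ℂ) * rho e θ ^ 2 *
        ((3 / 2 * (1 + s) : ℝ) * ((X θ * P) 0 j * conj ((X θ * P) 0 j)) +
          (3 / 2 * (1 - s) : ℝ) * ((X θ * P) 1 j * conj ((X θ * P) 1 j))) = 0 := by
  have hXr : ∀ θ, IsRealMat (X θ) := fun θ => (fund_real hX hY (linkB_real s e) θ).1
  have hper : (fun i => (X (2 * π) * P) i j) = a j • fun i => (X 0 * P) i j := by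
    ext i
    rw [hD.MP, hX.1, Matrix.one_mul, Matrix.mul_diagonal, Pi.smul_apply, smul_eq_mul, mul_comm]
  have hl := link_int s e he0 he1 (fun θ i => (X θ * P) i j) (fun θ i => linkB_col hX P j θ i)
    (a j) (h1 j) hper
  have hconj : ∀ (j j' : Fin 4), (∀ i, P i j' = conj (P i j)) → ∀ θ i,
      conj ((X θ * P) i j) = (X θ * P) i j' := by
    intro j j' hP θ i
    rw [Matrix.mul_apply, Matrix.mul_apply, map_sum]
    refine Finset.sum_congr rfl fun k _ => ?_
    rw [map_mul, hXr θ i k, hP]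
  have hc' : ∀ (j j' : Fin 4), (∀ i, P i j' = conj (P i j)) → ∀ i, P i j = conj (P i j') := by
    intro j j' h i
    rw [h i, Complex.conj_conj]
  have hz : ∫ θ in (0 : ℝ)..(2 * π), ∑ i, ∑ k, qs s e θ i k *
      ((X θ * P) i j * conj ((X θ * P) k j)) = 0 := by
    have hj : j = 0 ∨ j = 1 ∨ j = 2 ∨ j = 3 := by
      fin_cases j <;> simp
    rcases hj with rfl | rfl | rfl | rfl
    · have : ∀ θ k, conj ((X θ * P) k 0) = (X θ * P) k 1 := hconj 0 1 hR.P1
      simp only [this]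
      exact h0
    · have : ∀ θ k, conj ((X θ * P) k 1) = (X θ * P) k 0 := hconj 1 0 (hc' 0 1 hR.P1)
      simp only [this]
      have h3 : ∀ θ, ∑ i, ∑ k, qs s e θ i k * ((X θ * P) i 1 * (X θ * P) k 0) =
          ∑ i, ∑ k, qs s e θ i k * ((X θ * P) i 0 * (X θ * P) k 1) :=
        fun θ => linkB_qsymm s e θ (fun i => (X θ * P) i 1) (fun i => (X θ * P) i 0)
      simp only [h3]
      exact h0
    · have : ∀ θ k, conj ((X θ * P) k 2) = (X θ * P) k 3 := hconj 2 3 hR.P3
      simp only [this]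
      exact h2
    · have : ∀ θ k, conj ((X θ * P) k 3) = (X θ * P) k 2 := hconj 3 2 (hc' 2 3 hR.P3)
      simp only [this]
      have h3 : ∀ θ, ∑ i, ∑ k, qs s e θ i k * ((X θ * P) i 3 * (X θ * P) k 2) =
          ∑ i, ∑ k, qs s e θ i k * ((X θ * P) i 2 * (X θ * P) k 3) :=
        fun θ => linkB_qsymm s e θ (fun i => (X θ * P) i 3) (fun i => (X θ * P) i 2)
      simp only [h3]
      exact h2
  have hl' : (0 : ℂ) = -((1 - e ^ 2) / (2 * e) : ℝ) *
      ∫ θ in (0 : ℝ)..(2 * π), (Real.cos θ : ℂ) * rho e θ ^ 2 *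
        ((3 / 2 * (1 + s) : ℝ) * ((X θ * P) 0 j * conj ((X θ * P) 0 j)) +
          (3 / 2 * (1 - s) : ℝ) * ((X θ * P) 1 j * conj ((X θ * P) 1 j))) := by
    rw [← hl]
    exact hz.symm
  have hne : (-((1 - e ^ 2) / (2 * e) : ℝ) : ℂ) ≠ 0 := by
    have : (1 - e ^ 2) / (2 * e) ≠ 0 := by
      apply div_ne_zero
      · nlinarith
      · linarith
    rw [neg_ne_zero]
    exact_mod_cast this
  rcases mul_eq_zero.mp hl'.symm with h | h
  · exact absurd h hne
  · exact h

theorem link_trace (s e : ℝ) (he0 : 0 < e) (he1 : e < 1) (X Y : ℝ → Mat)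
    (hX : IsFund (Bs s e) X) (hY : IsCofund (Bs s e) Y) (a : Fin 4 → ℂ) (P Q : Mat)
    (hD : IsDiag (X (2 * π)) a P Q) (hR : RealStr a P Q) (ha : Function.Injective a)
    (h1 : ∀ i, ‖a i‖ = 1) (h0 : rr (qs s e) X P 0 1 = 0) (h2 : rr (qs s e) X P 2 3 = 0) :
    (X (2 * π) * Matrix.of fun k l =>
        ∫ θ in (0 : ℝ)..(2 * π), (Y θ * dBs s e θ * X θ) k l).trace = 0 := by
  set Dm : Mat := Matrix.of fun k l =>
        ∫ θ in (0 : ℝ)..(2 * π), (Y θ * dBs s e θ * X θ) k l with hDm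
  have hM : X (2 * π) = P * Matrix.diagonal a * Q := by
    rw [← hD.MP, Matrix.mul_assoc, hD.PQ, Matrix.mul_one]
  have htr : (X (2 * π) * Dm).trace = ∑ j, a j * (Q * Dm * P) j j := by
    rw [hM, Matrix.mul_assoc, Matrix.mul_assoc, Matrix.trace_mul_comm, Matrix.mul_assoc,
      Matrix.mul_assoc]
    simp only [Matrix.trace, Matrix.diag_apply, Matrix.diagonal_mul]
  rw [htr]
  refine Finset.sum_eq_zero fun j _ => ?_
  -- continuity
  have cX : ∀ i j, Continuous fun t => X t i j := fun i j =>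
    continuous_iff_continuousAt.mpr fun t => (hX.2 t i j).continuousAt
  have cY : ∀ i j, Continuous fun t => Y t i j := fun i j =>
    continuous_iff_continuousAt.mpr fun t => (hY.2 t i j).continuousAt
  have cC : Continuous fun t : ℝ => ((Real.cos t : ℝ) : ℂ) :=
    Complex.continuous_ofReal.comp Real.continuous_cos
  have cr : Continuous fun t : ℝ => rho e t := by
    unfold rho
    exact (continuous_const.add (continuous_const.mul cC)).inv₀ (fun t => one_add_ne he0 he1 t)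
  have hent : ∀ θ k l, (Y θ * dBs s e θ * X θ) k l =
      -(Real.cos θ : ℂ) * rho e θ ^ 2 * ((3 / 2 * (1 + s) : ℝ) * (Y θ k 2 * X θ 0 l) +
        (3 / 2 * (1 - s) : ℝ) * (Y θ k 3 * X θ 1 l)) := by
    intro θ k l
    simp only [Matrix.mul_apply, Fin.sum_univ_four]
    simp [dBs]
    ring
  have cE : ∀ k l, Continuous fun θ => (Y θ * dBs s e θ * X θ) k l := by
    intro k l
    have h : (fun θ => (Y θ * dBs s e θ * X θ) k l) = _ := funext fun θ => hent θ k l
    rw [h]
    exact ((cC.neg.mul (cr.pow 2)).mul ((continuous_const.mul ((cY k 2).mul (cX 0 l))).add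
      (continuous_const.mul ((cY k 3).mul (cX 1 l)))))
  obtain ⟨c, hc⟩ := linkB_row s e X Y hX hY a P Q hD ha h1 j
  have hz := linkB_zero s e he0 he1 X Y hX hY a P Q hD hR h1 h0 h2 j
  have hint : (Q * Dm * P) j j = ∫ θ in (0 : ℝ)..(2 * π), ∑ l, ∑ k,
      Q j k * (Y θ * dBs s e θ * X θ) k l * P l j := by
    rw [intervalIntegral.integral_finsetSum]
    · rw [Matrix.mul_apply]
      refine Finset.sum_congr rfl fun l _ => ?_
      rw [Matrix.mul_apply, Finset.sum_mul, intervalIntegral.integral_finsetSum]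
      · refine Finset.sum_congr rfl fun k _ => ?_
        rw [intervalIntegral.integral_mul_const, intervalIntegral.integral_const_mul]
        rfl
      · intro k _
        exact (((continuous_const.mul (cE k l)).mul continuous_const)).intervalIntegrable _ _
    · intro l _
      refine Continuous.intervalIntegrable ?_ _ _
      refine continuous_finsetSum _ fun k _ => ?_
      exact (continuous_const.mul (cE k l)).mul continuous_const
  have hpt : ∀ θ, ∑ l, ∑ k, Q j k * (Y θ * dBs s e θ * X θ) k l * P l j =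
      -c * ((Real.cos θ : ℂ) * rho e θ ^ 2 *
        ((3 / 2 * (1 + s) : ℝ) * ((X θ * P) 0 j * conj ((X θ * P) 0 j)) +
          (3 / 2 * (1 - s) : ℝ) * ((X θ * P) 1 j * conj ((X θ * P) 1 j)))) := by
    intro θ
    obtain ⟨hc2, hc3⟩ := hc θ
    have h5 : ∑ l, ∑ k, Q j k * (Y θ * dBs s e θ * X θ) k l * P l j =
        -(Real.cos θ : ℂ) * rho e θ ^ 2 * ((3 / 2 * (1 + s) : ℝ) * ((Q * Y θ) j 2 *
          (X θ * P) 0 j) + (3 / 2 * (1 - s) : ℝ) * ((Q * Y θ) j 3 * (X θ * P) 1 j)) := by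
      simp only [hent]
      simp only [Matrix.mul_apply, Fin.sum_univ_four]
      ring
    rw [h5, hc2, hc3]
    ring
  rw [hint]
  simp only [hpt]
  rw [intervalIntegral.integral_const_mul, hz, mul_zero, mul_zero]

end Pool.Agent.MP_5027f4_ell
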