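import Mathlib

open Complex Set Filter Topology MeasureTheory
open scoped Real Matrix ComplexConjugate

namespace Pool.Agent.MP_5027f4_ell

/-- continuity (bootstrap) argument -/
theorem nfb_bootstrap {T : ℝ} {φ : ℝ → ℝ} (hc : ContinuousOn φ (Icc 0 T)) (h0 : φ 0 < 0)
    (hstep : ∀ t ∈ Icc 0 T, (∀ s ∈ Icc 0 t, φ s ≤ 0) → φ t < 0) : ∀ t ∈ Icc 0 T, φ t < 0 := by
  by_contra hcon
  push Not at hcon
  obtain ⟨t1, ht1, hφ1⟩ := hcon
  have hc1 : ContinuousOn φ (Icc 0 t1) := hc.mono (Icc_subset_Icc_right ht1.2)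
  have hcpt : IsCompact (Icc 0 t1 ∩ φ ⁻¹' Ici 0) :=
    isCompact_Icc.of_isClosed_subset (hc1.preimage_isClosed_of_isClosed isClosed_Icc isClosed_Ici)
      inter_subset_left
  obtain ⟨t2, ⟨ht2, hφ2⟩, hmin⟩ := hcpt.exists_isLeast ⟨t1, right_mem_Icc.2 ht1.1, hφ1⟩
  have key : ∀ s ∈ Icc 0 t2, φ s ≤ 0 := by
    intro s hs
    by_contra hpos
    push Not at hpos
    have hcs : ContinuousOn φ (Icc 0 s) :=
      hc1.mono (Icc_subset_Icc_right (hs.2.trans ht2.2))
    obtain ⟨u, hu, hφu⟩ := intermediate_value_Icc hs.1 hcs ⟨h0.le, hpos.le⟩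
    have h1 : t2 ≤ u := hmin ⟨⟨hu.1, hu.2.trans (hs.2.trans ht2.2)⟩, hφu.ge⟩
    have h2 : u = s := le_antisymm hu.2 (hs.2.trans h1)
    rw [h2] at hφu
    exact absurd hφu hpos.ne'
  have := hstep t2 ⟨ht2.1, ht2.2.trans ht1.2⟩ key
  exact absurd this (not_lt.2 hφ2)

/-- a function whose derivative is controlled by the derivative of a monotone one -/
theorem nfb_mono {T t L : ℝ} {F dF G dG : ℝ → ℝ} (ht : t ∈ Icc 0 T)
    (hF : ∀ s ∈ Icc 0 T, HasDerivWithinAt F (dF s) (Icc 0 T) s)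
    (hG : ∀ s ∈ Icc 0 T, HasDerivWithinAt G (dG s) (Icc 0 T) s)
    (hle : ∀ s ∈ Icc 0 t, |dF s| ≤ L * dG s) : |F t - F 0| ≤ L * (G t - G 0) := by
  have hsub : Icc 0 t ⊆ Icc 0 T := Icc_subset_Icc_right ht.2
  have hF' : ∀ s ∈ Icc 0 t, HasDerivWithinAt F (dF s) (Icc 0 t) s := fun s hs =>
    (hF s (hsub hs)).mono hsub
  have hG' : ∀ s ∈ Icc 0 t, HasDerivWithinAt G (dG s) (Icc 0 t) s := fun s hs =>
    (hG s (hsub hs)).mono hsub
  have h0 : (0 : ℝ) ∈ Icc 0 t := left_mem_Icc.2 ht.1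
  have h1 : t ∈ Icc 0 t := right_mem_Icc.2 ht.1
  have m1 : MonotoneOn (fun s => L * G s - F s) (Icc 0 t) := by
    refine monotoneOn_of_hasDerivWithinAt_nonneg (convex_Icc 0 t)
      (f' := fun s => L * dG s - dF s) ?_ ?_ ?_
    · intro s hs
      exact (((hG' s hs).const_mul L).sub (hF' s hs)).continuousWithinAt
    · intro s hs
      exact (((hG' s (interior_subset hs)).const_mul L).sub (hF' s (interior_subset hs))).mono
        interior_subset
    · intro s hs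
      have := (abs_le.1 (hle s (interior_subset hs))).2
      linarith
  have m2 : MonotoneOn (fun s => L * G s + F s) (Icc 0 t) := by
    refine monotoneOn_of_hasDerivWithinAt_nonneg (convex_Icc 0 t)
      (f' := fun s => L * dG s + dF s) ?_ ?_ ?_
    · intro s hs
      exact (((hG' s hs).const_mul L).add (hF' s hs)).continuousWithinAt
    · intro s hs
      exact (((hG' s (interior_subset hs)).const_mul L).add (hF' s (interior_subset hs))).mono
        interior_subset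
    · intro s hs
      have := (abs_le.1 (hle s (interior_subset hs))).1
      linarith
  have h2 := m1 h0 h1 ht.1
  have h3 := m2 h0 h1 ht.1
  simp only at h2 h3
  rw [abs_le]
  constructor <;> linarith

/-- NfB.lean : the scalar drift lemma -/
theorem scalar_drift (C r0 r2 : ℝ) (hC : 0 < C) (hr : r0 ≠ 0) :
    ∃ ρ > 0, ∃ a0 > 0, ∀ A κ0 : ℝ, 0 < A → A ≤ a0 → 0 < κ0 → ∃ T > 0,
      ∀ (n j0 j2 J0 J2 dJ0 dJ2 g G dG κ : ℝ → ℝ),
        ContinuousOn j0 (Icc 0 T) → ContinuousOn j2 (Icc 0 T) → j0 0 = A → j2 0 = 0 →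
        (∀ t ∈ Icc 0 T, 0 ≤ j0 t ∧ 0 ≤ j2 t ∧ 0 ≤ n t ∧ n t ^ 2 = j0 t + j2 t ∧ n t ≤ ρ ∧
          κ0 ≤ κ t) →
        (∀ t ∈ Icc 0 T, |J0 t - j0 t| ≤ C * n t ^ 3 ∧ HasDerivWithinAt J0 (dJ0 t) (Icc 0 T) t ∧
          |dJ0 t| ≤ C * κ t * n t ^ 4) →
        (∀ t ∈ Icc 0 T, |J2 t - j2 t| ≤ C * n t ^ 3 ∧ HasDerivWithinAt J2 (dJ2 t) (Icc 0 T) t ∧
          |dJ2 t| ≤ C * κ t * n t ^ 4) →
        (∀ t ∈ Icc 0 T, |g t - g 0| ≤ ρ ∧ |G t - g t| ≤ C * n t ^ 2 ∧
          HasDerivWithinAt G (dG t) (Icc 0 T) t ∧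
          |dG t - κ t * (r0 * j0 t + r2 * j2 t)| ≤ C * κ t * n t ^ 3) → False := by
  -- the sign
  obtain ⟨σ, r, hσ, hrpos, hσr⟩ : ∃ σ r : ℝ, |σ| = 1 ∧ 0 < r ∧ σ * r0 = r := by
    rcases lt_or_gt_of_ne hr with h | h
    · exact ⟨-1, -r0, by simp, by linarith, by ring⟩
    · exact ⟨1, r0, by simp, h, by ring⟩
  set η : ℝ := min 1 (r / (4 * (|r2| + 1))) with hη
  have hηpos : 0 < η := lt_min one_pos (by positivity)
  have hη1 : η ≤ 1 := min_le_left _ _
  have hηr : |r2| * η ≤ r / 4 := by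
    have h1 : η ≤ r / (4 * (|r2| + 1)) := min_le_right _ _
    calc |r2| * η ≤ (|r2| + 1) * (r / (4 * (|r2| + 1))) := by
          gcongr
          linarith
      _ = r / 4 := by field_simp
  set W : ℝ := 1 + 32 * C + 8 * C / r + 2048 * C * (1 + 2 * C) / r with hW
  have hWpos : 0 < W := by positivity
  set ρ : ℝ := η / W with hρ
  have hρpos : 0 < ρ := by positivity
  have hρW : ρ * W = η := by
    rw [hρ]
    field_simp
  have hρsum : ρ + ρ * (32 * C) + ρ * (8 * C / r) + ρ * (2048 * C * (1 + 2 * C) / r) = η := by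
    rw [← hρW, hW]
    ring
  have q1 : 0 < ρ * (32 * C) := by positivity
  have q2 : 0 < ρ * (8 * C / r) := by positivity
  have q3 : 0 < ρ * (2048 * C * (1 + 2 * C) / r) := by positivity
  have p1 : ρ ≤ 1 := by linarith
  have p2 : C * ρ ≤ η / 32 := by linarith
  have p3 : 8 * C * ρ ≤ r := by
    have h1 : ρ * (8 * C / r) ≤ 1 := by linarith
    have h2 : ρ * (8 * C / r) * r ≤ 1 * r := by gcongr
    have h3 : ρ * (8 * C / r) * r = 8 * C * ρ := by field_simp
    linarith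
  have p4 : 16 * C / r * (ρ * (1 + 2 * C)) ≤ η / 128 := by
    have h1 : ρ * (2048 * C * (1 + 2 * C) / r) ≤ η := by linarith
    have h2 : ρ * (2048 * C * (1 + 2 * C) / r) = 128 * (16 * C / r * (ρ * (1 + 2 * C))) := by ring
    linarith
  refine ⟨ρ, hρpos, 1, one_pos, fun A κ0 hA _ hκ0 => ?_⟩
  set ε : ℝ := ρ * (1 + 2 * C) with hε
  have hεpos : 0 < ε := by positivity
  set c : ℝ := κ0 * r * A / 8 with hcdef
  have hcpos : 0 < c := by positivity
  refine ⟨(ε + 1) / c, by positivity, ?_⟩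
  intro n j0 j2 J0 J2 dJ0 dJ2 g G dG κ hcj0 hcj2 hj0 hj2 hb hJ0 hJ2 hG
  set T : ℝ := (ε + 1) / c with hT
  have hTpos : 0 < T := by positivity
  have hcT : c * T = ε + 1 := by
    rw [hT]
    field_simp
  -- estimates at a point of the region
  have region : ∀ t ∈ Icc 0 T, j2 t ≤ η * j0 t → j0 t ≤ 2 * A →
      n t ^ 2 ≤ 2 * j0 t ∧ C * n t ^ 3 ≤ η / 16 * j0 t ∧ κ t * (r / 2 * j0 t) ≤ σ * dG t ∧
        C * κ t * n t ^ 4 ≤ 16 * C / r * A * (σ * dG t) := by
    intro t ht h1 h2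
    obtain ⟨a1, a2, a3, a4, a5, a6⟩ := hb t ht
    obtain ⟨b1, b2, b3, b4⟩ := hG t ht
    have hκ : 0 < κ t := lt_of_lt_of_le hκ0 a6
    have e1 : j2 t ≤ j0 t := by
      refine h1.trans ?_
      calc η * j0 t ≤ 1 * j0 t := by gcongr
        _ = j0 t := one_mul _
    have e2 : n t ^ 2 ≤ 2 * j0 t := by linarith
    have e3 : C * n t ^ 3 ≤ C * ρ * (2 * j0 t) := by
      calc C * n t ^ 3 = C * (n t * n t ^ 2) := by ring
        _ ≤ C * (ρ * (2 * j0 t)) := by gcongr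
        _ = C * ρ * (2 * j0 t) := by ring
    have e4 : C * n t ^ 3 ≤ η / 16 * j0 t := by
      refine e3.trans ?_
      calc C * ρ * (2 * j0 t) ≤ η / 32 * (2 * j0 t) := by gcongr
        _ = η / 16 * j0 t := by ring
    have e5 : C * n t ^ 3 ≤ r / 4 * j0 t := by
      refine e3.trans ?_
      have : C * ρ * (2 * j0 t) = (8 * C * ρ) * (j0 t / 4) := by ring
      rw [this]
      calc (8 * C * ρ) * (j0 t / 4) ≤ r * (j0 t / 4) := by gcongr
        _ = r / 4 * j0 t := by ring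
    have e6 : |σ * dG t - κ t * (r * j0 t + σ * r2 * j2 t)| ≤ κ t * (r / 4 * j0 t) := by
      have : σ * dG t - κ t * (r * j0 t + σ * r2 * j2 t) =
          σ * (dG t - κ t * (r0 * j0 t + r2 * j2 t)) := by
        rw [← hσr]
        ring
      rw [this, abs_mul, hσ, one_mul]
      refine b4.trans ?_
      calc C * κ t * n t ^ 3 = κ t * (C * n t ^ 3) := by ring
        _ ≤ κ t * (r / 4 * j0 t) := by gcongr
    have e7 : |σ * r2 * j2 t| ≤ r / 4 * j0 t := by
      rw [abs_mul, abs_mul, hσ, one_mul, abs_of_nonneg a2]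
      calc |r2| * j2 t ≤ |r2| * (η * j0 t) := by gcongr
        _ = |r2| * η * j0 t := by ring
        _ ≤ r / 4 * j0 t := by gcongr
    have e8 : κ t * (r / 2 * j0 t) ≤ σ * dG t := by
      have h3 := (abs_le.1 e6).1
      have h4 := (abs_le.1 e7).1
      have h5 : κ t * (-(r / 4 * j0 t)) ≤ κ t * (σ * r2 * j2 t) := by gcongr
      have h6 : κ t * (r * j0 t + σ * r2 * j2 t) = κ t * (r * j0 t) + κ t * (σ * r2 * j2 t) := by
        ring
      have h7 : κ t * (r / 4 * j0 t) = κ t * (r * j0 t) / 4 := by ring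
      have h8 : κ t * (-(r / 4 * j0 t)) = -(κ t * (r * j0 t) / 4) := by ring
      have h9 : κ t * (r / 2 * j0 t) = κ t * (r * j0 t) / 2 := by ring
      rw [h8] at h5
      rw [h6, h7] at h3
      rw [h9]
      linarith
    refine ⟨e2, e4, e8, ?_⟩
    have e9 : n t ^ 4 ≤ 4 * A * (2 * j0 t) := by
      calc n t ^ 4 = n t ^ 2 * n t ^ 2 := by ring
        _ ≤ (2 * j0 t) * (2 * j0 t) := by gcongr
        _ ≤ (2 * (2 * A)) * (2 * j0 t) := by gcongr
        _ = 4 * A * (2 * j0 t) := by ring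
    calc C * κ t * n t ^ 4 ≤ C * κ t * (4 * A * (2 * j0 t)) := by gcongr
      _ = 16 * C / r * A * (κ t * (r / 2 * j0 t)) := by
          field_simp
          ring
      _ ≤ 16 * C / r * A * (σ * dG t) := by gcongr
  -- total variation of `G`
  have hGvar : ∀ t ∈ Icc 0 T, σ * G t - σ * G 0 ≤ 1 * ρ + 2 * (C * ρ ^ 2) := by
    intro t ht
    obtain ⟨b1, b2, b3, b4⟩ := hG t ht
    obtain ⟨c1, c2, c3, c4⟩ := hG 0 (left_mem_Icc.2 hTpos.le)
    obtain ⟨a1, a2, a3, a4, a5, a6⟩ := hb t ht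
    obtain ⟨d1, d2, d3, d4, d5, d6⟩ := hb 0 (left_mem_Icc.2 hTpos.le)
    have e1 : C * n t ^ 2 ≤ C * ρ ^ 2 := by gcongr
    have e2 : C * n 0 ^ 2 ≤ C * ρ ^ 2 := by gcongr
    have e3 : σ * G t - σ * G 0 ≤ |G t - G 0| := by
      calc σ * G t - σ * G 0 = σ * (G t - G 0) := by ring
        _ ≤ |σ * (G t - G 0)| := le_abs_self _
        _ = |G t - G 0| := by rw [abs_mul, hσ, one_mul]
    have e4 : |G t - G 0| ≤ |G t - g t| + |g t - g 0| + |G 0 - g 0| := by
      have : G t - G 0 = (G t - g t) + (g t - g 0) - (G 0 - g 0) := by ring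
      rw [this]
      exact (abs_sub _ _).trans (by gcongr; exact abs_add_le _ _)
    linarith
  have hGvar' : ∀ t ∈ Icc 0 T, σ * G t - σ * G 0 ≤ ε := by
    intro t ht
    refine (hGvar t ht).trans ?_
    have : ρ ^ 2 ≤ ρ := by
      calc ρ ^ 2 = ρ * ρ := by ring
        _ ≤ ρ * 1 := by gcongr
        _ = ρ := mul_one ρ
    have h2 : C * ρ ^ 2 ≤ C * ρ := by gcongr
    rw [hε]
    linarith
  have hσG : ∀ s ∈ Icc 0 T, HasDerivWithinAt (fun t => σ * G t) (σ * dG s) (Icc 0 T) s :=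
    fun s hs => (hG s hs).2.2.1.const_mul σ
  -- initial values
  obtain ⟨d1, d2, d3, d4, d5, d6⟩ := hb 0 (left_mem_Icc.2 hTpos.le)
  have hn0 : C * n 0 ^ 3 ≤ η / 32 * A := by
    have : n 0 ^ 2 = A := by rw [d4, hj0, hj2, add_zero]
    calc C * n 0 ^ 3 = C * (n 0 * n 0 ^ 2) := by ring
      _ ≤ C * (ρ * A) := by rw [this]; gcongr
      _ = C * ρ * A := by ring
      _ ≤ η / 32 * A := by gcongr
  have hJ00 := (hJ0 0 (left_mem_Icc.2 hTpos.le)).1.trans hn0
  have hJ20 := (hJ2 0 (left_mem_Icc.2 hTpos.le)).1.trans hn0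
  rw [hj0] at hJ00
  rw [hj2, sub_zero] at hJ20
  -- the bootstrap function
  set φ : ℝ → ℝ := fun t => max (j2 t - η * j0 t) (max (j0 t - 2 * A) (A / 2 - j0 t)) with hφ
  have hφc : ContinuousOn φ (Icc 0 T) := by
    have h1 : ContinuousOn (fun t => j2 t - η * j0 t) (Icc 0 T) :=
      hcj2.sub (continuousOn_const.mul hcj0)
    have h2 : ContinuousOn (fun t => j0 t - 2 * A) (Icc 0 T) := hcj0.sub continuousOn_const
    have h3 : ContinuousOn (fun t => A / 2 - j0 t) (Icc 0 T) := continuousOn_const.sub hcj0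
    exact ContinuousOn.sup h1 (ContinuousOn.sup h2 h3)
  have hφ0 : φ 0 < 0 := by
    simp only [hφ, hj0, hj2]
    rw [max_lt_iff, max_lt_iff]
    have : 0 < η * A := by positivity
    exact ⟨by linarith, by linarith, by linarith⟩
  have unfoldφ : ∀ s, φ s ≤ 0 → j2 s ≤ η * j0 s ∧ j0 s ≤ 2 * A ∧ A / 2 ≤ j0 s := by
    intro s hs
    simp only [hφ] at hs
    rw [max_le_iff, max_le_iff] at hs
    exact ⟨by linarith [hs.1], by linarith [hs.2.1], by linarith [hs.2.2]⟩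
  have hall := nfb_bootstrap hφc hφ0 (by
    intro t ht hs
    have hsub : ∀ s ∈ Icc 0 t, s ∈ Icc 0 T := fun s hs => ⟨hs.1, hs.2.trans ht.2⟩
    have m0 : |J0 t - J0 0| ≤ 16 * C / r * A * (σ * G t - σ * G 0) := by
      refine nfb_mono ht (fun s hs => (hJ0 s hs).2.1) hσG ?_
      intro s hs1
      obtain ⟨u1, u2, u3⟩ := unfoldφ s (hs s hs1)
      exact (hJ0 s (hsub s hs1)).2.2.trans (region s (hsub s hs1) u1 u2).2.2.2
    have m2 : |J2 t - J2 0| ≤ 16 * C / r * A * (σ * G t - σ * G 0) := by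
      refine nfb_mono ht (fun s hs => (hJ2 s hs).2.1) hσG ?_
      intro s hs1
      obtain ⟨u1, u2, u3⟩ := unfoldφ s (hs s hs1)
      exact (hJ2 s (hsub s hs1)).2.2.trans (region s (hsub s hs1) u1 u2).2.2.2
    have hsmall : 16 * C / r * A * (σ * G t - σ * G 0) ≤ η / 128 * A := by
      calc 16 * C / r * A * (σ * G t - σ * G 0) ≤ 16 * C / r * A * ε := by
            gcongr
            exact hGvar' t ht
        _ = (16 * C / r * ε) * A := by ring
        _ ≤ η / 128 * A := by gcongr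
    replace m0 := m0.trans hsmall
    replace m2 := m2.trans hsmall
    obtain ⟨u1, u2, u3⟩ := unfoldφ t (hs t (right_mem_Icc.2 ht.1))
    obtain ⟨v1, v2, v3, v4⟩ := region t ht u1 u2
    have w0 := (hJ0 t ht).1.trans v2
    have w2 := (hJ2 t ht).1.trans v2
    rw [abs_le] at m0 m2 w0 w2 hJ00 hJ20
    have hηA : η * A ≤ A := by
      calc η * A ≤ 1 * A := by gcongr
        _ = A := one_mul A
    have hj0pos : 0 < j0 t := by linarith
    have hηj : η * j0 t ≤ j0 t := by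
      calc η * j0 t ≤ 1 * j0 t := by gcongr
        _ = j0 t := one_mul _
    have hηA' : 0 < η * A := by positivity
    have hηj' : η * A ≤ 2 * (η * j0 t) := by
      calc η * A ≤ η * (2 * j0 t) := by gcongr; linarith
        _ = 2 * (η * j0 t) := by ring
    simp only [hφ]
    rw [max_lt_iff, max_lt_iff]
    refine ⟨?_, ?_, ?_⟩
    · linarith [m2.2, w2.1, hJ20.2]
    · linarith [m0.2, w0.1, hJ00.2]
    · linarith [m0.1, w0.2, hJ00.1])
  -- growth of `G`
  have m : MonotoneOn (fun s => σ * G s - 2 * c * s) (Icc 0 T) := by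
    refine monotoneOn_of_hasDerivWithinAt_nonneg (convex_Icc 0 T)
      (f' := fun s => σ * dG s - 2 * c) ?_ ?_ ?_
    · intro s hs
      have h0 : HasDerivWithinAt (fun u : ℝ => 2 * c * u) (2 * c) (Icc 0 T) s := by
        simpa using (hasDerivWithinAt_id s (Icc 0 T)).const_mul (2 * c)
      exact ((hσG s hs).sub h0).continuousWithinAt
    · intro s hs
      have h0 : HasDerivWithinAt (fun u : ℝ => 2 * c * u) (2 * c) (Icc 0 T) s := by
        simpa using (hasDerivWithinAt_id s (Icc 0 T)).const_mul (2 * c)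
      exact ((hσG s (interior_subset hs)).sub h0).mono
        (interior_subset : interior (Icc 0 T) ⊆ Icc 0 T)
    · intro s hs
      have hs' := interior_subset hs
      obtain ⟨u1, u2, u3⟩ := unfoldφ s (hall s hs').le
      obtain ⟨v1, v2, v3, v4⟩ := region s hs' u1 u2
      obtain ⟨a1, a2, a3, a4, a5, a6⟩ := hb s hs'
      have : 2 * c ≤ κ s * (r / 2 * j0 s) := by
        calc 2 * c = κ0 * (r / 2 * (A / 2)) := by rw [hcdef]; ring
          _ ≤ κ s * (r / 2 * j0 s) :=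
            mul_le_mul a6 (by gcongr) (by positivity) (by linarith)
      linarith
  have h1 := m (left_mem_Icc.2 hTpos.le) (right_mem_Icc.2 hTpos.le) hTpos.le
  simp only [mul_zero, sub_zero] at h1
  have h2 := hGvar' T (right_mem_Icc.2 hTpos.le)
  have h3 : 2 * c * T = 2 * (c * T) := by ring
  rw [h3, hcT] at h1
  linarith

end Pool.Agent.MP_5027f4_ell
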