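import Pool.Agent.Lib_MP_5027f4_ell.Defs

/-!
# Normal form computations along a quasi-periodic frame
-/

open Complex Set Filter Topology MeasureTheory
open scoped Real Matrix ComplexConjugate

namespace Pool.Agent.MP_5027f4_ell

/-- Quadratic form with coefficients `n`. -/
noncomputable def qform (n : Fin 4 → Fin 4 → ℂ) (y : Fin 4 → ℂ) : ℂ := ∑ i, ∑ k, n i k * (y i * y k)

/-- Coefficients of a quadratic form in the frame `V`. -/
noncomputable def pull (n : Fin 4 → Fin 4 → ℂ) (V : Mat) (p r : Fin 4) : ℂ :=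
  ∑ i, ∑ k, n i k * (V i p * V k r)

theorem qform_mulVec (n : Fin 4 → Fin 4 → ℂ) (V : Mat) (η : Fin 4 → ℂ) :
    qform n (V *ᵥ η) = ∑ p, ∑ r, pull n V p r * (η p * η r) := by
  simp only [qform, pull, Matrix.mulVec, dotProduct, Finset.sum_mul, Finset.mul_sum]
  have h1 : ∀ i : Fin 4, (∑ k : Fin 4, ∑ x : Fin 4, ∑ r : Fin 4,
      n i k * (V i x * η x * (V k r * η r))) =
      ∑ x : Fin 4, ∑ k : Fin 4, ∑ r : Fin 4, n i k * (V i x * η x * (V k r * η r)) :=
    fun i => Finset.sum_comm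
  have h2 : ∀ p : Fin 4, (∑ r : Fin 4, ∑ i : Fin 4, ∑ k : Fin 4,
      n i k * (V i p * V k r) * (η p * η r)) =
      ∑ i : Fin 4, ∑ r : Fin 4, ∑ k : Fin 4, n i k * (V i p * V k r) * (η p * η r) :=
    fun p => Finset.sum_comm
  calc _ = ∑ i : Fin 4, ∑ x : Fin 4, ∑ k : Fin 4, ∑ r : Fin 4,
        n i k * (V i x * η x * (V k r * η r)) := by
        refine Finset.sum_congr rfl fun i _ => ?_
        rw [← h1 i]
        refine Finset.sum_congr rfl fun k _ => ?_
        rw [Finset.sum_comm]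
    _ = ∑ x : Fin 4, ∑ i : Fin 4, ∑ k : Fin 4, ∑ r : Fin 4,
        n i k * (V i x * η x * (V k r * η r)) := Finset.sum_comm
    _ = ∑ x : Fin 4, ∑ i : Fin 4, ∑ r : Fin 4, ∑ k : Fin 4,
        n i k * (V i x * η x * (V k r * η r)) := by
        refine Finset.sum_congr rfl fun x _ => Finset.sum_congr rfl fun i _ => Finset.sum_comm
    _ = _ := by
        refine Finset.sum_congr rfl fun x _ => ?_
        rw [h2 x]
        refine Finset.sum_congr rfl fun i _ => Finset.sum_congr rfl fun r _ =>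
          Finset.sum_congr rfl fun k _ => by ring

theorem norm_sum16 {F : Fin 4 → Fin 4 → ℂ} {b : ℝ} (h : ∀ p r, ‖F p r‖ ≤ b) :
    ‖∑ p, ∑ r, F p r‖ ≤ 16 * b := by
  have h1 : ∀ p, ‖∑ r, F p r‖ ≤ 4 * b := by
    intro p
    refine (norm_sum_le_of_le _ fun r _ => h p r).trans ?_
    simp
  refine (norm_sum_le_of_le _ fun p _ => h1 p).trans ?_
  simp
  linarith

theorem norm_sum4 {F : Fin 4 → ℂ} {b : ℝ} (h : ∀ p, ‖F p‖ ≤ b) : ‖∑ p, F p‖ ≤ 4 * b := by
  refine (norm_sum_le_of_le _ fun r _ => h r).trans ?_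
  simp

/-- Derivative of a quadratic expression with coefficients moving along `f`. -/
theorem quad_deriv {N ν : ℝ → ℂ} (hN : ∀ θ, HasDerivAt N (ν θ) θ) {D : Set ℝ} {t : ℝ} {f : ℝ → ℝ}
    {f' : ℝ} (hf : HasDerivWithinAt f f' D t) {u v : ℝ → ℂ} {u' v' : ℂ}
    (hu : HasDerivWithinAt u u' D t) (hv : HasDerivWithinAt v v' D t) :
    HasDerivWithinAt (fun t => N (f t) * (u t * v t))
      (f' * ν (f t) * (u t * v t) + N (f t) * (u' * v t + u t * v')) D t := by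
  have h1 : HasDerivWithinAt (fun t => N (f t)) (f' * ν (f t)) D t := by
    have := (hN (f t)).scomp_hasDerivWithinAt t hf
    rw [real_smul] at this
    exact this
  exact h1.mul (hu.mul hv)

theorem conj_deriv {u : ℝ → ℂ} {u' : ℂ} {D : Set ℝ} {t : ℝ} (h : HasDerivWithinAt u u' D t) :
    HasDerivWithinAt (fun t => conj (u t)) (conj u') D t := by
  have h1 := (conjCLE : ℂ →L[ℝ] ℂ).hasFDerivAt.comp_hasDerivWithinAt t h
  simpa [Function.comp_def] using h1

theorem re_deriv {u : ℝ → ℂ} {u' : ℂ} {D : Set ℝ} {t : ℝ} (h : HasDerivWithinAt u u' D t) :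
    HasDerivWithinAt (fun t => (u t).re) u'.re D t := by
  have h1 := reCLM.hasFDerivAt.comp_hasDerivWithinAt t h
  simpa [Function.comp_def] using h1

/-- The hypotheses on the components of the solution in the moving frame. -/
structure Comp (ν : Fin 4 → Fin 4 → Fin 4 → ℝ → ℂ) (C2 T : ℝ) (f f1 n : ℝ → ℝ)
    (η E : ℝ → Fin 4 → ℂ) : Prop where
  f1pos : ∀ t ∈ Icc 0 T, 0 < f1 t
  df : ∀ t ∈ Icc 0 T, HasDerivWithinAt f (f1 t) (Icc 0 T) t
  n0 : ∀ t ∈ Icc 0 T, 0 ≤ n t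
  n1 : ∀ t ∈ Icc 0 T, n t ≤ 1
  ηn : ∀ t ∈ Icc 0 T, ∀ i, ‖η t i‖ ≤ n t
  En : ∀ t ∈ Icc 0 T, ∀ i, ‖E t i‖ ≤ C2 * f1 t * n t ^ 3
  dη : ∀ t ∈ Icc 0 T, ∀ i, HasDerivWithinAt (fun t => η t i)
    (f1 t * (∑ p, ∑ r, ν i p r (f t) * (η t p * η t r)) + E t i) (Icc 0 T) t

theorem Comp.dη_le {ν : Fin 4 → Fin 4 → Fin 4 → ℝ → ℂ} {C2 T : ℝ} {f f1 n : ℝ → ℝ}
    {η E : ℝ → Fin 4 → ℂ} (h : Comp ν C2 T f f1 n η E) {Kν : ℝ} (hC2 : 0 ≤ C2)
    (hν : ∀ j p r θ, ‖ν j p r θ‖ ≤ Kν) {t : ℝ} (ht : t ∈ Icc 0 T) (i : Fin 4) :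
    ‖(f1 t * (∑ p, ∑ r, ν i p r (f t) * (η t p * η t r)) + E t i : ℂ)‖ ≤
      (16 * Kν + C2) * f1 t * n t ^ 2 := by
  have hKν : 0 ≤ Kν := (norm_nonneg _).trans (hν 0 0 0 0)
  have hf := h.f1pos t ht
  have h0 := h.n0 t ht
  have h1 := h.n1 t ht
  have e1 : ‖∑ p, ∑ r, ν i p r (f t) * (η t p * η t r)‖ ≤ 16 * (Kν * (n t * n t)) := by
    apply norm_sum16
    intro p r
    rw [norm_mul, norm_mul]
    have := h.ηn t ht p
    have := h.ηn t ht r
    have := hν i p r (f t)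
    gcongr
  have e2 : ‖E t i‖ ≤ C2 * f1 t * n t ^ 2 := by
    refine (h.En t ht i).trans ?_
    have : n t ^ 3 ≤ n t ^ 2 := pow_le_pow_of_le_one h0 h1 (by norm_num)
    gcongr
  refine (norm_add_le _ _).trans ?_
  rw [norm_mul, norm_real, Real.norm_of_nonneg hf.le]
  have e3 : f1 t * ‖∑ p, ∑ r, ν i p r (f t) * (η t p * η t r)‖ ≤
      f1 t * (16 * (Kν * (n t * n t))) := by gcongr
  nlinarith

theorem action_aux {ν : Fin 4 → Fin 4 → Fin 4 → ℝ → ℂ} {Kν C2 KN : ℝ} (hC2 : 0 ≤ C2)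
    (hKN : 0 ≤ KN) (hν : ∀ j p r θ, ‖ν j p r θ‖ ≤ Kν) (j : Fin 4) (N : Fin 4 → Fin 4 → ℝ → ℂ)
    (hN : ∀ p r θ, HasDerivAt (N p r) (ν j p r θ) θ) (hNb : ∀ p r θ, ‖N p r θ‖ ≤ KN)
    {T : ℝ} {f f1 n : ℝ → ℝ} {η E : ℝ → Fin 4 → ℂ} (h : Comp ν C2 T f f1 n η E) :
    ∃ J dJ : ℝ → ℝ, ∀ t ∈ Icc 0 T, |J t - ‖η t j‖ ^ 2| ≤ 32 * KN * n t ^ 3 ∧
      HasDerivWithinAt J (dJ t) (Icc 0 T) t ∧
      |dJ t| ≤ (2 * C2 + 96 * KN * (16 * Kν + C2)) * f1 t * n t ^ 4 := by
  have hKν : 0 ≤ Kν := (norm_nonneg _).trans (hν 0 0 0 0)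
  set dη : ℝ → Fin 4 → ℂ := fun t i =>
    f1 t * (∑ p, ∑ r, ν i p r (f t) * (η t p * η t r)) + E t i with hdη
  have hd : ∀ t ∈ Icc 0 T, ∀ i, HasDerivWithinAt (fun t => η t i) (dη t i) (Icc 0 T) t := h.dη
  have hdb : ∀ t ∈ Icc 0 T, ∀ i, ‖dη t i‖ ≤ (16 * Kν + C2) * f1 t * n t ^ 2 :=
    fun t ht i => h.dη_le hC2 hν ht i
  refine ⟨fun t => (η t j * conj (η t j)).re -
    2 * (∑ p, ∑ r, N p r (f t) * ((η t p * η t r) * conj (η t j))).re,
    fun t => 2 * (E t j * conj (η t j)).re - 2 * (∑ p, ∑ r, N p r (f t) *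
      ((dη t p * η t r + η t p * dη t r) * conj (η t j) + (η t p * η t r) * conj (dη t j))).re,
    fun t ht => ⟨?_, ?_, ?_⟩⟩
  · have hf := h.f1pos t ht
    have h0 := h.n0 t ht
    have e1 : (η t j * conj (η t j)).re = ‖η t j‖ ^ 2 := by
      rw [mul_conj, normSq_eq_norm_sq, ofReal_re]
    have e2 : ‖∑ p, ∑ r, N p r (f t) * ((η t p * η t r) * conj (η t j))‖ ≤
        16 * (KN * (n t * n t * n t)) := by
      apply norm_sum16
      intro p r
      rw [norm_mul, norm_mul, norm_mul, norm_conj]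
      have := h.ηn t ht p
      have := h.ηn t ht r
      have := h.ηn t ht j
      have := hNb p r (f t)
      gcongr
    have e3 := (abs_re_le_norm _).trans e2
    beta_reduce
    rw [e1]
    rw [show ∀ x y : ℝ, x - 2 * y - x = -(2 * y) by intros; ring, abs_neg, abs_mul,
      abs_of_pos (by norm_num : (0 : ℝ) < 2)]
    nlinarith
  · have hj := hd t ht j
    have d1 : HasDerivWithinAt (fun t => (η t j * conj (η t j)).re)
        ((dη t j * conj (η t j) + η t j * conj (dη t j)).re) (Icc 0 T) t :=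
      re_deriv (hj.mul (conj_deriv hj))
    have d2 : HasDerivWithinAt (fun t => ∑ p, ∑ r, N p r (f t) * ((η t p * η t r) * conj (η t j)))
        (∑ p, ∑ r, (f1 t * ν j p r (f t) * ((η t p * η t r) * conj (η t j)) + N p r (f t) *
          ((dη t p * η t r + η t p * dη t r) * conj (η t j) +
            (η t p * η t r) * conj (dη t j)))) (Icc 0 T) t := by
      apply HasDerivWithinAt.fun_sum
      intro p _
      apply HasDerivWithinAt.fun_sum
      intro r _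
      exact quad_deriv (hN p r) (h.df t ht) ((hd t ht p).mul (hd t ht r)) (conj_deriv hj)
    refine (d1.sub ((re_deriv d2).const_mul 2)).congr_deriv ?_
    simp only [Finset.sum_add_distrib, add_re, mul_add]
    have e1 : (η t j * conj (dη t j)).re = (dη t j * conj (η t j)).re := by
      simp only [mul_re, conj_re, conj_im]
      ring
    have e2 : dη t j * conj (η t j) = (∑ p, ∑ r, (f1 t * ν j p r (f t) *
        ((η t p * η t r) * conj (η t j)))) + E t j * conj (η t j) := by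
      simp only [hdη]
      rw [add_mul, Finset.mul_sum, Finset.sum_mul]
      congr 1
      refine Finset.sum_congr rfl fun p _ => ?_
      rw [Finset.mul_sum, Finset.sum_mul]
      refine Finset.sum_congr rfl fun r _ => ?_
      ring
    rw [e1, e2, add_re]
    ring
  · have hf := h.f1pos t ht
    have h0 := h.n0 t ht
    have e1 : |(E t j * conj (η t j)).re| ≤ C2 * f1 t * n t ^ 3 * n t := by
      refine (abs_re_le_norm _).trans ?_
      rw [norm_mul, norm_conj]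
      exact mul_le_mul (h.En t ht j) (h.ηn t ht j) (norm_nonneg _) (by positivity)
    have e2 : ‖∑ p, ∑ r, N p r (f t) * ((dη t p * η t r + η t p * dη t r) * conj (η t j) +
        (η t p * η t r) * conj (dη t j))‖ ≤
        16 * (KN * (3 * ((16 * Kν + C2) * f1 t * n t ^ 2 * n t * n t))) := by
      apply norm_sum16
      intro p r
      rw [norm_mul]
      refine mul_le_mul (hNb p r _) ?_ (norm_nonneg _) hKN
      have a1 := h.ηn t ht p
      have a2 := h.ηn t ht r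
      have a3 := h.ηn t ht j
      have b1 := hdb t ht p
      have b2 := hdb t ht r
      have b3 := hdb t ht j
      have c1 : ‖dη t p * η t r * conj (η t j)‖ ≤ (16 * Kν + C2) * f1 t * n t ^ 2 * n t * n t := by
        rw [norm_mul, norm_mul, norm_conj]
        gcongr
      have c2 : ‖η t p * dη t r * conj (η t j)‖ ≤ (16 * Kν + C2) * f1 t * n t ^ 2 * n t * n t := by
        rw [norm_mul, norm_mul, norm_conj, mul_comm ‖η t p‖]
        gcongr
      have c3 : ‖η t p * η t r * conj (dη t j)‖ ≤ (16 * Kν + C2) * f1 t * n t ^ 2 * n t * n t := by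
        rw [norm_mul, norm_mul, norm_conj, mul_comm _ ‖dη t j‖, ← mul_assoc]
        gcongr
      rw [add_mul]
      refine (norm_add₃_le).trans ?_
      linarith
    have e3 := (abs_re_le_norm _).trans e2
    beta_reduce
    have e4 : ∀ x y : ℝ, |2 * x - 2 * y| ≤ 2 * |x| + 2 * |y| := by
      intro x y
      refine (abs_sub _ _).trans ?_
      rw [abs_mul, abs_mul, abs_of_pos (by norm_num : (0 : ℝ) < 2)]
    refine (e4 _ _).trans ?_
    nlinarith

theorem prec_aux {ν : Fin 4 → Fin 4 → Fin 4 → ℝ → ℂ} {Kν C2 KQ C3 : ℝ} (hC2 : 0 ≤ C2)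
    (hKQ : 0 ≤ KQ) (hν : ∀ j p r θ, ‖ν j p r θ‖ ≤ Kν) (c Qp : Fin 4 → Fin 4 → ℝ → ℂ)
    (av : Fin 4 → Fin 4 → ℂ) (hQ : ∀ p r θ, HasDerivAt (Qp p r) (c p r θ - av p r) θ)
    (hQb : ∀ p r θ, ‖Qp p r θ‖ ≤ KQ)
    {T : ℝ} {f f1 n : ℝ → ℝ} {η E : ℝ → Fin 4 → ℂ} (h : Comp ν C2 T f f1 n η E)
    (g g1 : ℝ → ℝ) (hg : ∀ t ∈ Icc 0 T, HasDerivWithinAt g (g1 t) (Icc 0 T) t)
    (hg1 : ∀ t ∈ Icc 0 T, |g1 t - f1 t * (∑ p, ∑ r, c p r (f t) * (η t p * η t r)).re| ≤
      C3 * f1 t * n t ^ 3) :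
    ∃ G dG : ℝ → ℝ, ∀ t ∈ Icc 0 T, |G t - g t| ≤ 16 * KQ * n t ^ 2 ∧
      HasDerivWithinAt G (dG t) (Icc 0 T) t ∧
      |dG t - f1 t * (∑ p, ∑ r, av p r * (η t p * η t r)).re| ≤
        (C3 + 32 * KQ * (16 * Kν + C2)) * f1 t * n t ^ 3 := by
  have hKν : 0 ≤ Kν := (norm_nonneg _).trans (hν 0 0 0 0)
  set dη : ℝ → Fin 4 → ℂ := fun t i =>
    f1 t * (∑ p, ∑ r, ν i p r (f t) * (η t p * η t r)) + E t i with hdη
  have hd : ∀ t ∈ Icc 0 T, ∀ i, HasDerivWithinAt (fun t => η t i) (dη t i) (Icc 0 T) t := h.dη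
  have hdb : ∀ t ∈ Icc 0 T, ∀ i, ‖dη t i‖ ≤ (16 * Kν + C2) * f1 t * n t ^ 2 :=
    fun t ht i => h.dη_le hC2 hν ht i
  refine ⟨fun t => g t - (∑ p, ∑ r, Qp p r (f t) * (η t p * η t r)).re,
    fun t => g1 t - (∑ p, ∑ r, (f1 t * (c p r (f t) - av p r) * (η t p * η t r) +
      Qp p r (f t) * (dη t p * η t r + η t p * dη t r))).re,
    fun t ht => ⟨?_, ?_, ?_⟩⟩
  · have h0 := h.n0 t ht
    have e2 : ‖∑ p, ∑ r, Qp p r (f t) * (η t p * η t r)‖ ≤ 16 * (KQ * (n t * n t)) := by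
      apply norm_sum16
      intro p r
      rw [norm_mul, norm_mul]
      have := h.ηn t ht p
      have := h.ηn t ht r
      have := hQb p r (f t)
      gcongr
    have e3 := (abs_re_le_norm _).trans e2
    beta_reduce
    rw [show ∀ x y : ℝ, x - y - x = -y by intros; ring, abs_neg]
    nlinarith
  · refine (hg t ht).sub (re_deriv ?_)
    apply HasDerivWithinAt.fun_sum
    intro p _
    apply HasDerivWithinAt.fun_sum
    intro r _
    exact quad_deriv (hQ p r) (h.df t ht) (hd t ht p) (hd t ht r)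
  · have hf := h.f1pos t ht
    have h0 := h.n0 t ht
    have e1 : (∑ p, ∑ r, (f1 t * (c p r (f t) - av p r) * (η t p * η t r) +
        Qp p r (f t) * (dη t p * η t r + η t p * dη t r))) =
        f1 t * (∑ p, ∑ r, c p r (f t) * (η t p * η t r)) -
        f1 t * (∑ p, ∑ r, av p r * (η t p * η t r)) +
        ∑ p, ∑ r, Qp p r (f t) * (dη t p * η t r + η t p * dη t r) := by
      simp only [Finset.mul_sum, ← Finset.sum_sub_distrib, ← Finset.sum_add_distrib]
      refine Finset.sum_congr rfl fun p _ => Finset.sum_congr rfl fun r _ => ?_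
      ring
    have e2 : ‖∑ p, ∑ r, Qp p r (f t) * (dη t p * η t r + η t p * dη t r)‖ ≤
        16 * (KQ * (2 * ((16 * Kν + C2) * f1 t * n t ^ 2 * n t))) := by
      apply norm_sum16
      intro p r
      rw [norm_mul]
      refine mul_le_mul (hQb p r _) ?_ (norm_nonneg _) hKQ
      have a1 := h.ηn t ht p
      have a2 := h.ηn t ht r
      have b1 := hdb t ht p
      have b2 := hdb t ht r
      have c1 : ‖dη t p * η t r‖ ≤ (16 * Kν + C2) * f1 t * n t ^ 2 * n t := by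
        rw [norm_mul]
        gcongr
      have c2 : ‖η t p * dη t r‖ ≤ (16 * Kν + C2) * f1 t * n t ^ 2 * n t := by
        rw [norm_mul, mul_comm ‖η t p‖]
        gcongr
      refine (norm_add_le _ _).trans ?_
      linarith
    have e3 := (abs_re_le_norm _).trans e2
    have e4 := hg1 t ht
    beta_reduce
    rw [e1, add_re, sub_re, re_ofReal_mul, re_ofReal_mul]
    rw [show ∀ g x y z : ℝ, g - (x - y + z) - y = (g - x) - z by intros; ring]
    refine (abs_sub _ _).trans ?_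
    nlinarith

/-- A continuous function multiplied by a unimodular number over a period is bounded. -/
theorem bdd_quasi {c : ℝ → ℂ} (hc : Continuous c) {l : ℂ} (hl : ‖l‖ = 1)
    (hper : ∀ θ, c (θ + 2 * π) = l * c θ) : ∃ K > 0, ∀ θ, ‖c θ‖ ≤ K := by
  have hb := Function.Periodic.isBounded_of_continuous (f := fun θ => ‖c θ‖) (c := 2 * π)
      (fun θ => by simp only [hper, norm_mul, hl, one_mul]) (by positivity) (by fun_prop)
  obtain ⟨K, hK⟩ := hb.exists_norm_le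
  have h5 : ∀ θ, ‖c θ‖ ≤ K := fun θ => (le_abs_self _).trans (hK _ ⟨θ, rfl⟩)
  have hK0 : 0 ≤ K := (norm_nonneg _).trans (h5 0)
  exact ⟨K + 1, by linarith, fun θ => (h5 θ).trans (by linarith)⟩

end Pool.Agent.MP_5027f4_ell
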