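import Pool.Agent.Lib_MP_5027f4_ell.NfA
import Pool.Agent.Lib_MP_5027f4_ell.NfB
import Pool.Agent.Lib_MP_5027f4_ell.NfC1
import Pool.Agent.Lib_MP_5027f4_ell.OdeB

/-!
# Elliptic case: a solution with bounded pericentre drift cannot exist
-/

open Complex Set Filter Topology MeasureTheory
open scoped Real Matrix ComplexConjugate

namespace Pool.Agent.MP_5027f4_ell

theorem unif_bound {ι : Type*} [Fintype ι] {F : ι → ℝ → ℂ}
    (h : ∀ i, ∃ K > 0, ∀ θ, ‖F i θ‖ ≤ K) : ∃ K > 0, ∀ i θ, ‖F i θ‖ ≤ K := by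
  choose K hK hF using h
  refine ⟨(∑ i, K i) + 1, ?_, fun i θ => ?_⟩
  · have : 0 ≤ ∑ i, K i := Finset.sum_nonneg fun i _ => (hK i).le
    linarith
  · have := Finset.single_le_sum (f := K) (fun i _ => (hK i).le) (Finset.mem_univ i)
    linarith [hF i θ]

/-- The involution exchanging conjugate indices. -/
def sig : Fin 4 → Fin 4 := ![1, 0, 3, 2]

section Frame

variable {B X Y : ℝ → Mat} {a : Fin 4 → ℂ} {P Q : Mat}

theorem VW_one (hX : IsFund B X) (hY : IsCofund B Y) (hD : IsDiag (X (2 * π)) a P Q) (θ : ℝ) :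
    (X θ * P) * (Q * Y θ) = 1 ∧ (Q * Y θ) * (X θ * P) = 1 := by
  constructor
  · rw [Matrix.mul_assoc, ← Matrix.mul_assoc P, hD.PQ, Matrix.one_mul, fund_mul_cofund hX hY]
  · rw [Matrix.mul_assoc, ← Matrix.mul_assoc (Y θ), cofund_mul_fund hX hY, Matrix.one_mul, hD.QP]

theorem V_per (hper : ∀ θ, B (θ + 2 * π) = B θ) (hX : IsFund B X) (hY : IsCofund B Y)
    (hD : IsDiag (X (2 * π)) a P Q) (θ : ℝ) (i p : Fin 4) :
    (X (θ + 2 * π) * P) i p = a p * (X θ * P) i p := by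
  rw [(fund_add hX hY hper θ).1, Matrix.mul_assoc, hD.MP, ← Matrix.mul_assoc,
    Matrix.mul_diagonal, mul_comm]

theorem W_per (hper : ∀ θ, B (θ + 2 * π) = B θ) (hX : IsFund B X) (hY : IsCofund B Y)
    (hD : IsDiag (X (2 * π)) a P Q) (h1 : ∀ i, ‖a i‖ = 1) (θ : ℝ) (j l : Fin 4) :
    (Q * Y (θ + 2 * π)) j l = conj (a j) * (Q * Y θ) j l := by
  have e1 : Q * Y (2 * π) = Matrix.diagonal (fun i => conj (a i)) * Q := by
    have h2 : Matrix.diagonal (fun i => conj (a i)) * Matrix.diagonal a = (1 : Mat) := by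
      rw [Matrix.diagonal_mul_diagonal, ← Matrix.diagonal_one]
      congr 1
      funext i
      rw [← normSq_eq_conj_mul_self, normSq_eq_norm_sq, h1 i]
      simp
    have h3 : Q * X (2 * π) = Matrix.diagonal a * Q := by
      have := congrArg (fun M => Q * M * Q) hD.MP
      rw [← Matrix.mul_assoc, Matrix.mul_assoc _ P Q, hD.PQ, Matrix.mul_one,
        ← Matrix.mul_assoc, hD.QP, Matrix.one_mul] at this
      exact this
    calc Q * Y (2 * π) = (Matrix.diagonal (fun i => conj (a i)) * Matrix.diagonal a) * Q *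
          Y (2 * π) := by rw [h2, Matrix.one_mul]
      _ = Matrix.diagonal (fun i => conj (a i)) * (Q * X (2 * π)) * Y (2 * π) := by
          rw [h3]
          simp only [Matrix.mul_assoc]
      _ = Matrix.diagonal (fun i => conj (a i)) * Q * (X (2 * π) * Y (2 * π)) := by
          simp only [Matrix.mul_assoc]
      _ = _ := by rw [fund_mul_cofund hX hY, Matrix.mul_one]
  rw [(fund_add hX hY hper θ).2, ← Matrix.mul_assoc, e1, Matrix.mul_assoc, Matrix.diagonal_mul]

theorem V_cont (hX : IsFund B X) (i p : Fin 4) : Continuous fun θ => (X θ * P) i p := by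
  simp only [Matrix.mul_apply]
  refine continuous_finsetSum _ fun k _ => Continuous.mul ?_ continuous_const
  exact continuous_iff_continuousAt.mpr fun θ => (hX.2 θ i k).continuousAt

theorem W_deriv (hY : IsCofund B Y) (θ : ℝ) (j l : Fin 4) :
    HasDerivAt (fun θ => (Q * Y θ) j l) (-((Q * Y θ * B θ) j l)) θ := by
  have h1 : HasDerivAt (fun θ => ∑ k, Q j k * Y θ k l) (∑ k, Q j k * (-((Y θ * B θ) k l))) θ := by
    apply HasDerivAt.fun_sum
    intro k _
    exact (hY.2 θ k l).const_mul _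
  have h2 : (fun θ => (Q * Y θ) j l) = fun θ => ∑ k, Q j k * Y θ k l := by
    funext θ
    rw [Matrix.mul_apply]
  rw [h2]
  refine h1.congr_deriv ?_
  rw [Matrix.mul_assoc, Matrix.mul_apply, ← Finset.sum_neg_distrib]
  exact Finset.sum_congr rfl fun k _ => by ring

theorem W_cont (hY : IsCofund B Y) (j l : Fin 4) : Continuous fun θ => (Q * Y θ) j l :=
  continuous_iff_continuousAt.mpr fun θ => (W_deriv hY θ j l).continuousAt

theorem V_conj (hR : RealStr a P Q) (hXr : ∀ θ, IsRealMat (X θ) ∧ IsRealMat (Y θ)) (θ : ℝ)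
    (i p : Fin 4) : (X θ * P) i (sig p) = conj ((X θ * P) i p) := by
  have hP : ∀ k, P k (sig p) = conj (P k p) := by
    intro k
    fin_cases p
    · exact hR.P1 k
    · show P k 0 = conj (P k 1)
      rw [hR.P1 k, conj_conj]
    · exact hR.P3 k
    · show P k 2 = conj (P k 3)
      rw [hR.P3 k, conj_conj]
  rw [Matrix.mul_apply, Matrix.mul_apply, map_sum]
  refine Finset.sum_congr rfl fun k _ => ?_
  rw [map_mul, (hXr θ).1 i k, hP]

theorem W_conj (hR : RealStr a P Q) (hXr : ∀ θ, IsRealMat (X θ) ∧ IsRealMat (Y θ)) (θ : ℝ)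
    (j l : Fin 4) : (Q * Y θ) (sig j) l = conj ((Q * Y θ) j l) := by
  have hQ : ∀ k, Q (sig j) k = conj (Q j k) := by
    intro k
    fin_cases j
    · exact hR.Q1 k
    · show Q 0 k = conj (Q 1 k)
      rw [hR.Q1 k, conj_conj]
    · exact hR.Q3 k
    · show Q 2 k = conj (Q 3 k)
      rw [hR.Q3 k, conj_conj]
  rw [Matrix.mul_apply, Matrix.mul_apply, map_sum]
  refine Finset.sum_congr rfl fun k _ => ?_
  rw [map_mul, (hXr θ).2 k l, hQ]

theorem a_sig (hR : RealStr a P Q) (p : Fin 4) : a (sig p) = conj (a p) := by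
  fin_cases p
  · exact hR.a1
  · show a 0 = conj (a 1)
    rw [hR.a1, conj_conj]
  · exact hR.a3
  · show a 2 = conj (a 3)
    rw [hR.a3, conj_conj]

end Frame

theorem elliptic_dynamics (B X Y : ℝ → Mat) (hB : ∀ i j, Continuous fun θ => B θ i j)
    (hper : ∀ θ, B (θ + 2 * π) = B θ) (hX : IsFund B X) (hY : IsCofund B Y)
    (a : Fin 4 → ℂ) (P Q : Mat) (hD : IsDiag (X (2 * π)) a P Q) (hR : RealStr a P Q)
    (hXr : ∀ θ, IsRealMat (X θ) ∧ IsRealMat (Y θ))
    (ha : Function.Injective a) (h1 : ∀ i, ‖a i‖ = 1) (h3 : ∀ i j k, a i * a j * a k ≠ 1)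
    (n : Fin 4 → Fin 4 → Fin 4 → ℝ → ℂ) (hn : ∀ l i k, Continuous (n l i k))
    (hnper : ∀ l i k θ, n l i k (θ + 2 * π) = n l i k θ)
    (q : ℝ → Mat) (hq : ∀ i k, Continuous fun θ => q θ i k) (hqper : ∀ θ, q (θ + 2 * π) = q θ)
    (hqr : ∀ θ, IsRealMat (q θ)) (hqs : ∀ θ, (q θ)ᵀ = q θ) (hr : rr q X P 0 1 ≠ 0) (C : ℝ)
    (hC : 0 < C) :
    ∃ ρ > 0, ∃ a0 > 0, ∀ c κ0 : ℝ, 0 < c → c < a0 → 0 < κ0 → ∃ T > 0,
      ∀ (f f1 g g1 : ℝ → ℝ) (y y1 : ℝ → Fin 4 → ℂ),
        (∀ t ∈ Icc 0 T, κ0 ≤ f1 t ∧ HasDerivWithinAt f (f1 t) (Icc 0 T) t ∧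
          HasDerivWithinAt g (g1 t) (Icc 0 T) t ∧
          (∀ i, HasDerivWithinAt (fun t => y t i) (y1 t i) (Icc 0 T) t) ∧
          (∀ i, conj (y t i) = y t i) ∧ ‖y t‖ ≤ ρ ∧ |g t - g 0| ≤ ρ ∧
          |g1 t - f1 t * (∑ i, ∑ k, q (f t) i k * (y t i * y t k)).re| ≤ C * f1 t * ‖y t‖ ^ 3 ∧
          ∀ l, ‖y1 t l - f1 t * ((B (f t) *ᵥ y t) l +
            ∑ i, ∑ k, n l i k (f t) * (y t i * y t k))‖ ≤ C * f1 t * ‖y t‖ ^ 3) →
        (∀ i, y 0 i = c * ((X (f 0) * P) i 0 + (X (f 0) * P) i 1)) → False := by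
  -- the frame and its bounds
  have hVc : ∀ i p, Continuous fun θ => (X θ * P) i p := V_cont hX
  have hWc : ∀ j l, Continuous fun θ => (Q * Y θ) j l := W_cont hY
  have hVp := V_per hper hX hY hD
  have hWp := W_per hper hX hY hD h1
  have hca : ∀ i, ‖conj (a i)‖ = 1 := fun i => by rw [norm_conj, h1]
  obtain ⟨KV, hKV, hV⟩ := unif_bound (F := fun (ip : Fin 4 × Fin 4) θ => (X θ * P) ip.1 ip.2)
    fun ip => bdd_quasi (hVc _ _) (h1 ip.2) fun θ => hVp θ _ _
  obtain ⟨KW, hKW, hW⟩ := unif_bound (F := fun (ip : Fin 4 × Fin 4) θ => (Q * Y θ) ip.1 ip.2)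
    fun ip => bdd_quasi (hWc _ _) (hca ip.1) fun θ => hWp θ _ _
  set K : ℝ := KV + KW with hK
  have hKp : 0 < K := by positivity
  have hVK : ∀ θ i p, ‖(X θ * P) i p‖ ≤ K := fun θ i p => (hV (i, p) θ).trans (by linarith)
  have hWK : ∀ θ j l, ‖(Q * Y θ) j l‖ ≤ K := fun θ j l => (hW (j, l) θ).trans (by linarith)
  -- quadratic coefficients in the frame
  have hpull_per : ∀ (m : Fin 4 → Fin 4 → ℝ → ℂ), (∀ i k θ, m i k (θ + 2 * π) = m i k θ) →
      ∀ θ p r, pull (fun i k => m i k (θ + 2 * π)) (X (θ + 2 * π) * P) p r =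
        a p * a r * pull (fun i k => m i k θ) (X θ * P) p r := by
    intro m hm θ p r
    simp only [pull, Finset.mul_sum, hm, hVp]
    refine Finset.sum_congr rfl fun i _ => Finset.sum_congr rfl fun k _ => by ring
  have hpull_c : ∀ (m : Fin 4 → Fin 4 → ℝ → ℂ), (∀ i k, Continuous (m i k)) →
      ∀ p r, Continuous fun θ => pull (fun i k => m i k θ) (X θ * P) p r := by
    intro m hm p r
    unfold pull
    refine continuous_finsetSum _ fun i _ => continuous_finsetSum _ fun k _ => ?_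
    exact (hm i k).mul ((hVc i p).mul (hVc k r))
  set ν : Fin 4 → Fin 4 → Fin 4 → ℝ → ℂ := fun j p r θ =>
    ∑ l, (Q * Y θ) j l * pull (fun i k => n l i k θ) (X θ * P) p r with hνdef
  have hνc : ∀ j p r, Continuous (ν j p r) := by
    intro j p r
    simp only [hνdef]
    exact continuous_finsetSum _ fun l _ => (hWc j l).mul (hpull_c (n l) (hn l) p r)
  have hνper : ∀ j p r θ, ν j p r (θ + 2 * π) = (conj (a j) * a p * a r) * ν j p r θ := by
    intro j p r θ
    simp only [hνdef, Finset.mul_sum]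
    refine Finset.sum_congr rfl fun l _ => ?_
    rw [hpull_per (n l) (hnper l), hWp]
    ring
  have hνl : ∀ j p r, ‖conj (a j) * a p * a r‖ = 1 := fun j p r => by
    rw [norm_mul, norm_mul, hca, h1, h1]
    norm_num
  obtain ⟨Kν, hKν, hνb'⟩ := unif_bound
    (F := fun (x : Fin 4 × Fin 4 × Fin 4) θ => ν x.1 x.2.1 x.2.2 θ)
    fun x => bdd_quasi (hνc _ _ _) (hνl x.1 x.2.1 x.2.2) fun θ => hνper _ _ _ θ
  have hνb : ∀ j p r θ, ‖ν j p r θ‖ ≤ Kν := fun j p r θ => hνb' (j, p, r) θ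
  -- primitives
  obtain ⟨KN, hKN, hNb'⟩ := unif_bound
    (F := fun (x : Fin 4 × Fin 4 × Fin 4) θ => ∫ t in (0 : ℝ)..θ, ν x.1 x.2.1 x.2.2 t) fun x =>
    bdd_primitive _ (hνc _ _ _) _ (hνl x.1 x.2.1 x.2.2) (hνper _ _ _)
      (Or.inl (by rw [← a_sig hR]; exact h3 _ _ _))
  have hprim : ∀ {c : ℝ → ℂ}, Continuous c → ∀ θ,
      HasDerivAt (fun θ => ∫ t in (0 : ℝ)..θ, c t) (c θ) θ := fun hc θ =>
    (hc.integral_hasStrictDerivAt 0 θ).hasDerivAt
  -- precession coefficients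
  set cq : Fin 4 → Fin 4 → ℝ → ℂ := fun p r θ => pull (fun i k => q θ i k) (X θ * P) p r with hcq
  have hcqc : ∀ p r, Continuous (cq p r) := fun p r => hpull_c (fun i k θ => q θ i k) hq p r
  have hcqper : ∀ p r θ, cq p r (θ + 2 * π) = (a p * a r) * cq p r θ := fun p r θ =>
    hpull_per (fun i k θ => q θ i k) (fun i k θ => by rw [hqper]) θ p r
  have hrr : ∀ p r, rr q X P p r = ∫ θ in (0 : ℝ)..(2 * π), cq p r θ := fun p r => rfl
  set av : Fin 4 → Fin 4 → ℂ := fun p r => if r = sig p then rr q X P p r / (2 * π) else 0 with hav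
  have haa : ∀ p, a p * a (sig p) = 1 := by
    intro p
    rw [a_sig hR, mul_conj, normSq_eq_norm_sq, h1]
    simp
  have hne1 : ∀ p r, r ≠ sig p → a p * a r ≠ 1 := by
    intro p r hpr h
    apply hpr
    apply ha
    have h0 : a p ≠ 0 := by
      intro h0
      have := h1 p
      rw [h0] at this
      simp at this
    exact mul_left_cancel₀ h0 (h.trans (haa p).symm)
  have hpi : (2 * π : ℂ) ≠ 0 := by
    exact_mod_cast (by positivity : (2 * π : ℝ) ≠ 0)
  obtain ⟨KQ, hKQ, hQb'⟩ := unif_bound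
    (F := fun (x : Fin 4 × Fin 4) θ => ∫ t in (0 : ℝ)..θ, (cq x.1 x.2 t - av x.1 x.2)) fun x => by
    refine bdd_primitive _ ((hcqc _ _).sub continuous_const) (a x.1 * a x.2)
      (by rw [norm_mul, h1, h1, one_mul]) (fun θ => ?_) ?_
    · simp only [hcqper]
      by_cases hx : x.2 = sig x.1
      · rw [hx, haa]
        ring
      · simp only [hav, if_neg hx]
        ring
    · by_cases hx : x.2 = sig x.1
      · right
        rw [intervalIntegral.integral_sub ((hcqc _ _).intervalIntegrable _ _)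
          intervalIntegrable_const, ← hrr, intervalIntegral.integral_const]
        simp only [hav, if_pos hx, real_smul]
        push_cast
        field_simp
        ring
      · left
        exact hne1 _ _ hx
  set r0 : ℝ := (av 0 1 + av 1 0).re with hr0
  set r2 : ℝ := (av 2 3 + av 3 2).re with hr2
  -- the coefficient r0 does not vanish
  have hr0' : r0 ≠ 0 := by
    have e1 : rr q X P 1 0 = rr q X P 0 1 := by
      rw [hrr, hrr]
      congr 1
      funext θ
      simp only [hcq, pull]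
      rw [Finset.sum_comm]
      refine Finset.sum_congr rfl fun i _ => Finset.sum_congr rfl fun k _ => ?_
      have : q θ k i = q θ i k := by
        conv_lhs => rw [← hqs θ]
        rfl
      rw [this]
      ring
    have e2 : conj (rr q X P 0 1) = rr q X P 1 0 := by
      rw [hrr, hrr, ← intervalIntegral.intervalIntegral_conj]
      congr 1
      funext θ
      simp only [hcq, pull, map_sum, map_mul]
      refine Finset.sum_congr rfl fun i _ => Finset.sum_congr rfl fun k _ => ?_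
      rw [hqr θ i k, ← V_conj hR hXr, ← V_conj hR hXr]
      rfl
    have e3 : (rr q X P 0 1).im = 0 := by
      rw [e1] at e2
      exact conj_eq_iff_im.mp e2
    have e4 : av 0 1 = rr q X P 0 1 / (2 * π) := if_pos rfl
    have e5 : av 1 0 = rr q X P 0 1 / (2 * π) := by
      rw [← e1]
      exact if_pos rfl
    intro h0
    rw [hr0, e4, e5, ← two_mul] at h0
    apply hr
    have e6 : (2 * (rr q X P 0 1 / (2 * π))).re = (rr q X P 0 1).re / π := by
      rw [show (2 * (rr q X P 0 1 / (2 * π)) : ℂ) = rr q X P 0 1 / (π : ℂ) by field_simp,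
        div_ofReal_re]
    rw [e6, div_eq_zero_iff] at h0
    exact Complex.ext (h0.resolve_right Real.pi_ne_zero) e3
  -- constants
  set C3 : ℝ := C * (4 * K) ^ 3 with hC3
  set C2 : ℝ := 4 * (K * C3) with hC2
  have hC3p : 0 < C3 := by positivity
  have hC2p : 0 < C2 := by positivity
  set Cs : ℝ := 32 * KN + (2 * C2 + 96 * KN * (16 * Kν + C2)) + 16 * KQ +
    (C3 + 32 * KQ * (16 * Kν + C2)) with hCs
  have hCsp : 0 < Cs := by positivity
  obtain ⟨ρs, hρs, a0s, ha0s, hdrift⟩ := scalar_drift Cs r0 r2 hCsp hr0'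
  refine ⟨min (min ρs (ρs / (8 * K))) (1 / (8 * K)), by positivity, min 1 a0s, by positivity, ?_⟩
  intro c κ0 hc hca0 hκ0
  have hc1 : c < 1 := hca0.trans_le (min_le_left _ _)
  have hc2 : c < a0s := hca0.trans_le (min_le_right _ _)
  obtain ⟨T, hT, hdr⟩ := hdrift (c ^ 2) κ0 (by positivity) (by nlinarith) hκ0
  refine ⟨T, hT, ?_⟩
  intro f f1 g g1 y y1 H hy0
  set η : ℝ → Fin 4 → ℂ := fun t => (Q * Y (f t)) *ᵥ y t with hη
  set e : ℝ → Fin 4 → ℂ := fun t l => y1 t l - f1 t * ((B (f t) *ᵥ y t) l +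
            ∑ i, ∑ k, n l i k (f t) * (y t i * y t k)) with he
  set E : ℝ → Fin 4 → ℂ := fun t j => ∑ l, (Q * Y (f t)) j l * e t l with hE
  set j0 : ℝ → ℝ := fun t => ‖η t 0‖ ^ 2 with hj0
  set j2 : ℝ → ℝ := fun t => ‖η t 2‖ ^ 2 with hj2
  set nn : ℝ → ℝ := fun t => Real.sqrt (j0 t + j2 t) with hnn
  have hnnsq : ∀ t, nn t ^ 2 = j0 t + j2 t := fun t => Real.sq_sqrt (by positivity)
  have hnn0 : ∀ t, 0 ≤ nn t := fun t => Real.sqrt_nonneg _
  have hyη : ∀ t, y t = (X (f t) * P) *ᵥ η t := by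
    intro t
    rw [hη]
    simp only
    rw [Matrix.mulVec_mulVec, (VW_one hX hY hD (f t)).1, Matrix.one_mulVec]
  have hηc : ∀ t ∈ Icc 0 T, ∀ j, η t (sig j) = conj (η t j) := by
    intro t ht j
    simp only [hη, Matrix.mulVec, dotProduct, map_sum, map_mul]
    refine Finset.sum_congr rfl fun l _ => ?_
    rw [W_conj hR hXr, (H t ht).2.2.2.2.1 l]
  have hη1 : ∀ t ∈ Icc 0 T, ∀ j, ‖η t j‖ ≤ nn t := by
    intro t ht j
    have a1 : ‖η t 0‖ ≤ nn t := by
      rw [← abs_of_nonneg (norm_nonneg (η t 0)), ← abs_of_nonneg (hnn0 t), ← sq_le_sq, hnnsq]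
      simp only [hj0, hj2]
      nlinarith [sq_nonneg ‖η t 2‖]
    have a2 : ‖η t 2‖ ≤ nn t := by
      rw [← abs_of_nonneg (norm_nonneg (η t 2)), ← abs_of_nonneg (hnn0 t), ← sq_le_sq, hnnsq]
      simp only [hj0, hj2]
      nlinarith [sq_nonneg ‖η t 0‖]
    have a3 : ‖η t 1‖ = ‖η t 0‖ := by
      rw [show η t 1 = conj (η t 0) from hηc t ht 0, norm_conj]
    have a4 : ‖η t 3‖ = ‖η t 2‖ := by
      rw [show η t 3 = conj (η t 2) from hηc t ht 2, norm_conj]
    fin_cases j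
    · exact a1
    · exact a3.trans_le a1
    · exact a2
    · exact a4.trans_le a2
  have hyn : ∀ t ∈ Icc 0 T, ‖y t‖ ≤ 4 * K * nn t := by
    intro t ht
    have := hnn0 t
    rw [pi_norm_le_iff_of_nonneg (by positivity)]
    intro i
    rw [hyη t, Matrix.mulVec, dotProduct, mul_assoc]
    apply norm_sum4
    intro p
    rw [norm_mul]
    exact mul_le_mul (hVK _ _ _) (hη1 t ht p) (norm_nonneg _) hKp.le
  have hηy : ∀ t j, ‖η t j‖ ≤ 4 * (K * ‖y t‖) := by
    intro t j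
    simp only [hη, Matrix.mulVec, dotProduct]
    apply norm_sum4
    intro p
    rw [norm_mul]
    exact mul_le_mul (hWK _ _ _) (norm_le_pi_norm _ _) (norm_nonneg _) hKp.le
  have hny : ∀ t, nn t ≤ 8 * K * ‖y t‖ := by
    intro t
    rw [← abs_of_nonneg (hnn0 t), ← abs_of_nonneg (show (0 : ℝ) ≤ 8 * K * ‖y t‖ by positivity),
      ← sq_le_sq, hnnsq]
    simp only [hj0, hj2]
    have b1 := pow_le_pow_left₀ (norm_nonneg _) (hηy t 0) 2
    have b2 := pow_le_pow_left₀ (norm_nonneg _) (hηy t 2) 2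
    nlinarith [sq_nonneg (K * ‖y t‖)]
  have hρ1 : ∀ t ∈ Icc 0 T, ‖y t‖ ≤ ρs / (8 * K) ∧ ‖y t‖ ≤ 1 / (8 * K) ∧ |g t - g 0| ≤ ρs := by
    intro t ht
    have b1 := (H t ht).2.2.2.2.2.1
    have b2 := (H t ht).2.2.2.2.2.2.1
    exact ⟨b1.trans ((min_le_left _ _).trans (min_le_right _ _)), b1.trans (min_le_right _ _),
      b2.trans ((min_le_left _ _).trans (min_le_left _ _))⟩
  have hcomp : Comp ν C2 T f f1 nn η E := by
    refine ⟨fun t ht => hκ0.trans_le (H t ht).1, fun t ht => (H t ht).2.1, fun t _ => hnn0 t,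
      fun t ht => ?_, hη1, fun t ht j => ?_, fun t ht j => ?_⟩
    · have b1 := (hρ1 t ht).2.1
      rw [le_div_iff₀ (by positivity)] at b1
      linarith [hny t]
    · have b1 := (H t ht).2.2.2.2.2.2.2.2
      have b2 : ∀ l, ‖e t l‖ ≤ C3 * f1 t * nn t ^ 3 := by
        intro l
        refine (b1 l).trans ?_
        have b3 := pow_le_pow_left₀ (norm_nonneg _) (hyn t ht) 3
        have b4 : 0 < f1 t := hκ0.trans_le (H t ht).1
        calc C * f1 t * ‖y t‖ ^ 3 ≤ C * f1 t * (4 * K * nn t) ^ 3 := by gcongr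
          _ = C3 * f1 t * nn t ^ 3 := by rw [hC3]; ring
      calc ‖E t j‖ ≤ 4 * (K * (C3 * f1 t * nn t ^ 3)) := by
            apply norm_sum4
            intro l
            rw [norm_mul]
            exact mul_le_mul (hWK _ _ _) (b2 l) (norm_nonneg _) hKp.le
        _ = C2 * f1 t * nn t ^ 3 := by rw [hC2]; ring
    · have hd1 : HasDerivWithinAt (fun t => ∑ l, (Q * Y (f t)) j l * y t l)
          (∑ l, ((f1 t * (-((Q * Y (f t) * B (f t)) j l))) * y t l +
            (Q * Y (f t)) j l * y1 t l)) (Icc 0 T) t := by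
        apply HasDerivWithinAt.fun_sum
        intro l _
        have h1 : HasDerivWithinAt (fun t => (Q * Y (f t)) j l)
            (f1 t * (-((Q * Y (f t) * B (f t)) j l))) (Icc 0 T) t := by
          have := (W_deriv (Q := Q) hY (f t) j l).scomp_hasDerivWithinAt t (H t ht).2.1
          rw [real_smul] at this
          exact this
        exact h1.mul ((H t ht).2.2.2.1 l)
      refine hd1.congr_deriv ?_
      have s1 : ∑ l, (Q * Y (f t) * B (f t)) j l * y t l =
          ∑ l, (Q * Y (f t)) j l * (B (f t) *ᵥ y t) l := by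
        have := congrFun (Matrix.mulVec_mulVec (y t) (Q * Y (f t)) (B (f t))) j
        simp only [Matrix.mulVec, dotProduct] at this ⊢
        exact this.symm
      have s2 : ∑ l, (Q * Y (f t)) j l * (∑ i, ∑ k, n l i k (f t) * (y t i * y t k)) =
          ∑ p, ∑ r, ν j p r (f t) * (η t p * η t r) := by
        have s3 : ∀ l, (∑ i, ∑ k, n l i k (f t) * (y t i * y t k)) =
            ∑ p, ∑ r, pull (fun i k => n l i k (f t)) (X (f t) * P) p r * (η t p * η t r) := by
          intro l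
          rw [← qform_mulVec, ← hyη t, qform]
        simp only [s3, hνdef, Finset.mul_sum, Finset.sum_mul]
        rw [Finset.sum_comm]
        refine Finset.sum_congr rfl fun p _ => ?_
        rw [Finset.sum_comm]
        refine Finset.sum_congr rfl fun r _ => Finset.sum_congr rfl fun l _ => by ring
      rw [← s2]
      simp only [hE, he]
      rw [Finset.mul_sum, ← Finset.sum_add_distrib]
      have s4 : ∑ l, (f1 t : ℂ) * ((Q * Y (f t) * B (f t)) j l * y t l) =
          ∑ l, (f1 t : ℂ) * ((Q * Y (f t)) j l * (B (f t) *ᵥ y t) l) := by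
        rw [← Finset.mul_sum, s1, Finset.mul_sum]
      have s5 : ∀ l, (f1 t * (-((Q * Y (f t) * B (f t)) j l))) * y t l +
          (Q * Y (f t)) j l * y1 t l = (Q * Y (f t)) j l * y1 t l -
          (f1 t : ℂ) * ((Q * Y (f t) * B (f t)) j l * y t l) := fun l => by ring
      simp only [s5]
      rw [Finset.sum_sub_distrib, s4, ← Finset.sum_sub_distrib]
      refine Finset.sum_congr rfl fun l _ => by ring
  obtain ⟨J0, dJ0, hJ0⟩ := action_aux hC2p.le hKN.le hνb 0
    (fun p r θ => ∫ t in (0 : ℝ)..θ, ν 0 p r t) (fun p r θ => hprim (hνc 0 p r) θ)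
    (fun p r θ => hNb' (0, p, r) θ) hcomp
  obtain ⟨J2, dJ2, hJ2⟩ := action_aux hC2p.le hKN.le hνb 2
    (fun p r θ => ∫ t in (0 : ℝ)..θ, ν 2 p r t) (fun p r θ => hprim (hνc 2 p r) θ)
    (fun p r θ => hNb' (2, p, r) θ) hcomp
  obtain ⟨G, dG, hG⟩ := prec_aux (C3 := C3) hC2p.le hKQ.le hνb cq
    (fun p r θ => ∫ t in (0 : ℝ)..θ, (cq p r t - av p r)) av
    (fun p r θ => hprim ((hcqc p r).sub continuous_const) θ) (fun p r θ => hQb' (p, r) θ) hcomp
    g g1 (fun t ht => (H t ht).2.2.1) (fun t ht => by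
      have b1 := (H t ht).2.2.2.2.2.2.2.1
      have b3 := pow_le_pow_left₀ (norm_nonneg _) (hyn t ht) 3
      have b4 : 0 < f1 t := hκ0.trans_le (H t ht).1
      have b5 : (∑ i, ∑ k, q (f t) i k * (y t i * y t k)) =
          ∑ p, ∑ r, cq p r (f t) * (η t p * η t r) := by
        rw [show (∑ p, ∑ r, cq p r (f t) * (η t p * η t r)) =
          ∑ p, ∑ r, pull (fun i k => q (f t) i k) (X (f t) * P) p r * (η t p * η t r) from rfl,
          ← qform_mulVec, ← hyη t, qform]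
      rw [b5] at b1
      refine b1.trans ?_
      calc C * f1 t * ‖y t‖ ^ 3 ≤ C * f1 t * (4 * K * nn t) ^ 3 := by gcongr
          _ = C3 * f1 t * nn t ^ 3 := by rw [hC3]; ring)
  have hcont : ∀ j, ContinuousOn (fun t => ‖η t j‖ ^ 2) (Icc 0 T) := fun j =>
    ContinuousOn.pow (ContinuousOn.norm fun t ht => (hcomp.dη t ht j).continuousWithinAt) 2
  have hη0 : ∀ j, η 0 j = c * ((1 : Mat) j 0 + (1 : Mat) j 1) := by
    intro j
    rw [← (VW_one hX hY hD (f 0)).2]
    simp only [hη, Matrix.mulVec, dotProduct, hy0]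
    rw [Matrix.mul_apply (M := Q * Y (f 0)), Matrix.mul_apply (M := Q * Y (f 0)),
      ← Finset.sum_add_distrib, Finset.mul_sum]
    exact Finset.sum_congr rfl fun l _ => by ring
  have hcle : ∀ x ≤ Cs, ∀ t ∈ Icc 0 T, ∀ k, x * nn t ^ k ≤ Cs * nn t ^ k := fun x hx t _ k =>
    mul_le_mul_of_nonneg_right hx (pow_nonneg (hnn0 t) k)
  have hcle' : ∀ x ≤ Cs, ∀ t ∈ Icc 0 T, ∀ k, x * f1 t * nn t ^ k ≤ Cs * f1 t * nn t ^ k :=
    fun x hx t ht k => mul_le_mul_of_nonneg_right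
      (mul_le_mul_of_nonneg_right hx (hκ0.trans_le (H t ht).1).le) (pow_nonneg (hnn0 t) k)
  have p1 : 0 < 96 * KN * (16 * Kν + C2) := by positivity
  have p2 : 0 < 32 * KQ * (16 * Kν + C2) := by positivity
  have k1 : 32 * KN ≤ Cs := by rw [hCs]; linarith
  have k2 : 2 * C2 + 96 * KN * (16 * Kν + C2) ≤ Cs := by rw [hCs]; linarith
  have k3 : 16 * KQ ≤ Cs := by rw [hCs]; linarith
  have k4 : C3 + 32 * KQ * (16 * Kν + C2) ≤ Cs := by rw [hCs]; linarith
  refine hdr nn j0 j2 J0 J2 dJ0 dJ2 g G dG f1 (hcont 0) (hcont 2) ?_ ?_ ?_ ?_ ?_ ?_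
  · simp only [hj0, hη0]
    simp
  · simp only [hj2, hη0]
    simp
  · intro t ht
    refine ⟨by positivity, by positivity, hnn0 t, hnnsq t, ?_, (H t ht).1⟩
    have b1 := (hρ1 t ht).1
    rw [le_div_iff₀ (by positivity)] at b1
    linarith [hny t]
  · intro t ht
    obtain ⟨b1, b2, b3⟩ := hJ0 t ht
    exact ⟨b1.trans (hcle _ k1 t ht 3), b2, b3.trans (hcle' _ k2 t ht 4)⟩
  · intro t ht
    obtain ⟨b1, b2, b3⟩ := hJ2 t ht
    exact ⟨b1.trans (hcle _ k1 t ht 3), b2, b3.trans (hcle' _ k2 t ht 4)⟩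
  · intro t ht
    obtain ⟨b1, b2, b3⟩ := hG t ht
    refine ⟨(hρ1 t ht).2.2, b1.trans (hcle _ k3 t ht 2), b2, ?_⟩
    have b4 : (∑ p, ∑ r, av p r * (η t p * η t r)).re = r0 * j0 t + r2 * j2 t := by
      have c1 : η t 1 = conj (η t 0) := hηc t ht 0
      have c2 : η t 3 = conj (η t 2) := hηc t ht 2
      have z1 : ∀ p r, r ≠ sig p → av p r = 0 := fun p r h => if_neg h
      simp only [Fin.sum_univ_four]
      rw [z1 0 0 (by decide), z1 0 2 (by decide), z1 0 3 (by decide), z1 1 1 (by decide),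
        z1 1 2 (by decide), z1 1 3 (by decide), z1 2 0 (by decide), z1 2 1 (by decide),
        z1 2 2 (by decide), z1 3 0 (by decide), z1 3 1 (by decide), z1 3 3 (by decide)]
      have e1 : η t 0 * η t 1 = ((j0 t : ℝ) : ℂ) := by
        rw [c1, mul_conj, normSq_eq_norm_sq]
      have e2 : η t 1 * η t 0 = ((j0 t : ℝ) : ℂ) := by rw [mul_comm, e1]
      have e3 : η t 2 * η t 3 = ((j2 t : ℝ) : ℂ) := by
        rw [c2, mul_conj, normSq_eq_norm_sq]
      have e4 : η t 3 * η t 2 = ((j2 t : ℝ) : ℂ) := by rw [mul_comm, e3]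
      rw [e1, e2, e3, e4, hr0, hr2]
      simp only [zero_mul, add_zero, zero_add, add_re, re_mul_ofReal]
      ring
    rw [b4] at b3
    exact b3.trans (hcle' _ k4 t ht 3)

end Pool.Agent.MP_5027f4_ell
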