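import Pool.Agent.Lib_MP_5027f4_ell.Defs

/-!
# From a reduced trajectory to the data of the abstract dynamics
-/

open Complex Set Filter Topology MeasureTheory
open scoped Real Matrix ComplexConjugate

namespace Pool.Agent.MP_5027f4_ell

/-- An angle function with derivative `κ`. -/
theorem redD_angle {T : ℝ} (hT : 0 < T) (κ : ℝ → ℝ) (hκ : ContinuousOn κ (Icc 0 T)) (ϑ0 : ℝ) :
    ∃ θ : ℝ → ℝ, θ 0 = ϑ0 ∧ ∀ t ∈ Icc 0 T, HasDerivWithinAt θ (κ t) (Icc 0 T) t := by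
  set κ' : ℝ → ℝ := Set.IccExtend hT.le ((Icc 0 T).domRestrict κ) with hκ'
  have hc : Continuous κ' := (continuousOn_iff_continuous_domRestrict.1 hκ).Icc_extend'
  refine ⟨fun t => ϑ0 + ∫ x in (0 : ℝ)..t, κ' x, by simp, fun t ht => ?_⟩
  have h1 : HasDerivAt (fun t => ϑ0 + ∫ x in (0 : ℝ)..t, κ' x) (κ' t) t :=
    (intervalIntegral.integral_hasDerivAt_right (hc.intervalIntegrable _ _)
      (hc.stronglyMeasurableAtFilter _ _) hc.continuousAt).const_add ϑ0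
  have h2 : κ' t = κ t := by
    rw [hκ', Set.IccExtend_of_mem hT.le _ ht]; rfl
  rw [← h2]
  exact h1.hasDerivWithinAt

theorem redD_exp {T : ℝ} (hT : 0 < T) {κ θ : ℝ → ℝ} {ζ : ℝ → ℂ}
    (hθ : ∀ t ∈ Icc 0 T, HasDerivWithinAt θ (κ t) (Icc 0 T) t)
    (dζ : ∀ t ∈ Icc 0 T, HasDerivWithinAt ζ ((κ t : ℂ) * (I * ζ t)) (Icc 0 T) t)
    (h0 : ζ 0 = exp (θ 0 * I)) : ∀ t ∈ Icc 0 T, ζ t = exp (θ t * I) := by
  have hd : ∀ t ∈ Icc 0 T, HasDerivWithinAt (fun t => ζ t * exp (-(θ t * I))) 0 (Icc 0 T) t := by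
    intro t ht
    have h1 : HasDerivWithinAt (fun t => ((θ t : ℝ) : ℂ)) ((κ t : ℝ) : ℂ) (Icc 0 T) t :=
      (hθ t ht).ofReal_comp
    have h2 : HasDerivWithinAt (fun t => -(((θ t : ℝ) : ℂ) * I)) (-(((κ t : ℝ) : ℂ) * I))
        (Icc 0 T) t := (h1.mul_const I).neg
    have h3 := (dζ t ht).mul h2.cexp
    have e : (κ t : ℂ) * (I * ζ t) * exp (-(θ t * I)) +
        ζ t * (exp (-(θ t * I)) * -(((κ t : ℝ) : ℂ) * I)) = 0 := by ring
    rw [← e]
    exact h3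
  have hconst := constant_of_derivWithin_zero (f := fun t => ζ t * exp (-(θ t * I)))
    (a := 0) (b := T) (fun t ht => (hd t ht).differentiableWithinAt) (fun t ht => by
      have ht' : t ∈ Icc 0 T := ⟨ht.1, ht.2.le⟩
      exact (hd t ht').derivWithin (uniqueDiffOn_Icc hT t ht'))
  intro t ht
  have h1 : ζ t * exp (-(θ t * I)) = ζ 0 * exp (-(θ 0 * I)) := hconst t ht
  rw [h0, ← Complex.exp_add, add_neg_cancel, Complex.exp_zero] at h1
  calc ζ t = ζ t * (exp (-(θ t * I)) * exp (θ t * I)) := by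
        rw [← Complex.exp_add, neg_add_cancel, Complex.exp_zero, mul_one]
    _ = (ζ t * exp (-(θ t * I))) * exp (θ t * I) := by ring
    _ = exp (θ t * I) := by rw [h1, one_mul]

theorem redD_slit {z : ℂ} (hz : ‖z - 1‖ ≤ 1 / 2) : z ∈ Complex.slitPlane := by
  left
  have h1 := (abs_re_le_norm (z - 1)).trans hz
  rw [sub_re, one_re, abs_le] at h1
  linarith [h1.1]

theorem redD_arg {z : ℂ} (hz : ‖z - 1‖ ≤ 1 / 2) : |arg z| ≤ 2 * ‖z - 1‖ := by
  have h1 := Complex.norm_log_one_add_half_le_self hz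
  rw [add_sub_cancel] at h1
  have h2 := abs_im_le_norm (log z)
  rw [Complex.log_im] at h2
  have h3 : 0 ≤ ‖z - 1‖ := norm_nonneg _
  linarith

theorem red_lift (S : Shape) (T : ℝ) (hT : 0 < T) (ε ζ u v : ℝ → ℂ) (κ : ℝ → ℝ)
    (h : RedTraj S T ε ζ u v κ) (ε0 : ℂ) (hε0 : ε0 ≠ 0) (ϑ0 τ : ℝ) (hτ : 0 < τ)
    (hζ : ζ 0 = exp (ϑ0 * I)) (hε : ε 0 = τ * ε0)
    (hn : ∀ t ∈ Icc 0 T, ‖ε t / ε0 - 1‖ ≤ 1 / 2) :
    ∃ f g : ℝ → ℝ, f 0 = ϑ0 - arg ε0 ∧ g 0 = 0 ∧ ∀ t ∈ Icc 0 T,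
      HasDerivWithinAt f (κ t * (1 - Gam S ‖ε t‖ (f t) (u t))) (Icc 0 T) t ∧
      HasDerivWithinAt g (κ t * Gam S ‖ε t‖ (f t) (u t)) (Icc 0 T) t ∧
      |g t| ≤ 2 * ‖ε t / ε0 - 1‖ ∧
      HasDerivWithinAt v ((κ t : ℂ) * Ac S ‖ε t‖ (f t) (u t) (v t)) (Icc 0 T) t := by
  obtain ⟨θ, hθ0, hθ⟩ := redD_angle hT κ h.cont ϑ0
  have hexp := redD_exp hT hθ h.dζ (by rw [hζ, hθ0])
  set g : ℝ → ℝ := fun t => arg (ε t / ε0) with hg
  set f : ℝ → ℝ := fun t => θ t - g t - arg ε0 with hf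
  have hg0 : g 0 = 0 := by
    simp only [hg]
    rw [hε, mul_div_assoc, div_self hε0, mul_one]
    exact Complex.arg_ofReal_of_nonneg hτ.le
  refine ⟨f, g, by simp only [hf]; rw [hθ0, hg0]; ring, hg0, fun t ht => ?_⟩
  have hs := redD_slit (hn t ht)
  have hne : ε t ≠ 0 := by
    intro h0
    rw [h0, zero_div] at hs
    exact Complex.zero_notMem_slitPlane hs
  have hr : (0 : ℝ) < ‖ε t‖ := norm_pos_iff.2 hne
  have hrc : (‖ε t‖ : ℂ) ≠ 0 := by exact_mod_cast hr.ne'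
  -- polar form of `ε`
  have hpol : ε t = ‖ε t‖ * exp ((g t + arg ε0 : ℝ) * I) := by
    have h1 : (‖ε t / ε0‖ : ℂ) * exp ((arg (ε t / ε0) : ℝ) * I) = ε t / ε0 :=
      Complex.norm_mul_exp_arg_mul_I _
    have h2 : (‖ε0‖ : ℂ) * exp ((arg ε0 : ℝ) * I) = ε0 := Complex.norm_mul_exp_arg_mul_I _
    have h3 : ε t = (ε t / ε0) * ε0 := by field_simp
    have h4 : (‖ε t‖ : ℂ) = (‖ε t / ε0‖ : ℂ) * (‖ε0‖ : ℂ) := by
      rw [← ofReal_mul, ← norm_mul, ← h3]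
    rw [h4]
    push_cast
    rw [add_mul, Complex.exp_add]
    calc ε t = (ε t / ε0) * ε0 := h3
      _ = ((‖ε t / ε0‖ : ℂ) * exp ((arg (ε t / ε0) : ℝ) * I)) *
          ((‖ε0‖ : ℂ) * exp ((arg ε0 : ℝ) * I)) := by rw [h1, h2]
      _ = _ := by simp only [hg]; ring
  have hζt : ζ t = exp (θ t * I) := hexp t ht
  have hfθ : θ t = f t + (g t + arg ε0) := by simp only [hf]; ring
  -- `ζ / ε`
  have hquot : ζ t / ε t = exp (f t * I) / ‖ε t‖ := by
    rw [div_eq_div_iff hne hrc]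
    conv_rhs => rw [hpol]
    rw [hζt, hfθ]
    push_cast
    rw [add_mul, Complex.exp_add]
    ring
  have hconj : conj (ε t) * ζ t = ‖ε t‖ * exp (f t * I) := by
    have h1 : conj (ε t) * ε t = ‖ε t‖ ^ 2 := by
      rw [mul_comm, Complex.mul_conj, Complex.normSq_eq_norm_sq]; push_cast; ring
    calc conj (ε t) * ζ t = conj (ε t) * ε t * (ζ t / ε t) := by field_simp
      _ = ‖ε t‖ ^ 2 * (exp (f t * I) / ‖ε t‖) := by rw [h1, hquot]
      _ = ‖ε t‖ * exp (f t * I) := by field_simp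
  have hexpre : (exp (f t * I)).re = Real.cos (f t) := Complex.exp_ofReal_mul_I_re _
  have hexpim : (exp (f t * I)).im = Real.sin (f t) := Complex.exp_ofReal_mul_I_im _
  have hD : 1 + (conj (ε t) * ζ t).re = 1 + ‖ε t‖ * Real.cos (f t) := by
    rw [hconj, re_ofReal_mul, hexpre]
  have hDpos : 0 < 1 + ‖ε t‖ * Real.cos (f t) := by rw [← hD]; exact h.den t ht
  have hDc : ((1 + ‖ε t‖ * Real.cos (f t) : ℝ) : ℂ) ≠ 0 := by exact_mod_cast hDpos.ne'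
  -- derivative of `g`
  have hgd : HasDerivWithinAt g (κ t * Gam S ‖ε t‖ (f t) (u t)) (Icc 0 T) t := by
    have h1 := HasDerivWithinAt.clog_real (f := fun t => ε t / ε0) ((h.dε t ht).div_const ε0) hs
    have h2 := Complex.imCLM.hasFDerivAt.comp_hasDerivWithinAt t h1
    have h4 : (⇑Complex.imCLM ∘ fun t => log (ε t / ε0)) = g := by
      funext t; simp [hg, Complex.log_im]
    rw [h4] at h2
    refine h2.congr_deriv ?_
    rw [hD]
    have e1 : (κ t : ℂ) * (((phi S (u t)).im : ℂ) * (ε t + ζ t) /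
        ((1 + ‖ε t‖ * Real.cos (f t) : ℝ) : ℂ) - I * ζ t * phi S (u t)) / ε0 / (ε t / ε0) =
        (κ t : ℂ) * ((((phi S (u t)).im / (1 + ‖ε t‖ * Real.cos (f t)) : ℝ) : ℂ) *
          (1 + exp (f t * I) / ‖ε t‖) - I * (exp (f t * I) / ‖ε t‖) * phi S (u t)) := by
      rw [← hquot]
      push_cast
      push_cast at hDc
      field_simp
    rw [e1]
    rw [Complex.imCLM_apply, im_ofReal_mul, sub_im, im_ofReal_mul]
    have e2 : (1 + exp (f t * I) / ‖ε t‖).im = Real.sin (f t) / ‖ε t‖ := by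
      rw [add_im, one_im, zero_add, div_ofReal_im, hexpim]
    have e3 : (I * (exp (f t * I) / ‖ε t‖) * phi S (u t)).im =
        (phi S (u t) * exp (f t * I)).re / ‖ε t‖ := by
      have : I * (exp (f t * I) / ‖ε t‖) * phi S (u t) =
          I * ((phi S (u t) * exp (f t * I)) / ‖ε t‖) := by ring
      rw [this, I_mul_im, div_ofReal_re]
    rw [e2, e3, Gam]
    congr 1
    congr 1
    rw [div_mul_div_comm, mul_comm (1 + ‖ε t‖ * Real.cos (f t))]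
  refine ⟨?_, hgd, redD_arg (hn t ht), ?_⟩
  · have h1 := ((hθ t ht).sub hgd).sub_const (arg ε0)
    refine h1.congr_deriv ?_
    ring
  · have h1 := h.dv t ht
    rw [hD] at h1
    exact h1

end Pool.Agent.MP_5027f4_ell
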