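import Pool.Agent.Lib_MP_5027f4_ell.Defs
import Pool.Agent.Lib_MP_5027f4_ell.OdeB
import Pool.Agent.Lib_MP_5027f4_ell.OdeE
import Pool.Agent.Lib_MP_5027f4_ell.NfC
import Pool.Agent.Lib_MP_5027f4_ell.ExpC
import Pool.Agent.Lib_MP_5027f4_ell.RedD

open Complex Set Filter Topology MeasureTheory Polynomial
open scoped Real Matrix ComplexConjugate

namespace Pool.Agent.MP_5027f4_ell

/-- The components of `vec` are real. -/
lemma conj_vec (u v : ℂ) (i : Fin 4) : conj (vec u v i) = vec u v i := by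
  fin_cases i <;> simp [vec]

lemma norm_vec_le {u v : ℂ} {ρ : ℝ} (hρ : 0 ≤ ρ) (hu : ‖u‖ ≤ ρ) (hv : ‖v‖ ≤ ρ) :
    ‖vec u v‖ ≤ ρ := by
  rw [pi_norm_le_iff_of_nonneg hρ]
  intro i
  fin_cases i
  · simpa [vec] using (Complex.abs_re_le_norm u).trans hu
  · simpa [vec] using (Complex.abs_im_le_norm u).trans hu
  · simpa [vec] using (Complex.abs_re_le_norm v).trans hv
  · simpa [vec] using (Complex.abs_im_le_norm v).trans hv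

lemma hasDerivWithinAt_vec {u v : ℝ → ℂ} {κ : ℝ} {a b : ℂ} {D : Set ℝ} {t : ℝ}
    (hu : HasDerivWithinAt u ((κ : ℂ) * a) D t) (hv : HasDerivWithinAt v ((κ : ℂ) * b) D t)
    (i : Fin 4) :
    HasDerivWithinAt (fun t => vec (u t) (v t) i) ((κ : ℂ) * vec a b i) D t := by
  have hre : ∀ {w : ℝ → ℂ} {c : ℂ}, HasDerivWithinAt w ((κ : ℂ) * c) D t →
      HasDerivWithinAt (fun t => ((w t).re : ℂ)) ((κ : ℂ) * (c.re : ℂ)) D t := by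
    intro w c h
    have h1 : HasDerivWithinAt (fun t => (w t).re) (((κ : ℂ) * c).re) D t :=
      (Complex.reCLM.hasFDerivAt.comp_hasDerivWithinAt t h)
    have h2 := h1.ofReal_comp
    refine h2.congr_deriv ?_
    simp
  have him : ∀ {w : ℝ → ℂ} {c : ℂ}, HasDerivWithinAt w ((κ : ℂ) * c) D t →
      HasDerivWithinAt (fun t => ((w t).im : ℂ)) ((κ : ℂ) * (c.im : ℂ)) D t := by
    intro w c h
    have h1 : HasDerivWithinAt (fun t => (w t).im) (((κ : ℂ) * c).im) D t :=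
      (Complex.imCLM.hasFDerivAt.comp_hasDerivWithinAt t h)
    have h2 := h1.ofReal_comp
    refine h2.congr_deriv ?_
    simp
  fin_cases i
  · simpa [vec] using hre hu
  · simpa [vec] using him hu
  · simpa [vec] using hre hv
  · simpa [vec] using him hv

/-- From a reduced trajectory to the data of the abstract dynamics. -/
lemma red_data (S : Shape) (e0 C1 : ℝ) (he0 : 0 < e0)
    (n : Fin 4 → Fin 4 → Fin 4 → ℝ → ℂ) (C ρ1 : ℝ)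
    (hfield : ∀ (r f : ℝ) (u v : ℂ), 0 < r → ‖u‖ ≤ ρ1 → ‖v‖ ≤ ρ1 →
        |r ^ 2 - e0 ^ 2| ≤ C1 * (‖u‖ ^ 2 + ‖v‖ ^ 2) →
        |Gam S r f u| ≤ 1 / 2 ∧
        |Gam S r f u / (1 - Gam S r f u) -
          (∑ i, ∑ k, qs S.s e0 f i k * (vec u v i * vec u v k)).re| ≤ C * ‖vec u v‖ ^ 3 ∧
        ∀ l, ‖vec v (Ac S r f u v) l / ((1 - Gam S r f u : ℝ) : ℂ) -
          ((Bs S.s e0 f *ᵥ vec u v) l +
            ∑ i, ∑ k, n l i k f * (vec u v i * vec u v k))‖ ≤ C * ‖vec u v‖ ^ 3)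
    (T : ℝ) (hT : 0 < T) (ε ζ u v : ℝ → ℂ) (κ : ℝ → ℝ)
    (h : RedTraj S T ε ζ u v κ) (ε0 : ℂ) (hε0 : ‖ε0‖ = e0) (ϑ0 τ : ℝ) (hτ : 0 < τ)
    (hζ : ζ 0 = exp (ϑ0 * I)) (hε : ε 0 = τ * ε0) (κ0 ρ : ℝ) (hκ0 : 0 < κ0) (hρ : ρ ≤ ρ1)
    (hρ2 : ρ ≤ 1 / 2)
    (hb : ∀ t ∈ Icc 0 T, κ0 ≤ κ t ∧ ‖u t‖ ≤ ρ ∧ ‖v t‖ ≤ ρ ∧ ‖ε t / ε0 - 1‖ ≤ ρ ∧
        |‖ε t‖ ^ 2 - e0 ^ 2| ≤ C1 * (‖u t‖ ^ 2 + ‖v t‖ ^ 2)) :
    ∃ (f f1 g g1 : ℝ → ℝ) (y1 : ℝ → Fin 4 → ℂ), f 0 = ϑ0 - arg ε0 ∧ g 0 = 0 ∧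
      ∀ t ∈ Icc 0 T, κ0 / 2 ≤ f1 t ∧ HasDerivWithinAt f (f1 t) (Icc 0 T) t ∧
        HasDerivWithinAt g (g1 t) (Icc 0 T) t ∧
        (∀ i, HasDerivWithinAt (fun t => vec (u t) (v t) i) (y1 t i) (Icc 0 T) t) ∧
        (∀ i, conj (vec (u t) (v t) i) = vec (u t) (v t) i) ∧ ‖vec (u t) (v t)‖ ≤ ρ ∧
        |g t| ≤ 2 * ρ ∧
        |g1 t - f1 t * (∑ i, ∑ k, qs S.s e0 (f t) i k *
          (vec (u t) (v t) i * vec (u t) (v t) k)).re| ≤ C * f1 t * ‖vec (u t) (v t)‖ ^ 3 ∧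
        ∀ l, ‖y1 t l - f1 t * ((Bs S.s e0 (f t) *ᵥ vec (u t) (v t)) l +
          ∑ i, ∑ k, n l i k (f t) * (vec (u t) (v t) i * vec (u t) (v t) k))‖ ≤
          C * f1 t * ‖vec (u t) (v t)‖ ^ 3 := by
  have hε00 : ε0 ≠ 0 := by
    rintro rfl
    rw [norm_zero] at hε0
    exact he0.ne hε0
  obtain ⟨f, g, hf0, hg0, hfg⟩ := red_lift S T hT ε ζ u v κ h ε0 hε00 ϑ0 τ hτ hζ hε
    (fun t ht => ((hb t ht).2.2.2.1).trans hρ2)
  refine ⟨f, fun t => κ t * (1 - Gam S ‖ε t‖ (f t) (u t)), g,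
    fun t => κ t * Gam S ‖ε t‖ (f t) (u t),
    fun t i => (κ t : ℂ) * vec (v t) (Ac S ‖ε t‖ (f t) (u t) (v t)) i, hf0, hg0, ?_⟩
  intro t ht
  obtain ⟨hfd, hgd, hga, hvd⟩ := hfg t ht
  obtain ⟨hκ, hu, hv, hεt, hεe⟩ := hb t ht
  have hκt : 0 < κ t := hκ0.trans_le hκ
  have hρ0 : 0 ≤ ρ := (norm_nonneg _).trans hu
  have hr : 0 < ‖ε t‖ := by
    rw [norm_pos_iff]
    intro h0
    rw [h0, zero_div, zero_sub, norm_neg, norm_one] at hεt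
    linarith
  obtain ⟨hG1, hG2, hG3⟩ := hfield ‖ε t‖ (f t) (u t) (v t) hr (hu.trans hρ) (hv.trans hρ) hεe
  set Γ : ℝ := Gam S ‖ε t‖ (f t) (u t) with hΓ
  have hΓ1 : 1 / 2 ≤ 1 - Γ := by
    have := (abs_le.mp hG1).2
    linarith
  have hΓ0 : 0 < 1 - Γ := by linarith
  have hf1 : 0 < κ t * (1 - Γ) := mul_pos hκt hΓ0
  refine ⟨?_, hfd, hgd, fun i => hasDerivWithinAt_vec (h.du t ht) hvd i, conj_vec _ _,
    norm_vec_le hρ0 hu hv, hga.trans (by linarith), ?_, ?_⟩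
  · show κ0 / 2 ≤ κ t * (1 - Γ)
    nlinarith
  · show |κ t * Γ - κ t * (1 - Γ) * _| ≤ C * (κ t * (1 - Γ)) * _
    have e1 : κ t * Γ = κ t * (1 - Γ) * (Γ / (1 - Γ)) := by
      field_simp
    rw [e1, ← mul_sub, abs_mul, abs_of_pos hf1]
    calc κ t * (1 - Γ) * _ ≤ κ t * (1 - Γ) * (C * ‖vec (u t) (v t)‖ ^ 3) :=
          mul_le_mul_of_nonneg_left hG2 hf1.le
      _ = C * (κ t * (1 - Γ)) * ‖vec (u t) (v t)‖ ^ 3 := by ring
  · intro l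
    show ‖(κ t : ℂ) * vec (v t) (Ac S ‖ε t‖ (f t) (u t) (v t)) l -
      ((κ t * (1 - Γ) : ℝ) : ℂ) * _‖ ≤ C * (κ t * (1 - Γ)) * _
    have hne : ((1 - Γ : ℝ) : ℂ) ≠ 0 := by exact_mod_cast hΓ0.ne'
    have e1 : (κ t : ℂ) * vec (v t) (Ac S ‖ε t‖ (f t) (u t) (v t)) l =
        ((κ t * (1 - Γ) : ℝ) : ℂ) *
          (vec (v t) (Ac S ‖ε t‖ (f t) (u t) (v t)) l / ((1 - Γ : ℝ) : ℂ)) := by
      rw [Complex.ofReal_mul]
      field_simp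
    rw [e1, ← mul_sub, norm_mul, Complex.norm_real, Real.norm_of_nonneg hf1.le]
    calc κ t * (1 - Γ) * _ ≤ κ t * (1 - Γ) * (C * ‖vec (u t) (v t)‖ ^ 3) :=
          mul_le_mul_of_nonneg_left (hG3 l) hf1.le
      _ = C * (κ t * (1 - Γ)) * ‖vec (u t) (v t)‖ ^ 3 := by ring

lemma one_add_mul_cos_pos {e0 : ℝ} (he0 : 0 < e0) (he1 : e0 < 1) (θ : ℝ) :
    0 < 1 + e0 * Real.cos θ := by
  nlinarith [Real.neg_one_le_cos θ]

lemma continuous_qs (s : ℝ) {e0 : ℝ} (he0 : 0 < e0) (he1 : e0 < 1) (i k : Fin 4) :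
    Continuous fun θ => qs s e0 θ i k := by
  have h1 : ∀ θ, 1 + e0 * Real.cos θ ≠ 0 := fun θ => (one_add_mul_cos_pos he0 he1 θ).ne'
  have h2 : Continuous fun θ : ℝ => ((3 / 4 * (1 + 3 * s) * Real.cos θ / e0 : ℝ) : ℂ) := by
    fun_prop
  have h3 : Continuous fun θ : ℝ => ((3 / 4 * (1 - 3 * s) * Real.cos θ / e0 : ℝ) : ℂ) := by
    fun_prop
  have h4 : Continuous fun θ : ℝ => ((3 / 2 * s * Real.sin θ * (2 + e0 * Real.cos θ) /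
      (1 + e0 * Real.cos θ) / e0 : ℝ) : ℂ) := by
    refine Complex.continuous_ofReal.comp ?_
    refine Continuous.div_const (Continuous.div ?_ ?_ h1) _ <;> fun_prop
  have h5 : Continuous fun _ : ℝ => (0 : ℂ) := continuous_const
  fin_cases i <;> fin_cases k <;> simp only [qs, Matrix.of_apply, Matrix.cons_val', Matrix.cons_val_zero,
    Matrix.cons_val_one, Matrix.cons_val_fin_one, Fin.zero_eta, Fin.mk_one, Fin.reduceFinMk,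
    Matrix.cons_val] <;> first | exact h2 | exact h3 | exact h4 | exact h5

lemma qs_periodic (s e0 : ℝ) (θ : ℝ) : qs s e0 (θ + 2 * π) = qs s e0 θ := by
  unfold qs
  rw [Real.cos_add_two_pi, Real.sin_add_two_pi]

lemma qs_real (s e0 : ℝ) (θ : ℝ) : IsRealMat (qs s e0 θ) := by
  intro i j
  fin_cases i <;> fin_cases j <;> simp only [qs, Matrix.of_apply, Matrix.cons_val', Matrix.cons_val_zero,
    Matrix.cons_val_one, Matrix.cons_val_fin_one, Fin.zero_eta, Fin.mk_one, Fin.reduceFinMk,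
    Matrix.cons_val, Complex.conj_ofReal, map_zero]

lemma qs_symm (s e0 : ℝ) (θ : ℝ) : (qs s e0 θ)ᵀ = qs s e0 θ := by
  ext i j
  fin_cases i <;> fin_cases j <;> simp only [qs, Matrix.transpose_apply, Matrix.of_apply, Matrix.cons_val', Matrix.cons_val_zero,
    Matrix.cons_val_one, Matrix.cons_val_fin_one, Fin.zero_eta, Fin.mk_one, Fin.reduceFinMk,
    Matrix.cons_val]

theorem unst_elliptic (S : Shape) (hS : S.Good) (e0 C1 : ℝ) (he0 : 0 < e0) (he1 : e0 < 1)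
    (hC1 : 0 < C1) (X Y : ℝ → Mat) (hX : IsFund (Bs S.s e0) X) (hY : IsCofund (Bs S.s e0) Y)
    (a : Fin 4 → ℂ) (P Q : Mat) (hD : IsDiag (X (2 * π)) a P Q) (hR : RealStr a P Q)
    (ha : Function.Injective a) (h1 : ∀ i, ‖a i‖ = 1) (h3 : ∀ i j k, a i * a j * a k ≠ 1)
    (hr : rr (qs S.s e0) X P 0 1 ≠ 0) : Unst S e0 C1 := by
  obtain ⟨n, hn, hnper, C, hC, ρ1, hρ1, hfield⟩ := field_expansion S hS e0 C1 he0 he1 hC1
  have hXr := fun θ => fund_real hX hY (fun θ => Bs_real S.s e0 θ) θ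
  have hOm : (e0 : ℂ) ∈ Om := ofReal_mem_Om (by linarith) he1
  obtain ⟨ρ2, hρ2, a0, ha0, hdyn⟩ := elliptic_dynamics (Bs S.s e0) X Y
    (fun i j => continuous_Bs S.s hOm i j) (fun θ => Bs_periodic S.s e0 θ) hX hY a P Q hD hR hXr
    ha h1 h3 n hn hnper (qs S.s e0) (fun i k => continuous_qs S.s he0 he1 i k)
    (fun θ => qs_periodic S.s e0 θ) (fun θ => qs_real S.s e0 θ) (fun θ => qs_symm S.s e0 θ) hr C hC
  -- the real initial vector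
  have hXP : ∀ θ i, (X θ * P) i 1 = conj ((X θ * P) i 0) := by
    intro θ i
    rw [Matrix.mul_apply, Matrix.mul_apply, map_sum]
    refine Finset.sum_congr rfl fun j _ => ?_
    rw [map_mul, (hXr θ).1 i j, hR.P1 j]
  have hw : ∀ θ i, (((X θ * P) i 0 + (X θ * P) i 1).re : ℂ) = (X θ * P) i 0 + (X θ * P) i 1 := by
    intro θ i
    rw [hXP θ i]
    apply Complex.ext <;> simp
  let w : ℝ → Fin 4 → ℝ := fun θ i => ((X θ * P) i 0 + (X θ * P) i 1).re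
  refine ⟨fun θ => ((w θ 0 : ℂ) + w θ 1 * I, (w θ 2 : ℂ) + w θ 3 * I),
    min (min ρ1 (ρ2 / 2)) (1 / 2), by positivity, a0, ha0, ?_⟩
  intro c κ0 ϑ0 ε0 hc hca hκ0 hε0
  obtain ⟨T, hT, hdynT⟩ := hdyn c (κ0 / 2) hc hca (half_pos hκ0)
  refine ⟨T, hT, ?_⟩
  intro τ ε ζ u v κ hτ hRT hζ hε hu0 hv0 hb
  obtain ⟨f, f1, g, g1, y1, hf0, hg0, hall⟩ := red_data S e0 C1 he0 n C ρ1 hfield T hT ε ζ u v κ
    hRT ε0 hε0 ϑ0 τ hτ hζ hε κ0 _ hκ0 ((min_le_left _ _).trans (min_le_left _ _))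
    (min_le_right _ _) hb
  refine hdynT f f1 g g1 (fun t => vec (u t) (v t)) y1 ?_ ?_
  · intro t ht
    obtain ⟨a1, a2, a3, a4, a5, a6, a7, a8, a9⟩ := hall t ht
    have hle : min (min ρ1 (ρ2 / 2)) (1 / 2) ≤ ρ2 / 2 :=
      (min_le_left _ _).trans (min_le_right _ _)
    refine ⟨a1, a2, a3, a4, a5, ?_, ?_, a8, a9⟩
    · exact a6.trans (hle.trans (by linarith))
    · rw [hg0, sub_zero]
      exact a7.trans (by linarith)
  · intro i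
    rw [hf0, ← hw]
    show vec (u 0) (v 0) i = _
    rw [hu0, hv0]
    fin_cases i
    · show (((c : ℂ) * ((w (ϑ0 - arg ε0) 0 : ℂ) + w (ϑ0 - arg ε0) 1 * I)).re : ℂ) = _
      simp [w]
    · show (((c : ℂ) * ((w (ϑ0 - arg ε0) 0 : ℂ) + w (ϑ0 - arg ε0) 1 * I)).im : ℂ) = _
      simp [w]
    · show (((c : ℂ) * ((w (ϑ0 - arg ε0) 2 : ℂ) + w (ϑ0 - arg ε0) 3 * I)).re : ℂ) = _
      simp [w]
    · show (((c : ℂ) * ((w (ϑ0 - arg ε0) 2 : ℂ) + w (ϑ0 - arg ε0) 3 * I)).im : ℂ) = _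
      simp [w]

end Pool.Agent.MP_5027f4_ell
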