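import Mathlib

open Complex Set Filter Topology MeasureTheory
open scoped Real Matrix ComplexConjugate

namespace Pool.Agent.MP_5027f4_ell

/-- NfD.lean : hyperbolic case -/
theorem scalar_hyp (C χ : ℝ) (hC : 0 < C) (hχ : 0 < χ) :
    ∃ ρ > 0, ∀ A κ0 : ℝ, 0 < A → 0 < κ0 → ∃ T > 0,
      ∀ (n nu ns du ds κ : ℝ → ℝ), nu 0 = A → ns 0 = 0 →
        (∀ t ∈ Icc 0 T, 0 ≤ nu t ∧ 0 ≤ ns t ∧ 0 ≤ n t ∧ n t ^ 2 = nu t + ns t ∧ n t ≤ ρ ∧
          κ0 ≤ κ t ∧ HasDerivWithinAt nu (du t) (Icc 0 T) t ∧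
          κ t * (χ * nu t - C * n t ^ 3) ≤ du t ∧
          HasDerivWithinAt ns (ds t) (Icc 0 T) t ∧ ds t ≤ C * κ t * n t ^ 3) → False := by
  refine ⟨χ / (8 * C), by positivity, fun A κ0 hA hκ0 => ?_⟩
  set ρ := χ / (8 * C) with hρ
  have hρpos : 0 < ρ := by positivity
  have hρC : 8 * C * ρ = χ := by
    rw [hρ]
    field_simp
  set c := κ0 * χ * A / 8 with hc
  have hcpos : 0 < c := by positivity
  refine ⟨(ρ ^ 2 + 1) / c, by positivity, ?_⟩
  intro n nu ns du ds κ h0 h0' h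
  set T := (ρ ^ 2 + 1) / c with hT
  have hTpos : 0 < T := by positivity
  have hf : ∀ x ∈ Ico 0 T, HasDerivWithinAt (fun t => ns t - nu t) (ds x - du x) (Ici x) x := by
    intro x hx
    obtain ⟨_, _, _, _, _, _, h1, _, h2, _⟩ := h x ⟨hx.1, hx.2.le⟩
    exact (h2.sub h1).mono_of_mem_nhdsWithin (Icc_mem_nhdsGE_of_mem hx)
  have hcont : ContinuousOn (fun t => ns t - nu t) (Icc 0 T) := by
    intro x hx
    obtain ⟨_, _, _, _, _, _, h1, _, h2, _⟩ := h x hx
    exact (h2.sub h1).continuousWithinAt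
  have hB : ∀ x : ℝ, HasDerivAt (fun t : ℝ => -(A / 2) - c * t) (-c) x := by
    intro x
    have := ((hasDerivAt_id x).const_mul c).const_sub (-(A / 2))
    simpa using this
  have key := image_le_of_deriv_right_lt_deriv_boundary hcont hf
    (B := fun t : ℝ => -(A / 2) - c * t) (B' := fun _ => -c)
    (by simp only [h0, h0']; linarith) hB (by
      intro x hx hxB
      obtain ⟨h1, h2, h3, h4, h5, h6, _, h8, _, h10⟩ := h x ⟨hx.1, hx.2.le⟩
      have hD : nu x - ns x = A / 2 + c * x := by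
        have : ns x - nu x = -(A / 2) - c * x := hxB
        linarith
      have hcx : 0 ≤ c * x := mul_nonneg hcpos.le hx.1
      have hn3 : n x ^ 3 ≤ 2 * ρ * nu x := by
        have e : n x ^ 3 = n x * (nu x + ns x) := by rw [← h4]; ring
        rw [e]
        have : n x * (nu x + ns x) ≤ ρ * (2 * nu x) :=
          mul_le_mul h5 (by linarith) (by linarith) hρpos.le
        linarith
      have hκ : 0 < κ x := lt_of_lt_of_le hκ0 h6
      have h11 : κ x * (χ / 2 * nu x) ≤ du x - ds x := by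
        have e1 : C * n x ^ 3 ≤ χ / 4 * nu x := by
          calc C * n x ^ 3 ≤ C * (2 * ρ * nu x) := by gcongr
            _ = χ / 4 * nu x := by rw [← hρC]; ring
        have e2 : κ x * (C * n x ^ 3) ≤ κ x * (χ / 4 * nu x) := by gcongr
        nlinarith
      have h12 : 2 * c ≤ κ x * (χ / 2 * nu x) := by
        calc 2 * c = κ0 * (χ / 2 * (A / 2)) := by rw [hc]; ring
          _ ≤ κ x * (χ / 2 * nu x) := by
            gcongr
            linarith
      change ds x - du x < -c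
      linarith) (right_mem_Icc.2 hTpos.le)
  obtain ⟨h1, h2, h3, h4, h5, _⟩ := h T (right_mem_Icc.2 hTpos.le)
  have hcT : c * T = ρ ^ 2 + 1 := by
    rw [hT]
    field_simp
  have h6 : n T ^ 2 ≤ ρ ^ 2 := by gcongr
  have h7 : ns T - nu T ≤ -(A / 2) - c * T := key
  nlinarith

end Pool.Agent.MP_5027f4_ell
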