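import Pool.Agent.Lib_MP_5027f4_ell.OdeB
import Pool.Agent.Lib_MP_5027f4_ell.NfD

/-!
# Elliptic Lagrange orbits: nonlinear instability in the hyperbolic case
-/

open Complex Set Filter Topology MeasureTheory Polynomial
open scoped Real Matrix ComplexConjugate

namespace Pool.Agent.MP_5027f4_ell

namespace NfE

/-- Finitely many continuous periodic functions have a common bound. -/
theorem exists_bound {ι : Type*} [Finite ι] (g : ι → ℝ → ℝ) (hg : ∀ i, Continuous (g i))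
    (hp : ∀ i θ, g i (θ + 2 * π) = g i θ) : ∃ K, 1 ≤ K ∧ ∀ i θ, g i θ ≤ K := by
  have h1 : ∀ i, ∃ K, ∀ θ, g i θ ≤ K := by
    intro i
    have hb := Function.Periodic.isBounded_of_continuous (f := g i) (c := 2 * π)
      (fun θ => hp i θ) (by positivity) (hg i)
    obtain ⟨K, hK⟩ := hb.exists_norm_le
    exact ⟨K, fun θ => (le_abs_self _).trans (hK _ ⟨θ, rfl⟩)⟩
  choose K hK using h1
  obtain ⟨M, hM⟩ := (Set.finite_range K).bddAbove
  exact ⟨max 1 M, le_max_left _ _, fun i θ =>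
    (hK i θ).trans ((hM ⟨i, rfl⟩).trans (le_max_right _ _))⟩

variable {B X Y : ℝ → Mat} {a : Fin 4 → ℂ} {P Q : Mat}

theorem eig_ne_zero (hX : IsFund B X) (hY : IsCofund B Y) (hD : IsDiag (X (2 * π)) a P Q)
    (j : Fin 4) : a j ≠ 0 := by
  intro hj
  have hYX : Y (2 * π) * X (2 * π) = 1 := mul_eq_one_comm.mp (fund_mul_cofund hX hY _)
  have h1 : X (2 * π) * P * Matrix.single j j 1 = 0 := by
    rw [hD.MP]
    ext i k
    simp only [Matrix.mul_apply, Matrix.diagonal_apply, Matrix.single_apply, Matrix.zero_apply]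
    refine Finset.sum_eq_zero fun l _ => ?_
    by_cases hl : j = l
    · subst hl
      simp [hj]
    · simp [hl]
  have h2 : Matrix.single j j (1 : ℂ) = 0 := by
    calc Matrix.single j j (1 : ℂ) = Q * (Y (2 * π) * (X (2 * π) * P * Matrix.single j j 1)) := by
          rw [← Matrix.mul_assoc (Y _), ← Matrix.mul_assoc (Y _), hYX, Matrix.one_mul,
            ← Matrix.mul_assoc, hD.QP, Matrix.one_mul]
      _ = 0 := by rw [h1]; simp
  have h3 := congrFun (congrFun h2 j) j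
  simp at h3

theorem row_per (hX : IsFund B X) (hY : IsCofund B Y) (hper : ∀ θ, B (θ + 2 * π) = B θ)
    (hD : IsDiag (X (2 * π)) a P Q) (θ : ℝ) (j l : Fin 4) :
    a j * (Q * Y (θ + 2 * π)) j l = (Q * Y θ) j l := by
  have hQM : Q * X (2 * π) = Matrix.diagonal a * Q := by
    calc Q * X (2 * π) = Q * X (2 * π) * (P * Q) := by rw [hD.PQ, Matrix.mul_one]
      _ = Q * (X (2 * π) * P) * Q := by simp only [Matrix.mul_assoc]
      _ = Q * P * Matrix.diagonal a * Q := by rw [hD.MP]; simp only [Matrix.mul_assoc]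
      _ = _ := by rw [hD.QP, Matrix.one_mul]
  have h1 : Matrix.diagonal a * (Q * Y (θ + 2 * π)) = Q * Y θ := by
    rw [(fund_add hX hY hper θ).2, ← Matrix.mul_assoc, ← hQM, Matrix.mul_assoc Q,
      ← Matrix.mul_assoc (X _), fund_mul_cofund hX hY, Matrix.one_mul]
  rw [← h1, Matrix.diagonal_mul]

theorem col_per (hX : IsFund B X) (hY : IsCofund B Y) (hper : ∀ θ, B (θ + 2 * π) = B θ)
    (hD : IsDiag (X (2 * π)) a P Q) (θ : ℝ) (i j : Fin 4) :
    (X (θ + 2 * π) * P) i j = (X θ * P) i j * a j := by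
  rw [(fund_add hX hY hper θ).1, Matrix.mul_assoc, hD.MP, ← Matrix.mul_assoc,
    Matrix.mul_diagonal]

/-- Exponential weights. -/
noncomputable def wt (a : Fin 4 → ℂ) (j : Fin 4) (θ : ℝ) : ℝ :=
  Real.exp (θ * (Real.log ‖a j‖ / (2 * π)))

theorem wt_pos (j : Fin 4) (θ : ℝ) : 0 < wt a j θ := Real.exp_pos _

theorem wt_add {j : Fin 4} (ha : a j ≠ 0) (θ : ℝ) : wt a j (θ + 2 * π) = wt a j θ * ‖a j‖ := by
  have h1 : (θ + 2 * π) * (Real.log ‖a j‖ / (2 * π)) =
      θ * (Real.log ‖a j‖ / (2 * π)) + Real.log ‖a j‖ := by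
    field_simp
  rw [wt, h1, Real.exp_add, Real.exp_log (norm_pos_iff.mpr ha), wt]

theorem continuous_wt (j : Fin 4) : Continuous (wt a j) := by
  unfold wt
  fun_prop

theorem hasDerivAt_wt (j : Fin 4) (θ : ℝ) :
    HasDerivAt (wt a j) (wt a j θ * (Real.log ‖a j‖ / (2 * π))) θ := by
  have h := ((hasDerivAt_id θ).mul_const (Real.log ‖a j‖ / (2 * π))).exp
  have h2 : wt a j = fun x => Real.exp (x * (Real.log ‖a j‖ / (2 * π))) := rfl
  rw [h2]
  simpa using h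

theorem fund_cont (hX : IsFund B X) (i j : Fin 4) : Continuous fun θ => X θ i j :=
  continuous_iff_continuousAt.mpr fun θ => (hX.2 θ i j).continuousAt

theorem cofund_cont (hY : IsCofund B Y) (i j : Fin 4) : Continuous fun θ => Y θ i j :=
  continuous_iff_continuousAt.mpr fun θ => (hY.2 θ i j).continuousAt

/-- Bounds for the rows and columns. -/
theorem bounds (hX : IsFund B X) (hY : IsCofund B Y) (hper : ∀ θ, B (θ + 2 * π) = B θ)
    (hD : IsDiag (X (2 * π)) a P Q) :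
    ∃ K, 1 ≤ K ∧ (∀ θ j l, wt a j θ * ‖(Q * Y θ) j l‖ ≤ K) ∧
      ∀ θ i j, ‖(X θ * P) i j‖ ≤ K * wt a j θ := by
  have ha := eig_ne_zero hX hY hD
  obtain ⟨K1, hK1, h1⟩ := exists_bound (ι := Fin 4 × Fin 4)
    (fun p θ => wt a p.1 θ * ‖(Q * Y θ) p.1 p.2‖) (by
      intro p
      refine (continuous_wt p.1).mul (Continuous.norm ?_)
      simp only [Matrix.mul_apply]
      exact continuous_finsetSum _ fun k _ => continuous_const.mul (cofund_cont hY k p.2)) (by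
      intro p θ
      rw [wt_add (ha p.1), ← row_per hX hY hper hD θ p.1 p.2, norm_mul]
      ring)
  obtain ⟨K2, hK2, h2⟩ := exists_bound (ι := Fin 4 × Fin 4)
    (fun p θ => ‖(X θ * P) p.1 p.2‖ / wt a p.2 θ) (by
      intro p
      refine Continuous.div (Continuous.norm ?_) (continuous_wt p.2) fun θ => (wt_pos _ _).ne'
      simp only [Matrix.mul_apply]
      exact continuous_finsetSum _ fun k _ => (fund_cont hX p.1 k).mul continuous_const) (by
      intro p θ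
      have h0 : ‖a p.2‖ ≠ 0 := norm_ne_zero_iff.mpr (ha p.2)
      have h3 := (wt_pos (a := a) p.2 θ).ne'
      rw [wt_add (ha p.2), col_per hX hY hper hD θ p.1 p.2, norm_mul]
      field_simp)
  refine ⟨max K1 K2, hK1.trans (le_max_left _ _), fun θ j l =>
    (h1 (j, l) θ).trans (le_max_left _ _), fun θ i j => ?_⟩
  have h3 := h2 (i, j) θ
  rw [div_le_iff₀ (wt_pos _ _)] at h3
  exact h3.trans (mul_le_mul_of_nonneg_right (le_max_right _ _) (wt_pos _ _).le)

theorem row_deriv (hY : IsCofund B Y) (θ : ℝ) (j l : Fin 4) :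
    HasDerivAt (fun t => (Q * Y t) j l) (-((Q * Y θ * B θ) j l)) θ := by
  have h := HasDerivAt.fun_sum (u := Finset.univ)
    (fun (k : Fin 4) _ => (hY.2 θ k l).const_mul (Q j k))
  have h2 : (Q * Y θ * B θ) j l = ∑ k, Q j k * (Y θ * B θ) k l := by
    rw [Matrix.mul_assoc, Matrix.mul_apply]
  rw [h2, ← Finset.sum_neg_distrib]
  simpa only [mul_neg, Matrix.mul_apply (M := Q)] using h

/-- The linear part cancels. -/
theorem eta_deriv (hY : IsCofund B Y) {f f1 : ℝ → ℝ} {y y1 : ℝ → Fin 4 → ℂ} {S : Set ℝ} {t : ℝ}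
    (hf : HasDerivWithinAt f (f1 t) S t)
    (hy : ∀ i, HasDerivWithinAt (fun t => y t i) (y1 t i) S t) (j : Fin 4) :
    HasDerivWithinAt (fun t => ∑ l, (Q * Y (f t)) j l * y t l)
      (∑ l, (Q * Y (f t)) j l * (y1 t l - f1 t * (B (f t) *ᵥ y t) l)) S t := by
  have h := HasDerivWithinAt.fun_sum (u := Finset.univ) (fun (l : Fin 4) _ =>
    ((row_deriv (Q := Q) hY (f t) j l).scomp_hasDerivWithinAt t hf).mul (hy l))
  refine h.congr_deriv ?_
  have h1 : ∑ l, (Q * Y (f t)) j l * (B (f t) *ᵥ y t) l =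
      ∑ l, (Q * Y (f t) * B (f t)) j l * y t l := by
    have := congrFun (Matrix.mulVec_mulVec (y t) (Q * Y (f t)) (B (f t))) j
    simpa only [Matrix.mulVec, dotProduct] using this
  have h2 : ∑ l, (Q * Y (f t)) j l * (y1 t l - f1 t * (B (f t) *ᵥ y t) l) =
      ∑ l, (Q * Y (f t)) j l * y1 t l - f1 t * ∑ l, (Q * Y (f t)) j l * (B (f t) *ᵥ y t) l := by
    rw [Finset.mul_sum, ← Finset.sum_sub_distrib]
    exact Finset.sum_congr rfl fun l _ => by ring
  rw [h2, h1, Finset.mul_sum, ← Finset.sum_sub_distrib]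
  refine Finset.sum_congr rfl fun l _ => ?_
  simp only [Function.comp_apply, Complex.real_smul]
  ring

/-- The derivative of a weighted square. -/
theorem wsq_deriv (a : Fin 4 → ℂ) {f : ℝ → ℝ} {f1 : ℝ} {g : ℝ → ℂ} {g1 : ℂ} {S : Set ℝ} {t : ℝ}
    (j : Fin 4) (hf : HasDerivWithinAt f f1 S t) (hg : HasDerivWithinAt g g1 S t) :
    HasDerivWithinAt (fun t => wt a j (f t) ^ 2 * ‖g t‖ ^ 2)
      (f1 * (2 * (Real.log ‖a j‖ / (2 * π))) * (wt a j (f t) ^ 2 * ‖g t‖ ^ 2) +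
        wt a j (f t) ^ 2 * (2 * inner ℝ (g t) g1)) S t := by
  have h1 := ((hasDerivAt_wt (a := a) j (f t)).comp_hasDerivWithinAt t hf).fun_pow 2
  have h2 := h1.mul hg.norm_sq
  refine h2.congr_deriv ?_
  simp only [Function.comp_apply]
  push_cast
  ring

/-- Pointwise estimates. -/
theorem estimates {K : ℝ} (hX : IsFund B X) (hY : IsCofund B Y)
    (hD : IsDiag (X (2 * π)) a P Q) (hK1 : 1 ≤ K)
    (hKr : ∀ θ j l, wt a j θ * ‖(Q * Y θ) j l‖ ≤ K)
    (hKc : ∀ θ i j, ‖(X θ * P) i j‖ ≤ K * wt a j θ) (θ : ℝ) (y : Fin 4 → ℂ) :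
    (∀ j, wt a j θ * ‖∑ l, (Q * Y θ) j l * y l‖ ≤ 4 * K * ‖y‖) ∧
    ∀ N, (∀ j, wt a j θ * ‖∑ l, (Q * Y θ) j l * y l‖ ≤ N) → ‖y‖ ≤ 4 * K * N := by
  constructor
  · intro j
    calc wt a j θ * ‖∑ l, (Q * Y θ) j l * y l‖
        ≤ wt a j θ * ∑ l, ‖(Q * Y θ) j l‖ * ‖y l‖ := by
          refine mul_le_mul_of_nonneg_left ?_ (wt_pos _ _).le
          refine (norm_sum_le _ _).trans (Finset.sum_le_sum fun l _ => ?_)
          rw [norm_mul]
      _ = ∑ l, (wt a j θ * ‖(Q * Y θ) j l‖) * ‖y l‖ := by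
          rw [Finset.mul_sum]
          exact Finset.sum_congr rfl fun l _ => by ring
      _ ≤ ∑ _l : Fin 4, K * ‖y‖ := by
          refine Finset.sum_le_sum fun l _ => ?_
          exact mul_le_mul (hKr θ j l) (norm_le_pi_norm y l) (norm_nonneg _) (by linarith)
      _ = 4 * K * ‖y‖ := by
          simp
          ring
  · intro N hN
    have hN0 : 0 ≤ N := le_trans (mul_nonneg (wt_pos _ _).le (norm_nonneg _)) (hN 0)
    have h1 : y = (X θ * P) *ᵥ ((Q * Y θ) *ᵥ y) := by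
      rw [Matrix.mulVec_mulVec, Matrix.mul_assoc (X θ), ← Matrix.mul_assoc P, hD.PQ,
        Matrix.one_mul, fund_mul_cofund hX hY, Matrix.one_mulVec]
    rw [pi_norm_le_iff_of_nonneg (by positivity)]
    intro i
    have h2 : y i = ∑ j, (X θ * P) i j * ∑ l, (Q * Y θ) j l * y l := by
      have := congrFun h1 i
      simpa only [Matrix.mulVec, dotProduct] using this
    rw [h2]
    calc ‖∑ j, (X θ * P) i j * ∑ l, (Q * Y θ) j l * y l‖
        ≤ ∑ j, ‖(X θ * P) i j‖ * ‖∑ l, (Q * Y θ) j l * y l‖ := by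
          refine (norm_sum_le _ _).trans (Finset.sum_le_sum fun l _ => ?_)
          rw [norm_mul]
      _ ≤ ∑ j, (K * wt a j θ) * ‖∑ l, (Q * Y θ) j l * y l‖ :=
          Finset.sum_le_sum fun j _ => mul_le_mul_of_nonneg_right (hKc θ i j) (norm_nonneg _)
      _ ≤ ∑ _j : Fin 4, K * N := by
          refine Finset.sum_le_sum fun j _ => ?_
          rw [mul_assoc]
          exact mul_le_mul_of_nonneg_left (hN j) (by linarith)
      _ = 4 * K * N := by
          simp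
          ring

theorem cross_bound {w N K C2 f1 ny : ℝ} {u v : ℂ} (hw : 0 ≤ w) (hK : 0 ≤ K) (hC2 : 0 ≤ C2)
    (hf1 : 0 ≤ f1) (hny : 0 ≤ ny) (hN : 0 ≤ N) (h1 : w * ‖u‖ ≤ N) (h2 : ny ≤ 4 * K * N)
    (h3 : w * ‖v‖ ≤ 4 * K * (f1 * C2 * ny ^ 2)) :
    |w ^ 2 * (2 * inner ℝ u v)| ≤ f1 * (128 * K ^ 3 * C2 * N ^ 3) := by
  have h4 : |inner ℝ u v| ≤ ‖u‖ * ‖v‖ := abs_real_inner_le_norm u v
  have h5 : ny ^ 2 ≤ (4 * K * N) ^ 2 := pow_le_pow_left₀ hny h2 2
  have h6 : w * ‖v‖ ≤ 4 * K * (f1 * C2 * (4 * K * N) ^ 2) :=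
    h3.trans (by gcongr)
  calc |w ^ 2 * (2 * inner ℝ u v)| = w ^ 2 * (2 * |inner ℝ u v|) := by
        rw [abs_mul, abs_mul, abs_of_nonneg (sq_nonneg w), abs_of_pos (by norm_num : (0:ℝ) < 2)]
    _ ≤ w ^ 2 * (2 * (‖u‖ * ‖v‖)) := by gcongr
    _ = 2 * ((w * ‖u‖) * (w * ‖v‖)) := by ring
    _ ≤ 2 * (N * (4 * K * (f1 * C2 * (4 * K * N) ^ 2))) := by
        gcongr
    _ = _ := by ring

end NfE

open NfE in
theorem hyperbolic_dynamics (B X Y : ℝ → Mat) (hB : ∀ i j, Continuous fun θ => B θ i j)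
    (hper : ∀ θ, B (θ + 2 * π) = B θ) (hX : IsFund B X) (hY : IsCofund B Y)
    (a : Fin 4 → ℂ) (P Q : Mat) (hD : IsDiag (X (2 * π)) a P Q)
    (y0 : Fin 4 → ℝ) (hy0 : ∀ j, ‖a j‖ ≤ 1 → (Q *ᵥ fun i => (y0 i : ℂ)) j = 0)
    (hy1 : ∃ j, (Q *ᵥ fun i => (y0 i : ℂ)) j ≠ 0)
    (n : Fin 4 → Fin 4 → Fin 4 → ℝ → ℂ) (hn : ∀ l i k, Continuous (n l i k))
    (hnper : ∀ l i k θ, n l i k (θ + 2 * π) = n l i k θ) (C : ℝ) (hC : 0 < C) :
    ∃ ρ > 0, ∀ c κ0 f0 : ℝ, 0 < c → 0 < κ0 → ∃ T > 0,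
      ∀ (f f1 : ℝ → ℝ) (y y1 : ℝ → Fin 4 → ℂ), f 0 = f0 →
        (∀ t ∈ Icc 0 T, κ0 ≤ f1 t ∧ HasDerivWithinAt f (f1 t) (Icc 0 T) t ∧
          (∀ i, HasDerivWithinAt (fun t => y t i) (y1 t i) (Icc 0 T) t) ∧
          (∀ i, conj (y t i) = y t i) ∧ ‖y t‖ ≤ ρ ∧
          ∀ l, ‖y1 t l - f1 t * ((B (f t) *ᵥ y t) l +
            ∑ i, ∑ k, n l i k (f t) * (y t i * y t k))‖ ≤ C * f1 t * ‖y t‖ ^ 3) →
        (∀ i, y 0 i = c * (X f0 *ᵥ fun i => (y0 i : ℂ)) i) → False := by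
  classical
  obtain ⟨K, hK1, hKr, hKc⟩ := bounds hX hY hper hD
  have hK0 : 0 < K := by linarith
  obtain ⟨Kn, hKn1, hKn⟩ := exists_bound (ι := Fin 4 × Fin 4 × Fin 4)
    (fun p θ => ‖n p.1 p.2.1 p.2.2 θ‖) (fun p => (hn _ _ _).norm)
    (fun p θ => by rw [hnper])
  set s : Finset (Fin 4) := Finset.univ.filter fun j => 1 < ‖a j‖ with hs
  set s' : Finset (Fin 4) := Finset.univ.filter fun j => ¬ 1 < ‖a j‖ with hs'
  obtain ⟨j1, hj1⟩ := hy1
  have hj1s : j1 ∈ s := by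
    rw [hs, Finset.mem_filter]
    refine ⟨Finset.mem_univ _, ?_⟩
    by_contra hcon
    exact hj1 (hy0 j1 (not_lt.mp hcon))
  -- the growth rate
  obtain ⟨χ, hχ, hχs⟩ : ∃ χ : ℝ, 0 < χ ∧ ∀ j ∈ s, χ ≤ 2 * (Real.log ‖a j‖ / (2 * π)) := by
    obtain ⟨j0, hj0, hmin⟩ := s.exists_min_image
      (fun j => 2 * (Real.log ‖a j‖ / (2 * π))) ⟨j1, hj1s⟩
    refine ⟨2 * (Real.log ‖a j0‖ / (2 * π)), ?_, hmin⟩
    have : 0 < Real.log ‖a j0‖ := Real.log_pos (Finset.mem_filter.mp hj0).2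
    positivity
  set C2 : ℝ := 16 * Kn + C with hC2
  have hC20 : 0 < C2 := by positivity
  set D : ℝ := 128 * K ^ 3 * C2 with hDdef
  have hD0 : 0 < D := by positivity
  obtain ⟨ρ1, hρ1, h1⟩ := scalar_hyp (4 * D) χ (by positivity) hχ
  refine ⟨min 1 (ρ1 / (8 * K)), by positivity, fun c κ0 f0 hc hκ0 => ?_⟩
  have hA : 0 < ∑ j ∈ s, wt a j f0 ^ 2 * ‖(c : ℂ) * (Q *ᵥ fun i => (y0 i : ℂ)) j‖ ^ 2 := by
    refine Finset.sum_pos' (fun j _ => by positivity) ⟨j1, hj1s, ?_⟩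
    have h2 : 0 < ‖(c : ℂ) * (Q *ᵥ fun i => (y0 i : ℂ)) j1‖ := by
      rw [norm_pos_iff]
      exact mul_ne_zero (by exact_mod_cast hc.ne') hj1
    have h3 := wt_pos (a := a) j1 f0
    positivity
  obtain ⟨T, hT, hmain⟩ := h1 _ κ0 hA hκ0
  refine ⟨T, hT, fun f f1 y y1 hf0 H h0 => ?_⟩
  -- the coordinates
  set eta : ℝ → Fin 4 → ℂ := fun t j => ∑ l, (Q * Y (f t)) j l * y t l with heta
  set deta : ℝ → Fin 4 → ℂ := fun t j =>
    ∑ l, (Q * Y (f t)) j l * (y1 t l - f1 t * (B (f t) *ᵥ y t) l) with hdeta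
  set g : Fin 4 → ℝ → ℝ := fun j t => wt a j (f t) ^ 2 * ‖eta t j‖ ^ 2 with hg
  set dg : Fin 4 → ℝ → ℝ := fun j t =>
    f1 t * (2 * (Real.log ‖a j‖ / (2 * π))) * (wt a j (f t) ^ 2 * ‖eta t j‖ ^ 2) +
        wt a j (f t) ^ 2 * (2 * inner ℝ (eta t j) (deta t j)) with hdg
  have hg0 : ∀ j t, 0 ≤ g j t := fun j t => by rw [hg]; positivity
  have hss : ∀ t, ∑ j ∈ s, g j t + ∑ j ∈ s', g j t = ∑ j, g j t := fun t =>
    Finset.sum_filter_add_sum_filter_not _ _ _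
  -- initial values
  have heta0 : ∀ j, eta 0 j = c * (Q *ᵥ fun i => (y0 i : ℂ)) j := by
    intro j
    have e1 : ∑ l, (Q * Y f0) j l * (X f0 *ᵥ fun i => (y0 i : ℂ)) l =
        (Q *ᵥ fun i => (y0 i : ℂ)) j := by
      have e2 := congrFun (Matrix.mulVec_mulVec (fun i => (y0 i : ℂ)) (Q * Y f0) (X f0)) j
      rw [Matrix.mul_assoc, mul_eq_one_comm.mp (fund_mul_cofund hX hY f0), Matrix.mul_one] at e2
      simpa only [Matrix.mulVec, dotProduct] using e2
    rw [heta]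
    simp only [hf0, h0]
    rw [← e1, Finset.mul_sum]
    exact Finset.sum_congr rfl fun l _ => by ring
  -- the norm
  set N : ℝ → ℝ := fun t => Real.sqrt (∑ j ∈ s, g j t + ∑ j ∈ s', g j t) with hN
  have hN2 : ∀ t, N t ^ 2 = ∑ j ∈ s, g j t + ∑ j ∈ s', g j t := fun t =>
    Real.sq_sqrt (add_nonneg (Finset.sum_nonneg fun j _ => hg0 j t)
      (Finset.sum_nonneg fun j _ => hg0 j t))
  have hN0 : ∀ t, 0 ≤ N t := fun t => Real.sqrt_nonneg _
  have hxi : ∀ t j, wt a j (f t) * ‖eta t j‖ ≤ N t := by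
    intro t j
    refine Real.le_sqrt_of_sq_le ?_
    rw [hss, mul_pow]
    exact Finset.single_le_sum (f := fun j => g j t) (fun i _ => hg0 i t) (Finset.mem_univ j)
  -- estimates along the trajectory
  have hest : ∀ t ∈ Icc 0 T, N t ≤ ρ1 ∧ ∀ j,
      |wt a j (f t) ^ 2 * (2 * inner ℝ (eta t j) (deta t j))| ≤ f1 t * (D * N t ^ 3) := by
    intro t ht
    obtain ⟨hf1, -, -, -, hρ, herr⟩ := H t ht
    have hf1p : 0 < f1 t := hκ0.trans_le hf1
    obtain ⟨e1, e2⟩ := estimates hX hY hD hK1 hKr hKc (f t) (y t)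
    have hyN : ‖y t‖ ≤ 4 * K * N t := e2 (N t) (hxi t)
    have hy1' : ‖y t‖ ≤ 1 := hρ.trans (min_le_left _ _)
    have hy2 : ‖y t‖ ≤ ρ1 / (8 * K) := hρ.trans (min_le_right _ _)
    have hrl : ∀ l, ‖y1 t l - f1 t * (B (f t) *ᵥ y t) l‖ ≤ f1 t * C2 * ‖y t‖ ^ 2 := by
      intro l
      have e3 : ‖∑ i, ∑ k, n l i k (f t) * (y t i * y t k)‖ ≤ 16 * Kn * ‖y t‖ ^ 2 := by
        calc ‖∑ i, ∑ k, n l i k (f t) * (y t i * y t k)‖
            ≤ ∑ i, ∑ k, ‖n l i k (f t) * (y t i * y t k)‖ :=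
              (norm_sum_le _ _).trans (Finset.sum_le_sum fun i _ => norm_sum_le _ _)
          _ ≤ ∑ _i : Fin 4, ∑ _k : Fin 4, Kn * (‖y t‖ * ‖y t‖) := by
              refine Finset.sum_le_sum fun i _ => Finset.sum_le_sum fun k _ => ?_
              rw [norm_mul, norm_mul]
              exact mul_le_mul (hKn (l, i, k) (f t)) (mul_le_mul (norm_le_pi_norm (y t) i)
                (norm_le_pi_norm (y t) k) (norm_nonneg _) (norm_nonneg _)) (by positivity)
                (by linarith)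
          _ = 16 * Kn * ‖y t‖ ^ 2 := by
              simp
              ring
      have e4 := herr l
      have e5 : ‖y t‖ ^ 3 ≤ ‖y t‖ ^ 2 :=
        pow_le_pow_of_le_one (norm_nonneg _) hy1' (by norm_num)
      have e6 : y1 t l - f1 t * (B (f t) *ᵥ y t) l =
          (y1 t l - f1 t * ((B (f t) *ᵥ y t) l +
            ∑ i, ∑ k, n l i k (f t) * (y t i * y t k))) +
          f1 t * ∑ i, ∑ k, n l i k (f t) * (y t i * y t k) := by ring
      rw [e6]
      refine (norm_add_le _ _).trans ?_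
      have e7 : ‖(f1 t : ℂ) * ∑ i, ∑ k, n l i k (f t) * (y t i * y t k)‖ ≤
          f1 t * (16 * Kn * ‖y t‖ ^ 2) := by
        rw [norm_mul, Complex.norm_real, Real.norm_of_nonneg hf1p.le]
        exact mul_le_mul_of_nonneg_left e3 hf1p.le
      have e8 : C * f1 t * ‖y t‖ ^ 3 ≤ C * f1 t * ‖y t‖ ^ 2 :=
        mul_le_mul_of_nonneg_left e5 (by positivity)
      calc _ ≤ C * f1 t * ‖y t‖ ^ 2 + f1 t * (16 * Kn * ‖y t‖ ^ 2) :=
            add_le_add (e4.trans e8) e7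
        _ = _ := by rw [hC2]; ring
    constructor
    · have e3 : N t ≤ 8 * K * ‖y t‖ := by
        refine Real.sqrt_le_iff.mpr ⟨by positivity, ?_⟩
        rw [hss]
        calc ∑ j, g j t ≤ ∑ _j : Fin 4, (4 * K * ‖y t‖) ^ 2 := by
              refine Finset.sum_le_sum fun j _ => ?_
              rw [hg]
              simp only
              rw [← mul_pow]
              exact pow_le_pow_left₀ (mul_nonneg (wt_pos _ _).le (norm_nonneg _)) (e1 j) 2
          _ = (8 * K * ‖y t‖) ^ 2 := by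
              simp
              ring
      calc N t ≤ 8 * K * ‖y t‖ := e3
        _ ≤ 8 * K * (ρ1 / (8 * K)) := by gcongr
        _ = ρ1 := by field_simp
    · intro j
      refine (cross_bound (wt_pos _ _).le hK0.le hC20.le hf1p.le (norm_nonneg (y t)) (hN0 t)
        (hxi t j) hyN ?_).trans (le_of_eq (by rw [hDdef]))
      -- the derivative of eta
      calc wt a j (f t) * ‖deta t j‖
          ≤ wt a j (f t) * ∑ l, ‖(Q * Y (f t)) j l‖ * ‖y1 t l - f1 t * (B (f t) *ᵥ y t) l‖ := by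
            refine mul_le_mul_of_nonneg_left ?_ (wt_pos _ _).le
            refine (norm_sum_le _ _).trans (Finset.sum_le_sum fun l _ => ?_)
            rw [norm_mul]
        _ = ∑ l, (wt a j (f t) * ‖(Q * Y (f t)) j l‖) *
              ‖y1 t l - f1 t * (B (f t) *ᵥ y t) l‖ := by
            rw [Finset.mul_sum]
            exact Finset.sum_congr rfl fun l _ => by ring
        _ ≤ ∑ _l : Fin 4, K * (f1 t * C2 * ‖y t‖ ^ 2) := by
            refine Finset.sum_le_sum fun l _ => ?_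
            exact mul_le_mul (hKr _ j l) (hrl l) (norm_nonneg _) (by linarith)
        _ = 4 * K * (f1 t * C2 * ‖y t‖ ^ 2) := by
            simp
            ring
  have hcard : ∀ u : Finset (Fin 4), (u.card : ℝ) ≤ 4 := fun u => by
    exact_mod_cast (Finset.card_le_univ u).trans (by simp)
  have hgd : ∀ t ∈ Icc 0 T, ∀ j, HasDerivWithinAt (g j) (dg j t) (Icc 0 T) t := by
    intro t ht j
    obtain ⟨-, hf, hy, -, -, -⟩ := H t ht
    exact wsq_deriv a j hf (eta_deriv hY hf hy j)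
  refine hmain N (fun t => ∑ j ∈ s, g j t) (fun t => ∑ j ∈ s', g j t)
    (fun t => ∑ j ∈ s, dg j t) (fun t => ∑ j ∈ s', dg j t) f1 ?_ ?_ ?_
  · simp only [hg, heta0, hf0]
  · refine Finset.sum_eq_zero fun j hj => ?_
    have h3 := hy0 j (not_lt.mp (Finset.mem_filter.mp hj).2)
    simp only [hg, heta0, h3]
    simp
  · intro t ht
    obtain ⟨hNρ, hcr⟩ := hest t ht
    have hf1 : κ0 ≤ f1 t := (H t ht).1
    have hf1p : 0 < f1 t := hκ0.trans_le hf1
    have hP : 0 ≤ f1 t * (D * N t ^ 3) := by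
      have := hN0 t
      positivity
    refine ⟨Finset.sum_nonneg fun j _ => hg0 j t, Finset.sum_nonneg fun j _ => hg0 j t, hN0 t,
      hN2 t, hNρ, hf1, ?_, ?_, ?_, ?_⟩
    · exact HasDerivWithinAt.fun_sum fun j _ => hgd t ht j
    · have e1 : ∀ j ∈ s, f1 t * χ * g j t - f1 t * (D * N t ^ 3) ≤ dg j t := by
        intro j hj
        have e2 := (abs_le.mp (hcr j)).1
        have e3 : f1 t * χ * g j t ≤
            f1 t * (2 * (Real.log ‖a j‖ / (2 * π))) * g j t :=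
          mul_le_mul_of_nonneg_right (mul_le_mul_of_nonneg_left (hχs j hj) hf1p.le) (hg0 j t)
        have e4 : dg j t = f1 t * (2 * (Real.log ‖a j‖ / (2 * π))) * g j t +
          wt a j (f t) ^ 2 * (2 * inner ℝ (eta t j) (deta t j)) := rfl
        linarith
      have e5 := Finset.sum_le_sum e1
      rw [Finset.sum_sub_distrib, ← Finset.mul_sum, Finset.sum_const, nsmul_eq_mul] at e5
      have e6 := mul_le_mul_of_nonneg_right (hcard s) hP
      refine le_trans ?_ e5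
      nlinarith [e6]
    · exact HasDerivWithinAt.fun_sum fun j _ => hgd t ht j
    · have e1 : ∀ j ∈ s', dg j t ≤ f1 t * (D * N t ^ 3) := by
        intro j hj
        have e2 := (abs_le.mp (hcr j)).2
        have hlog : Real.log ‖a j‖ ≤ 0 :=
          Real.log_nonpos (norm_nonneg _) (not_lt.mp (Finset.mem_filter.mp hj).2)
        have e3 : f1 t * (2 * (Real.log ‖a j‖ / (2 * π))) * g j t ≤ 0 := by
          refine mul_nonpos_of_nonpos_of_nonneg ?_ (hg0 j t)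
          refine mul_nonpos_of_nonneg_of_nonpos hf1p.le ?_
          have : Real.log ‖a j‖ / (2 * π) ≤ 0 := div_nonpos_of_nonpos_of_nonneg hlog (by positivity)
          linarith
        have e4 : dg j t = f1 t * (2 * (Real.log ‖a j‖ / (2 * π))) * g j t +
          wt a j (f t) ^ 2 * (2 * inner ℝ (eta t j) (deta t j)) := rfl
        linarith
      have e5 := Finset.sum_le_sum e1
      rw [Finset.sum_const, nsmul_eq_mul] at e5
      have e6 := mul_le_mul_of_nonneg_right (hcard s') hP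
      calc _ ≤ _ := e5
        _ ≤ _ := e6
        _ = _ := by ring

end Pool.Agent.MP_5027f4_ell
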