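import Pool.Agent.Lib_MP_5027f4_ell.OdeB
import Pool.Agent.Lib_MP_5027f4_ell.OdeE
import Pool.Agent.Lib_MP_5027f4_ell.AlgD
import Pool.Agent.Lib_MP_5027f4_ell.NfE
import Pool.Agent.Lib_MP_5027f4_ell.ExpC
import Pool.Agent.Lib_MP_5027f4_ell.RedD

/-!
# Instability of elliptic Lagrange orbits in the reduced system: hyperbolic case
-/

open Complex Set Filter Topology MeasureTheory Polynomial
open scoped Real Matrix ComplexConjugate

namespace Pool.Agent.MP_5027f4_ell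

namespace RedF

theorem norm_vec_le {u v : ℂ} {ρ : ℝ} (hu : ‖u‖ ≤ ρ) (hv : ‖v‖ ≤ ρ) : ‖vec u v‖ ≤ ρ := by
  have hρ : 0 ≤ ρ := (norm_nonneg u).trans hu
  rw [pi_norm_le_iff_of_nonneg hρ]
  intro i
  fin_cases i
  · simpa [vec] using (abs_re_le_norm u).trans hu
  · simpa [vec] using (abs_im_le_norm u).trans hu
  · simpa [vec] using (abs_re_le_norm v).trans hv
  · simpa [vec] using (abs_im_le_norm v).trans hv

theorem conj_vec (u v : ℂ) (i : Fin 4) : conj (vec u v i) = vec u v i := by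
  fin_cases i <;> simp [vec]

theorem deriv_vec {u v : ℝ → ℂ} {u1 v1 : ℂ} {s : Set ℝ} {t : ℝ}
    (hu : HasDerivWithinAt u u1 s t) (hv : HasDerivWithinAt v v1 s t) (i : Fin 4) :
    HasDerivWithinAt (fun t => vec (u t) (v t) i) (vec u1 v1 i) s t := by
  have hre : ∀ {w : ℝ → ℂ} {w1 : ℂ}, HasDerivWithinAt w w1 s t →
      HasDerivWithinAt (fun t => ((w t).re : ℂ)) (w1.re : ℂ) s t := by
    intro w w1 hw
    exact (reCLM.hasFDerivAt.comp_hasDerivWithinAt t hw).ofReal_comp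
  have him : ∀ {w : ℝ → ℂ} {w1 : ℂ}, HasDerivWithinAt w w1 s t →
      HasDerivWithinAt (fun t => ((w t).im : ℂ)) (w1.im : ℂ) s t := by
    intro w w1 hw
    exact (imCLM.hasFDerivAt.comp_hasDerivWithinAt t hw).ofReal_comp
  fin_cases i
  · simpa [vec] using hre hu
  · simpa [vec] using him hu
  · simpa [vec] using hre hv
  · simpa [vec] using him hv

theorem vec_real_mul (k : ℝ) (u v : ℂ) (i : Fin 4) :
    vec ((k : ℂ) * u) ((k : ℂ) * v) i = k * vec u v i := by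
  fin_cases i <;> simp [vec]

/-- A real four vector as a pair of complex numbers. -/
noncomputable def pair (w : Fin 4 → ℂ) : ℂ × ℂ :=
  (((w 0).re : ℂ) + ((w 1).re : ℂ) * I, ((w 2).re : ℂ) + ((w 3).re : ℂ) * I)

theorem vec_pair {w : Fin 4 → ℂ} (hw : ∀ i, conj (w i) = w i) (i : Fin 4) :
    vec (pair w).1 (pair w).2 i = w i := by
  have h : ∀ i, ((w i).re : ℂ) = w i := fun i => conj_eq_iff_re.mp (hw i)
  have h' : ∀ i, (w i).im = 0 := fun i => conj_eq_iff_im.mp (hw i)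
  fin_cases i <;> simp [vec, pair, h, h']

end RedF

open RedF in
theorem unst_hyperbolic (S : Shape) (hS : S.Good) (e0 C1 : ℝ) (he0 : 0 < e0) (he1 : e0 < 1)
    (hC1 : 0 < C1) (X Y : ℝ → Mat) (hX : IsFund (Bs S.s e0) X) (hY : IsCofund (Bs S.s e0) Y)
    (a : Fin 4 → ℂ) (P Q : Mat) (hD : IsDiag (X (2 * π)) a P Q) (hh : ∃ i, 1 < ‖a i‖) :
    Unst S e0 C1 := by
  have hOm : (e0 : ℂ) ∈ Om := ofReal_mem_Om (by linarith) he1
  have hXr : ∀ θ, IsRealMat (X θ) := fun θ => (fund_real hX hY (Bs_real S.s e0) θ).1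
  obtain ⟨y0, hy0, hy1⟩ := exists_real_unstable _ (hXr _) a P Q hD hh
  obtain ⟨n, hn, hnper, C, hC, ρf, hρf, hexp⟩ := field_expansion S hS e0 C1 he0 he1 hC1
  obtain ⟨ρh, hρh, hdyn⟩ := hyperbolic_dynamics (Bs S.s e0) X Y (continuous_Bs S.s hOm)
    (Bs_periodic S.s e0) hX hY a P Q hD y0 hy0 hy1 n hn hnper C hC
  refine ⟨fun θ => pair (X θ *ᵥ fun i => (y0 i : ℂ)), min (min ρf ρh) (1 / 2), by positivity, 1,
    one_pos, fun c κ0 ϑ0 ε0 hc _ hκ0 hε0 => ?_⟩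
  obtain ⟨T, hT, hfin⟩ := hdyn c (κ0 / 2) (ϑ0 - arg ε0) hc (by positivity)
  refine ⟨T, hT, fun τ ε ζ u v κ hτ hred hζ0 hε hu0 hv0 H => ?_⟩
  have hε00 : ε0 ≠ 0 := by
    rw [← norm_pos_iff, hε0]
    exact he0
  obtain ⟨f, g, hf0, -, hfg⟩ := red_lift S T hT ε ζ u v κ hred ε0 hε00 ϑ0 τ hτ hζ0 hε
    (fun t ht => (H t ht).2.2.2.1.trans (min_le_right _ _))
  have hreal : ∀ θ i, conj ((X θ *ᵥ fun i => (y0 i : ℂ)) i) = (X θ *ᵥ fun i => (y0 i : ℂ)) i := by
    intro θ i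
    simp only [Matrix.mulVec, dotProduct, map_sum, map_mul, conj_ofReal]
    exact Finset.sum_congr rfl fun k _ => by rw [hXr θ i k]
  refine hfin f (fun t => κ t * (1 - Gam S ‖ε t‖ (f t) (u t))) (fun t => vec (u t) (v t))
    (fun t => vec ((κ t : ℂ) * v t) ((κ t : ℂ) * Ac S ‖ε t‖ (f t) (u t) (v t))) hf0 ?_ ?_
  · intro t ht
    obtain ⟨hκ, hu, hv, hεn, hcons⟩ := H t ht
    obtain ⟨hf, -, -, hdv⟩ := hfg t ht
    have hκp : 0 < κ t := hκ0.trans_le hκ
    have hr : 0 < ‖ε t‖ := by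
      rw [norm_pos_iff]
      intro h0
      rw [h0, zero_div, zero_sub, norm_neg, norm_one] at hεn
      have := hεn.trans (min_le_right _ _)
      norm_num at this
    have hu1 : ‖u t‖ ≤ min ρf ρh := hu.trans (min_le_left _ _)
    have hv1 : ‖v t‖ ≤ min ρf ρh := hv.trans (min_le_left _ _)
    obtain ⟨hG, -, herr⟩ := hexp ‖ε t‖ (f t) (u t) (v t) hr (hu1.trans (min_le_left _ _))
      (hv1.trans (min_le_left _ _)) hcons
    have hG1 : 1 / 2 ≤ 1 - Gam S ‖ε t‖ (f t) (u t) := by linarith [(abs_le.mp hG).2]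
    have hGp : 0 < 1 - Gam S ‖ε t‖ (f t) (u t) := by linarith
    refine ⟨?_, hf, fun i => deriv_vec (hred.du t ht) hdv i, conj_vec _ _,
      norm_vec_le (hu1.trans (min_le_right _ _)) (hv1.trans (min_le_right _ _)), fun l => ?_⟩
    · nlinarith
    · have h1 := herr l
      have h2 : vec ((κ t : ℂ) * v t) ((κ t : ℂ) * Ac S ‖ε t‖ (f t) (u t) (v t)) l -
          ((κ t * (1 - Gam S ‖ε t‖ (f t) (u t)) : ℝ) : ℂ) *
            ((Bs S.s e0 (f t) *ᵥ vec (u t) (v t)) l +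
              ∑ i, ∑ k, n l i k (f t) * (vec (u t) (v t) i * vec (u t) (v t) k)) =
          ((κ t * (1 - Gam S ‖ε t‖ (f t) (u t)) : ℝ) : ℂ) *
            (vec (v t) (Ac S ‖ε t‖ (f t) (u t) (v t)) l /
              ((1 - Gam S ‖ε t‖ (f t) (u t) : ℝ) : ℂ) -
            ((Bs S.s e0 (f t) *ᵥ vec (u t) (v t)) l +
              ∑ i, ∑ k, n l i k (f t) * (vec (u t) (v t) i * vec (u t) (v t) k))) := by
        have h3 : ((1 - Gam S ‖ε t‖ (f t) (u t) : ℝ) : ℂ) ≠ 0 := by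
          exact_mod_cast hGp.ne'
        rw [vec_real_mul, Complex.ofReal_mul, mul_sub ((κ t : ℂ) * _)]
        congr 1
        field_simp
      rw [h2, norm_mul, Complex.norm_real, Real.norm_of_nonneg (by positivity)]
      calc _ ≤ κ t * (1 - Gam S ‖ε t‖ (f t) (u t)) * (C * ‖vec (u t) (v t)‖ ^ 3) :=
            mul_le_mul_of_nonneg_left h1 (by positivity)
        _ = _ := by ring
  · intro i
    rw [hu0, hv0, vec_real_mul, vec_pair (hreal _)]

end Pool.Agent.MP_5027f4_ell
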