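import Pool.Agent.Lib_MP_5027f4_ell.OdeA
import Pool.Agent.Lib_MP_5027f4_ell.GenA
import Pool.Agent.Lib_MP_5027f4_ell.GenC
import Pool.Agent.Lib_MP_5027f4_ell.LinkB
import Pool.Agent.Lib_MP_5027f4_ell.RedE
import Pool.Agent.Lib_MP_5027f4_ell.RedF

open Complex Set Filter Topology MeasureTheory Polynomial
open scoped Real Matrix ComplexConjugate

namespace Pool.Agent.MP_5027f4_ell

/-- The exchange of the two pairs of indices. -/
def swq : Fin 4 ≃ Fin 4 where
  toFun := ![2, 3, 0, 1]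
  invFun := ![2, 3, 0, 1]
  left_inv := by decide
  right_inv := by decide

theorem swq_diag {M : Mat} {a : Fin 4 → ℂ} {P Q : Mat} (h : IsDiag M a P Q) :
    IsDiag M (a ∘ swq) (P.submatrix id swq) (Q.submatrix swq id) := by
  refine ⟨?_, ?_, ?_⟩
  · rw [Matrix.submatrix_mul_equiv, h.PQ]
    simp
  · have h1 : Q.submatrix swq id * P.submatrix id swq = (Q * P).submatrix swq swq :=
      (Matrix.submatrix_mul Q P swq id swq Function.bijective_id).symm
    rw [h1, h.QP, Matrix.submatrix_one_equiv]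
  · have h1 : M * P.submatrix id swq = (M * P).submatrix id swq :=
      (Matrix.submatrix_mul M P id id swq Function.bijective_id).symm
    rw [h1, h.MP]
    ext i j
    simp [Matrix.mul_diagonal]

theorem swq_real {a : Fin 4 → ℂ} {P Q : Mat} (h : RealStr a P Q) :
    RealStr (a ∘ swq) (P.submatrix id swq) (Q.submatrix swq id) := by
  refine ⟨?_, ?_, ?_, ?_, ?_, ?_⟩
  · exact h.a3
  · exact h.a1
  · exact h.P3
  · exact h.P1
  · exact h.Q3
  · exact h.Q1

theorem swq_rr (q X : ℝ → Mat) (P : Mat) : rr q X (P.submatrix id swq) 0 1 = rr q X P 2 3 := rfl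

theorem unst_main (s : ℝ) (hs0 : 0 ≤ s) (hs1 : s < 1) :
    ∃ D : Set ℝ, (∀ δ > 0, (D ∩ Icc 0 (1 - δ)).Finite) ∧ ∀ e : ℝ, 0 < e → e < 1 → e ∉ D →
      ∀ S : Shape, S.Good → S.s = s → ∀ C1 > 0, Unst S e C1 := by
  classical
  have hXY : ∀ e : ℂ, ∃ X Y : ℝ → Mat, e ∈ Om → IsFund (Bs s e) X ∧ IsCofund (Bs s e) Y := by
    intro e
    by_cases he : e ∈ Om
    · obtain ⟨X, hX⟩ := exists_fund (Bs s e) (continuous_Bs s he)
      obtain ⟨Y, hY⟩ := exists_cofund (Bs s e) (continuous_Bs s he)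
      exact ⟨X, Y, fun _ => ⟨hX, hY⟩⟩
    · exact ⟨fun _ => 1, fun _ => 1, fun h => absurd h he⟩
  choose X Y hXY using hXY
  have hX : ∀ e ∈ Om, IsFund (Bs s e) (X e) := fun e he => (hXY e he).1
  have hY : ∀ e ∈ Om, IsCofund (Bs s e) (Y e) := fun e he => (hXY e he).2
  rcases hs0.eq_or_lt with h0 | h0
  · refine ⟨∅, fun δ _ => by simp, ?_⟩
    intro e he0 he1 _ S hS hSs C1 hC1
    have heOm : (e : ℂ) ∈ Om := ofReal_mem_Om (by linarith) he1
    subst h0
    obtain ⟨a, P, Q, hd, hh⟩ := hill e he0.le he1 (X e) (hX e heOm)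
    rw [← hSs] at hX hY
    exact unst_hyperbolic S hS e C1 he0 he1 hC1 (X e) (Y e) (hX e heOm) (hY e heOm) a P Q hd hh
  · obtain ⟨D, hD1, hD2⟩ := generic s h0 hs1 X Y hX hY
    refine ⟨D, hD1, ?_⟩
    intro e he0 he1 heD S hS hSs C1 hC1
    have heOm : (e : ℂ) ∈ Om := ofReal_mem_Om (by linarith) he1
    subst hSs
    rcases hD2 e he0 he1 heD with ⟨a, P, Q, hd, hh⟩ | ⟨a, P, Q, hd, hr, hinj, hone, htrip, htr⟩
    · exact unst_hyperbolic S hS e C1 he0 he1 hC1 (X e) (Y e) (hX e heOm) (hY e heOm) a P Q hd hh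
    · by_cases h01 : rr (qs S.s e) (X e) P 0 1 = 0
      · have h23 : rr (qs S.s e) (X e) P 2 3 ≠ 0 := fun h23 =>
          htr (link_trace S.s e he0 he1 (X e) (Y e) (hX e heOm) (hY e heOm) a P Q hd hr hinj hone
            h01 h23)
        exact unst_elliptic S hS e C1 he0 he1 hC1 (X e) (Y e) (hX e heOm) (hY e heOm) (a ∘ swq)
          (P.submatrix id swq) (Q.submatrix swq id) (swq_diag hd) (swq_real hr)
          (hinj.comp swq.injective) (fun i => hone _) (fun i j k => htrip _ _ _)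
          (by rw [swq_rr]; exact h23)
      · exact unst_elliptic S hS e C1 he0 he1 hC1 (X e) (Y e) (hX e heOm) (hY e heOm) a P Q hd hr
          hinj hone htrip h01

end Pool.Agent.MP_5027f4_ell
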