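import Pool.Agent.Lib_MP_5027f4_ell.Defs

/-!
# Conservation of energy and angular momentum in the reduced coordinates
-/

open Complex Set Filter Topology MeasureTheory
open scoped Real Matrix ComplexConjugate

namespace Pool.Agent.MP_5027f4_ell

theorem rb_norm {q : ℝ → ℂ} {q' : ℂ} {D : Set ℝ} {t : ℝ} (h : HasDerivWithinAt q q' D t)
    (h0 : q t ≠ 0) :
    HasDerivWithinAt (fun s => ‖q s‖) ((conj (q t) * q').re / ‖q t‖) D t := by
  have h1 := h.norm_sq
  have h2 : ‖q t‖ ^ 2 ≠ 0 := by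
    have := norm_ne_zero_iff.2 h0
    positivity
  have h3 := h1.sqrt h2
  have e1 : (fun s => √(‖q s‖ ^ 2)) = fun s => ‖q s‖ := by
    funext s
    exact Real.sqrt_sq (norm_nonneg _)
  rw [e1] at h3
  refine h3.congr_deriv ?_
  rw [Real.sqrt_sq (norm_nonneg _), Complex.inner]
  have := norm_ne_zero_iff.2 h0
  field_simp

theorem rb_inv_norm {q : ℝ → ℂ} {q' : ℂ} {D : Set ℝ} {t : ℝ} (h : HasDerivWithinAt q q' D t)
    (h0 : q t ≠ 0) (p : ℝ) :
    HasDerivWithinAt (fun s => p / ‖q s‖) (-(p * (conj (q t) * q').re / ‖q t‖ ^ 3)) D t := by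
  have hn := norm_ne_zero_iff.2 h0
  have h1 := (rb_norm h h0).fun_inv hn
  have h2 := h1.const_mul p
  refine (h2.congr_deriv ?_)
  field_simp

theorem rb_Gz {z z1 : ℝ → ℂ} {z2 : ℂ} {D : Set ℝ} {t : ℝ} (hz : HasDerivWithinAt z (z1 t) D t)
    (hz1 : HasDerivWithinAt z1 z2 D t) :
    HasDerivWithinAt (fun s => Gz (z s) (z1 s)) ((conj (z t) * z2).im) D t := by
  have h1 : HasDerivWithinAt (fun s => conj (z s)) (conj (z1 t)) D t := hz.star
  have h2 := h1.mul hz1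
  have h3 := Complex.imCLM.hasFDerivAt.comp_hasDerivWithinAt t h2
  refine h3.congr_deriv ?_
  simp only [Complex.imCLM_apply, Complex.add_im]
  have : (conj (z1 t) * z1 t).im = 0 := by
    rw [mul_comm, Complex.mul_conj]
    exact Complex.ofReal_im _
  rw [this, zero_add]

/-- The force in terms of the side vectors. -/
theorem rb_force (S : Shape) (z w : ℂ) (h0 : z ≠ 0) (c : Fin 3 → ℂ) :
    z / ((‖z‖ ^ 3 : ℝ) : ℂ) * -∑ k, (S.p k : ℂ) * c k * hf (S.δ k * (w / z)) =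
      -∑ k, ((S.p k / ‖z + S.δ k * w‖ ^ 3 : ℝ) : ℂ) * (c k * (z + S.δ k * w)) := by
  rw [mul_neg, Finset.mul_sum]
  congr 1
  refine Finset.sum_congr rfl fun k _ => ?_
  have hq : z + S.δ k * w = z * (1 + S.δ k * (w / z)) := by
    field_simp
  rw [hq, norm_mul, hf]
  have hr : ((‖z‖ : ℝ) : ℂ) ≠ 0 := by
    exact_mod_cast norm_ne_zero_iff.2 h0
  push_cast
  by_cases hn : ‖1 + S.δ k * (w / z)‖ = 0
  · rw [hn]
    simp
  · have hn' : ((‖1 + S.δ k * (w / z)‖ : ℝ) : ℂ) ≠ 0 := by exact_mod_cast hn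
    field_simp

theorem Einv_deriv (S : Shape) (hM : 0 < S.M) (z z1 w w1 : ℝ → ℂ) (D : Set ℝ) (t : ℝ)
    (hz : HasDerivWithinAt z (z1 t) D t)
    (hz1 : HasDerivWithinAt z1 (z t / ((‖z t‖ ^ 3 : ℝ) : ℂ) * F1 S (w t / z t)) D t)
    (hw : HasDerivWithinAt w (w1 t) D t)
    (hw1 : HasDerivWithinAt w1 (z t / ((‖z t‖ ^ 3 : ℝ) : ℂ) * F2 S (w t / z t)) D t)
    (h0 : z t ≠ 0) (hcol : ∀ k, 1 + S.δ k * (w t / z t) ≠ 0) :
    HasDerivWithinAt (fun t => Einv S (z t) (z1 t) (w t) (w1 t)) 0 D t := by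
  have hq0 : ∀ k, z t + S.δ k * w t ≠ 0 := by
    intro k
    have hq : z t + S.δ k * w t = z t * (1 + S.δ k * (w t / z t)) := by
      field_simp
    rw [hq]
    exact mul_ne_zero h0 (hcol k)
  -- the accelerations
  have e1 : z t / ((‖z t‖ ^ 3 : ℝ) : ℂ) * F1 S (w t / z t) =
      -∑ k, ((S.p k / ‖z t + S.δ k * w t‖ ^ 3 : ℝ) : ℂ) * (z t + S.δ k * w t) := by
    have := rb_force S (z t) (w t) h0 (fun _ => 1)
    simpa only [mul_one, one_mul, F1] using this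
  have e2 : z t / ((‖z t‖ ^ 3 : ℝ) : ℂ) * F2 S (w t / z t) =
      -∑ k, ((S.p k / ‖z t + S.δ k * w t‖ ^ 3 : ℝ) : ℂ) *
        (conj (S.δ k) * (z t + S.δ k * w t)) :=
    rb_force S (z t) (w t) h0 (fun k => conj (S.δ k))
  rw [e1] at hz1
  rw [e2] at hw1
  -- angular momentum
  have hG : HasDerivWithinAt (fun s => Gz (z s) (z1 s) + Gz (w s) (w1 s)) 0 D t := by
    refine ((rb_Gz hz hz1).add (rb_Gz hw hw1)).congr_deriv ?_
    rw [← Complex.add_im]
    have : conj (z t) * -∑ k, ((S.p k / ‖z t + S.δ k * w t‖ ^ 3 : ℝ) : ℂ) *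
        (z t + S.δ k * w t) +
        conj (w t) * -∑ k, ((S.p k / ‖z t + S.δ k * w t‖ ^ 3 : ℝ) : ℂ) *
        (conj (S.δ k) * (z t + S.δ k * w t)) =
        -∑ k, ((S.p k / ‖z t + S.δ k * w t‖ ^ 3 : ℝ) : ℂ) *
          ((z t + S.δ k * w t) * conj (z t + S.δ k * w t)) := by
      rw [mul_neg, mul_neg, ← neg_add, Finset.mul_sum, Finset.mul_sum, ← Finset.sum_add_distrib]
      congr 1
      refine Finset.sum_congr rfl fun k _ => ?_
      rw [map_add, map_mul]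
      ring
    rw [this, Complex.neg_im, Complex.im_sum, neg_eq_zero]
    refine Finset.sum_eq_zero fun k _ => ?_
    rw [Complex.mul_conj, ← Complex.ofReal_mul]
    exact Complex.ofReal_im _
  -- energy
  have hU : HasDerivWithinAt (fun s => ∑ k, S.p k / ‖z s + S.δ k * w s‖)
      (∑ k, -(S.p k * (conj (z t + S.δ k * w t) * (z1 t + S.δ k * w1 t)).re /
        ‖z t + S.δ k * w t‖ ^ 3)) D t := by
    refine HasDerivWithinAt.fun_sum fun k _ => ?_
    exact rb_inv_norm (hz.add (hw.const_mul (S.δ k))) (hq0 k) (S.p k)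
  have hE : HasDerivWithinAt (fun s => (‖z1 s‖ ^ 2 + ‖w1 s‖ ^ 2) / 2 -
      ∑ k, S.p k / ‖z s + S.δ k * w s‖) 0 D t := by
    refine (((hz1.norm_sq.add hw1.norm_sq).div_const 2).sub hU).congr_deriv ?_
    rw [← mul_add, mul_div_cancel_left₀ _ (two_ne_zero), Complex.inner, Complex.inner,
      ← Complex.add_re, Finset.sum_neg_distrib, sub_neg_eq_add]
    have : conj (z1 t) * -∑ k, ((S.p k / ‖z t + S.δ k * w t‖ ^ 3 : ℝ) : ℂ) *
        (z t + S.δ k * w t) +
        conj (w1 t) * -∑ k, ((S.p k / ‖z t + S.δ k * w t‖ ^ 3 : ℝ) : ℂ) *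
        (conj (S.δ k) * (z t + S.δ k * w t)) =
        -∑ k, ((S.p k / ‖z t + S.δ k * w t‖ ^ 3 : ℝ) : ℂ) *
          (conj (z1 t + S.δ k * w1 t) * (z t + S.δ k * w t)) := by
      rw [mul_neg, mul_neg, ← neg_add, Finset.mul_sum, Finset.mul_sum, ← Finset.sum_add_distrib]
      congr 1
      refine Finset.sum_congr rfl fun k _ => ?_
      rw [map_add, map_mul]
      ring
    rw [mul_comm _ (conj (z1 t)), mul_comm _ (conj (w1 t)), this, Complex.neg_re,
      Complex.re_sum, neg_add_eq_zero]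
    refine Finset.sum_congr rfl fun k _ => ?_
    rw [Complex.re_ofReal_mul]
    have h5 : (conj (z1 t + S.δ k * w1 t) * (z t + S.δ k * w t)).re =
        (conj (z t + S.δ k * w t) * (z1 t + S.δ k * w1 t)).re := by
      rw [← Complex.conj_re, map_mul, Complex.conj_conj, mul_comm]
    rw [h5]
    ring
  -- assemble
  have hev : (fun s => Einv S (z s) (z1 s) (w s) (w1 s)) =ᶠ[𝓝[D] t] fun s =>
      1 + 2 * (Gz (z s) (z1 s) + Gz (w s) (w1 s)) ^ 2 * ((‖z1 s‖ ^ 2 + ‖w1 s‖ ^ 2) / 2 -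
      ∑ k, S.p k / ‖z s + S.δ k * w s‖) / S.M ^ 2 := by
    filter_upwards [hz.continuousWithinAt.eventually_ne h0] with s hs
    unfold Einv Vf
    rw [Finset.sum_div]
    congr 4
    refine Finset.sum_congr rfl fun k _ => ?_
    have hq : z s + S.δ k * w s = (1 + S.δ k * (w s / z s)) * z s := by
      field_simp
    rw [hq, norm_mul, div_div]
  have heq : Einv S (z t) (z1 t) (w t) (w1 t) =
      1 + 2 * (Gz (z t) (z1 t) + Gz (w t) (w1 t)) ^ 2 * ((‖z1 t‖ ^ 2 + ‖w1 t‖ ^ 2) / 2 -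
      ∑ k, S.p k / ‖z t + S.δ k * w t‖) / S.M ^ 2 := by
    unfold Einv Vf
    rw [Finset.sum_div]
    congr 4
    refine Finset.sum_congr rfl fun k _ => ?_
    have hq : z t + S.δ k * w t = (1 + S.δ k * (w t / z t)) * z t := by
      field_simp
    rw [hq, norm_mul, div_div]
  have hfin := ((((hG.pow 2).const_mul 2).mul hE).div_const (S.M ^ 2)).const_add 1
  refine (hfin.congr_of_eventuallyEq hev heq).congr_deriv ?_
  simp

end Pool.Agent.MP_5027f4_ell
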