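import Pool.Agent.Lib_MP_5027f4_ell.Defs

/-!
# The eccentricity is almost a first integral
-/

open Complex Set Filter Topology MeasureTheory
open scoped Real Matrix ComplexConjugate

namespace Pool.Agent.MP_5027f4_ell

/-- First order expansion of `1 / |1 + x|`. -/
theorem rc_inv_norm (x : ℂ) (hx : ‖x‖ ≤ 1 / 2) : |1 / ‖1 + x‖ - 1 + x.re| ≤ 6 * ‖x‖ ^ 2 := by
  set n := ‖1 + x‖ with hn
  have h1 : |n - 1| ≤ ‖x‖ := by
    have := abs_norm_sub_norm_le (1 + x) 1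
    rw [norm_one] at this
    refine this.trans (le_of_eq ?_)
    congr 1
    ring
  have h2 := abs_le.1 h1
  have hx0 := norm_nonneg x
  have hnl : 1 / 2 ≤ n := by linarith [h2.1]
  have hnu : n ≤ 3 / 2 := by linarith [h2.2]
  have hsq : n ^ 2 = 1 + 2 * x.re + ‖x‖ ^ 2 := by
    rw [hn, ← Complex.normSq_eq_norm_sq, ← Complex.normSq_eq_norm_sq, Complex.normSq_apply,
      Complex.normSq_apply]
    simp
    ring
  have ha : |x.re| ≤ ‖x‖ := Complex.abs_re_le_norm x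
  have hn0 : 0 < n := by linarith
  have hid : 1 / n - 1 + x.re = (x.re * (n - 1) * (n + 2) - ‖x‖ ^ 2) / (n * (n + 1)) := by
    have h3 : n + 1 ≠ 0 := by linarith
    field_simp
    linear_combination (-1 : ℝ) * hsq
  rw [hid, abs_div, abs_of_pos (by positivity : 0 < n * (n + 1)), div_le_iff₀ (by positivity)]
  have h4 : |x.re * (n - 1) * (n + 2) - ‖x‖ ^ 2| ≤ |x.re * (n - 1) * (n + 2)| + ‖x‖ ^ 2 := by
    refine (abs_sub _ _).trans ?_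
    rw [abs_of_nonneg (sq_nonneg ‖x‖)]
  have h5 : |x.re * (n - 1) * (n + 2)| ≤ ‖x‖ ^ 2 * (7 / 2) := by
    rw [abs_mul, abs_mul, abs_of_pos (by linarith : 0 < n + 2), sq]
    have h6 : |x.re| * |n - 1| ≤ ‖x‖ * ‖x‖ := mul_le_mul ha h1 (abs_nonneg _) hx0
    exact mul_le_mul h6 (by linarith) (by linarith) (by positivity)
  have h7 : 3 / 4 ≤ n * (n + 1) := by nlinarith
  nlinarith [sq_nonneg ‖x‖]

/-- The potential is critical at the equilateral triangle. -/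
theorem rc_Vf (S : Shape) (hS : S.Good) (u : ℂ) (hu : ∀ k, ‖S.δ k * u‖ ≤ 1 / 2) :
    |Vf S u - S.M| ≤ 6 * S.M * ‖u‖ ^ 2 := by
  have h1 : Vf S u - S.M = ∑ k, S.p k * (1 / ‖1 + S.δ k * u‖ - 1 + (S.δ k * u).re) := by
    have h2 : ∑ k, S.p k * (S.δ k * u).re = 0 := by
      have h3 : ((∑ k, (S.p k : ℂ) * S.δ k) * u).re = 0 := by
        rw [hS.sum_pδ, zero_mul, Complex.zero_re]
      rw [Finset.sum_mul, Complex.re_sum] at h3
      rw [← h3]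
      refine Finset.sum_congr rfl fun k _ => ?_
      rw [mul_assoc, Complex.re_ofReal_mul]
    have h4 : ∑ k, S.p k * (1 / ‖1 + S.δ k * u‖ - 1 + (S.δ k * u).re) =
        Vf S u - ∑ k, S.p k + ∑ k, S.p k * (S.δ k * u).re := by
      unfold Vf
      rw [← Finset.sum_sub_distrib, ← Finset.sum_add_distrib]
      refine Finset.sum_congr rfl fun k _ => ?_
      ring
    rw [h4, h2, hS.sum_p]
    ring
  rw [h1]
  refine (Finset.abs_sum_le_sum_abs _ _).trans ?_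
  calc ∑ k, |S.p k * (1 / ‖1 + S.δ k * u‖ - 1 + (S.δ k * u).re)| ≤
        ∑ k, 6 * ‖u‖ ^ 2 * (S.p k * ‖S.δ k‖ ^ 2) := by
        refine Finset.sum_le_sum fun k _ => ?_
        rw [abs_mul, abs_of_pos (hS.ppos k)]
        have h5 := rc_inv_norm _ (hu k)
        calc S.p k * |1 / ‖1 + S.δ k * u‖ - 1 + (S.δ k * u).re| ≤
              S.p k * (6 * ‖S.δ k * u‖ ^ 2) := by
              exact mul_le_mul_of_nonneg_left h5 (hS.ppos k).le
          _ = _ := by rw [norm_mul]; ring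
    _ = 6 * S.M * ‖u‖ ^ 2 := by
        rw [← Finset.mul_sum, hS.sum_pn]
        ring

theorem rc_eps_add (M : ℝ) (hM : 0 < M) (z z1 : ℂ) :
    (M : ℂ) * (epsf M z z1 + z / (‖z‖ : ℂ)) = -I * (Gz z z1 : ℂ) * z1 := by
  unfold epsf
  have : (M : ℂ) ≠ 0 := by exact_mod_cast hM.ne'
  field_simp
  ring

theorem rc_re (M : ℝ) (hM : 0 < M) (z z1 : ℂ) (hz : z ≠ 0) :
    M * (1 + (conj (epsf M z z1) * (z / (‖z‖ : ℂ))).re) = Gz z z1 ^ 2 / ‖z‖ := by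
  have hr : ‖z‖ ≠ 0 := norm_ne_zero_iff.2 hz
  have h1 := rc_eps_add M hM z z1
  have h2 : (M : ℂ) * (conj (epsf M z z1) * (z / (‖z‖ : ℂ))) + M =
      I * (Gz z z1 : ℂ) * conj z1 * (z / (‖z‖ : ℂ)) := by
    have h3 := congrArg conj h1
    simp only [map_mul, map_add, map_neg, Complex.conj_I, Complex.conj_ofReal, neg_neg,
      map_div₀] at h3
    have h4 : conj z * z = (‖z‖ : ℂ) ^ 2 := by
      rw [mul_comm, Complex.mul_conj, Complex.normSq_eq_norm_sq]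
      push_cast
      rfl
    have hr' : ((‖z‖ : ℝ) : ℂ) ≠ 0 := by exact_mod_cast hr
    have h5 : conj z / (‖z‖ : ℂ) * (z / (‖z‖ : ℂ)) = 1 := by
      rw [div_mul_div_comm, h4]
      field_simp
    calc (M : ℂ) * (conj (epsf M z z1) * (z / (‖z‖ : ℂ))) + M =
          (M : ℂ) * (conj (epsf M z z1) * (z / (‖z‖ : ℂ))) +
            M * (conj z / (‖z‖ : ℂ) * (z / (‖z‖ : ℂ))) := by rw [h5, mul_one]
      _ = ((M : ℂ) * (conj (epsf M z z1) + conj z / (‖z‖ : ℂ))) * (z / (‖z‖ : ℂ)) := by ring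
      _ = _ := by rw [h3]
  have h6 := congrArg Complex.re h2
  rw [Complex.add_re, Complex.re_ofReal_mul, Complex.ofReal_re] at h6
  have h7 : (I * (Gz z z1 : ℂ) * conj z1 * (z / (‖z‖ : ℂ))).re = Gz z z1 ^ 2 / ‖z‖ := by
    have h8 : I * (Gz z z1 : ℂ) * conj z1 * (z / (‖z‖ : ℂ)) =
        ((Gz z z1 / ‖z‖ : ℝ) : ℂ) * (I * (conj z1 * z)) := by
      push_cast
      ring
    rw [h8, Complex.re_ofReal_mul, Complex.I_mul_re]
    have h9 : (conj z1 * z).im = -Gz z z1 := by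
      unfold Gz
      simp
      ring
    rw [h9]
    ring
  rw [h7] at h6
  linarith

theorem rc_normsq (M : ℝ) (hM : 0 < M) (z z1 : ℂ) (hz : z ≠ 0) :
    ‖epsf M z z1‖ ^ 2 = 1 + 2 * (Gz z z1 ^ 2 * ‖z1‖ ^ 2 / 2 - Gz z z1 ^ 2 / ‖z‖ * M) / M ^ 2 := by
  have hr : ‖z‖ ≠ 0 := norm_ne_zero_iff.2 hz
  have h1 := rc_eps_add M hM z z1
  have h2 := rc_re M hM z z1 hz
  set ε := epsf M z z1
  set ζ : ℂ := z / (‖z‖ : ℂ) with hζ
  have hζ1 : ‖ζ‖ = 1 := by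
    rw [hζ, norm_div, Complex.norm_real, norm_norm, div_self hr]
  have h3 : M ^ 2 * ‖ε + ζ‖ ^ 2 = Gz z z1 ^ 2 * ‖z1‖ ^ 2 := by
    have h4 := congrArg (fun x => ‖x‖ ^ 2) h1
    simp only [norm_mul, norm_neg, Complex.norm_I, one_mul, Complex.norm_real, mul_pow,
      Real.norm_eq_abs, sq_abs] at h4
    exact h4
  have h5 : ‖ε + ζ‖ ^ 2 = ‖ε‖ ^ 2 + 2 * (conj ε * ζ).re + 1 := by
    have h6 := norm_add_sq_real ε ζ
    rw [h6, hζ1, Complex.inner, mul_comm ζ]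
    ring
  have hM2 : M ^ 2 ≠ 0 := by positivity
  rw [h5] at h3
  rw [← h2]
  field_simp
  linear_combination h3

theorem rc_final (A B c M N σ ν : ℝ) (hM : 0 < M) (hA0 : 0 ≤ A) (hA : A ≤ 4 * M ^ 2)
    (hB0 : 0 ≤ B) (hB : B ≤ 8 * M ^ 2 * N) (hc0 : 0 ≤ c) (hc : c ≤ 2 * M) (hN : 0 ≤ N)
    (hσ : |σ| ≤ 2 * N) (hσ1 : |σ| ≤ 1) (hν : |ν| ≤ 6 * M * N) :
    |(1 + 2 * (A / 2 - c * M) / M ^ 2) -
      (1 + 2 * (1 + σ) ^ 2 * ((A + B) / 2 - c * (M + ν)) / M ^ 2)| ≤ 152 * N := by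
  have h1 : (1 + 2 * (A / 2 - c * M) / M ^ 2) -
      (1 + 2 * (1 + σ) ^ 2 * ((A + B) / 2 - c * (M + ν)) / M ^ 2) =
      (2 / M ^ 2) * (-((2 * σ + σ ^ 2) * (A / 2 - c * M)) - (1 + σ) ^ 2 * (B / 2 - c * ν)) := by
    field_simp
    ring
  have h2 : |A / 2 - c * M| ≤ 2 * M ^ 2 := by
    rw [abs_le]
    have : c * M ≤ 2 * M * M := mul_le_mul_of_nonneg_right hc hM.le
    have h3 : 0 ≤ c * M := mul_nonneg hc0 hM.le
    constructor <;> nlinarith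
  have h3 : |2 * σ + σ ^ 2| ≤ 6 * N := by
    have h4 : 2 * σ + σ ^ 2 = σ * (2 + σ) := by ring
    rw [h4, abs_mul]
    have h5 := abs_le.1 hσ1
    have h6 : |2 + σ| ≤ 3 := by
      rw [abs_le]
      constructor <;> linarith [h5.1, h5.2]
    calc |σ| * |2 + σ| ≤ (2 * N) * 3 := mul_le_mul hσ h6 (abs_nonneg _) (by linarith)
      _ = 6 * N := by ring
  have h4 : |B / 2 - c * ν| ≤ 16 * M ^ 2 * N := by
    refine (abs_sub _ _).trans ?_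
    rw [abs_of_nonneg (by linarith : 0 ≤ B / 2), abs_mul, abs_of_nonneg hc0]
    have h5 : c * |ν| ≤ 2 * M * (6 * M * N) := mul_le_mul hc hν (abs_nonneg _) (by linarith)
    nlinarith
  have h5 : (1 + σ) ^ 2 ≤ 4 := by
    have h6 := abs_le.1 hσ1
    nlinarith [h6.1, h6.2]
  have h6 : |-((2 * σ + σ ^ 2) * (A / 2 - c * M)) - (1 + σ) ^ 2 * (B / 2 - c * ν)| ≤
      76 * M ^ 2 * N := by
    refine (abs_sub _ _).trans ?_
    rw [abs_neg, abs_mul, abs_mul, abs_of_nonneg (sq_nonneg (1 + σ))]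
    have h7 : |2 * σ + σ ^ 2| * |A / 2 - c * M| ≤ (6 * N) * (2 * M ^ 2) :=
      mul_le_mul h3 h2 (abs_nonneg _) (by linarith)
    have h8 : (1 + σ) ^ 2 * |B / 2 - c * ν| ≤ 4 * (16 * M ^ 2 * N) :=
      mul_le_mul h5 h4 (abs_nonneg _) (by norm_num)
    linarith
  rw [h1, abs_mul, abs_of_pos (by positivity : 0 < 2 / M ^ 2)]
  calc 2 / M ^ 2 * |-((2 * σ + σ ^ 2) * (A / 2 - c * M)) - (1 + σ) ^ 2 * (B / 2 - c * ν)| ≤
        2 / M ^ 2 * (76 * M ^ 2 * N) := by gcongr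
    _ = 152 * N := by field_simp; ring

theorem eps_bound (S : Shape) (hS : S.Good) (e1 : ℝ) (he1 : e1 < 1) :
    ∃ C1 > 0, ∃ ρ > 0, ∀ z z1 w w1 : ℂ, z ≠ 0 → 0 < Gz z z1 → ‖w / z‖ ≤ ρ →
      ‖vf z z1 w w1‖ ≤ ρ → ‖epsf S.M z z1‖ ≤ e1 →
      |‖epsf S.M z z1‖ ^ 2 - Einv S z z1 w w1| ≤
        C1 * (‖w / z‖ ^ 2 + ‖vf z z1 w w1‖ ^ 2) := by
  have hΔ : (0 : ℝ) ≤ ∑ k, ‖S.δ k‖ := Finset.sum_nonneg fun k _ => norm_nonneg _
  refine ⟨152, by norm_num, 1 / (2 * (1 + ∑ k, ‖S.δ k‖)), by positivity, ?_⟩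
  intro z z1 w w1 hz hG hu hv hε
  have hM := hS.Mpos
  have hr : 0 < ‖z‖ := norm_pos_iff.2 hz
  have hρ : 1 / (2 * (1 + ∑ k, ‖S.δ k‖)) ≤ 1 / 2 := by
    apply one_div_le_one_div_of_le (by norm_num)
    linarith
  have hδu : ∀ k, ‖S.δ k * (w / z)‖ ≤ 1 / 2 := by
    intro k
    rw [norm_mul]
    have h1 : ‖S.δ k‖ ≤ ∑ k, ‖S.δ k‖ :=
      Finset.single_le_sum (f := fun k => ‖S.δ k‖) (fun i _ => norm_nonneg _) (Finset.mem_univ k)
    calc ‖S.δ k‖ * ‖w / z‖ ≤ (1 + ∑ k, ‖S.δ k‖) * (1 / (2 * (1 + ∑ k, ‖S.δ k‖))) :=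
          mul_le_mul (by linarith) hu (norm_nonneg _) (by linarith)
      _ = 1 / 2 := by
          have : 1 + ∑ k, ‖S.δ k‖ ≠ 0 := by linarith
          field_simp
  have hVf := rc_Vf S hS (w / z) hδu
  have hadd := rc_eps_add S.M hM z z1
  have hre := rc_re S.M hM z z1 hz
  have hns := rc_normsq S.M hM z z1 hz
  have hε1 : ‖epsf S.M z z1‖ ≤ 1 := hε.trans he1.le
  set ε := epsf S.M z z1 with hεdef
  set ζ : ℂ := z / (‖z‖ : ℂ) with hζ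
  set u := w / z with hudef
  set v := vf z z1 w w1 with hvdef
  set G := Gz z z1 with hGdef
  have hζ1 : ‖ζ‖ = 1 := by
    rw [hζ, norm_div, Complex.norm_real, norm_norm, div_self hr.ne']
  have hGz1 : G * ‖z1‖ ≤ 2 * S.M := by
    have h1 := congrArg norm hadd
    rw [norm_mul, norm_mul, norm_mul, norm_neg, Complex.norm_I, one_mul, Complex.norm_real,
      Complex.norm_real, Real.norm_eq_abs, Real.norm_eq_abs, abs_of_pos hM, abs_of_pos hG] at h1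
    rw [← h1]
    have h2 : ‖ε + ζ‖ ≤ 2 := (norm_add_le _ _).trans (by linarith)
    nlinarith
  have hc0 : 0 ≤ G ^ 2 / ‖z‖ := by positivity
  have hc : G ^ 2 / ‖z‖ ≤ 2 * S.M := by
    rw [← hre]
    have h1 : (conj ε * ζ).re ≤ 1 := by
      refine (Complex.re_le_norm _).trans ?_
      rw [norm_mul, hζ1, Complex.norm_conj]
      linarith
    nlinarith
  -- the second mode
  have hw : w = u * z := by rw [hudef]; field_simp
  have hκ : kapf z z1 = G / ‖z‖ ^ 2 := rfl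
  have hκ0 : ((kapf z z1 : ℝ) : ℂ) ≠ 0 := by
    rw [hκ]
    exact_mod_cast (div_pos hG (by positivity)).ne'
  have hw1 : w1 = ((kapf z z1 : ℝ) : ℂ) * v * z + u * z1 := by
    rw [hvdef, hudef]
    unfold vf
    field_simp
    ring
  have hzz : conj z * z = ((‖z‖ ^ 2 : ℝ) : ℂ) := by
    rw [mul_comm, Complex.mul_conj, Complex.normSq_eq_norm_sq]
  have huu : conj u * u = ((‖u‖ ^ 2 : ℝ) : ℂ) := by
    rw [mul_comm, Complex.mul_conj, Complex.normSq_eq_norm_sq]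
  have hGw : Gz w w1 = G * (‖u‖ ^ 2 + (conj u * v).im) := by
    unfold Gz
    have h1 : conj w * w1 = ((kapf z z1 * ‖z‖ ^ 2 : ℝ) : ℂ) * (conj u * v) +
        ((‖u‖ ^ 2 : ℝ) : ℂ) * (conj z * z1) := by
      rw [← huu, Complex.ofReal_mul, ← hzz, hw1]
      conv_lhs => rw [hw]
      rw [map_mul]
      ring
    rw [h1, Complex.add_im, Complex.im_ofReal_mul, Complex.im_ofReal_mul, hκ,
      div_mul_cancel₀ _ (by positivity)]
    show G * (conj u * v).im + ‖u‖ ^ 2 * G = _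
    ring
  have hGw1 : G * ‖w1‖ ≤ 2 * S.M * (‖u‖ + ‖v‖) := by
    have h1 : ‖w1‖ ≤ G / ‖z‖ ^ 2 * ‖v‖ * ‖z‖ + ‖u‖ * ‖z1‖ := by
      conv_lhs => rw [hw1]
      refine (norm_add_le _ _).trans ?_
      rw [norm_mul, norm_mul, norm_mul, Complex.norm_real, hκ, Real.norm_eq_abs,
        abs_of_pos (div_pos hG (by positivity))]
    calc G * ‖w1‖ ≤ G * (G / ‖z‖ ^ 2 * ‖v‖ * ‖z‖ + ‖u‖ * ‖z1‖) := by gcongr
      _ = G ^ 2 / ‖z‖ * ‖v‖ + ‖u‖ * (G * ‖z1‖) := by field_simp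
      _ ≤ 2 * S.M * ‖v‖ + ‖u‖ * (2 * S.M) := by gcongr
      _ = _ := by ring
  -- final computation
  set N := ‖u‖ ^ 2 + ‖v‖ ^ 2 with hN
  have hN0 : 0 ≤ N := by positivity
  have hu2 : ‖u‖ ≤ 1 / 2 := hu.trans hρ
  have hv2 : ‖v‖ ≤ 1 / 2 := hv.trans hρ
  have hu0 := norm_nonneg u
  have hv0 := norm_nonneg v
  have hσ : |‖u‖ ^ 2 + (conj u * v).im| ≤ 2 * N := by
    have h1 : |(conj u * v).im| ≤ ‖u‖ * ‖v‖ := by
      refine (Complex.abs_im_le_norm _).trans ?_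
      rw [norm_mul, Complex.norm_conj]
    have h2 := abs_le.1 h1
    rw [abs_le]
    constructor <;> nlinarith [sq_nonneg (‖u‖ - ‖v‖), h2.1, h2.2]
  have hσ1 : |‖u‖ ^ 2 + (conj u * v).im| ≤ 1 := by
    refine hσ.trans ?_
    nlinarith
  have hE : Einv S z z1 w w1 = 1 + 2 * (1 + (‖u‖ ^ 2 + (conj u * v).im)) ^ 2 *
      ((G ^ 2 * ‖z1‖ ^ 2 + G ^ 2 * ‖w1‖ ^ 2) / 2 - G ^ 2 / ‖z‖ * (S.M + (Vf S u - S.M))) /
        S.M ^ 2 := by
    unfold Einv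
    rw [hGw, ← hGdef, ← hudef]
    field_simp
    ring
  rw [hE, hns]
  have hfin := rc_final (G ^ 2 * ‖z1‖ ^ 2) (G ^ 2 * ‖w1‖ ^ 2) (G ^ 2 / ‖z‖) S.M N
    (‖u‖ ^ 2 + (conj u * v).im) (Vf S u - S.M) hM (by positivity) ?_ (by positivity) ?_ hc0 hc hN0
    hσ hσ1 ?_
  · exact hfin
  · have h1 : 0 ≤ G * ‖z1‖ := by positivity
    nlinarith
  · have h1 : 0 ≤ G * ‖w1‖ := by positivity
    have h2 : (G * ‖w1‖) ^ 2 ≤ (2 * S.M * (‖u‖ + ‖v‖)) ^ 2 := by gcongr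
    have h3 : (‖u‖ + ‖v‖) ^ 2 ≤ 2 * N := by nlinarith [sq_nonneg (‖u‖ - ‖v‖)]
    calc G ^ 2 * ‖w1‖ ^ 2 = (G * ‖w1‖) ^ 2 := by ring
      _ ≤ (2 * S.M * (‖u‖ + ‖v‖)) ^ 2 := h2
      _ = 4 * S.M ^ 2 * (‖u‖ + ‖v‖) ^ 2 := by ring
      _ ≤ 4 * S.M ^ 2 * (2 * N) := by gcongr
      _ = _ := by ring
  · refine hVf.trans ?_
    have h1 : ‖u‖ ^ 2 ≤ N := by rw [hN]; nlinarith [sq_nonneg ‖v‖]
    gcongr

end Pool.Agent.MP_5027f4_ell
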