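import Pool.Agent.Lib_MP_5027f4_ell.TbB
import Pool.Agent.Lib_MP_5027f4_ell.RedA

/-!
# The neighbourhood `Ub` of an elliptic Lagrange orbit is open and relatively compact
-/

open Complex Set Filter Topology MeasureTheory Polynomial
open scoped Real Matrix ComplexConjugate

namespace Pool.Agent.MP_5027f4_ell

open Pool.Agent.MP_5027f4_mp

theorem continuous_coord (m : Fin 3 → ℝ) (c : Fin 3 → ℂ) : Continuous (coord m c) := by
  unfold coord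
  fun_prop

theorem isOpen_Ub (m : Fin 3 → ℝ) (ω : ℂ) (d : Fin 3 → ℂ) (ε0 : ℂ)
    (G0 : ℝ) (hG : 0 < G0) (ρ : ℝ) : IsOpen (Ub m ω d ε0 G0 ρ) := by
  have cz : Continuous fun p : Ph => coord m (cc m ω) p.1 := (continuous_coord _ _).comp continuous_fst
  have cz1 : Continuous fun p : Ph => coord m (cc m ω) p.2 := (continuous_coord _ _).comp continuous_snd
  have cw : Continuous fun p : Ph => coord m d p.1 := (continuous_coord _ _).comp continuous_fst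
  have cw1 : Continuous fun p : Ph => coord m d p.2 := (continuous_coord _ _).comp continuous_snd
  have cG : Continuous fun p : Ph => Gz (coord m (cc m ω) p.1) (coord m (cc m ω) p.2) := by
    unfold Gz
    exact continuous_im.comp ((continuous_conj.comp cz).mul cz1)
  set O : Set Ph := {p | coord m (cc m ω) p.1 ≠ 0 ∧
    G0 / 2 < Gz (coord m (cc m ω) p.1) (coord m (cc m ω) p.2)} with hO
  have hOo : IsOpen O := (isOpen_ne_fun cz continuous_const).inter (isOpen_lt continuous_const cG)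
  have f1 : ContinuousOn (fun p : Ph => ‖coord m d p.1 / coord m (cc m ω) p.1‖) O :=
    (cw.continuousOn.div cz.continuousOn fun p hp => hp.1).norm
  have fk : ContinuousOn (fun p : Ph => (kapf (coord m (cc m ω) p.1) (coord m (cc m ω) p.2) : ℂ))
      O := by
    refine continuous_ofReal.comp_continuousOn (cG.continuousOn.div (cz.norm.pow 2).continuousOn ?_)
    intro p hp
    exact pow_ne_zero 2 (norm_ne_zero_iff.mpr hp.1)
  have f2 : ContinuousOn (fun p : Ph => ‖vf (coord m (cc m ω) p.1) (coord m (cc m ω) p.2)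
      (coord m d p.1) (coord m d p.2)‖) O := by
    refine ContinuousOn.norm ?_
    refine ContinuousOn.div ?_ fk ?_
    · exact ((cw1.mul cz).sub (cw.mul cz1)).continuousOn.div (cz.pow 2).continuousOn
        fun p hp => pow_ne_zero 2 hp.1
    · intro p hp
      have h1 : 0 < Gz (coord m (cc m ω) p.1) (coord m (cc m ω) p.2) := by linarith [hp.2]
      have h2 : 0 < ‖coord m (cc m ω) p.1‖ := norm_pos_iff.mpr hp.1
      exact ofReal_ne_zero.mpr (div_pos h1 (pow_pos h2 2)).ne'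
  have f3 : ContinuousOn (fun p : Ph =>
      ‖epsf (Mt m) (coord m (cc m ω) p.1) (coord m (cc m ω) p.2) / ε0 - 1‖) O := by
    refine ContinuousOn.norm (ContinuousOn.sub (ContinuousOn.div_const ?_ _) continuousOn_const)
    unfold epsf
    refine ContinuousOn.div_const ?_ _
    refine ContinuousOn.sub ?_ ?_
    · exact ((continuous_const.mul (continuous_ofReal.comp cG)).mul cz1).continuousOn
    · exact continuousOn_const.mul (cz.continuousOn.div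
        (continuous_ofReal.comp cz.norm).continuousOn
        fun p hp => ofReal_ne_zero.mpr (norm_ne_zero_iff.mpr hp.1))
  have heq : Ub m ω d ε0 G0 ρ = (O ∩ {p : Ph | Gz (coord m (cc m ω) p.1) (coord m (cc m ω) p.2) <
      2 * G0}) ∩ (O ∩ (fun p : Ph => ‖coord m d p.1 / coord m (cc m ω) p.1‖) ⁻¹' Iio ρ) ∩
      (O ∩ (fun p : Ph => ‖vf (coord m (cc m ω) p.1) (coord m (cc m ω) p.2)
      (coord m d p.1) (coord m d p.2)‖) ⁻¹' Iio ρ) ∩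
      (O ∩ (fun p : Ph =>
      ‖epsf (Mt m) (coord m (cc m ω) p.1) (coord m (cc m ω) p.2) / ε0 - 1‖) ⁻¹' Iio ρ) := by
    ext p
    constructor
    · rintro ⟨h1, h2, h3, h4, h5, h6⟩
      exact ⟨⟨⟨⟨⟨h1, h2⟩, h3⟩, ⟨h1, h2⟩, h4⟩, ⟨h1, h2⟩, h5⟩, ⟨h1, h2⟩, h6⟩
    · rintro ⟨⟨⟨⟨⟨h1, h2⟩, h3⟩, -, h4⟩, -, h5⟩, -, h6⟩
      exact ⟨h1, h2, h3, h4, h5, h6⟩
  rw [heq]
  exact (((hOo.inter (isOpen_lt cG continuous_const)).inter
    (f1.isOpen_inter_preimage hOo isOpen_Iio)).inter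
    (f2.isOpen_inter_preimage hOo isOpen_Iio)).inter (f3.isOpen_inter_preimage hOo isOpen_Iio)

/-- Bounds valid on `Ub`. -/
theorem Ub_bounds {M : ℝ} (hM : 0 < M) {ε0 : ℂ} (h0 : ε0 ≠ 0) (h1 : ‖ε0‖ < 1) {G0 ρ : ℝ}
    (hG : 0 < G0) (hρ : 0 < ρ) (hρ1 : ρ ≤ (1 - ‖ε0‖) / 2) {z z1 w w1 : ℂ} (hz : z ≠ 0)
    (hG1 : G0 / 2 < Gz z z1) (hG2 : Gz z z1 < 2 * G0) (hu : ‖w / z‖ < ρ)
    (hv : ‖vf z z1 w w1‖ < ρ) (hε : ‖epsf M z z1 / ε0 - 1‖ < ρ) :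
    G0 ^ 2 / (8 * M) ≤ ‖z‖ ∧ ‖z‖ ≤ 8 * G0 ^ 2 / (M * (1 - ‖ε0‖)) ∧ ‖z1‖ ≤ 4 * M / G0 ∧
      ‖w‖ ≤ ρ * ‖z‖ ∧ ‖w1‖ ≤ ρ * (4 * M / G0) + ρ * (2 * G0) / (G0 ^ 2 / (8 * M)) := by
  have hr : 0 < ‖z‖ := norm_pos_iff.mpr hz
  have hrC : (‖z‖ : ℂ) ≠ 0 := ofReal_ne_zero.mpr hr.ne'
  have hMC : (M : ℂ) ≠ 0 := ofReal_ne_zero.mpr hM.ne'
  have hε0 : 0 < ‖ε0‖ := norm_pos_iff.mpr h0
  set G := Gz z z1 with hGd
  have hGp : 0 < G := by linarith
  -- the eccentricity vector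
  have he : ‖epsf M z z1‖ ≤ (1 + ‖ε0‖) / 2 := by
    have e1 : epsf M z z1 = ε0 * (epsf M z z1 / ε0 - 1) + ε0 := by
      field_simp
      ring
    calc ‖epsf M z z1‖ = ‖ε0 * (epsf M z z1 / ε0 - 1) + ε0‖ := by rw [← e1]
      _ ≤ ‖ε0‖ * ‖epsf M z z1 / ε0 - 1‖ + ‖ε0‖ := by
        refine (norm_add_le _ _).trans ?_
        rw [norm_mul]
      _ ≤ (1 + ‖ε0‖) / 2 := by nlinarith
  have hζ : ‖z / (‖z‖ : ℂ)‖ = 1 := by
    rw [norm_div, norm_real, norm_norm, div_self hr.ne']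
  have hre : |(conj (epsf M z z1) * (z / (‖z‖ : ℂ))).re| ≤ (1 + ‖ε0‖) / 2 := by
    refine (abs_re_le_norm _).trans ?_
    rw [norm_mul, hζ, mul_one, norm_conj]
    exact he
  have hid := (epsf_identity M hM z z1 hz).1
  rw [← hGd] at hid
  rw [abs_le] at hre
  have hsq1 : (G0 / 2) ^ 2 ≤ G ^ 2 := pow_le_pow_left₀ (by positivity) hG1.le 2
  have hsq2 : G ^ 2 ≤ (2 * G0) ^ 2 := pow_le_pow_left₀ hGp.le hG2.le 2
  have hz1 : G0 ^ 2 / (8 * M) ≤ ‖z‖ := by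
    rw [div_le_iff₀ (by positivity)]
    have h2 : G ^ 2 ≤ M * ‖z‖ * 2 := by
      rw [← hid]
      apply mul_le_mul_of_nonneg_left _ (by positivity)
      linarith [hre.2]
    nlinarith
  have hz2 : ‖z‖ ≤ 8 * G0 ^ 2 / (M * (1 - ‖ε0‖)) := by
    rw [le_div_iff₀ (mul_pos hM (by linarith))]
    have h2 : M * ‖z‖ * ((1 - ‖ε0‖) / 2) ≤ G ^ 2 := by
      rw [← hid]
      apply mul_le_mul_of_nonneg_left _ (by positivity)
      linarith [hre.1]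
    nlinarith
  have hz3 : ‖z1‖ ≤ 4 * M / G0 := by
    have e1 : (G : ℂ) * z1 * I = -(M * (epsf M z z1 + z / (‖z‖ : ℂ))) := by
      rw [epsf, ← hGd]
      field_simp
      ring
    have e2 : G * ‖z1‖ = M * ‖epsf M z z1 + z / (‖z‖ : ℂ)‖ := by
      have := congrArg norm e1
      rw [norm_mul, norm_mul, norm_I, mul_one, norm_real, norm_neg, norm_mul, norm_real,
        Real.norm_of_nonneg hGp.le, Real.norm_of_nonneg hM.le] at this
      exact this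
    have e3 : ‖epsf M z z1 + z / (‖z‖ : ℂ)‖ ≤ 2 := by
      refine (norm_add_le _ _).trans ?_
      rw [hζ]
      linarith
    rw [le_div_iff₀ hG]
    have e4 : G * ‖z1‖ ≤ M * 2 := by
      rw [e2]
      exact mul_le_mul_of_nonneg_left e3 hM.le
    nlinarith [norm_nonneg z1]
  have hw : ‖w‖ ≤ ρ * ‖z‖ := by
    rw [norm_div, div_lt_iff₀ hr] at hu
    exact hu.le
  refine ⟨hz1, hz2, hz3, hw, ?_⟩
  have hκ : kapf z z1 = G / ‖z‖ ^ 2 := rfl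
  have hκp : 0 < kapf z z1 := by
    rw [hκ]
    positivity
  have hκC : (kapf z z1 : ℂ) ≠ 0 := ofReal_ne_zero.mpr hκp.ne'
  have e1 : w1 * z = w * z1 + vf z z1 w w1 * z ^ 2 * (kapf z z1 : ℂ) := by
    rw [vf]
    field_simp
    ring
  have e2 : ‖w1‖ * ‖z‖ ≤ ‖w‖ * ‖z1‖ + ‖vf z z1 w w1‖ * G := by
    rw [← norm_mul, e1]
    refine (norm_add_le _ _).trans ?_
    rw [norm_mul, norm_mul, norm_mul, norm_pow, norm_real, Real.norm_of_nonneg hκp.le, hκ]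
    have : ‖vf z z1 w w1‖ * ‖z‖ ^ 2 * (G / ‖z‖ ^ 2) = ‖vf z z1 w w1‖ * G := by
      field_simp
    rw [this]
  have e3 : ‖w1‖ * ‖z‖ ≤ ρ * ‖z‖ * (4 * M / G0) + ρ * (2 * G0) := by
    refine e2.trans (add_le_add ?_ ?_)
    · exact mul_le_mul hw hz3 (norm_nonneg _) (by positivity)
    · exact mul_le_mul hv.le hG2.le hGp.le hρ.le
  have e4 : ‖w1‖ ≤ ρ * (4 * M / G0) + ρ * (2 * G0) / ‖z‖ := by
    rw [← mul_le_mul_iff_left₀ hr]
    refine e3.trans (le_of_eq ?_)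
    field_simp
  refine e4.trans ?_
  gcongr

theorem Ub_compact (m : Fin 3 → ℝ) (hm : ∀ a, 0 < m a) {ω : ℂ} (hω : ω ^ 2 + ω + 1 = 0)
    {S : Shape} {d : Fin 3 → ℂ} (h : Tri m ω S d) (ε0 : ℂ) (h0 : ε0 ≠ 0) (h1 : ‖ε0‖ < 1)
    (G0 : ℝ) (hG : 0 < G0) :
    ∃ ρ1 > 0, ∀ ρ, 0 < ρ → ρ ≤ ρ1 → IsOpen (Ub m ω d ε0 G0 ρ) ∧
      ∃ K : Set ((Fin 3 → ℂ) × (Fin 3 → ℂ)), IsCompact K ∧ K ⊆ noColl ∧
        Ub m ω d ε0 G0 ρ ∩ frame m ⊆ K ∧ ∃ κ0 > 0, ∀ p ∈ Ub m ω d ε0 G0 ρ,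
          κ0 ≤ kapf (coord m (cc m ω) p.1) (coord m (cc m ω) p.2) := by
  have hM := Mt_pos hm
  set Δ : ℝ := 1 + ‖S.δ 0‖ + ‖S.δ 1‖ + ‖S.δ 2‖ with hΔ
  have n0 := norm_nonneg (S.δ 0)
  have n1 := norm_nonneg (S.δ 1)
  have n2 := norm_nonneg (S.δ 2)
  have hΔp : 0 < Δ := by positivity
  refine ⟨min ((1 - ‖ε0‖) / 2) (1 / Δ), lt_min (by linarith) (by positivity), ?_⟩
  intro ρ hρ hρ1
  have hρa : ρ ≤ (1 - ‖ε0‖) / 2 := hρ1.trans (min_le_left _ _)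
  have hρb : ρ ≤ 1 / Δ := hρ1.trans (min_le_right _ _)
  refine ⟨isOpen_Ub m ω d ε0 G0 hG ρ, ?_⟩
  set r0 : ℝ := G0 ^ 2 / (8 * Mt m) with hr0
  set r1 : ℝ := 8 * G0 ^ 2 / (Mt m * (1 - ‖ε0‖)) with hr1
  set R1 : ℝ := 4 * Mt m / G0 with hR1
  set R2 : ℝ := ρ * (4 * Mt m / G0) + ρ * (2 * G0) / (G0 ^ 2 / (8 * Mt m)) with hR2
  have hr0p : 0 < r0 := by positivity
  have hr1p : 0 < r1 := div_pos (by positivity) (mul_pos hM (by linarith))
  set Kp : Set ((ℂ × ℂ) × (ℂ × ℂ)) := {x | r0 ≤ ‖x.1.1‖ ∧ ‖x.1.1‖ ≤ r1 ∧ ‖x.1.2‖ ≤ R1 ∧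
    ‖x.2.1‖ ≤ ρ * ‖x.1.1‖ ∧ ‖x.2.2‖ ≤ R2} with hKp
  set Φ : (ℂ × ℂ) × (ℂ × ℂ) → Ph := fun x =>
    (fun a => cc m ω a * x.1.1 + d a * x.2.1, fun a => cc m ω a * x.1.2 + d a * x.2.2) with hΦ
  have hKc : IsCompact Kp := by
    apply Metric.isCompact_of_isClosed_isBounded
    · have c1 : IsClosed {x : (ℂ × ℂ) × (ℂ × ℂ) | r0 ≤ ‖x.1.1‖} :=
        isClosed_le continuous_const (by fun_prop)
      have c2 : IsClosed {x : (ℂ × ℂ) × (ℂ × ℂ) | ‖x.1.1‖ ≤ r1} :=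
        isClosed_le (by fun_prop) continuous_const
      have c3 : IsClosed {x : (ℂ × ℂ) × (ℂ × ℂ) | ‖x.1.2‖ ≤ R1} :=
        isClosed_le (by fun_prop) continuous_const
      have c4 : IsClosed {x : (ℂ × ℂ) × (ℂ × ℂ) | ‖x.2.1‖ ≤ ρ * ‖x.1.1‖} :=
        isClosed_le (by fun_prop) (by fun_prop)
      have c5 : IsClosed {x : (ℂ × ℂ) × (ℂ × ℂ) | ‖x.2.2‖ ≤ R2} :=
        isClosed_le (by fun_prop) continuous_const
      exact c1.inter (c2.inter (c3.inter (c4.inter c5)))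
    · refine (Metric.isBounded_closedBall (x := (0 : (ℂ × ℂ) × (ℂ × ℂ)))
        (r := max (max r1 R1) (max (ρ * r1) R2))).subset ?_
      rintro x ⟨-, x2, x3, x4, x5⟩
      rw [mem_closedBall_zero_iff, Prod.norm_def, Prod.norm_def, Prod.norm_def]
      refine max_le_max (max_le_max x2 x3) (max_le_max ?_ x5)
      exact x4.trans (mul_le_mul_of_nonneg_left x2 hρ.le)
  have hΦc : Continuous Φ := by
    rw [hΦ]
    fun_prop
  obtain ⟨hc0, hc1, hc2⟩ := cc_diff m hω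
  have hω0 : ω ≠ 0 := by
    intro h
    rw [h] at hω
    norm_num at hω
  refine ⟨Φ '' Kp, hKc.image hΦc, ?_, ?_, ?_⟩
  · rintro _ ⟨x, ⟨x1, x2, x3, x4, x5⟩, rfl⟩
    have hx0 : 0 < ‖x.1.1‖ := hr0p.trans_le x1
    have key : ∀ δ : ℂ, ‖δ‖ < Δ → x.1.1 + δ * x.2.1 ≠ 0 := by
      intro δ hδ hzero
      have h1 : ‖x.1.1‖ = ‖δ‖ * ‖x.2.1‖ := by
        rw [← norm_mul, show x.1.1 = -(δ * x.2.1) by linear_combination hzero, norm_neg]
      have h2 : ‖δ‖ * ‖x.2.1‖ ≤ ‖δ‖ * (1 / Δ * ‖x.1.1‖) :=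
        mul_le_mul_of_nonneg_left (x4.trans (mul_le_mul_of_nonneg_right hρb hx0.le))
          (norm_nonneg _)
      have h3 : ‖δ‖ * (1 / Δ * ‖x.1.1‖) < ‖x.1.1‖ := by
        rw [← mul_assoc, mul_one_div]
        exact mul_lt_of_lt_one_left hx0 ((div_lt_one hΔp).mpr hδ)
      linarith
    have k0 := key (S.δ 0) (by linarith)
    have k1 := key (S.δ 1) (by linarith)
    have k2 := key (S.δ 2) (by linarith)
    have e0 : (Φ x).1 0 - (Φ x).1 1 ≠ 0 := by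
      have : (Φ x).1 0 - (Φ x).1 1 = (cc m ω 0 - cc m ω 1) * (x.1.1 + S.δ 0 * x.2.1) := by
        rw [mul_add, ← mul_assoc _ (S.δ 0), mul_comm _ (S.δ 0), ← h.d0]
        simp only [hΦ]
        ring
      rw [this, hc0, one_mul]
      exact k0
    have e1 : (Φ x).1 1 - (Φ x).1 2 ≠ 0 := by
      have : (Φ x).1 1 - (Φ x).1 2 = (cc m ω 1 - cc m ω 2) * (x.1.1 + S.δ 1 * x.2.1) := by
        rw [mul_add, ← mul_assoc _ (S.δ 1), mul_comm _ (S.δ 1), ← h.d1]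
        simp only [hΦ]
        ring
      rw [this, hc1]
      exact mul_ne_zero hω0 k1
    have e2 : (Φ x).1 2 - (Φ x).1 0 ≠ 0 := by
      have : (Φ x).1 2 - (Φ x).1 0 = (cc m ω 2 - cc m ω 0) * (x.1.1 + S.δ 2 * x.2.1) := by
        rw [mul_add, ← mul_assoc _ (S.δ 2), mul_comm _ (S.δ 2), ← h.d2]
        simp only [hΦ]
        ring
      rw [this, hc2]
      exact mul_ne_zero (pow_ne_zero 2 hω0) k2
    intro a b hab
    fin_cases a <;> fin_cases b <;>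
      first
        | exact absurd rfl hab
        | exact sub_ne_zero.mp e0
        | exact sub_ne_zero.mp e1
        | exact sub_ne_zero.mp e2
        | exact (sub_ne_zero.mp e0).symm
        | exact (sub_ne_zero.mp e1).symm
        | exact (sub_ne_zero.mp e2).symm
  · rintro p ⟨⟨p1, p2, p3, p4, p5, p6⟩, hpf⟩
    obtain ⟨b1, b2, b3, b4, b5⟩ := Ub_bounds hM h0 h1 hG hρ hρa p1 p2 p3 p4 p5 p6
    refine ⟨((coord m (cc m ω) p.1, coord m (cc m ω) p.2), (coord m d p.1, coord m d p.2)),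
      ⟨b1, b2, b3, b4, b5⟩, ?_⟩
    refine Prod.ext (funext fun a => ?_) (funext fun a => ?_)
    · exact (coords_eq hm h p.1 hpf.2.1 a).symm
    · exact (coords_eq hm h p.2 hpf.2.2 a).symm
  · refine ⟨G0 / 2 / r1 ^ 2, by positivity, ?_⟩
    rintro p ⟨p1, p2, p3, p4, p5, p6⟩
    obtain ⟨b1, b2, b3, b4, b5⟩ := Ub_bounds hM h0 h1 hG hρ hρa p1 p2 p3 p4 p5 p6
    have hz : 0 < ‖coord m (cc m ω) p.1‖ := norm_pos_iff.mpr p1
    rw [kapf]
    apply div_le_div₀ (by linarith) p2.le (by positivity)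
    exact pow_le_pow_left₀ hz.le b2 2

end Pool.Agent.MP_5027f4_ell
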