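import Pool.Agent.Lib_MP_5027f4_ell.Defs
import Pool.Agent.Lib_MP_5027f4_mp.Flow

/-!
# Solutions starting near a Lyapunov stable set exist for all times and stay near it
-/

open Complex Set Filter Topology MeasureTheory Polynomial
open scoped Real Matrix ComplexConjugate

namespace Pool.Agent.MP_5027f4_ell

open Pool.Agent.MP_5027f4_mp

theorem stays (m : Fin 3 → ℝ) (γ : Set ((Fin 3 → ℂ) × (Fin 3 → ℂ))) (hst : LyapunovStable m γ)
    (U : Set ((Fin 3 → ℂ) × (Fin 3 → ℂ))) (hU : IsOpen U) (hγ : γ ⊆ U)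
    (K : Set ((Fin 3 → ℂ) × (Fin 3 → ℂ))) (hK : IsCompact K) (hKn : K ⊆ noColl)
    (hUK : U ∩ frame m ⊆ K) :
    ∃ V, IsOpen V ∧ γ ⊆ V ∧ ∀ p ∈ V ∩ frame m, ∀ T > 0, ∃ y, y 0 = p ∧
      IsSolution m (Icc 0 T) y ∧ ∀ t ∈ Icc 0 T, y t ∈ U := by
  obtain ⟨U₂, hU₂o, hγU₂, hU₂⟩ := hst U hU hγ
  refine ⟨U₂ ∩ U, hU₂o.inter hU, subset_inter hγU₂ hγ, ?_⟩
  rintro p ⟨⟨hp2, hpU⟩, hpf⟩ T hT
  obtain ⟨G, L, B, W, hWo, hKW, hWn, hL, hB, hGF⟩ :=
    exists_lipschitz_cutoff isOpen_noColl (contDiffOn_fld m) hK hKn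
  obtain ⟨y, hy0, hy⟩ := exists_sol_of_lipschitz hL hB p hT.le
  have hpK : p ∈ K := hUK ⟨hpU, hpf⟩
  -- as long as `y` is in `W` it is a solution and stays in `U`
  have key : ∀ s, 0 < s → s ≤ T → (∀ t ∈ Icc 0 s, y t ∈ W) →
      IsSolution m (Icc 0 s) y ∧ ∀ t ∈ Icc 0 s, y t ∈ U := by
    intro s hs hsT hW
    have h1 : Solves (fld m) noColl (Icc 0 s) y := by
      intro t ht
      refine ⟨hWn (hW t ht), ?_⟩
      rw [← hGF _ (hW t ht)]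
      exact (hy t (Icc_subset_Icc_right hsT ht)).mono (Icc_subset_Icc_right hsT)
    have h2 : ∀ t ∈ Icc 0 s, y t ∈ frame m := by
      refine frame_invariant m s hs.le y h1 ⟨0, ⟨le_rfl, hs.le⟩, ?_⟩
      rw [hy0]
      exact hpf
    have h3 : IsSolution m (Icc 0 s) y := fun t ht => ⟨h2 t ht, (h1 t ht).2⟩
    refine ⟨h3, hU₂ s hs y h3 ?_⟩
    rw [hy0]
    exact hp2
  have hyc : ContinuousOn y (Icc 0 T) := fun t ht => (hy t ht).continuousWithinAt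
  have hall : ∀ t ∈ Icc 0 T, y t ∈ K := by
    by_contra hne
    push Not at hne
    obtain ⟨t₁, ht₁, hyt₁⟩ := hne
    set Bd : Set ℝ := {t | t ∈ Icc 0 T ∧ y t ∉ K} with hBd
    have hne : Bd.Nonempty := ⟨t₁, ht₁, hyt₁⟩
    have hbdd : BddBelow Bd := ⟨0, fun t ht => ht.1.1⟩
    set t₀ := sInf Bd with ht₀
    have h0 : 0 ≤ t₀ := le_csInf hne fun t ht => ht.1.1
    have h0T : t₀ ≤ T := (csInf_le hbdd ⟨ht₁, hyt₁⟩).trans ht₁.2
    have hlt : ∀ t ∈ Icc 0 T, t < t₀ → y t ∈ K := by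
      intro t ht htt
      by_contra h
      exact absurd (csInf_le hbdd (show t ∈ Bd from ⟨ht, h⟩)) (not_le.mpr htt)
    have hyt₀ : y t₀ ∈ K := by
      rcases eq_or_lt_of_le h0 with h | h
      · rw [← h, hy0]
        exact hpK
      · have hcl : t₀ ∈ closure (Ico 0 t₀) := by
          rw [closure_Ico h.ne]
          exact ⟨h0, le_rfl⟩
        have hcw : ContinuousWithinAt y (Ico 0 t₀) t₀ :=
          (hyc t₀ ⟨h0, h0T⟩).mono fun t ht => ⟨ht.1, ht.2.le.trans h0T⟩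
        have := hcw.mem_closure_image hcl
        refine hK.isClosed.closure_subset_iff.mpr ?_ this
        rintro _ ⟨t, ht, rfl⟩
        exact hlt t ⟨ht.1, ht.2.le.trans h0T⟩ ht.2
    have hnear : ∀ᶠ t in 𝓝[Icc 0 T] t₀, y t ∈ W :=
      (hyc t₀ ⟨h0, h0T⟩).eventually_mem (hWo.mem_nhds (hKW hyt₀))
    rw [eventually_nhdsWithin_iff, Metric.eventually_nhds_iff] at hnear
    obtain ⟨ε, hε, hnear⟩ := hnear
    obtain ⟨t₂, ht₂, ht₂ε⟩ := exists_lt_of_csInf_lt hne (show sInf Bd < t₀ + ε by linarith)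
    have ht₂0 : 0 < t₂ := by
      rcases eq_or_lt_of_le ht₂.1.1 with h | h
      · exact absurd hpK (by rw [← hy0, h]; exact ht₂.2)
      · exact h
    have hW : ∀ t ∈ Icc 0 t₂, y t ∈ W := by
      intro t ht
      have htT : t ∈ Icc 0 T := ⟨ht.1, ht.2.trans ht₂.1.2⟩
      by_cases htt : t < t₀
      · exact hKW (hlt t htT htt)
      · apply hnear _ htT
        rw [Real.dist_eq, abs_of_nonneg (by linarith [not_lt.mp htt])]
        linarith [ht.2]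
    obtain ⟨hs, hsU⟩ := key t₂ ht₂0 ht₂.1.2 hW
    have ht₂m : t₂ ∈ Icc 0 t₂ := ⟨ht₂0.le, le_rfl⟩
    exact ht₂.2 (hUK ⟨hsU t₂ ht₂m, (hs t₂ ht₂m).1⟩)
  obtain ⟨h1, h2⟩ := key T hT le_rfl fun t ht => hKW (hall t ht)
  exact ⟨y, hy0, h1, h2⟩

end Pool.Agent.MP_5027f4_ell
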