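import Pool.Agent.Lib_MP_5027f4_ell.Defs

/-!
# Constants of the Kepler motion
-/

open Complex Set Filter Topology MeasureTheory Polynomial
open scoped Real Matrix ComplexConjugate

namespace Pool.Agent.MP_5027f4_ell

open Pool.Agent.MP_5027f4_mp

theorem kf_const {f : ℝ → ℝ} (h : ∀ t, HasDerivAt f 0 t) (t : ℝ) : f t = f 0 :=
  is_const_of_deriv_eq_zero (fun t => (h t).differentiableAt) (fun t => (h t).deriv) t 0

theorem kf_re {z : ℝ → ℂ} {z' : ℂ} {t : ℝ} (h : HasDerivAt z z' t) :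
    HasDerivAt (fun t => (z t).re) z'.re t :=
  (Complex.reCLM.hasFDerivAt.comp_hasDerivAt t h)

theorem kf_im {z : ℝ → ℂ} {z' : ℂ} {t : ℝ} (h : HasDerivAt z z' t) :
    HasDerivAt (fun t => (z t).im) z'.im t :=
  (Complex.imCLM.hasFDerivAt.comp_hasDerivAt t h)

theorem kf_acc_re (M : ℝ) (z : ℂ) :
    (-(M : ℂ) * z / ((‖z‖ ^ 3 : ℝ) : ℂ)).re = -M * z.re / ‖z‖ ^ 3 := by
  rw [Complex.div_ofReal_re]
  simp

theorem kf_acc_im (M : ℝ) (z : ℂ) :
    (-(M : ℂ) * z / ((‖z‖ ^ 3 : ℝ) : ℂ)).im = -M * z.im / ‖z‖ ^ 3 := by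
  rw [Complex.div_ofReal_im]
  simp

theorem kf_Gz (z z1 : ℂ) : Gz z z1 = z.re * z1.im - z.im * z1.re := by
  unfold Gz
  simp
  ring

theorem kf_eps_re (M : ℝ) (z z1 : ℂ) :
    (epsf M z z1).re = (Gz z z1 * z1.im - M * (z.re / ‖z‖)) / M := by
  unfold epsf
  rw [Complex.div_ofReal_re]
  congr 1
  simp [Complex.sub_re, Complex.mul_re, Complex.mul_im, Complex.div_ofReal_re]

theorem kf_eps_im (M : ℝ) (z z1 : ℂ) :
    (epsf M z z1).im = (-(Gz z z1) * z1.re - M * (z.im / ‖z‖)) / M := by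
  unfold epsf
  rw [Complex.div_ofReal_im]
  congr 1
  simp [Complex.sub_im, Complex.mul_re, Complex.mul_im, Complex.div_ofReal_im]

theorem kf_norm_sq (z : ℂ) : ‖z‖ ^ 2 = z.re ^ 2 + z.im ^ 2 := by
  rw [Complex.sq_norm, Complex.normSq_apply]
  ring

section

variable {M : ℝ} {z z1 : ℝ → ℂ}

theorem kf_norm (h : ∀ t, z t ≠ 0 ∧ HasDerivAt z (z1 t) t ∧
      HasDerivAt z1 (-(M : ℂ) * z t / ((‖z t‖ ^ 3 : ℝ) : ℂ)) t) (t : ℝ) :
    HasDerivAt (fun t => ‖z t‖) (((z t).re * (z1 t).re + (z t).im * (z1 t).im) / ‖z t‖) t := by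
  obtain ⟨h0, h1, h2⟩ := h t
  have hp : 0 < ‖z t‖ := norm_pos_iff.mpr h0
  have hsq : HasDerivAt (fun t => (z t).re ^ 2 + (z t).im ^ 2)
      (2 * (z t).re * (z1 t).re + 2 * (z t).im * (z1 t).im) t := by
    have ha := (kf_re h1).pow 2
    have hb := (kf_im h1).pow 2
    have hc := ha.add hb
    refine hc.congr_deriv ?_
    simp
  have hne : (z t).re ^ 2 + (z t).im ^ 2 ≠ 0 := by
    rw [← kf_norm_sq]
    positivity
  have hs := hsq.sqrt hne
  have heq : (fun t => ‖z t‖) = fun t => Real.sqrt ((z t).re ^ 2 + (z t).im ^ 2) := by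
    funext s
    rw [← kf_norm_sq, Real.sqrt_sq (norm_nonneg _)]
  rw [heq]
  refine hs.congr_deriv ?_
  rw [← kf_norm_sq, Real.sqrt_sq (norm_nonneg _)]
  field_simp

theorem kf_Gz_const (h : ∀ t, z t ≠ 0 ∧ HasDerivAt z (z1 t) t ∧
      HasDerivAt z1 (-(M : ℂ) * z t / ((‖z t‖ ^ 3 : ℝ) : ℂ)) t) (t : ℝ) :
    Gz (z t) (z1 t) = Gz (z 0) (z1 0) := by
  refine kf_const (f := fun t => Gz (z t) (z1 t)) ?_ t
  intro t
  obtain ⟨h0, h1, h2⟩ := h t
  have hp : 0 < ‖z t‖ := norm_pos_iff.mpr h0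
  simp only [kf_Gz]
  have ha := ((kf_re h1).mul (kf_im h2)).sub ((kf_im h1).mul (kf_re h2))
  refine ha.congr_deriv ?_
  rw [kf_acc_re, kf_acc_im]
  ring

theorem kf_energy_const (h : ∀ t, z t ≠ 0 ∧ HasDerivAt z (z1 t) t ∧
      HasDerivAt z1 (-(M : ℂ) * z t / ((‖z t‖ ^ 3 : ℝ) : ℂ)) t) (t : ℝ) :
    ((z1 t).re ^ 2 + (z1 t).im ^ 2) / 2 - M / ‖z t‖ =
      ((z1 0).re ^ 2 + (z1 0).im ^ 2) / 2 - M / ‖z 0‖ := by
  refine kf_const (f := fun t => ((z1 t).re ^ 2 + (z1 t).im ^ 2) / 2 - M / ‖z t‖) ?_ t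
  intro t
  have hn := kf_norm h t
  obtain ⟨h0, h1, h2⟩ := h t
  have hp : 0 < ‖z t‖ := norm_pos_iff.mpr h0
  have ha := ((((kf_re h2).pow 2).add ((kf_im h2).pow 2)).div_const 2).sub
    ((hasDerivAt_const t M).div hn hp.ne')
  refine ha.congr_deriv ?_
  rw [kf_acc_re, kf_acc_im]
  simp only [Nat.cast_ofNat, zero_mul, zero_sub]
  field_simp
  ring

theorem kf_eps_const (hM : 0 < M) (h : ∀ t, z t ≠ 0 ∧ HasDerivAt z (z1 t) t ∧
      HasDerivAt z1 (-(M : ℂ) * z t / ((‖z t‖ ^ 3 : ℝ) : ℂ)) t) (t : ℝ) :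
    epsf M (z t) (z1 t) = epsf M (z 0) (z1 0) := by
  set g : ℝ := Gz (z 0) (z1 0) with hg
  have hG : ∀ t, Gz (z t) (z1 t) = g := kf_Gz_const h
  apply Complex.ext
  · have hc : (fun t => (g * (z1 t).im - M * ((z t).re / ‖z t‖)) / M) t =
        (fun t => (g * (z1 t).im - M * ((z t).re / ‖z t‖)) / M) 0 := by
      refine kf_const (f := fun t => (g * (z1 t).im - M * ((z t).re / ‖z t‖)) / M) ?_ t
      intro t
      have hn := kf_norm h t
      have hGt := hG t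
      obtain ⟨h0, h1, h2⟩ := h t
      have hp : 0 < ‖z t‖ := norm_pos_iff.mpr h0
      have ha := (((kf_im h2).const_mul g).sub
        (((kf_re h1).div hn hp.ne').const_mul M)).div_const M
      refine ha.congr_deriv ?_
      rw [kf_acc_im]
      have hn2 := kf_norm_sq (z t)
      rw [kf_Gz] at hGt
      rw [← hGt]
      field_simp
      rw [hn2]
      ring
    rw [kf_eps_re, kf_eps_re, hG t]
    exact hc
  · have hc : (fun t => (-g * (z1 t).re - M * ((z t).im / ‖z t‖)) / M) t =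
        (fun t => (-g * (z1 t).re - M * ((z t).im / ‖z t‖)) / M) 0 := by
      refine kf_const (f := fun t => (-g * (z1 t).re - M * ((z t).im / ‖z t‖)) / M) ?_ t
      intro t
      have hn := kf_norm h t
      have hGt := hG t
      obtain ⟨h0, h1, h2⟩ := h t
      have hp : 0 < ‖z t‖ := norm_pos_iff.mpr h0
      have ha := (((kf_re h2).const_mul (-g)).sub
        (((kf_im h1).div hn hp.ne').const_mul M)).div_const M
      refine ha.congr_deriv ?_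
      rw [kf_acc_re]
      have hn2 := kf_norm_sq (z t)
      rw [kf_Gz] at hGt
      rw [← hGt]
      field_simp
      rw [hn2]
      ring
    rw [kf_eps_im, kf_eps_im, hG t]
    exact hc

/-- At a critical point of the distance. -/
theorem kf_crit (hM : 0 < M) {z z1 : ℂ} (hz : z ≠ 0) (hc : z.re * z1.re + z.im * z1.im = 0) :
    M * ‖epsf M z z1‖ = |Gz z z1 ^ 2 / ‖z‖ - M| ∧
      (z1.re ^ 2 + z1.im ^ 2) * ‖z‖ ^ 2 = Gz z z1 ^ 2 := by
  have hp : 0 < ‖z‖ := norm_pos_iff.mpr hz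
  have hn2 := kf_norm_sq z
  have hG := kf_Gz z z1
  constructor
  · have h1 : (M * ‖epsf M z z1‖) ^ 2 = (Gz z z1 ^ 2 / ‖z‖ - M) ^ 2 := by
      rw [mul_pow, kf_norm_sq, kf_eps_re, kf_eps_im]
      have e1 : Gz z z1 * z1.im = Gz z z1 ^ 2 * z.re / ‖z‖ ^ 2 := by
        rw [eq_div_iff (by positivity), hn2, hG]
        linear_combination (-(z.re * z1.im - z.im * z1.re)) * (-z.im) * hc
      have e2 : Gz z z1 * z1.re = -(Gz z z1 ^ 2 * z.im / ‖z‖ ^ 2) := by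
        rw [eq_neg_iff_add_eq_zero, ← sub_eq_zero]
        rw [show Gz z z1 * z1.re + Gz z z1 ^ 2 * z.im / ‖z‖ ^ 2 - 0 =
          (Gz z z1 * z1.re * ‖z‖ ^ 2 + Gz z z1 ^ 2 * z.im) / ‖z‖ ^ 2 by field_simp; ring]
        rw [div_eq_zero_iff]
        left
        rw [hn2, hG]
        linear_combination (z.re * z1.im - z.im * z1.re) * z.re * hc
      rw [e1, neg_mul, e2]
      have e3 : M ^ 2 * (((Gz z z1 ^ 2 * z.re / ‖z‖ ^ 2 - M * (z.re / ‖z‖)) / M) ^ 2 +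
          ((- -(Gz z z1 ^ 2 * z.im / ‖z‖ ^ 2) - M * (z.im / ‖z‖)) / M) ^ 2) =
          (Gz z z1 ^ 2 / ‖z‖ - M) ^ 2 * (z.re ^ 2 + z.im ^ 2) / ‖z‖ ^ 2 := by
        field_simp
      rw [e3, ← hn2]
      field_simp
    have h2 : |M * ‖epsf M z z1‖| = |Gz z z1 ^ 2 / ‖z‖ - M| := (sq_eq_sq_iff_abs_eq_abs _ _).mp h1
    rwa [abs_of_nonneg (by positivity)] at h2
  · rw [hn2, hG]
    linear_combination (z.re * z1.re + z.im * z1.im) * hc

end

/-- TbF -/
theorem kepler_ecc (M : ℝ) (hM : 0 < M) (z z1 : ℝ → ℂ)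
    (h : ∀ t, z t ≠ 0 ∧ HasDerivAt z (z1 t) t ∧
      HasDerivAt z1 (-(M : ℂ) * z t / ((‖z t‖ ^ 3 : ℝ) : ℂ)) t)
    (l1 l2 : ℝ) (h1 : IsLeast (range fun t => ‖z t‖) l1)
    (h2 : IsGreatest (range fun t => ‖z t‖) l2) (h12 : l1 < l2) :
    (∀ t, Gz (z t) (z1 t) = Gz (z 0) (z1 0)) ∧ Gz (z 0) (z1 0) ≠ 0 ∧
    (∀ t, epsf M (z t) (z1 t) = epsf M (z 0) (z1 0)) ∧
    ‖epsf M (z 0) (z1 0)‖ = (l2 - l1) / (l2 + l1) := by
  have hG := kf_Gz_const h
  have hE := kf_eps_const hM h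
  obtain ⟨⟨t1, ht1⟩, hmin⟩ := h1
  obtain ⟨⟨t2, ht2⟩, hmax⟩ := h2
  have ht1' : ‖z t1‖ = l1 := ht1
  have ht2' : ‖z t2‖ = l2 := ht2
  have hp1 : 0 < l1 := by rw [← ht1']; exact norm_pos_iff.mpr (h t1).1
  have hp2 : 0 < l2 := hp1.trans h12
  have hmin1 : IsLocalMin (fun t => ‖z t‖) t1 := by
    refine Filter.Eventually.of_forall fun t => ?_
    change ‖z t1‖ ≤ ‖z t‖
    rw [ht1']
    exact hmin ⟨t, rfl⟩
  have hmax1 : IsLocalMax (fun t => ‖z t‖) t2 := by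
    refine Filter.Eventually.of_forall fun t => ?_
    change ‖z t‖ ≤ ‖z t2‖
    rw [ht2']
    exact hmax ⟨t, rfl⟩
  have c1 : (z t1).re * (z1 t1).re + (z t1).im * (z1 t1).im = 0 := by
    have := hmin1.hasDerivAt_eq_zero (kf_norm h t1)
    rw [div_eq_zero_iff] at this
    rcases this with h3 | h3
    · exact h3
    · rw [ht1'] at h3
      exact absurd h3 hp1.ne'
  have c2 : (z t2).re * (z1 t2).re + (z t2).im * (z1 t2).im = 0 := by
    have := hmax1.hasDerivAt_eq_zero (kf_norm h t2)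
    rw [div_eq_zero_iff] at this
    rcases this with h3 | h3
    · exact h3
    · rw [ht2'] at h3
      exact absurd h3 hp2.ne'
  obtain ⟨d1, e1⟩ := kf_crit hM (h t1).1 c1
  obtain ⟨d2, e2⟩ := kf_crit hM (h t2).1 c2
  rw [hG t1, ht1'] at d1 e1
  rw [hG t2, ht2'] at d2 e2
  rw [hE t1] at d1
  rw [hE t2] at d2
  set g : ℝ := Gz (z 0) (z1 0) with hg
  set ε : ℝ := ‖epsf M (z 0) (z1 0)‖ with hε
  have hg0 : g ≠ 0 := by
    intro h0
    rw [h0] at e1 e2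
    have v1 : (z1 t1).re ^ 2 + (z1 t1).im ^ 2 = 0 := by
      have : ((z1 t1).re ^ 2 + (z1 t1).im ^ 2) * l1 ^ 2 = 0 := by rw [e1]; ring
      rcases mul_eq_zero.mp this with h3 | h3
      · exact h3
      · exact absurd h3 (by positivity)
    have v2 : (z1 t2).re ^ 2 + (z1 t2).im ^ 2 = 0 := by
      have : ((z1 t2).re ^ 2 + (z1 t2).im ^ 2) * l2 ^ 2 = 0 := by rw [e2]; ring
      rcases mul_eq_zero.mp this with h3 | h3
      · exact h3
      · exact absurd h3 (by positivity)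
    have k1 := kf_energy_const h t1
    have k2 := kf_energy_const h t2
    rw [← k2, v1, v2, ht1', ht2'] at k1
    have k3 : M / l1 = M / l2 := by linarith
    rw [div_eq_div_iff hp1.ne' hp2.ne'] at k3
    have k4 : l2 = l1 := mul_left_cancel₀ hM.ne' k3
    linarith
  refine ⟨hG, hg0, hE, ?_⟩
  have hgs : 0 < g ^ 2 := by positivity
  have hlt : g ^ 2 / l2 < g ^ 2 / l1 := div_lt_div_of_pos_left hgs hp1 h12
  have hab : |g ^ 2 / l1 - M| = |g ^ 2 / l2 - M| := by rw [← d1, ← d2]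
  have hεn : 0 ≤ M * ε := by positivity
  have hsum : g ^ 2 / l1 - M = -(g ^ 2 / l2 - M) := by
    rcases abs_eq_abs.mp hab with h3 | h3
    · linarith
    · exact h3
  have hpos : 0 ≤ g ^ 2 / l1 - M := by linarith
  rw [abs_of_nonneg hpos] at d1
  have hl : g ^ 2 * (l1 + l2) = 2 * M * (l1 * l2) := by
    have h4 : g ^ 2 / l1 + g ^ 2 / l2 = 2 * M := by linarith
    field_simp at h4
    linarith
  rw [eq_div_iff (by positivity)]
  have h5 : M * (ε * (l2 + l1)) = M * (l2 - l1) := by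
    have h6 : M * ε * (l2 + l1) = (g ^ 2 / l1 - M) * (l2 + l1) := by rw [d1]
    have h7 : (g ^ 2 / l1 - M) * (l2 + l1) = M * (l2 - l1) := by
      have h8 : g ^ 2 / l1 * (l2 + l1) = 2 * M * l2 := by
        rw [div_mul_eq_mul_div, div_eq_iff hp1.ne']
        linarith
      linarith
    linarith
  exact mul_left_cancel₀ hM.ne' h5

end Pool.Agent.MP_5027f4_ell
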