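import Pool.Agent.Lib_MP_5027f4_ell.Defs
import Pool.Agent.Lib_MP_5027f4_ell.RedA
import Pool.Agent.Lib_MP_5027f4_ell.TbB

/-!
# Initial conditions near an elliptic Lagrange orbit
-/

open Complex Set Filter Topology MeasureTheory Polynomial
open scoped Real Matrix ComplexConjugate

namespace Pool.Agent.MP_5027f4_ell

open Pool.Agent.MP_5027f4_mp

namespace TbH

/-- position from angular momentum, eccentricity vector and direction -/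
noncomputable def zf (M G : ℝ) (ε ζ : ℂ) : ℂ := ((G ^ 2 / (M * (1 + (conj ε * ζ).re)) : ℝ) : ℂ) * ζ

/-- velocity from angular momentum, eccentricity vector and direction -/
noncomputable def z1f (M G : ℝ) (ε ζ : ℂ) : ℂ := I * M * (ε + ζ) / G

theorem norm_zf {M G : ℝ} {ε ζ : ℂ} (hM : 0 < M) (hG : 0 < G) (hζ : ‖ζ‖ = 1)
    (hD : 0 < 1 + (conj ε * ζ).re) : ‖zf M G ε ζ‖ = G ^ 2 / (M * (1 + (conj ε * ζ).re)) := by
  unfold zf
  rw [norm_mul, hζ, mul_one, Complex.norm_real, Real.norm_of_nonneg (by positivity)]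

theorem zf_ne {M G : ℝ} {ε ζ : ℂ} (hM : 0 < M) (hG : 0 < G) (hζ : ‖ζ‖ = 1)
    (hD : 0 < 1 + (conj ε * ζ).re) : zf M G ε ζ ≠ 0 := by
  rw [← norm_pos_iff, norm_zf hM hG hζ hD]
  positivity

theorem zf_dir {M G : ℝ} {ε ζ : ℂ} (hM : 0 < M) (hG : 0 < G) (hζ : ‖ζ‖ = 1)
    (hD : 0 < 1 + (conj ε * ζ).re) : zf M G ε ζ / (‖zf M G ε ζ‖ : ℂ) = ζ := by
  have hr : (0 : ℝ) < G ^ 2 / (M * (1 + (conj ε * ζ).re)) := by positivity
  rw [norm_zf hM hG hζ hD]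
  unfold zf
  rw [mul_div_assoc, mul_comm, div_mul_cancel₀]
  exact ofReal_ne_zero.mpr hr.ne'

theorem Gz_zf {M G : ℝ} {ε ζ : ℂ} (hM : 0 < M) (hG : 0 < G) (hζ : ‖ζ‖ = 1)
    (hD : 0 < 1 + (conj ε * ζ).re) : Gz (zf M G ε ζ) (z1f M G ε ζ) = G := by
  have hζ2 : ζ.re ^ 2 + ζ.im ^ 2 = 1 := by
    have := Complex.sq_norm ζ
    rw [hζ, Complex.normSq_apply] at this
    nlinarith
  have hDval : (conj ε * ζ).re = ε.re * ζ.re + ε.im * ζ.im := by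
    simp [Complex.mul_re]
  have e1 : conj (zf M G ε ζ) * z1f M G ε ζ =
      ((G ^ 2 / (M * (1 + (conj ε * ζ).re)) * (M / G) : ℝ) : ℂ) * (conj ζ * (I * (ε + ζ))) := by
    unfold zf z1f
    rw [map_mul, conj_ofReal]
    push_cast
    ring
  have e2 : (conj ζ * (I * (ε + ζ))).im = 1 + (conj ε * ζ).re := by
    rw [hDval]
    simp only [Complex.mul_im, Complex.mul_re, Complex.conj_re, Complex.conj_im, Complex.I_re,
      Complex.I_im, Complex.add_re, Complex.add_im]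
    nlinarith [hζ2]
  unfold Gz
  rw [e1, Complex.im_ofReal_mul, e2]
  field_simp

theorem epsf_zf {M G : ℝ} {ε ζ : ℂ} (hM : 0 < M) (hG : 0 < G) (hζ : ‖ζ‖ = 1)
    (hD : 0 < 1 + (conj ε * ζ).re) : epsf M (zf M G ε ζ) (z1f M G ε ζ) = ε := by
  unfold epsf
  rw [Gz_zf hM hG hζ hD, zf_dir hM hG hζ hD]
  unfold z1f
  have hM' : (M : ℂ) ≠ 0 := ofReal_ne_zero.mpr hM.ne'
  have hG' : (G : ℂ) ≠ 0 := ofReal_ne_zero.mpr hG.ne'
  field_simp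
  linear_combination (-(ε + ζ)) * I_sq

theorem zf_inv {M : ℝ} {z z1 : ℂ} (hM : 0 < M) (hz : z ≠ 0) (hG : 0 < Gz z z1) :
    zf M (Gz z z1) (epsf M z z1) (z / (‖z‖ : ℂ)) = z ∧
    z1f M (Gz z z1) (epsf M z z1) (z / (‖z‖ : ℂ)) = z1 ∧
    0 < 1 + (conj (epsf M z z1) * (z / (‖z‖ : ℂ))).re := by
  have h1 := (epsf_identity M hM z z1 hz).1
  have hzn : 0 < ‖z‖ := norm_pos_iff.mpr hz
  have hzn' : (‖z‖ : ℂ) ≠ 0 := ofReal_ne_zero.mpr hzn.ne'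
  have hpos : 0 < 1 + (conj (epsf M z z1) * (z / (‖z‖ : ℂ))).re := by
    have h2 : 0 < M * ‖z‖ * (1 + (conj (epsf M z z1) * (z / (‖z‖ : ℂ))).re) := by
      rw [h1]; positivity
    exact (mul_pos_iff_of_pos_left (by positivity)).mp h2
  refine ⟨?_, ?_, hpos⟩
  · unfold zf
    have : Gz z z1 ^ 2 / (M * (1 + (conj (epsf M z z1) * (z / (‖z‖ : ℂ))).re)) = ‖z‖ := by
      rw [div_eq_iff (by positivity), ← h1]
      ring
    rw [this]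
    field_simp
  · unfold z1f
    have hM' : (M : ℂ) ≠ 0 := ofReal_ne_zero.mpr hM.ne'
    have hG' : (Gz z z1 : ℂ) ≠ 0 := ofReal_ne_zero.mpr hG.ne'
    unfold epsf
    field_simp
    linear_combination (-(Gz z z1 : ℂ) * z1 * ‖z‖) * I_sq


/-- the position coordinate along the family of initial conditions -/
noncomputable def Zq (M G : ℝ) (ε0 ζ : ℂ) (q : ℝ × ℝ) : ℂ := zf M G ((q.1 : ℂ) * ε0) ζ

/-- the velocity coordinate along the family -/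
noncomputable def Z1q (M G : ℝ) (ε0 ζ : ℂ) (q : ℝ × ℝ) : ℂ := z1f M G ((q.1 : ℂ) * ε0) ζ

/-- second mode along the family -/
noncomputable def Wq (M G : ℝ) (ε0 ζ : ℂ) (y : ℂ × ℂ) (q : ℝ × ℝ) : ℂ :=
  Zq M G ε0 ζ q * ((q.2 : ℂ) * y.1)

/-- velocity of the second mode along the family -/
noncomputable def W1q (M G : ℝ) (ε0 ζ : ℂ) (y : ℂ × ℂ) (q : ℝ × ℝ) : ℂ :=
  Z1q M G ε0 ζ q * ((q.2 : ℂ) * y.1) +
    Zq M G ε0 ζ q * (kapf (Zq M G ε0 ζ q) (Z1q M G ε0 ζ q) : ℂ) * ((q.2 : ℂ) * y.2)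

/-- the denominator -/
noncomputable def Dq (ε0 ζ : ℂ) (q : ℝ × ℝ) : ℝ := 1 + (conj ((q.1 : ℂ) * ε0) * ζ).re

theorem continuous_Dq (ε0 ζ : ℂ) : Continuous (Dq ε0 ζ) := by
  unfold Dq
  fun_prop

theorem continuousAt_Zq {M G : ℝ} {ε0 ζ : ℂ} {q : ℝ × ℝ} (hM : 0 < M) (hD : 0 < Dq ε0 ζ q) :
    ContinuousAt (Zq M G ε0 ζ) q := by
  unfold Zq zf
  refine ContinuousAt.mul ?_ continuousAt_const
  refine Complex.continuous_ofReal.continuousAt.comp ?_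
  refine ContinuousAt.div continuousAt_const ?_ ?_
  · have h := continuous_Dq ε0 ζ
    unfold Dq at h
    exact (continuous_const.mul h).continuousAt
  · unfold Dq at hD
    positivity

theorem continuous_Z1q (M G : ℝ) (ε0 ζ : ℂ) : Continuous (Z1q M G ε0 ζ) := by
  unfold Z1q z1f
  fun_prop

theorem continuousAt_Wq {M G : ℝ} {ε0 ζ : ℂ} {q : ℝ × ℝ} (y : ℂ × ℂ) (hM : 0 < M)
    (hD : 0 < Dq ε0 ζ q) : ContinuousAt (Wq M G ε0 ζ y) q := by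
  unfold Wq
  exact (continuousAt_Zq hM hD).mul (by fun_prop)

theorem continuousAt_kap {M G : ℝ} {ε0 ζ : ℂ} {q : ℝ × ℝ} (hM : 0 < M) (hG : 0 < G)
    (hζ : ‖ζ‖ = 1) (hD : 0 < Dq ε0 ζ q) :
    ContinuousAt (fun q => kapf (Zq M G ε0 ζ q) (Z1q M G ε0 ζ q)) q := by
  unfold kapf Gz
  have hz : Zq M G ε0 ζ q ≠ 0 := zf_ne hM hG hζ hD
  have hcz := continuousAt_Zq (G := G) hM hD
  have hc1 := (continuous_Z1q M G ε0 ζ).continuousAt (x := q)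
  refine ContinuousAt.div ?_ (hcz.norm.pow 2) (by positivity)
  exact Complex.continuous_im.continuousAt.comp
    ((Complex.continuous_conj.continuousAt.comp hcz).mul hc1)

theorem continuousAt_W1q {M G : ℝ} {ε0 ζ : ℂ} {q : ℝ × ℝ} (y : ℂ × ℂ) (hM : 0 < M) (hG : 0 < G)
    (hζ : ‖ζ‖ = 1) (hD : 0 < Dq ε0 ζ q) : ContinuousAt (W1q M G ε0 ζ y) q := by
  unfold W1q
  refine ContinuousAt.add ?_ ?_
  · exact (continuous_Z1q M G ε0 ζ).continuousAt.mul (by fun_prop)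
  · refine ContinuousAt.mul (ContinuousAt.mul (continuousAt_Zq hM hD) ?_) (by fun_prop)
    exact Complex.continuous_ofReal.continuousAt.comp (continuousAt_kap hM hG hζ hD)

theorem Wq_div {M G : ℝ} {ε0 ζ : ℂ} {q : ℝ × ℝ} (y : ℂ × ℂ) (hM : 0 < M) (hG : 0 < G)
    (hζ : ‖ζ‖ = 1) (hD : 0 < Dq ε0 ζ q) :
    Wq M G ε0 ζ y q / Zq M G ε0 ζ q = (q.2 : ℂ) * y.1 := by
  have hz : Zq M G ε0 ζ q ≠ 0 := zf_ne hM hG hζ hD
  unfold Wq
  rw [mul_comm, mul_div_assoc, div_self hz, mul_one]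

theorem vf_q {M G : ℝ} {ε0 ζ : ℂ} {q : ℝ × ℝ} (y : ℂ × ℂ) (hM : 0 < M) (hG : 0 < G)
    (hζ : ‖ζ‖ = 1) (hD : 0 < Dq ε0 ζ q) :
    vf (Zq M G ε0 ζ q) (Z1q M G ε0 ζ q) (Wq M G ε0 ζ y q) (W1q M G ε0 ζ y q) =
      (q.2 : ℂ) * y.2 := by
  have hz : Zq M G ε0 ζ q ≠ 0 := zf_ne hM hG hζ hD
  have hk : kapf (Zq M G ε0 ζ q) (Z1q M G ε0 ζ q) ≠ 0 := by
    unfold kapf
    have : Gz (Zq M G ε0 ζ q) (Z1q M G ε0 ζ q) = G := Gz_zf hM hG hζ hD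
    rw [this]
    positivity
  have hk' : (kapf (Zq M G ε0 ζ q) (Z1q M G ε0 ζ q) : ℂ) ≠ 0 := ofReal_ne_zero.mpr hk
  unfold vf W1q Wq
  field_simp
  ring

theorem continuousAt_Einv {S : Shape} {M G : ℝ} {ε0 ζ : ℂ} {q : ℝ × ℝ} (y : ℂ × ℂ) (hM : 0 < M)
    (hG : 0 < G) (hζ : ‖ζ‖ = 1) (hD : 0 < Dq ε0 ζ q)
    (hk : ∀ k, 1 + S.δ k * ((q.2 : ℂ) * y.1) ≠ 0) :
    ContinuousAt (fun q => Einv S (Zq M G ε0 ζ q) (Z1q M G ε0 ζ q) (Wq M G ε0 ζ y q)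
      (W1q M G ε0 ζ y q)) q := by
  have hz : Zq M G ε0 ζ q ≠ 0 := zf_ne hM hG hζ hD
  have hcz := continuousAt_Zq (G := G) hM hD
  have hc1 := (continuous_Z1q M G ε0 ζ).continuousAt (x := q)
  have hcw := continuousAt_Wq (G := G) y hM hD
  have hcw1 := continuousAt_W1q y hM hG hζ hD
  unfold Einv Gz Vf
  have hg : ∀ {f g : ℝ × ℝ → ℂ}, ContinuousAt f q → ContinuousAt g q →
      ContinuousAt (fun q => (conj (f q) * g q).im) q := fun hf hg' =>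
    Complex.continuous_im.continuousAt.comp
      ((Complex.continuous_conj.continuousAt.comp hf).mul hg')
  refine ContinuousAt.add continuousAt_const (ContinuousAt.div_const ?_ _)
  refine ContinuousAt.mul (continuousAt_const.mul (((hg hcz hc1).add (hg hcw hcw1)).pow 2)) ?_
  refine ContinuousAt.sub (((hc1.norm.pow 2).add (hcw1.norm.pow 2)).div_const _) ?_
  refine ContinuousAt.div ?_ hcz.norm (norm_ne_zero_iff.mpr hz)
  refine tendsto_finsetSum _ fun k _ => ?_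
  refine ContinuousAt.div continuousAt_const ?_ ?_
  · exact (continuousAt_const.add (continuousAt_const.mul (hcw.div hcz hz))).norm
  · rw [Wq_div y hM hG hζ hD]
    exact norm_ne_zero_iff.mpr (hk k)

theorem Einv_zero {S : Shape} {G : ℝ} {ε0 ζ : ℂ} {τ : ℝ} (y : ℂ × ℂ) (hS : S.Good)
    (hG : 0 < G) (hζ : ‖ζ‖ = 1) (hD : 0 < Dq ε0 ζ (τ, 0)) :
    Einv S (Zq S.M G ε0 ζ (τ, 0)) (Z1q S.M G ε0 ζ (τ, 0)) (Wq S.M G ε0 ζ y (τ, 0))
      (W1q S.M G ε0 ζ y (τ, 0)) = (τ * ‖ε0‖) ^ 2 := by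
  have hM := hS.Mpos
  have hz : Zq S.M G ε0 ζ (τ, 0) ≠ 0 := zf_ne hM hG hζ hD
  have hw : Wq S.M G ε0 ζ y (τ, 0) = 0 := by simp [Wq]
  have hw1 : W1q S.M G ε0 ζ y (τ, 0) = 0 := by simp [W1q]
  have he : epsf S.M (Zq S.M G ε0 ζ (τ, 0)) (Z1q S.M G ε0 ζ (τ, 0)) = (τ : ℂ) * ε0 :=
    epsf_zf hM hG hζ hD
  have h2 := (epsf_identity S.M hM _ (Z1q S.M G ε0 ζ (τ, 0)) hz).2
  rw [he, norm_mul, Complex.norm_real, mul_pow, Real.norm_eq_abs, sq_abs, ← mul_pow] at h2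
  have hV : Vf S (Wq S.M G ε0 ζ y (τ, 0) / Zq S.M G ε0 ζ (τ, 0)) = S.M := by
    unfold Vf
    rw [hw]
    simp [hS.sum_p]
  rw [h2]
  unfold Einv
  rw [hV, hw, hw1]
  simp [Gz]

/-- the phase point of the family -/
noncomputable def Pq (m : Fin 3 → ℝ) (ω : ℂ) (d : Fin 3 → ℂ) (M G : ℝ) (ε0 ζ : ℂ) (y : ℂ × ℂ)
    (q : ℝ × ℝ) : (Fin 3 → ℂ) × (Fin 3 → ℂ) :=
  (fun a => cc m ω a * Zq M G ε0 ζ q + d a * Wq M G ε0 ζ y q,
    fun a => cc m ω a * Z1q M G ε0 ζ q + d a * W1q M G ε0 ζ y q)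

theorem continuousAt_Pq (m : Fin 3 → ℝ) (ω : ℂ) (d : Fin 3 → ℂ) {M G : ℝ} {ε0 ζ : ℂ}
    {q : ℝ × ℝ} (y : ℂ × ℂ) (hM : 0 < M) (hG : 0 < G) (hζ : ‖ζ‖ = 1) (hD : 0 < Dq ε0 ζ q) :
    ContinuousAt (Pq m ω d M G ε0 ζ y) q := by
  have hcz := continuousAt_Zq (G := G) hM hD
  have hc1 := (continuous_Z1q M G ε0 ζ).continuousAt (x := q)
  have hcw := continuousAt_Wq (G := G) y hM hD
  have hcw1 := continuousAt_W1q y hM hG hζ hD
  unfold Pq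
  refine ContinuousAt.prodMk ?_ ?_
  · rw [continuousAt_pi]
    intro a
    exact (continuousAt_const.mul hcz).add (continuousAt_const.mul hcw)
  · rw [continuousAt_pi]
    intro a
    exact (continuousAt_const.mul hc1).add (continuousAt_const.mul hcw1)

theorem cc_ne (m : Fin 3 → ℝ) {ω : ℂ} (hω : ω ^ 2 + ω + 1 = 0) :
    ∀ a b, a ≠ b → cc m ω a ≠ cc m ω b := by
  have hω0 : ω ≠ 0 := by
    rintro rfl
    simp at hω
  have hω1 : 1 + ω ≠ 0 := by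
    intro h0
    have : ω ^ 2 = 0 := by linear_combination hω - h0
    exact hω0 (pow_eq_zero_iff (two_ne_zero) |>.mp this)
  have key : ∀ a b : Fin 3, a < b → cc m ω a ≠ cc m ω b := by
    intro a b hab h
    fin_cases a <;> fin_cases b <;> simp [cc] at hab h
    · exact one_ne_zero (α := ℂ) (by linear_combination h)
    · apply hω1
      linear_combination h
    · apply hω0
      linear_combination h
  intro a b hab
  rcases lt_or_gt_of_ne hab with h | h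
  · exact key a b h
  · exact (key b a h).symm

end TbH

open TbH

theorem exists_init (m : Fin 3 → ℝ) (hm : ∀ a, 0 < m a) {ω : ℂ} (hω : ω ^ 2 + ω + 1 = 0)
    {S : Shape} {d : Fin 3 → ℂ} (h : Tri m ω S d) (z0 z10 : ℂ) (hz : z0 ≠ 0)
    (hG : 0 < Gz z0 z10) (he0 : epsf (Mt m) z0 z10 ≠ 0) (he1 : ‖epsf (Mt m) z0 z10‖ < 1)
    (y : ℂ × ℂ) (V : Set ((Fin 3 → ℂ) × (Fin 3 → ℂ))) (hV : IsOpen V)
    (hp : ((fun a => cc m ω a * z0, fun a => cc m ω a * z10) :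
      (Fin 3 → ℂ) × (Fin 3 → ℂ)) ∈ V) :
    ∃ a1 > 0, ∀ c : ℝ, 0 < c → c < a1 → ∃ p ∈ V ∩ frame m, ∃ τ : ℝ, 0 < τ ∧
      coord m (cc m ω) p.1 / (‖coord m (cc m ω) p.1‖ : ℂ) = z0 / (‖z0‖ : ℂ) ∧
      epsf (Mt m) (coord m (cc m ω) p.1) (coord m (cc m ω) p.2) = τ * epsf (Mt m) z0 z10 ∧
      coord m d p.1 / coord m (cc m ω) p.1 = c * y.1 ∧
      vf (coord m (cc m ω) p.1) (coord m (cc m ω) p.2) (coord m d p.1) (coord m d p.2) =
        c * y.2 ∧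
      Einv S (coord m (cc m ω) p.1) (coord m (cc m ω) p.2) (coord m d p.1) (coord m d p.2) =
        ‖epsf (Mt m) z0 z10‖ ^ 2 := by
  have hS := h.good
  have hMt : 0 < Mt m := Mt_pos hm
  have hMS : Mt m = S.M := h.hM.symm
  obtain ⟨hz0, hz10, hD0⟩ := zf_inv hMt hz hG
  rw [hMS] at hz0 hz10 hD0 he0 he1 ⊢
  have hM := hS.Mpos
  set G := Gz z0 z10 with hGdef
  set ε0 := epsf S.M z0 z10 with hε0
  set ζ := z0 / (‖z0‖ : ℂ) with hζdef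
  have hζ : ‖ζ‖ = 1 := by
    rw [hζdef, norm_div, Complex.norm_real, norm_norm, div_self (norm_ne_zero_iff.mpr hz)]
  have hD1 : Dq ε0 ζ (1, 0) = 1 + (conj ε0 * ζ).re := by simp [Dq]
  have hDpos : 0 < Dq ε0 ζ (1, 0) := by rw [hD1]; exact hD0
  have hn0 : 0 < ‖ε0‖ := norm_pos_iff.mpr he0
  -- the good neighbourhood
  have hP1 : Pq m ω d S.M G ε0 ζ y (1, 0) =
      (fun a => cc m ω a * z0, fun a => cc m ω a * z10) := by
    have e1 : Zq S.M G ε0 ζ (1, 0) = z0 := by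
      unfold Zq
      simp only [ofReal_one, one_mul]
      exact hz0
    have e2 : Z1q S.M G ε0 ζ (1, 0) = z10 := by
      unfold Z1q
      simp only [ofReal_one, one_mul]
      exact hz10
    unfold Pq
    rw [e1, e2]
    simp [Wq, W1q]
  have hbase : Pq m ω d S.M G ε0 ζ y (1, 0) ∈ V ∩ noColl := by
    rw [hP1]
    refine ⟨hp, ?_⟩
    intro a b hab
    exact fun h' => cc_ne m hω a b hab (mul_right_cancel₀ hz h')
  have hev1 : ∀ᶠ q in 𝓝 ((1, 0) : ℝ × ℝ), Pq m ω d S.M G ε0 ζ y q ∈ V ∩ noColl :=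
    (continuousAt_Pq m ω d y hM hG hζ hDpos).eventually_mem
      ((hV.inter isOpen_noColl).mem_nhds hbase)
  have hev2 : ∀ᶠ q in 𝓝 ((1, 0) : ℝ × ℝ), 0 < Dq ε0 ζ q :=
    (continuous_Dq ε0 ζ).continuousAt.eventually (lt_mem_nhds hDpos)
  have hev3 : ∀ᶠ q in 𝓝 ((1, 0) : ℝ × ℝ), ∀ k, 1 + S.δ k * ((q.2 : ℂ) * y.1) ≠ 0 := by
    rw [eventually_all]
    intro k
    have hc : ContinuousAt (fun q : ℝ × ℝ => 1 + S.δ k * ((q.2 : ℂ) * y.1)) (1, 0) := by fun_prop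
    refine hc.eventually_ne ?_
    simp
  have hev4 : ∀ᶠ q in 𝓝 ((1, 0) : ℝ × ℝ), 0 < q.1 :=
    continuous_fst.continuousAt.eventually (lt_mem_nhds (by norm_num : (0 : ℝ) < ((1, 0) : ℝ × ℝ).1))
  obtain ⟨r, hr, hball⟩ := Metric.eventually_nhds_iff.mp (hev1.and (hev2.and (hev3.and hev4)))
  have hgood : ∀ τ c : ℝ, |τ - 1| < r → |c| < r →
      Pq m ω d S.M G ε0 ζ y (τ, c) ∈ V ∩ noColl ∧ 0 < Dq ε0 ζ (τ, c) ∧
      (∀ k, 1 + S.δ k * ((c : ℂ) * y.1) ≠ 0) ∧ 0 < τ := by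
    intro τ c h1 h2
    have := hball (y := (τ, c)) (by
      rw [Prod.dist_eq, Real.dist_eq, Real.dist_eq]
      simpa using ⟨h1, h2⟩)
    exact this
  -- the function
  set H : ℝ × ℝ → ℝ := fun q => Einv S (Zq S.M G ε0 ζ q) (Z1q S.M G ε0 ζ q)
    (Wq S.M G ε0 ζ y q) (W1q S.M G ε0 ζ y q) with hH
  have hHc : ∀ τ c : ℝ, |τ - 1| < r → |c| < r → ContinuousAt H (τ, c) := by
    intro τ c h1 h2
    obtain ⟨-, g1, g2, -⟩ := hgood τ c h1 h2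
    exact continuousAt_Einv y hM hG hζ g1 g2
  have hH0 : ∀ τ : ℝ, |τ - 1| < r → H (τ, 0) = (τ * ‖ε0‖) ^ 2 := by
    intro τ h1
    obtain ⟨-, g1, -, -⟩ := hgood τ 0 h1 (by simpa using hr)
    exact Einv_zero y hS hG hζ g1
  obtain ⟨δ, hδ0, hδr, hδ1⟩ : ∃ δ : ℝ, 0 < δ ∧ δ < r ∧ δ < 1 :=
    ⟨min (r / 2) (1 / 2), by positivity, by
      have := min_le_left (r / 2) (1 / 2 : ℝ); linarith, by
      have := min_le_right (r / 2) (1 / 2 : ℝ); linarith⟩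
  have hm1 : |(1 - δ) - 1| < r := by
    rw [sub_sub_cancel_left, abs_neg, abs_of_pos hδ0]; exact hδr
  have hm2 : |(1 + δ) - 1| < r := by
    rw [add_sub_cancel_left, abs_of_pos hδ0]; exact hδr
  have hlow : H (1 - δ, 0) < ‖ε0‖ ^ 2 := by
    rw [hH0 _ hm1]
    have : (1 - δ) * ‖ε0‖ < ‖ε0‖ := by nlinarith
    have h0 : 0 ≤ (1 - δ) * ‖ε0‖ := mul_nonneg (by linarith) hn0.le
    exact pow_lt_pow_left₀ this h0 two_ne_zero
  have hhigh : ‖ε0‖ ^ 2 < H (1 + δ, 0) := by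
    rw [hH0 _ hm2]
    have : ‖ε0‖ < (1 + δ) * ‖ε0‖ := by nlinarith
    exact pow_lt_pow_left₀ this hn0.le two_ne_zero
  have hcont : ∀ τ : ℝ, ContinuousAt (fun c : ℝ => ((τ, c) : ℝ × ℝ)) 0 := by
    intro τ
    fun_prop
  have hlow' : ∀ᶠ c in 𝓝 (0 : ℝ), H (1 - δ, c) < ‖ε0‖ ^ 2 :=
    ((hHc (1 - δ) 0 hm1 (by simpa using hr)).comp (hcont (1 - δ))).eventually (gt_mem_nhds hlow)
  have hhigh' : ∀ᶠ c in 𝓝 (0 : ℝ), ‖ε0‖ ^ 2 < H (1 + δ, c) :=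
    ((hHc (1 + δ) 0 hm2 (by simpa using hr)).comp (hcont (1 + δ))).eventually (lt_mem_nhds hhigh)
  obtain ⟨r', hr', hball'⟩ := Metric.eventually_nhds_iff.mp (hlow'.and hhigh')
  refine ⟨min r r', by positivity, ?_⟩
  intro c hc0 hc1
  have hcr : |c| < r := by rw [abs_of_pos hc0]; exact hc1.trans_le (min_le_left _ _)
  have hcr' : dist c 0 < r' := by
    rw [Real.dist_eq, sub_zero, abs_of_pos hc0]; exact hc1.trans_le (min_le_right _ _)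
  obtain ⟨hl, hh⟩ := hball' hcr'
  have hivt : ‖ε0‖ ^ 2 ∈ (fun τ : ℝ => H (τ, c)) '' Icc (1 - δ) (1 + δ) := by
    refine intermediate_value_Icc (by linarith) ?_ ⟨hl.le, hh.le⟩
    intro τ hτ
    have hτ' : |τ - 1| < r := by
      rw [abs_lt]
      constructor <;> linarith [hτ.1, hτ.2]
    have hc' : ContinuousAt (fun τ : ℝ => ((τ, c) : ℝ × ℝ)) τ := by fun_prop
    exact (ContinuousAt.comp (f := fun τ : ℝ => ((τ, c) : ℝ × ℝ)) (g := H) (hHc τ c hτ' hcr)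
      hc').continuousWithinAt
  obtain ⟨τ, hτ, hτe⟩ := hivt
  have hτ' : |τ - 1| < r := by
    rw [abs_lt]
    constructor <;> linarith [hτ.1, hτ.2]
  obtain ⟨⟨hPV, hPn⟩, hDτ, hkτ, hτ0⟩ := hgood τ c hτ' hcr
  obtain ⟨c1, c2, c3⟩ := coords_of hm h (Zq S.M G ε0 ζ (τ, c)) (Wq S.M G ε0 ζ y (τ, c))
  obtain ⟨c4, c5, c6⟩ := coords_of hm h (Z1q S.M G ε0 ζ (τ, c)) (W1q S.M G ε0 ζ y (τ, c))
  refine ⟨Pq m ω d S.M G ε0 ζ y (τ, c), ⟨hPV, hPn, ?_, ?_⟩, τ, hτ0, ?_⟩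
  · exact c3
  · exact c6
  · have d1 : coord m (cc m ω) (Pq m ω d S.M G ε0 ζ y (τ, c)).1 = Zq S.M G ε0 ζ (τ, c) := c1
    have d2 : coord m d (Pq m ω d S.M G ε0 ζ y (τ, c)).1 = Wq S.M G ε0 ζ y (τ, c) := c2
    have d3 : coord m (cc m ω) (Pq m ω d S.M G ε0 ζ y (τ, c)).2 = Z1q S.M G ε0 ζ (τ, c) := c4
    have d4 : coord m d (Pq m ω d S.M G ε0 ζ y (τ, c)).2 = W1q S.M G ε0 ζ y (τ, c) := c5
    rw [d1, d2, d3, d4]
    refine ⟨?_, ?_, ?_, ?_, hτe⟩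
    · exact zf_dir hM hG hζ hDτ
    · exact epsf_zf hM hG hζ hDτ
    · exact Wq_div y hM hG hζ hDτ
    · exact vf_q y hM hG hζ hDτ

end Pool.Agent.MP_5027f4_ell
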