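import Pool.Agent.Lib_MP_5027f4_ell.GenD
import Pool.Agent.Lib_MP_5027f4_ell.RedA
import Pool.Agent.Lib_MP_5027f4_ell.RedB
import Pool.Agent.Lib_MP_5027f4_ell.RedC
import Pool.Agent.Lib_MP_5027f4_ell.TbA
import Pool.Agent.Lib_MP_5027f4_ell.TbB
import Pool.Agent.Lib_MP_5027f4_ell.TbC
import Pool.Agent.Lib_MP_5027f4_ell.TbD
import Pool.Agent.Lib_MP_5027f4_ell.TbE
import Pool.Agent.Lib_MP_5027f4_ell.TbF
import Pool.Agent.Lib_MP_5027f4_ell.TbG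
import Pool.Agent.Lib_MP_5027f4_ell.TbH

open Complex Set Filter Topology MeasureTheory
open scoped Real Matrix ComplexConjugate

namespace Pool.Agent.MP_5027f4_ell

open Pool.Agent.MP_5027f4_mp

namespace Mn

theorem coord_deriv (m : Fin 3 → ℝ) (c : Fin 3 → ℂ) {q : ℝ → Fin 3 → ℂ} {q' : Fin 3 → ℂ}
    {D : Set ℝ} {t : ℝ} (h : HasDerivWithinAt q q' D t) :
    HasDerivWithinAt (fun t => coord m c (q t)) (coord m c q') D t := by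
  have h1 := hasDerivWithinAt_pi.1 h
  unfold coord
  apply HasDerivWithinAt.div_const
  apply HasDerivWithinAt.fun_sum
  intro a _
  exact ((h1 a).const_mul _).const_mul _

theorem unit_exp (z : ℂ) (hz : z ≠ 0) : z / (‖z‖ : ℂ) = exp (arg z * I) := by
  have h := Complex.norm_mul_exp_arg_mul_I z
  have hn : (‖z‖ : ℂ) ≠ 0 := by exact_mod_cast norm_ne_zero_iff.2 hz
  rw [div_eq_iff hn, mul_comm, h]

theorem unit_norm (z : ℂ) (hz : z ≠ 0) : ‖z / (‖z‖ : ℂ)‖ = 1 := by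
  rw [norm_div, Complex.norm_real, norm_norm, div_self (norm_ne_zero_iff.2 hz)]

theorem Mt_pos {m : Fin 3 → ℝ} (hm : ∀ a, 0 < m a) : 0 < Mt m := by
  unfold Mt
  linarith [hm 0, hm 1, hm 2]

/-- The trajectory of the reduced system attached to a solution of the equations for the two
modes. -/
theorem traj_aux (S : Shape) (hM : 0 < S.M) (T : ℝ) (Z Z1 W W1 : ℝ → ℂ)
    (hz : ∀ t ∈ Icc 0 T, HasDerivWithinAt Z (Z1 t) (Icc 0 T) t)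
    (hz1 : ∀ t ∈ Icc 0 T, HasDerivWithinAt Z1
      (Z t / ((‖Z t‖ ^ 3 : ℝ) : ℂ) * F1 S (W t / Z t)) (Icc 0 T) t)
    (hw : ∀ t ∈ Icc 0 T, HasDerivWithinAt W (W1 t) (Icc 0 T) t)
    (hw1 : ∀ t ∈ Icc 0 T, HasDerivWithinAt W1
      (Z t / ((‖Z t‖ ^ 3 : ℝ) : ℂ) * F2 S (W t / Z t)) (Icc 0 T) t)
    (hZ : ∀ t ∈ Icc 0 T, Z t ≠ 0) (hG : ∀ t ∈ Icc 0 T, 0 < Gz (Z t) (Z1 t)) :
    RedTraj S T (fun t => epsf S.M (Z t) (Z1 t)) (fun t => Z t / (‖Z t‖ : ℂ))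
      (fun t => W t / Z t) (fun t => vf (Z t) (Z1 t) (W t) (W1 t))
      (fun t => kapf (Z t) (Z1 t)) where
  cont := by
    have c1 : ContinuousOn Z (Icc 0 T) := fun t ht => (hz t ht).continuousWithinAt
    have c2 : ContinuousOn Z1 (Icc 0 T) := fun t ht => (hz1 t ht).continuousWithinAt
    unfold kapf Gz
    refine ContinuousOn.div ?_ (c1.norm.pow 2) ?_
    · exact Complex.continuous_im.comp_continuousOn
        ((Complex.continuous_conj.comp_continuousOn c1).mul c2)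
    · intro t ht
      exact pow_ne_zero 2 (norm_ne_zero_iff.2 (hZ t ht))
  norm := fun t ht => unit_norm _ (hZ t ht)
  den := by
    intro t ht
    have h := (epsf_identity S.M hM (Z t) (Z1 t) (hZ t ht)).1
    have hg : 0 < Gz (Z t) (Z1 t) ^ 2 := pow_pos (hG t ht) 2
    rw [← h] at hg
    exact (mul_pos_iff_of_pos_left (mul_pos hM (norm_pos_iff.2 (hZ t ht)))).1 hg
  dζ := fun t ht => (red_deriv S hM Z Z1 W W1 (Icc 0 T) t (hz t ht) (hz1 t ht) (hw t ht)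
    (hw1 t ht) (hZ t ht) (hG t ht)).1
  dε := fun t ht => (red_deriv S hM Z Z1 W W1 (Icc 0 T) t (hz t ht) (hz1 t ht) (hw t ht)
    (hw1 t ht) (hZ t ht) (hG t ht)).2.1
  du := fun t ht => (red_deriv S hM Z Z1 W W1 (Icc 0 T) t (hz t ht) (hz1 t ht) (hw t ht)
    (hw1 t ht) (hZ t ht) (hG t ht)).2.2.1
  dv := fun t ht => (red_deriv S hM Z Z1 W W1 (Icc 0 T) t (hz t ht) (hz1 t ht) (hw t ht)
    (hw1 t ht) (hZ t ht) (hG t ht)).2.2.2

theorem einv_aux (S : Shape) (hM : 0 < S.M) (T : ℝ) (Z Z1 W W1 : ℝ → ℂ)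
    (hz : ∀ t ∈ Icc 0 T, HasDerivWithinAt Z (Z1 t) (Icc 0 T) t)
    (hz1 : ∀ t ∈ Icc 0 T, HasDerivWithinAt Z1
      (Z t / ((‖Z t‖ ^ 3 : ℝ) : ℂ) * F1 S (W t / Z t)) (Icc 0 T) t)
    (hw : ∀ t ∈ Icc 0 T, HasDerivWithinAt W (W1 t) (Icc 0 T) t)
    (hw1 : ∀ t ∈ Icc 0 T, HasDerivWithinAt W1
      (Z t / ((‖Z t‖ ^ 3 : ℝ) : ℂ) * F2 S (W t / Z t)) (Icc 0 T) t)
    (hZ : ∀ t ∈ Icc 0 T, Z t ≠ 0)
    (hcol : ∀ t ∈ Icc 0 T, ∀ k, 1 + S.δ k * (W t / Z t) ≠ 0) :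
    ∀ t ∈ Icc 0 T, Einv S (Z t) (Z1 t) (W t) (W1 t) = Einv S (Z 0) (Z1 0) (W 0) (W1 0) := by
  intro t ht
  have hder : ∀ t ∈ Icc 0 T, HasDerivWithinAt (fun t => Einv S (Z t) (Z1 t) (W t) (W1 t)) 0
      (Icc 0 T) t := fun t ht => Einv_deriv S hM Z Z1 W W1 (Icc 0 T) t (hz t ht) (hz1 t ht)
        (hw t ht) (hw1 t ht) (hZ t ht) (hcol t ht)
  have h0 : (0 : ℝ) ∈ Icc 0 T := ⟨le_refl _, ht.1.trans ht.2⟩
  have h := (convex_Icc (0 : ℝ) T).norm_image_sub_le_of_norm_hasDerivWithin_le (C := 0) hder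
    (fun _ _ => by simp) h0 ht
  rw [zero_mul] at h
  exact sub_eq_zero.mp (norm_le_zero_iff.mp h)

theorem col_aux {m : Fin 3 → ℝ} {ω : ℂ} {S : Shape} {d : Fin 3 → ℂ} (hT : Tri m ω S d)
    (Z W : ℂ) (hZ : Z ≠ 0)
    (hne : ∀ a b, a ≠ b → cc m ω a * Z + d a * W ≠ cc m ω b * Z + d b * W) (k : Fin 3) :
    1 + S.δ k * (W / Z) ≠ 0 := by
  have key : ∀ (a b : Fin 3) (k : Fin 3), a ≠ b →
      d a - d b = S.δ k * (cc m ω a - cc m ω b) → 1 + S.δ k * (W / Z) ≠ 0 := by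
    intro a b k hab hd h0
    apply hne a b hab
    have h3 : Z + S.δ k * W = 0 := by
      have h5 : Z + S.δ k * W = Z * (1 + S.δ k * (W / Z)) := by
        field_simp
      rw [h5, h0, mul_zero]
    have h4 : cc m ω a * Z + d a * W - (cc m ω b * Z + d b * W) =
        (cc m ω a - cc m ω b) * (Z + S.δ k * W) := by
      have h6 : d a = d b + S.δ k * (cc m ω a - cc m ω b) := by rw [← hd]; ring
      rw [h6]
      ring
    rw [h3, mul_zero] at h4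
    exact sub_eq_zero.1 h4
  fin_cases k
  · exact key 0 1 0 (by decide) hT.d0
  · exact key 1 2 1 (by decide) hT.d1
  · exact key 2 0 2 (by decide) hT.d2

/-- The trajectory of the reduced system associated with a solution of the three-body problem
staying in `Ub`. -/
theorem traj (m : Fin 3 → ℝ) (hm : ∀ a, 0 < m a) {ω : ℂ} (hω : ω ^ 2 + ω + 1 = 0)
    {S : Shape} {d : Fin 3 → ℂ} (hT : Tri m ω S d) (T : ℝ)
    (yy : ℝ → (Fin 3 → ℂ) × (Fin 3 → ℂ)) (hy : IsSolution m (Icc 0 T) yy)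
    (Z Z1 W W1 : ℝ → ℂ)
    (eZ : ∀ t, Z t = coord m (cc m ω) (yy t).1) (eZ1 : ∀ t, Z1 t = coord m (cc m ω) (yy t).2)
    (eW : ∀ t, W t = coord m d (yy t).1) (eW1 : ∀ t, W1 t = coord m d (yy t).2)
    (hZ : ∀ t ∈ Icc 0 T, Z t ≠ 0)
    (hG : ∀ t ∈ Icc 0 T, 0 < Gz (Z t) (Z1 t)) :
    RedTraj S T (fun t => epsf (Mt m) (Z t) (Z1 t)) (fun t => Z t / (‖Z t‖ : ℂ))
      (fun t => W t / Z t) (fun t => vf (Z t) (Z1 t) (W t) (W1 t))
      (fun t => kapf (Z t) (Z1 t)) ∧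
    ∀ t ∈ Icc 0 T, Einv S (Z t) (Z1 t) (W t) (W1 t) = Einv S (Z 0) (Z1 0) (W 0) (W1 0) := by
  have hM : 0 < S.M := by rw [hT.hM]; exact Mt_pos hm
  have hq : ∀ t ∈ Icc 0 T, (yy t).1 = fun a => cc m ω a * Z t + d a * W t := by
    intro t ht
    funext a
    rw [eZ, eW]
    exact coords_eq hm hT _ (hy t ht).1.2.1 a
  have h1 : ∀ t ∈ Icc 0 T, HasDerivWithinAt (fun t => (yy t).1) (yy t).2 (Icc 0 T) t := by
    intro t ht
    exact (hasFDerivAt_fst (𝕜 := ℝ) (p := yy t)).comp_hasDerivWithinAt t (hy t ht).2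
  have h2 : ∀ t ∈ Icc 0 T, HasDerivWithinAt (fun t => (yy t).2) (acc m (yy t).1) (Icc 0 T) t := by
    intro t ht
    exact (hasFDerivAt_snd (𝕜 := ℝ) (p := yy t)).comp_hasDerivWithinAt t (hy t ht).2
  have hz : ∀ t ∈ Icc 0 T, HasDerivWithinAt Z (Z1 t) (Icc 0 T) t := by
    intro t ht
    rw [eZ1]
    exact (coord_deriv m (cc m ω) (h1 t ht)).congr (fun s _ => eZ s) (eZ t)
  have hw : ∀ t ∈ Icc 0 T, HasDerivWithinAt W (W1 t) (Icc 0 T) t := by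
    intro t ht
    rw [eW1]
    exact (coord_deriv m d (h1 t ht)).congr (fun s _ => eW s) (eW t)
  have hz1 : ∀ t ∈ Icc 0 T, HasDerivWithinAt Z1
      (Z t / ((‖Z t‖ ^ 3 : ℝ) : ℂ) * F1 S (W t / Z t)) (Icc 0 T) t := by
    intro t ht
    rw [← (coord_acc hm hω hT (Z t) (W t) (hZ t ht)).1, ← hq t ht]
    exact (coord_deriv m (cc m ω) (h2 t ht)).congr (fun s _ => eZ1 s) (eZ1 t)
  have hw1 : ∀ t ∈ Icc 0 T, HasDerivWithinAt W1
      (Z t / ((‖Z t‖ ^ 3 : ℝ) : ℂ) * F2 S (W t / Z t)) (Icc 0 T) t := by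
    intro t ht
    rw [← (coord_acc hm hω hT (Z t) (W t) (hZ t ht)).2, ← hq t ht]
    exact (coord_deriv m d (h2 t ht)).congr (fun s _ => eW1 s) (eW1 t)
  have hcol : ∀ t ∈ Icc 0 T, ∀ k, 1 + S.δ k * (W t / Z t) ≠ 0 := by
    intro t ht
    apply col_aux hT (Z t) (W t) (hZ t ht)
    intro a b hab h
    apply (hy t ht).1.1 a b hab
    rw [hq t ht]
    exact h
  constructor
  · rw [← hT.hM]
    exact traj_aux S hM T Z Z1 W W1 hz hz1 hw hw1 hZ hG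
  · exact einv_aux S hM T Z Z1 W W1 hz hz1 hw hw1 hZ hcol

theorem core (m : Fin 3 → ℝ) (hm : ∀ a, 0 < m a) {ω : ℂ} (hω : ω ^ 2 + ω + 1 = 0)
    {S : Shape} {d : Fin 3 → ℂ} (hT : Tri m ω S d)
    (x : ℝ → (Fin 3 → ℂ) × (Fin 3 → ℂ)) (z z1 : ℝ → ℂ) (hz : ∀ t, z t ≠ 0)
    (hx : ∀ t a, (x t).1 a = cc m ω a * z t ∧ (x t).2 a = cc m ω a * z1 t)
    (hG : ∀ t, Gz (z t) (z1 t) = Gz (z 0) (z1 0)) (hG0 : 0 < Gz (z 0) (z1 0))
    (hE : ∀ t, epsf (Mt m) (z t) (z1 t) = epsf (Mt m) (z 0) (z1 0))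
    (he0 : epsf (Mt m) (z 0) (z1 0) ≠ 0) (he1 : ‖epsf (Mt m) (z 0) (z1 0)‖ < 1)
    (hU : ∀ C1 > 0, Unst S ‖epsf (Mt m) (z 0) (z1 0)‖ C1)
    (hst : LyapunovStable m (range x)) : False := by
  obtain ⟨ε0, hε0⟩ : ∃ ε0, ε0 = epsf (Mt m) (z 0) (z1 0) := ⟨_, rfl⟩
  rw [← hε0] at hE he0 he1 hU
  obtain ⟨G0, hG0'⟩ : ∃ G0, G0 = Gz (z 0) (z1 0) := ⟨_, rfl⟩
  rw [← hG0'] at hG hG0
  have hepos : 0 < ‖ε0‖ := norm_pos_iff.2 he0
  obtain ⟨C1, hC1, ρa, hρa, hEB⟩ := eps_bound S hT.good ((1 + ‖ε0‖) / 2) (by linarith)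
  obtain ⟨y, ρb, hρb, a0, ha0, hUn⟩ := hU C1 hC1
  obtain ⟨ρ1, hρ1, hUc⟩ := Ub_compact m hm hω hT ε0 he0 he1 G0 hG0
  obtain ⟨ρ, hρ0, hρ1', hρa', hρb', hρe⟩ : ∃ ρ : ℝ, 0 < ρ ∧ ρ ≤ ρ1 ∧ ρ ≤ ρa ∧ ρ ≤ ρb ∧
      ρ ≤ (1 - ‖ε0‖) / 2 := by
    refine ⟨min ρ1 (min ρa (min ρb ((1 - ‖ε0‖) / 2))), ?_, min_le_left _ _,
      (min_le_right _ _).trans (min_le_left _ _),
      (min_le_right _ _).trans ((min_le_right _ _).trans (min_le_left _ _)),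
      (min_le_right _ _).trans ((min_le_right _ _).trans (min_le_right _ _))⟩
    refine lt_min hρ1 (lt_min hρa (lt_min hρb (by linarith)))
  obtain ⟨hUo, K, hK, hKn, hUK, κ0, hκ0, hκ⟩ := hUc ρ hρ0 hρ1'
  -- coordinates of x
  have hxc : ∀ t, coord m (cc m ω) (x t).1 = z t ∧ coord m d (x t).1 = 0 ∧
      coord m (cc m ω) (x t).2 = z1 t ∧ coord m d (x t).2 = 0 := by
    intro t
    have e1 : (x t).1 = fun a => cc m ω a * z t + d a * 0 := by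
      funext a
      rw [(hx t a).1, mul_zero, add_zero]
    have e2 : (x t).2 = fun a => cc m ω a * z1 t + d a * 0 := by
      funext a
      rw [(hx t a).2, mul_zero, add_zero]
    have k1 := coords_of hm hT (z t) 0
    have k2 := coords_of hm hT (z1 t) 0
    rw [← e1] at k1
    rw [← e2] at k2
    exact ⟨k1.1, k1.2.1, k2.1, k2.2.1⟩
  have hxU : range x ⊆ Ub m ω d ε0 G0 ρ := by
    rintro _ ⟨t, rfl⟩
    obtain ⟨k1, k2, k3, k4⟩ := hxc t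
    refine ⟨?_, ?_, ?_, ?_, ?_, ?_⟩
    · rw [k1]; exact hz t
    · rw [k1, k3, hG t]; linarith
    · rw [k1, k3, hG t]; linarith
    · rw [k1, k2, zero_div, norm_zero]; exact hρ0
    · rw [k1, k2, k3, k4]
      simp [vf, hρ0]
    · rw [k1, k3, hE t, div_self he0, sub_self, norm_zero]; exact hρ0
  obtain ⟨V, hVo, hγV, hV⟩ := stays m (range x) hst (Ub m ω d ε0 G0 ρ) hUo hxU K hK hKn hUK
  have hp : ((fun a => cc m ω a * z 0, fun a => cc m ω a * z1 0) :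
      (Fin 3 → ℂ) × (Fin 3 → ℂ)) ∈ V := by
    apply hγV
    refine ⟨0, ?_⟩
    refine Prod.ext ?_ ?_
    · funext a; exact (hx 0 a).1
    · funext a; exact (hx 0 a).2
  obtain ⟨a1, ha1, hI⟩ := exists_init m hm hω hT (z 0) (z1 0) (hz 0) (by rw [← hG0']; exact hG0)
    (by rw [← hε0]; exact he0) (by rw [← hε0]; exact he1) (y (arg (z 0) - arg ε0)) V hVo hp
  rw [← hε0] at hI
  obtain ⟨c, hc0, hca, hcb⟩ : ∃ c : ℝ, 0 < c ∧ c < a0 ∧ c < a1 := by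
    refine ⟨min a0 a1 / 2, by positivity, ?_, ?_⟩
    · have := min_le_left a0 a1
      have h0 : 0 < min a0 a1 := lt_min ha0 ha1
      linarith
    · have := min_le_right a0 a1
      have h0 : 0 < min a0 a1 := lt_min ha0 ha1
      linarith
  obtain ⟨p, hpV, τ, hτ, q1, q2, q3, q4, q5⟩ := hI c hc0 hcb
  obtain ⟨T, hT0, hUn'⟩ := hUn c κ0 (arg (z 0)) ε0 hc0 hca hκ0 rfl
  obtain ⟨yy, hy0, hys, hyU⟩ := hV p hpV T hT0
  obtain ⟨Z, eZ⟩ : ∃ Z : ℝ → ℂ, ∀ t, Z t = coord m (cc m ω) (yy t).1 := ⟨_, fun t => rfl⟩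
  obtain ⟨Z1, eZ1⟩ : ∃ Z : ℝ → ℂ, ∀ t, Z t = coord m (cc m ω) (yy t).2 := ⟨_, fun t => rfl⟩
  obtain ⟨W, eW⟩ : ∃ Z : ℝ → ℂ, ∀ t, Z t = coord m d (yy t).1 := ⟨_, fun t => rfl⟩
  obtain ⟨W1, eW1⟩ : ∃ Z : ℝ → ℂ, ∀ t, Z t = coord m d (yy t).2 := ⟨_, fun t => rfl⟩
  have hB : ∀ t ∈ Icc 0 T, Z t ≠ 0 ∧ G0 / 2 < Gz (Z t) (Z1 t) ∧ Gz (Z t) (Z1 t) < 2 * G0 ∧
      ‖W t / Z t‖ < ρ ∧ ‖vf (Z t) (Z1 t) (W t) (W1 t)‖ < ρ ∧
      ‖epsf (Mt m) (Z t) (Z1 t) / ε0 - 1‖ < ρ ∧ κ0 ≤ kapf (Z t) (Z1 t) := by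
    intro t ht
    obtain ⟨b1, b2, b3, b4, b5, b6⟩ := hyU t ht
    rw [eZ, eZ1, eW, eW1]
    exact ⟨b1, b2, b3, b4, b5, b6, hκ _ (hyU t ht)⟩
  have hZ : ∀ t ∈ Icc 0 T, Z t ≠ 0 := fun t ht => (hB t ht).1
  have hGy : ∀ t ∈ Icc 0 T, 0 < Gz (Z t) (Z1 t) := by
    intro t ht
    have := (hB t ht).2.1
    linarith
  obtain ⟨hRT, hEi⟩ := traj m hm hω hT T yy hys Z Z1 W W1 eZ eZ1 eW eW1 hZ hGy
  rw [← hy0, ← eZ, ← eZ1] at q2
  rw [← hy0, ← eZ] at q1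
  rw [← hy0, ← eZ, ← eW] at q3
  rw [← hy0, ← eZ, ← eZ1, ← eW, ← eW1] at q4 q5
  refine hUn' τ _ _ _ _ _ hτ hRT ?_ q2 q3 q4 ?_
  · show Z 0 / (‖Z 0‖ : ℂ) = _
    rw [q1]
    exact unit_exp _ (hz 0)
  · intro t ht
    obtain ⟨b1, b2, b3, b4, b5, b6, b7⟩ := hB t ht
    refine ⟨b7, b4.le.trans hρb', b5.le.trans hρb', b6.le.trans hρb', ?_⟩
    have hne : ‖epsf (Mt m) (Z t) (Z1 t)‖ ≤ (1 + ‖ε0‖) / 2 := by
      have e1 : epsf (Mt m) (Z t) (Z1 t) = ε0 + ε0 * (epsf (Mt m) (Z t) (Z1 t) / ε0 - 1) := by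
        field_simp
        ring
      calc ‖epsf (Mt m) (Z t) (Z1 t)‖
          = ‖ε0 + ε0 * (epsf (Mt m) (Z t) (Z1 t) / ε0 - 1)‖ := by rw [← e1]
        _ ≤ ‖ε0‖ + ‖ε0‖ * ρ := by
            refine (norm_add_le _ _).trans ?_
            rw [norm_mul]
            gcongr
        _ ≤ (1 + ‖ε0‖) / 2 := by
            have : ‖ε0‖ * ρ ≤ 1 * ((1 - ‖ε0‖) / 2) :=
              mul_le_mul he1.le hρe hρ0.le zero_le_one
            linarith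
    have h := hEB _ _ _ _ b1 (hGy t ht) (b4.le.trans hρa') (b5.le.trans hρa')
      (by rw [hT.hM]; exact hne)
    rw [hEi t ht, hT.hM, q5] at h
    exact h

theorem sm_lt_one {m : Fin 3 → ℝ} (hm : ∀ a, 0 < m a) : sm m < 1 := by
  unfold sm
  rw [Real.sqrt_lt' one_pos]
  have h1 : 0 < sg m := by
    unfold sg
    have := mul_pos (hm 0) (hm 1)
    have := mul_pos (hm 1) (hm 2)
    have := mul_pos (hm 2) (hm 0)
    linarith
  have h2 : 0 < 3 * sg m / Mt m ^ 2 := div_pos (by linarith) (pow_pos (Mt_pos hm) 2)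
  linarith

theorem case_pos (m : Fin 3 → ℝ) (hm : ∀ a, 0 < m a) (D : Set ℝ)
    (hD : ∀ e : ℝ, 0 < e → e < 1 → e ∉ D →
      ∀ S : Shape, S.Good → S.s = sm m → ∀ C1 > 0, Unst S e C1)
    {ω : ℂ} (hω : ω ^ 2 + ω + 1 = 0)
    (x : ℝ → (Fin 3 → ℂ) × (Fin 3 → ℂ)) (z z1 : ℝ → ℂ)
    (hz : ∀ t, z t ≠ 0 ∧ HasDerivAt z (z1 t) t ∧
      HasDerivAt z1 (-(Mt m : ℂ) * z t / ((‖z t‖ ^ 3 : ℝ) : ℂ)) t)
    (hx : ∀ t a, (x t).1 a = cc m ω a * z t ∧ (x t).2 a = cc m ω a * z1 t)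
    (l1 l2 : ℝ) (h1 : IsLeast (range fun t => ‖z t‖) l1)
    (h2 : IsGreatest (range fun t => ‖z t‖) l2) (h12 : l1 < l2) (he : (l2 - l1) / (l2 + l1) ∉ D)
    (hG : 0 < Gz (z 0) (z1 0)) (hst : LyapunovStable m (range x)) : False := by
  obtain ⟨S, d, hT⟩ := exists_shape m hm ω hω
  obtain ⟨kG, kG0, kE, ke⟩ := kepler_ecc (Mt m) (Mt_pos hm) z z1 hz l1 l2 h1 h2 h12
  have hl1 : 0 < l1 := by
    obtain ⟨⟨t, ht⟩, -⟩ := h1
    rw [← ht]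
    exact norm_pos_iff.2 (hz t).1
  have hl2 : 0 < l2 + l1 := by linarith
  have hpos : 0 < (l2 - l1) / (l2 + l1) := div_pos (by linarith) hl2
  have hlt : (l2 - l1) / (l2 + l1) < 1 := by
    rw [div_lt_one hl2]
    linarith
  refine core m hm hω hT x z z1 (fun t => (hz t).1) hx kG hG kE ?_ ?_ ?_ hst
  · rw [← norm_pos_iff, ke]; exact hpos
  · rw [ke]; exact hlt
  · rw [ke]
    exact hD _ hpos hlt he S hT.good hT.hs

theorem cc_conj (m : Fin 3 → ℝ) (ω : ℂ) (a : Fin 3) : cc m (conj ω) a = conj (cc m ω a) := by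
  fin_cases a <;> simp [cc]

theorem deriv_conj {z : ℝ → ℂ} {z' : ℂ} {t : ℝ} (h : HasDerivAt z z' t) :
    HasDerivAt (fun t => conj (z t)) (conj z') t := by
  have := (Complex.conjCLE.toContinuousLinearMap.hasFDerivAt (x := z t)).comp_hasDerivAt t h
  exact this

theorem main (m : Fin 3 → ℝ) (hm : ∀ a, 0 < m a) :
    ∃ D : Set ℝ, (∀ δ > 0, (D ∩ Icc 0 (1 - δ)).Finite) ∧
      ∀ x : ℝ → (Fin 3 → ℂ) × (Fin 3 → ℂ), IsSolution m univ x →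
        (∀ t, ‖(x t).1 0 - (x t).1 1‖ = ‖(x t).1 1 - (x t).1 2‖ ∧
          ‖(x t).1 1 - (x t).1 2‖ = ‖(x t).1 2 - (x t).1 0‖) →
        ∀ l1 l2 : ℝ, IsLeast (range fun t => ‖(x t).1 0 - (x t).1 1‖) l1 →
          IsGreatest (range fun t => ‖(x t).1 0 - (x t).1 1‖) l2 → l1 < l2 →
          (l2 - l1) / (l2 + l1) ∉ D → ¬ LyapunovStable m (range x) := by
  obtain ⟨D, hDf, hD⟩ := unst_main (sm m) (Real.sqrt_nonneg _) (sm_lt_one hm)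
  refine ⟨D, hDf, ?_⟩
  intro x hxs heq l1 l2 h1 h2 h12 he hst
  obtain ⟨ω, hω, z, z1, hz⟩ := equilateral_rep m hm x hxs heq
  have hnorm : ∀ t, ‖(x t).1 0 - (x t).1 1‖ = ‖z t‖ := by
    intro t
    rw [((hz t).2.2.2 0).1, ((hz t).2.2.2 1).1]
    have : cc m ω 0 * z t - cc m ω 1 * z t = z t := by
      simp only [cc, Matrix.cons_val_zero, Matrix.cons_val_one]
      ring
    rw [this]
  simp only [hnorm] at h1 h2
  have hz' : ∀ t, z t ≠ 0 ∧ HasDerivAt z (z1 t) t ∧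
      HasDerivAt z1 (-(Mt m : ℂ) * z t / ((‖z t‖ ^ 3 : ℝ) : ℂ)) t :=
    fun t => ⟨(hz t).1, (hz t).2.1, (hz t).2.2.1⟩
  have hG0 := (kepler_ecc (Mt m) (Mt_pos hm) z z1 hz' l1 l2 h1 h2 h12).2.1
  rcases lt_or_gt_of_ne hG0 with hneg | hpos
  · obtain ⟨hms, hmst⟩ := mirror_stable m x hxs hst
    have hω' : (conj ω) ^ 2 + conj ω + 1 = 0 := by
      have := congrArg conj hω
      simpa using this
    refine case_pos m hm D hD hω'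
      (fun t => ((fun a => conj ((x t).1 a), fun a => conj ((x t).2 a)) :
        (Fin 3 → ℂ) × (Fin 3 → ℂ))) (fun t => conj (z t)) (fun t => conj (z1 t)) ?_ ?_
      l1 l2 ?_ ?_ h12 he ?_ hmst
    · intro t
      refine ⟨(map_ne_zero _).2 (hz t).1, deriv_conj (hz t).2.1, ?_⟩
      have := deriv_conj (hz t).2.2.1
      simp only [map_div₀, map_mul, map_neg, Complex.conj_ofReal] at this
      simpa only [Complex.norm_conj] using this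
    · intro t a
      refine ⟨?_, ?_⟩
      · show conj ((x t).1 a) = _
        rw [((hz t).2.2.2 a).1, cc_conj, map_mul]
      · show conj ((x t).2 a) = _
        rw [((hz t).2.2.2 a).2, cc_conj, map_mul]
    · simpa only [Complex.norm_conj] using h1
    · simpa only [Complex.norm_conj] using h2
    · have : Gz (conj (z 0)) (conj (z1 0)) = -Gz (z 0) (z1 0) := by
        unfold Gz
        rw [← map_mul, Complex.conj_im]
      rw [this]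
      linarith
  · exact case_pos m hm D hD hω x z z1 hz' (fun t a => (hz t).2.2.2 a) l1 l2 h1 h2 h12 he hpos hst

end Mn

end Pool.Agent.MP_5027f4_ell
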