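import Pool.Agent.Lib_MP_5027f4_ell.Defs

/-!
# Bounded primitives of quasi-periodic functions
-/

open Complex Set Filter Topology MeasureTheory
open scoped Real ComplexConjugate

namespace Pool.Agent.MP_5027f4_ell

theorem bdd_primitive (c : ℝ → ℂ) (hc : Continuous c) (l : ℂ) (hl : ‖l‖ = 1)
    (hper : ∀ θ, c (θ + 2 * π) = l * c θ)
    (h : l ≠ 1 ∨ ∫ θ in (0 : ℝ)..(2 * π), c θ = 0) :
    ∃ C > 0, ∀ θ, ‖∫ t in (0 : ℝ)..θ, c t‖ ≤ C := by
  set F : ℝ → ℂ := fun θ => ∫ t in (0 : ℝ)..θ, c t with hF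
  have hint : ∀ u v : ℝ, IntervalIntegrable c volume u v := fun u v => hc.intervalIntegrable u v
  have hcont : Continuous F := by
    rw [hF]
    exact intervalIntegral.continuous_primitive hint 0
  have h1 : ∀ θ, F (θ + 2 * π) = F (2 * π) + l * F θ := by
    intro θ
    have e1 : F (θ + 2 * π) = F (2 * π) + ∫ t in (2 * π)..(θ + 2 * π), c t :=
      (intervalIntegral.integral_add_adjacent_intervals (hint _ _) (hint _ _)).symm
    have e2 : ∫ t in (0 : ℝ)..θ, c (t + 2 * π) = ∫ t in (2 * π)..(θ + 2 * π), c t := by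

      simp
    rw [e1, ← e2]
    simp only [hper]
    rw [intervalIntegral.integral_const_mul]
  obtain ⟨z, hz⟩ : ∃ z : ℂ, ∀ θ, ‖F (θ + 2 * π) - z‖ = ‖F θ - z‖ := by
    by_cases h2 : l = 1
    · refine ⟨0, fun θ => ?_⟩
      have h3 : F (2 * π) = 0 := h.resolve_left fun h => h h2
      rw [h1, h3, h2]
      simp
    · refine ⟨F (2 * π) / (1 - l), fun θ => ?_⟩
      have h3 : (1 - l) ≠ 0 := sub_ne_zero.mpr (Ne.symm h2)
      have h4 : F (θ + 2 * π) - F (2 * π) / (1 - l) = l * (F θ - F (2 * π) / (1 - l)) := by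
        rw [h1]
        field_simp
        ring
      rw [h4, norm_mul, hl, one_mul]
  have hb := Function.Periodic.isBounded_of_continuous (f := fun θ => ‖F θ - z‖) (c := 2 * π)
      (fun θ => hz θ) (by positivity) (by fun_prop)
  obtain ⟨K, hK⟩ := hb.exists_norm_le
  have h5 : ∀ θ, ‖F θ - z‖ ≤ K := fun θ => (le_abs_self _).trans (hK _ ⟨θ, rfl⟩)
  have hK0 : 0 ≤ K := (norm_nonneg _).trans (h5 0)
  refine ⟨K + ‖z‖ + 1, by positivity, fun θ => ?_⟩
  calc ‖F θ‖ = ‖(F θ - z) + z‖ := by rw [sub_add_cancel]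
    _ ≤ ‖F θ - z‖ + ‖z‖ := norm_add_le _ _
    _ ≤ K + ‖z‖ + 1 := by linarith [h5 θ]

end Pool.Agent.MP_5027f4_ell
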