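import Pool.Agent.Lib_MP_5027f4_ell.Defs

/-!
# The mirror image of a solution and of a Lyapunov stable orbit
-/

open Complex Set Filter Topology MeasureTheory Polynomial
open scoped Real Matrix ComplexConjugate

namespace Pool.Agent.MP_5027f4_ell

open Pool.Agent.MP_5027f4_mp

/-- Complex conjugation of the three components. -/
noncomputable def conjT : (Fin 3 → ℂ) →L[ℝ] (Fin 3 → ℂ) :=
  ContinuousLinearMap.pi fun a =>
    (Complex.conjCLE : ℂ →L[ℝ] ℂ).comp (ContinuousLinearMap.proj (R := ℝ) a)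

/-- Complex conjugation of a phase point. -/
noncomputable def conjL : ((Fin 3 → ℂ) × (Fin 3 → ℂ)) →L[ℝ] ((Fin 3 → ℂ) × (Fin 3 → ℂ)) :=
  conjT.prodMap conjT

theorem conjL_apply (x : (Fin 3 → ℂ) × (Fin 3 → ℂ)) :
    conjL x = (fun a => conj (x.1 a), fun a => conj (x.2 a)) := by
  ext a <;> simp [conjL, conjT]

theorem conjL_conjL (x : (Fin 3 → ℂ) × (Fin 3 → ℂ)) : conjL (conjL x) = x := by
  rw [conjL_apply, conjL_apply]
  ext a <;> simp

theorem acc_conj (m : Fin 3 → ℝ) (q : Fin 3 → ℂ) (a : Fin 3) :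
    acc m (fun a => conj (q a)) a = conj (acc m q a) := by
  unfold acc
  rw [map_sum]
  apply Finset.sum_congr rfl
  intro b _
  rw [← map_sub, Complex.norm_conj, Complex.real_smul, Complex.real_smul, map_mul,
    Complex.conj_ofReal]

theorem conjL_mem_frame {m : Fin 3 → ℝ} {x : (Fin 3 → ℂ) × (Fin 3 → ℂ)} (hx : x ∈ frame m) :
    conjL x ∈ frame m := by
  rw [conjL_apply]
  obtain ⟨h1, h2, h3⟩ := hx
  refine ⟨fun a b hab h => h1 a b hab ?_, ?_, ?_⟩
  · exact (starRingEnd ℂ).injective h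
  · have h4 := congrArg conj h2
    rw [map_sum, map_zero] at h4
    rw [← h4]
    apply Finset.sum_congr rfl
    intro a _
    rw [Complex.real_smul, Complex.real_smul, map_mul, Complex.conj_ofReal]
  · have h4 := congrArg conj h3
    rw [map_sum, map_zero] at h4
    rw [← h4]
    apply Finset.sum_congr rfl
    intro a _
    rw [Complex.real_smul, Complex.real_smul, map_mul, Complex.conj_ofReal]

theorem conjL_solution {m : Fin 3 → ℝ} {s : Set ℝ} {x : ℝ → (Fin 3 → ℂ) × (Fin 3 → ℂ)}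
    (hx : IsSolution m s x) : IsSolution m s (fun t => conjL (x t)) := by
  intro t ht
  obtain ⟨h1, h2⟩ := hx t ht
  refine ⟨conjL_mem_frame h1, ?_⟩
  have h3 := conjL.hasFDerivAt.comp_hasDerivWithinAt t h2
  have h4 : conjL ((x t).2, acc m (x t).1) = ((conjL (x t)).2, acc m (conjL (x t)).1) := by
    rw [conjL_apply, conjL_apply]
    ext a
    · rfl
    · exact (acc_conj m (x t).1 a).symm
  rw [← h4]
  exact h3

theorem mirror_stable (m : Fin 3 → ℝ) (x : ℝ → (Fin 3 → ℂ) × (Fin 3 → ℂ))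
    (hx : IsSolution m univ x) (hst : LyapunovStable m (range x)) :
    IsSolution m univ (fun t => (fun a => conj ((x t).1 a), fun a => conj ((x t).2 a))) ∧
    LyapunovStable m (range fun t => ((fun a => conj ((x t).1 a), fun a => conj ((x t).2 a)) :
      (Fin 3 → ℂ) × (Fin 3 → ℂ))) := by
  have heq : (fun t => ((fun a => conj ((x t).1 a), fun a => conj ((x t).2 a)) :
      (Fin 3 → ℂ) × (Fin 3 → ℂ))) = fun t => conjL (x t) := by
    funext t
    rw [conjL_apply]
  rw [heq]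
  refine ⟨conjL_solution hx, ?_⟩
  intro U₁ hU₁ hsub
  obtain ⟨U₂, hU₂, hsub2, h2⟩ := hst (conjL ⁻¹' U₁) (hU₁.preimage conjL.continuous) (by
    rintro _ ⟨t, rfl⟩
    exact hsub ⟨t, rfl⟩)
  refine ⟨conjL ⁻¹' U₂, hU₂.preimage conjL.continuous, ?_, ?_⟩
  · rintro _ ⟨t, rfl⟩
    change conjL (conjL (x t)) ∈ U₂
    rw [conjL_conjL]
    exact hsub2 ⟨t, rfl⟩
  · intro τ hτ y hy hy0 t ht
    have h3 := h2 τ hτ (fun t => conjL (y t)) (conjL_solution hy) hy0 t ht
    change conjL (conjL (y t)) ∈ U₁ at h3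
    rw [conjL_conjL] at h3
    exact h3

end Pool.Agent.MP_5027f4_ell
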